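import Pool.Agent.Grid3D.Basic

set_option autoImplicit false

open Classical Finset

namespace Pool.Agent.Grid3D.A2

/-- the edges `(c,d)`, `c < d < n`, of `G` -/
noncomputable def edg (G : SimpleGraph ℕ) (n : ℕ) : Finset (ℕ × ℕ) :=
  (range n ×ˢ range n).filter (fun p => p.1 < p.2 ∧ G.Adj p.1 p.2)

/-- the back neighbours of `s` -/
noncomputable def bn (G : SimpleGraph ℕ) (s : ℕ) : Finset ℕ := (range s).filter (fun c => G.Adj c s)

/-- all neighbours below `n` -/
noncomputable def nb (G : SimpleGraph ℕ) (n v : ℕ) : Finset ℕ := (range n).filter (fun c => G.Adj c v)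

/-- admissible pairs -/
noncomputable def adm (G : SimpleGraph ℕ) (s : ℕ) : Finset (ℕ × ℕ) :=
  (range s ×ˢ range s).filter (fun p => p.1 < p.2 ∧ (G.Adj p.1 p.2 ∨ G.Adj s p.1 ∨ G.Adj s p.2))

theorem sum_bn (G : SimpleGraph ℕ) (n : ℕ) :
    ∑ s ∈ range n, (bn G s).card = (edg G n).card := by
  rw [edg, Finset.card_filter, Finset.sum_product_right]
  refine sum_congr rfl fun s hs => ?_
  rw [← Finset.card_filter]
  congr 1
  ext c
  simp only [bn, mem_filter, mem_range] at hs ⊢
  constructor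
  · rintro ⟨h1, h2⟩
    exact ⟨h1.trans hs, h1, h2⟩
  · rintro ⟨h1, h2, h3⟩
    exact ⟨h2, h3⟩

theorem edg_mono (G : SimpleGraph ℕ) {a b : ℕ} (h : a ≤ b) : edg G a ⊆ edg G b := by
  intro p
  simp only [edg, mem_filter, mem_product, mem_range]
  rintro ⟨⟨h1, h2⟩, h3⟩
  exact ⟨⟨by omega, by omega⟩, h3⟩

theorem adm_card_le (G : SimpleGraph ℕ) (s : ℕ) :
    (adm G s).card ≤ (edg G s).card + (bn G s).card * s := by
  have h : adm G s ⊆ edg G s ∪ ((bn G s) ×ˢ (range s)).image
      (fun p => if p.1 < p.2 then (p.1, p.2) else (p.2, p.1)) := by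
    rintro ⟨c, d⟩ h
    simp only [adm, mem_filter, mem_product, mem_range] at h
    obtain ⟨⟨hc, hd⟩, hcd, h1 | h2 | h3⟩ := h
    · exact mem_union_left _ (by simp [edg, hc, hd, hcd, h1])
    · refine mem_union_right _ (mem_image.2 ⟨(c, d), ?_, by simp [hcd]⟩)
      simp [bn, hc, hd, h2.symm]
    · refine mem_union_right _ (mem_image.2 ⟨(d, c), ?_, by simp [hcd.le]⟩)
      simp [bn, hc, hd, h3.symm]
  calc (adm G s).card ≤ _ := card_le_card h
    _ ≤ _ := card_union_le _ _
    _ ≤ _ := by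
      gcongr
      refine card_image_le.trans ?_
      simp

theorem sum_adm (G : SimpleGraph ℕ) (n : ℕ) :
    ∑ s ∈ range n, (adm G s).card ≤ 2 * n * (edg G n).card := by
  calc ∑ s ∈ range n, (adm G s).card
      ≤ ∑ s ∈ range n, ((edg G n).card + (bn G s).card * n) := by
        refine sum_le_sum fun s hs => ?_
        have hs' := (mem_range.1 hs).le
        refine (adm_card_le G s).trans ?_
        gcongr
        exact edg_mono G hs'
    _ = n * (edg G n).card + (∑ s ∈ range n, (bn G s).card) * n := by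
        rw [sum_add_distrib, sum_mul]; simp
    _ = _ := by rw [sum_bn]; ring

theorem sum_nb (G : SimpleGraph ℕ) (n : ℕ) :
    ∑ v ∈ range n, (nb G n v).card = 2 * (edg G n).card := by
  have h1 : ∑ v ∈ range n, (nb G n v).card
      = ((range n ×ˢ range n).filter (fun p => G.Adj p.2 p.1)).card := by
    rw [Finset.card_filter, Finset.sum_product]
    refine sum_congr rfl fun v _ => ?_
    rw [nb, Finset.card_filter]
  have h2 : (range n ×ˢ range n).filter (fun p => G.Adj p.2 p.1)
      = edg G n ∪ (edg G n).map ⟨Prod.swap, Prod.swap_injective⟩ := by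
    ext ⟨a, b⟩
    simp only [edg, mem_filter, mem_product, mem_range, mem_union, mem_map,
      Function.Embedding.coeFn_mk, Prod.exists, Prod.swap_prod_mk, Prod.mk.injEq]
    constructor
    · rintro ⟨⟨ha, hb⟩, h⟩
      rcases lt_trichotomy a b with hab | hab | hab
      · exact Or.inl ⟨⟨ha, hb⟩, hab, h.symm⟩
      · subst hab; exact absurd h (G.loopless.irrefl _)
      · exact Or.inr ⟨b, a, ⟨⟨hb, ha⟩, hab, h⟩, rfl, rfl⟩
    · rintro (⟨⟨ha, hb⟩, hab, h⟩ | ⟨c, d, ⟨⟨hc, hd⟩, hcd, h⟩, rfl, rfl⟩)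
      · exact ⟨⟨ha, hb⟩, h.symm⟩
      · exact ⟨⟨hd, hc⟩, h⟩
  rw [h1, h2, card_union_of_disjoint, card_map]
  · ring
  · rw [Finset.disjoint_left]
    rintro ⟨a, b⟩ h1 h2
    simp only [edg, mem_filter, mem_product, mem_range, mem_map,
      Function.Embedding.coeFn_mk, Prod.exists, Prod.swap_prod_mk, Prod.mk.injEq] at h1 h2
    obtain ⟨c, d, ⟨_, hcd, _⟩, rfl, rfl⟩ := h2
    exact absurd hcd (by omega)

/-- few vertices have a high degree -/
theorem card_high (G : SimpleGraph ℕ) (n D : ℕ) :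
    D * ((range n).filter (fun v => D < (nb G n v).card)).card ≤ 2 * (edg G n).card := by
  rw [← sum_nb, mul_comm, ← smul_eq_mul, ← Finset.sum_const]
  calc ∑ _v ∈ (range n).filter (fun v => D < (nb G n v).card), D
      ≤ ∑ v ∈ (range n).filter (fun v => D < (nb G n v).card), (nb G n v).card :=
        sum_le_sum fun v hv => (mem_filter.1 hv).2.le
    _ ≤ _ := sum_le_sum_of_subset (filter_subset _ _)

theorem sum_sq_low (G : SimpleGraph ℕ) (n D : ℕ) :
    ∑ v ∈ (range n).filter (fun v => (nb G n v).card ≤ D), (nb G n v).card ^ 2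
      ≤ 2 * D * (edg G n).card := by
  calc ∑ v ∈ (range n).filter (fun v => (nb G n v).card ≤ D), (nb G n v).card ^ 2
      ≤ ∑ v ∈ (range n).filter (fun v => (nb G n v).card ≤ D), D * (nb G n v).card := by
        refine sum_le_sum fun v hv => ?_
        rw [sq]
        exact Nat.mul_le_mul_right _ (mem_filter.1 hv).2
    _ ≤ ∑ v ∈ range n, D * (nb G n v).card := sum_le_sum_of_subset (filter_subset _ _)
    _ = _ := by rw [← mul_sum, sum_nb]; ring

theorem edg_card_le (G : SimpleGraph ℕ) (n : ℕ) : (edg G n).card ≤ n ^ 2 := by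
  refine (card_filter_le _ _).trans ?_
  simp [sq]

end Pool.Agent.Grid3D.A2
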