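import Pool.Agent.Grid3D.LLL

set_option autoImplicit false

/-! Averages over a product set: functions of one, two, three, four coordinates. -/

namespace Pool.Agent.Grid3D

open Finset Classical

noncomputable section

section

variable {V β : Type*} [Fintype V] [DecidableEq V]

/-- average over the product set -/
def Ev (Y : V → Finset β) (F : (V → β) → ℝ) : ℝ :=
  (∑ p ∈ Fintype.piFinset Y, F p) / ((Fintype.piFinset Y).card : ℝ)

/-- average over a finset -/
def av (S : Finset β) (f : β → ℝ) : ℝ := (∑ y ∈ S, f y) / (S.card : ℝ)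

lemma av_mono {S : Finset β} {f g : β → ℝ} (h : ∀ y ∈ S, f y ≤ g y) : av S f ≤ av S g :=
  div_le_div_of_nonneg_right (Finset.sum_le_sum h) (Nat.cast_nonneg _)

lemma av_congr {S : Finset β} {f g : β → ℝ} (h : ∀ y ∈ S, f y = g y) : av S f = av S g := by
  unfold av
  rw [Finset.sum_congr rfl h]

lemma av_const {S : Finset β} (hS : S.Nonempty) (c : ℝ) : av S (fun _ => c) = c := by
  unfold av
  rw [Finset.sum_const, nsmul_eq_mul]
  have : (S.card : ℝ) ≠ 0 := by exact_mod_cast hS.card_pos.ne'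
  field_simp

lemma av_singleton (x : β) (f : β → ℝ) : av {x} f = f x := by
  unfold av
  simp

lemma av_nonneg {S : Finset β} {f : β → ℝ} (h : ∀ y ∈ S, 0 ≤ f y) : 0 ≤ av S f :=
  div_nonneg (Finset.sum_nonneg h) (Nat.cast_nonneg _)

variable (Y : V → Finset β)

lemma sum_update (v : V) (F : (V → β) → ℝ) :
    (∑ p ∈ Fintype.piFinset Y, F p) * ((Y v).card : ℝ) =
      ∑ p ∈ Fintype.piFinset Y, ∑ y ∈ Y v, F (Function.update p v y) := by
  have h1 : (∑ p ∈ Fintype.piFinset Y, F p) * ((Y v).card : ℝ) =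
      ∑ x ∈ Fintype.piFinset Y ×ˢ Y v, F x.1 := by
    rw [Finset.sum_product, Finset.sum_mul]
    refine Finset.sum_congr rfl (fun p _ => ?_)
    show _ = ∑ _y ∈ Y v, F p
    rw [Finset.sum_const, nsmul_eq_mul, mul_comm]
  rw [h1, ← Finset.sum_product']
  refine Finset.sum_nbij' (fun x => (Function.update x.1 v x.2, x.1 v))
    (fun x => (Function.update x.1 v x.2, x.1 v)) ?_ ?_ ?_ ?_ ?_
  · rintro ⟨p, y⟩ h
    rw [Finset.mem_product, Fintype.mem_piFinset] at h ⊢
    refine ⟨fun u => ?_, h.1 v⟩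
    by_cases hu : u = v
    · subst hu; simpa using h.2
    · simpa [Function.update_of_ne hu] using h.1 u
  · rintro ⟨p, y⟩ h
    rw [Finset.mem_product, Fintype.mem_piFinset] at h ⊢
    refine ⟨fun u => ?_, h.1 v⟩
    by_cases hu : u = v
    · subst hu; simpa using h.2
    · simpa [Function.update_of_ne hu] using h.1 u
  · rintro ⟨p, y⟩ _
    simp
  · rintro ⟨p, y⟩ _
    simp
  · rintro ⟨p, y⟩ _
    simp

variable {Y}

lemma card_pi_pos (hY : ∀ v, (Y v).Nonempty) : (0 : ℝ) < ((Fintype.piFinset Y).card : ℝ) := by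
  choose x hx using hY
  have : (Fintype.piFinset Y).Nonempty := ⟨x, by simp [hx]⟩
  exact_mod_cast this.card_pos

lemma Ev_mono {F F' : (V → β) → ℝ} (h : ∀ p ∈ Fintype.piFinset Y, F p ≤ F' p) :
    Ev Y F ≤ Ev Y F' :=
  div_le_div_of_nonneg_right (Finset.sum_le_sum h) (Nat.cast_nonneg _)

lemma Ev_sum {α : Type*} (S : Finset α) (F : α → (V → β) → ℝ) :
    Ev Y (fun p => ∑ a ∈ S, F a p) = ∑ a ∈ S, Ev Y (F a) := by
  unfold Ev
  rw [Finset.sum_comm, Finset.sum_div]

lemma Ev_add (F F' : (V → β) → ℝ) : Ev Y (fun p => F p + F' p) = Ev Y F + Ev Y F' := by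
  unfold Ev
  rw [Finset.sum_add_distrib, add_div]

lemma Ev_const_mul (c : ℝ) (F : (V → β) → ℝ) : Ev Y (fun p => c * F p) = c * Ev Y F := by
  unfold Ev
  rw [← Finset.mul_sum, mul_div_assoc]

lemma Ev_zero : Ev Y (fun _ => 0) = 0 := by
  unfold Ev
  simp

lemma Ev_av {α : Type*} (S : Finset α) (F : α → (V → β) → ℝ) :
    Ev Y (fun p => av S (fun a => F a p)) = av S (fun a => Ev Y (F a)) := by
  unfold Ev av
  rw [← Finset.sum_div, ← Finset.sum_div, Finset.sum_comm]
  ring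

lemma Ev_update (hY : ∀ v, (Y v).Nonempty) (v : V) (F : (V → β) → ℝ) :
    Ev Y F = Ev Y (fun p => av (Y v) (fun y => F (Function.update p v y))) := by
  have h := sum_update Y v F
  have hv : ((Y v).card : ℝ) ≠ 0 := by exact_mod_cast (hY v).card_pos.ne'
  have hΩ := (card_pi_pos hY).ne'
  unfold Ev av
  rw [← Finset.sum_div, ← h]
  field_simp

lemma Ev_const (hY : ∀ v, (Y v).Nonempty) (c : ℝ) : Ev Y (fun _ => c) = c := by
  have hΩ := (card_pi_pos hY).ne'
  unfold Ev
  rw [Finset.sum_const, nsmul_eq_mul]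
  field_simp

lemma Ev1 (hY : ∀ v, (Y v).Nonempty) (v : V) (g : β → ℝ) :
    Ev Y (fun p => g (p v)) = av (Y v) g := by
  rw [Ev_update hY v]
  simp only [Function.update_self]
  exact Ev_const hY _

lemma Ev2 (hY : ∀ v, (Y v).Nonempty) {v0 v1 : V} (h01 : v0 ≠ v1) (g : β → β → ℝ) :
    Ev Y (fun p => g (p v0) (p v1)) = av (Y v0) (fun y0 => av (Y v1) (fun y1 => g y0 y1)) := by
  rw [Ev_update hY v0]
  simp only [Function.update_self, Function.update_of_ne h01.symm]
  rw [Ev_av (Y v0) (fun y0 p => g y0 (p v1))]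
  exact av_congr (fun y0 _ => Ev1 hY v1 (g y0))

lemma Ev3 (hY : ∀ v, (Y v).Nonempty) {v0 v1 v2 : V} (h01 : v0 ≠ v1) (h02 : v0 ≠ v2)
    (h12 : v1 ≠ v2) (g : β → β → β → ℝ) :
    Ev Y (fun p => g (p v0) (p v1) (p v2)) =
      av (Y v0) (fun y0 => av (Y v1) (fun y1 => av (Y v2) (fun y2 => g y0 y1 y2))) := by
  rw [Ev_update hY v0]
  simp only [Function.update_self, Function.update_of_ne h01.symm, Function.update_of_ne h02.symm]
  rw [Ev_av (Y v0) (fun y0 p => g y0 (p v1) (p v2))]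
  exact av_congr (fun y0 _ => Ev2 hY h12 (g y0))

lemma Ev4 (hY : ∀ v, (Y v).Nonempty) {v0 v1 v2 v3 : V} (h01 : v0 ≠ v1) (h02 : v0 ≠ v2)
    (h03 : v0 ≠ v3) (h12 : v1 ≠ v2) (h13 : v1 ≠ v3) (h23 : v2 ≠ v3) (g : β → β → β → β → ℝ) :
    Ev Y (fun p => g (p v0) (p v1) (p v2) (p v3)) =
      av (Y v0) (fun y0 => av (Y v1) (fun y1 => av (Y v2) (fun y2 => av (Y v3)
        (fun y3 => g y0 y1 y2 y3)))) := by
  rw [Ev_update hY v0]
  simp only [Function.update_self, Function.update_of_ne h01.symm, Function.update_of_ne h02.symm,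
    Function.update_of_ne h03.symm]
  rw [Ev_av (Y v0) (fun y0 p => g y0 (p v1) (p v2) (p v3))]
  exact av_congr (fun y0 _ => Ev3 hY h12 h13 h23 (g y0))

/-- Some point of the product set is at most the average. -/
lemma exists_le_Ev (hY : ∀ v, (Y v).Nonempty) (F : (V → β) → ℝ) {c : ℝ} (h : Ev Y F ≤ c) :
    ∃ p ∈ Fintype.piFinset Y, F p ≤ c := by
  have hΩ := card_pi_pos hY
  have hne : (Fintype.piFinset Y).Nonempty := by
    rw [← Finset.card_pos]; exact_mod_cast hΩ
  by_contra hcon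
  push Not at hcon
  have h1 : ∑ p ∈ Fintype.piFinset Y, c < ∑ p ∈ Fintype.piFinset Y, F p :=
    Finset.sum_lt_sum_of_nonempty hne hcon
  rw [Finset.sum_const, nsmul_eq_mul] at h1
  unfold Ev at h
  rw [div_le_iff₀ hΩ] at h
  linarith

end

end

end Pool.Agent.Grid3D
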