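import Mathlib

set_option autoImplicit false

namespace Pool.Agent.Grid3D

/-- Grid points of 3-space. -/
abbrev Pt := Fin 3 → ℤ

/-- The box `{0, …, N-1}^3`. -/
noncomputable def box (N : ℕ) : Finset Pt := Fintype.piFinset (fun _ => Finset.Ico (0 : ℤ) N)

/-- dot product -/
def dot (a b : Pt) : ℤ := a 0 * b 0 + a 1 * b 1 + a 2 * b 2

/-- cross product -/
def cross (a b : Pt) : Pt :=
  ![a 1 * b 2 - a 2 * b 1, a 2 * b 0 - a 0 * b 2, a 0 * b 1 - a 1 * b 0]

/-- sup norm as a natural number -/
def nrm (a : Pt) : ℕ := max (a 0).natAbs (max (a 1).natAbs (a 2).natAbs)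

/-- the content (gcd of the coordinates) -/
def content (a : Pt) : ℕ := Int.gcd (a 0) (Int.gcd (a 1) (a 2))

/-- primitive vectors -/
def Prim (a : Pt) : Prop := content a = 1

instance : DecidablePred Prim := fun a => decEq (content a) 1

/-- `nrm e(a,b)`: sup norm of the primitive direction of `b - a` (`0` if `a = b`) -/
def dirN (a b : Pt) : ℕ := nrm (b - a) / content (b - a)

/-- Coplanarity of four points. -/
def Cop (p q r s : Pt) : Prop := dot (q - p) (cross (r - p) (s - p)) = 0

/-- Collinearity of three points. -/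
def Col (p q r : Pt) : Prop := cross (q - p) (r - p) = 0

instance (p q r s : Pt) : Decidable (Cop p q r s) := inferInstanceAs (Decidable (_ = _))
instance (p q r : Pt) : Decidable (Col p q r) := inferInstanceAs (Decidable (_ = _))

/-- The plane `{x ∈ box : m·x = c}`. -/
noncomputable def plane (N : ℕ) (m : Pt) (c : ℤ) : Finset Pt := (box N).filter (fun x => dot m x = c)

/-- The primitive vectors of sup norm at most `M`  (normals of the *small* planes). -/
noncomputable def normals (M : ℕ) : Finset Pt :=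
  (Fintype.piFinset (fun _ => Finset.Icc (-(M : ℤ)) M)).filter Prim

/-- A good placement of the first `n` vertices of a graph on `ℕ`. -/
structure Good (N n : ℕ) (G : SimpleGraph ℕ) (φ : ℕ → Pt) : Prop where
  mem : ∀ v < n, φ v ∈ box N
  inj : ∀ u < n, ∀ v < n, φ u = φ v → u = v
  ncol : ∀ u < n, ∀ v < n, ∀ w < n, G.Adj u v → w ≠ u → w ≠ v → ¬ Col (φ u) (φ v) (φ w)
  ncop : ∀ a < n, ∀ b < n, ∀ c < n, ∀ d < n, G.Adj a b → G.Adj c d →
    a ≠ c → a ≠ d → b ≠ c → b ≠ d → ¬ Cop (φ a) (φ b) (φ c) (φ d)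

end Pool.Agent.Grid3D
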