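import Pool.Agent.Grid3D.Par

/-!
# Regime 2: SPEC (statement only)
-/

set_option autoImplicit false

open Classical Finset

noncomputable section

namespace Pool.Agent.Grid3D

/-- The result of regime 2 (`n > N^{1+η}`), used in the final assembly. -/
def Regime2 : Prop :=
  ∃ K0 : ℝ, 0 < K0 ∧ ∃ N0 : ℕ, ∀ N ≥ N0, 0 < N → ∀ (G : SimpleGraph ℕ) (n : ℕ), ¬ NBound N n →
    1 ≤ edgeCount G n → K0 * edgeCount G n * n ≤ (N : ℝ) ^ 3 → ∃ φ, Good N n G φ

end Pool.Agent.Grid3D
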