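import Pool.Agent.Grid3D.Regime1Spec
import Pool.Agent.Grid3D.Regime2Spec

/-!
# Final assembly
-/

set_option autoImplicit false

open Finset

namespace Pool.Agent.Grid3D

/-- real point -/
def rp (a : Pt) : Fin 3 → ℝ := fun i => (a i : ℝ)

theorem rp_inj {a b : Pt} (h : rp a = rp b) : a = b := by
  funext i
  have := congrFun h i
  simpa [rp] using this

theorem mem_seg {a b : Pt} {z : Fin 3 → ℝ} (hz : z ∈ segment ℝ (rp a) (rp b)) :
    ∃ t : ℝ, ∀ i, z i = a i + t * (b i - a i) := by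
  rw [segment_eq_image'] at hz
  obtain ⟨t, _, rfl⟩ := hz
  exact ⟨t, fun i => by simp [rp]⟩

theorem col_of_real {a b c : Pt} (h0 : ((b 1 - a 1 : ℤ) : ℝ) * ((c 2 - a 2 : ℤ) : ℝ) = ((b 2 - a 2 : ℤ) : ℝ) * ((c 1 - a 1 : ℤ) : ℝ))
    (h1 : ((b 2 - a 2 : ℤ) : ℝ) * ((c 0 - a 0 : ℤ) : ℝ) = ((b 0 - a 0 : ℤ) : ℝ) * ((c 2 - a 2 : ℤ) : ℝ))
    (h2 : ((b 0 - a 0 : ℤ) : ℝ) * ((c 1 - a 1 : ℤ) : ℝ) = ((b 1 - a 1 : ℤ) : ℝ) * ((c 0 - a 0 : ℤ) : ℝ)) :
    Col a b c := by
  have e0 : (b 1 - a 1) * (c 2 - a 2) = (b 2 - a 2) * (c 1 - a 1) := by exact_mod_cast h0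
  have e1 : (b 2 - a 2) * (c 0 - a 0) = (b 0 - a 0) * (c 2 - a 2) := by exact_mod_cast h1
  have e2 : (b 0 - a 0) * (c 1 - a 1) = (b 1 - a 1) * (c 0 - a 0) := by exact_mod_cast h2
  unfold Col cross
  funext i
  fin_cases i
  · simp; linarith
  · simp; linarith
  · simp; linarith

theorem col_of_mem {a b c : Pt} (h : rp c ∈ segment ℝ (rp a) (rp b)) : Col a b c := by
  obtain ⟨t, ht⟩ := mem_seg h
  have h0 := ht 0
  have h1 := ht 1
  have h2 := ht 2
  simp only [rp] at h0 h1 h2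
  apply col_of_real
  · push_cast; rw [h1, h2]; ring
  · push_cast; rw [h0, h2]; ring
  · push_cast; rw [h0, h1]; ring

theorem seg_share {a b c : Pt} (h : ¬ Col a b c) {z : Fin 3 → ℝ}
    (hz1 : z ∈ segment ℝ (rp a) (rp b)) (hz2 : z ∈ segment ℝ (rp a) (rp c)) : z = rp a := by
  obtain ⟨s, hs⟩ := mem_seg hz1
  obtain ⟨t, ht⟩ := mem_seg hz2
  by_cases hs0 : s = 0
  · funext i
    rw [hs i, hs0]; simp [rp]
  by_cases ht0 : t = 0
  · funext i
    rw [ht i, ht0]; simp [rp]
  exfalso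
  apply h
  have key : ∀ i, ((b i : ℝ) - a i) = (t / s) * ((c i : ℝ) - a i) := by
    intro i
    have e := (hs i).symm.trans (ht i)
    have e' : s * ((b i : ℝ) - a i) = t * ((c i : ℝ) - a i) := by linarith
    field_simp
    linarith
  apply col_of_real
  · push_cast; rw [key 1, key 2]; ring
  · push_cast; rw [key 0, key 2]; ring
  · push_cast; rw [key 0, key 1]; ring

theorem cop_of_mem {a b c d : Pt} {z : Fin 3 → ℝ}
    (hz1 : z ∈ segment ℝ (rp a) (rp b)) (hz2 : z ∈ segment ℝ (rp c) (rp d)) : Cop a b c d := by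
  obtain ⟨s, hs⟩ := mem_seg hz1
  obtain ⟨t, ht⟩ := mem_seg hz2
  have key : ∀ i, ((c i : ℝ) - a i) = s * ((b i : ℝ) - a i) - t * ((d i : ℝ) - c i) := by
    intro i
    have e := (hs i).symm.trans (ht i)
    linarith
  have key' : ∀ i, ((d i : ℝ) - a i) = s * ((b i : ℝ) - a i) + (1 - t) * ((d i : ℝ) - c i) := by
    intro i
    have := key i
    linarith
  have main : ((dot (b - a) (cross (c - a) (d - a)) : ℤ) : ℝ) = 0 := by
    unfold dot cross
    simp only [Pi.sub_apply, Matrix.cons_val_zero, Matrix.cons_val_one, Matrix.cons_val]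
    push_cast
    rw [key 0, key 1, key 2, key' 0, key' 1, key' 2]
    ring
  unfold Cop
  exact_mod_cast main

/-- the extension of a graph on `Fin n` to `ℕ` -/
def ext {n : ℕ} (G : SimpleGraph (Fin n)) : SimpleGraph ℕ := G.map Fin.valEmbedding

theorem ext_adj {n : ℕ} (G : SimpleGraph (Fin n)) (u v : Fin n) : (ext G).Adj u v ↔ G.Adj u v := by
  unfold ext
  rw [SimpleGraph.map_adj]
  constructor
  · rintro ⟨u', v', h, h1, h2⟩
    have e1 : u' = u := Fin.ext (by simpa using h1)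
    have e2 : v' = v := Fin.ext (by simpa using h2)
    rw [← e1, ← e2]; exact h
  · intro h
    exact ⟨u, v, h, rfl, rfl⟩

theorem edgeCount_le {n : ℕ} (G : SimpleGraph (Fin n)) : edgeCount (ext G) n ≤ G.edgeSet.ncard := by
  classical
  have hfin : G.edgeSet.Finite := Set.toFinite _
  rw [Set.ncard_eq_toFinset_card _ hfin]
  unfold edgeCount
  by_cases hn : n = 0
  · subst hn; simp
  have hn0 : 0 < n := Nat.pos_of_ne_zero hn
  let g : ℕ → Fin n := fun a => ⟨a % n, Nat.mod_lt _ hn0⟩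
  have hg : ∀ a, a < n → ((g a : Fin n) : ℕ) = a := fun a ha => Nat.mod_eq_of_lt ha
  apply Finset.card_le_card_of_injOn (fun q => s(g q.1, g q.2))
  · rintro ⟨a, b⟩ hq
    simp only [Finset.coe_filter, Finset.mem_product, Finset.mem_range, Set.mem_ofPred_eq] at hq
    simp only [Set.Finite.coe_toFinset, SimpleGraph.mem_edgeSet]
    rw [← ext_adj, hg a hq.1.1, hg b hq.1.2]
    exact hq.2.2
  · rintro ⟨a, b⟩ hq ⟨c, d⟩ hr h
    simp only [Finset.coe_filter, Finset.mem_product, Finset.mem_range, Set.mem_ofPred_eq] at hq hr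
    simp only [Sym2.eq_iff] at h
    have ha := hg a hq.1.1
    have hb := hg b hq.1.2
    have hc := hg c hr.1.1
    have hd := hg d hr.1.2
    rcases h with ⟨h1, h2⟩ | ⟨h1, h2⟩
    · have e1 := congrArg Fin.val h1
      have e2 := congrArg Fin.val h2
      rw [ha, hc] at e1
      rw [hb, hd] at e2
      rw [e1, e2]
    · have e1 := congrArg Fin.val h1
      have e2 := congrArg Fin.val h2
      rw [ha, hd] at e1
      rw [hb, hc] at e2
      have := hq.2.1
      have := hr.2.1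
      omega

/-- the conclusion for one graph -/
def Drawn (C : ℝ) (n : ℕ) (G : SimpleGraph (Fin n)) : Prop :=
      ∃ (f : Fin n → Fin 3 → ℤ) (b : Fin 3 → ℕ),
        (∀ v i, 0 ≤ f v i ∧ f v i < (b i : ℤ)) ∧
        Function.Injective f ∧
        (∀ u v w : Fin n, G.Adj u v → w ≠ u → w ≠ v →
          (fun i => (f w i : ℝ)) ∉
            segment ℝ (fun i => (f u i : ℝ)) (fun i => (f v i : ℝ))) ∧
        (∀ u v x y : Fin n, G.Adj u v → G.Adj x y → s(u, v) ≠ s(x, y) →
          ∀ z ∈ segment ℝ (fun i => (f u i : ℝ)) (fun i => (f v i : ℝ)),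
            z ∈ segment ℝ (fun i => (f x i : ℝ)) (fun i => (f y i : ℝ)) →
              (z = (fun i => (f u i : ℝ)) ∨ z = (fun i => (f v i : ℝ))) ∧
              (z = (fun i => (f x i : ℝ)) ∨ z = (fun i => (f y i : ℝ)))) ∧
        ((∏ i, b i : ℕ) : ℝ) ≤ C * ((G.edgeSet.ncard : ℝ) + 1) * (n : ℝ)

theorem drawn_zero {C : ℝ} {G : SimpleGraph (Fin 0)} : Drawn C 0 G := by
  refine ⟨fun v => v.elim0, fun _ => 0, fun v => v.elim0, fun v => v.elim0, fun u => u.elim0,
    fun u => u.elim0, ?_⟩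
  simp

theorem drawn_line {C : ℝ} (hC : 1 ≤ C) {n : ℕ} {G : SimpleGraph (Fin n)}
    (h : ∀ u v, ¬ G.Adj u v) : Drawn C n G := by
  refine ⟨fun v i => if i = 0 then (v : ℤ) else 0, fun i => if i = 0 then n else 1, ?_, ?_, ?_, ?_, ?_⟩
  · intro v i
    by_cases hi : i = 0
    · simp [hi]
    · simp [hi]
  · intro u v huv
    have := congrFun huv 0
    simp only [if_true] at this
    exact Fin.ext (by exact_mod_cast this)
  · intro u v w huv
    exact absurd huv (h u v)
  · intro u v x y huv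
    exact absurd huv (h u v)
  · have e : (∏ i : Fin 3, (if i = 0 then n else 1) : ℕ) = n := by
      simp
    rw [e]
    have hk : (0 : ℝ) ≤ (G.edgeSet.ncard : ℝ) := Nat.cast_nonneg _
    have hn : (0 : ℝ) ≤ (n : ℝ) := Nat.cast_nonneg _
    have h1 : (1 : ℝ) ≤ C * ((G.edgeSet.ncard : ℝ) + 1) := by nlinarith
    calc (n : ℝ) = 1 * (n : ℝ) := by ring
      _ ≤ C * ((G.edgeSet.ncard : ℝ) + 1) * (n : ℝ) := mul_le_mul_of_nonneg_right h1 hn

theorem drawn_of_good {C : ℝ} {N n : ℕ} {G : SimpleGraph (Fin n)} {φ : ℕ → Pt}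
    (h : Good N n (ext G) φ)
    (hv : (N : ℝ) ^ 3 ≤ C * ((G.edgeSet.ncard : ℝ) + 1) * (n : ℝ)) : Drawn C n G := by
  have hinj : ∀ u v : Fin n, φ u = φ v → u = v := fun u v e => Fin.ext (h.inj u u.2 v v.2 e)
  have hcol : ∀ u v w : Fin n, G.Adj u v → w ≠ u → w ≠ v → ¬ Col (φ u) (φ v) (φ w) := by
    intro u v w huv h1 h2
    exact h.ncol u u.2 v v.2 w w.2 ((ext_adj G u v).2 huv) (fun e => h1 (Fin.ext e))
      (fun e => h2 (Fin.ext e))
  have hcop : ∀ a b c d : Fin n, G.Adj a b → G.Adj c d → a ≠ c → a ≠ d → b ≠ c → b ≠ d →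
      ¬ Cop (φ a) (φ b) (φ c) (φ d) := by
    intro a b c d h1 h2 h3 h4 h5 h6
    exact h.ncop a a.2 b b.2 c c.2 d d.2 ((ext_adj G a b).2 h1) ((ext_adj G c d).2 h2)
      (fun e => h3 (Fin.ext e)) (fun e => h4 (Fin.ext e)) (fun e => h5 (Fin.ext e))
      (fun e => h6 (Fin.ext e))
  refine ⟨fun v => φ v, fun _ => N, ?_, ?_, ?_, ?_, ?_⟩
  · intro v i
    have := h.mem v v.2
    unfold box at this
    rw [Fintype.mem_piFinset] at this
    have := this i
    rw [Finset.mem_Ico] at this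
    exact this
  · intro u v huv
    exact hinj u v huv
  · intro u v w huv h1 h2 hseg
    exact hcol u v w huv h1 h2 (col_of_mem hseg)
  · intro u v x y huv hxy hne z hz1 hz2
    change z ∈ segment ℝ (rp (φ u)) (rp (φ v)) at hz1
    change z ∈ segment ℝ (rp (φ x)) (rp (φ y)) at hz2
    change (z = rp (φ u) ∨ z = rp (φ v)) ∧ (z = rp (φ x) ∨ z = rp (φ y))
    by_cases h1 : u = x
    · subst h1
      have hvy : v ≠ y := by rintro rfl; exact hne rfl
      have := seg_share (hcol u v y huv (G.ne_of_adj hxy).symm (Ne.symm hvy)) hz1 hz2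
      exact ⟨Or.inl this, Or.inl this⟩
    by_cases h2 : u = y
    · subst h2
      have hvx : v ≠ x := by rintro rfl; exact hne Sym2.eq_swap
      have := seg_share (hcol u v x huv (G.ne_of_adj hxy) (Ne.symm hvx)) hz1
        (by rw [segment_symm]; exact hz2)
      exact ⟨Or.inl this, Or.inr this⟩
    by_cases h3 : v = x
    · subst h3
      have huy : u ≠ y := h2
      have := seg_share (hcol v u y huv.symm (G.ne_of_adj hxy).symm (Ne.symm huy))
        (by rw [segment_symm]; exact hz1) hz2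
      exact ⟨Or.inr this, Or.inl this⟩
    by_cases h4 : v = y
    · subst h4
      have := seg_share (hcol v u x huv.symm (G.ne_of_adj hxy) (Ne.symm h1))
        (by rw [segment_symm]; exact hz1) (by rw [segment_symm]; exact hz2)
      exact ⟨Or.inr this, Or.inr this⟩
    exact absurd (cop_of_mem hz1 hz2) (hcop u v x y huv hxy h1 h2 h3 h4)
  · have e : (∏ _i : Fin 3, N : ℕ) = N ^ 3 := by simp
    rw [e]; push_cast; exact hv

theorem final_of (hR1 : Regime1) (hR2 : Regime2) :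
    ∃ C : ℝ, ∀ (n : ℕ) (G : SimpleGraph (Fin n)), Drawn C n G := by
  classical
  obtain ⟨K1, hK1, N1, h1⟩ := hR1
  obtain ⟨K2, hK2, N2, h2⟩ := hR2
  set K : ℝ := max K1 K2 with hK
  have hKpos : 0 < K := lt_max_of_lt_left hK1
  set N0 : ℕ := max (max N1 N2) 2 with hN0
  set C : ℝ := max ((N0 : ℝ) ^ 3) (8 * K) with hC
  have hN02 : 2 ≤ N0 := le_max_right _ _
  have hC1 : 1 ≤ C := by
    refine le_trans ?_ (le_max_left _ _)
    have : (1 : ℝ) ≤ (N0 : ℝ) := by
      have : 1 ≤ N0 := by omega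
      exact_mod_cast this
    exact one_le_pow₀ this
  refine ⟨C, fun n G => ?_⟩
  by_cases hn : n = 0
  · subst hn; exact drawn_zero
  by_cases hk : edgeCount (ext G) n = 0
  · apply drawn_line hC1
    intro u v huv
    unfold edgeCount at hk
    rw [Finset.card_eq_zero] at hk
    have hne := G.ne_of_adj huv
    have hmem : ∀ a b : Fin n, G.Adj a b → (a : ℕ) < b → False := by
      intro a b hab hlt
      have : ((a : ℕ), (b : ℕ)) ∈ ((range n ×ˢ range n).filter
          (fun q : ℕ × ℕ => q.1 < q.2 ∧ (ext G).Adj q.1 q.2)) := by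
        rw [Finset.mem_filter]
        refine ⟨?_, hlt, (ext_adj G a b).2 hab⟩
        rw [Finset.mem_product]
        exact ⟨Finset.mem_range.2 a.2, Finset.mem_range.2 b.2⟩
      have e : ((range n ×ˢ range n).filter
          (fun q : ℕ × ℕ => q.1 < q.2 ∧ (ext G).Adj q.1 q.2)) = ∅ := by
        convert hk
      rw [e] at this
      simp at this
    rcases lt_trichotomy (u : ℕ) (v : ℕ) with hlt | heq | hgt
    · exact hmem u v huv hlt
    · exact hne (Fin.ext heq)
    · exact hmem v u huv.symm hgt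
  · have hk1 : 1 ≤ edgeCount (ext G) n := Nat.one_le_iff_ne_zero.2 hk
    have hn1 : 1 ≤ n := Nat.one_le_iff_ne_zero.2 hn
    set k : ℕ := edgeCount (ext G) n with hkdef
    have hkn : (1 : ℝ) ≤ (k : ℝ) * n := by
      have a1 : (1 : ℝ) ≤ (k : ℝ) := by exact_mod_cast hk1
      have a2 : (1 : ℝ) ≤ (n : ℝ) := by exact_mod_cast hn1
      nlinarith
    have hex : ∃ N : ℕ, N0 ≤ N ∧ K * k * n ≤ (N : ℝ) ^ 3 := by
      obtain ⟨M, hM⟩ := exists_nat_ge (K * k * n)
      refine ⟨max N0 M, le_max_left _ _, ?_⟩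
      have hM1 : (1 : ℝ) ≤ ((max N0 M : ℕ) : ℝ) := by
        have : 1 ≤ max N0 M := le_trans (by omega) (le_max_left N0 M)
        exact_mod_cast this
      calc K * k * n ≤ (M : ℝ) := hM
        _ ≤ ((max N0 M : ℕ) : ℝ) := by exact_mod_cast le_max_right N0 M
        _ ≤ ((max N0 M : ℕ) : ℝ) ^ 3 := le_self_pow₀ hM1 (by norm_num)
    set N : ℕ := Nat.find hex with hN
    obtain ⟨hNge, hNK⟩ := Nat.find_spec hex
    rw [← hN] at hNge hNK
    have hvol : (N : ℝ) ^ 3 ≤ C * (k * n) := by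
      by_cases hNeq : N = N0
      · rw [hNeq]
        calc ((N0 : ℝ)) ^ 3 = (N0 : ℝ) ^ 3 * 1 := by ring
          _ ≤ C * (k * n) := by
            apply mul_le_mul (le_max_left _ _) hkn (by norm_num) (by linarith)
      · have hgt : N0 < N := lt_of_le_of_ne hNge (Ne.symm hNeq)
        have hmin := Nat.find_min hex (m := N - 1) (by rw [← hN]; omega)
        push Not at hmin
        have hlt := hmin (by omega)
        have hcast : ((N - 1 : ℕ) : ℝ) = (N : ℝ) - 1 := by
          rw [Nat.cast_sub (by omega)]; simp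
        rw [hcast] at hlt
        have hN2 : (2 : ℝ) ≤ (N : ℝ) := by
          have : 2 ≤ N := by omega
          exact_mod_cast this
        have h8 : (N : ℝ) ^ 3 ≤ 8 * ((N : ℝ) - 1) ^ 3 := by
          have : (N : ℝ) ≤ 2 * ((N : ℝ) - 1) := by linarith
          calc (N : ℝ) ^ 3 ≤ (2 * ((N : ℝ) - 1)) ^ 3 := pow_le_pow_left₀ (by linarith) this 3
            _ = 8 * ((N : ℝ) - 1) ^ 3 := by ring
        have hkn0 : (0 : ℝ) ≤ (k : ℝ) * n := by linarith
        calc (N : ℝ) ^ 3 ≤ 8 * ((N : ℝ) - 1) ^ 3 := h8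
          _ ≤ 8 * (K * k * n) := by linarith
          _ = (8 * K) * (k * n) := by ring
          _ ≤ C * (k * n) := mul_le_mul_of_nonneg_right (le_max_right _ _) hkn0
    have hvol' : (N : ℝ) ^ 3 ≤ C * ((G.edgeSet.ncard : ℝ) + 1) * (n : ℝ) := by
      have hle : (k : ℝ) ≤ (G.edgeSet.ncard : ℝ) := by exact_mod_cast edgeCount_le G
      have hn0 : (0 : ℝ) ≤ (n : ℝ) := Nat.cast_nonneg _
      calc (N : ℝ) ^ 3 ≤ C * (k * n) := hvol
        _ ≤ C * (((G.edgeSet.ncard : ℝ) + 1) * n) := by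
            apply mul_le_mul_of_nonneg_left _ (by linarith)
            apply mul_le_mul_of_nonneg_right _ hn0
            linarith
        _ = C * ((G.edgeSet.ncard : ℝ) + 1) * (n : ℝ) := by ring
    have hNpos : 0 < N := by omega
    have hkn0 : (0 : ℝ) ≤ (k : ℝ) * n := by linarith
    by_cases hNB : NBound N n
    · have hK' : K1 * k * n ≤ (N : ℝ) ^ 3 := by
        refine le_trans ?_ hNK
        have := mul_le_mul_of_nonneg_right (le_max_left K1 K2) hkn0
        calc K1 * k * n = K1 * (k * n) := by ring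
          _ ≤ K * (k * n) := this
          _ = K * k * n := by ring
      obtain ⟨φ, hφ⟩ := h1 N (le_trans (le_trans (le_max_left _ _) (le_max_left _ _)) hNge) hNpos
        (ext G) n hNB hK'
      exact drawn_of_good hφ hvol'
    · have hK' : K2 * k * n ≤ (N : ℝ) ^ 3 := by
        refine le_trans ?_ hNK
        have := mul_le_mul_of_nonneg_right (le_max_right K1 K2) hkn0
        calc K2 * k * n = K2 * (k * n) := by ring
          _ ≤ K * (k * n) := this
          _ = K * k * n := by ring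
      obtain ⟨φ, hφ⟩ := h2 N (le_trans (le_trans (le_max_right _ _) (le_max_left _ _)) hNge) hNpos
        (ext G) n hNB hk1 hK'
      exact drawn_of_good hφ hvol'

end Pool.Agent.Grid3D
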