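import Pool.Agent.Grid3D.Basic

set_option autoImplicit false

namespace Pool.Agent.Grid3D.Geo2

open Finset

lemma mem_box {N : ℕ} {x : Pt} : x ∈ box N ↔ ∀ i, 0 ≤ x i ∧ x i < N := by
  simp [box, Fintype.mem_piFinset, Finset.mem_Ico]

lemma nrm_le {a : Pt} {R : ℕ} : nrm a ≤ R ↔ ∀ i, (a i).natAbs ≤ R := by
  simp only [nrm, max_le_iff]
  constructor
  · rintro ⟨h0, h1, h2⟩ i
    fin_cases i <;> assumption
  · intro h
    exact ⟨h 0, h 1, h 2⟩

lemma natAbs_le_nrm (a : Pt) (i : Fin 3) : (a i).natAbs ≤ nrm a := nrm_le.1 le_rfl i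

lemma exists_natAbs_eq_nrm (a : Pt) : ∃ i, (a i).natAbs = nrm a := by
  simp only [nrm]
  rcases max_choice (a 0).natAbs (max (a 1).natAbs (a 2).natAbs) with h | h
  · exact ⟨0, h.symm⟩
  · rcases max_choice (a 1).natAbs (a 2).natAbs with h' | h'
    · exact ⟨1, by rw [h, h']⟩
    · exact ⟨2, by rw [h, h']⟩

lemma nrm_eq_zero {a : Pt} : nrm a = 0 ↔ a = 0 := by
  rw [← Nat.le_zero, nrm_le]
  constructor
  · intro h
    funext i
    have := h i
    simpa using this
  · rintro rfl i
    simp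

lemma nrm_pos {a : Pt} (h : a ≠ 0) : 0 < nrm a := Nat.pos_of_ne_zero (fun h' => h (nrm_eq_zero.1 h'))

lemma nrm_neg (a : Pt) : nrm (-a) = nrm a := by simp [nrm]

lemma content_dvd (a : Pt) (i : Fin 3) : (content a : ℤ) ∣ a i := by
  have h1 : ((Int.gcd (a 0) (Int.gcd (a 1) (a 2)) : ℕ) : ℤ) ∣ a 0 := Int.gcd_dvd_left ..
  have h2 : ((Int.gcd (a 0) (Int.gcd (a 1) (a 2)) : ℕ) : ℤ) ∣ (Int.gcd (a 1) (a 2) : ℤ) :=
    Int.gcd_dvd_right ..
  have h3 : ((Int.gcd (a 1) (a 2) : ℕ) : ℤ) ∣ a 1 := Int.gcd_dvd_left ..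
  have h4 : ((Int.gcd (a 1) (a 2) : ℕ) : ℤ) ∣ a 2 := Int.gcd_dvd_right ..
  fin_cases i
  · exact h1
  · exact h2.trans h3
  · exact h2.trans h4

lemma dvd_content {a : Pt} {d : ℤ} (h : ∀ i, d ∣ a i) : d ∣ content a := by
  have : d ∣ (Int.gcd (a 1) (a 2) : ℤ) := Int.dvd_coe_gcd (h 1) (h 2)
  exact Int.dvd_coe_gcd (h 0) this

lemma content_eq_zero {a : Pt} : content a = 0 ↔ a = 0 := by
  constructor
  · intro h
    funext i
    have := content_dvd a i
    rw [h] at this
    simpa using this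
  · rintro rfl
    simp [content]

lemma content_pos {a : Pt} (h : a ≠ 0) : 0 < content a :=
  Nat.pos_of_ne_zero (fun h' => h (content_eq_zero.1 h'))

/-- primitive direction -/
def prim (a : Pt) : Pt := fun i => a i / (content a : ℤ)

lemma content_mul_prim (a : Pt) (i : Fin 3) : (content a : ℤ) * prim a i = a i :=
  Int.mul_ediv_cancel' (content_dvd a i)

lemma content_smul_prim (a : Pt) : (content a : ℤ) • prim a = a := by
  funext i
  simpa using content_mul_prim a i

lemma prim_Prim {a : Pt} (h : a ≠ 0) : Prim (prim a) := by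
  have hc := content_pos h
  have h1 : ((content a : ℤ) * content (prim a)) ∣ (content a : ℤ) := by
    apply dvd_content
    intro i
    rw [← content_mul_prim a i]
    exact mul_dvd_mul_left _ (content_dvd _ i)
  have h2 : (content (prim a) : ℤ) ∣ 1 := by
    have h3 : ((content a : ℤ) * content (prim a)) ∣ (content a : ℤ) * 1 := by simpa using h1
    exact (mul_dvd_mul_iff_left (by exact_mod_cast hc.ne')).1 h3
  have h4 : content (prim a) ∣ 1 := by exact_mod_cast h2
  exact Nat.dvd_one.1 h4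

lemma nrm_smul (t : ℤ) (a : Pt) : nrm (t • a) = t.natAbs * nrm a := by
  simp only [nrm, Pi.smul_apply, smul_eq_mul, Int.natAbs_mul]
  rw [← Nat.mul_max_mul_left, ← Nat.mul_max_mul_left]

lemma nrm_eq_content_mul (a : Pt) : nrm a = content a * nrm (prim a) := by
  conv_lhs => rw [← content_smul_prim a]
  rw [nrm_smul]
  simp

lemma dirN_eq {a b : Pt} : dirN a b = nrm (prim (b - a)) := by
  unfold dirN
  by_cases h : b - a = 0
  · rw [h]
    have : prim (0 : Pt) = 0 := by
      funext i
      simp [prim]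
    rw [this]
    simp [nrm]
  · rw [nrm_eq_content_mul (b - a)]
    exact Nat.mul_div_cancel_left _ (content_pos h)

lemma Prim.ne_zero {a : Pt} (h : Prim a) : a ≠ 0 := by
  rintro rfl
  simp [Prim, content] at h

lemma Prim.nrm_pos {a : Pt} (h : Prim a) : 0 < nrm a := Geo2.nrm_pos (Prim.ne_zero h)

/-- the integer ball of sup radius `R` -/
noncomputable def ball (R : ℕ) : Finset Pt := Fintype.piFinset (fun _ => Finset.Icc (-(R : ℤ)) R)

lemma mem_ball {R : ℕ} {r : Pt} : r ∈ ball R ↔ nrm r ≤ R := by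
  rw [nrm_le, ball, Fintype.mem_piFinset]
  apply forall_congr'
  intro i
  rw [Finset.mem_Icc]
  omega

lemma card_ball (R : ℕ) : (ball R).card = (2 * R + 1) ^ 3 := by
  rw [ball, Fintype.card_piFinset]
  simp only [Int.card_Icc, Finset.prod_const, Finset.card_univ, Fintype.card_fin]
  congr 1
  omega

lemma mem_normals {M : ℕ} {m : Pt} : m ∈ normals M ↔ nrm m ≤ M ∧ Prim m := by
  rw [normals, Finset.mem_filter]
  change m ∈ ball M ∧ _ ↔ _
  rw [mem_ball]

lemma card_shell {R : ℕ} (hR : 1 ≤ R) : ((ball R).filter (fun e => nrm e = R)).card ≤ 26 * R ^ 2 := by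
  obtain ⟨k, rfl⟩ := Nat.exists_eq_add_of_le' hR
  have h1 : (ball (k + 1)).filter (fun e => nrm e = k + 1) = ball (k + 1) \ ball k := by
    ext e
    simp only [Finset.mem_filter, Finset.mem_sdiff, mem_ball]
    omega
  have h2 : ball k ⊆ ball (k + 1) := by
    intro e he
    rw [mem_ball] at he ⊢
    omega
  rw [h1, Finset.card_sdiff_of_subset h2, card_ball, card_ball]
  have : (2 * (k + 1) + 1) ^ 3 = (2 * k + 1) ^ 3 + (24 * (k + 1) ^ 2 + 2) := by ring
  rw [this]
  have h3 : 1 ≤ (k + 1) ^ 2 := Nat.one_le_pow _ _ (by omega)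
  omega

lemma exists_third : ∀ i p : Fin 3, i ≠ p → ∃ q : Fin 3, q ≠ i ∧ q ≠ p := by decide

lemma dot_three (m e : Pt) : ∀ i p q : Fin 3, i ≠ p → q ≠ i → q ≠ p →
    dot m e = m i * e i + m p * e p + m q * e q := by
  intro i p q h1 h2 h3
  fin_cases i <;> fin_cases p <;> fin_cases q <;> simp_all [dot] <;> ring

lemma third_cover : ∀ i p q : Fin 3, i ≠ p → q ≠ i → q ≠ p → ∀ j, j = i ∨ j = p ∨ j = q := by
  decide

lemma card_slab {R : ℕ} {m : Pt} (hm : m ≠ 0) (i : Fin 3) {c : ℤ} (hc : c ≠ 0) :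
    ((ball R).filter (fun e => e i = c ∧ dot m e = 0)).card ≤ 2 * R + 1 := by
  by_cases hne : ((ball R).filter (fun e => e i = c ∧ dot m e = 0)) = ∅
  · rw [hne]; simp
  obtain ⟨e0, he0⟩ := Finset.nonempty_iff_ne_empty.2 hne
  rw [Finset.mem_filter] at he0
  have hp : ∃ p, i ≠ p ∧ m p ≠ 0 := by
    by_contra hcon
    push Not at hcon
    apply hm
    have h1 : dot m e0 = m i * e0 i := by
      obtain ⟨p, hp⟩ : ∃ p : Fin 3, i ≠ p := by
        fin_cases i
        · exact ⟨1, by decide⟩
        · exact ⟨0, by decide⟩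
        · exact ⟨0, by decide⟩
      obtain ⟨q, hq1, hq2⟩ := exists_third i p hp
      rw [dot_three m e0 i p q hp hq1 hq2, hcon p hp, hcon q (Ne.symm hq1)]
      ring
    have h2 : m i * c = 0 := by
      rw [← he0.2.1, ← h1, he0.2.2]
    have h3 : m i = 0 := (mul_eq_zero.1 h2).resolve_right hc
    funext j
    by_cases hj : i = j
    · rw [← hj, h3]; rfl
    · rw [hcon j hj]; rfl
  obtain ⟨p, hip, hmp⟩ := hp
  obtain ⟨q, hq1, hq2⟩ := exists_third i p hip
  have hcard : (Finset.Icc (-(R : ℤ)) R).card = 2 * R + 1 := by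
    rw [Int.card_Icc]; omega
  rw [← hcard]
  apply Finset.card_le_card_of_injOn (fun e => e q)
  · intro e he
    simp only [Finset.coe_filter, Set.mem_ofPred_eq, mem_ball] at he
    have := nrm_le.1 he.1 q
    simp only [Finset.coe_Icc, Set.mem_Icc]
    omega
  · intro e he e' he' heq
    simp only [Finset.coe_filter, Set.mem_ofPred_eq] at he he'
    have h1 := dot_three m e i p q hip hq1 hq2
    have h2 := dot_three m e' i p q hip hq1 hq2
    simp only at heq
    rw [he.2.2, he.2.1, heq] at h1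
    rw [he'.2.2, he'.2.1] at h2
    have h3 : m p * e p = m p * e' p := by linarith
    have h4 : e p = e' p := mul_left_cancel₀ hmp h3
    funext j
    rcases third_cover i p q hip hq1 hq2 j with rfl | rfl | rfl
    · rw [he.2.1, he'.2.1]
    · exact h4
    · exact heq

lemma card_plane_shell {R : ℕ} {m : Pt} (hm : m ≠ 0) (hR : 1 ≤ R) :
    ((ball R).filter (fun e => nrm e = R ∧ dot m e = 0)).card ≤ 18 * R := by
  have hsub : (ball R).filter (fun e => nrm e = R ∧ dot m e = 0) ⊆
      (Finset.univ : Finset (Fin 3 × Bool)).biUnion (fun ib =>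
        (ball R).filter (fun e => e ib.1 = (if ib.2 then (R : ℤ) else -(R : ℤ)) ∧ dot m e = 0)) := by
    intro e he
    rw [Finset.mem_filter] at he
    obtain ⟨i, hi⟩ := exists_natAbs_eq_nrm e
    rw [Finset.mem_biUnion]
    rcases Int.natAbs_eq (e i) with h | h
    · refine ⟨(i, true), Finset.mem_univ _, ?_⟩
      rw [Finset.mem_filter]
      refine ⟨he.1, ?_, he.2.2⟩
      simp only [if_true]
      rw [h, hi, he.2.1]
    · refine ⟨(i, false), Finset.mem_univ _, ?_⟩
      rw [Finset.mem_filter]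
      refine ⟨he.1, ?_, he.2.2⟩
      simp only [Bool.false_eq_true, if_false]
      rw [h, hi, he.2.1]
  refine (Finset.card_le_card hsub).trans ?_
  refine (Finset.card_biUnion_le).trans ?_
  have : ∀ ib ∈ (Finset.univ : Finset (Fin 3 × Bool)),
      ((ball R).filter (fun e => e ib.1 = (if ib.2 then (R : ℤ) else -(R : ℤ)) ∧ dot m e = 0)).card
        ≤ 2 * R + 1 := by
    intro ib _
    apply card_slab hm
    split_ifs <;> omega
  refine (Finset.sum_le_sum this).trans ?_
  simp only [Finset.sum_const, Finset.card_univ, Fintype.card_prod, Fintype.card_fin,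
    Fintype.card_bool, smul_eq_mul]
  omega

lemma nrm_sub_lt {N : ℕ} {x y : Pt} (hx : x ∈ box N) (hy : y ∈ box N) : nrm (y - x) < N := by
  rw [mem_box] at hx hy
  have hN : 0 < N := by
    have := hx 0
    omega
  have : nrm (y - x) ≤ N - 1 := by
    rw [nrm_le]
    intro i
    have h1 := hx i
    have h2 := hy i
    simp only [Pi.sub_apply]
    omega
  omega

lemma eq_of_prim_content {x y y' : Pt} (h1 : prim (y - x) = prim (y' - x))
    (h2 : content (y - x) = content (y' - x)) : y = y' := by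
  have h3 := content_smul_prim (y - x)
  have h4 := content_smul_prim (y' - x)
  rw [h1, h2, h4] at h3
  have := congrArg (fun z => z + x) h3
  simpa using this.symm

/-- the number of points of the box in direction `e` from `x` -/
lemma card_fiber {N : ℕ} {x : Pt} (hx : x ∈ box N) {e : Pt} (he : e ≠ 0) :
    ((box N).filter (fun y => y ≠ x ∧ prim (y - x) = e)).card ≤ (N - 1) / nrm e := by
  have hcard : (Finset.Icc 1 ((N - 1) / nrm e)).card = (N - 1) / nrm e := by
    rw [Nat.card_Icc, Nat.add_sub_cancel]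
  rw [← hcard]
  apply Finset.card_le_card_of_injOn (fun y => content (y - x))
  · intro y hy
    simp only [Finset.coe_filter, Set.mem_ofPred_eq] at hy
    obtain ⟨hy1, hy2, hy3⟩ := hy
    have h1 := nrm_sub_lt hx hy1
    have h2 := nrm_eq_content_mul (y - x)
    rw [hy3] at h2
    have h3 : 0 < content (y - x) := content_pos (sub_ne_zero.2 hy2)
    simp only [Finset.coe_Icc, Set.mem_Icc]
    refine ⟨h3, ?_⟩
    rw [Nat.le_div_iff_mul_le (nrm_pos he)]
    omega
  · intro y hy y' hy' heq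
    simp only [Finset.coe_filter, Set.mem_ofPred_eq] at hy hy'
    exact eq_of_prim_content (hy.2.2.trans hy'.2.2.symm) heq

lemma card_fiber_real {N : ℕ} {x : Pt} (hx : x ∈ box N) {e : Pt} (he : e ≠ 0) :
    (((box N).filter (fun y => y ≠ x ∧ prim (y - x) = e)).card : ℝ) ≤ (N : ℝ) / nrm e := by
  have h1 := card_fiber hx he
  have h2 : (N - 1) / nrm e * nrm e ≤ N := (Nat.div_mul_le_self _ _).trans (Nat.sub_le _ _)
  have h3 : (0 : ℝ) < nrm e := by exact_mod_cast nrm_pos he
  rw [le_div_iff₀ h3]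
  have h4 : ((box N).filter (fun y => y ≠ x ∧ prim (y - x) = e)).card * nrm e ≤ N :=
    (Nat.mul_le_mul_right _ h1).trans h2
  exact_mod_cast h4

lemma prim_sub_mem_normals {N : ℕ} {x y : Pt} (hx : x ∈ box N) (hy : y ∈ box N) (hne : y ≠ x) :
    prim (y - x) ∈ normals N := by
  rw [mem_normals]
  refine ⟨?_, prim_Prim (sub_ne_zero.2 hne)⟩
  have h1 := nrm_sub_lt hx hy
  have h2 := nrm_eq_content_mul (y - x)
  have h3 : 0 < content (y - x) := content_pos (sub_ne_zero.2 hne)
  have h4 : nrm (prim (y - x)) ≤ content (y - x) * nrm (prim (y - x)) := Nat.le_mul_of_pos_left _ h3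
  omega

/-- sum over a box of a function of the primitive direction -/
lemma sum_dir {N : ℕ} {x : Pt} (hx : x ∈ box N) (F : Pt → ℝ) (hF : ∀ e, 0 ≤ F e) :
    ∑ y ∈ (box N).filter (fun y => y ≠ x), F (prim (y - x)) ≤
      ∑ e ∈ normals N, (N : ℝ) / nrm e * F e := by
  have hmaps : ∀ y ∈ (box N).filter (fun y => y ≠ x), prim (y - x) ∈ normals N := by
    intro y hy
    rw [Finset.mem_filter] at hy
    exact prim_sub_mem_normals hx hy.1 hy.2
  rw [← Finset.sum_fiberwise_of_maps_to hmaps]
  apply Finset.sum_le_sum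
  intro e he
  rw [mem_normals] at he
  have h1 : ∑ y ∈ ((box N).filter (fun y => y ≠ x)).filter (fun y => prim (y - x) = e),
      F (prim (y - x)) = (((box N).filter (fun y => y ≠ x ∧ prim (y - x) = e)).card : ℝ) * F e := by
    rw [Finset.filter_filter]
    rw [Finset.sum_congr rfl (g := fun _ => F e)]
    · simp
    · intro y hy
      rw [Finset.mem_filter] at hy
      rw [hy.2.2]
  rw [h1]
  exact mul_le_mul_of_nonneg_right (card_fiber_real hx (Prim.ne_zero he.2)) (hF e)

/-! ### G8, G9 -/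

lemma dot_sub (m a b : Pt) : dot m (b - a) = dot m b - dot m a := by
  simp [dot]; ring

lemma dot_smul (m : Pt) (t : ℤ) (a : Pt) : dot m (t • a) = t * dot m a := by
  simp [dot]; ring

lemma card_plane_dir {N R : ℕ} {m a : Pt} {c : ℤ} (hm : m ≠ 0) (hR : 1 ≤ R)
    (ha : a ∈ plane N m c) :
    ((plane N m c).filter (fun b => dirN a b = R)).card ≤ 18 * N := by
  rw [plane, Finset.mem_filter] at ha
  have hsub : (plane N m c).filter (fun b => dirN a b = R) ⊆
      ((ball R).filter (fun e => nrm e = R ∧ dot m e = 0)).biUnion (fun e =>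
        (box N).filter (fun y => y ≠ a ∧ prim (y - a) = e)) := by
    intro b hb
    rw [Finset.mem_filter, plane, Finset.mem_filter] at hb
    obtain ⟨⟨hb1, hb2⟩, hb3⟩ := hb
    have hne : b ≠ a := by
      rintro rfl
      rw [dirN] at hb3
      simp [nrm] at hb3
      omega
    rw [dirN_eq] at hb3
    rw [Finset.mem_biUnion]
    refine ⟨prim (b - a), ?_, ?_⟩
    · rw [Finset.mem_filter, mem_ball]
      refine ⟨hb3.le, hb3, ?_⟩
      have h1 : dot m (b - a) = 0 := by rw [dot_sub, hb2, ha.2]; ring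
      rw [← content_smul_prim (b - a), dot_smul] at h1
      have h2 : (content (b - a) : ℤ) ≠ 0 := by
        exact_mod_cast (content_pos (sub_ne_zero.2 hne)).ne'
      exact (mul_eq_zero.1 h1).resolve_left h2
    · rw [Finset.mem_filter]
      exact ⟨hb1, hne, rfl⟩
  refine (Finset.card_le_card hsub).trans ?_
  refine (Finset.card_biUnion_le).trans ?_
  have h1 : ∀ e ∈ (ball R).filter (fun e => nrm e = R ∧ dot m e = 0),
      ((box N).filter (fun y => y ≠ a ∧ prim (y - a) = e)).card ≤ N / R := by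
    intro e he
    rw [Finset.mem_filter] at he
    have hne : e ≠ 0 := by
      rintro rfl
      have := he.2.1
      simp [nrm] at this
      omega
    refine (card_fiber ha.1 hne).trans ?_
    rw [he.2.1]
    exact Nat.div_le_div_right (Nat.sub_le _ _)
  refine (Finset.sum_le_sum h1).trans ?_
  rw [Finset.sum_const, smul_eq_mul]
  calc _ ≤ (18 * R) * (N / R) := Nat.mul_le_mul_right _ (card_plane_shell hm hR)
    _ = 18 * (N / R * R) := by ring
    _ ≤ 18 * N := Nat.mul_le_mul_left _ (Nat.div_mul_le_self _ _)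

/-- **G8** -/
theorem G8 {N D : ℕ} {m a : Pt} {c : ℤ} (hm : m ≠ 0) (ha : a ∈ plane N m c) :
    ((plane N m c).filter (fun b => dirN a b < D)).card ≤ 18 * N * D := by
  have hN : 0 < N := by
    rw [plane, Finset.mem_filter, mem_box] at ha
    have := ha.1 0
    omega
  rcases Nat.eq_zero_or_pos D with hD | hD
  · subst hD; simp
  have hsub : (plane N m c).filter (fun b => dirN a b < D) ⊆
      insert a ((Finset.Ico 1 D).biUnion (fun R =>
        (plane N m c).filter (fun b => dirN a b = R))) := by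
    intro b hb
    rw [Finset.mem_filter] at hb
    rw [Finset.mem_insert, Finset.mem_biUnion]
    by_cases hba : b = a
    · exact Or.inl hba
    · right
      refine ⟨dirN a b, ?_, ?_⟩
      · rw [Finset.mem_Ico]
        refine ⟨?_, hb.2⟩
        rw [dirN_eq]
        exact Prim.nrm_pos (prim_Prim (sub_ne_zero.2 hba))
      · rw [Finset.mem_filter]
        exact ⟨hb.1, rfl⟩
  refine (Finset.card_le_card hsub).trans ?_
  refine (Finset.card_insert_le _ _).trans ?_
  have h2 : ((Finset.Ico 1 D).biUnion (fun R =>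
        (plane N m c).filter (fun b => dirN a b = R))).card ≤ (D - 1) * (18 * N) := by
    refine (Finset.card_biUnion_le).trans ?_
    have h1 : ∀ R ∈ Finset.Ico 1 D, ((plane N m c).filter (fun b => dirN a b = R)).card ≤ 18 * N := by
      intro R hR
      rw [Finset.mem_Ico] at hR
      exact card_plane_dir hm hR.1 ha
    refine (Finset.sum_le_sum h1).trans ?_
    rw [Finset.sum_const, Nat.card_Ico, smul_eq_mul]
  obtain ⟨k, rfl⟩ := Nat.exists_eq_add_of_le' hD
  simp only [Nat.add_sub_cancel] at h2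
  calc _ ≤ k * (18 * N) + 1 := Nat.add_le_add_right h2 1
    _ ≤ k * (18 * N) + 18 * N := by omega
    _ = 18 * N * (k + 1) := by ring

lemma bezout {e : Pt} (h : Prim e) : ∃ u : Pt, dot u e = 1 := by
  have h1 := Int.gcd_eq_gcd_ab (e 0) (Int.gcd (e 1) (e 2))
  have h2 := Int.gcd_eq_gcd_ab (e 1) (e 2)
  have h3 : ((Int.gcd (e 0) (Int.gcd (e 1) (e 2)) : ℕ) : ℤ) = 1 := by
    have : content e = 1 := h
    rw [content] at this
    exact_mod_cast this
  rw [h3] at h1
  refine ⟨![Int.gcdA (e 0) (Int.gcd (e 1) (e 2)),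
    Int.gcdB (e 0) (Int.gcd (e 1) (e 2)) * Int.gcdA (e 1) (e 2),
    Int.gcdB (e 0) (Int.gcd (e 1) (e 2)) * Int.gcdB (e 1) (e 2)], ?_⟩
  simp only [dot, Matrix.cons_val_zero, Matrix.cons_val_one, Matrix.cons_val]
  linear_combination (-1 : ℤ) * h1 - (Int.gcdB (e 0) (Int.gcd (e 1) (e 2))) * h2

lemma dvd_of_prim {e : Pt} (h : Prim e) {s t : ℤ} (hw : ∀ i, t ∣ s * e i) : t ∣ s := by
  obtain ⟨u, hu⟩ := bezout h
  have : s = u 0 * (s * e 0) + u 1 * (s * e 1) + u 2 * (s * e 2) := by
    calc s = s * dot u e := by rw [hu, mul_one]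
      _ = _ := by simp only [dot]; ring
  rw [this]
  exact dvd_add (dvd_add (Dvd.dvd.mul_left (hw 0) _) (Dvd.dvd.mul_left (hw 1) _))
    (Dvd.dvd.mul_left (hw 2) _)

lemma cross_apply0 (a b : Pt) : cross a b 0 = a 1 * b 2 - a 2 * b 1 := rfl
lemma cross_apply1 (a b : Pt) : cross a b 1 = a 2 * b 0 - a 0 * b 2 := rfl
lemma cross_apply2 (a b : Pt) : cross a b 2 = a 0 * b 1 - a 1 * b 0 := rfl

/-- if `e` is primitive and `w × e = 0` then `w` is an integer multiple of `e` -/
lemma eq_smul_of_cross {e w : Pt} (h : Prim e) (hc : cross e w = 0) : ∃ s : ℤ, w = s • e := by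
  obtain ⟨u, hu⟩ := bezout h
  have h0 : e 1 * w 2 - e 2 * w 1 = 0 := congrFun hc 0
  have h1 : e 2 * w 0 - e 0 * w 2 = 0 := congrFun hc 1
  have h2 : e 0 * w 1 - e 1 * w 0 = 0 := congrFun hc 2
  refine ⟨dot u w, ?_⟩
  simp only [dot] at hu ⊢
  funext i
  simp only [Pi.smul_apply, smul_eq_mul]
  fin_cases i
  · show w 0 = (u 0 * w 0 + u 1 * w 1 + u 2 * w 2) * e 0
    linear_combination (-w 0) * hu + (-u 1) * h2 + u 2 * h1
  · show w 1 = (u 0 * w 0 + u 1 * w 1 + u 2 * w 2) * e 1
    linear_combination (-w 1) * hu + (u 0) * h2 + (- u 2) * h0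
  · show w 2 = (u 0 * w 0 + u 1 * w 1 + u 2 * w 2) * e 2
    linear_combination (-w 2) * hu + (-u 0) * h1 + (u 1) * h0

/-- a vector orthogonal to two independent vectors is parallel to their cross product -/
lemma cross_cross_eq (m m' d : Pt) (h1 : dot m d = 0) (h2 : dot m' d = 0) :
    cross d (cross m m') = 0 := by
  simp only [dot] at h1 h2
  funext i
  fin_cases i
  · show d 1 * (m 0 * m' 1 - m 1 * m' 0) - d 2 * (m 2 * m' 0 - m 0 * m' 2) = 0
    linear_combination (-m' 0) * h1 + m 0 * h2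
  · show d 2 * (m 1 * m' 2 - m 2 * m' 1) - d 0 * (m 0 * m' 1 - m 1 * m' 0) = 0
    linear_combination (-m' 1) * h1 + m 1 * h2
  · show d 0 * (m 2 * m' 0 - m 0 * m' 2) - d 1 * (m 1 * m' 2 - m 2 * m' 1) = 0
    linear_combination (-m' 2) * h1 + m 2 * h2

lemma cross_smul_left (t : ℤ) (a b : Pt) : cross (t • a) b = t • cross a b := by
  funext i
  fin_cases i <;> simp [cross] <;> ring

lemma nrm_cross_le {m m' : Pt} {M : ℕ} (h1 : nrm m ≤ M) (h2 : nrm m' ≤ M) :
    nrm (cross m m') ≤ 2 * M ^ 2 := by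
  have key : ∀ i j k l : Fin 3, (m i * m' j - m k * m' l).natAbs ≤ 2 * M ^ 2 := by
    intro i j k l
    have a1 := nrm_le.1 h1 i
    have a2 := nrm_le.1 h2 j
    have a3 := nrm_le.1 h1 k
    have a4 := nrm_le.1 h2 l
    calc (m i * m' j - m k * m' l).natAbs ≤ (m i * m' j).natAbs + (m k * m' l).natAbs :=
          Int.natAbs_sub_le _ _
      _ = (m i).natAbs * (m' j).natAbs + (m k).natAbs * (m' l).natAbs := by
          rw [Int.natAbs_mul, Int.natAbs_mul]
      _ ≤ M * M + M * M := Nat.add_le_add (Nat.mul_le_mul a1 a2) (Nat.mul_le_mul a3 a4)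
      _ = 2 * M ^ 2 := by ring
  rw [nrm_le]
  intro i
  fin_cases i
  · exact key 1 2 2 1
  · exact key 2 0 0 2
  · exact key 0 1 1 0

lemma prim_unique {m m' : Pt} (hm : Prim m) (hm' : Prim m') (h : cross m m' = 0) :
    m' = m ∨ m' = -m := by
  obtain ⟨s, hs⟩ := eq_smul_of_cross hm h
  obtain ⟨u, hu⟩ := bezout hm'
  rw [hs, dot_smul] at hu
  rcases Int.isUnit_iff.1 (IsUnit.of_mul_eq_one _ hu) with h1 | h1
  · left; rw [hs, h1, one_smul]
  · right; rw [hs, h1, neg_one_smul]

/-- **G6** -/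
theorem G6 {M : ℕ} {a b m m' : Pt} (hab : 2 * M ^ 2 < dirN a b) (hm : Prim m) (hm' : Prim m')
    (h1 : nrm m ≤ M) (h2 : nrm m' ≤ M) (h3 : dot m a = dot m b) (h4 : dot m' a = dot m' b) :
    m' = m ∨ m' = -m := by
  apply prim_unique hm hm'
  by_contra hne
  have hba : b - a ≠ 0 := by
    intro h0
    rw [dirN_eq, h0] at hab
    have : prim (0 : Pt) = 0 := by
      funext i
      simp [prim]
    rw [this] at hab
    simp [nrm] at hab
  have h5 : dot m (b - a) = 0 := by rw [dot_sub, h3]; ring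
  have h6 : dot m' (b - a) = 0 := by rw [dot_sub, h4]; ring
  have h7 := cross_cross_eq m m' _ h5 h6
  rw [← content_smul_prim (b - a), cross_smul_left] at h7
  have h8 : cross (prim (b - a)) (cross m m') = 0 := by
    have h9 : (content (b - a) : ℤ) ≠ 0 := by exact_mod_cast (content_pos hba).ne'
    exact (smul_eq_zero.1 h7).resolve_left h9
  obtain ⟨s, hs⟩ := eq_smul_of_cross (prim_Prim hba) h8
  have h10 := nrm_cross_le h1 h2
  rw [hs, nrm_smul] at h10
  have h11 : s ≠ 0 := by
    rintro rfl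
    apply hne
    rw [hs, zero_smul]
  have h12 : 1 ≤ s.natAbs := Int.natAbs_pos.2 h11
  rw [dirN_eq] at hab
  nlinarith [Nat.mul_le_mul_right (nrm (prim (b - a))) h12]

lemma sum_shells {D : ℕ} (f : ℕ → ℝ) (hf : ∀ R, 0 ≤ f R) :
    ∑ e ∈ normals D, f (nrm e) ≤ ∑ R ∈ Finset.Icc 1 D, 26 * (R : ℝ) ^ 2 * f R := by
  have hmaps : ∀ e ∈ normals D, nrm e ∈ Finset.Icc 1 D := by
    intro e he
    rw [mem_normals] at he
    rw [Finset.mem_Icc]
    exact ⟨Prim.nrm_pos he.2, he.1⟩
  rw [← Finset.sum_fiberwise_of_maps_to hmaps]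
  apply Finset.sum_le_sum
  intro R hR
  rw [Finset.mem_Icc] at hR
  rw [Finset.sum_congr rfl (g := fun _ => f R)]
  · rw [Finset.sum_const, nsmul_eq_mul]
    apply mul_le_mul_of_nonneg_right _ (hf R)
    have h1 : (normals D).filter (fun e => nrm e = R) ⊆ (ball R).filter (fun e => nrm e = R) := by
      intro e he
      rw [Finset.mem_filter] at he ⊢
      rw [mem_ball]
      exact ⟨he.2.le, he.2⟩
    have h2 := (Finset.card_le_card h1).trans (card_shell hR.1)
    exact_mod_cast h2
  · intro e he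
    rw [Finset.mem_filter] at he
    rw [he.2]

lemma card_line {N : ℕ} {x y : Pt} (hx : x ∈ box N) (hy : y ∈ box N) (hne : y ≠ x) :
    (((box N).filter (fun z => Col x y z)).card : ℝ) ≤ 3 * N / nrm (prim (y - x)) := by
  set e := prim (y - x) with he
  have hp : Prim e := prim_Prim (sub_ne_zero.2 hne)
  have hR : 0 < nrm e := Prim.nrm_pos hp
  have h1 := nrm_sub_lt hx hy
  have h2 := nrm_eq_content_mul (y - x)
  have h3 : 0 < content (y - x) := content_pos (sub_ne_zero.2 hne)
  have hRN : nrm e ≤ N - 1 := by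
    have h4 : nrm e ≤ content (y - x) * nrm e := Nat.le_mul_of_pos_left _ h3
    rw [← he] at h2
    omega
  set K := (N - 1) / nrm e with hK
  have hK1 : 1 ≤ K := by
    rw [hK, Nat.le_div_iff_mul_le hR]
    omega
  have hKN : K * nrm e ≤ N := (Nat.div_mul_le_self _ _).trans (Nat.sub_le _ _)
  have hcard : (Finset.Icc (-(K : ℤ)) K).card = 2 * K + 1 := by
    rw [Int.card_Icc]; omega
  obtain ⟨u, hu⟩ := bezout hp
  have key : ∀ z ∈ (box N).filter (fun z => Col x y z), z - x = (dot u (z - x)) • e := by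
    intro z hz
    rw [Finset.mem_filter] at hz
    have hc : cross (y - x) (z - x) = 0 := hz.2
    rw [← content_smul_prim (y - x), cross_smul_left] at hc
    have h9 : (content (y - x) : ℤ) ≠ 0 := by exact_mod_cast h3.ne'
    obtain ⟨s, hs⟩ := eq_smul_of_cross hp ((smul_eq_zero.1 hc).resolve_left h9)
    rw [hs, dot_smul, hu, mul_one]
  have hle : ((box N).filter (fun z => Col x y z)).card ≤ 2 * K + 1 := by
    rw [← hcard]
    apply Finset.card_le_card_of_injOn (fun z => dot u (z - x))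
    · intro z hz
      have hz' := key z hz
      have hz2 : z ∈ box N := (Finset.mem_filter.1 hz).1
      have h5 := nrm_sub_lt hx hz2
      rw [hz', nrm_smul] at h5
      have h6 : (dot u (z - x)).natAbs ≤ K := by
        rw [hK, Nat.le_div_iff_mul_le hR]
        omega
      simp only [Finset.coe_Icc, Set.mem_Icc]
      omega
    · intro z hz z' hz' heq
      have h5 := key z hz
      have h6 := key z' hz'
      simp only at heq
      rw [heq, ← h6] at h5
      exact sub_left_injective h5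
  have h7 : (2 * K + 1) * nrm e ≤ 3 * N := by nlinarith
  rw [le_div_iff₀ (by exact_mod_cast hR)]
  have h8 : ((box N).filter (fun z => Col x y z)).card * nrm e ≤ 3 * N :=
    (Nat.mul_le_mul_right _ hle).trans h7
  exact_mod_cast h8

lemma card_box (N : ℕ) : (box N).card = N ^ 3 := by
  rw [box, Fintype.card_piFinset]
  simp

/-- **G9** -/
theorem G9 {N : ℕ} {x : Pt} (hx : x ∈ box N) :
    (((box N ×ˢ box N).filter (fun p => Col x p.1 p.2)).card : ℝ) ≤ 79 * (N : ℝ) ^ 3 := by
  have h1 : ((box N ×ˢ box N).filter (fun p => Col x p.1 p.2)).card =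
      ∑ y ∈ box N, ((box N).filter (fun z => Col x y z)).card := by
    rw [Finset.card_filter, Finset.sum_product]
    apply Finset.sum_congr rfl
    intro y _
    rw [Finset.card_filter]
  rw [h1]
  push_cast
  have h2 : ∑ y ∈ box N, (((box N).filter (fun z => Col x y z)).card : ℝ) =
      ∑ y ∈ (box N).filter (fun y => y ≠ x), (((box N).filter (fun z => Col x y z)).card : ℝ) +
      ∑ y ∈ (box N).filter (fun y => ¬ y ≠ x), (((box N).filter (fun z => Col x y z)).card : ℝ) :=
    (Finset.sum_filter_add_sum_filter_not _ _ _).symm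
  rw [h2]
  have h3 : ∑ y ∈ (box N).filter (fun y => ¬ y ≠ x),
      (((box N).filter (fun z => Col x y z)).card : ℝ) ≤ (N : ℝ) ^ 3 := by
    have : (box N).filter (fun y => ¬ y ≠ x) = {x} := by
      ext y
      simp only [Finset.mem_filter, not_not, Finset.mem_singleton]
      constructor
      · exact fun h => h.2
      · rintro rfl; exact ⟨hx, rfl⟩
    rw [this, Finset.sum_singleton]
    have := Finset.card_filter_le (box N) (fun z => Col x x z)
    rw [card_box] at this
    exact_mod_cast this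
  have h4 : ∑ y ∈ (box N).filter (fun y => y ≠ x),
      (((box N).filter (fun z => Col x y z)).card : ℝ) ≤ 78 * (N : ℝ) ^ 3 := by
    calc ∑ y ∈ (box N).filter (fun y => y ≠ x), (((box N).filter (fun z => Col x y z)).card : ℝ)
        ≤ ∑ y ∈ (box N).filter (fun y => y ≠ x), (fun e : Pt => 3 * (N : ℝ) / nrm e) (prim (y - x)) := by
          apply Finset.sum_le_sum
          intro y hy
          rw [Finset.mem_filter] at hy
          exact card_line hx hy.1 hy.2
      _ ≤ ∑ e ∈ normals N, (N : ℝ) / nrm e * (3 * (N : ℝ) / nrm e) := by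
          apply sum_dir hx (fun e => 3 * (N : ℝ) / nrm e)
          intro e
          positivity
      _ ≤ ∑ R ∈ Finset.Icc 1 N, 26 * (R : ℝ) ^ 2 * ((N : ℝ) / R * (3 * (N : ℝ) / R)) := by
          apply sum_shells (fun R => (N : ℝ) / R * (3 * (N : ℝ) / R))
          intro R
          positivity
      _ = ∑ R ∈ Finset.Icc 1 N, 78 * (N : ℝ) ^ 2 := by
          apply Finset.sum_congr rfl
          intro R hR
          rw [Finset.mem_Icc] at hR
          have : (R : ℝ) ≠ 0 := by
            have : 0 < R := hR.1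
            exact_mod_cast this.ne'
          field_simp
          ring
      _ = 78 * (N : ℝ) ^ 3 := by
          rw [Finset.sum_const, Nat.card_Icc]
          simp
          ring
  linarith

/-! ### sums over directions orthogonal to a given vector -/

/-- the number of pairs `(z,w)` of box points with `det(e, z-x, w-x) = 0` -/
noncomputable def P2 (N : ℕ) (e x : Pt) : ℕ :=
  ((box N ×ˢ box N).filter (fun p => dot e (cross (p.1 - x) (p.2 - x)) = 0)).card

/-- least norm of a nonzero vector orthogonal to `e` -/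
noncomputable def mu (e : Pt) : ℕ := sInf {k | ∃ m : Pt, m ≠ 0 ∧ dot m e = 0 ∧ nrm m = k}

lemma mu_spec {e : Pt} (he : e ≠ 0) :
    ∃ m : Pt, Prim m ∧ dot m e = 0 ∧ nrm m = mu e ∧ mu e ≤ nrm e := by
  have hex : ∃ m : Pt, m ≠ 0 ∧ dot m e = 0 ∧ nrm m ≤ nrm e := by
    by_cases h : e 0 = 0 ∧ e 1 = 0
    · refine ⟨![1, 0, 0], ?_, ?_, ?_⟩
      · intro h0
        have := congrFun h0 0
        simp at this
      · simp [dot, h.1]
      · have := nrm_pos he
        rw [nrm_le]
        intro i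
        fin_cases i
        · simpa using Nat.succ_le_of_lt this
        · simp
        · simp
    · refine ⟨![e 1, -e 0, 0], ?_, ?_, ?_⟩
      · intro h0
        apply h
        have h1 := congrFun h0 0
        have h2 := congrFun h0 1
        simp at h1 h2
        exact ⟨h2, h1⟩
      · simp [dot]; ring
      · rw [nrm_le]
        intro i
        have a0 := natAbs_le_nrm e 0
        have a1 := natAbs_le_nrm e 1
        fin_cases i
        · simpa using a1
        · simpa using a0
        · simp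
  obtain ⟨m1, h1, h2, h3⟩ := hex
  have hne : {k | ∃ m : Pt, m ≠ 0 ∧ dot m e = 0 ∧ nrm m = k}.Nonempty := ⟨nrm m1, m1, h1, h2, rfl⟩
  obtain ⟨m, hm1, hm2, hm3⟩ := Nat.sInf_mem hne
  have hmin : ∀ m' : Pt, m' ≠ 0 → dot m' e = 0 → mu e ≤ nrm m' := fun m' a b =>
    Nat.sInf_le ⟨m', a, b, rfl⟩
  have h4 : dot (prim m) e = 0 := by
    have h5 : dot m e = (content m : ℤ) * dot (prim m) e := by
      conv_lhs => rw [← content_smul_prim m]
      simp [dot]; ring
    rw [h5] at hm2
    exact (mul_eq_zero.1 hm2).resolve_left (by exact_mod_cast (content_pos hm1).ne')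
  refine ⟨prim m, prim_Prim hm1, h4, ?_, (hmin m1 h1 h2).trans h3⟩
  apply le_antisymm
  · have h6 := nrm_eq_content_mul m
    have h7 : nrm (prim m) ≤ content m * nrm (prim m) := Nat.le_mul_of_pos_left _ (content_pos hm1)
    have h8 : nrm m = mu e := hm3
    omega
  · exact hmin _ (Prim.ne_zero (prim_Prim hm1)) h4

lemma tele (r D : ℕ) (hr : 1 ≤ r) (hrD : r ≤ D + 1) :
    ∑ R ∈ Finset.Icc r D, (1 : ℝ) / (R * (R + 1)) = 1 / r - 1 / (D + 1) := by
  induction D with
  | zero =>
    have : r = 1 := by omega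
    subst this
    simp
  | succ D ih =>
    rcases Nat.lt_or_ge (D + 1) r with h | h
    · have : r = D + 2 := by omega
      subst this
      rw [Finset.Icc_eq_empty (by omega)]
      push_cast
      simp
      ring
    · rw [Finset.sum_Icc_succ_top h, ih (by omega)]
      push_cast
      have h1 : (D : ℝ) + 1 ≠ 0 := by positivity
      have h2 : (D : ℝ) + 1 + 1 ≠ 0 := by positivity
      have h3 : (r : ℝ) ≠ 0 := by
        have : 0 < r := hr
        exact_mod_cast this.ne'
      field_simp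
      ring

/-- the bound for lattice points of a plane through the origin in a ball (G2) -/
def BallPlane (K : ℝ) : Prop := ∀ m : Pt, Prim m → ∀ R : ℕ, nrm m ≤ R →
  (((ball R).filter (fun e => dot m e = 0)).card : ℝ) ≤ K * R ^ 2 / nrm m

lemma sum_inv_orth {K : ℝ} (hK : BallPlane K) {m : Pt} (hm : Prim m) (D : ℕ) :
    ∑ e ∈ (normals D).filter (fun e => dot m e = 0 ∧ nrm m ≤ nrm e), (1 : ℝ) / nrm e ≤
      2 * K * D / nrm m := by
  have hm0 : (0 : ℝ) < nrm m := by exact_mod_cast Prim.nrm_pos hm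
  have hK0 : 0 ≤ K := by
    have h1 := hK m hm (nrm m) le_rfl
    have h2 : (0 : ℝ) ≤ (((ball (nrm m)).filter (fun e => dot m e = 0)).card : ℝ) := by positivity
    have h3 : 0 ≤ K * (nrm m : ℝ) ^ 2 / nrm m := h2.trans h1
    by_contra hcon
    push Not at hcon
    have : K * (nrm m : ℝ) ^ 2 / nrm m < 0 := by
      apply div_neg_of_neg_of_pos _ hm0
      exact mul_neg_of_neg_of_pos hcon (by positivity)
    linarith
  set S := (normals D).filter (fun e => dot m e = 0 ∧ nrm m ≤ nrm e) with hS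
  have hcount : ∀ R : ℕ, R ≤ D → ((S.filter (fun e => nrm e ≤ R)).card : ℝ) ≤ K * R ^ 2 / nrm m := by
    intro R _
    rcases Nat.lt_or_ge R (nrm m) with h | h
    · have : S.filter (fun e => nrm e ≤ R) = ∅ := by
        rw [Finset.filter_eq_empty_iff]
        intro e he
        rw [hS, Finset.mem_filter] at he
        omega
      rw [this]
      simp only [Finset.card_empty, Nat.cast_zero]
      positivity
    · refine le_trans ?_ (hK m hm R h)
      have : S.filter (fun e => nrm e ≤ R) ⊆ (ball R).filter (fun e => dot m e = 0) := by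
        intro e he
        rw [Finset.mem_filter, hS, Finset.mem_filter] at he
        rw [Finset.mem_filter, mem_ball]
        exact ⟨he.2, he.1.2.1⟩
      exact_mod_cast Finset.card_le_card this
  have hexp : ∀ e ∈ S, (1 : ℝ) / nrm e = 1 / (D + 1) +
      ∑ R ∈ Finset.Icc 1 D, (if nrm e ≤ R then (1 : ℝ) / (R * (R + 1)) else 0) := by
    intro e he
    rw [hS, Finset.mem_filter, mem_normals] at he
    have h1 : 1 ≤ nrm e := Prim.nrm_pos he.1.2
    have h2 := tele (nrm e) D h1 (by omega)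
    have h3 : ∑ R ∈ Finset.Icc 1 D, (if nrm e ≤ R then (1 : ℝ) / (R * (R + 1)) else 0) =
        ∑ R ∈ Finset.Icc (nrm e) D, (1 : ℝ) / (R * (R + 1)) := by
      rw [← Finset.sum_filter]
      apply Finset.sum_congr _ (fun _ _ => rfl)
      ext R
      simp only [Finset.mem_filter, Finset.mem_Icc]
      omega
    rw [h3, h2]
    ring
  rw [Finset.sum_congr rfl hexp, Finset.sum_add_distrib, Finset.sum_const, nsmul_eq_mul,
    Finset.sum_comm]
  have h4 : ∀ R ∈ Finset.Icc 1 D, ∑ e ∈ S, (if nrm e ≤ R then (1 : ℝ) / (R * (R + 1)) else 0) ≤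
      K / nrm m := by
    intro R hR
    rw [Finset.mem_Icc] at hR
    rw [← Finset.sum_filter, Finset.sum_const, nsmul_eq_mul]
    have hR0 : (0 : ℝ) < R := by
      have : 0 < R := hR.1
      exact_mod_cast this
    calc ((S.filter (fun e => nrm e ≤ R)).card : ℝ) * (1 / (R * (R + 1)))
        ≤ (K * R ^ 2 / nrm m) * (1 / (R * (R + 1))) :=
          mul_le_mul_of_nonneg_right (hcount R hR.2) (by positivity)
      _ = K / nrm m * (R / (R + 1)) := by field_simp
      _ ≤ K / nrm m * 1 := by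
          apply mul_le_mul_of_nonneg_left _ (by positivity)
          rw [div_le_one (by positivity)]
          linarith
      _ = K / nrm m := mul_one _
  have h5 : (S.card : ℝ) * (1 / (D + 1)) ≤ K * D / nrm m := by
    have h6 : S.filter (fun e => nrm e ≤ D) = S := by
      rw [Finset.filter_eq_self]
      intro e he
      rw [hS, Finset.mem_filter, mem_normals] at he
      exact he.1.1
    have h7 := hcount D le_rfl
    rw [h6] at h7
    calc (S.card : ℝ) * (1 / (D + 1)) ≤ (K * D ^ 2 / nrm m) * (1 / (D + 1)) :=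
          mul_le_mul_of_nonneg_right h7 (by positivity)
      _ = K * D / nrm m * (D / (D + 1)) := by field_simp
      _ ≤ K * D / nrm m * 1 := by
          apply mul_le_mul_of_nonneg_left _ (by positivity)
          rw [div_le_one (by positivity)]
          linarith
      _ = K * D / nrm m := mul_one _
  have h8 := Finset.sum_le_sum h4
  rw [Finset.sum_const, Nat.card_Icc, Nat.add_sub_cancel, nsmul_eq_mul] at h8
  calc _ ≤ K * D / nrm m + (D : ℝ) * (K / nrm m) := add_le_add h5 h8
    _ = 2 * K * D / nrm m := by ring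

lemma sum_mu {K : ℝ} (hK : BallPlane K) (f : ℕ → ℝ) (hf : ∀ R, 0 ≤ f R) (D : ℕ) :
    ∑ e ∈ normals D, (1 : ℝ) / nrm e * f (mu e) ≤
      ∑ m ∈ normals D, f (nrm m) * (2 * K * D / nrm m) := by
  have h1 : ∀ e ∈ normals D, (1 : ℝ) / nrm e * f (mu e) ≤
      ∑ m ∈ normals D, (if dot m e = 0 ∧ nrm m ≤ nrm e then (1 : ℝ) / nrm e * f (nrm m) else 0) := by
    intro e he
    rw [mem_normals] at he
    obtain ⟨m, hm1, hm2, hm3, hm4⟩ := mu_spec (Prim.ne_zero he.2)
    have hmem : m ∈ normals D := by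
      rw [mem_normals]
      exact ⟨by omega, hm1⟩
    have h2 := Finset.single_le_sum (f := fun m : Pt =>
      (if dot m e = 0 ∧ nrm m ≤ nrm e then (1 : ℝ) / nrm e * f (nrm m) else 0))
      (fun m _ => by
        show (0 : ℝ) ≤ if dot m e = 0 ∧ nrm m ≤ nrm e then (1 : ℝ) / nrm e * f (nrm m) else 0
        split_ifs
        · exact mul_nonneg (by positivity) (hf _)
        · exact le_rfl) hmem
    rw [if_pos ⟨hm2, by omega⟩, hm3] at h2
    exact h2
  refine (Finset.sum_le_sum h1).trans ?_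
  rw [Finset.sum_comm]
  apply Finset.sum_le_sum
  intro m hm
  rw [mem_normals] at hm
  rw [← Finset.sum_filter, ← Finset.sum_mul, mul_comm]
  exact mul_le_mul_of_nonneg_left (sum_inv_orth hK hm.2 D) (hf _)

lemma sum_Icc_inv (D : ℕ) : ∑ R ∈ Finset.Icc 1 D, (1 : ℝ) / R ≤ 1 + Real.log D := by
  have h := harmonic_le_one_add_log D
  have h2 : ((harmonic D : ℚ) : ℝ) = ∑ R ∈ Finset.Icc 1 D, (1 : ℝ) / R := by
    rw [harmonic_eq_sum_Icc]
    push_cast
    apply Finset.sum_congr rfl
    intro i _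
    rw [one_div]
  rw [← h2]
  exact h

lemma sum_Icc_inv_sq (D : ℕ) : ∑ R ∈ Finset.Icc 1 D, (1 : ℝ) / R ^ 2 ≤ 2 := by
  have h := sum_Ioo_inv_sq_le (α := ℝ) 0 (D + 1)
  have h2 : Finset.Ioo 0 (D + 1) = Finset.Icc 1 D := by
    ext i
    simp only [Finset.mem_Ioo, Finset.mem_Icc]
    omega
  rw [h2] at h
  calc _ = ∑ i ∈ Finset.Icc 1 D, ((i : ℝ) ^ 2)⁻¹ := by
        apply Finset.sum_congr rfl
        intro i _
        rw [one_div]
    _ ≤ _ := h
    _ = 2 := by norm_num

/-- `∑ |e|^{-2} ≤ 26 D` -/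
lemma sum_normals_sq (D : ℕ) : ∑ e ∈ normals D, (1 : ℝ) / (nrm e : ℝ) ^ 2 ≤ 26 * D := by
  refine (sum_shells (fun R => (1 : ℝ) / (R : ℝ) ^ 2) (fun R => by positivity)).trans ?_
  calc _ = ∑ R ∈ Finset.Icc 1 D, (26 : ℝ) := by
        apply Finset.sum_congr rfl
        intro R hR
        rw [Finset.mem_Icc] at hR
        have : (R : ℝ) ≠ 0 := by
          have : 0 < R := hR.1
          exact_mod_cast this.ne'
        field_simp
    _ = 26 * D := by
        rw [Finset.sum_const, Nat.card_Icc]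
        simp
        ring
    _ ≤ _ := le_rfl

/-- `∑ |e|^{-3} ≤ 26 (1 + log D)` -/
lemma sum_normals_cube (D : ℕ) :
    ∑ e ∈ normals D, (1 : ℝ) / (nrm e : ℝ) ^ 3 ≤ 26 * (1 + Real.log D) := by
  refine (sum_shells (fun R => (1 : ℝ) / (R : ℝ) ^ 3) (fun R => by positivity)).trans ?_
  calc _ = 26 * ∑ R ∈ Finset.Icc 1 D, (1 : ℝ) / R := by
        rw [Finset.mul_sum]
        apply Finset.sum_congr rfl
        intro R hR
        rw [Finset.mem_Icc] at hR
        have : (R : ℝ) ≠ 0 := by
          have : 0 < R := hR.1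
          exact_mod_cast this.ne'
        field_simp
    _ ≤ _ := by
        have := sum_Icc_inv D
        linarith

/-- `∑ |e|^{-4} ≤ 52` -/
lemma sum_normals_four (D : ℕ) :
    ∑ e ∈ normals D, (1 : ℝ) / (nrm e : ℝ) ^ 4 ≤ 52 := by
  refine (sum_shells (fun R => (1 : ℝ) / (R : ℝ) ^ 4) (fun R => by positivity)).trans ?_
  calc _ = 26 * ∑ R ∈ Finset.Icc 1 D, (1 : ℝ) / R ^ 2 := by
        rw [Finset.mul_sum]
        apply Finset.sum_congr rfl
        intro R hR
        rw [Finset.mem_Icc] at hR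
        have : (R : ℝ) ≠ 0 := by
          have : 0 < R := hR.1
          exact_mod_cast this.ne'
        field_simp
    _ ≤ _ := by
        have := sum_Icc_inv_sq D
        linarith

lemma sum_normals_five (D : ℕ) :
    ∑ e ∈ normals D, (1 : ℝ) / (nrm e : ℝ) ^ 5 ≤ 52 := by
  refine le_trans ?_ (sum_normals_four D)
  apply Finset.sum_le_sum
  intro e he
  rw [mem_normals] at he
  have h1 : (1 : ℝ) ≤ nrm e := by exact_mod_cast Prim.nrm_pos he.2
  apply one_div_le_one_div_of_le (by positivity)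
  exact pow_le_pow_right₀ h1 (by norm_num)

lemma sum_mu_two {K : ℝ} (hK0 : 0 ≤ K) (hK : BallPlane K) (D : ℕ) :
    ∑ e ∈ normals D, (1 : ℝ) / nrm e * (1 / (mu e : ℝ) ^ 2) ≤ 52 * K * D * (1 + Real.log D) := by
  refine (sum_mu hK (fun k => 1 / (k : ℝ) ^ 2) (fun k => by positivity) D).trans ?_
  calc _ = 2 * K * D * ∑ m ∈ normals D, (1 : ℝ) / (nrm m : ℝ) ^ 3 := by
        rw [Finset.mul_sum]
        apply Finset.sum_congr rfl
        intro m hm
        rw [mem_normals] at hm
        have : (nrm m : ℝ) ≠ 0 := by exact_mod_cast (Prim.nrm_pos hm.2).ne'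
        field_simp
    _ ≤ 2 * K * D * (26 * (1 + Real.log D)) :=
        mul_le_mul_of_nonneg_left (sum_normals_cube D) (by positivity)
    _ = _ := by ring

lemma sum_mu_four {K : ℝ} (hK0 : 0 ≤ K) (hK : BallPlane K) (D : ℕ) :
    ∑ e ∈ normals D, (1 : ℝ) / nrm e * (1 / (mu e : ℝ) ^ 4) ≤ 104 * K * D := by
  refine (sum_mu hK (fun k => 1 / (k : ℝ) ^ 4) (fun k => by positivity) D).trans ?_
  calc _ = 2 * K * D * ∑ m ∈ normals D, (1 : ℝ) / (nrm m : ℝ) ^ 5 := by
        rw [Finset.mul_sum]
        apply Finset.sum_congr rfl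
        intro m hm
        rw [mem_normals] at hm
        have : (nrm m : ℝ) ≠ 0 := by exact_mod_cast (Prim.nrm_pos hm.2).ne'
        field_simp
    _ ≤ 2 * K * D * 52 :=
        mul_le_mul_of_nonneg_left (sum_normals_five D) (by positivity)
    _ = _ := by ring

/-! ### the number of lattice points of a plane through the origin -/

lemma card_AP {R k : ℕ} (hk : 0 < k) (T : Finset ℤ) (hT : ∀ u ∈ T, -(R : ℤ) ≤ u ∧ u ≤ R)
    (hc : ∀ u ∈ T, ∀ u' ∈ T, (k : ℤ) ∣ u - u') : T.card ≤ 2 * R / k + 1 := by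
  have hcard : (Finset.Icc (0 : ℤ) ((2 * R / k : ℕ) : ℤ)).card = 2 * R / k + 1 := by
    rw [Int.card_Icc]
    generalize 2 * R / k = q
    omega
  rw [← hcard]
  have hk' : (0 : ℤ) < k := by exact_mod_cast hk
  apply Finset.card_le_card_of_injOn (fun u : ℤ => (u + (R : ℤ)) / (k : ℤ))
  · intro u hu
    have h1 := hT u hu
    simp only [Finset.coe_Icc, Set.mem_Icc]
    constructor
    · exact Int.ediv_nonneg (by omega) hk'.le
    · push_cast
      exact Int.ediv_le_ediv hk' (by omega)
  · intro u hu u' hu' heq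
    simp only at heq
    obtain ⟨q, hq⟩ := hc u hu u' hu'
    have h1 := Int.emod_add_mul_ediv (u + R) k
    have h2 := Int.emod_add_mul_ediv (u' + R) k
    have h3 : (u + R) % k = (u' + R) % k := by
      apply Int.emod_eq_emod_iff_emod_sub_eq_zero.2
      rw [show u + (R : ℤ) - (u' + R) = u - u' by ring, hq]
      exact Int.mul_emod_right _ _
    rw [heq, h3] at h1
    linarith

lemma ball_plane_count {m : Pt} (hm : Prim m) (R : ℕ) : ∃ g k : ℕ, 0 < g ∧ 0 < k ∧
    g * k = nrm m ∧
    ((ball R).filter (fun e => dot m e = 0)).card ≤ (2 * R / g + 1) * (2 * R / k + 1) := by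
  obtain ⟨i, hi⟩ := exists_natAbs_eq_nrm m
  obtain ⟨p, hip⟩ : ∃ p : Fin 3, i ≠ p := by
    fin_cases i
    · exact ⟨1, by decide⟩
    · exact ⟨0, by decide⟩
    · exact ⟨0, by decide⟩
  obtain ⟨q, hq1, hq2⟩ := exists_third i p hip
  have hmi : m i ≠ 0 := by
    intro h
    rw [h] at hi
    have := Prim.nrm_pos hm
    simp at hi
    omega
  set g := Int.gcd (m i) (m p) with hg
  have hg0 : 0 < g := Int.gcd_pos_of_ne_zero_left _ hmi
  obtain ⟨k, hk⟩ : ∃ k : ℕ, (m i).natAbs = g * k := by
    have : (g : ℤ) ∣ m i := Int.gcd_dvd_left ..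
    obtain ⟨c, hc⟩ := this
    refine ⟨c.natAbs, ?_⟩
    rw [hc, Int.natAbs_mul]
    simp
  have hk0 : 0 < k := by
    rcases Nat.eq_zero_or_pos k with h | h
    · rw [h, mul_zero, Int.natAbs_eq_zero] at hk
      exact absurd hk hmi
    · exact h
  set S := (ball R).filter (fun e => dot m e = 0) with hS
  -- the coordinate q is a multiple of g
  have hmult : ∀ e ∈ S, (g : ℤ) ∣ e q := by
    intro e he
    rw [hS, Finset.mem_filter] at he
    have h1 := dot_three m e i p q hip hq1 hq2
    rw [he.2] at h1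
    have hgi : (g : ℤ) ∣ m i := Int.gcd_dvd_left ..
    have hgp : (g : ℤ) ∣ m p := Int.gcd_dvd_right ..
    have h2 : (g : ℤ) ∣ m q * e q := by
      have : m q * e q = -(m i * e i + m p * e p) := by linarith
      rw [this]
      exact (dvd_add (hgi.mul_right _) (hgp.mul_right _)).neg_right
    have h3 : (g : ℤ) ∣ e q := by
      apply dvd_of_prim hm
      intro j
      rcases third_cover i p q hip hq1 hq2 j with rfl | rfl | rfl
      · exact hgi.mul_left _
      · exact hgp.mul_left _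
      · rw [mul_comm]; exact h2
    exact h3
  -- for a fixed coordinate q, the coordinate p is in one class mod k
  have hfib : ∀ v ∈ S.image (fun e => e q), (S.filter (fun e => e q = v)).card ≤ 2 * R / k + 1 := by
    intro v _
    have hinj : Set.InjOn (fun e : Pt => e p) (S.filter (fun e => e q = v)) := by
      intro e he e' he' heq
      simp only [Finset.coe_filter, Set.mem_ofPred_eq, hS, Finset.mem_filter] at he he'
      simp only at heq
      have h1 := dot_three m e i p q hip hq1 hq2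
      have h2 := dot_three m e' i p q hip hq1 hq2
      rw [he.1.2, he.2, heq] at h1
      rw [he'.1.2, he'.2] at h2
      have h3 : m i * e i = m i * e' i := by linarith
      have h4 : e i = e' i := mul_left_cancel₀ hmi h3
      funext j
      rcases third_cover i p q hip hq1 hq2 j with rfl | rfl | rfl
      · exact h4
      · exact heq
      · rw [he.2, he'.2]
    rw [← Finset.card_image_of_injOn hinj]
    apply card_AP hk0
    · intro u hu
      obtain ⟨e, he, rfl⟩ := Finset.mem_image.1 hu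
      rw [Finset.mem_filter, hS, Finset.mem_filter, mem_ball] at he
      have := nrm_le.1 he.1.1 p
      omega
    · intro u hu u' hu'
      obtain ⟨e, he, rfl⟩ := Finset.mem_image.1 hu
      obtain ⟨e', he', rfl⟩ := Finset.mem_image.1 hu'
      rw [Finset.mem_filter, hS, Finset.mem_filter] at he he'
      have h1 := dot_three m e i p q hip hq1 hq2
      have h2 := dot_three m e' i p q hip hq1 hq2
      rw [he.1.2, he.2] at h1
      rw [he'.1.2, he'.2] at h2
      have h3 : m i * (e i - e' i) = -(m p * (e p - e' p)) := by linarith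
      obtain ⟨c, hc⟩ : (g : ℤ) ∣ m p := Int.gcd_dvd_right ..
      obtain ⟨d, hd⟩ : (g : ℤ) ∣ m i := Int.gcd_dvd_left ..
      have hdk : d.natAbs = k := by
        have : (m i).natAbs = g * d.natAbs := by
          rw [hd, Int.natAbs_mul]; simp
        rw [this] at hk
        exact Nat.eq_of_mul_eq_mul_left hg0 hk
      have hg0' : (g : ℤ) ≠ 0 := by exact_mod_cast hg0.ne'
      have hcop : IsCoprime d c := by
        rw [Int.isCoprime_iff_gcd_eq_one]
        have h4 : Int.gcd (m i) (m p) = g * Int.gcd d c := by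
          rw [hd, hc, Int.gcd_mul_left]
          simp
        rw [← hg] at h4
        exact Nat.eq_of_mul_eq_mul_left hg0 (by rw [← h4, mul_one])
      have h5 : d * (e i - e' i) = -(c * (e p - e' p)) := by
        apply mul_left_cancel₀ hg0'
        calc (g : ℤ) * (d * (e i - e' i)) = m i * (e i - e' i) := by rw [hd]; ring
          _ = -(m p * (e p - e' p)) := h3
          _ = _ := by rw [hc]; ring
      have h6 : d ∣ c * (e p - e' p) := by
        rw [← dvd_neg, ← h5]
        exact dvd_mul_right _ _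
      have h7 : d ∣ e p - e' p := hcop.dvd_of_dvd_mul_left h6
      rw [← hdk]
      exact Int.natAbs_dvd.2 h7
  have himg : (S.image (fun e => e q)).card ≤ 2 * R / g + 1 := by
    apply card_AP hg0
    · intro u hu
      obtain ⟨e, he, rfl⟩ := Finset.mem_image.1 hu
      rw [hS, Finset.mem_filter, mem_ball] at he
      have := nrm_le.1 he.1 q
      omega
    · intro u hu u' hu'
      obtain ⟨e, he, rfl⟩ := Finset.mem_image.1 hu
      obtain ⟨e', he', rfl⟩ := Finset.mem_image.1 hu'
      exact dvd_sub (hmult e he) (hmult e' he')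
  have hcardS : S.card ≤ (2 * R / g + 1) * (2 * R / k + 1) := by
    rw [Finset.card_eq_sum_card_image (fun e : Pt => e q) S]
    calc _ ≤ ∑ v ∈ S.image (fun e => e q), (2 * R / k + 1) := Finset.sum_le_sum hfib
      _ = (S.image (fun e => e q)).card * (2 * R / k + 1) := by rw [Finset.sum_const, smul_eq_mul]
      _ ≤ _ := Nat.mul_le_mul_right _ himg
  exact ⟨g, k, hg0, hk0, by rw [← hk, hi], hcardS⟩

lemma ballPlane : BallPlane 9 := by
  intro m hm R hR
  obtain ⟨g, k, hg0, hk0, hgk', hcardS⟩ := ball_plane_count hm R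
  have hgk : (g : ℝ) * k = nrm m := by exact_mod_cast hgk'
  have hgR : g ≤ R := by
    have h1 : g ≤ g * k := Nat.le_mul_of_pos_right _ hk0
    omega
  have hkR : k ≤ R := by
    have h1 : k ≤ g * k := Nat.le_mul_of_pos_left _ hg0
    omega
  have hg0r : (0 : ℝ) < g := by exact_mod_cast hg0
  have hk0r : (0 : ℝ) < k := by exact_mod_cast hk0
  have hb : ∀ a : ℕ, 0 < a → a ≤ R → ((2 * R / a + 1 : ℕ) : ℝ) ≤ 3 * R / a := by
    intro a ha haR
    rw [le_div_iff₀ (by exact_mod_cast ha)]
    have h1 : 2 * R / a * a ≤ 2 * R := Nat.div_mul_le_self _ _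
    have h2 : (2 * R / a + 1) * a ≤ 3 * R := by
      rw [add_mul, one_mul]; omega
    exact_mod_cast h2
  calc (((ball R).filter (fun e => dot m e = 0)).card : ℝ)
      ≤ (((2 * R / g + 1) * (2 * R / k + 1) : ℕ) : ℝ) := by exact_mod_cast hcardS
    _ = ((2 * R / g + 1 : ℕ) : ℝ) * ((2 * R / k + 1 : ℕ) : ℝ) := by push_cast; ring
    _ ≤ (3 * R / g) * (3 * R / k) := by
        apply mul_le_mul (hb g hg0 hgR) (hb k hk0 hkR) (by positivity) (by positivity)
    _ = 9 * R ^ 2 / (g * k) := by field_simp; ring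
    _ = 9 * R ^ 2 / nrm m := by rw [hgk]

/-- the same for normals of norm larger than `R` -/
lemma ballPlane_large {m : Pt} (hm : Prim m) {R : ℕ} (hR1 : 1 ≤ R) (hR : R ≤ nrm m) :
    ((ball R).filter (fun e => dot m e = 0)).card ≤ 9 * R := by
  obtain ⟨g, k, hg0, hk0, hgk, hcardS⟩ := ball_plane_count hm R
  refine hcardS.trans ?_
  have hb : ∀ a : ℕ, 0 < a → (2 * R / a + 1) ≤ 3 * R := by
    intro a ha
    have : 2 * R / a ≤ 2 * R := Nat.div_le_self _ _
    generalize 2 * R / a = q at this ⊢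
    omega
  have hs : ∀ a : ℕ, R < a → (2 * R / a + 1) ≤ 2 := by
    intro a ha
    have : 2 * R / a < 2 := by
      rw [Nat.div_lt_iff_lt_mul (by omega)]
      omega
    generalize 2 * R / a = q at this ⊢
    omega
  rcases Nat.lt_or_ge R g with h1 | h1
  · calc _ ≤ 2 * (3 * R) := Nat.mul_le_mul (hs g h1) (hb k hk0)
      _ ≤ 9 * R := by omega
  rcases Nat.lt_or_ge R k with h2 | h2
  · calc _ ≤ (3 * R) * 2 := Nat.mul_le_mul (hb g hg0) (hs k h2)
      _ ≤ 9 * R := by omega
  · have h3 : ∀ a : ℕ, 0 < a → a ≤ R → (2 * R / a + 1) * a ≤ 3 * R := by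
      intro a ha haR
      have h1 : 2 * R / a * a ≤ 2 * R := Nat.div_mul_le_self _ _
      rw [add_mul, one_mul]; omega
    have h4 := Nat.mul_le_mul (h3 g hg0 h1) (h3 k hk0 h2)
    have h5 : (2 * R / g + 1) * g * ((2 * R / k + 1) * k) =
        ((2 * R / g + 1) * (2 * R / k + 1)) * nrm m := by rw [← hgk]; ring
    rw [h5] at h4
    have h6 : ((2 * R / g + 1) * (2 * R / k + 1)) * R ≤ (9 * R) * R := by
      calc _ ≤ ((2 * R / g + 1) * (2 * R / k + 1)) * nrm m := Nat.mul_le_mul_left _ hR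
        _ ≤ 3 * R * (3 * R) := h4
        _ = _ := by ring
    exact Nat.le_of_mul_le_mul_right h6 (by omega)

/-! ### G7 -/

/-- the bound of G5 for `P2` -/
def P2Bound (C : ℝ) (N : ℕ) (x : Pt) : Prop := ∀ e ∈ normals N,
  (P2 N e x : ℝ) ≤ C * (N : ℝ) ^ 4 * ((1 + Real.log N) / nrm e + 1 / (mu e : ℝ) ^ 2)

lemma main_sum {C : ℝ} (hC : 0 ≤ C) {N D : ℕ} (hN : 1 ≤ N) {x : Pt} (hP : P2Bound C N x) :
    ∑ e ∈ normals N, (N : ℝ) / nrm e * (if nrm e < D then (P2 N e x : ℝ) else 0) ≤
      494 * C * (N : ℝ) ^ 5 * D * (1 + Real.log N) := by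
  set A := 1 + Real.log N with hA
  have hA0 : 0 ≤ A := by
    have := Real.log_nonneg (show (1 : ℝ) ≤ N by exact_mod_cast hN)
    linarith
  set D' := min D N with hD'
  have h1 : ∑ e ∈ normals N, (N : ℝ) / nrm e * (if nrm e < D then (P2 N e x : ℝ) else 0) ≤
      ∑ e ∈ normals D', C * (N : ℝ) ^ 5 *
        (A * (1 / (nrm e : ℝ) ^ 2) + (1 : ℝ) / nrm e * (1 / (mu e : ℝ) ^ 2)) := by
    have h2 : ∑ e ∈ normals N, (N : ℝ) / nrm e * (if nrm e < D then (P2 N e x : ℝ) else 0) =
        ∑ e ∈ (normals N).filter (fun e => nrm e < D), (N : ℝ) / nrm e * (P2 N e x : ℝ) := by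
      rw [Finset.sum_filter]
      apply Finset.sum_congr rfl
      intro e _
      split_ifs <;> simp
    rw [h2]
    have h3 : (normals N).filter (fun e => nrm e < D) ⊆ normals D' := by
      intro e he
      rw [Finset.mem_filter, mem_normals] at he
      rw [mem_normals]
      exact ⟨by rw [hD']; exact le_min he.2.le he.1.1, he.1.2⟩
    refine le_trans ?_ (Finset.sum_le_sum_of_subset_of_nonneg h3 ?_)
    · apply Finset.sum_le_sum
      intro e he
      have he1 := (Finset.mem_filter.1 he).1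
      have hpos : (0 : ℝ) < nrm e := by
        exact_mod_cast Prim.nrm_pos (mem_normals.1 he1).2
      calc (N : ℝ) / nrm e * (P2 N e x : ℝ)
          ≤ (N : ℝ) / nrm e * (C * (N : ℝ) ^ 4 * (A / nrm e + 1 / (mu e : ℝ) ^ 2)) :=
            mul_le_mul_of_nonneg_left (hP e he1) (by positivity)
        _ = _ := by
            field_simp
    · intro e _ _
      positivity
  refine h1.trans ?_
  rw [← Finset.mul_sum, Finset.sum_add_distrib, ← Finset.mul_sum]
  have h4 := sum_normals_sq D'
  have h5 := sum_mu_two (by norm_num) ballPlane D'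
  have hDD : (D' : ℝ) ≤ D := by exact_mod_cast min_le_left D N
  have h6 : (D' : ℝ) * (1 + Real.log D') ≤ D * A := by
    rcases Nat.eq_zero_or_pos D' with h | h
    · rw [h]
      simp only [Nat.cast_zero, zero_mul]
      positivity
    · apply mul_le_mul hDD _ _ (by positivity)
      · rw [hA]
        have h7 : Real.log D' ≤ Real.log N := by
          apply Real.log_le_log (by exact_mod_cast h)
          exact_mod_cast min_le_right D N
        linarith
      · have := Real.log_nonneg (show (1 : ℝ) ≤ D' by exact_mod_cast h)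
        linarith
  have h8 : A * ∑ e ∈ normals D', (1 : ℝ) / (nrm e : ℝ) ^ 2 ≤ A * (26 * D) :=
    mul_le_mul_of_nonneg_left (h4.trans (by linarith)) hA0
  calc C * (N : ℝ) ^ 5 * (A * ∑ e ∈ normals D', (1 : ℝ) / (nrm e : ℝ) ^ 2 +
        ∑ e ∈ normals D', (1 : ℝ) / nrm e * (1 / (mu e : ℝ) ^ 2))
      ≤ C * (N : ℝ) ^ 5 * (A * (26 * D) + 52 * 9 * (D * A)) := by
        apply mul_le_mul_of_nonneg_left _ (by positivity)
        linarith
    _ = 494 * C * (N : ℝ) ^ 5 * D * A := by ring

lemma cop_iff {x y z w : Pt} (h : y ≠ x) :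
    Cop x y z w ↔ dot (prim (y - x)) (cross (z - x) (w - x)) = 0 := by
  unfold Cop
  conv_lhs => rw [← content_smul_prim (y - x)]
  have h1 : (content (y - x) : ℤ) ≠ 0 := by exact_mod_cast (content_pos (sub_ne_zero.2 h)).ne'
  have h2 : ∀ a b : Pt, ∀ t : ℤ, dot (t • a) b = t * dot a b := by
    intro a b t
    simp [dot]; ring
  rw [h2]
  constructor
  · intro h3
    exact (mul_eq_zero.1 h3).resolve_left h1
  · intro h3
    rw [h3, mul_zero]

/-- number of coplanar pairs with `x, y` -/
lemma card_cop_eq {N : ℕ} {x y : Pt} (h : y ≠ x) :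
    ((box N ×ˢ box N).filter (fun p => Cop x y p.1 p.2)).card = P2 N (prim (y - x)) x := by
  unfold P2
  congr 1
  apply Finset.filter_congr
  intro p _
  exact cop_iff h

/-- **G7, first form (sum)** -/
theorem G7_sum {C : ℝ} (hC : 0 ≤ C) {N D : ℕ} {x : Pt} (hx : x ∈ box N) (hP : P2Bound C N x) :
    ∑ y ∈ (box N).filter (fun y => y ≠ x ∧ dirN x y < D),
      (((box N ×ˢ box N).filter (fun p => Cop x y p.1 p.2)).card : ℝ) ≤
      494 * C * (N : ℝ) ^ 5 * D * (1 + Real.log N) := by
  have hN : 1 ≤ N := by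
    rw [mem_box] at hx
    have := hx 0
    omega
  refine le_trans ?_ (main_sum hC hN hP)
  refine le_trans ?_ (sum_dir hx (fun e => if nrm e < D then (P2 N e x : ℝ) else 0) ?_)
  · rw [← Finset.filter_filter, Finset.sum_filter]
    apply le_of_eq
    apply Finset.sum_congr rfl
    intro y hy
    rw [Finset.mem_filter] at hy
    simp only [dirN_eq]
    rw [card_cop_eq hy.2]
  · intro e
    split_ifs <;> positivity

/-- **G7, first form** -/
theorem G7a {C : ℝ} (hC : 0 ≤ C) {N D : ℕ} {x : Pt} (hx : x ∈ box N) (hP : P2Bound C N x) :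
    (((box N ×ˢ box N ×ˢ box N).filter
      (fun p => p.1 ≠ x ∧ dirN x p.1 < D ∧ Cop x p.1 p.2.1 p.2.2)).card : ℝ) ≤
      494 * C * (N : ℝ) ^ 5 * D * (1 + Real.log N) := by
  refine le_trans (le_of_eq ?_) (G7_sum hC hx hP)
  rw [Finset.card_filter, Finset.sum_product, Finset.sum_filter]
  push_cast
  apply Finset.sum_congr rfl
  intro y _
  split_ifs with h
  · rw [Finset.card_filter]
    push_cast
    apply Finset.sum_congr rfl
    intro p _
    simp [h.1, h.2]
  · apply Finset.sum_eq_zero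
    intro p _
    rw [if_neg]
    intro h'
    exact h ⟨h'.1, h'.2.1⟩

lemma cop_iff' {x y z w : Pt} (h : z ≠ y) :
    Cop x y z w ↔ dot (prim (z - y)) (cross (y - x) (w - x)) = 0 := by
  have h1 : (content (z - y) : ℤ) ≠ 0 := by exact_mod_cast (content_pos (sub_ne_zero.2 h)).ne'
  have h3 : dot (y - x) (cross (z - x) (w - x)) =
      -((content (z - y) : ℤ) * dot (prim (z - y)) (cross (y - x) (w - x))) := by
    have h4 : (content (z - y) : ℤ) * dot (prim (z - y)) (cross (y - x) (w - x)) =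
        dot (z - y) (cross (y - x) (w - x)) := by
      conv_rhs => rw [← content_smul_prim (z - y)]
      simp [dot]; ring
    rw [h4]
    simp only [dot, cross_apply0, cross_apply1, cross_apply2, Pi.sub_apply]
    ring
  unfold Cop
  rw [h3, neg_eq_zero]
  constructor
  · intro h5
    exact (mul_eq_zero.1 h5).resolve_left h1
  · intro h5
    rw [h5, mul_zero]

/-- **G7, second form** -/
theorem G7b {C : ℝ} (hC : 0 ≤ C) {N D : ℕ} {x : Pt} (hx : x ∈ box N) (hP : P2Bound C N x) :
    (((box N ×ˢ box N ×ˢ box N).filter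
      (fun p => p.2.1 ≠ p.1 ∧ dirN p.1 p.2.1 < D ∧ Cop x p.1 p.2.1 p.2.2)).card : ℝ) ≤
      494 * C * (N : ℝ) ^ 5 * D * (1 + Real.log N) := by
  have hN : 1 ≤ N := by
    rw [mem_box] at hx
    have := hx 0
    omega
  refine le_trans ?_ (main_sum hC hN hP)
  -- for fixed y, sum over z, number of w
  let W : Pt → Pt → ℝ := fun e y =>
    (((box N).filter (fun w => dot e (cross (y - x) (w - x)) = 0)).card : ℝ)
  have h1 : (((box N ×ˢ box N ×ˢ box N).filter
      (fun p => p.2.1 ≠ p.1 ∧ dirN p.1 p.2.1 < D ∧ Cop x p.1 p.2.1 p.2.2)).card : ℝ) =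
      ∑ y ∈ box N, ∑ z ∈ (box N).filter (fun z => z ≠ y),
        (if nrm (prim (z - y)) < D then W (prim (z - y)) y else 0) := by
    rw [Finset.card_filter, Finset.sum_product]
    push_cast
    apply Finset.sum_congr rfl
    intro y _
    rw [Finset.sum_product, Finset.sum_filter]
    apply Finset.sum_congr rfl
    intro z _
    by_cases h : z ≠ y
    · rw [if_pos h]
      by_cases h' : nrm (prim (z - y)) < D
      · rw [if_pos h']
        simp only [W, Finset.card_filter]
        push_cast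
        apply Finset.sum_congr rfl
        intro w _
        simp [h, dirN_eq, h', cop_iff' h]
      · rw [if_neg h']
        apply Finset.sum_eq_zero
        intro w _
        rw [if_neg]
        rw [dirN_eq]
        tauto
    · rw [if_neg h]
      apply Finset.sum_eq_zero
      intro w _
      rw [if_neg]
      tauto
  rw [h1]
  have h2 : ∀ y ∈ box N, ∑ z ∈ (box N).filter (fun z => z ≠ y),
        (if nrm (prim (z - y)) < D then W (prim (z - y)) y else 0) ≤
      ∑ e ∈ normals N, (N : ℝ) / nrm e * (if nrm e < D then W e y else 0) := by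
    intro y hy
    apply sum_dir hy (fun e => if nrm e < D then W e y else 0)
    intro e
    show (0 : ℝ) ≤ if nrm e < D then W e y else 0
    split_ifs
    · exact Nat.cast_nonneg _
    · exact le_rfl
  refine (Finset.sum_le_sum h2).trans ?_
  rw [Finset.sum_comm]
  apply le_of_eq
  apply Finset.sum_congr rfl
  intro e _
  rw [← Finset.mul_sum]
  congr 1
  split_ifs with h
  · simp only [W, P2, Finset.card_filter]
    rw [Finset.sum_product]
    push_cast
    rfl
  · simp

/-! ### G10 -/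

/-- **G10, first part** -/
theorem G10a {C : ℝ} {N : ℕ} {x : Pt} (hx : x ∈ box N) (hP : P2Bound C N x) :
    ∑ z ∈ (box N).filter (fun z => z ≠ x),
      (((box N ×ˢ box N).filter (fun p => Cop x z p.1 p.2)).card : ℝ) ^ 2 ≤
      1924 * C ^ 2 * (N : ℝ) ^ 10 * (1 + Real.log N) ^ 2 := by
  have hN : 1 ≤ N := by
    rw [mem_box] at hx
    have := hx 0
    omega
  have hN1 : (1 : ℝ) ≤ N := by exact_mod_cast hN
  set A := 1 + Real.log N with hA
  have hA1 : 1 ≤ A := by
    have := Real.log_nonneg hN1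
    linarith
  have hAN : A ≤ N := by
    have := Real.log_le_sub_one_of_pos (show (0 : ℝ) < N by linarith)
    linarith
  have h1 : ∑ z ∈ (box N).filter (fun z => z ≠ x),
      (((box N ×ˢ box N).filter (fun p => Cop x z p.1 p.2)).card : ℝ) ^ 2 ≤
      ∑ e ∈ normals N, (N : ℝ) / nrm e * ((P2 N e x : ℝ) ^ 2) := by
    refine le_trans (le_of_eq ?_) (sum_dir hx (fun e => (P2 N e x : ℝ) ^ 2) (fun e => by positivity))
    apply Finset.sum_congr rfl
    intro z hz
    rw [Finset.mem_filter] at hz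
    rw [card_cop_eq hz.2]
  have h2 : ∀ e ∈ normals N, (N : ℝ) / nrm e * ((P2 N e x : ℝ) ^ 2) ≤
      2 * C ^ 2 * (N : ℝ) ^ 9 * (A ^ 2 * (1 / (nrm e : ℝ) ^ 3) +
        (1 : ℝ) / nrm e * (1 / (mu e : ℝ) ^ 4)) := by
    intro e he
    have hpos : (0 : ℝ) < nrm e := by exact_mod_cast Prim.nrm_pos (mem_normals.1 he).2
    have h3 := hP e he
    have h4 : ((P2 N e x : ℝ)) ^ 2 ≤ (C * (N : ℝ) ^ 4 * (A / nrm e + 1 / (mu e : ℝ) ^ 2)) ^ 2 :=
      pow_le_pow_left₀ (by positivity) h3 2
    have h5 : (A / nrm e + 1 / (mu e : ℝ) ^ 2) ^ 2 ≤ 2 * (A / nrm e) ^ 2 + 2 * (1 / (mu e : ℝ) ^ 2) ^ 2 := by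
      nlinarith [sq_nonneg (A / nrm e - 1 / (mu e : ℝ) ^ 2)]
    calc (N : ℝ) / nrm e * ((P2 N e x : ℝ) ^ 2)
        ≤ (N : ℝ) / nrm e * (C * (N : ℝ) ^ 4 * (A / nrm e + 1 / (mu e : ℝ) ^ 2)) ^ 2 :=
          mul_le_mul_of_nonneg_left h4 (by positivity)
      _ = (N : ℝ) / nrm e * (C ^ 2 * (N : ℝ) ^ 8) * (A / nrm e + 1 / (mu e : ℝ) ^ 2) ^ 2 := by ring
      _ ≤ (N : ℝ) / nrm e * (C ^ 2 * (N : ℝ) ^ 8) *
          (2 * (A / nrm e) ^ 2 + 2 * (1 / (mu e : ℝ) ^ 2) ^ 2) :=
          mul_le_mul_of_nonneg_left h5 (by positivity)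
      _ = _ := by
          field_simp
  refine h1.trans ((Finset.sum_le_sum h2).trans ?_)
  rw [← Finset.mul_sum, Finset.sum_add_distrib, ← Finset.mul_sum]
  have h6 := sum_normals_cube N
  have h7 := sum_mu_four (by norm_num) ballPlane N
  have h8 : A ^ 2 * ∑ e ∈ normals N, (1 : ℝ) / (nrm e : ℝ) ^ 3 ≤ A ^ 2 * (26 * N) := by
    apply mul_le_mul_of_nonneg_left _ (by positivity)
    rw [← hA] at h6
    linarith
  have h9 : (104 : ℝ) * 9 * N ≤ A ^ 2 * (936 * N) := by
    have : 1 ≤ A ^ 2 := one_le_pow₀ hA1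
    nlinarith
  calc 2 * C ^ 2 * (N : ℝ) ^ 9 * (A ^ 2 * ∑ e ∈ normals N, (1 : ℝ) / (nrm e : ℝ) ^ 3 +
        ∑ e ∈ normals N, (1 : ℝ) / nrm e * (1 / (mu e : ℝ) ^ 4))
      ≤ 2 * C ^ 2 * (N : ℝ) ^ 9 * (A ^ 2 * (26 * N) + A ^ 2 * (936 * N)) := by
        apply mul_le_mul_of_nonneg_left _ (by positivity)
        linarith
    _ = 1924 * C ^ 2 * (N : ℝ) ^ 10 * A ^ 2 := by ring

/-- every plane of the box with three non collinear points is small (G1 for the box) -/
def PlaneBound (N : ℕ) : Prop := ∀ m x z w : Pt, Prim m → x ∈ box N → z ∈ box N → w ∈ box N →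
  ¬ Col x z w → dot m z = dot m x → dot m w = dot m x →
  ((plane N m (dot m x)).card : ℝ) ≤ 18 * (N : ℝ) ^ 2 / nrm m

lemma dot_cross_left (a b : Pt) : dot (cross a b) a = 0 := by
  simp only [dot, cross_apply0, cross_apply1, cross_apply2]; ring

lemma dot_cross_right (a b : Pt) : dot (cross a b) b = 0 := by
  simp only [dot, cross_apply0, cross_apply1, cross_apply2]; ring

lemma nrm_cross_lt {N : ℕ} {x z w : Pt} (hx : x ∈ box N) (hz : z ∈ box N) (hw : w ∈ box N) :
    nrm (cross (z - x) (w - x)) ≤ 2 * N ^ 2 :=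
  nrm_cross_le (nrm_sub_lt hx hz).le (nrm_sub_lt hx hw).le

/-- the primitive normal of the plane of three non collinear points -/
lemma normal_spec {x z w : Pt} (h : ¬ Col x z w) :
    ∀ u : Pt, Cop x z w u ↔ dot (prim (cross (z - x) (w - x))) u =
      dot (prim (cross (z - x) (w - x))) x := by
  intro u
  have hne : cross (z - x) (w - x) ≠ 0 := h
  have h1 : (content (cross (z - x) (w - x)) : ℤ) ≠ 0 := by exact_mod_cast (content_pos hne).ne'
  have h2 : (content (cross (z - x) (w - x)) : ℤ) *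
      dot (prim (cross (z - x) (w - x))) (u - x) = dot (z - x) (cross (w - x) (u - x)) := by
    have h3 : (content (cross (z - x) (w - x)) : ℤ) *
        dot (prim (cross (z - x) (w - x))) (u - x) = dot (cross (z - x) (w - x)) (u - x) := by
      conv_rhs => rw [← content_smul_prim (cross (z - x) (w - x))]
      simp [dot]; ring
    rw [h3]
    simp only [dot, cross_apply0, cross_apply1, cross_apply2, Pi.sub_apply]
    ring
  unfold Cop
  rw [← h2, dot_sub]
  constructor
  · intro h3
    have := (mul_eq_zero.1 h3).resolve_left h1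
    linarith
  · intro h3
    rw [h3]
    ring

/-- **G10, second part** (given G1 for the box) -/
theorem G10b {N : ℕ} {x : Pt} (hx : x ∈ box N) (hP : PlaneBound N) :
    (((box N ×ˢ box N ×ˢ box N ×ˢ box N).filter
      (fun p => ¬ Col x p.1 p.2.1 ∧ Cop x p.1 p.2.1 p.2.2.1 ∧ Cop x p.1 p.2.1 p.2.2.2)).card : ℝ) ≤
      52 * 18 ^ 4 * (N : ℝ) ^ 8 := by
  classical
  set Q := (box N ×ˢ box N ×ˢ box N ×ˢ box N).filter
      (fun p => ¬ Col x p.1 p.2.1 ∧ Cop x p.1 p.2.1 p.2.2.1 ∧ Cop x p.1 p.2.1 p.2.2.2) with hQ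
  let g : Pt × Pt × Pt × Pt → Pt := fun p => prim (cross (p.1 - x) (p.2.1 - x))
  have hmaps : ∀ p ∈ Q, g p ∈ normals (2 * N ^ 2) := by
    intro p hp
    rw [hQ, Finset.mem_filter] at hp
    simp only [Finset.mem_product] at hp
    rw [mem_normals]
    have hne : cross (p.1 - x) (p.2.1 - x) ≠ 0 := hp.2.1
    refine ⟨?_, prim_Prim hne⟩
    have h1 := nrm_cross_lt hx hp.1.1 hp.1.2.1
    have h2 := nrm_eq_content_mul (cross (p.1 - x) (p.2.1 - x))
    have h3 : nrm (g p) ≤ content (cross (p.1 - x) (p.2.1 - x)) * nrm (g p) :=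
      Nat.le_mul_of_pos_left _ (content_pos hne)
    have h4 : nrm (cross (p.1 - x) (p.2.1 - x)) =
      content (cross (p.1 - x) (p.2.1 - x)) * nrm (g p) := h2
    omega
  have hfib : ∀ m ∈ normals (2 * N ^ 2), ((Q.filter (fun p => g p = m)).card : ℝ) ≤
      18 ^ 4 * (N : ℝ) ^ 8 * (1 / (nrm m : ℝ) ^ 4) := by
    intro m hm
    have hpos : (0 : ℝ) < nrm m := by exact_mod_cast Prim.nrm_pos (mem_normals.1 hm).2
    by_cases hne : (Q.filter (fun p => g p = m)) = ∅
    · rw [hne]
      simp only [Finset.card_empty, Nat.cast_zero]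
      positivity
    · obtain ⟨p0, hp0⟩ := Finset.nonempty_iff_ne_empty.2 hne
      rw [Finset.mem_filter, hQ, Finset.mem_filter] at hp0
      simp only [Finset.mem_product] at hp0
      have hs := normal_spec hp0.1.2.1
      have hz0 : dot m p0.1 = dot m x := by
        rw [← hp0.2]
        apply (hs _).1
        unfold Cop
        simp only [dot, cross_apply0, cross_apply1, cross_apply2, Pi.sub_apply]
        ring
      have hw0 : dot m p0.2.1 = dot m x := by
        rw [← hp0.2]
        apply (hs _).1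
        unfold Cop
        simp only [dot, cross_apply0, cross_apply1, cross_apply2, Pi.sub_apply]
        ring
      have hpb := hP m x p0.1 p0.2.1 (mem_normals.1 hm).2 hx hp0.1.1.1 hp0.1.1.2.1 hp0.1.2.1 hz0 hw0
      set π := plane N m (dot m x) with hπ
      have hsub : Q.filter (fun p => g p = m) ⊆ π ×ˢ π ×ˢ π ×ˢ π := by
        intro p hp
        rw [Finset.mem_filter, hQ, Finset.mem_filter] at hp
        simp only [Finset.mem_product] at hp ⊢
        have hs' := normal_spec hp.1.2.1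
        have hm' : prim (cross (p.1 - x) (p.2.1 - x)) = m := hp.2
        rw [hm'] at hs'
        simp only [hπ, plane, Finset.mem_filter]
        refine ⟨⟨hp.1.1.1, ?_⟩, ⟨hp.1.1.2.1, ?_⟩, ⟨hp.1.1.2.2.1, (hs' _).1 hp.1.2.2.1⟩,
          ⟨hp.1.1.2.2.2, (hs' _).1 hp.1.2.2.2⟩⟩
        · apply (hs' _).1
          unfold Cop
          simp only [dot, cross_apply0, cross_apply1, cross_apply2, Pi.sub_apply]
          ring
        · apply (hs' _).1
          unfold Cop
          simp only [dot, cross_apply0, cross_apply1, cross_apply2, Pi.sub_apply]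
          ring
      have h1 := Finset.card_le_card hsub
      rw [Finset.card_product, Finset.card_product, Finset.card_product] at h1
      have h2 : ((Q.filter (fun p => g p = m)).card : ℝ) ≤ (π.card : ℝ) ^ 4 := by
        have h3 : π.card * (π.card * (π.card * π.card)) = π.card ^ 4 := by ring
        rw [h3] at h1
        exact_mod_cast h1
      calc _ ≤ (π.card : ℝ) ^ 4 := h2
        _ ≤ (18 * (N : ℝ) ^ 2 / nrm m) ^ 4 := pow_le_pow_left₀ (by positivity) hpb 4
        _ = _ := by field_simp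
  calc (Q.card : ℝ) = ∑ m ∈ normals (2 * N ^ 2), ((Q.filter (fun p => g p = m)).card : ℝ) := by
        rw [Finset.card_eq_sum_card_fiberwise hmaps]
        push_cast
        rfl
    _ ≤ ∑ m ∈ normals (2 * N ^ 2), 18 ^ 4 * (N : ℝ) ^ 8 * (1 / (nrm m : ℝ) ^ 4) :=
        Finset.sum_le_sum hfib
    _ = 18 ^ 4 * (N : ℝ) ^ 8 * ∑ m ∈ normals (2 * N ^ 2), (1 : ℝ) / (nrm m : ℝ) ^ 4 := by
        rw [Finset.mul_sum]
    _ ≤ 18 ^ 4 * (N : ℝ) ^ 8 * 52 :=
        mul_le_mul_of_nonneg_left (sum_normals_four _) (by positivity)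
    _ = _ := by ring

end Pool.Agent.Grid3D.Geo2
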