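import Pool.Agent.Grid3D.Geo2

set_option autoImplicit false

namespace Pool.Agent.Grid3D.Geo2

open Finset

lemma cross_anti (a b : Pt) : cross a b = - cross b a := by
  funext i
  fin_cases i <;> simp [cross] <;> ring

lemma cross_smul_right (t : ℤ) (a b : Pt) : cross a (t • b) = t • cross a b := by
  funext i
  fin_cases i <;> simp [cross] <;> ring

lemma cross_sub_left (a b c : Pt) : cross (a - b) c = cross a c - cross b c := by
  funext i
  fin_cases i <;> simp [cross] <;> ring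

lemma dot_comm (a b : Pt) : dot a b = dot b a := by simp [dot]; ring

/-- **G1** -/
theorem G1 {m u v : Pt} {R : ℕ} (hm : Prim m) (hu : nrm u ≤ R) (hv : nrm v ≤ R)
    (hmu : dot m u = 0) (hmv : dot m v = 0) (hind : cross u v ≠ 0) :
    (((ball R).filter (fun e => dot m e = 0)).card : ℝ) ≤ 18 * (R : ℝ) ^ 2 / nrm m := by
  have hu0 : u ≠ 0 := by
    rintro rfl
    apply hind
    funext i
    fin_cases i <;> simp [cross]
  set v1 := prim u with hv1
  have hv1P : Prim v1 := prim_Prim hu0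
  have hcu : 0 < content u := content_pos hu0
  have hv1R : nrm v1 ≤ R := by
    have h1 := nrm_eq_content_mul u
    have h2 : nrm v1 ≤ content u * nrm v1 := Nat.le_mul_of_pos_left _ hcu
    rw [← hv1] at h1
    omega
  have hmv1 : dot m v1 = 0 := by
    have h1 : dot m u = (content u : ℤ) * dot m v1 := by
      conv_lhs => rw [← content_smul_prim u]
      rw [dot_smul]
    rw [h1] at hmu
    exact (mul_eq_zero.1 hmu).resolve_left (by exact_mod_cast hcu.ne')
  obtain ⟨m', hm'⟩ := bezout hm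
  -- r × v1 is a multiple of m
  have hmult : ∀ r : Pt, dot m r = 0 → cross r v1 = (dot m' (cross r v1)) • m := by
    intro r hr
    have h1 : cross m (cross r v1) = 0 := cross_cross_eq r v1 m (by rw [dot_comm]; exact hr)
      (by rw [dot_comm]; exact hmv1)
    obtain ⟨s, hs⟩ := eq_smul_of_cross hm h1
    rw [hs, dot_smul, hm', mul_one]
  have hpos1 : 0 < nrm v1 := Prim.nrm_pos hv1P
  have hpos2 : 0 < nrm m := Prim.nrm_pos hm
  have hnc : ∀ r : Pt, nrm r ≤ R → nrm (cross r v1) ≤ 2 * R * nrm v1 := by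
    intro r hr
    have key : ∀ i j k l : Fin 3, (r i * v1 j - r k * v1 l).natAbs ≤ 2 * R * nrm v1 := by
      intro i j k l
      have a1 := nrm_le.1 hr i
      have a2 := natAbs_le_nrm v1 j
      have a3 := nrm_le.1 hr k
      have a4 := natAbs_le_nrm v1 l
      calc (r i * v1 j - r k * v1 l).natAbs ≤ (r i * v1 j).natAbs + (r k * v1 l).natAbs :=
            Int.natAbs_sub_le _ _
        _ = (r i).natAbs * (v1 j).natAbs + (r k).natAbs * (v1 l).natAbs := by
            rw [Int.natAbs_mul, Int.natAbs_mul]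
        _ ≤ R * nrm v1 + R * nrm v1 := Nat.add_le_add (Nat.mul_le_mul a1 a2) (Nat.mul_le_mul a3 a4)
        _ = 2 * R * nrm v1 := by ring
    rw [nrm_le]
    intro i
    fin_cases i
    · exact key 1 2 2 1
    · exact key 2 0 0 2
    · exact key 0 1 1 0
  set S := (ball R).filter (fun e => dot m e = 0) with hS
  set J := 2 * R * nrm v1 / nrm m with hJ
  have hjR : ∀ r ∈ S, (dot m' (cross r v1)).natAbs ≤ J := by
    intro r hr
    rw [hS, Finset.mem_filter, mem_ball] at hr
    have h1 := hnc r hr.1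
    rw [hmult r hr.2, nrm_smul] at h1
    rw [hJ, Nat.le_div_iff_mul_le hpos2]
    exact h1
  -- some r has j ≠ 0
  have hmle : nrm m ≤ 2 * R * nrm v1 := by
    have h1 : cross v v1 ≠ 0 := by
      intro h2
      apply hind
      rw [cross_anti]
      have h3 : cross v u = (content u : ℤ) • cross v v1 := by
        conv_lhs => rw [← content_smul_prim u]
        rw [cross_smul_right]
      rw [h3, h2]
      simp
    have h2 := hnc v hv
    rw [hmult v hmv, nrm_smul] at h2
    have h3 : dot m' (cross v v1) ≠ 0 := by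
      intro h4
      apply h1
      rw [hmult v hmv, h4, zero_smul]
    have h4 : 1 ≤ (dot m' (cross v v1)).natAbs := Int.natAbs_pos.2 h3
    calc nrm m = 1 * nrm m := (one_mul _).symm
      _ ≤ (dot m' (cross v v1)).natAbs * nrm m := Nat.mul_le_mul_right _ h4
      _ ≤ _ := h2
  obtain ⟨i, hi⟩ := exists_natAbs_eq_nrm v1
  have hv1i : v1 i ≠ 0 := by
    intro h
    rw [h] at hi
    simp at hi
    omega
  -- two points in the same fibre differ by a multiple of v1
  have hdiff : ∀ r ∈ S, ∀ r' ∈ S, dot m' (cross r v1) = dot m' (cross r' v1) →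
      ∃ s : ℤ, r - r' = s • v1 := by
    intro r hr r' hr' heq
    rw [hS, Finset.mem_filter] at hr hr'
    apply eq_smul_of_cross hv1P
    rw [cross_anti, cross_sub_left, hmult r hr.2, hmult r' hr'.2, heq]
    simp
  have hfib : ∀ j ∈ S.image (fun r => dot m' (cross r v1)),
      (S.filter (fun r => dot m' (cross r v1) = j)).card ≤ 2 * R / nrm v1 + 1 := by
    intro j _
    have hinj : Set.InjOn (fun e : Pt => e i) (S.filter (fun r => dot m' (cross r v1) = j)) := by
      intro r hr r' hr' heq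
      simp only [Finset.coe_filter, Set.mem_ofPred_eq] at hr hr'
      simp only at heq
      obtain ⟨s, hs⟩ := hdiff r hr.1 r' hr'.1 (hr.2.trans hr'.2.symm)
      have h1 := congrFun hs i
      simp only [Pi.sub_apply, Pi.smul_apply, smul_eq_mul, heq, sub_self] at h1
      have h2 : s = 0 := (mul_eq_zero.1 h1.symm).resolve_right hv1i
      rw [h2, zero_smul, sub_eq_zero] at hs
      exact hs
    rw [← Finset.card_image_of_injOn hinj]
    apply card_AP hpos1
    · intro w hw
      obtain ⟨r, hr, rfl⟩ := Finset.mem_image.1 hw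
      rw [Finset.mem_filter, hS, Finset.mem_filter, mem_ball] at hr
      have := nrm_le.1 hr.1.1 i
      omega
    · intro w hw w' hw'
      obtain ⟨r, hr, rfl⟩ := Finset.mem_image.1 hw
      obtain ⟨r', hr', rfl⟩ := Finset.mem_image.1 hw'
      rw [Finset.mem_filter] at hr hr'
      obtain ⟨s, hs⟩ := hdiff r hr.1 r' hr'.1 (hr.2.trans hr'.2.symm)
      have h1 := congrFun hs i
      simp only [Pi.sub_apply, Pi.smul_apply, smul_eq_mul] at h1
      rw [h1, ← hi]
      exact Int.natAbs_dvd.2 (dvd_mul_left _ _)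
  have himg : (S.image (fun r => dot m' (cross r v1))).card ≤ 2 * J + 1 := by
    have hcard : (Finset.Icc (-(J : ℤ)) J).card = 2 * J + 1 := by
      rw [Int.card_Icc]
      generalize J = q
      omega
    rw [← hcard]
    apply Finset.card_le_card
    intro j hj
    obtain ⟨r, hr, rfl⟩ := Finset.mem_image.1 hj
    have := hjR r hr
    rw [Finset.mem_Icc]
    generalize J = q at this ⊢
    omega
  have hcardS : S.card ≤ (2 * J + 1) * (2 * R / nrm v1 + 1) := by
    rw [Finset.card_eq_sum_card_image (fun r : Pt => dot m' (cross r v1)) S]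
    calc _ ≤ ∑ j ∈ S.image (fun r => dot m' (cross r v1)), (2 * R / nrm v1 + 1) :=
          Finset.sum_le_sum hfib
      _ = (S.image (fun r => dot m' (cross r v1))).card * (2 * R / nrm v1 + 1) := by
          rw [Finset.sum_const, smul_eq_mul]
      _ ≤ _ := Nat.mul_le_mul_right _ himg
  have hr1 : (0 : ℝ) < nrm v1 := by exact_mod_cast hpos1
  have hr2 : (0 : ℝ) < nrm m := by exact_mod_cast hpos2
  have hb1 : ((2 * R / nrm v1 + 1 : ℕ) : ℝ) ≤ 3 * R / nrm v1 := by
    rw [le_div_iff₀ hr1]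
    have h1 : 2 * R / nrm v1 * nrm v1 ≤ 2 * R := Nat.div_mul_le_self _ _
    have h2 : (2 * R / nrm v1 + 1) * nrm v1 ≤ 3 * R := by
      rw [add_mul, one_mul]; omega
    exact_mod_cast h2
  have hb2 : ((2 * J + 1 : ℕ) : ℝ) ≤ 6 * R * nrm v1 / nrm m := by
    rw [le_div_iff₀ hr2]
    have h1 : J * nrm m ≤ 2 * R * nrm v1 := Nat.div_mul_le_self _ _
    have h2 : (2 * J + 1) * nrm m ≤ 6 * R * nrm v1 := by nlinarith
    exact_mod_cast h2
  calc (S.card : ℝ) ≤ (((2 * J + 1) * (2 * R / nrm v1 + 1) : ℕ) : ℝ) := by exact_mod_cast hcardS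
    _ = ((2 * J + 1 : ℕ) : ℝ) * ((2 * R / nrm v1 + 1 : ℕ) : ℝ) := by push_cast; ring
    _ ≤ (6 * R * nrm v1 / nrm m) * (3 * R / nrm v1) := by
        apply mul_le_mul hb2 hb1 (by positivity) (by positivity)
    _ = 18 * (R : ℝ) ^ 2 / nrm m := by
        field_simp
        ring

/-- G1 for planes of the box -/
theorem planeBound (N : ℕ) : PlaneBound N := by
  intro m x z w hm hx hz hw hcol h1 h2
  have hG := G1 (R := N) hm (nrm_sub_lt hx hz).le (nrm_sub_lt hx hw).le
    (by rw [dot_sub, h1]; ring) (by rw [dot_sub, h2]; ring) hcol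
  refine le_trans ?_ hG
  have : (plane N m (dot m x)).card ≤ ((ball N).filter (fun e => dot m e = 0)).card := by
    apply Finset.card_le_card_of_injOn (fun y => y - x)
    · intro y hy
      simp only [plane, Finset.coe_filter, Set.mem_ofPred_eq] at hy
      simp only [Finset.coe_filter, Set.mem_ofPred_eq, mem_ball]
      exact ⟨(nrm_sub_lt hx hy.1).le, by rw [dot_sub, hy.2]; ring⟩
    · intro y _ y' _ h
      exact sub_left_injective h
  exact_mod_cast this

/-- **G10, second part**, unconditional -/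
theorem G10b' {N : ℕ} {x : Pt} (hx : x ∈ box N) :
    (((box N ×ˢ box N ×ˢ box N ×ˢ box N).filter
      (fun p => ¬ Col x p.1 p.2.1 ∧ Cop x p.1 p.2.1 p.2.2.1 ∧ Cop x p.1 p.2.1 p.2.2.2)).card : ℝ) ≤
      52 * 18 ^ 4 * (N : ℝ) ^ 8 := G10b hx (planeBound N)

/-! ### G5 -/

/-- the number of primitive vectors orthogonal to `e` in a ball -/
lemma count_orth {e : Pt} (he : Prim e) (A T : ℕ) :
    (((normals T).filter (fun m => dot m e = 0 ∧ A < nrm m)).card : ℝ) ≤
      18 * (T : ℝ) ^ 2 / nrm e + (if max (A + 1) (mu e) ≤ T then 2 else 0) := by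
  have hpos : (0 : ℝ) < nrm e := by exact_mod_cast Prim.nrm_pos he
  set S := (normals T).filter (fun m => dot m e = 0 ∧ A < nrm m) with hS
  have hsub : S ⊆ (ball T).filter (fun m => dot e m = 0) := by
    intro m hm
    rw [hS, Finset.mem_filter, mem_normals] at hm
    rw [Finset.mem_filter, mem_ball, dot_comm]
    exact ⟨hm.1.1, hm.2.1⟩
  by_cases hind : ∃ u ∈ S, ∃ v ∈ S, cross u v ≠ 0
  · obtain ⟨u, hu, v, hv, huv⟩ := hind
    rw [hS, Finset.mem_filter, mem_normals] at hu hv
    have h1 := G1 (m := e) he hu.1.1 hv.1.1 (by rw [dot_comm]; exact hu.2.1)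
      (by rw [dot_comm]; exact hv.2.1) huv
    have h2 : (S.card : ℝ) ≤ (((ball T).filter (fun m => dot e m = 0)).card : ℝ) := by
      exact_mod_cast Finset.card_le_card hsub
    have h3 : (0 : ℝ) ≤ (if max (A + 1) (mu e) ≤ T then 2 else 0) := by split_ifs <;> norm_num
    linarith
  · push Not at hind
    rcases Finset.eq_empty_or_nonempty S with h0 | ⟨u, hu⟩
    · rw [h0]
      have h3 : (0 : ℝ) ≤ (if max (A + 1) (mu e) ≤ T then 2 else 0) := by split_ifs <;> norm_num
      have h4 : (0 : ℝ) ≤ 18 * (T : ℝ) ^ 2 / nrm e := by positivity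
      simp only [Finset.card_empty, Nat.cast_zero]
      linarith
    · have hsub2 : S ⊆ {u, -u} := by
        intro v hv
        have h1 := hind u hu v hv
        rw [hS, Finset.mem_filter, mem_normals] at hu hv
        rw [Finset.mem_insert, Finset.mem_singleton]
        exact prim_unique hu.1.2 hv.1.2 h1
      have h2 : S.card ≤ 2 := (Finset.card_le_card hsub2).trans Finset.card_le_two
      rw [hS, Finset.mem_filter, mem_normals] at hu
      have h3 : mu e ≤ nrm u := Nat.sInf_le ⟨u, Prim.ne_zero hu.1.2, hu.2.1, rfl⟩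
      have h4 : max (A + 1) (mu e) ≤ T := by
        apply max_le
        · omega
        · omega
      rw [if_pos h4]
      have h5 : (S.card : ℝ) ≤ 2 := by exact_mod_cast h2
      have h6 : (0 : ℝ) ≤ 18 * (T : ℝ) ^ 2 / nrm e := by positivity
      linarith

lemma tele_sq (r D : ℕ) (hr : 1 ≤ r) (hrD : r ≤ D + 1) :
    ∑ R ∈ Finset.Icc r D, ((1 : ℝ) / (R : ℝ) ^ 2 - 1 / ((R : ℝ) + 1) ^ 2) =
      1 / (r : ℝ) ^ 2 - 1 / ((D : ℝ) + 1) ^ 2 := by
  induction D with
  | zero =>
    have : r = 1 := by omega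
    subst this
    simp
  | succ D ih =>
    rcases Nat.lt_or_ge (D + 1) r with h | h
    · have : r = D + 2 := by omega
      subst this
      rw [Finset.Icc_eq_empty (by omega)]
      push_cast
      simp
      ring
    · rw [Finset.sum_Icc_succ_top h, ih (by omega)]
      push_cast
      ring

/-- `∑ |m|^{-2}` over primitive `m` orthogonal to `e`, `A < |m| ≤ T` -/
lemma sum_orth_sq {e : Pt} (he : Prim e) (A T : ℕ) :
    ∑ m ∈ (normals T).filter (fun m => dot m e = 0 ∧ A < nrm m), (1 : ℝ) / (nrm m : ℝ) ^ 2 ≤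
      54 * (1 + Real.log T) / nrm e + 2 / (max (A + 1) (mu e) : ℕ) ^ 2 := by
  have hpos : (0 : ℝ) < nrm e := by exact_mod_cast Prim.nrm_pos he
  set S := (normals T).filter (fun m => dot m e = 0 ∧ A < nrm m) with hS
  set B := max (A + 1) (mu e) with hB
  have hB1 : 1 ≤ B := le_trans (by omega) (le_max_left _ _)
  have hBr : (0 : ℝ) < B := by
    have : 0 < B := hB1
    exact_mod_cast this
  rcases Nat.eq_zero_or_pos T with hT | hT
  · have : S = ∅ := by
      rw [hS, Finset.filter_eq_empty_iff]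
      intro m hm
      rw [mem_normals] at hm
      have := Prim.nrm_pos hm.2
      omega
    rw [this, hT]
    simp only [Finset.sum_empty, Nat.cast_zero, Real.log_zero]
    positivity
  have hT1 : (1 : ℝ) ≤ T := by exact_mod_cast hT
  have hlog : 0 ≤ Real.log T := Real.log_nonneg hT1
  have hexp : ∀ m ∈ S, (1 : ℝ) / (nrm m : ℝ) ^ 2 = 1 / ((T : ℝ) + 1) ^ 2 +
      ∑ R ∈ Finset.Icc 1 T, (if nrm m ≤ R then ((1 : ℝ) / (R : ℝ) ^ 2 - 1 / ((R : ℝ) + 1) ^ 2) else 0) := by
    intro m hm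
    rw [hS, Finset.mem_filter, mem_normals] at hm
    have h1 : 1 ≤ nrm m := Prim.nrm_pos hm.1.2
    have h2 := tele_sq (nrm m) T h1 (by omega)
    have h3 : ∑ R ∈ Finset.Icc 1 T, (if nrm m ≤ R then
        ((1 : ℝ) / (R : ℝ) ^ 2 - 1 / ((R : ℝ) + 1) ^ 2) else 0) =
        ∑ R ∈ Finset.Icc (nrm m) T, ((1 : ℝ) / (R : ℝ) ^ 2 - 1 / ((R : ℝ) + 1) ^ 2) := by
      rw [← Finset.sum_filter]
      apply Finset.sum_congr _ (fun _ _ => rfl)
      ext R
      simp only [Finset.mem_filter, Finset.mem_Icc]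
      omega
    rw [h3, h2]
    ring
  rw [Finset.sum_congr rfl hexp, Finset.sum_add_distrib, Finset.sum_const, nsmul_eq_mul,
    Finset.sum_comm]
  have hd0 : ∀ R : ℕ, 1 ≤ R → (0 : ℝ) ≤ (1 : ℝ) / (R : ℝ) ^ 2 - 1 / ((R : ℝ) + 1) ^ 2 := by
    intro R hR
    have : (0 : ℝ) < R := by
      have : 0 < R := hR
      exact_mod_cast this
    rw [sub_nonneg]
    apply one_div_le_one_div_of_le (by positivity)
    apply pow_le_pow_left₀ this.le
    linarith
  have hd : ∀ R : ℕ, 1 ≤ R → (R : ℝ) ^ 2 * ((1 : ℝ) / (R : ℝ) ^ 2 - 1 / ((R : ℝ) + 1) ^ 2) ≤ 2 / R := by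
    intro R hR
    have hR0 : (0 : ℝ) < R := by
      have : 0 < R := hR
      exact_mod_cast this
    have h1 : (R : ℝ) ^ 2 * ((1 : ℝ) / (R : ℝ) ^ 2 - 1 / ((R : ℝ) + 1) ^ 2) =
        (2 * R + 1) / ((R : ℝ) + 1) ^ 2 := by
      field_simp
      ring
    rw [h1, div_le_div_iff₀ (by positivity) hR0]
    nlinarith
  have h4 : ∀ R ∈ Finset.Icc 1 T, ∑ m ∈ S, (if nrm m ≤ R then
      ((1 : ℝ) / (R : ℝ) ^ 2 - 1 / ((R : ℝ) + 1) ^ 2) else 0) ≤
      (36 : ℝ) / (nrm e : ℝ) * ((1 : ℝ) / (R : ℝ)) +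
        (2 : ℝ) * (if B ≤ R then ((1 : ℝ) / (R : ℝ) ^ 2 - 1 / ((R : ℝ) + 1) ^ 2) else 0) := by
    intro R hR
    rw [Finset.mem_Icc] at hR
    rw [← Finset.sum_filter, Finset.sum_const, nsmul_eq_mul]
    have hR0 : (0 : ℝ) < R := by
      have : 0 < R := hR.1
      exact_mod_cast this
    have h5 : S.filter (fun m => nrm m ≤ R) ⊆
        (normals R).filter (fun m => dot m e = 0 ∧ A < nrm m) := by
      intro m hm
      rw [Finset.mem_filter, hS, Finset.mem_filter, mem_normals] at hm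
      rw [Finset.mem_filter, mem_normals]
      exact ⟨⟨hm.2, hm.1.1.2⟩, hm.1.2⟩
    have h6 : ((S.filter (fun m => nrm m ≤ R)).card : ℝ) ≤
        18 * (R : ℝ) ^ 2 / nrm e + (if B ≤ R then 2 else 0) := by
      refine le_trans ?_ (count_orth he A R)
      exact_mod_cast Finset.card_le_card h5
    have h7 := hd0 R hR.1
    have h8 := hd R hR.1
    calc ((S.filter (fun m => nrm m ≤ R)).card : ℝ) *
          ((1 : ℝ) / (R : ℝ) ^ 2 - 1 / ((R : ℝ) + 1) ^ 2)
        ≤ (18 * (R : ℝ) ^ 2 / nrm e + (if B ≤ R then 2 else 0)) *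
          ((1 : ℝ) / (R : ℝ) ^ 2 - 1 / ((R : ℝ) + 1) ^ 2) := mul_le_mul_of_nonneg_right h6 h7
      _ = 18 / nrm e * ((R : ℝ) ^ 2 * ((1 : ℝ) / (R : ℝ) ^ 2 - 1 / ((R : ℝ) + 1) ^ 2)) +
          2 * (if B ≤ R then ((1 : ℝ) / (R : ℝ) ^ 2 - 1 / ((R : ℝ) + 1) ^ 2) else 0) := by
          split_ifs <;> ring
      _ ≤ 18 / nrm e * (2 / R) +
          2 * (if B ≤ R then ((1 : ℝ) / (R : ℝ) ^ 2 - 1 / ((R : ℝ) + 1) ^ 2) else 0) := by
          have := mul_le_mul_of_nonneg_left h8 (show (0 : ℝ) ≤ 18 / nrm e by positivity)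
          linarith
      _ = _ := by ring
  have h9 := Finset.sum_le_sum h4
  rw [Finset.sum_add_distrib, ← Finset.mul_sum, ← Finset.mul_sum] at h9
  have h10 := sum_Icc_inv T
  have h11 : (S.card : ℝ) ≤ 18 * (T : ℝ) ^ 2 / nrm e + (if B ≤ T then 2 else 0) :=
    count_orth he A T
  have h12 : (S.card : ℝ) * (1 / ((T : ℝ) + 1) ^ 2) ≤ 18 / nrm e +
      2 * (if B ≤ T then 1 / ((T : ℝ) + 1) ^ 2 else 0) := by
    calc (S.card : ℝ) * (1 / ((T : ℝ) + 1) ^ 2)
        ≤ (18 * (T : ℝ) ^ 2 / nrm e + (if B ≤ T then 2 else 0)) * (1 / ((T : ℝ) + 1) ^ 2) :=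
          mul_le_mul_of_nonneg_right h11 (by positivity)
      _ = 18 / nrm e * ((T : ℝ) ^ 2 / ((T : ℝ) + 1) ^ 2) +
          2 * (if B ≤ T then 1 / ((T : ℝ) + 1) ^ 2 else 0) := by
          split_ifs <;> ring
      _ ≤ 18 / nrm e * 1 + 2 * (if B ≤ T then 1 / ((T : ℝ) + 1) ^ 2 else 0) := by
          have : (T : ℝ) ^ 2 / ((T : ℝ) + 1) ^ 2 ≤ 1 := by
            rw [div_le_one (by positivity)]
            apply pow_le_pow_left₀ (by positivity)
            linarith
          have := mul_le_mul_of_nonneg_left this (show (0 : ℝ) ≤ 18 / nrm e by positivity)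
          linarith
      _ = _ := by ring
  have h13 : 2 * (∑ R ∈ Finset.Icc 1 T,
      (if B ≤ R then ((1 : ℝ) / (R : ℝ) ^ 2 - 1 / ((R : ℝ) + 1) ^ 2) else 0)) +
      2 * (if B ≤ T then 1 / ((T : ℝ) + 1) ^ 2 else 0) ≤ 2 / (B : ℝ) ^ 2 := by
    by_cases hBT : B ≤ T
    · have h14 : ∑ R ∈ Finset.Icc 1 T,
        (if B ≤ R then ((1 : ℝ) / (R : ℝ) ^ 2 - 1 / ((R : ℝ) + 1) ^ 2) else 0) =
          1 / (B : ℝ) ^ 2 - 1 / ((T : ℝ) + 1) ^ 2 := by
        rw [← tele_sq B T hB1 (by omega), ← Finset.sum_filter]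
        apply Finset.sum_congr _ (fun _ _ => rfl)
        ext R
        simp only [Finset.mem_filter, Finset.mem_Icc]
        omega
      rw [h14, if_pos hBT]
      apply le_of_eq
      ring
    · rw [if_neg hBT]
      have h15 : ∑ R ∈ Finset.Icc 1 T,
        (if B ≤ R then ((1 : ℝ) / (R : ℝ) ^ 2 - 1 / ((R : ℝ) + 1) ^ 2) else 0) = 0 := by
        apply Finset.sum_eq_zero
        intro R hR
        rw [Finset.mem_Icc] at hR
        rw [if_neg (by omega)]
      rw [h15]
      simp only [mul_zero, add_zero]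
      positivity
  have h16 : 36 / (nrm e : ℝ) * ∑ R ∈ Finset.Icc 1 T, (1 : ℝ) / R ≤
      36 / nrm e * (1 + Real.log T) := mul_le_mul_of_nonneg_left h10 (by positivity)
  have h17 : 18 / (nrm e : ℝ) ≤ 18 / nrm e * (1 + Real.log T) := by
    have : (0 : ℝ) ≤ 18 / nrm e := by positivity
    nlinarith
  have h18 : 54 * (1 + Real.log T) / (nrm e : ℝ) =
      36 / nrm e * (1 + Real.log T) + 18 / nrm e * (1 + Real.log T) := by ring
  rw [h18]
  linarith

lemma cross_self_zero (a : Pt) : cross a a = 0 := by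
  funext i
  fin_cases i <;> simp [cross] <;> ring

lemma cross_add_right (a b c : Pt) : cross a (b + c) = cross a b + cross a c := by
  funext i
  fin_cases i <;> simp [cross] <;> ring

/-- the points of the line `x + ℤ e` in the box -/
lemma card_line_dir {N : ℕ} {x e : Pt} (hx : x ∈ box N) (he : Prim e) (heN : nrm e ≤ N) :
    (((box N).filter (fun z => cross e (z - x) = 0)).card : ℝ) ≤ 3 * N / nrm e := by
  have hR : 0 < nrm e := Prim.nrm_pos he
  set K := N / nrm e with hK
  have hK1 : 1 ≤ K := by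
    rw [hK, Nat.le_div_iff_mul_le hR]
    omega
  have hKN : K * nrm e ≤ N := Nat.div_mul_le_self _ _
  have hcard : (Finset.Icc (-(K : ℤ)) K).card = 2 * K + 1 := by
    rw [Int.card_Icc]
    generalize K = q
    omega
  obtain ⟨u, hu⟩ := bezout he
  have key : ∀ z ∈ (box N).filter (fun z => cross e (z - x) = 0), z - x = (dot u (z - x)) • e := by
    intro z hz
    rw [Finset.mem_filter] at hz
    obtain ⟨s, hs⟩ := eq_smul_of_cross he hz.2
    rw [hs, dot_smul, hu, mul_one]
  have hle : ((box N).filter (fun z => cross e (z - x) = 0)).card ≤ 2 * K + 1 := by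
    rw [← hcard]
    apply Finset.card_le_card_of_injOn (fun z => dot u (z - x))
    · intro z hz
      have hz' := key z hz
      have hz2 : z ∈ box N := (Finset.mem_filter.1 hz).1
      have h5 := nrm_sub_lt hx hz2
      rw [hz', nrm_smul] at h5
      have h6 : (dot u (z - x)).natAbs ≤ K := by
        rw [hK, Nat.le_div_iff_mul_le hR]
        omega
      simp only [Finset.coe_Icc, Set.mem_Icc]
      generalize K = q at h6 ⊢
      omega
    · intro z hz z' hz' heq
      have h5 := key z hz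
      have h6 := key z' hz'
      simp only at heq
      rw [heq, ← h6] at h5
      exact sub_left_injective h5
  have h7 : (2 * K + 1) * nrm e ≤ 3 * N := by nlinarith
  rw [le_div_iff₀ (by exact_mod_cast hR)]
  have h8 : ((box N).filter (fun z => cross e (z - x) = 0)).card * nrm e ≤ 3 * N :=
    (Nat.mul_le_mul_right _ hle).trans h7
  exact_mod_cast h8

/-- `x, x+e, z, w` are coplanar but lie in no common plane with normal of norm `≤ A` -/
def LargePair (A : ℕ) (e x z w : Pt) : Prop :=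
  dot e (cross (z - x) (w - x)) = 0 ∧
    ¬ ∃ m : Pt, Prim m ∧ nrm m ≤ A ∧ dot m e = 0 ∧ dot m z = dot m x ∧ dot m w = dot m x

open Classical in
/-- number of large pairs -/
noncomputable def P2large (N A : ℕ) (e x : Pt) : ℕ :=
  ((box N ×ˢ box N).filter (fun p => LargePair A e x p.1 p.2)).card

lemma dot_prim_eq_zero {a b : Pt} (h : dot a b = 0) (ha : a ≠ 0) : dot (prim a) b = 0 := by
  have h1 : dot a b = (content a : ℤ) * dot (prim a) b := by
    conv_lhs => rw [← content_smul_prim a]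
    simp [dot]; ring
  rw [h1] at h
  exact (mul_eq_zero.1 h).resolve_left (by exact_mod_cast (content_pos ha).ne')

/-- if `e`, `r`, `s` are coplanar, `e × r ≠ 0`, then the normal `prim (e × r)` is orthogonal to all -/
lemma normal_of_pair {e r s : Pt} (h : dot e (cross r s) = 0) (hne : cross e r ≠ 0) :
    dot (prim (cross e r)) e = 0 ∧ dot (prim (cross e r)) r = 0 ∧ dot (prim (cross e r)) s = 0 := by
  refine ⟨dot_prim_eq_zero (dot_cross_left e r) hne, dot_prim_eq_zero (dot_cross_right e r) hne,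
    dot_prim_eq_zero ?_ hne⟩
  rw [← h]
  simp only [dot, cross_apply0, cross_apply1, cross_apply2]
  ring

lemma normal_of_pair' {e r s : Pt} (h : dot e (cross r s) = 0) (hne : cross e s ≠ 0) :
    dot (prim (cross e s)) e = 0 ∧ dot (prim (cross e s)) r = 0 ∧ dot (prim (cross e s)) s = 0 := by
  refine ⟨dot_prim_eq_zero (dot_cross_left e s) hne, dot_prim_eq_zero ?_ hne,
    dot_prim_eq_zero (dot_cross_right e s) hne⟩
  have h1 : dot (cross e s) r = -dot e (cross r s) := by
    simp only [dot, cross_apply0, cross_apply1, cross_apply2]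
    ring
  rw [h1, h, neg_zero]

/-- points of the box in the plane through `x` with normal `m` containing two independent
directions of norm `≤ N` -/
lemma card_plane_two {N : ℕ} {m x u v : Pt} (hx : x ∈ box N) (hm : Prim m) (hu : nrm u ≤ N)
    (hv : nrm v ≤ N) (hmu : dot m u = 0) (hmv : dot m v = 0) (hind : cross u v ≠ 0) :
    ((plane N m (dot m x)).card : ℝ) ≤ 18 * (N : ℝ) ^ 2 / nrm m := by
  refine le_trans ?_ (G1 hm hu hv hmu hmv hind)
  have : (plane N m (dot m x)).card ≤ ((ball N).filter (fun e => dot m e = 0)).card := by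
    apply Finset.card_le_card_of_injOn (fun y => y - x)
    · intro y hy
      simp only [plane, Finset.coe_filter, Set.mem_ofPred_eq] at hy
      simp only [Finset.coe_filter, Set.mem_ofPred_eq, mem_ball]
      exact ⟨(nrm_sub_lt hx hy.1).le, by rw [dot_sub, hy.2]; ring⟩
    · intro y _ y' _ h
      exact sub_left_injective h
  exact_mod_cast this

/-- **G5** with explicit constants -/
theorem P2large_le {N A : ℕ} {e x : Pt} (hx : x ∈ box N) (he : Prim e) (heN : nrm e ≤ N) :
    (P2large N A e x : ℝ) ≤ 9 * (N : ℝ) ^ 2 / (nrm e : ℝ) ^ 2 +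
      324 * (N : ℝ) ^ 4 * (54 * (1 + Real.log (2 * N ^ 2)) / nrm e +
        2 / ((max (A + 1) (mu e) : ℕ) : ℝ) ^ 2) := by
  classical
  set Q := (box N ×ˢ box N).filter (fun p => LargePair A e x p.1 p.2) with hQ
  have hP2 : P2large N A e x = Q.card := rfl
  rw [hP2]
  set L := (box N).filter (fun z => cross e (z - x) = 0) with hL
  set Ms := (normals (2 * N ^ 2)).filter (fun m => dot m e = 0 ∧ A < nrm m) with hMs
  -- planes which are really used
  set Mu := Ms.filter (fun m => ∃ r : Pt, nrm r ≤ N ∧ dot m r = 0 ∧ cross e r ≠ 0) with hMu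
  have hsub : Q ⊆ (L ×ˢ L) ∪ Mu.biUnion (fun m =>
      (plane N m (dot m x)) ×ˢ (plane N m (dot m x))) := by
    intro p hp
    rw [hQ, Finset.mem_filter, Finset.mem_product] at hp
    obtain ⟨⟨hz, hw⟩, hdet, hno⟩ := hp
    rw [Finset.mem_union]
    have main : ∀ r : Pt, nrm r ≤ N → cross e r ≠ 0 → nrm (cross e r) ≤ 2 * N ^ 2 →
        dot (prim (cross e r)) e = 0 → dot (prim (cross e r)) (p.1 - x) = 0 →
        dot (prim (cross e r)) (p.2 - x) = 0 → dot (prim (cross e r)) r = 0 →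
        p ∈ Mu.biUnion (fun m => (plane N m (dot m x)) ×ˢ (plane N m (dot m x))) := by
      intro r hr hne hn h1 h2 h3 h4
      rw [Finset.mem_biUnion]
      rw [dot_sub] at h2 h3
      have h2' : dot (prim (cross e r)) p.1 = dot (prim (cross e r)) x := by linarith
      have h3' : dot (prim (cross e r)) p.2 = dot (prim (cross e r)) x := by linarith
      have h5 : nrm (prim (cross e r)) ≤ 2 * N ^ 2 := by
        have h6 := nrm_eq_content_mul (cross e r)
        have h7 : nrm (prim (cross e r)) ≤ content (cross e r) * nrm (prim (cross e r)) :=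
          Nat.le_mul_of_pos_left _ (content_pos hne)
        omega
      refine ⟨prim (cross e r), ?_, ?_⟩
      · rw [hMu, Finset.mem_filter, hMs, Finset.mem_filter, mem_normals]
        refine ⟨⟨⟨h5, prim_Prim hne⟩, h1, ?_⟩, r, hr, h4, hne⟩
        by_contra hcon
        push Not at hcon
        exact hno ⟨_, prim_Prim hne, hcon, h1, h2', h3'⟩
      · rw [Finset.mem_product, plane, Finset.mem_filter, Finset.mem_filter]
        exact ⟨⟨hz, h2'⟩, ⟨hw, h3'⟩⟩
    have hzN := (nrm_sub_lt hx hz).le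
    have hwN := (nrm_sub_lt hx hw).le
    by_cases h1 : cross e (p.1 - x) = 0
    · by_cases h2 : cross e (p.2 - x) = 0
      · left
        rw [Finset.mem_product, hL, Finset.mem_filter, Finset.mem_filter]
        exact ⟨⟨hz, h1⟩, ⟨hw, h2⟩⟩
      · right
        obtain ⟨a1, a2, a3⟩ := normal_of_pair' hdet h2
        exact main (p.2 - x) hwN h2 (nrm_cross_le heN hwN) a1 a2 a3 a3
    · right
      obtain ⟨a1, a2, a3⟩ := normal_of_pair hdet h1
      exact main (p.1 - x) hzN h1 (nrm_cross_le heN hzN) a1 a2 a3 a2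
  have hpos : (0 : ℝ) < nrm e := by exact_mod_cast Prim.nrm_pos he
  have h1 : (Q.card : ℝ) ≤ (L.card : ℝ) ^ 2 + ∑ m ∈ Mu, ((plane N m (dot m x)).card : ℝ) ^ 2 := by
    have h2 := (Finset.card_le_card hsub).trans (Finset.card_union_le _ _)
    have h3 : (Mu.biUnion (fun m => (plane N m (dot m x)) ×ˢ (plane N m (dot m x)))).card ≤
        ∑ m ∈ Mu, (plane N m (dot m x)).card ^ 2 := by
      refine Finset.card_biUnion_le.trans (le_of_eq ?_)
      apply Finset.sum_congr rfl
      intro m _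
      rw [Finset.card_product, sq]
    rw [Finset.card_product, ← sq] at h2
    have h4 := h2.trans (Nat.add_le_add_left h3 _)
    exact_mod_cast h4
  have h2 : (L.card : ℝ) ^ 2 ≤ 9 * (N : ℝ) ^ 2 / (nrm e : ℝ) ^ 2 := by
    have h3 := card_line_dir hx he heN
    calc (L.card : ℝ) ^ 2 ≤ (3 * N / nrm e) ^ 2 := pow_le_pow_left₀ (by positivity) h3 2
      _ = _ := by ring
  have h3 : ∑ m ∈ Mu, ((plane N m (dot m x)).card : ℝ) ^ 2 ≤
      324 * (N : ℝ) ^ 4 * (54 * (1 + Real.log (2 * N ^ 2)) / nrm e +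
        2 / ((max (A + 1) (mu e) : ℕ) : ℝ) ^ 2) := by
    have h4 : ∀ m ∈ Mu, ((plane N m (dot m x)).card : ℝ) ^ 2 ≤
        324 * (N : ℝ) ^ 4 * (1 / (nrm m : ℝ) ^ 2) := by
      intro m hm
      rw [hMu, Finset.mem_filter, hMs, Finset.mem_filter, mem_normals] at hm
      obtain ⟨⟨⟨_, hmP⟩, hme, _⟩, r, hr, hmr, hcr⟩ := hm
      have h5 := card_plane_two hx hmP heN hr hme hmr hcr
      calc ((plane N m (dot m x)).card : ℝ) ^ 2 ≤ (18 * (N : ℝ) ^ 2 / nrm m) ^ 2 :=
            pow_le_pow_left₀ (by positivity) h5 2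
        _ = _ := by ring
    refine (Finset.sum_le_sum h4).trans ?_
    rw [← Finset.mul_sum]
    apply mul_le_mul_of_nonneg_left _ (by positivity)
    have h5 : ∑ m ∈ Mu, (1 : ℝ) / (nrm m : ℝ) ^ 2 ≤ ∑ m ∈ Ms, (1 : ℝ) / (nrm m : ℝ) ^ 2 := by
      apply Finset.sum_le_sum_of_subset_of_nonneg (Finset.filter_subset _ _)
      intro m _ _
      positivity
    refine h5.trans ?_
    have h6 := sum_orth_sq he A (2 * N ^ 2)
    push_cast at h6 ⊢
    exact h6
  linarith

lemma one_le_of_mem_box {N : ℕ} {x : Pt} (hx : x ∈ box N) : 1 ≤ N := by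
  rw [mem_box] at hx
  have := hx 0
  omega

/-- **G5** in the final form -/
theorem P2large_bound {N A : ℕ} {e x : Pt} (hx : x ∈ box N) (he : Prim e) (heN : nrm e ≤ N) :
    (P2large N A e x : ℝ) ≤ 35001 * (N : ℝ) ^ 4 * ((1 + Real.log N) / nrm e +
        1 / ((max (A + 1) (mu e) : ℕ) : ℝ) ^ 2) := by
  have h1 := P2large_le (A := A) hx he heN
  have hN := one_le_of_mem_box hx
  have hN1 : (1 : ℝ) ≤ N := by exact_mod_cast hN
  have hpos : (0 : ℝ) < nrm e := by exact_mod_cast Prim.nrm_pos he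
  have he1 : (1 : ℝ) ≤ nrm e := by exact_mod_cast Prim.nrm_pos he
  have hlog : 0 ≤ Real.log N := Real.log_nonneg hN1
  have h2 : Real.log (2 * (N : ℝ) ^ 2) ≤ 1 + 2 * Real.log N := by
    rw [Real.log_mul (by norm_num) (by positivity), Real.log_pow]
    have := Real.log_two_lt_d9
    push_cast
    linarith
  have h3 : 9 * (N : ℝ) ^ 2 / (nrm e : ℝ) ^ 2 ≤ 9 * (N : ℝ) ^ 4 * ((1 + Real.log N) / nrm e) := by
    have h4 : (1 : ℝ) / (nrm e : ℝ) ^ 2 ≤ 1 / nrm e := by
      apply one_div_le_one_div_of_le hpos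
      nlinarith
    have h5 : (N : ℝ) ^ 2 ≤ (N : ℝ) ^ 4 := pow_le_pow_right₀ hN1 (by norm_num)
    calc 9 * (N : ℝ) ^ 2 / (nrm e : ℝ) ^ 2 = 9 * (N : ℝ) ^ 2 * (1 / (nrm e : ℝ) ^ 2) := by ring
      _ ≤ 9 * (N : ℝ) ^ 4 * (1 / nrm e) := by
          apply mul_le_mul _ h4 (by positivity) (by positivity)
          linarith
      _ ≤ 9 * (N : ℝ) ^ 4 * ((1 + Real.log N) / nrm e) := by
          apply mul_le_mul_of_nonneg_left _ (by positivity)
          apply div_le_div_of_nonneg_right _ hpos.le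
          linarith
  have h4 : 54 * (1 + Real.log (2 * (N : ℝ) ^ 2)) / nrm e ≤ 108 * ((1 + Real.log N) / nrm e) := by
    have : 54 * (1 + Real.log (2 * (N : ℝ) ^ 2)) ≤ 108 * (1 + Real.log N) := by linarith
    calc 54 * (1 + Real.log (2 * (N : ℝ) ^ 2)) / nrm e ≤ 108 * (1 + Real.log N) / nrm e :=
          div_le_div_of_nonneg_right this hpos.le
      _ = _ := by ring
  have hN4 : (0 : ℝ) ≤ (N : ℝ) ^ 4 := by positivity
  have hB : (0 : ℝ) ≤ 1 / ((max (A + 1) (mu e) : ℕ) : ℝ) ^ 2 := by positivity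
  have h5 : 324 * (N : ℝ) ^ 4 * (54 * (1 + Real.log (2 * (N : ℝ) ^ 2)) / nrm e +
        2 / ((max (A + 1) (mu e) : ℕ) : ℝ) ^ 2) ≤
      324 * (N : ℝ) ^ 4 * (108 * ((1 + Real.log N) / nrm e) +
        2 / ((max (A + 1) (mu e) : ℕ) : ℝ) ^ 2) := by
    apply mul_le_mul_of_nonneg_left _ (by positivity)
    linarith
  have h6 : 2 / ((max (A + 1) (mu e) : ℕ) : ℝ) ^ 2 = 2 * (1 / ((max (A + 1) (mu e) : ℕ) : ℝ) ^ 2) := by
    ring
  rw [h6] at h5
  rw [h6] at h1
  have h7 : 0 ≤ (N : ℝ) ^ 4 * (1 / ((max (A + 1) (mu e) : ℕ) : ℝ) ^ 2) := mul_nonneg hN4 hB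
  nlinarith

lemma P2_eq_P2large (N : ℕ) (e x : Pt) : P2 N e x = P2large N 0 e x := by
  classical
  unfold P2 P2large
  congr 1
  apply Finset.filter_congr
  intro p _
  unfold LargePair
  constructor
  · intro h
    refine ⟨h, ?_⟩
    rintro ⟨m, hm, h0, _⟩
    have := Prim.nrm_pos hm
    omega
  · exact fun h => h.1

/-- **G5**: `P2Bound` holds with the constant 35001 -/
theorem p2Bound {N : ℕ} {x : Pt} (hx : x ∈ box N) : P2Bound 35001 N x := by
  intro e he
  rw [mem_normals] at he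
  have h := P2large_bound (A := 0) hx he.2 he.1
  rw [← P2_eq_P2large] at h
  have hmu : max (0 + 1) (mu e) = mu e := by
    apply max_eq_right
    obtain ⟨m, hm1, _, hm3, _⟩ := mu_spec (Prim.ne_zero he.2)
    have := Prim.nrm_pos hm1
    omega
  rw [hmu] at h
  exact h

/-- coarse form: `P2large ≤ C N^4 ((1+log N)/|e| + 1/(A+1)^2)` -/
theorem P2large_bound' {N A : ℕ} {e x : Pt} (hx : x ∈ box N) (he : Prim e) (heN : nrm e ≤ N) :
    (P2large N A e x : ℝ) ≤ 35001 * (N : ℝ) ^ 4 * ((1 + Real.log N) / nrm e +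
        1 / ((A : ℝ) + 1) ^ 2) := by
  refine (P2large_bound (A := A) hx he heN).trans ?_
  apply mul_le_mul_of_nonneg_left _ (by positivity)
  have : (1 : ℝ) / ((max (A + 1) (mu e) : ℕ) : ℝ) ^ 2 ≤ 1 / ((A : ℝ) + 1) ^ 2 := by
    apply one_div_le_one_div_of_le (by positivity)
    apply pow_le_pow_left₀ (by positivity)
    have h1 : A + 1 ≤ max (A + 1) (mu e) := le_max_left _ _
    exact_mod_cast h1
  linarith

/-- **G4** -/
theorem G4 {N : ℕ} {x : Pt} (hx : x ∈ box N) :
    (((box N ×ˢ box N ×ˢ box N).filter (fun p => Cop x p.1 p.2.1 p.2.2)).card : ℝ) ≤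
      34580989 * (N : ℝ) ^ 6 * (1 + Real.log N) := by
  have hN := one_le_of_mem_box hx
  have hN1 : (1 : ℝ) ≤ N := by exact_mod_cast hN
  have hlog : 0 ≤ Real.log N := Real.log_nonneg hN1
  have h1 : (((box N ×ˢ box N ×ˢ box N).filter (fun p => Cop x p.1 p.2.1 p.2.2)).card : ℝ) =
      ∑ y ∈ box N, (((box N ×ˢ box N).filter (fun p => Cop x y p.1 p.2)).card : ℝ) := by
    rw [Finset.card_filter, Finset.sum_product]
    push_cast
    apply Finset.sum_congr rfl
    intro y _
    rw [Finset.card_filter]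
    push_cast
    rfl
  rw [h1, ← Finset.sum_filter_add_sum_filter_not (box N) (fun y => y ≠ x)]
  have h2 : ∑ y ∈ (box N).filter (fun y => ¬ y ≠ x),
      (((box N ×ˢ box N).filter (fun p => Cop x y p.1 p.2)).card : ℝ) ≤ (N : ℝ) ^ 6 := by
    have : (box N).filter (fun y => ¬ y ≠ x) = {x} := by
      ext y
      simp only [Finset.mem_filter, not_not, Finset.mem_singleton]
      constructor
      · exact fun h => h.2
      · rintro rfl; exact ⟨hx, rfl⟩
    rw [this, Finset.sum_singleton]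
    have h3 := Finset.card_filter_le (box N ×ˢ box N) (fun p => Cop x x p.1 p.2)
    rw [Finset.card_product, card_box] at h3
    have h4 : N ^ 3 * N ^ 3 = N ^ 6 := by ring
    rw [h4] at h3
    exact_mod_cast h3
  have h3 : ∑ y ∈ (box N).filter (fun y => y ≠ x),
      (((box N ×ˢ box N).filter (fun p => Cop x y p.1 p.2)).card : ℝ) ≤
      494 * 35001 * (N : ℝ) ^ 5 * ((N + 1 : ℕ) : ℝ) * (1 + Real.log N) := by
    have h4 := G7_sum (C := 35001) (D := N + 1) (by norm_num) hx (p2Bound hx)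
    refine le_trans (le_of_eq ?_) h4
    apply Finset.sum_congr _ (fun _ _ => rfl)
    ext y
    simp only [Finset.mem_filter]
    constructor
    · rintro ⟨hy, hne⟩
      refine ⟨hy, hne, ?_⟩
      have h5 := prim_sub_mem_normals hx hy hne
      rw [mem_normals] at h5
      rw [dirN_eq]
      omega
    · rintro ⟨hy, hne, _⟩
      exact ⟨hy, hne⟩
  have h4 : ((N + 1 : ℕ) : ℝ) ≤ 2 * N := by push_cast; linarith
  have h5 : 494 * 35001 * (N : ℝ) ^ 5 * ((N + 1 : ℕ) : ℝ) * (1 + Real.log N) ≤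
      494 * 35001 * (N : ℝ) ^ 5 * (2 * N) * (1 + Real.log N) := by
    apply mul_le_mul_of_nonneg_right _ (by linarith)
    apply mul_le_mul_of_nonneg_left h4 (by positivity)
  have h6 : (N : ℝ) ^ 6 ≤ (N : ℝ) ^ 6 * (1 + Real.log N) := by
    have : (0 : ℝ) ≤ (N : ℝ) ^ 6 := by positivity
    nlinarith
  calc _ ≤ 494 * 35001 * (N : ℝ) ^ 5 * (2 * N) * (1 + Real.log N) + (N : ℝ) ^ 6 * (1 + Real.log N) := by
        linarith
    _ = 34580989 * (N : ℝ) ^ 6 * (1 + Real.log N) := by ring

/-- number of points of the box in small directions -/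
theorem card_dir_le {N G : ℕ} {x : Pt} (hx : x ∈ box N) :
    (((box N).filter (fun y => y ≠ x ∧ dirN x y ≤ G)).card : ℝ) ≤ 26 * (N : ℝ) * (G : ℝ) ^ 2 := by
  have h1 : (((box N).filter (fun y => y ≠ x ∧ dirN x y ≤ G)).card : ℝ) =
      ∑ y ∈ (box N).filter (fun y => y ≠ x), (if nrm (prim (y - x)) ≤ G then (1 : ℝ) else 0) := by
    rw [← Finset.filter_filter, Finset.card_filter]
    push_cast
    apply Finset.sum_congr rfl
    intro y _
    rw [dirN_eq]
  rw [h1]
  refine (sum_dir hx (fun e => if nrm e ≤ G then (1 : ℝ) else 0) ?_).trans ?_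
  · intro e
    split_ifs <;> norm_num
  have h2 : ∑ e ∈ normals N, (N : ℝ) / nrm e * (if nrm e ≤ G then (1 : ℝ) else 0) ≤
      ∑ e ∈ normals G, (N : ℝ) / nrm e := by
    have h3 : ∑ e ∈ normals N, (N : ℝ) / nrm e * (if nrm e ≤ G then (1 : ℝ) else 0) =
        ∑ e ∈ (normals N).filter (fun e => nrm e ≤ G), (N : ℝ) / nrm e := by
      rw [Finset.sum_filter]
      apply Finset.sum_congr rfl
      intro e _
      split_ifs <;> simp
    rw [h3]
    apply Finset.sum_le_sum_of_subset_of_nonneg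
    · intro e he
      rw [Finset.mem_filter, mem_normals] at he
      rw [mem_normals]
      exact ⟨he.2, he.1.2⟩
    · intro e _ _
      positivity
  refine h2.trans ?_
  refine (sum_shells (fun R => (N : ℝ) / R) (fun R => by positivity)).trans ?_
  calc ∑ R ∈ Finset.Icc 1 G, 26 * (R : ℝ) ^ 2 * ((N : ℝ) / R)
      ≤ ∑ R ∈ Finset.Icc 1 G, 26 * (N : ℝ) * G := by
        apply Finset.sum_le_sum
        intro R hR
        rw [Finset.mem_Icc] at hR
        have hR0 : (R : ℝ) ≠ 0 := by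
          have : 0 < R := hR.1
          exact_mod_cast this.ne'
        have hRG : (R : ℝ) ≤ G := by exact_mod_cast hR.2
        calc 26 * (R : ℝ) ^ 2 * ((N : ℝ) / R) = 26 * (N : ℝ) * R := by field_simp
          _ ≤ _ := mul_le_mul_of_nonneg_left hRG (by positivity)
    _ = 26 * (N : ℝ) * (G : ℝ) ^ 2 := by
        rw [Finset.sum_const, Nat.card_Icc]
        simp
        ring

open Classical in
/-- **G5**, large pairs, in terms of two points of the box -/
theorem P2L {N M : ℕ} {x y : Pt} (hx : x ∈ box N) (hy : y ∈ box N) (hne : y ≠ x) :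
    (((box N ×ˢ box N).filter (fun p => Cop x y p.1 p.2 ∧ ¬ ∃ m ∈ normals M,
      dot m x = dot m y ∧ dot m x = dot m p.1 ∧ dot m x = dot m p.2)).card : ℝ) ≤
      35001 * (N : ℝ) ^ 4 * ((1 + Real.log N) / dirN x y + 1 / ((M : ℝ) + 1) ^ 2) := by
  have he := mem_normals.1 (prim_sub_mem_normals hx hy hne)
  have h1 := P2large_bound' (A := M) hx he.2 he.1
  rw [dirN_eq]
  refine le_trans ?_ h1
  have h2 : ((box N ×ˢ box N).filter (fun p => Cop x y p.1 p.2 ∧ ¬ ∃ m ∈ normals M,
      dot m x = dot m y ∧ dot m x = dot m p.1 ∧ dot m x = dot m p.2)).card ≤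
      P2large N M (prim (y - x)) x := by
    unfold P2large
    apply Finset.card_le_card
    intro p hp
    rw [Finset.mem_filter] at hp ⊢
    refine ⟨hp.1, (cop_iff hne).1 hp.2.1, ?_⟩
    rintro ⟨m, hm, hmM, hme, hz, hw⟩
    apply hp.2.2
    refine ⟨m, mem_normals.2 ⟨hmM, hm⟩, ?_, hz.symm, hw.symm⟩
    have h3 : dot m (y - x) = 0 := by
      conv_lhs => rw [← content_smul_prim (y - x)]
      rw [dot_smul, hme, mul_zero]
    rw [dot_sub] at h3
    linarith
  exact_mod_cast h2

open Classical in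
theorem P2L' {N M : ℕ} (hM : 1 ≤ M) {x y : Pt} (hx : x ∈ box N) (hy : y ∈ box N) (hne : y ≠ x) :
    (((box N ×ˢ box N).filter (fun p => Cop x y p.1 p.2 ∧ ¬ ∃ m ∈ normals M,
      dot m x = dot m y ∧ dot m x = dot m p.1 ∧ dot m x = dot m p.2)).card : ℝ) ≤
      35001 * (N : ℝ) ^ 4 * ((1 + Real.log N) / dirN x y + 1 / (M : ℝ) ^ 2) := by
  refine (P2L hx hy hne).trans ?_
  apply mul_le_mul_of_nonneg_left _ (by positivity)
  have hM0 : (0 : ℝ) < M := by
    have : 0 < M := hM
    exact_mod_cast this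
  have : (1 : ℝ) / ((M : ℝ) + 1) ^ 2 ≤ 1 / (M : ℝ) ^ 2 := by
    apply one_div_le_one_div_of_le (by positivity)
    apply pow_le_pow_left₀ hM0.le
    linarith
  linarith

/-- unconditional forms of G7, G10 -/
theorem G7a' {N D : ℕ} {x : Pt} (hx : x ∈ box N) :
    (((box N ×ˢ box N ×ˢ box N).filter
      (fun p => p.1 ≠ x ∧ dirN x p.1 < D ∧ Cop x p.1 p.2.1 p.2.2)).card : ℝ) ≤
      17290494 * (N : ℝ) ^ 5 * D * (1 + Real.log N) := by
  have := G7a (C := 35001) (by norm_num) (D := D) hx (p2Bound hx)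
  norm_num at this ⊢
  exact this

theorem G7b' {N D : ℕ} {x : Pt} (hx : x ∈ box N) :
    (((box N ×ˢ box N ×ˢ box N).filter
      (fun p => p.2.1 ≠ p.1 ∧ dirN p.1 p.2.1 < D ∧ Cop x p.1 p.2.1 p.2.2)).card : ℝ) ≤
      17290494 * (N : ℝ) ^ 5 * D * (1 + Real.log N) := by
  have := G7b (C := 35001) (by norm_num) (D := D) hx (p2Bound hx)
  norm_num at this ⊢
  exact this

theorem G10a' {N : ℕ} {x : Pt} (hx : x ∈ box N) :
    ∑ z ∈ (box N).filter (fun z => z ≠ x),
      (((box N ×ˢ box N).filter (fun p => Cop x z p.1 p.2)).card : ℝ) ^ 2 ≤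
      1924 * 35001 ^ 2 * (N : ℝ) ^ 10 * (1 + Real.log N) ^ 2 :=
  G10a hx (p2Bound hx)

/-- G2 for a plane with small normal through a point of the box -/
theorem card_small_plane {N : ℕ} {m x : Pt} (hx : x ∈ box N) (hm : Prim m) (hmN : nrm m ≤ N) :
    ((plane N m (dot m x)).card : ℝ) ≤ 9 * (N : ℝ) ^ 2 / nrm m := by
  refine le_trans ?_ (ballPlane m hm N hmN)
  have : (plane N m (dot m x)).card ≤ ((ball N).filter (fun e => dot m e = 0)).card := by
    apply Finset.card_le_card_of_injOn (fun y => y - x)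
    · intro y hy
      simp only [plane, Finset.coe_filter, Set.mem_ofPred_eq] at hy
      simp only [Finset.coe_filter, Set.mem_ofPred_eq, mem_ball]
      exact ⟨(nrm_sub_lt hx hy.1).le, by rw [dot_sub, hy.2]; ring⟩
    · intro y _ y' _ h
      exact sub_left_injective h
  exact_mod_cast this

/-- G2 for every plane: at most `9 N^2 / min(|m|, N)` points -/
theorem card_plane_le {N : ℕ} {m : Pt} {c : ℤ} (hm : Prim m) (hmN : nrm m ≤ N) :
    ((plane N m c).card : ℝ) ≤ 9 * (N : ℝ) ^ 2 / nrm m := by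
  rcases Finset.eq_empty_or_nonempty (plane N m c) with h | ⟨x, hx⟩
  · rw [h]
    simp only [Finset.card_empty, Nat.cast_zero]
    positivity
  · rw [plane, Finset.mem_filter] at hx
    rw [← hx.2]
    exact card_small_plane hx.1 hm hmN

/-- G2 for large planes: a plane with normal of norm `≥ M` (`1 ≤ M ≤ N`) has at most `9 N²/M`
points in the box -/
theorem card_large_plane {N M : ℕ} {m : Pt} {c : ℤ} (hm : Prim m) (hM : 1 ≤ M) (hMN : M ≤ N)
    (hMm : M ≤ nrm m) : ((plane N m c).card : ℝ) ≤ 9 * (N : ℝ) ^ 2 / M := by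
  have hM0 : (0 : ℝ) < M := by
    have : 0 < M := hM
    exact_mod_cast this
  rcases Nat.lt_or_ge N (nrm m) with h | h
  · rcases Finset.eq_empty_or_nonempty (plane N m c) with h0 | ⟨x, hx⟩
    · rw [h0]
      simp only [Finset.card_empty, Nat.cast_zero]
      positivity
    · rw [plane, Finset.mem_filter] at hx
      have hN : 1 ≤ N := le_trans hM hMN
      have h1 : (plane N m c).card ≤ ((ball N).filter (fun e => dot m e = 0)).card := by
        apply Finset.card_le_card_of_injOn (fun y => y - x)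
        · intro y hy
          simp only [plane, Finset.coe_filter, Set.mem_ofPred_eq] at hy
          simp only [Finset.coe_filter, Set.mem_ofPred_eq, mem_ball]
          exact ⟨(nrm_sub_lt hx.1 hy.1).le, by rw [dot_sub, hy.2, hx.2]; ring⟩
        · intro y _ y' _ h
          exact sub_left_injective h
      have h2 : ((plane N m c).card : ℝ) ≤ 9 * N := by
        exact_mod_cast h1.trans (ballPlane_large hm hN h.le)
      refine h2.trans ?_
      rw [le_div_iff₀ hM0]
      have h3 : (M : ℝ) ≤ N := by exact_mod_cast hMN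
      nlinarith
  · refine (card_plane_le hm h).trans ?_
    apply div_le_div_of_nonneg_left (by positivity) hM0
    exact_mod_cast hMm

end Pool.Agent.Grid3D.Geo2
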