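import Pool.Agent.Grid3D.Geo3

set_option autoImplicit false

namespace Pool.Agent.Grid3D.Geo2

lemma card_prod_filter {α β : Type*} (s : Finset α) (t : Finset β) (p : α × β → Prop)
    [DecidablePred p] :
    ((s ×ˢ t).filter p).card = ∑ a ∈ s, (t.filter (fun b => p (a, b))).card := by
  rw [Finset.card_filter, Finset.sum_product]
  simp_rw [Finset.card_filter]

/-- **S1**, per point: pairs in a plane with normal of norm `≤ h` through `x` -/
theorem S1 {N h : ℕ} {x : Pt} (hhN : h ≤ N) :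
    (((box N ×ˢ box N).filter (fun p => ∃ m ∈ normals h, dot m p.1 = dot m x ∧
      dot m p.2 = dot m x)).card : ℝ) ≤ 2106 * (N : ℝ) ^ 4 * h := by
  classical
  have hsub : (box N ×ˢ box N).filter (fun p => ∃ m ∈ normals h, dot m p.1 = dot m x ∧
      dot m p.2 = dot m x) ⊆
      (normals h).biUnion (fun m => plane N m (dot m x) ×ˢ plane N m (dot m x)) := by
    intro p hp
    rw [Finset.mem_filter, Finset.mem_product] at hp
    obtain ⟨⟨h1, h2⟩, m, hm, h3, h4⟩ := hp
    rw [Finset.mem_biUnion]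
    refine ⟨m, hm, ?_⟩
    rw [Finset.mem_product]
    simp only [plane, Finset.mem_filter]
    exact ⟨⟨h1, h3⟩, h2, h4⟩
  have h1 := (Finset.card_le_card hsub).trans Finset.card_biUnion_le
  have h2 : (((box N ×ˢ box N).filter (fun p => ∃ m ∈ normals h, dot m p.1 = dot m x ∧
      dot m p.2 = dot m x)).card : ℝ) ≤
      ∑ m ∈ normals h, ((plane N m (dot m x)).card : ℝ) ^ 2 := by
    have h3 : ∑ m ∈ normals h, ((plane N m (dot m x)).card : ℝ) ^ 2 =
        ((∑ m ∈ normals h, (plane N m (dot m x) ×ˢ plane N m (dot m x)).card : ℕ) : ℝ) := by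
      push_cast
      apply Finset.sum_congr rfl
      intro m _
      rw [Finset.card_product]
      push_cast
      ring
    rw [h3]
    exact_mod_cast h1
  refine h2.trans ?_
  calc ∑ m ∈ normals h, ((plane N m (dot m x)).card : ℝ) ^ 2
      ≤ ∑ m ∈ normals h, (9 * (N : ℝ) ^ 2 / nrm m) ^ 2 := by
        apply Finset.sum_le_sum
        intro m hm
        rw [mem_normals] at hm
        exact pow_le_pow_left₀ (by positivity) (card_plane_le hm.2 (hm.1.trans hhN)) 2
    _ = 81 * (N : ℝ) ^ 4 * ∑ m ∈ normals h, (1 : ℝ) / (nrm m : ℝ) ^ 2 := by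
        rw [Finset.mul_sum]
        apply Finset.sum_congr rfl
        intro m _
        rw [div_pow]
        ring
    _ ≤ 81 * (N : ℝ) ^ 4 * (26 * h) :=
        mul_le_mul_of_nonneg_left (sum_normals_sq _) (by positivity)
    _ = _ := by ring

/-- `∑_{h < |e| ≤ D} |e|^{-4} ≤ 26 / h` -/
lemma sum_normals_four_gt {h : ℕ} (hh : 1 ≤ h) (D : ℕ) :
    ∑ e ∈ (normals D).filter (fun e => h < nrm e), (1 : ℝ) / (nrm e : ℝ) ^ 4 ≤ 26 / h := by
  have hh0 : (0 : ℝ) < h := by exact_mod_cast hh
  have h1 : ∑ e ∈ (normals D).filter (fun e => h < nrm e), (1 : ℝ) / (nrm e : ℝ) ^ 4 =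
      ∑ e ∈ normals D, (fun R : ℕ => if h < R then (1 : ℝ) / (R : ℝ) ^ 4 else 0) (nrm e) := by
    rw [Finset.sum_filter]
  rw [h1]
  refine (sum_shells (fun R : ℕ => if h < R then (1 : ℝ) / (R : ℝ) ^ 4 else 0) (fun R => ?_)).trans ?_
  · split_ifs <;> positivity
  · have h2 : ∀ D : ℕ, ∑ R ∈ Finset.Icc 1 D, (26 * (R : ℝ) ^ 2 *
        (if h < R then (1 : ℝ) / (R : ℝ) ^ 4 else 0)) ≤
        26 * (if h ≤ D then (1 : ℝ) / h - 1 / D else 0) := by
      intro D
      induction D with
      | zero =>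
        simp
        split_ifs <;> simp
      | succ D ih =>
        rw [Finset.sum_Icc_succ_top (by omega)]
        rcases Nat.lt_or_ge D h with hD | hD
        · rw [if_neg (by omega)] at ih
          rw [if_neg (by omega : ¬ h < D + 1)]
          have : (if h ≤ D + 1 then (1 : ℝ) / h - 1 / ((D + 1 : ℕ) : ℝ) else 0) = 0 := by
            by_cases h3 : h ≤ D + 1
            · have : h = D + 1 := by omega
              rw [if_pos h3, this]
              ring
            · rw [if_neg h3]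
          rw [this]
          linarith
        · rw [if_pos hD] at ih
          rw [if_pos (by omega : h < D + 1), if_pos (by omega : h ≤ D + 1)]
          have hD0 : (0 : ℝ) < D := by
            have : 0 < D := by omega
            exact_mod_cast this
          have h3 : (26 : ℝ) * (((D + 1 : ℕ) : ℝ)) ^ 2 * (1 / (((D + 1 : ℕ) : ℝ)) ^ 4) ≤
              26 * (1 / (D : ℝ) - 1 / ((D + 1 : ℕ) : ℝ)) := by
            push_cast
            have h4 : (26 : ℝ) * ((D : ℝ) + 1) ^ 2 * (1 / ((D : ℝ) + 1) ^ 4) =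
              26 * (1 / ((D : ℝ) + 1) ^ 2) := by
              field_simp
            have h5 : (1 / (D : ℝ) - 1 / ((D : ℝ) + 1)) = 1 / (D * (D + 1)) := by
              field_simp
              ring
            rw [h4, h5]
            apply mul_le_mul_of_nonneg_left _ (by norm_num)
            apply one_div_le_one_div_of_le (by positivity)
            nlinarith
          linarith
    refine (h2 D).trans ?_
    have h3 : (26 : ℝ) / h = 26 * (1 / h) := by ring
    rw [h3]
    apply mul_le_mul_of_nonneg_left _ (by norm_num)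
    split_ifs
    · have : (0 : ℝ) ≤ 1 / (D : ℝ) := by positivity
      linarith
    · positivity

/-- **S2**, per point: quadruples in a plane with normal of norm `> h` through `x` -/
theorem S2 {N h : ℕ} {x : Pt} (hx : x ∈ box N) (hh : 1 ≤ h) :
    (((box N ×ˢ box N ×ˢ box N ×ˢ box N).filter
      (fun p => ¬ Col x p.1 p.2.1 ∧ Cop x p.1 p.2.1 p.2.2.1 ∧ Cop x p.1 p.2.1 p.2.2.2 ∧
        h < nrm (prim (cross (p.1 - x) (p.2.1 - x))))).card : ℝ) ≤
      26 * 18 ^ 4 * (N : ℝ) ^ 8 / h := by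
  classical
  set Q := (box N ×ˢ box N ×ˢ box N ×ˢ box N).filter
      (fun p => ¬ Col x p.1 p.2.1 ∧ Cop x p.1 p.2.1 p.2.2.1 ∧ Cop x p.1 p.2.1 p.2.2.2 ∧
        h < nrm (prim (cross (p.1 - x) (p.2.1 - x)))) with hQ
  let g : Pt × Pt × Pt × Pt → Pt := fun p => prim (cross (p.1 - x) (p.2.1 - x))
  have hmaps : ∀ p ∈ Q, g p ∈ (normals (2 * N ^ 2)).filter (fun e => h < nrm e) := by
    intro p hp
    rw [hQ, Finset.mem_filter] at hp
    simp only [Finset.mem_product] at hp
    rw [Finset.mem_filter, mem_normals]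
    have hne : cross (p.1 - x) (p.2.1 - x) ≠ 0 := hp.2.1
    refine ⟨⟨?_, prim_Prim hne⟩, hp.2.2.2.2⟩
    have h1 := nrm_cross_lt hx hp.1.1 hp.1.2.1
    have h2 := nrm_eq_content_mul (cross (p.1 - x) (p.2.1 - x))
    have h3 : nrm (g p) ≤ content (cross (p.1 - x) (p.2.1 - x)) * nrm (g p) :=
      Nat.le_mul_of_pos_left _ (content_pos hne)
    have h4 : nrm (cross (p.1 - x) (p.2.1 - x)) =
      content (cross (p.1 - x) (p.2.1 - x)) * nrm (g p) := h2
    omega
  have hfib : ∀ m ∈ (normals (2 * N ^ 2)).filter (fun e => h < nrm e),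
      ((Q.filter (fun p => g p = m)).card : ℝ) ≤
      18 ^ 4 * (N : ℝ) ^ 8 * (1 / (nrm m : ℝ) ^ 4) := by
    intro m hm
    rw [Finset.mem_filter] at hm
    have hpos : (0 : ℝ) < nrm m := by exact_mod_cast Prim.nrm_pos (mem_normals.1 hm.1).2
    by_cases hne : (Q.filter (fun p => g p = m)) = ∅
    · rw [hne]
      simp only [Finset.card_empty, Nat.cast_zero]
      positivity
    · obtain ⟨p0, hp0⟩ := Finset.nonempty_iff_ne_empty.2 hne
      rw [Finset.mem_filter, hQ, Finset.mem_filter] at hp0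
      simp only [Finset.mem_product] at hp0
      have hs := normal_spec hp0.1.2.1
      have hz0 : dot m p0.1 = dot m x := by
        rw [← hp0.2]
        apply (hs _).1
        unfold Cop
        simp only [dot, cross_apply0, cross_apply1, cross_apply2, Pi.sub_apply]
        ring
      have hw0 : dot m p0.2.1 = dot m x := by
        rw [← hp0.2]
        apply (hs _).1
        unfold Cop
        simp only [dot, cross_apply0, cross_apply1, cross_apply2, Pi.sub_apply]
        ring
      have hpb := planeBound N m x p0.1 p0.2.1 (mem_normals.1 hm.1).2 hx hp0.1.1.1 hp0.1.1.2.1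
        hp0.1.2.1 hz0 hw0
      set π := plane N m (dot m x) with hπ
      have hsub : Q.filter (fun p => g p = m) ⊆ π ×ˢ π ×ˢ π ×ˢ π := by
        intro p hp
        rw [Finset.mem_filter, hQ, Finset.mem_filter] at hp
        simp only [Finset.mem_product] at hp ⊢
        have hs' := normal_spec hp.1.2.1
        have hm' : prim (cross (p.1 - x) (p.2.1 - x)) = m := hp.2
        rw [hm'] at hs'
        simp only [hπ, plane, Finset.mem_filter]
        refine ⟨⟨hp.1.1.1, ?_⟩, ⟨hp.1.1.2.1, ?_⟩, ⟨hp.1.1.2.2.1, (hs' _).1 hp.1.2.2.1⟩,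
          ⟨hp.1.1.2.2.2, (hs' _).1 hp.1.2.2.2.1⟩⟩
        · apply (hs' _).1
          unfold Cop
          simp only [dot, cross_apply0, cross_apply1, cross_apply2, Pi.sub_apply]
          ring
        · apply (hs' _).1
          unfold Cop
          simp only [dot, cross_apply0, cross_apply1, cross_apply2, Pi.sub_apply]
          ring
      have h1 := Finset.card_le_card hsub
      rw [Finset.card_product, Finset.card_product, Finset.card_product] at h1
      have h2 : ((Q.filter (fun p => g p = m)).card : ℝ) ≤ (π.card : ℝ) ^ 4 := by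
        have h3 : π.card * (π.card * (π.card * π.card)) = π.card ^ 4 := by ring
        rw [h3] at h1
        exact_mod_cast h1
      calc _ ≤ (π.card : ℝ) ^ 4 := h2
        _ ≤ (18 * (N : ℝ) ^ 2 / nrm m) ^ 4 := pow_le_pow_left₀ (by positivity) hpb 4
        _ = _ := by field_simp
  calc (Q.card : ℝ) = ∑ m ∈ (normals (2 * N ^ 2)).filter (fun e => h < nrm e),
        ((Q.filter (fun p => g p = m)).card : ℝ) := by
        rw [Finset.card_eq_sum_card_fiberwise hmaps]
        push_cast
        rfl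
    _ ≤ ∑ m ∈ (normals (2 * N ^ 2)).filter (fun e => h < nrm e),
        18 ^ 4 * (N : ℝ) ^ 8 * (1 / (nrm m : ℝ) ^ 4) :=
        Finset.sum_le_sum hfib
    _ = 18 ^ 4 * (N : ℝ) ^ 8 * ∑ m ∈ (normals (2 * N ^ 2)).filter (fun e => h < nrm e),
        (1 : ℝ) / (nrm m : ℝ) ^ 4 := by
        rw [Finset.mul_sum]
    _ ≤ 18 ^ 4 * (N : ℝ) ^ 8 * (26 / h) :=
        mul_le_mul_of_nonneg_left (sum_normals_four_gt hh _) (by positivity)
    _ = _ := by ring

/-! ### coplanar pairs -/

/-- number of pairs coplanar with `x, y` -/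
noncomputable def cc (N : ℕ) (x y : Pt) : ℕ :=
  ((box N ×ˢ box N).filter (fun p => Cop x y p.1 p.2)).card

open Classical in
/-- the pairs coplanar with `x, y` that are in no plane with small normal through `x, y` -/
noncomputable def LS (N H : ℕ) (x y : Pt) : Finset (Pt × Pt) :=
  (box N ×ˢ box N).filter (fun p => Cop x y p.1 p.2 ∧ ¬ ∃ m ∈ normals H,
      dot m x = dot m y ∧ dot m x = dot m p.1 ∧ dot m x = dot m p.2)

lemma cop_swap {x y z w : Pt} : Cop x y z w ↔ Cop y x z w := by
  unfold Cop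
  simp only [dot, cross_apply0, cross_apply1, cross_apply2, Pi.sub_apply]
  constructor <;> intro h <;> linarith

lemma cop_swap' {x y z w : Pt} : Cop x y z w ↔ Cop x y w z := by
  unfold Cop
  simp only [dot, cross_apply0, cross_apply1, cross_apply2, Pi.sub_apply]
  constructor <;> intro h <;> linarith

lemma cc_symm (N : ℕ) (x y : Pt) : cc N x y = cc N y x := by
  unfold cc
  congr 1
  apply Finset.filter_congr
  intro p _
  exact cop_swap

/-- the bound of G4 -/
noncomputable def TT (N : ℕ) : ℝ := 34580989 * (N : ℝ) ^ 6 * (1 + Real.log N)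

/-- the bound of P2L -/
noncomputable def MM (N G H : ℕ) : ℝ :=
  35001 * (N : ℝ) ^ 4 * ((1 + Real.log N) / G + 1 / ((H : ℝ) + 1) ^ 2)

lemma TT_nonneg {N : ℕ} (hN : 1 ≤ N) : 0 ≤ TT N := by
  have : 0 ≤ Real.log N := Real.log_nonneg (by exact_mod_cast hN)
  unfold TT
  positivity

lemma MM_nonneg {N G H : ℕ} (hN : 1 ≤ N) : 0 ≤ MM N G H := by
  have : 0 ≤ Real.log N := Real.log_nonneg (by exact_mod_cast hN)
  unfold MM
  positivity

lemma sum_cc {N : ℕ} {x : Pt} (hx : x ∈ box N) : ∑ y ∈ box N, (cc N x y : ℝ) ≤ TT N := by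
  have h := G4 hx
  rw [card_prod_filter] at h
  push_cast at h
  exact h

lemma card_LS {N G H : ℕ} {x y : Pt} (hx : x ∈ box N) (hy : y ∈ box N) (hG : 1 ≤ G)
    (hd : G < dirN x y) : ((LS N H x y).card : ℝ) ≤ MM N G H := by
  have hN := one_le_of_mem_box hx
  have hlog : 0 ≤ Real.log N := Real.log_nonneg (by exact_mod_cast hN)
  have hne : y ≠ x := by
    rintro rfl
    rw [dirN_eq, sub_self] at hd
    have : prim (0 : Pt) = 0 := by
      funext i
      simp [prim]
    rw [this] at hd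
    simp [nrm] at hd
  have h := P2L (M := H) hx hy hne
  have hG0 : (0 : ℝ) < G := by exact_mod_cast hG
  refine le_trans ?_ (h.trans ?_)
  · unfold LS
    norm_cast
  · unfold MM
    apply mul_le_mul_of_nonneg_left _ (by positivity)
    apply add_le_add_left
    apply div_le_div_of_nonneg_left (by linarith) hG0
    exact_mod_cast hd.le

lemma cop_of_dot {m x y z w : Pt} (hm : m ≠ 0) (h1 : dot m y = dot m x) (h2 : dot m z = dot m x)
    (h3 : dot m w = dot m x) : Cop x y z w := by
  have e1 : dot m (y - x) = 0 := by rw [dot_sub, h1]; ring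
  have e2 : dot m (z - x) = 0 := by rw [dot_sub, h2]; ring
  have e3 : dot m (w - x) = 0 := by rw [dot_sub, h3]; ring
  unfold Cop
  set a := y - x
  set b := z - x
  set c := w - x
  obtain ⟨i, hi⟩ : ∃ i, m i ≠ 0 := by
    by_contra hcon
    push Not at hcon
    exact hm (funext hcon)
  have key : m i * dot a (cross b c) = 0 := by
    simp only [dot] at e1 e2 e3
    simp only [dot, cross_apply0, cross_apply1, cross_apply2]
    fin_cases i
    · show m 0 * _ = 0
      linear_combination (b 1 * c 2 - b 2 * c 1) * e1 - (a 1 * c 2 - a 2 * c 1) * e2 +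
        (a 1 * b 2 - a 2 * b 1) * e3
    · show m 1 * _ = 0
      linear_combination (b 2 * c 0 - b 0 * c 2) * e1 - (a 2 * c 0 - a 0 * c 2) * e2 +
        (a 2 * b 0 - a 0 * b 2) * e3
    · show m 2 * _ = 0
      linear_combination (b 0 * c 1 - b 1 * c 0) * e1 - (a 0 * c 1 - a 1 * c 0) * e2 +
        (a 0 * b 1 - a 1 * b 0) * e3
  exact (mul_eq_zero.1 key).resolve_left hi

lemma not_dirN_self {G : ℕ} {x : Pt} : ¬ G < dirN x x := by
  rw [dirN_eq, sub_self]
  have : prim (0 : Pt) = 0 := by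
    funext i
    simp [prim]
  rw [this]
  simp [nrm]

/-- **T1** -/
theorem T1 {N G H : ℕ} (hN : 1 ≤ N) (hG : 1 ≤ G) (hGH : 2 * H ^ 2 ≤ G) :
    ((((box N ×ˢ box N) ×ˢ ((box N ×ˢ box N) ×ˢ (box N ×ˢ box N))).filter (fun p =>
      G < dirN p.1.1 p.1.2 ∧ Cop p.1.1 p.1.2 p.2.1.1 p.2.1.2 ∧ Cop p.1.1 p.1.2 p.2.2.1 p.2.2.2 ∧
      ¬ Cop p.1.1 p.1.2 p.2.1.1 p.2.2.1)).card : ℝ) ≤
      2 * MM N G H * ((N : ℝ) ^ 3 * TT N) := by
  classical
  rw [card_prod_filter]
  push_cast
  have hstep : ∀ a ∈ box N ×ˢ box N, ((((box N ×ˢ box N) ×ˢ (box N ×ˢ box N)).filter (fun b =>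
      G < dirN (a, b).1.1 (a, b).1.2 ∧ Cop (a, b).1.1 (a, b).1.2 (a, b).2.1.1 (a, b).2.1.2 ∧
      Cop (a, b).1.1 (a, b).1.2 (a, b).2.2.1 (a, b).2.2.2 ∧
      ¬ Cop (a, b).1.1 (a, b).1.2 (a, b).2.1.1 (a, b).2.2.1)).card : ℝ) ≤
      2 * MM N G H * cc N a.1 a.2 := by
    intro a ha
    rw [Finset.mem_product] at ha
    by_cases hd : G < dirN a.1 a.2
    · have hsub : (((box N ×ˢ box N) ×ˢ (box N ×ˢ box N)).filter (fun b =>
          G < dirN (a, b).1.1 (a, b).1.2 ∧ Cop (a, b).1.1 (a, b).1.2 (a, b).2.1.1 (a, b).2.1.2 ∧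
          Cop (a, b).1.1 (a, b).1.2 (a, b).2.2.1 (a, b).2.2.2 ∧
          ¬ Cop (a, b).1.1 (a, b).1.2 (a, b).2.1.1 (a, b).2.2.1)) ⊆
          (LS N H a.1 a.2 ×ˢ (box N ×ˢ box N).filter (fun p => Cop a.1 a.2 p.1 p.2)) ∪
          ((box N ×ˢ box N).filter (fun p => Cop a.1 a.2 p.1 p.2) ×ˢ LS N H a.1 a.2) := by
        intro b hb
        rw [Finset.mem_filter, Finset.mem_product] at hb
        obtain ⟨⟨hb1, hb2⟩, -, h1, h2, h3⟩ := hb
        dsimp only at h1 h2 h3
        rw [Finset.mem_union, Finset.mem_product, Finset.mem_product, Finset.mem_filter,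
          Finset.mem_filter]
        by_cases hs1 : ∃ m ∈ normals H,
          dot m a.1 = dot m a.2 ∧ dot m a.1 = dot m b.1.1 ∧ dot m a.1 = dot m b.1.2
        · by_cases hs2 : ∃ m ∈ normals H,
            dot m a.1 = dot m a.2 ∧ dot m a.1 = dot m b.2.1 ∧ dot m a.1 = dot m b.2.2
          · exfalso
            obtain ⟨m, hm, e1, e2, e3⟩ := hs1
            obtain ⟨m', hm', e1', e2', e3'⟩ := hs2
            rw [mem_normals] at hm hm'
            have h6 := G6 (lt_of_le_of_lt hGH hd) hm.2 hm'.2 hm.1 hm'.1 e1 e1'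
            apply h3
            have h7 : dot m a.1 = dot m b.2.1 := by
              rcases h6 with h6 | h6
              · rw [h6] at e2'; exact e2'
              · rw [h6] at e2'
                have : ∀ y : Pt, dot (-m) y = - dot m y := by
                  intro y
                  simp only [dot, Pi.neg_apply]; ring
                rw [this, this] at e2'
                linarith
            exact cop_of_dot (Prim.ne_zero hm.2) e1.symm e2.symm h7.symm
          · right
            refine ⟨⟨hb1, h1⟩, ?_⟩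
            unfold LS
            rw [Finset.mem_filter]
            exact ⟨hb2, h2, hs2⟩
        · left
          refine ⟨?_, hb2, h2⟩
          unfold LS
          rw [Finset.mem_filter]
          exact ⟨hb1, h1, hs1⟩
      have h1 := (Finset.card_le_card hsub).trans (Finset.card_union_le _ _)
      rw [Finset.card_product, Finset.card_product] at h1
      have h2 := card_LS (H := H) ha.1 ha.2 hG hd
      have h3 : ((LS N H a.1 a.2).card * cc N a.1 a.2 + cc N a.1 a.2 * (LS N H a.1 a.2).card : ℝ) ≤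
          2 * MM N G H * cc N a.1 a.2 := by
        have h4 : (0 : ℝ) ≤ cc N a.1 a.2 := by positivity
        nlinarith
      refine le_trans ?_ h3
      unfold cc
      exact_mod_cast h1
    · have : (((box N ×ˢ box N) ×ˢ (box N ×ˢ box N)).filter (fun b =>
          G < dirN (a, b).1.1 (a, b).1.2 ∧ Cop (a, b).1.1 (a, b).1.2 (a, b).2.1.1 (a, b).2.1.2 ∧
          Cop (a, b).1.1 (a, b).1.2 (a, b).2.2.1 (a, b).2.2.2 ∧
          ¬ Cop (a, b).1.1 (a, b).1.2 (a, b).2.1.1 (a, b).2.2.1)) = ∅ := by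
        apply Finset.filter_eq_empty_iff.2
        intro b _ hb
        exact hd hb.1
      rw [this]
      have := MM_nonneg (G := G) (H := H) hN
      simp only [Finset.card_empty, Nat.cast_zero]
      positivity
  refine (Finset.sum_le_sum hstep).trans ?_
  rw [← Finset.mul_sum, Finset.sum_product]
  apply mul_le_mul_of_nonneg_left _ (by have := MM_nonneg (G := G) (H := H) hN; positivity)
  calc ∑ x ∈ box N, ∑ y ∈ box N, (cc N (x, y).1 (x, y).2 : ℝ) ≤ ∑ x ∈ box N, TT N :=
        Finset.sum_le_sum (fun x hx => sum_cc hx)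
    _ = _ := by
        rw [Finset.sum_const, card_box, nsmul_eq_mul]
        push_cast
        ring

/-! ### T2 -/

lemma neg_dot (m y : Pt) : dot (-m) y = - dot m y := by
  simp only [dot, Pi.neg_apply]; ring

/-- two non parallel planes meet in a line -/
lemma card_two_planes {N : ℕ} (hN : 1 ≤ N) {m m' : Pt} {c c' : ℤ} (h : cross m m' ≠ 0) :
    (((box N).filter (fun y => dot m y = c ∧ dot m' y = c')).card : ℝ) ≤ 3 * N := by
  classical
  have hN1 : (1 : ℝ) ≤ N := by exact_mod_cast hN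
  by_cases h2 : 2 ≤ ((box N).filter (fun y => dot m y = c ∧ dot m' y = c')).card
  · obtain ⟨u, hu, v, hv, huv⟩ := Finset.one_lt_card.1 h2
    rw [Finset.mem_filter] at hu hv
    have h3 := card_line hu.1 hv.1 (Ne.symm huv)
    have h4 : (1 : ℝ) ≤ nrm (prim (v - u)) := by
      exact_mod_cast Prim.nrm_pos (prim_Prim (sub_ne_zero.2 (Ne.symm huv)))
    have h5 : (3 : ℝ) * N / nrm (prim (v - u)) ≤ 3 * N := div_le_self (by positivity) h4
    refine le_trans ?_ (h3.trans h5)
    have hsub : (box N).filter (fun y => dot m y = c ∧ dot m' y = c') ⊆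
        (box N).filter (fun z => Col u v z) := by
      intro z hz
      rw [Finset.mem_filter] at hz ⊢
      refine ⟨hz.1, ?_⟩
      have e1 : cross (v - u) (cross m m') = 0 := by
        apply cross_cross_eq
        · rw [dot_sub, hu.2.1, hv.2.1]; ring
        · rw [dot_sub, hu.2.2, hv.2.2]; ring
      have e2 : cross (z - u) (cross m m') = 0 := by
        apply cross_cross_eq
        · rw [dot_sub, hu.2.1, hz.2.1]; ring
        · rw [dot_sub, hu.2.2, hz.2.2]; ring
      have hp := prim_Prim h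
      have hc : (content (cross m m') : ℤ) ≠ 0 := by exact_mod_cast (content_pos h).ne'
      have e3 : ∀ w : Pt, cross w (cross m m') = 0 → ∃ s : ℤ, w = s • prim (cross m m') := by
        intro w hw
        apply eq_smul_of_cross hp
        rw [cross_anti, neg_eq_zero]
        rw [← content_smul_prim (cross m m'), cross_smul_right] at hw
        exact (smul_eq_zero.1 hw).resolve_left hc
      obtain ⟨s, hs⟩ := e3 _ e1
      obtain ⟨t, ht⟩ := e3 _ e2
      show cross (v - u) (z - u) = 0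
      rw [hs, ht, cross_smul_left, cross_smul_right, cross_self_zero]
      simp
    exact_mod_cast Finset.card_le_card hsub
  · have h3 : ((box N).filter (fun y => dot m y = c ∧ dot m' y = c')).card ≤ 1 := by omega
    have h4 : (((box N).filter (fun y => dot m y = c ∧ dot m' y = c')).card : ℝ) ≤ 1 := by
      exact_mod_cast h3
    linarith

/-- triangle configurations of small planes -/
def SmTri (m₁ m₂ m₃ x y z : Pt) : Prop :=
  dot m₁ x = dot m₁ y ∧ dot m₂ y = dot m₂ z ∧ dot m₃ z = dot m₃ x ∧ dot m₁ z ≠ dot m₁ x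

instance (m₁ m₂ m₃ x y z : Pt) : Decidable (SmTri m₁ m₂ m₃ x y z) := by
  unfold SmTri; infer_instance

lemma card_SmTri {N H : ℕ} (hN : 1 ≤ N) (hH : H ≤ N) {m₁ m₂ m₃ : Pt} (h1 : m₁ ∈ normals H)
    (h2 : m₂ ∈ normals H) (h3 : m₃ ∈ normals H) :
    (((box N ×ˢ (box N ×ˢ box N)).filter (fun p => SmTri m₁ m₂ m₃ p.1 p.2.1 p.2.2)).card : ℝ) ≤
      27 * (N : ℝ) ^ 6 := by
  classical
  have hN1 : (1 : ℝ) ≤ N := by exact_mod_cast hN
  rw [mem_normals] at h1 h2 h3
  by_cases hpar : cross m₁ m₂ = 0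
  · have : (box N ×ˢ (box N ×ˢ box N)).filter (fun p => SmTri m₁ m₂ m₃ p.1 p.2.1 p.2.2) = ∅ := by
      apply Finset.filter_eq_empty_iff.2
      intro p _ hp
      obtain ⟨e1, e2, e3, e4⟩ := hp
      apply e4
      rcases prim_unique h1.2 h2.2 hpar with h | h
      · rw [h] at e2
        rw [← e2, e1]
      · rw [h, neg_dot, neg_dot] at e2
        linarith
    rw [this]
    simp only [Finset.card_empty, Nat.cast_zero]
    positivity
  · rw [card_prod_filter]
    push_cast
    have hstep : ∀ x ∈ box N, (((box N ×ˢ box N).filter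
        (fun b => SmTri m₁ m₂ m₃ (x, b).1 (x, b).2.1 (x, b).2.2)).card : ℝ) ≤
        27 * (N : ℝ) ^ 3 := by
      intro x hx
      have hcard : ((box N ×ˢ box N).filter
        (fun b => SmTri m₁ m₂ m₃ (x, b).1 (x, b).2.1 (x, b).2.2)).card ≤
        ∑ z ∈ plane N m₃ (dot m₃ x), ((box N).filter
          (fun y => dot m₁ y = dot m₁ x ∧ dot m₂ y = dot m₂ z)).card := by
        rw [← Finset.card_sigma]
        apply Finset.card_le_card_of_injOn (fun b => (⟨b.2, b.1⟩ : Σ _ : Pt, Pt))
        · intro b hb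
          simp only [Finset.coe_filter, Finset.mem_product, Set.mem_ofPred_eq] at hb
          obtain ⟨⟨hb1, hb2⟩, e1, e2, e3, e4⟩ := hb
          simp only [Finset.coe_sigma, Set.mem_sigma_iff, Finset.mem_coe, Finset.mem_filter, plane]
          exact ⟨⟨hb2, e3⟩, hb1, e1.symm, e2⟩
        · intro b _ b' _ hbb
          simp only [Sigma.mk.injEq, heq_eq_eq] at hbb
          exact Prod.ext hbb.2 hbb.1
      have h5 : (((box N ×ˢ box N).filter
        (fun b => SmTri m₁ m₂ m₃ (x, b).1 (x, b).2.1 (x, b).2.2)).card : ℝ) ≤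
        ∑ z ∈ plane N m₃ (dot m₃ x), (((box N).filter
          (fun y => dot m₁ y = dot m₁ x ∧ dot m₂ y = dot m₂ z)).card : ℝ) := by
        exact_mod_cast hcard
      refine h5.trans ?_
      refine (Finset.sum_le_sum (fun z _ => card_two_planes hN hpar)).trans ?_
      rw [Finset.sum_const, nsmul_eq_mul]
      have h6 := card_plane_le (c := dot m₃ x) h3.2 (h3.1.trans hH)
      have h7 : (1 : ℝ) ≤ nrm m₃ := by exact_mod_cast Prim.nrm_pos h3.2
      have h8 : 9 * (N : ℝ) ^ 2 / nrm m₃ ≤ 9 * (N : ℝ) ^ 2 := div_le_self (by positivity) h7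
      have h9 := h6.trans h8
      calc _ ≤ 9 * (N : ℝ) ^ 2 * (3 * N) := mul_le_mul_of_nonneg_right h9 (by positivity)
        _ = _ := by ring
    refine (Finset.sum_le_sum hstep).trans ?_
    rw [Finset.sum_const, card_box, nsmul_eq_mul]
    push_cast
    apply le_of_eq
    ring

/-- the condition of T2 -/
def T2c (G : ℕ) (x y z a b c d e f : Pt) : Prop :=
  (G < dirN x y ∧ G < dirN y z ∧ G < dirN z x) ∧ (Cop x y a b ∧ Cop y z c d ∧ Cop z x e f) ∧
    ¬ Cop x y a z

instance (G : ℕ) (x y z a b c d e f : Pt) : Decidable (T2c G x y z a b c d e f) := by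
  unfold T2c; infer_instance

/-- **T2** -/
theorem T2 {N G H : ℕ} (hN : 1 ≤ N) (hG : 1 ≤ G) (hH : H ≤ N) :
    ((((box N ×ˢ (box N ×ˢ box N)) ×ˢ ((box N ×ˢ box N) ×ˢ ((box N ×ˢ box N) ×ˢ
      (box N ×ˢ box N)))).filter (fun p => T2c G p.1.1 p.1.2.1 p.1.2.2 p.2.1.1 p.2.1.2
        p.2.2.1.1 p.2.2.1.2 p.2.2.2.1 p.2.2.2.2)).card : ℝ) ≤
      3 * MM N G H * ((N : ℝ) ^ 3 * TT N ^ 2) + 27 * 9 ^ 6 * (2 * (H : ℝ) + 1) ^ 9 * (N : ℝ) ^ 18 := by
  classical
  have hN1 : (1 : ℝ) ≤ N := by exact_mod_cast hN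
  have hMM := MM_nonneg (G := G) (H := H) hN
  have hTT := TT_nonneg hN
  rw [card_prod_filter]
  push_cast
  set B2 := box N ×ˢ box N with hB2
  -- the three kinds
  have hstep : ∀ a ∈ box N ×ˢ B2, (((B2 ×ˢ (B2 ×ˢ B2)).filter (fun b =>
      T2c G (a, b).1.1 (a, b).1.2.1 (a, b).1.2.2 (a, b).2.1.1 (a, b).2.1.2
        (a, b).2.2.1.1 (a, b).2.2.1.2 (a, b).2.2.2.1 (a, b).2.2.2.2)).card : ℝ) ≤
      MM N G H * (cc N a.2.1 a.2.2 * cc N a.2.2 a.1) + MM N G H * (cc N a.1 a.2.1 * cc N a.2.2 a.1)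
      + MM N G H * (cc N a.1 a.2.1 * cc N a.2.1 a.2.2) +
      ∑ m ∈ normals H ×ˢ (normals H ×ˢ normals H), (if SmTri m.1 m.2.1 m.2.2 a.1 a.2.1 a.2.2 then
        (9 * (N : ℝ) ^ 2) ^ 6 else 0) := by
    rintro ⟨x, y, z⟩ ha
    simp only [hB2, Finset.mem_product] at ha
    obtain ⟨hx, hy, hz⟩ := ha
    dsimp only
    by_cases hd : G < dirN x y ∧ G < dirN y z ∧ G < dirN z x
    · obtain ⟨hd1, hd2, hd3⟩ := hd
      set C1 := B2.filter (fun p => Cop x y p.1 p.2) with hC1
      set C2 := B2.filter (fun p => Cop y z p.1 p.2) with hC2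
      set C3 := B2.filter (fun p => Cop z x p.1 p.2) with hC3
      set Sm := (normals H ×ˢ (normals H ×ˢ normals H)).filter
        (fun m => SmTri m.1 m.2.1 m.2.2 x y z) with hSm
      have hsub : (B2 ×ˢ (B2 ×ˢ B2)).filter (fun b => T2c G x y z b.1.1 b.1.2
          b.2.1.1 b.2.1.2 b.2.2.1 b.2.2.2) ⊆
          ((LS N H x y ×ˢ (C2 ×ˢ C3)) ∪ (C1 ×ˢ (LS N H y z ×ˢ C3))) ∪
          ((C1 ×ˢ (C2 ×ˢ LS N H z x)) ∪ Sm.biUnion (fun m =>
            (plane N m.1 (dot m.1 x) ×ˢ plane N m.1 (dot m.1 x)) ×ˢ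
            ((plane N m.2.1 (dot m.2.1 y) ×ˢ plane N m.2.1 (dot m.2.1 y)) ×ˢ
            (plane N m.2.2 (dot m.2.2 z) ×ˢ plane N m.2.2 (dot m.2.2 z))))) := by
        intro b hb
        rw [Finset.mem_filter] at hb
        obtain ⟨hb0, hb'⟩ := hb
        obtain ⟨-, ⟨h1, h2, h3⟩, h4⟩ := hb'
        obtain ⟨hb1, hb23⟩ := Finset.mem_product.1 hb0
        obtain ⟨hb2, hb3⟩ := Finset.mem_product.1 hb23
        have m1 : b.1 ∈ C1 := by rw [hC1, Finset.mem_filter]; exact ⟨hb1, h1⟩
        have m2 : b.2.1 ∈ C2 := by rw [hC2, Finset.mem_filter]; exact ⟨hb2, h2⟩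
        have m3 : b.2.2 ∈ C3 := by rw [hC3, Finset.mem_filter]; exact ⟨hb3, h3⟩
        rw [Finset.mem_union, Finset.mem_union, Finset.mem_union]
        by_cases hs1 : ∃ m ∈ normals H,
          dot m x = dot m y ∧ dot m x = dot m b.1.1 ∧ dot m x = dot m b.1.2
        · by_cases hs2 : ∃ m ∈ normals H,
            dot m y = dot m z ∧ dot m y = dot m b.2.1.1 ∧ dot m y = dot m b.2.1.2
          · by_cases hs3 : ∃ m ∈ normals H,
              dot m z = dot m x ∧ dot m z = dot m b.2.2.1 ∧ dot m z = dot m b.2.2.2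
            · right; right
              obtain ⟨m, hm, e1, e2, e3⟩ := hs1
              obtain ⟨m', hm', e1', e2', e3'⟩ := hs2
              obtain ⟨m'', hm'', e1'', e2'', e3''⟩ := hs3
              rw [Finset.mem_biUnion]
              refine ⟨(m, m', m''), ?_, ?_⟩
              · rw [hSm, Finset.mem_filter, Finset.mem_product, Finset.mem_product]
                refine ⟨⟨hm, hm', hm''⟩, e1, e1', e1'', ?_⟩
                intro h5
                apply h4
                exact cop_of_dot (Prim.ne_zero (mem_normals.1 hm).2) e1.symm e2.symm h5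
              · rw [hB2, Finset.mem_product] at hb1 hb2 hb3
                simp only [Finset.mem_product, plane, Finset.mem_filter]
                exact ⟨⟨⟨hb1.1, e2.symm⟩, hb1.2, e3.symm⟩, ⟨⟨hb2.1, e2'.symm⟩, hb2.2, e3'.symm⟩,
                  ⟨hb3.1, e2''.symm⟩, hb3.2, e3''.symm⟩
            · right; left
              rw [Finset.mem_product, Finset.mem_product]
              refine ⟨m1, m2, ?_⟩
              unfold LS
              rw [Finset.mem_filter]
              exact ⟨hb3, h3, hs3⟩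
          · left; right
            rw [Finset.mem_product, Finset.mem_product]
            refine ⟨m1, ?_, m3⟩
            unfold LS
            rw [Finset.mem_filter]
            exact ⟨hb2, h2, hs2⟩
        · left; left
          rw [Finset.mem_product, Finset.mem_product]
          refine ⟨?_, m2, m3⟩
          unfold LS
          rw [Finset.mem_filter]
          exact ⟨hb1, h1, hs1⟩
      have h1 := (Finset.card_le_card hsub).trans (Finset.card_union_le _ _)
      have h2 := Finset.card_union_le (LS N H x y ×ˢ (C2 ×ˢ C3)) (C1 ×ˢ (LS N H y z ×ˢ C3))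
      have h3 := Finset.card_union_le (C1 ×ˢ (C2 ×ˢ LS N H z x)) (Sm.biUnion (fun m =>
            (plane N m.1 (dot m.1 x) ×ˢ plane N m.1 (dot m.1 x)) ×ˢ
            ((plane N m.2.1 (dot m.2.1 y) ×ˢ plane N m.2.1 (dot m.2.1 y)) ×ˢ
            (plane N m.2.2 (dot m.2.2 z) ×ˢ plane N m.2.2 (dot m.2.2 z)))))
      have h4 : (Sm.biUnion (fun m =>
            (plane N m.1 (dot m.1 x) ×ˢ plane N m.1 (dot m.1 x)) ×ˢ
            ((plane N m.2.1 (dot m.2.1 y) ×ˢ plane N m.2.1 (dot m.2.1 y)) ×ˢ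
            (plane N m.2.2 (dot m.2.2 z) ×ˢ plane N m.2.2 (dot m.2.2 z))))).card ≤
            ∑ m ∈ Sm, _ := Finset.card_biUnion_le
      have h5 := card_LS (H := H) hx hy hG hd1
      have h6 := card_LS (H := H) hy hz hG hd2
      have h7 := card_LS (H := H) hz hx hG hd3
      simp only [Finset.card_product] at h1 h2 h3 h4
      have c1 : (C1.card : ℝ) = cc N x y := rfl
      have c2 : (C2.card : ℝ) = cc N y z := rfl
      have c3 : (C3.card : ℝ) = cc N z x := rfl
      have h8 : ((∑ m ∈ Sm, (plane N m.1 (dot m.1 x)).card * (plane N m.1 (dot m.1 x)).card *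
            ((plane N m.2.1 (dot m.2.1 y)).card * (plane N m.2.1 (dot m.2.1 y)).card *
            ((plane N m.2.2 (dot m.2.2 z)).card * (plane N m.2.2 (dot m.2.2 z)).card)) : ℕ) : ℝ) ≤
          ∑ m ∈ normals H ×ˢ (normals H ×ˢ normals H), (if SmTri m.1 m.2.1 m.2.2 x y z then
            (9 * (N : ℝ) ^ 2) ^ 6 else 0) := by
        rw [← Finset.sum_filter]
        push_cast
        apply Finset.sum_le_sum
        intro m hm
        rw [Finset.mem_filter, Finset.mem_product, Finset.mem_product] at hm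
        have hq : ∀ m : Pt, ∀ c : ℤ, m ∈ normals H → ((plane N m c).card : ℝ) ≤ 9 * (N : ℝ) ^ 2 := by
          intro m c hm
          rw [mem_normals] at hm
          have h6 := card_plane_le (c := c) hm.2 (hm.1.trans hH)
          have h7 : (1 : ℝ) ≤ nrm m := by exact_mod_cast Prim.nrm_pos hm.2
          exact h6.trans (div_le_self (by positivity) h7)
        have q1 := hq _ (dot m.1 x) hm.1.1
        have q2 := hq _ (dot m.2.1 y) hm.1.2.1
        have q3 := hq _ (dot m.2.2 z) hm.1.2.2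
        calc _ = ((plane N m.1 (dot m.1 x)).card : ℝ) ^ 2 *
            (((plane N m.2.1 (dot m.2.1 y)).card : ℝ) ^ 2 *
            ((plane N m.2.2 (dot m.2.2 z)).card : ℝ) ^ 2) := by ring
          _ ≤ (9 * (N : ℝ) ^ 2) ^ 2 * ((9 * (N : ℝ) ^ 2) ^ 2 * (9 * (N : ℝ) ^ 2) ^ 2) := by
            gcongr
          _ = _ := by ring
      have h9 : (((B2 ×ˢ (B2 ×ˢ B2)).filter (fun b => T2c G x y z b.1.1 b.1.2
          b.2.1.1 b.2.1.2 b.2.2.1 b.2.2.2)).card : ℝ) ≤
          ((LS N H x y).card * (C2.card * C3.card) + C1.card * ((LS N H y z).card * C3.card)) +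
          (C1.card * (C2.card * (LS N H z x).card) +
          ((∑ m ∈ Sm, (plane N m.1 (dot m.1 x)).card * (plane N m.1 (dot m.1 x)).card *
            ((plane N m.2.1 (dot m.2.1 y)).card * (plane N m.2.1 (dot m.2.1 y)).card *
            ((plane N m.2.2 (dot m.2.2 z)).card * (plane N m.2.2 (dot m.2.2 z)).card)) : ℕ) : ℝ)) := by
        have := h1.trans (Nat.add_le_add h2 (h3.trans (Nat.add_le_add_left h4 _)))
        exact_mod_cast this
      rw [c1, c2, c3] at h9
      refine h9.trans ?_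
      have g1 : ((LS N H x y).card : ℝ) * (cc N y z * cc N z x) ≤ MM N G H * (cc N y z * cc N z x) :=
        mul_le_mul_of_nonneg_right h5 (by positivity)
      have g2 : (cc N x y : ℝ) * ((LS N H y z).card * cc N z x) ≤ MM N G H * (cc N x y * cc N z x) := by
        calc _ = ((LS N H y z).card : ℝ) * (cc N x y * cc N z x) := by ring
          _ ≤ _ := mul_le_mul_of_nonneg_right h6 (by positivity)
      have g3 : (cc N x y : ℝ) * (cc N y z * (LS N H z x).card) ≤ MM N G H * (cc N x y * cc N y z) := by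
        calc _ = ((LS N H z x).card : ℝ) * (cc N x y * cc N y z) := by ring
          _ ≤ _ := mul_le_mul_of_nonneg_right h7 (by positivity)
      linarith
    · have : (B2 ×ˢ (B2 ×ˢ B2)).filter (fun b => T2c G x y z b.1.1 b.1.2
          b.2.1.1 b.2.1.2 b.2.2.1 b.2.2.2) = ∅ := by
        apply Finset.filter_eq_empty_iff.2
        intro b _ hb
        exact hd hb.1
      rw [this]
      simp only [Finset.card_empty, Nat.cast_zero]
      have : 0 ≤ ∑ m ∈ normals H ×ˢ (normals H ×ˢ normals H),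
        (if SmTri m.1 m.2.1 m.2.2 x y z then (9 * (N : ℝ) ^ 2) ^ 6 else 0) := by
        apply Finset.sum_nonneg
        intro m _
        split_ifs <;> positivity
      positivity
  refine (Finset.sum_le_sum hstep).trans ?_
  rw [Finset.sum_add_distrib, Finset.sum_add_distrib, Finset.sum_add_distrib]
  have hprod : ∀ f g : Pt → ℝ, (∀ a, 0 ≤ f a) → (∀ a, 0 ≤ g a) → ∑ a ∈ box N, f a ≤ TT N →
      ∑ a ∈ box N, g a ≤ TT N → ∑ a ∈ box N, ∑ b ∈ box N, f a * g b ≤ TT N ^ 2 := by
    intro f g hf hg h1 h2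
    rw [← Finset.sum_mul_sum]
    calc _ ≤ TT N * TT N := mul_le_mul h1 h2 (Finset.sum_nonneg (fun a _ => hg a)) hTT
      _ = _ := by ring
  have hcen : ∀ F : Pt → ℝ, (∀ x ∈ box N, F x ≤ TT N ^ 2) → ∑ x ∈ box N, F x ≤
      (N : ℝ) ^ 3 * TT N ^ 2 := by
    intro F hF
    refine (Finset.sum_le_sum hF).trans ?_
    rw [Finset.sum_const, card_box, nsmul_eq_mul]
    push_cast
    exact le_rfl
  have s1 : ∑ a ∈ box N ×ˢ B2, MM N G H * ((cc N a.2.1 a.2.2 : ℝ) * cc N a.2.2 a.1) ≤
      MM N G H * ((N : ℝ) ^ 3 * TT N ^ 2) := by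
    rw [← Finset.mul_sum, Finset.sum_product, hB2]
    apply mul_le_mul_of_nonneg_left _ hMM
    simp_rw [Finset.sum_product_right]
    rw [Finset.sum_comm]
    apply hcen
    intro z hz
    rw [Finset.sum_comm]
    apply hprod (fun y => (cc N y z : ℝ)) (fun x => (cc N z x : ℝ)) (fun _ => by positivity)
      (fun _ => by positivity)
    · simp_rw [cc_symm N _ z]
      exact sum_cc hz
    · exact sum_cc hz
  have s2 : ∑ a ∈ box N ×ˢ B2, MM N G H * ((cc N a.1 a.2.1 : ℝ) * cc N a.2.2 a.1) ≤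
      MM N G H * ((N : ℝ) ^ 3 * TT N ^ 2) := by
    rw [← Finset.mul_sum, Finset.sum_product, hB2]
    apply mul_le_mul_of_nonneg_left _ hMM
    apply hcen
    intro x hx
    rw [Finset.sum_product]
    apply hprod (fun y => (cc N x y : ℝ)) (fun z => (cc N z x : ℝ)) (fun _ => by positivity)
      (fun _ => by positivity)
    · exact sum_cc hx
    · simp_rw [cc_symm N _ x]
      exact sum_cc hx
  have s3 : ∑ a ∈ box N ×ˢ B2, MM N G H * ((cc N a.1 a.2.1 : ℝ) * cc N a.2.1 a.2.2) ≤
      MM N G H * ((N : ℝ) ^ 3 * TT N ^ 2) := by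
    rw [← Finset.mul_sum, Finset.sum_product, hB2]
    apply mul_le_mul_of_nonneg_left _ hMM
    simp_rw [Finset.sum_product]
    rw [Finset.sum_comm]
    apply hcen
    intro y hy
    apply hprod (fun x => (cc N x y : ℝ)) (fun z => (cc N y z : ℝ)) (fun _ => by positivity)
      (fun _ => by positivity)
    · simp_rw [cc_symm N _ y]
      exact sum_cc hy
    · exact sum_cc hy
  have s4 : ∑ a ∈ box N ×ˢ B2, ∑ m ∈ normals H ×ˢ (normals H ×ˢ normals H),
      (if SmTri m.1 m.2.1 m.2.2 a.1 a.2.1 a.2.2 then (9 * (N : ℝ) ^ 2) ^ 6 else 0) ≤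
      27 * 9 ^ 6 * (2 * (H : ℝ) + 1) ^ 9 * (N : ℝ) ^ 18 := by
    rw [Finset.sum_comm]
    have h1 : ∀ m ∈ normals H ×ˢ (normals H ×ˢ normals H), ∑ a ∈ box N ×ˢ B2,
        (if SmTri m.1 m.2.1 m.2.2 a.1 a.2.1 a.2.2 then (9 * (N : ℝ) ^ 2) ^ 6 else 0) ≤
        27 * (N : ℝ) ^ 6 * (9 * (N : ℝ) ^ 2) ^ 6 := by
      intro m hm
      rw [Finset.mem_product, Finset.mem_product] at hm
      rw [← Finset.sum_filter, Finset.sum_const, nsmul_eq_mul]
      exact mul_le_mul_of_nonneg_right (card_SmTri hN hH hm.1 hm.2.1 hm.2.2) (by positivity)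
    refine (Finset.sum_le_sum h1).trans ?_
    rw [Finset.sum_const, nsmul_eq_mul, Finset.card_product, Finset.card_product]
    have h2 : (normals H).card ≤ (2 * H + 1) ^ 3 := by
      rw [← card_ball]
      apply Finset.card_le_card
      intro m hm
      rw [mem_normals] at hm
      rw [mem_ball]
      exact hm.1
    have h3 : ((normals H).card : ℝ) ≤ (2 * (H : ℝ) + 1) ^ 3 := by exact_mod_cast h2
    push_cast
    calc ((normals H).card : ℝ) * ((normals H).card * (normals H).card) *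
          (27 * (N : ℝ) ^ 6 * (9 * (N : ℝ) ^ 2) ^ 6)
        ≤ (2 * (H : ℝ) + 1) ^ 3 * ((2 * (H : ℝ) + 1) ^ 3 * (2 * (H : ℝ) + 1) ^ 3) *
          (27 * (N : ℝ) ^ 6 * (9 * (N : ℝ) ^ 2) ^ 6) := by gcongr
      _ = _ := by ring
  linarith

end Pool.Agent.Grid3D.Geo2
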