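import Pool.Agent.Grid3D.Avg
import Pool.Agent.Grid3D.Geo3

set_option autoImplicit false

/-! Regime 2, step 1: the positions of the hubs. -/

namespace Pool.Agent.Grid3D

open Finset Classical

noncomputable section

/-- indicator of collinearity -/
def ic (x y z : Pt) : ℝ := if Col x y z then 1 else 0
/-- indicator of coplanarity -/
def ip (x y z w : Pt) : ℝ := if Cop x y z w then 1 else 0
/-- number of pairs coplanar with a given pair -/
def KK (N : ℕ) (z z' : Pt) : ℝ := ∑ u ∈ box N, ∑ v ∈ box N, ip z z' u v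
/-- number of points of the box coplanar with a given triple -/
def PP (N : ℕ) (z z' z'' : Pt) : ℝ := ∑ w ∈ box N, ip z z' z'' w

/-- the constant of G4 -/
def C0 : ℝ := 34580989

lemma C0_ge : (79 : ℝ) ≤ C0 := by unfold C0; norm_num

lemma ic_nonneg (x y z : Pt) : 0 ≤ ic x y z := by unfold ic; split_ifs <;> norm_num
lemma ip_nonneg (x y z w : Pt) : 0 ≤ ip x y z w := by unfold ip; split_ifs <;> norm_num
lemma KK_nonneg (N : ℕ) (z z' : Pt) : 0 ≤ KK N z z' :=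
  Finset.sum_nonneg (fun _ _ => Finset.sum_nonneg (fun _ _ => ip_nonneg _ _ _ _))
lemma PP_nonneg (N : ℕ) (z z' z'' : Pt) : 0 ≤ PP N z z' z'' :=
  Finset.sum_nonneg (fun _ _ => ip_nonneg _ _ _ _)

lemma sum_T3 {N : ℕ} {x : Pt} (hx : x ∈ box N) :
    ∑ y ∈ box N, ∑ z ∈ box N, ∑ w ∈ box N, ip x y z w ≤
      C0 * (N : ℝ) ^ 6 * (1 + Real.log N) := by
  refine le_trans (le_of_eq ?_) (Geo2.G4 hx)
  rw [Finset.card_filter]
  push_cast
  rw [Finset.sum_product]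
  refine Finset.sum_congr rfl (fun y _ => ?_)
  rw [Finset.sum_product]
  rfl

lemma sum_T2 {N : ℕ} {x : Pt} (hx : x ∈ box N) :
    ∑ y ∈ box N, ∑ z ∈ box N, ic x y z ≤ 79 * (N : ℝ) ^ 3 := by
  refine le_trans (le_of_eq ?_) (Geo2.G9 hx)
  rw [Finset.card_filter]
  push_cast
  rw [Finset.sum_product]
  rfl

lemma card_boxR (N : ℕ) : ((box N).card : ℝ) = (N : ℝ) ^ 3 := by
  rw [Geo2.card_box]
  push_cast
  rfl

lemma box_nonempty {N : ℕ} (hN : 1 ≤ N) : (box N).Nonempty := by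
  rw [← Finset.card_pos, Geo2.card_box]
  positivity

lemma exists_all_le {V β κ : Type*} [Fintype V] [DecidableEq V] [Fintype κ] {Y : V → Finset β}
    (hY : ∀ v, (Y v).Nonempty) (F : κ → (V → β) → ℝ) (b : κ → ℝ) (hb : ∀ r, 0 < b r)
    (hF0 : ∀ r, ∀ p ∈ Fintype.piFinset Y, 0 ≤ F r p) (hF : ∀ r, Ev Y (F r) ≤ b r) :
    ∃ p ∈ Fintype.piFinset Y, ∀ r, F r p ≤ (Fintype.card κ : ℝ) * b r := by
  have h1 : Ev Y (fun p => ∑ r, (b r)⁻¹ * F r p) ≤ (Fintype.card κ : ℝ) := by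
    rw [Ev_sum]
    have : ∀ r ∈ (univ : Finset κ), Ev Y (fun p => (b r)⁻¹ * F r p) ≤ 1 := by
      intro r _
      rw [Ev_const_mul, inv_mul_le_iff₀ (hb r), mul_one]
      exact hF r
    refine (Finset.sum_le_sum this).trans ?_
    simp
  obtain ⟨p, hp, hpc⟩ := exists_le_Ev hY _ h1
  refine ⟨p, hp, fun r => ?_⟩
  have h2 : (b r)⁻¹ * F r p ≤ ∑ r, (b r)⁻¹ * F r p :=
    Finset.single_le_sum (f := fun r => (b r)⁻¹ * F r p)
      (fun i _ => mul_nonneg (inv_nonneg.2 (hb i).le) (hF0 i p hp)) (Finset.mem_univ r)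
  have h3 := h2.trans hpc
  rw [inv_mul_le_iff₀ (hb r)] at h3
  linarith

section means

variable {N : ℕ} (hN : 1 ≤ N) {κ : Type*} [Fintype κ] [DecidableEq κ]

include hN

lemma Ypos (v : κ) : ((fun _ : κ => box N) v).Nonempty := box_nonempty hN

lemma mean1 : Ev (fun _ : κ => box N) (fun p => ∑ i, ∑ j, if i ≠ j then
    (if p i = p j then (1 : ℝ) else 0) else 0) ≤ (Fintype.card κ : ℝ) ^ 2 * (1 / (N : ℝ) ^ 3) := by
  have hN' : (0 : ℝ) < N := by exact_mod_cast hN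
  rw [Ev_sum]
  have : ∀ i ∈ (univ : Finset κ), Ev (fun _ : κ => box N) (fun p => ∑ j, if i ≠ j then
    (if p i = p j then (1 : ℝ) else 0) else 0) ≤ (Fintype.card κ : ℝ) * (1 / (N : ℝ) ^ 3) := by
    intro i _
    rw [Ev_sum]
    have : ∀ j ∈ (univ : Finset κ), Ev (fun _ : κ => box N) (fun p => if i ≠ j then
      (if p i = p j then (1 : ℝ) else 0) else 0) ≤ (1 / (N : ℝ) ^ 3) := by
      intro j _
      by_cases hij : i = j
      · simp only [hij, ne_eq, not_true_eq_false, if_false]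
        rw [Ev_zero]
        positivity
      · simp only [ne_eq, hij, not_false_eq_true, if_true]
        rw [Ev2 (Ypos hN) hij (fun x y => if x = y then (1 : ℝ) else 0)]
        have h : ∀ y0 ∈ box N, av (box N) (fun y1 => if y0 = y1 then (1 : ℝ) else 0) =
            1 / (N : ℝ) ^ 3 := by
          intro y0 hy0
          unfold av
          rw [Finset.sum_ite_eq, if_pos hy0, card_boxR]
        rw [av_congr h, av_const (box_nonempty hN)]
    refine (Finset.sum_le_sum this).trans ?_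
    rw [Finset.sum_const, nsmul_eq_mul]
    rfl
  refine (Finset.sum_le_sum this).trans ?_
  rw [Finset.sum_const, nsmul_eq_mul, pow_two, mul_assoc]
  rfl

lemma av_box (f : Pt → ℝ) : av (box N) f = (∑ y ∈ box N, f y) / (N : ℝ) ^ 3 := by
  unfold av
  rw [card_boxR]

lemma mean_two (g : Pt → Pt → ℝ) {B : ℝ} (hB : 0 ≤ B)
    (hg : ∑ x ∈ box N, ∑ y ∈ box N, g x y ≤ B) :
    Ev (fun _ : κ => box N) (fun p => ∑ i, ∑ j, if i ≠ j then g (p i) (p j) else 0) ≤
      (Fintype.card κ : ℝ) ^ 2 * (B / (N : ℝ) ^ 6) := by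
  have hN' : (0 : ℝ) < N := by exact_mod_cast hN
  rw [Ev_sum]
  have : ∀ i ∈ (univ : Finset κ), Ev (fun _ : κ => box N) (fun p => ∑ j, if i ≠ j then
    g (p i) (p j) else 0) ≤ (Fintype.card κ : ℝ) * (B / (N : ℝ) ^ 6) := by
    intro i _
    rw [Ev_sum]
    have : ∀ j ∈ (univ : Finset κ), Ev (fun _ : κ => box N) (fun p => if i ≠ j then
      g (p i) (p j) else 0) ≤ (B / (N : ℝ) ^ 6) := by
      intro j _
      by_cases hij : i = j
      · simp only [hij, ne_eq, not_true_eq_false, if_false]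
        rw [Ev_zero]
        positivity
      · simp only [ne_eq, hij, not_false_eq_true, if_true]
        rw [Ev2 (Ypos hN) hij g]
        simp only [av_box hN]
        rw [← Finset.sum_div, div_div]
        have : (N : ℝ) ^ 3 * (N : ℝ) ^ 3 = (N : ℝ) ^ 6 := by ring
        rw [this]
        exact div_le_div_of_nonneg_right hg (by positivity)
    refine (Finset.sum_le_sum this).trans ?_
    rw [Finset.sum_const, nsmul_eq_mul]
    rfl
  refine (Finset.sum_le_sum this).trans ?_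
  rw [Finset.sum_const, nsmul_eq_mul, pow_two, mul_assoc]
  rfl

lemma mean_three (g : Pt → Pt → Pt → ℝ) {B : ℝ} (hB : 0 ≤ B)
    (hg : ∑ x ∈ box N, ∑ y ∈ box N, ∑ z ∈ box N, g x y z ≤ B) :
    Ev (fun _ : κ => box N) (fun p => ∑ i, ∑ j, ∑ l, if i ≠ j ∧ i ≠ l ∧ j ≠ l then
      g (p i) (p j) (p l) else 0) ≤
      (Fintype.card κ : ℝ) ^ 3 * (B / (N : ℝ) ^ 9) := by
  have hN' : (0 : ℝ) < N := by exact_mod_cast hN
  rw [Ev_sum]
  have : ∀ i ∈ (univ : Finset κ), Ev (fun _ : κ => box N) (fun p => ∑ j, ∑ l,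
      if i ≠ j ∧ i ≠ l ∧ j ≠ l then g (p i) (p j) (p l) else 0) ≤
      (Fintype.card κ : ℝ) * ((Fintype.card κ : ℝ) * (B / (N : ℝ) ^ 9)) := by
    intro i _
    rw [Ev_sum]
    have : ∀ j ∈ (univ : Finset κ), Ev (fun _ : κ => box N) (fun p => ∑ l,
      if i ≠ j ∧ i ≠ l ∧ j ≠ l then g (p i) (p j) (p l) else 0) ≤
      (Fintype.card κ : ℝ) * (B / (N : ℝ) ^ 9) := by
      intro j _
      rw [Ev_sum]
      have : ∀ l ∈ (univ : Finset κ), Ev (fun _ : κ => box N) (fun p =>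
        if i ≠ j ∧ i ≠ l ∧ j ≠ l then g (p i) (p j) (p l) else 0) ≤ (B / (N : ℝ) ^ 9) := by
        intro l _
        by_cases h : i ≠ j ∧ i ≠ l ∧ j ≠ l
        · simp only [h, and_self, ne_eq, not_false_eq_true, if_true]
          rw [Ev3 (Ypos hN) h.1 h.2.1 h.2.2 g]
          simp only [av_box hN]
          simp only [← Finset.sum_div, div_div]
          have : (N : ℝ) ^ 3 * (N : ℝ) ^ 3 * (N : ℝ) ^ 3 = (N : ℝ) ^ 9 := by ring
          rw [this]
          exact div_le_div_of_nonneg_right hg (by positivity)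
        · simp only [h, if_false]
          rw [Ev_zero]
          positivity
      refine (Finset.sum_le_sum this).trans ?_
      rw [Finset.sum_const, nsmul_eq_mul]
      rfl
    refine (Finset.sum_le_sum this).trans ?_
    rw [Finset.sum_const, nsmul_eq_mul]
    rfl
  refine (Finset.sum_le_sum this).trans ?_
  rw [Finset.sum_const, nsmul_eq_mul]
  refine le_of_eq ?_
  rw [Finset.card_univ]
  ring

lemma mean_four (g : Pt → Pt → Pt → Pt → ℝ) {B : ℝ} (hB : 0 ≤ B)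
    (hg : ∑ x ∈ box N, ∑ y ∈ box N, ∑ z ∈ box N, ∑ w ∈ box N, g x y z w ≤ B) :
    Ev (fun _ : κ => box N) (fun p => ∑ i, ∑ j, ∑ l, ∑ m,
      if i ≠ j ∧ i ≠ l ∧ i ≠ m ∧ j ≠ l ∧ j ≠ m ∧ l ≠ m then
      g (p i) (p j) (p l) (p m) else 0) ≤
      (Fintype.card κ : ℝ) ^ 4 * (B / (N : ℝ) ^ 12) := by
  have hN' : (0 : ℝ) < N := by exact_mod_cast hN
  have hκ : (univ : Finset κ).card = Fintype.card κ := rfl
  have e : (Fintype.card κ : ℝ) ^ 4 * (B / (N : ℝ) ^ 12) =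
      ∑ _i : κ, ∑ _j : κ, ∑ _l : κ, ∑ _m : κ, (B / (N : ℝ) ^ 12) := by
    simp only [Finset.sum_const, nsmul_eq_mul, hκ]
    ring
  rw [e, Ev_sum]
  refine Finset.sum_le_sum (fun i _ => ?_)
  rw [Ev_sum]
  refine Finset.sum_le_sum (fun j _ => ?_)
  rw [Ev_sum]
  refine Finset.sum_le_sum (fun l _ => ?_)
  rw [Ev_sum]
  refine Finset.sum_le_sum (fun m _ => ?_)
  by_cases h : i ≠ j ∧ i ≠ l ∧ i ≠ m ∧ j ≠ l ∧ j ≠ m ∧ l ≠ m
  · simp only [if_pos h]
    rw [Ev4 (Ypos hN) h.1 h.2.1 h.2.2.1 h.2.2.2.1 h.2.2.2.2.1 h.2.2.2.2.2 g]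
    simp only [av_box hN]
    simp only [← Finset.sum_div, div_div]
    have : (N : ℝ) ^ 3 * (N : ℝ) ^ 3 * (N : ℝ) ^ 3 * (N : ℝ) ^ 3 = (N : ℝ) ^ 12 := by ring
    rw [this]
    exact div_le_div_of_nonneg_right hg (by positivity)
  · simp only [if_neg h]
    rw [Ev_zero]
    positivity

end means

lemma sum_four_le (N : ℕ) :
    ∑ x ∈ box N, ∑ y ∈ box N, ∑ z ∈ box N, ∑ w ∈ box N, ip x y z w ≤
      C0 * (N : ℝ) ^ 9 * (1 + Real.log N) := by
  refine (Finset.sum_le_sum (fun x hx => sum_T3 hx)).trans ?_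
  rw [Finset.sum_const, nsmul_eq_mul, card_boxR]
  exact le_of_eq (by ring)

lemma sum_three_le (N : ℕ) :
    ∑ x ∈ box N, ∑ y ∈ box N, ∑ z ∈ box N, ic x y z ≤ 79 * (N : ℝ) ^ 6 := by
  refine (Finset.sum_le_sum (fun x hx => sum_T2 hx)).trans ?_
  rw [Finset.sum_const, nsmul_eq_mul, card_boxR]
  exact le_of_eq (by ring)

/-- sum over an injective image -/
lemma sum_inj_le {V κ : Type*} [Fintype κ] {A : Finset V} {φ : V → κ} (hφ : Set.InjOn φ A)
    (f : κ → ℝ) (hf : ∀ i, 0 ≤ f i) : ∑ v ∈ A, f (φ v) ≤ ∑ i, f i := by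
  rw [← Finset.sum_image (s := A) (g := φ) (f := f) (fun x hx y hy h => hφ hx hy h)]
  exact Finset.sum_le_sum_of_subset_of_nonneg (Finset.subset_univ _) (fun i _ _ => hf i)

section functionals

variable {κ : Type*} [Fintype κ] [DecidableEq κ]

/-- coincidences -/
def F1 (p : κ → Pt) : ℝ := ∑ i, ∑ j, if i ≠ j then (if p i = p j then (1 : ℝ) else 0) else 0
/-- collinear triples -/
def F2 (p : κ → Pt) : ℝ := ∑ i, ∑ j, ∑ l, if i ≠ j ∧ i ≠ l ∧ j ≠ l then
      ic (p i) (p j) (p l) else 0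
/-- coplanar quadruples -/
def F3 (p : κ → Pt) : ℝ := ∑ i, ∑ j, ∑ l, ∑ m,
      if i ≠ j ∧ i ≠ l ∧ i ≠ m ∧ j ≠ l ∧ j ≠ m ∧ l ≠ m then
      ip (p i) (p j) (p l) (p m) else 0
/-- pairs weighted by `KK` -/
def F4 (N : ℕ) (p : κ → Pt) : ℝ := ∑ i, ∑ j, if i ≠ j then KK N (p i) (p j) else 0
/-- triples weighted by `PP` -/
def F5 (N : ℕ) (p : κ → Pt) : ℝ := ∑ i, ∑ j, ∑ l, if i ≠ j ∧ i ≠ l ∧ j ≠ l then
      PP N (p i) (p j) (p l) else 0

lemma F1_nonneg (p : κ → Pt) : 0 ≤ F1 p :=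
    Finset.sum_nonneg (fun i _ => Finset.sum_nonneg (fun j _ => by split_ifs <;> norm_num))
lemma F2_nonneg (p : κ → Pt) : 0 ≤ F2 p :=
    Finset.sum_nonneg (fun i _ => Finset.sum_nonneg (fun j _ =>
        Finset.sum_nonneg (fun l _ => by
          split_ifs
          · exact ic_nonneg _ _ _
          · exact le_refl _)))
lemma F3_nonneg (p : κ → Pt) : 0 ≤ F3 p :=
    Finset.sum_nonneg (fun i _ => Finset.sum_nonneg (fun j _ =>
        Finset.sum_nonneg (fun l _ => Finset.sum_nonneg (fun m _ => by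
          split_ifs
          · exact ip_nonneg _ _ _ _
          · exact le_refl _))))
lemma F4_nonneg (N : ℕ) (p : κ → Pt) : 0 ≤ F4 N p :=
    Finset.sum_nonneg (fun i _ => Finset.sum_nonneg (fun j _ => by
        split_ifs
        · exact KK_nonneg _ _ _
        · exact le_refl _))
lemma F5_nonneg (N : ℕ) (p : κ → Pt) : 0 ≤ F5 N p :=
    Finset.sum_nonneg (fun i _ => Finset.sum_nonneg (fun j _ =>
        Finset.sum_nonneg (fun l _ => by
          split_ifs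
          · exact PP_nonneg _ _ _ _
          · exact le_refl _)))

/-- A point with all five functionals at most five times their mean. -/
lemma pool_sample {N : ℕ} (hN : 1 ≤ N) {a Lg : ℝ} (ha1 : 1 ≤ a) (hLg : Lg = 1 + Real.log N)
    (hcard : (Fintype.card κ : ℝ) = 2 * a) :
    ∃ p : κ → Pt, (∀ i, p i ∈ box N) ∧
      F1 p ≤ 5 * (4 * a ^ 2 / (N : ℝ) ^ 3) ∧
      F2 p ≤ 5 * (8 * a ^ 3 * C0 / (N : ℝ) ^ 3) ∧
      F3 p ≤ 5 * (16 * a ^ 4 * C0 * Lg / (N : ℝ) ^ 3) ∧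
      F4 N p ≤ 5 * (4 * a ^ 2 * C0 * (N : ℝ) ^ 3 * Lg) ∧
      F5 N p ≤ 5 * (8 * a ^ 3 * C0 * Lg) := by
  have hN' : (1 : ℝ) ≤ N := by exact_mod_cast hN
  have hlog : 0 ≤ Real.log N := Real.log_nonneg hN'
  have hC0 : (79 : ℝ) ≤ C0 := C0_ge
  have hNpos : (0 : ℝ) < N := by linarith
  have hC0pos : (0 : ℝ) < C0 := by linarith
  have hLgpos : (0 : ℝ) < Lg := by linarith
  have hapos : (0 : ℝ) < a := by linarith
  have m1 : Ev (fun _ : κ => box N) F1 ≤ 4 * a ^ 2 / (N : ℝ) ^ 3 := by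
    refine (mean1 hN (κ := κ)).trans (le_of_eq ?_)
    rw [hcard]
    ring
  have m2 : Ev (fun _ : κ => box N) F2 ≤ 8 * a ^ 3 * C0 / (N : ℝ) ^ 3 := by
    refine (mean_three hN (κ := κ) ic (B := C0 * (N : ℝ) ^ 6) (by positivity) ?_).trans
      (le_of_eq ?_)
    · refine (sum_three_le N).trans ?_
      exact mul_le_mul_of_nonneg_right hC0 (by positivity)
    · rw [hcard]
      field_simp
      ring
  have e4 := sum_four_le N
  rw [← hLg] at e4
  have m3 : Ev (fun _ : κ => box N) F3 ≤ 16 * a ^ 4 * C0 * Lg / (N : ℝ) ^ 3 := by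
    refine (mean_four hN (κ := κ) ip (B := C0 * (N : ℝ) ^ 9 * Lg) (by positivity)
      e4).trans (le_of_eq ?_)
    rw [hcard]
    field_simp
    ring
  have m4 : Ev (fun _ : κ => box N) (F4 N) ≤ 4 * a ^ 2 * C0 * (N : ℝ) ^ 3 * Lg := by
    refine (mean_two hN (κ := κ) (KK N) (B := C0 * (N : ℝ) ^ 9 * Lg) (by positivity)
      e4).trans (le_of_eq ?_)
    rw [hcard]
    field_simp
    ring
  have m5 : Ev (fun _ : κ => box N) (F5 N) ≤ 8 * a ^ 3 * C0 * Lg := by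
    refine (mean_three hN (κ := κ) (PP N) (B := C0 * (N : ℝ) ^ 9 * Lg) (by positivity)
      e4).trans (le_of_eq ?_)
    rw [hcard]
    field_simp
    ring
  obtain ⟨p, hp, hall⟩ := exists_all_le (Y := fun _ : κ => box N) (fun _ => box_nonempty hN)
    (![F1, F2, F3, F4 N, F5 N] : Fin 5 → (κ → Pt) → ℝ)
    ![4 * a ^ 2 / (N : ℝ) ^ 3, 8 * a ^ 3 * C0 / (N : ℝ) ^ 3,
      16 * a ^ 4 * C0 * Lg / (N : ℝ) ^ 3, 4 * a ^ 2 * C0 * (N : ℝ) ^ 3 * Lg,
      8 * a ^ 3 * C0 * Lg]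
    (by
      intro r
      fin_cases r
      · show 0 < 4 * a ^ 2 / (N : ℝ) ^ 3
        positivity
      · show 0 < 8 * a ^ 3 * C0 / (N : ℝ) ^ 3
        positivity
      · show 0 < 16 * a ^ 4 * C0 * Lg / (N : ℝ) ^ 3
        positivity
      · show 0 < 4 * a ^ 2 * C0 * (N : ℝ) ^ 3 * Lg
        positivity
      · show 0 < 8 * a ^ 3 * C0 * Lg
        positivity)
    (by
      intro r p _
      fin_cases r
      · exact F1_nonneg p
      · exact F2_nonneg p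
      · exact F3_nonneg p
      · exact F4_nonneg N p
      · exact F5_nonneg N p)
    (by
      intro r
      fin_cases r
      · exact m1
      · exact m2
      · exact m3
      · exact m4
      · exact m5)
  have h5 : (Fintype.card (Fin 5) : ℝ) = 5 := by simp
  rw [h5] at hall
  exact ⟨p, fun i => (Fintype.mem_piFinset.1 hp) i, hall 0, hall 1, hall 2, hall 3, hall 4⟩

/-- `i` is the first index of a coincidence, of a collinear triple or of a coplanar quadruple -/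
def BadIdx (p : κ → Pt) (i : κ) : Prop := (∃ j, i ≠ j ∧ p i = p j) ∨
    (∃ j l, (i ≠ j ∧ i ≠ l ∧ j ≠ l) ∧ Col (p i) (p j) (p l)) ∨
    (∃ j l m, (i ≠ j ∧ i ≠ l ∧ i ≠ m ∧ j ≠ l ∧ j ≠ m ∧ l ≠ m) ∧
      Cop (p i) (p j) (p l) (p m))

lemma bad_card (p : κ → Pt) : ((univ.filter (BadIdx p)).card : ℝ) ≤ F1 p + F2 p + F3 p := by
  have e1 : ((univ.filter (BadIdx p)).card : ℝ) = ∑ i, if BadIdx p i then (1 : ℝ) else 0 := by
    rw [Finset.card_filter]
    push_cast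
    rfl
  rw [e1]
  unfold F1 F2 F3
  rw [← Finset.sum_add_distrib, ← Finset.sum_add_distrib]
  refine Finset.sum_le_sum (fun i _ => ?_)
  have n1 : 0 ≤ ∑ j, (if i ≠ j then (if p i = p j then (1 : ℝ) else 0) else 0) :=
    Finset.sum_nonneg (fun j _ => by split_ifs <;> norm_num)
  have n2 : 0 ≤ ∑ j, ∑ l, (if i ≠ j ∧ i ≠ l ∧ j ≠ l then ic (p i) (p j) (p l) else 0) :=
    Finset.sum_nonneg (fun j _ => Finset.sum_nonneg (fun l _ => by
      split_ifs
      · exact ic_nonneg _ _ _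
      · exact le_refl _))
  have n3 : 0 ≤ ∑ j, ∑ l, ∑ m, (if i ≠ j ∧ i ≠ l ∧ i ≠ m ∧ j ≠ l ∧ j ≠ m ∧ l ≠ m then
      ip (p i) (p j) (p l) (p m) else 0) :=
    Finset.sum_nonneg (fun j _ => Finset.sum_nonneg (fun l _ => Finset.sum_nonneg (fun m _ => by
      split_ifs
      · exact ip_nonneg _ _ _ _
      · exact le_refl _)))
  by_cases hi : BadIdx p i
  · rw [if_pos hi]
    rcases hi with ⟨j, hj, hpj⟩ | ⟨j, l, hjl, hc⟩ | ⟨j, l, m, hjl, hc⟩
    · have : (1 : ℝ) ≤ ∑ j, (if i ≠ j then (if p i = p j then (1 : ℝ) else 0) else 0) := by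
        refine le_trans (le_of_eq ?_) (Finset.single_le_sum
          (f := fun j => (if i ≠ j then (if p i = p j then (1 : ℝ) else 0) else 0))
          (fun j _ => by split_ifs <;> norm_num) (Finset.mem_univ j))
        show (1 : ℝ) = (if i ≠ j then (if p i = p j then (1 : ℝ) else 0) else 0)
        rw [if_pos hj, if_pos hpj]
      linarith
    · have : (1 : ℝ) ≤ ∑ j, ∑ l,
          (if i ≠ j ∧ i ≠ l ∧ j ≠ l then ic (p i) (p j) (p l) else 0) := by
        refine le_trans ?_ (Finset.single_le_sum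
          (f := fun j => ∑ l, (if i ≠ j ∧ i ≠ l ∧ j ≠ l then ic (p i) (p j) (p l) else 0))
          (fun j _ => Finset.sum_nonneg (fun l _ => by
            split_ifs
            · exact ic_nonneg _ _ _
            · exact le_refl _)) (Finset.mem_univ j))
        refine le_trans (le_of_eq ?_) (Finset.single_le_sum
          (f := fun l => (if i ≠ j ∧ i ≠ l ∧ j ≠ l then ic (p i) (p j) (p l) else 0))
          (fun l _ => by
            split_ifs
            · exact ic_nonneg _ _ _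
            · exact le_refl _) (Finset.mem_univ l))
        show (1 : ℝ) = (if i ≠ j ∧ i ≠ l ∧ j ≠ l then ic (p i) (p j) (p l) else 0)
        rw [if_pos hjl]
        unfold ic
        rw [if_pos hc]
      linarith
    · have : (1 : ℝ) ≤ ∑ j, ∑ l, ∑ m, (if i ≠ j ∧ i ≠ l ∧ i ≠ m ∧ j ≠ l ∧ j ≠ m ∧ l ≠ m then
          ip (p i) (p j) (p l) (p m) else 0) := by
        refine le_trans ?_ (Finset.single_le_sum
          (f := fun j => ∑ l, ∑ m, (if i ≠ j ∧ i ≠ l ∧ i ≠ m ∧ j ≠ l ∧ j ≠ m ∧ l ≠ m then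
          ip (p i) (p j) (p l) (p m) else 0))
          (fun j _ => Finset.sum_nonneg (fun l _ => Finset.sum_nonneg (fun m _ => by
            split_ifs
            · exact ip_nonneg _ _ _ _
            · exact le_refl _))) (Finset.mem_univ j))
        refine le_trans ?_ (Finset.single_le_sum
          (f := fun l => ∑ m, (if i ≠ j ∧ i ≠ l ∧ i ≠ m ∧ j ≠ l ∧ j ≠ m ∧ l ≠ m then
          ip (p i) (p j) (p l) (p m) else 0))
          (fun l _ => Finset.sum_nonneg (fun m _ => by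
            split_ifs
            · exact ip_nonneg _ _ _ _
            · exact le_refl _)) (Finset.mem_univ l))
        refine le_trans (le_of_eq ?_) (Finset.single_le_sum
          (f := fun m => (if i ≠ j ∧ i ≠ l ∧ i ≠ m ∧ j ≠ l ∧ j ≠ m ∧ l ≠ m then
          ip (p i) (p j) (p l) (p m) else 0))
          (fun m _ => by
            split_ifs
            · exact ip_nonneg _ _ _ _
            · exact le_refl _) (Finset.mem_univ m))
        show (1 : ℝ) = (if i ≠ j ∧ i ≠ l ∧ i ≠ m ∧ j ≠ l ∧ j ≠ m ∧ l ≠ m then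
          ip (p i) (p j) (p l) (p m) else 0)
        rw [if_pos hjl]
        unfold ip
        rw [if_pos hc]
      linarith
  · rw [if_neg hi]
    linarith

lemma F4_restrict {V : Type*} [DecidableEq V] {A : Finset V} {φ : V → κ} (hφ : Set.InjOn φ A)
    (N : ℕ) (p : κ → Pt) :
    (∑ u ∈ A, ∑ v ∈ A, if u ≠ v then KK N (p (φ u)) (p (φ v)) else 0) ≤ F4 N p := by
  have nn : ∀ i j : κ, 0 ≤ (if i ≠ j then KK N (p i) (p j) else 0) := by
    intro i j
    split_ifs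
    · exact KK_nonneg _ _ _
    · exact le_refl _
  unfold F4
  refine le_trans ?_ (sum_inj_le hφ (fun i => ∑ j, if i ≠ j then KK N (p i) (p j) else 0)
    (fun i => Finset.sum_nonneg (fun j _ => nn i j)))
  refine Finset.sum_le_sum (fun u hu => ?_)
  refine le_trans (le_of_eq ?_) (sum_inj_le hφ
    (fun j => if φ u ≠ j then KK N (p (φ u)) (p j) else 0) (fun j => nn _ j))
  refine Finset.sum_congr rfl (fun v hv => ?_)
  by_cases h : u = v
  · rw [if_neg (not_not.2 h), if_neg (not_not.2 (by rw [h]))]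
  · rw [if_pos h, if_pos (fun h' => h (hφ hu hv h'))]

lemma F5_restrict {V : Type*} [DecidableEq V] {A : Finset V} {φ : V → κ} (hφ : Set.InjOn φ A)
    (N : ℕ) (p : κ → Pt) :
    (∑ u ∈ A, ∑ v ∈ A, ∑ w ∈ A, if u ≠ v ∧ u ≠ w ∧ v ≠ w then
      PP N (p (φ u)) (p (φ v)) (p (φ w)) else 0) ≤ F5 N p := by
  have nn : ∀ i j l : κ, 0 ≤ (if i ≠ j ∧ i ≠ l ∧ j ≠ l then PP N (p i) (p j) (p l) else 0) := by
    intro i j l
    split_ifs
    · exact PP_nonneg _ _ _ _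
    · exact le_refl _
  unfold F5
  refine le_trans ?_ (sum_inj_le hφ (fun i => ∑ j, ∑ l,
    if i ≠ j ∧ i ≠ l ∧ j ≠ l then PP N (p i) (p j) (p l) else 0)
    (fun i => Finset.sum_nonneg (fun j _ => Finset.sum_nonneg (fun l _ => nn i j l))))
  refine Finset.sum_le_sum (fun u hu => ?_)
  refine le_trans ?_ (sum_inj_le hφ (fun j => ∑ l,
    if φ u ≠ j ∧ φ u ≠ l ∧ j ≠ l then PP N (p (φ u)) (p j) (p l) else 0)
    (fun j => Finset.sum_nonneg (fun l _ => nn _ j l)))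
  refine Finset.sum_le_sum (fun v hv => ?_)
  refine le_trans (le_of_eq ?_) (sum_inj_le hφ (fun l =>
    if φ u ≠ φ v ∧ φ u ≠ l ∧ φ v ≠ l then PP N (p (φ u)) (p (φ v)) (p l) else 0)
    (fun l => nn _ _ l))
  refine Finset.sum_congr rfl (fun w hw => ?_)
  by_cases h : u ≠ v ∧ u ≠ w ∧ v ≠ w
  · rw [if_pos h, if_pos ⟨fun h' => h.1 (hφ hu hv h'), fun h' => h.2.1 (hφ hu hw h'),
      fun h' => h.2.2 (hφ hv hw h')⟩]
  · rw [if_neg h, if_neg]
    rintro ⟨h1, h2, h3⟩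
    exact h ⟨fun e => h1 (by rw [e]), fun e => h2 (by rw [e]), fun e => h3 (by rw [e])⟩

end functionals

lemma pool_num {a N Lg : ℝ} (ha1 : 1 ≤ a) (hN : 1 ≤ N) (hLg : 1 ≤ Lg)
    (hA : 140 * C0 * Lg * a ^ 3 ≤ N ^ 3) :
    5 * (4 * a ^ 2 / N ^ 3) + 5 * (8 * a ^ 3 * C0 / N ^ 3) +
        5 * (16 * a ^ 4 * C0 * Lg / N ^ 3) ≤ a := by
  have hC0 : (79 : ℝ) ≤ C0 := C0_ge
  have hC0pos : (0 : ℝ) < C0 := by linarith
  have e : 5 * (4 * a ^ 2 / N ^ 3) + 5 * (8 * a ^ 3 * C0 / N ^ 3) +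
    5 * (16 * a ^ 4 * C0 * Lg / N ^ 3) =
    (20 * a ^ 2 + 40 * a ^ 3 * C0 + 80 * a ^ 4 * C0 * Lg) / N ^ 3 := by
    ring
  rw [e, div_le_iff₀ (by positivity)]
  have g0 : (1 : ℝ) ≤ C0 * Lg := by nlinarith
  have f1 : a ^ 2 ≤ a ^ 4 * C0 * Lg := by
    have g1 : a ^ 2 * 1 ≤ a ^ 2 * a ^ 2 :=
      mul_le_mul_of_nonneg_left (by nlinarith) (by positivity)
    have g3 : a ^ 4 * 1 ≤ a ^ 4 * (C0 * Lg) :=
      mul_le_mul_of_nonneg_left g0 (by positivity)
    calc a ^ 2 = a ^ 2 * 1 := by ring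
      _ ≤ a ^ 2 * a ^ 2 := g1
      _ = a ^ 4 * 1 := by ring
      _ ≤ a ^ 4 * (C0 * Lg) := g3
      _ = a ^ 4 * C0 * Lg := by ring
  have f2 : a ^ 3 * C0 ≤ a ^ 4 * C0 * Lg := by
    have g1 : a ^ 3 * C0 * 1 ≤ a ^ 3 * C0 * (a * Lg) :=
      mul_le_mul_of_nonneg_left (by nlinarith) (by positivity)
    calc a ^ 3 * C0 = a ^ 3 * C0 * 1 := by ring
      _ ≤ a ^ 3 * C0 * (a * Lg) := g1
      _ = a ^ 4 * C0 * Lg := by ring
  have f3 : a * (140 * C0 * Lg * a ^ 3) ≤ a * N ^ 3 :=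
    mul_le_mul_of_nonneg_left hA (by positivity)
  calc 20 * a ^ 2 + 40 * a ^ 3 * C0 + 80 * a ^ 4 * C0 * Lg ≤ a * (140 * C0 * Lg * a ^ 3) := by
        linarith
    _ ≤ a * N ^ 3 := f3

/-- **POOL LEMMA.** -/
theorem pool {V : Type*} [DecidableEq V] (A : Finset V) {N : ℕ} (hN : 1 ≤ N)
    (hA : 140 * C0 * (1 + Real.log N) * (A.card : ℝ) ^ 3 ≤ (N : ℝ) ^ 3) :
    ∃ h : V → Pt, (∀ v ∈ A, h v ∈ box N) ∧
      (∀ u ∈ A, ∀ v ∈ A, u ≠ v → h u ≠ h v) ∧
      (∀ u ∈ A, ∀ v ∈ A, ∀ w ∈ A, u ≠ v → u ≠ w → v ≠ w → ¬ Col (h u) (h v) (h w)) ∧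
      (∀ a ∈ A, ∀ b ∈ A, ∀ c ∈ A, ∀ d ∈ A, a ≠ b → a ≠ c → a ≠ d → b ≠ c → b ≠ d → c ≠ d →
        ¬ Cop (h a) (h b) (h c) (h d)) ∧
      (∑ u ∈ A, ∑ v ∈ A, if u ≠ v then KK N (h u) (h v) else 0) ≤
        20 * C0 * (A.card : ℝ) ^ 2 * (N : ℝ) ^ 3 * (1 + Real.log N) ∧
      (∑ u ∈ A, ∑ v ∈ A, ∑ w ∈ A, if u ≠ v ∧ u ≠ w ∧ v ≠ w then PP N (h u) (h v) (h w) else 0) ≤
        40 * C0 * (A.card : ℝ) ^ 3 * (1 + Real.log N) := by
  have hN' : (1 : ℝ) ≤ N := by exact_mod_cast hN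
  have hlog : 0 ≤ Real.log N := Real.log_nonneg hN'
  rcases Nat.eq_zero_or_pos A.card with h0 | hpos
  · have : A = ∅ := Finset.card_eq_zero.1 h0
    subst this
    refine ⟨fun _ => 0, ?_, ?_, ?_, ?_, ?_, ?_⟩ <;> simp
  have ha1 : (1 : ℝ) ≤ (A.card : ℝ) := by exact_mod_cast hpos
  obtain ⟨p, hpbox, hp1, hp2, hp3, hp4, hp5⟩ := pool_sample (κ := Fin (2 * A.card)) hN ha1 rfl
    (by simp)
  have hDa : (univ.filter (BadIdx p)).card ≤ A.card := by
    have h2 : ((univ.filter (BadIdx p)).card : ℝ) ≤ A.card := by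
      have h1 := bad_card p
      have h3 := pool_num ha1 hN' (by linarith : 1 ≤ 1 + Real.log N) hA
      linarith
    exact_mod_cast h2
  have hcompl : A.card ≤ (univ \ univ.filter (BadIdx p)).card := by
    rw [Finset.card_sdiff_of_subset (Finset.subset_univ _), Finset.card_univ, Fintype.card_fin]
    omega
  obtain ⟨φ, hφ1, hφ2⟩ : ∃ φ : V → Fin (2 * A.card), Set.InjOn φ A ∧
      ∀ v ∈ A, ¬ BadIdx p (φ v) := by
    have hc : Fintype.card A ≤ Fintype.card (univ \ univ.filter (BadIdx p) : Finset _) := by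
      rw [Fintype.card_coe, Fintype.card_coe]
      exact hcompl
    obtain ⟨f⟩ := Function.Embedding.nonempty_of_card_le hc
    have hk : 0 < 2 * A.card := by omega
    refine ⟨fun v => if hv : v ∈ A then (f ⟨v, hv⟩ : Fin (2 * A.card)) else ⟨0, hk⟩, ?_, ?_⟩
    · intro u hu v hv huv
      have hu' : u ∈ A := hu
      have hv' : v ∈ A := hv
      simp only [hu', hv', dif_pos] at huv
      have := f.injective (Subtype.ext huv)
      simpa using this
    · intro v hv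
      simp only [hv, dif_pos]
      have := (f ⟨v, hv⟩).2
      rw [Finset.mem_sdiff, Finset.mem_filter] at this
      exact fun h => this.2 ⟨Finset.mem_univ _, h⟩
  have hne : ∀ u ∈ A, ∀ v ∈ A, u ≠ v → φ u ≠ φ v := fun u hu v hv h h' => h (hφ1 hu hv h')
  refine ⟨fun v => p (φ v), ?_, ?_, ?_, ?_, ?_, ?_⟩
  · exact fun v _ => hpbox _
  · intro u hu v hv huv h
    exact hφ2 u hu (Or.inl ⟨φ v, hne u hu v hv huv, h⟩)
  · intro u hu v hv w hw huv huw hvw h
    exact hφ2 u hu (Or.inr (Or.inl ⟨φ v, φ w, ⟨hne u hu v hv huv, hne u hu w hw huw,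
      hne v hv w hw hvw⟩, h⟩))
  · intro a ha b hb c hc d hd hab hac had hbc hbd hcd h
    exact hφ2 a ha (Or.inr (Or.inr ⟨φ b, φ c, φ d, ⟨hne a ha b hb hab, hne a ha c hc hac,
      hne a ha d hd had, hne b hb c hc hbc, hne b hb d hd hbd, hne c hc d hd hcd⟩, h⟩))
  · exact (F4_restrict hφ1 N p).trans (hp4.trans (le_of_eq (by ring)))
  · exact (F5_restrict hφ1 N p).trans (hp5.trans (le_of_eq (by ring)))

end

end Pool.Agent.Grid3D
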