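import Mathlib

set_option autoImplicit false

/-! A counting version of the local lemma (variable setting). -/

namespace Pool.Agent.Grid3D

open Finset Classical

section

variable {V β ι : Type*} [Fintype V] [DecidableEq V]

/-- Independence of events on disjoint sets of coordinates. -/
lemma indep_card (Y : V → Finset β) (D2 : Finset V) (A B : (V → β) → Prop)
    (hA : ∀ p ∈ Fintype.piFinset Y, ∀ p' ∈ Fintype.piFinset Y,
      (∀ v, v ∉ D2 → p v = p' v) → A p → A p')
    (hB : ∀ p ∈ Fintype.piFinset Y, ∀ p' ∈ Fintype.piFinset Y,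
      (∀ v ∈ D2, p v = p' v) → B p → B p') :
    ((Fintype.piFinset Y).filter (fun p => A p ∧ B p)).card * (Fintype.piFinset Y).card =
    ((Fintype.piFinset Y).filter A).card * ((Fintype.piFinset Y).filter B).card := by
  have key : ∀ p q : V → β, p ∈ Fintype.piFinset Y → q ∈ Fintype.piFinset Y →
      (fun v => if v ∈ D2 then q v else p v) ∈ Fintype.piFinset Y := by
    intro p q hp hq
    rw [Fintype.mem_piFinset] at hp hq ⊢
    intro v
    by_cases h : v ∈ D2
    · simpa [h] using hq v
    · simpa [h] using hp v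
  rw [← Finset.card_product, ← Finset.card_product]
  refine Finset.card_nbij'
    (fun x => (fun v => if v ∈ D2 then x.2 v else x.1 v, fun v => if v ∈ D2 then x.1 v else x.2 v))
    (fun x => (fun v => if v ∈ D2 then x.2 v else x.1 v, fun v => if v ∈ D2 then x.1 v else x.2 v))
    ?_ ?_ ?_ ?_
  · rintro ⟨p, q⟩ h
    simp only [Finset.coe_product, Set.mem_prod, Finset.mem_coe, Finset.mem_filter] at h ⊢
    obtain ⟨⟨hp, hAp, hBp⟩, hq⟩ := h
    refine ⟨⟨key p q hp hq, ?_⟩, ⟨key q p hq hp, ?_⟩⟩
    · exact hA p hp _ (key p q hp hq) (fun v hv => by simp [hv]) hAp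
    · exact hB p hp _ (key q p hq hp) (fun v hv => by simp [hv]) hBp
  · rintro ⟨p, q⟩ h
    simp only [Finset.coe_product, Set.mem_prod, Finset.mem_coe, Finset.mem_filter] at h ⊢
    obtain ⟨⟨hp, hAp⟩, hq, hBq⟩ := h
    refine ⟨⟨key p q hp hq, ?_, ?_⟩, key q p hq hp⟩
    · exact hA p hp _ (key p q hp hq) (fun v hv => by simp [hv]) hAp
    · exact hB q hq _ (key p q hp hq) (fun v hv => by simp [hv]) hBq
  · rintro ⟨p, q⟩ _
    ext v <;> simp only <;> split_ifs <;> rfl
  · rintro ⟨p, q⟩ _
    ext v <;> simp only <;> split_ifs <;> rfl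

/-- Summation of a function of few coordinates. -/
lemma sum_comp_inj {κ : Type*} [Fintype κ] [DecidableEq κ] (Y : V → Finset β) (i : κ → V)
    (hi : Function.Injective i) (g : (κ → β) → ℝ) :
    (∑ p ∈ Fintype.piFinset Y, g (p ∘ i)) * ((Fintype.piFinset (fun j => Y (i j))).card : ℝ) =
      ((Fintype.piFinset Y).card : ℝ) * ∑ y ∈ Fintype.piFinset (fun j => Y (i j)), g y := by
  have h1 : (∑ p ∈ Fintype.piFinset Y, g (p ∘ i)) *
      ((Fintype.piFinset (fun j => Y (i j))).card : ℝ) =
      ∑ x ∈ Fintype.piFinset Y ×ˢ Fintype.piFinset (fun j => Y (i j)), g (x.1 ∘ i) := by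
    rw [Finset.sum_product, Finset.sum_mul]
    refine Finset.sum_congr rfl fun p _ => ?_
    show _ = ∑ _y ∈ Fintype.piFinset fun j => Y (i j), g (p ∘ i)
    rw [Finset.sum_const, nsmul_eq_mul, mul_comm]
  have h2 : ((Fintype.piFinset Y).card : ℝ) * ∑ y ∈ Fintype.piFinset (fun j => Y (i j)), g y =
      ∑ x ∈ Fintype.piFinset Y ×ˢ Fintype.piFinset (fun j => Y (i j)), g x.2 := by
    rw [Finset.sum_product]
    show _ = ∑ _x ∈ Fintype.piFinset Y, ∑ y ∈ Fintype.piFinset fun j => Y (i j), g y
    rw [Finset.sum_const, nsmul_eq_mul]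
  rw [h1, h2]
  have hinv : ∀ p : V → β, ∀ y : κ → β, Function.extend i (p ∘ i) (Function.extend i y p) = p := by
    intro p y
    ext v
    by_cases h : ∃ j, i j = v
    · obtain ⟨j, rfl⟩ := h
      rw [hi.extend_apply]; rfl
    · rw [Function.extend_apply' _ _ _ h, Function.extend_apply' _ _ _ h]
  have hinv2 : ∀ p : V → β, ∀ y : κ → β, Function.extend i y p ∘ i = y := by
    intro p y
    ext j
    simp [hi.extend_apply]
  have hmem : ∀ p : V → β, ∀ y : κ → β, p ∈ Fintype.piFinset Y →
      y ∈ Fintype.piFinset (fun j => Y (i j)) → Function.extend i y p ∈ Fintype.piFinset Y := by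
    intro p y hp hy
    rw [Fintype.mem_piFinset] at hp hy ⊢
    intro v
    by_cases h : ∃ j, i j = v
    · obtain ⟨j, rfl⟩ := h
      rw [hi.extend_apply]; exact hy j
    · rw [Function.extend_apply' _ _ _ h]; exact hp v
  refine Finset.sum_nbij' (fun x => (Function.extend i x.2 x.1, x.1 ∘ i))
    (fun x => (Function.extend i x.2 x.1, x.1 ∘ i)) ?_ ?_ ?_ ?_ ?_
  · rintro ⟨p, y⟩ h
    rw [Finset.mem_product] at h ⊢
    refine ⟨hmem p y h.1 h.2, ?_⟩
    have := h.1
    rw [Fintype.mem_piFinset] at this ⊢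
    exact fun j => this (i j)
  · rintro ⟨p, y⟩ h
    rw [Finset.mem_product] at h ⊢
    refine ⟨hmem p y h.1 h.2, ?_⟩
    have := h.1
    rw [Fintype.mem_piFinset] at this ⊢
    exact fun j => this (i j)
  · rintro ⟨p, y⟩ _
    simp only [hinv, hinv2]
  · rintro ⟨p, y⟩ _
    simp only [hinv, hinv2]
  · rintro ⟨p, y⟩ _
    rfl

/-- The counting local lemma. -/
theorem counting_lll (Y : V → Finset β) (hY : ∀ v, (Y v).Nonempty)
    (Gd : Finset V → (V → β) → Prop)
    (hG0 : ∀ p ∈ Fintype.piFinset Y, Gd ∅ p)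
    (hmono : ∀ (S S' : Finset V) (p : V → β), S ⊆ S' → Gd S' p → Gd S p)
    (hdep : ∀ (S : Finset V), ∀ p ∈ Fintype.piFinset Y, ∀ p' ∈ Fintype.piFinset Y,
      (∀ v ∈ S, p v = p' v) → Gd S p → Gd S p')
    (F : V → Finset ι) (supp : V → ι → Finset V) (bad : V → ι → (V → β) → Prop)
    (hbdep : ∀ (v : V) (τ : ι), ∀ p ∈ Fintype.piFinset Y, ∀ p' ∈ Fintype.piFinset Y,
      (∀ u ∈ supp v τ, p u = p' u) → bad v τ p → bad v τ p')
    (hv : ∀ v, ∀ τ ∈ F v, v ∈ supp v τ)
    (hstep : ∀ (S : Finset V) (v : V), ∀ p ∈ Fintype.piFinset Y, v ∉ S → Gd S p →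
      ¬ Gd (insert v S) p →
      ∃ τ ∈ F v, supp v τ ⊆ insert v S ∧ bad v τ p)
    (hsum : ∀ v, ∑ τ ∈ F v, (2 : ℝ) ^ ((supp v τ).card - 1) *
      (((Fintype.piFinset Y).filter (bad v τ)).card : ℝ) ≤
      ((Fintype.piFinset Y).card : ℝ) / 2) :
    ∃ p ∈ Fintype.piFinset Y, Gd univ p := by
  set Ω := Fintype.piFinset Y with hΩ
  have hΩne : Ω.Nonempty := by
    choose x hx using hY
    exact ⟨x, by simp [hΩ, hx]⟩
  have hΩpos : (0 : ℝ) < Ω.card := by exact_mod_cast hΩne.card_pos
  set g : Finset V → ℝ := fun S => ((Ω.filter (Gd S)).card : ℝ) with hg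
  have hg0 : ∀ S, 0 ≤ g S := fun S => by positivity
  -- main claim
  have claim : ∀ m : ℕ, ∀ S : Finset V, S.card = m → ∀ v, v ∉ S → g S ≤ 2 * g (insert v S) := by
    intro m
    induction m using Nat.strong_induction_on with
    | _ m ih =>
    intro S hS v hvS
    -- adding elements back
    have back : ∀ U : Finset V, U ⊆ S → g (S \ U) ≤ 2 ^ U.card * g S := by
      intro U
      induction U using Finset.induction_on with
      | empty => intro _; simp
      | insert u U' hu ih' =>
        intro hUS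
        have hu_mem : u ∈ S := hUS (Finset.mem_insert_self _ _)
        have hU'S : U' ⊆ S := fun x hx => hUS (Finset.mem_insert_of_mem hx)
        have e1 : insert u (S \ insert u U') = S \ U' := by
          ext x
          simp only [Finset.mem_insert, Finset.mem_sdiff]
          constructor
          · rintro (rfl | ⟨h1, h2⟩)
            · exact ⟨hu_mem, hu⟩
            · exact ⟨h1, fun h => h2 (Or.inr h)⟩
          · rintro ⟨h1, h2⟩
            by_cases hxu : x = u
            · exact Or.inl hxu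
            · exact Or.inr ⟨h1, fun h => h.elim hxu h2⟩
        have hcard : (S \ insert u U').card < m := by
          rw [← hS]
          refine Finset.card_lt_card ?_
          rw [Finset.ssubset_iff_subset_ne]
          refine ⟨Finset.sdiff_subset, fun h => ?_⟩
          have : u ∈ S \ insert u U' := by rw [h]; exact hu_mem
          simp at this
        have h1 := ih _ hcard (S \ insert u U') rfl u (by simp)
        rw [e1] at h1
        have h2 := ih' hU'S
        rw [Finset.card_insert_of_notMem hu, pow_succ]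
        nlinarith
    -- the set of newly bad assignments
    have hsub : Ω.filter (Gd S) ⊆ Ω.filter (Gd (insert v S)) ∪
        ((F v).filter (fun τ => supp v τ ⊆ insert v S)).biUnion
          (fun τ => Ω.filter (fun p => Gd (S \ supp v τ) p ∧ bad v τ p)) := by
      intro p hp
      rw [Finset.mem_filter] at hp
      by_cases hG : Gd (insert v S) p
      · exact Finset.mem_union_left _ (Finset.mem_filter.2 ⟨hp.1, hG⟩)
      · obtain ⟨τ, hτ, hs, hb⟩ := hstep S v p hp.1 hvS hp.2 hG
        refine Finset.mem_union_right _ (Finset.mem_biUnion.2 ⟨τ, Finset.mem_filter.2 ⟨hτ, hs⟩, ?_⟩)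
        exact Finset.mem_filter.2 ⟨hp.1, hmono _ _ p Finset.sdiff_subset hp.2, hb⟩
    have hcard : g S ≤ g (insert v S) + ∑ τ ∈ (F v).filter (fun τ => supp v τ ⊆ insert v S),
        ((Ω.filter (fun p => Gd (S \ supp v τ) p ∧ bad v τ p)).card : ℝ) := by
      have h1 := (Finset.card_le_card hsub).trans (Finset.card_union_le _ _)
      have h2 := Finset.card_biUnion_le (s := (F v).filter (fun τ => supp v τ ⊆ insert v S))
        (t := fun τ => Ω.filter (fun p => Gd (S \ supp v τ) p ∧ bad v τ p))
      have h3 := h1.trans (Nat.add_le_add_left h2 _)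
      simp only [hg]
      exact_mod_cast h3
    have hind : ∀ τ ∈ (F v).filter (fun τ => supp v τ ⊆ insert v S),
        ((Ω.filter (fun p => Gd (S \ supp v τ) p ∧ bad v τ p)).card : ℝ) ≤
        g S * ((2 : ℝ) ^ ((supp v τ).card - 1) * ((Ω.filter (bad v τ)).card : ℝ)) / Ω.card := by
      intro τ hτ
      rw [Finset.mem_filter] at hτ
      have hi := indep_card Y (supp v τ) (Gd (S \ supp v τ)) (bad v τ)
        (fun p hp p' hp' h => hdep _ p hp p' hp' (fun v hv => h v (Finset.mem_sdiff.1 hv).2))
        (fun p hp p' hp' h => hbdep v τ p hp p' hp' h)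
      have hi' : ((Ω.filter (fun p => Gd (S \ supp v τ) p ∧ bad v τ p)).card : ℝ) * (Ω.card : ℝ) =
          g (S \ supp v τ) * ((Ω.filter (bad v τ)).card : ℝ) := by
        simp only [hg]
        exact_mod_cast hi
      rw [le_div_iff₀ hΩpos, hi']
      have hvτ := hv v τ hτ.1
      have e2 : S \ supp v τ = S \ (supp v τ).erase v := by
        ext x
        simp only [Finset.mem_sdiff, Finset.mem_erase]
        constructor
        · rintro ⟨h1, h2⟩; exact ⟨h1, fun h => h2 h.2⟩
        · rintro ⟨h1, h2⟩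
          refine ⟨h1, fun h => h2 ⟨?_, h⟩⟩
          rintro rfl
          exact hvS h1
      have h4 : g (S \ supp v τ) ≤ 2 ^ ((supp v τ).card - 1) * g S := by
        rw [e2]
        have h5 := back ((supp v τ).erase v) (fun x hx => by
          have h6 := Finset.mem_erase.1 hx
          rcases Finset.mem_insert.1 (hτ.2 h6.2) with h | h
          · exact absurd h h6.1
          · exact h)
        rwa [Finset.card_erase_of_mem hvτ] at h5
      have h7 : (0 : ℝ) ≤ ((Ω.filter (bad v τ)).card : ℝ) := by positivity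
      nlinarith
    have htot : ∑ τ ∈ (F v).filter (fun τ => supp v τ ⊆ insert v S),
        ((Ω.filter (fun p => Gd (S \ supp v τ) p ∧ bad v τ p)).card : ℝ) ≤ g S / 2 := by
      refine (Finset.sum_le_sum hind).trans ?_
      rw [← Finset.sum_div, ← Finset.mul_sum]
      rw [div_le_iff₀ hΩpos]
      have h8 : ∑ τ ∈ (F v).filter (fun τ => supp v τ ⊆ insert v S),
          ((2 : ℝ) ^ ((supp v τ).card - 1) * ((Ω.filter (bad v τ)).card : ℝ)) ≤
          ∑ τ ∈ F v, ((2 : ℝ) ^ ((supp v τ).card - 1) * ((Ω.filter (bad v τ)).card : ℝ)) :=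
        Finset.sum_le_sum_of_subset_of_nonneg (Finset.filter_subset _ _)
          (fun _ _ _ => by positivity)
      have h9 := h8.trans (hsum v)
      have h10 := hg0 S
      nlinarith
    linarith
  -- conclusion
  have fin : ∀ S : Finset V, 0 < g S := by
    intro S
    induction S using Finset.induction_on with
    | empty =>
      have : Ω.filter (Gd ∅) = Ω := Finset.filter_true_of_mem (fun p hp => hG0 p hp)
      simp only [hg, this]
      exact hΩpos
    | insert v S hvS ih =>
      have := claim S.card S rfl v hvS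
      linarith
  have := fin univ
  have hpos : 0 < (Ω.filter (Gd univ)).card := by
    simp only [hg] at this
    exact_mod_cast this
  obtain ⟨p, hp⟩ := Finset.card_pos.1 hpos
  rw [Finset.mem_filter] at hp
  exact ⟨p, hp.1, hp.2⟩

end

end Pool.Agent.Grid3D
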