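import Pool.Agent.Grid3D.Rest

/-!
# Regime 1: MP' for spread marks
-/

set_option autoImplicit false

open Classical Finset

noncomputable section

namespace Pool.Agent.Grid3D
namespace Rest

open Geo2

variable {P : Params}

lemma dot_neg_left (m y : Pt) : dot (-m) y = - dot m y := by
  simp [dot]; ring

/-- one step: the joint kill probability is bounded by the hazard of the only small plane
through `a, b` and the rest term -/
lemma p2_le {s : ℕ} {ω : ℕ → Pt} {a b m0 : Pt} (hm0 : m0 ∈ normals P.M)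
    (hu : ∀ m ∈ normals P.M, dot m a = dot m b → m = m0 ∨ m = -m0) :
    P.p2 s ω a b ≤ P.phP s ω m0 (dot m0 a) + 2 * P.om / P.V * ((P.R s ω a b).card : ℝ) := by
  have hf := fac_nonneg (P := P)
  have hVpos := P.V_pos
  have hsub : ∑ u ∈ P.K s ω a ∩ P.K s ω b, P.pr s ω u ≤
      ∑ u ∈ P.R s ω a b, P.pr s ω u +
        ∑ u ∈ (P.K s ω a ∩ P.K s ω b).filter (fun u => u ∉ P.R s ω a b), P.pr s ω u := by
    rw [← Finset.sum_filter_add_sum_filter_not (P.K s ω a ∩ P.K s ω b)
      (fun u => u ∈ P.R s ω a b)]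
    apply add_le_add_left
    apply Finset.sum_le_sum_of_subset_of_nonneg
    · intro u hu
      exact (Finset.mem_filter.1 hu).2
    · intro u _ _
      exact P.pr_nonneg s ω u
  have h1 : ∑ u ∈ P.R s ω a b, P.pr s ω u ≤ 2 * P.om / P.V * ((P.R s ω a b).card : ℝ) := by
    calc ∑ u ∈ P.R s ω a b, P.pr s ω u ≤ ∑ _u ∈ P.R s ω a b, 2 * P.om / P.V :=
          Finset.sum_le_sum (fun u _ => P.pr_le_om s ω u)
      _ = _ := by rw [Finset.sum_const, nsmul_eq_mul]; ring
  have h2 : ∑ u ∈ (P.K s ω a ∩ P.K s ω b).filter (fun u => u ∉ P.R s ω a b), P.pr s ω u ≤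
      P.phP s ω m0 (dot m0 a) := by
    have key : ∀ u ∈ (P.K s ω a ∩ P.K s ω b).filter (fun u => u ∉ P.R s ω a b),
        P.pr s ω u ≠ 0 → dot m0 u = dot m0 a ∧ P.admP s ω m0 (dot m0 a) := by
      intro u hu' hpr
      have hact := (P.go_of_pr hpr).2
      rw [Finset.mem_filter] at hu'
      have hnR : ¬ (∀ m ∈ normals P.M, dot m a = dot m b → dot m u = dot m b →
          ¬ P.admP s ω m (dot m b)) := by
        intro hcon
        apply hu'.2
        simp only [Params.R, Finset.mem_filter, Finset.mem_inter]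
        rw [Finset.mem_inter] at hu'
        exact ⟨⟨hact, hu'.1⟩, hcon⟩
      push Not at hnR
      obtain ⟨m, hm, e1, e2, c, d, hcd, e3, e4⟩ := hnR
      rcases hu m hm e1 with h | h
      · subst h
        exact ⟨by rw [e2, e1], c, d, hcd, by rw [e3, e1], by rw [e4, e1]⟩
      · subst h
        rw [dot_neg_left] at e1 e2 e3 e4
        rw [dot_neg_left] at e1 e2 e3 e4
        refine ⟨by linarith, c, d, hcd, by linarith, by linarith⟩
    rw [P.phP_eq]
    split_ifs with hadm
    · calc ∑ u ∈ (P.K s ω a ∩ P.K s ω b).filter (fun u => u ∉ P.R s ω a b), P.pr s ω u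
          ≤ ∑ u ∈ plane P.N m0 (dot m0 a), P.pr s ω u := by
            rw [← Finset.sum_filter_ne_zero (s := (P.K s ω a ∩ P.K s ω b).filter
              (fun u => u ∉ P.R s ω a b))]
            apply Finset.sum_le_sum_of_subset_of_nonneg
            · intro u hu'
              rw [Finset.mem_filter] at hu'
              have h3 := key u hu'.1 hu'.2
              rw [plane, Finset.mem_filter]
              refine ⟨?_, h3.1⟩
              have h4 := hu'.1
              rw [Finset.mem_filter, Finset.mem_inter, P.mem_K] at h4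
              exact h4.1.1.1
            · intro u _ _
              exact P.pr_nonneg s ω u
        _ ≤ ∑ u ∈ plane P.N m0 (dot m0 a), 2 / P.V * P.wa s ω u :=
            Finset.sum_le_sum (fun u _ => P.pr_le_wa s ω u)
        _ = _ := by rw [Finset.mul_sum]
    · apply le_of_eq
      apply Finset.sum_eq_zero
      intro u hu'
      by_contra hpr
      exact hadm (key u hu' hpr).2
  unfold Params.p2
  linarith

/-- one step, no small plane through `a, b` -/
lemma p2_le' {s : ℕ} {ω : ℕ → Pt} {a b : Pt}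
    (hu : ∀ m ∈ normals P.M, dot m a ≠ dot m b) :
    P.p2 s ω a b ≤ 2 * P.om / P.V * ((P.R s ω a b).card : ℝ) := by
  have h1 : ∑ u ∈ P.K s ω a ∩ P.K s ω b, P.pr s ω u ≤ ∑ u ∈ P.R s ω a b, P.pr s ω u := by
    rw [← Finset.sum_filter_ne_zero]
    apply Finset.sum_le_sum_of_subset_of_nonneg
    · intro u hu'
      rw [Finset.mem_filter] at hu'
      have hact := (P.go_of_pr hu'.2).2
      have hK := hu'.1
      rw [Finset.mem_inter] at hK
      simp only [Params.R, Finset.mem_filter, Finset.mem_inter]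
      exact ⟨⟨hact, hK⟩, fun m hm e1 _ => absurd e1 (hu m hm)⟩
    · intro u _ _
      exact P.pr_nonneg s ω u
  unfold Params.p2
  refine h1.trans ?_
  calc ∑ u ∈ P.R s ω a b, P.pr s ω u ≤ ∑ _u ∈ P.R s ω a b, 2 * P.om / P.V :=
        Finset.sum_le_sum (fun u _ => P.pr_le_om s ω u)
    _ = _ := by rw [Finset.sum_const, nsmul_eq_mul]; ring

/-- the accumulated joint kill probability -/
lemma sum_p2_le (hκ : 0 ≤ P.κ) {S : ℕ} {ω : ℕ → Pt} {a b : Pt} (hab : 2 * P.M ^ 2 < dirN a b)
    (ha : ∀ s < S, a ∈ P.act' s ω) (hb : ∀ s < S, b ∈ P.act' s ω) :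
    ∑ s ∈ range S, P.p2 s ω a b ≤ P.κ + P.restSum S ω a b := by
  have hrest : P.restSum S ω a b = ∑ s ∈ range S, 2 * P.om / P.V * ((P.R s ω a b).card : ℝ) := by
    unfold Params.restSum
    apply Finset.sum_congr rfl
    intro s hs
    rw [Finset.mem_range] at hs
    rw [if_pos ⟨ha s hs, hb s hs⟩]
  rw [hrest]
  by_cases hex : ∃ m ∈ normals P.M, dot m a = dot m b
  · obtain ⟨m0, hm0, h0⟩ := hex
    have hu : ∀ m ∈ normals P.M, dot m a = dot m b → m = m0 ∨ m = -m0 := by
      intro m hm h
      rw [mem_normals] at hm hm0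
      exact G6 hab hm0.2 hm.2 hm0.1 hm.1 h0 h
    have h1 : ∑ s ∈ range S, P.phP s ω m0 (dot m0 a) ≤ P.κ := by
      rcases Nat.eq_zero_or_pos S with h | h
      · subst h
        simpa using hκ
      · have := P.sum_phP_le (ha (S - 1) (by omega)) hm0
        rwa [Nat.sub_add_cancel h] at this
    calc ∑ s ∈ range S, P.p2 s ω a b
        ≤ ∑ s ∈ range S, (P.phP s ω m0 (dot m0 a) +
            2 * P.om / P.V * ((P.R s ω a b).card : ℝ)) :=
          Finset.sum_le_sum (fun s _ => p2_le hm0 hu)
      _ ≤ _ := by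
          rw [Finset.sum_add_distrib]
          linarith
  · push Not at hex
    calc ∑ s ∈ range S, P.p2 s ω a b
        ≤ ∑ s ∈ range S, 2 * P.om / P.V * ((P.R s ω a b).card : ℝ) :=
          Finset.sum_le_sum (fun s _ => p2_le' hex)
      _ ≤ _ := by linarith

section marks

variable {ι : Type} [Fintype ι] {a : ι → Pt} {t : ι → ℕ} {pl : ι → Bool} {T : ℕ}

/-- the total rest of all pairs -/
def totRest (P : Params) (a : ι → Pt) (t : ι → ℕ) (ω : ℕ → Pt) : ℝ :=
  ∑ i, ∑ j, if i = j then 0 else P.restSum (min (t i) (t j)) ω (a i) (a j)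

lemma restSum_nonneg (S : ℕ) (ω : ℕ → Pt) (a b : Pt) : 0 ≤ P.restSum S ω a b := by
  have hf := fac_nonneg (P := P)
  unfold Params.restSum
  apply Finset.sum_nonneg
  intro s _
  split_ifs
  · exact mul_nonneg hf (Nat.cast_nonneg _)
  · exact le_rfl

lemma totRest_nonneg (ω : ℕ → Pt) : 0 ≤ totRest P a t ω := by
  unfold totRest
  apply Finset.sum_nonneg
  intro i _
  apply Finset.sum_nonneg
  intro j _
  split_ifs
  · exact le_rfl
  · exact restSum_nonneg _ _ _ _

lemma act_of_mv {ω : ℕ → Pt} (hal : P.Alive T ω) (hT' : ∀ i, pl i = true → t i < T)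
    (hne : ∏ i, P.mv (a i) (t i) (pl i) ω ≠ 0) (i : ι) : ∀ s < t i, a i ∈ P.act' s ω := by
  intro s hs
  have h1 : P.mv (a i) (t i) (pl i) ω ≠ 0 := by
    rw [Finset.prod_ne_zero_iff] at hne
    exact hne i (Finset.mem_univ i)
  rcases Bool.eq_false_or_eq_true (pl i) with h | h
  · rw [h, P.mv_true] at h1
    have h2 : ω (t i) = a i := by
      by_contra hcon
      rw [if_neg hcon] at h1
      exact h1 rfl
    have h3 := (hal (t i) (hT' i h)).2
    rw [h2] at h3
    exact P.act'_anti hs.le ω h3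
  · rw [h, P.mv_false] at h1
    exact P.act_subset_act' hs ω (P.mem_act_of_wa_ne_zero h1)

lemma Lam_le (hκ : 0 ≤ P.κ) {ω : ℕ → Pt} (hal : P.Alive T ω) (hT' : ∀ i, pl i = true → t i < T)
    (hne : ∏ i, P.mv (a i) (t i) (pl i) ω ≠ 0) (hcard : Fintype.card ι ≤ 7)
    (hsp : ∀ i j, i ≠ j → 2 * P.M ^ 2 < dirN (a i) (a j)) :
    P.Lam a t ω ≤ 49 * P.κ + totRest P a t ω := by
  have hact := act_of_mv hal hT' hne
  have h1 : P.Lam a t ω ≤ ∑ i : ι, ∑ j : ι, (P.κ + if i = j then 0 else
      P.restSum (min (t i) (t j)) ω (a i) (a j)) := by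
    unfold Params.Lam
    apply Finset.sum_le_sum
    intro i _
    apply Finset.sum_le_sum
    intro j _
    split_ifs with h
    · linarith
    · exact sum_p2_le hκ (hsp i j h)
        (fun s hs => hact i s (lt_of_lt_of_le hs (min_le_left _ _)))
        (fun s hs => hact j s (lt_of_lt_of_le hs (min_le_right _ _)))
  refine h1.trans ?_
  simp only [Finset.sum_add_distrib, Finset.sum_const, Finset.card_univ, nsmul_eq_mul]
  have hc : (Fintype.card ι : ℝ) ≤ 7 := by exact_mod_cast hcard
  have hc0 : (0 : ℝ) ≤ Fintype.card ι := Nat.cast_nonneg _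
  have h2 : (Fintype.card ι : ℝ) * (Fintype.card ι * P.κ) ≤ 49 * P.κ := by
    have : (Fintype.card ι : ℝ) * Fintype.card ι ≤ 7 * 7 := mul_le_mul hc hc hc0 (by norm_num)
    nlinarith
  unfold totRest
  linarith

/-- the placed marks as a set of forced vertices -/
lemma prod_mv_le (hinj : ∀ i j, pl i = true → pl j = true → t i = t j → i = j)
    (ω : ℕ → Pt) :
    ∏ i, P.mv (a i) (t i) (pl i) ω ≤
      P.om ^ (univ.filter (fun i => ¬ pl i = true)).card *
      ∏ c ∈ (univ.filter (fun i => pl i = true)).image t,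
        (if ω c = (if h : ∃ i, pl i = true ∧ t i = c then a h.choose else 0)
          then (1 : ℝ) else 0) := by
  have hom : 0 ≤ P.om := le_trans zero_le_one P.one_le_om
  rw [Finset.prod_image (by
    intro i hi j hj hij
    simp only [Finset.coe_filter, Finset.mem_univ, true_and, Set.mem_ofPred_eq] at hi hj
    exact hinj i j hi hj hij)]
  rw [← Finset.prod_filter_mul_prod_filter_not univ (fun i => pl i = true), mul_comm]
  apply mul_le_mul
  · calc ∏ i ∈ univ.filter (fun i => ¬ pl i = true), P.mv (a i) (t i) (pl i) ω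
        ≤ ∏ _i ∈ univ.filter (fun i => ¬ pl i = true), P.om := by
          apply Finset.prod_le_prod
          · intro i _
            exact P.mv_nonneg _ _ _ _
          · intro i hi
            rw [Finset.mem_filter] at hi
            have h : pl i = false := by
              cases h : pl i
              · rfl
              · exact absurd h hi.2
            rw [h, P.mv_false]
            exact P.wa_le_om _ _ _
      _ = _ := by rw [Finset.prod_const]
  · apply le_of_eq
    apply Finset.prod_congr rfl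
    intro i hi
    rw [Finset.mem_filter] at hi
    have hex : ∃ j, pl j = true ∧ t j = t i := ⟨i, hi.2, rfl⟩
    rw [hi.2, P.mv_true, dif_pos hex]
    have : hex.choose = i := hinj _ _ hex.choose_spec.1 hi.2 hex.choose_spec.2
    rw [this]
  · exact Finset.prod_nonneg (fun i _ => P.mv_nonneg _ _ _ _)
  · exact pow_nonneg hom _

end marks

end Rest

open Rest in
/-- **MP' for spread marks** -/
theorem mpSpread : MPSpread := by
  obtain ⟨N1, hrest⟩ := restLemma
  obtain ⟨N2, hN2⟩ := Filter.eventually_atTop.1 ev_hyp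
  refine ⟨Real.exp (49 / 100 + 1) * 4 ^ 7 + 49 * 2 ^ 7, by positivity, max N1 N2, ?_⟩
  intro N hNN hN G n hn ι _ a t pl T hcard ha hsp hTn hT hT'
  have H := hN2 N (le_trans (le_max_right _ _) hNN)
  have hrest' := hrest N (le_trans (le_max_left _ _) hNN) hN G n hn
  set P := par N hN G with hP
  have hPN : P.N = N := rfl
  have hPM : P.M = MM N := rfl
  have hκ : P.κ = 1 / 100 := rfl
  have hκ0 : 0 ≤ P.κ := by rw [hκ]; norm_num
  have hVpos := P.V_pos
  have hom1 := P.one_le_om
  have hom0 : 0 ≤ P.om := le_trans zero_le_one hom1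
  have hf := fac_nonneg (P := P)
  set k := (univ.filter (fun i => pl i = true)).card with hk
  have hk7 : k ≤ 7 := (Finset.card_filter_le _ _).trans (by rw [Finset.card_univ]; exact hcard)
  have hN1 : (1 : ℝ) ≤ N := by exact_mod_cast hN
  have hN0 : (0 : ℝ) < N := by linarith
  have hsp' : ∀ i j, i ≠ j → 2 * P.M ^ 2 < dirN (a i) (a j) := by
    intro i j hij
    have h1 := spread_iff.1 (hsp i j hij)
    have h2 := H.D2
    rw [hPM]
    omega
  have hinja : Function.Injective a := by
    intro i j hij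
    by_contra hne
    have h1 := hsp' i j hne
    rw [hij] at h1
    have : dirN (a j) (a j) = 0 := by simp [dirN, nrm]
    omega
  by_cases hinj : ∀ i j, pl i = true → pl j = true → t i = t j → i = j
  swap
  · push Not at hinj
    obtain ⟨i, j, hi, hj, htij, hne⟩ := hinj
    have hz : ∀ ω, P.Alive T ω → ∏ i, P.mv (a i) (t i) (pl i) ω = 0 := by
      intro ω _
      by_contra hcon
      have hcon' := Finset.prod_ne_zero_iff.1 hcon
      have h1 := hcon' i (Finset.mem_univ i)
      have h2 := hcon' j (Finset.mem_univ j)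
      rw [hi, P.mv_true] at h1
      rw [hj, P.mv_true] at h2
      have h3 : ω (t i) = a i := by
        by_contra hc
        rw [if_neg hc] at h1
        exact h1 rfl
      have h4 : ω (t j) = a j := by
        by_contra hc
        rw [if_neg hc] at h2
        exact h2 rfl
      apply hne
      apply hinja
      rw [← h3, ← h4, htij]
    rw [P.ex_congr hz, P.ex_zero_fun]
    positivity
  -- the main case
  have hpath : ∀ ω, P.Alive T ω → ∏ i, P.mv (a i) (t i) (pl i) ω ≤
      Real.exp (49 / 100 + 1) * ((∏ i, P.mv (a i) (t i) (pl i) ω) * Real.exp (-(P.Lam a t ω))) +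
      (∏ i, P.mv (a i) (t i) (pl i) ω) * totRest P a t ω := by
    intro ω hal
    have hF0 : 0 ≤ ∏ i, P.mv (a i) (t i) (pl i) ω :=
      Finset.prod_nonneg (fun i _ => P.mv_nonneg _ _ _ _)
    have hR0 : 0 ≤ totRest P a t ω := totRest_nonneg ω
    rcases eq_or_ne (∏ i, P.mv (a i) (t i) (pl i) ω) 0 with h0 | h0
    · rw [h0]; simp
    · rcases le_or_gt (totRest P a t ω) 1 with h1 | h1
      · have h2 := Lam_le hκ0 hal hT' h0 hcard hsp'
        have h3 : P.Lam a t ω ≤ 49 / 100 + 1 := by
          rw [hκ] at h2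
          linarith
        have h4 : 1 ≤ Real.exp (49 / 100 + 1) * Real.exp (-(P.Lam a t ω)) := by
          rw [← Real.exp_add]
          apply Real.one_le_exp
          linarith
        have h5 : ∏ i, P.mv (a i) (t i) (pl i) ω ≤
            (∏ i, P.mv (a i) (t i) (pl i) ω) *
              (Real.exp (49 / 100 + 1) * Real.exp (-(P.Lam a t ω))) :=
          le_mul_of_one_le_right hF0 h4
        have h6 : 0 ≤ (∏ i, P.mv (a i) (t i) (pl i) ω) * totRest P a t ω := by positivity
        calc ∏ i, P.mv (a i) (t i) (pl i) ω ≤ _ := h5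
          _ = Real.exp (49 / 100 + 1) *
              ((∏ i, P.mv (a i) (t i) (pl i) ω) * Real.exp (-(P.Lam a t ω))) := by ring
          _ ≤ _ := by linarith
      · have h5 : ∏ i, P.mv (a i) (t i) (pl i) ω ≤
            (∏ i, P.mv (a i) (t i) (pl i) ω) * totRest P a t ω :=
          le_mul_of_one_le_right hF0 h1.le
        have h6 : 0 ≤ Real.exp (49 / 100 + 1) *
            ((∏ i, P.mv (a i) (t i) (pl i) ω) * Real.exp (-(P.Lam a t ω))) := by positivity
        linarith
  have hMP := P.MP a hinja t pl T (by omega) hT hT'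
  -- the rest term
  set C := (univ.filter (fun i => pl i = true)).image t with hC
  have hCcard : C.card = k := by
    rw [hC, hk]
    apply Finset.card_image_of_injOn
    intro i hi j hj hij
    simp only [Finset.coe_filter, Finset.mem_univ, true_and, Set.mem_ofPred_eq] at hi hj
    exact hinj i j hi hj hij
  set z : ℕ → Pt := fun c => if h : ∃ i, pl i = true ∧ t i = c then a h.choose else 0 with hz
  have hCmem : ∀ c ∈ C, ∃ i, pl i = true ∧ t i = c ∧ z c = a i := by
    intro c hc
    rw [hC, Finset.mem_image] at hc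
    obtain ⟨i, hi, rfl⟩ := hc
    rw [Finset.mem_filter] at hi
    refine ⟨i, hi.2, rfl, ?_⟩
    have hex : ∃ j, pl j = true ∧ t j = t i := ⟨i, hi.2, rfl⟩
    rw [hz]
    simp only
    rw [dif_pos hex]
    have : hex.choose = i := hinj _ _ hex.choose_spec.1 hi.2 hex.choose_spec.2
    rw [this]
  have hpair : ∀ i j : ι, i ≠ j → P.ex T (fun ω => (∏ i, P.mv (a i) (t i) (pl i) ω) *
      P.restSum (min (t i) (t j)) ω (a i) (a j)) ≤ 2 ^ 7 * (1 / P.V) ^ k := by
    intro i j hij
    have h1 := hrest' (a i) (a j) (min (t i) (t j)) T C z (ha i) (ha j)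
      (by
        intro c hc
        obtain ⟨i', _, _, h⟩ := hCmem c hc
        rw [h]
        exact ha i')
      (le_trans (min_le_left _ _) (hT i)) hTn
      (by
        intro c hc
        obtain ⟨i', h1, h2, _⟩ := hCmem c hc
        rw [← h2]
        exact hT' i' h1)
      (by rw [hCcard]; exact hk7) (hsp i j hij)
      (by
        intro c hc hcS
        obtain ⟨i', h1, h2, h3⟩ := hCmem c hc
        rw [h3]
        have h4 : i' ≠ i := by
          rintro rfl
          rw [← h2] at hcS
          exact absurd hcS (not_lt.2 (min_le_left _ _))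
        have h5 : i' ≠ j := by
          rintro rfl
          rw [← h2] at hcS
          exact absurd hcS (not_lt.2 (min_le_right _ _))
        exact ⟨hsp i i' h4.symm, hsp j i' h5.symm⟩)
      (by
        intro c hc d hd _ _ hcd
        obtain ⟨i', _, h2, h3⟩ := hCmem c hc
        obtain ⟨j', _, h5, h6⟩ := hCmem d hd
        rw [h3, h6]
        apply hsp
        rintro rfl
        exact hcd (h2.symm.trans h5))
    have h2 : P.ex T (fun ω => (∏ i, P.mv (a i) (t i) (pl i) ω) *
        P.restSum (min (t i) (t j)) ω (a i) (a j)) ≤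
        P.om ^ (univ.filter (fun i => ¬ pl i = true)).card *
        P.ex T (fun ω => (∏ c ∈ C, if ω c = z c then (1 : ℝ) else 0) *
          P.restSum (min (t i) (t j)) ω (a i) (a j)) := by
      rw [← P.ex_const_mul]
      apply P.ex_mono
      intro ω _
      rw [← mul_assoc]
      exact mul_le_mul_of_nonneg_right (prod_mv_le hinj ω) (restSum_nonneg _ _ _ _)
    have h3 : P.om ^ (univ.filter (fun i => ¬ pl i = true)).card ≤ P.om ^ 7 :=
      pow_le_pow_right₀ hom1 ((Finset.card_filter_le _ _).trans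
        (by rw [Finset.card_univ]; exact hcard))
    have h4 : P.om ^ 14 * (N : ℝ) ^ (-(1 / 200) : ℝ) ≤ 1 := by
      have hom : P.om = (N : ℝ) ^ (2 / 10 ^ 5 : ℝ) := par_om N hN G
      rw [hom, ← Real.rpow_natCast, ← Real.rpow_mul hN0.le, ← Real.rpow_add hN0]
      apply Real.rpow_le_one_of_one_le_of_nonpos hN1
      norm_num
    have h5 : P.om ^ k ≤ P.om ^ 7 := pow_le_pow_right₀ hom1 hk7
    have h6 : (2 : ℝ) ^ k ≤ 2 ^ 7 := pow_le_pow_right₀ (by norm_num) hk7
    have hNp : 0 ≤ (N : ℝ) ^ (-(1 / 200) : ℝ) := by positivity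
    calc P.ex T (fun ω => (∏ i, P.mv (a i) (t i) (pl i) ω) *
          P.restSum (min (t i) (t j)) ω (a i) (a j))
        ≤ P.om ^ (univ.filter (fun i => ¬ pl i = true)).card *
          ((2 * P.om / P.V) ^ C.card * (N : ℝ) ^ (-(1 / 200) : ℝ)) :=
          h2.trans (mul_le_mul_of_nonneg_left h1 (by positivity))
      _ ≤ P.om ^ 7 * ((2 * P.om / P.V) ^ k * (N : ℝ) ^ (-(1 / 200) : ℝ)) := by
          rw [hCcard]
          apply mul_le_mul_of_nonneg_right h3 (by positivity)
      _ = P.om ^ 7 * (2 ^ k * P.om ^ k * (1 / P.V) ^ k * (N : ℝ) ^ (-(1 / 200) : ℝ)) := by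
          have e : 2 * P.om / P.V = 2 * P.om * (1 / P.V) := by ring
          rw [e, mul_pow, mul_pow]
      _ ≤ P.om ^ 7 * (2 ^ 7 * P.om ^ 7 * (1 / P.V) ^ k * (N : ℝ) ^ (-(1 / 200) : ℝ)) := by
          gcongr
      _ = (P.om ^ 14 * (N : ℝ) ^ (-(1 / 200) : ℝ)) * (2 ^ 7 * (1 / P.V) ^ k) := by ring
      _ ≤ 1 * (2 ^ 7 * (1 / P.V) ^ k) := by
          apply mul_le_mul_of_nonneg_right h4 (by positivity)
      _ = _ := one_mul _
  have htot : P.ex T (fun ω => (∏ i, P.mv (a i) (t i) (pl i) ω) * totRest P a t ω) ≤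
      49 * 2 ^ 7 * (1 / P.V) ^ k := by
    have e : (fun ω => (∏ i, P.mv (a i) (t i) (pl i) ω) * totRest P a t ω) =
        (fun ω => ∑ i ∈ (univ : Finset ι), ∑ j ∈ (univ : Finset ι),
          (∏ i, P.mv (a i) (t i) (pl i) ω) *
          (if i = j then 0 else P.restSum (min (t i) (t j)) ω (a i) (a j))) := by
      funext ω
      unfold totRest
      rw [Finset.mul_sum]
      apply Finset.sum_congr rfl
      intro i _
      rw [Finset.mul_sum]
    rw [e, P.ex_sum]
    have hc : (Fintype.card ι : ℝ) ≤ 7 := by exact_mod_cast hcard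
    have hc0 : (0 : ℝ) ≤ Fintype.card ι := Nat.cast_nonneg _
    calc ∑ i ∈ (univ : Finset ι), P.ex T (fun ω => ∑ j ∈ (univ : Finset ι),
          (∏ i, P.mv (a i) (t i) (pl i) ω) *
          (if i = j then 0 else P.restSum (min (t i) (t j)) ω (a i) (a j)))
        ≤ ∑ _i ∈ (univ : Finset ι), ∑ _j ∈ (univ : Finset ι), (2 ^ 7 * (1 / P.V) ^ k : ℝ) := by
          apply Finset.sum_le_sum
          intro i _
          rw [P.ex_sum]
          apply Finset.sum_le_sum
          intro j _
          by_cases hij : i = j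
          · simp only [if_pos hij, mul_zero]
            rw [P.ex_zero_fun]
            positivity
          · simp only [if_neg hij]
            exact hpair i j hij
      _ = (Fintype.card ι : ℝ) * (Fintype.card ι * (2 ^ 7 * (1 / P.V) ^ k)) := by
          simp only [Finset.sum_const, Finset.card_univ, nsmul_eq_mul]
      _ ≤ 7 * (7 * (2 ^ 7 * (1 / P.V) ^ k)) := by gcongr
      _ = _ := by ring
  calc P.ex T (fun ω => ∏ i, P.mv (a i) (t i) (pl i) ω)
      ≤ P.ex T (fun ω => Real.exp (49 / 100 + 1) * ((∏ i, P.mv (a i) (t i) (pl i) ω) *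
          Real.exp (-(P.Lam a t ω))) + (∏ i, P.mv (a i) (t i) (pl i) ω) * totRest P a t ω) :=
        P.ex_mono hpath
    _ = Real.exp (49 / 100 + 1) * P.ex T (fun ω => (∏ i, P.mv (a i) (t i) (pl i) ω) *
          Real.exp (-(P.Lam a t ω))) +
          P.ex T (fun ω => (∏ i, P.mv (a i) (t i) (pl i) ω) * totRest P a t ω) := by
        rw [P.ex_add, P.ex_const_mul]
    _ ≤ Real.exp (49 / 100 + 1) * (4 / P.V) ^ k + 49 * 2 ^ 7 * (1 / P.V) ^ k := by
        apply add_le_add _ htot
        exact mul_le_mul_of_nonneg_left hMP (Real.exp_pos _).le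
    _ = Real.exp (49 / 100 + 1) * (4 ^ k * (1 / P.V) ^ k) + 49 * 2 ^ 7 * (1 / P.V) ^ k := by
        have e : 4 / P.V = 4 * (1 / P.V) := by ring
        rw [e, mul_pow]
    _ ≤ Real.exp (49 / 100 + 1) * (4 ^ 7 * (1 / P.V) ^ k) + 49 * 2 ^ 7 * (1 / P.V) ^ k := by
        have h4 : (4 : ℝ) ^ k ≤ 4 ^ 7 := pow_le_pow_right₀ (by norm_num) hk7
        gcongr
    _ = (Real.exp (49 / 100 + 1) * 4 ^ 7 + 49 * 2 ^ 7) * (1 / P.V) ^ k := by ring

end Pool.Agent.Grid3D
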