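import Pool.Agent.Grid3D.PInv

set_option autoImplicit false

/-! The one-step average inequalities for the components of the potential. -/

namespace Pool.Agent.Grid3D.P

open Finset Classical

lemma sum_le_cover {α ι : Type*} [DecidableEq α] (U : Finset α) (I : Finset ι) (g : α → ℝ)
    (p : ι → Prop) [DecidablePred p] (F : ι → Finset α)
    (hg : ∀ i ∈ I, ∀ x ∈ F i, 0 ≤ g x)
    (hU : ∀ x ∈ U, ∃ i ∈ I, p i ∧ x ∈ F i) :
    ∑ x ∈ U, g x ≤ ∑ i ∈ I, if p i then ∑ x ∈ F i, g x else 0 := by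
  have h1 : ∀ x ∈ U, g x ≤ ∑ i ∈ I, if p i ∧ x ∈ F i then g x else 0 := by
    intro x hx
    obtain ⟨i, hi, hpi, hxi⟩ := hU x hx
    have h2 := Finset.single_le_sum (f := fun i => if p i ∧ x ∈ F i then g x else 0)
      (s := I) (fun j hj => by
        split_ifs with h
        · exact hg j hj x h.2
        · exact le_rfl) hi
    simp only [hpi, hxi, and_self, if_true] at h2
    exact h2
  refine (Finset.sum_le_sum h1).trans ?_
  rw [Finset.sum_comm]
  refine Finset.sum_le_sum fun i hi => ?_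
  by_cases hp : p i
  · simp only [hp, true_and, if_true]
    rw [← Finset.sum_filter]
    refine Finset.sum_le_sum_of_subset_of_nonneg (fun x hx => (Finset.mem_filter.1 hx).2)
      fun x hx _ => hg i hi x hx
  · simp [hp]

namespace PD

variable {α : Type} [DecidableEq α] {P : PD α} {s : St α} {t : ℕ}

/-- the new block potential -/
noncomputable def Bn (P : PD α) (s : St α) (t : ℕ) (Q : α) (b : Finset α) : ℝ :=
  Bp (P.cmp b) P.n (t + 1) ((P.step s t Q).T (t + 1) b) (b ∩ (P.step s t Q).A) (P.W1 s t)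

lemma Bn_notMem (h : SH s.A s.w (P.K s t)) {b : Finset α} {Q : α} (hQb : Q ∉ b) :
    P.Bn s t Q b ≤ Bfar (P.cmp b) P.n t (s.T t b) ((b ∩ s.A) \ P.K s t Q) (P.W1 s t) := by
  unfold Bn
  rw [T_succ_notMem t hQb, Bp_succ]
  refine Bfar_mono _ _ _ _ _ ?_ ?_
  · intro x hx
    rw [Finset.mem_inter] at hx
    obtain ⟨h1, h2, _⟩ := mem_step hx.2
    exact Finset.mem_sdiff.2 ⟨Finset.mem_inter.2 ⟨hx.1, h1⟩, h2⟩
  · intro x hx
    exact (h.w1_pos (Finset.mem_inter.1 (Finset.mem_sdiff.1 hx).1).2).le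

lemma Bn_dead {b : Finset α} (hb : b ∈ P.L ∪ P.H) (hc : P.c s t b) {Q : α} (hQb : Q ∈ b) :
    P.Bn s t Q b = 0 := by
  unfold Bn
  rw [dead_of_c hb hc hQb, Bp_empty]

lemma Bn_le (h : SH s.A s.w (P.K s t)) (ht : t < P.n) {b : Finset α} {Q : α} (hQ : Q ∈ s.A) :
    P.Bn s t Q b ≤ Bfar (P.cmp b) P.n t (s.T t b) ((b ∩ s.A) \ P.K s t Q) (P.W1 s t) +
      (if Q ∈ b ∩ s.A then Bnew (P.cmp b) P.n t (s.T t b) ((b ∩ s.A).erase Q) (P.W1 s t) else 0) := by
  have hw : ∀ x ∈ s.A, 0 ≤ P.W1 s t x := fun x hx => (h.w1_pos hx).le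
  by_cases hQb : Q ∈ b
  · rw [if_pos (Finset.mem_inter.2 ⟨hQb, hQ⟩)]
    unfold Bn
    rw [T_succ_mem t hQb]
    have h1 := Bp_insert_le (P.cmp b) P.n t (s.T t b) (b ∩ (P.step s t Q).A) (P.W1 s t)
      (P.cmp_mono b) ht (fun x hx => hw x (step_A_sub' Q (Finset.mem_inter.1 hx).2))
    refine h1.trans (add_le_add ?_ ?_)
    · refine Bfar_mono _ _ _ _ _ ?_ ?_
      · intro x hx
        rw [Finset.mem_inter] at hx
        obtain ⟨h1, h2, _⟩ := mem_step hx.2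
        exact Finset.mem_sdiff.2 ⟨Finset.mem_inter.2 ⟨hx.1, h1⟩, h2⟩
      · intro x hx
        exact hw x (Finset.mem_inter.1 (Finset.mem_sdiff.1 hx).1).2
    · refine Bnew_mono _ _ _ _ _ ?_ ?_
      · intro x hx
        rw [Finset.mem_inter] at hx
        obtain ⟨h1, h2, h3, _⟩ := mem_step hx.2
        exact Finset.mem_erase.2 ⟨h3, Finset.mem_inter.2 ⟨hx.1, h1⟩⟩
      · intro x hx
        exact hw x (Finset.mem_inter.1 (Finset.mem_of_mem_erase hx)).2
  · rw [if_neg (fun hh => hQb (Finset.mem_inter.1 hh).1), add_zero]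
    exact Bn_notMem h hQb

lemma card_le_one_K (hP : P.Hyp) {b : Finset α} (hb : b ∈ P.L ∪ P.H) {Q : α}
    (hh : Q ∈ b → (¬ P.c s t b ∨ b ∈ P.H)) : ((b ∩ s.A) ∩ P.K s t Q).card ≤ 1 := by
  have hsub : (b ∩ s.A) ∩ P.K s t Q ⊆ b ∩ P.K s t Q :=
    Finset.inter_subset_inter_right Finset.inter_subset_left
  refine (Finset.card_le_card hsub).trans ?_
  by_cases hQb : Q ∈ b
  · rw [key2 hP hb hQb (hh hQb)]; simp
  · exact key1 hP hb hQb

theorem heavy_avg (hP : P.Hyp) (h : SH s.A s.w (P.K s t)) (ht : t < P.n) {b : Finset α}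
    (hb : b ∈ P.H) :
    ∑ Q ∈ s.A, qq s.A s.w Q * (P.Bn s t Q b +
      (if P.c s t b ∧ Q ∈ b then ∑ x ∈ (b ∩ s.A).erase Q, P.W1 s t x else 0)) ≤
    Bp (P.cmp b) P.n t (s.T t b) (b ∩ s.A) s.w := by
  have hbu : b ∈ P.L ∪ P.H := Finset.mem_union_right _ hb
  have h1 : ∀ Q ∈ s.A, ((b ∩ s.A) ∩ P.K s t Q).card ≤ 1 := fun Q _ =>
    card_le_one_K hP hbu fun _ => Or.inr hb
  by_cases hc : P.c s t b
  · refine le_trans (Finset.sum_le_sum fun Q hQ => ?_)
      (h.step_heavy Finset.inter_subset_right h1 (mem_Min_of_c hc ht))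
    refine mul_le_mul_of_nonneg_left ?_ (h.qq_nonneg hQ)
    by_cases hQb : Q ∈ b
    · have hQX : Q ∈ b ∩ s.A := Finset.mem_inter.2 ⟨hQb, hQ⟩
      rw [Bn_dead hbu hc hQb, if_pos ⟨hc, hQb⟩, if_pos hQX, if_pos hQX]
      exact le_rfl
    · have hQX : Q ∉ b ∩ s.A := fun hh => hQb (Finset.mem_inter.1 hh).1
      rw [if_neg (fun hh => hQb hh.2), if_neg hQX, if_neg hQX]
      exact add_le_add (Bn_notMem h hQb) le_rfl
  · refine le_trans (Finset.sum_le_sum fun Q hQ => ?_)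
      (h.step_zero Finset.inter_subset_right h1 (fun Z hZ => Min_card_le hP hZ))
    refine mul_le_mul_of_nonneg_left ?_ (h.qq_nonneg hQ)
    rw [if_neg (fun hh => hc hh.1), add_zero]
    exact Bn_le h ht hQ

theorem light_avg (hP : P.Hyp) (hI : P.Inv s t) (hW : 1 / 2 ≤ Wt s.A s.w) (ht : t < P.n)
    {b : Finset α} (hb : b ∈ P.L) :
    ∑ Q ∈ s.A, qq s.A s.w Q * (P.rho1 s t b ^ 6 * P.Bn s t Q b) +
      (if P.c s t b then 4 * E 2 (b ∩ s.A) s.w else 0) ≤
    s.rho b ^ 6 * Bp (P.cmp b) P.n t (s.T t b) (b ∩ s.A) s.w := by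
  have h := hI.SH hP hW
  have hbu : b ∈ P.L ∪ P.H := Finset.mem_union_left _ hb
  have hn := npos hP
  by_cases hc : P.c s t b
  · have h1 : ∀ Q ∈ s.A \ (b ∩ s.A), ((b ∩ s.A) ∩ P.K s t Q).card ≤ 1 := by
      intro Q hQ
      rw [Finset.mem_sdiff] at hQ
      refine card_le_one_K hP hbu fun hQb => ?_
      exact absurd (Finset.mem_inter.2 ⟨hQb, hQ.1⟩) hQ.2
    have hq : ∑ x ∈ b ∩ s.A, qq s.A s.w x ≤ 1 / 20 := by
      refine (hI.q_light hP hW hb).trans ?_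
      rw [div_le_div_iff₀ (by positivity) (by norm_num)]
      have : (2 : ℝ) ≤ P.n := by exact_mod_cast hP.n2
      linarith
    have hrho : 9 / 10 ≤ s.rho b := by
      refine le_trans ?_ (hI.rho0 b hb)
      have : (t : ℝ) / (10 * P.n) ≤ 1 / 10 := by
        rw [div_le_div_iff₀ (by positivity) (by norm_num)]
        have : (t : ℝ) ≤ P.n := by exact_mod_cast ht.le
        linarith
      linarith
    rw [if_pos hc]
    have hmain := h.step_light (comp := P.cmp b) (n := P.n) (T := s.T t b)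
      Finset.inter_subset_right h1
      (fun Q hQ x hx hxQ => key3 hb hc (Finset.mem_inter.1 hQ).1 hx hxQ)
      (fun Q _ => notMem_K Q) (fun Z hZ => Min_card_le hP hZ) hq (mem_Min_of_c hc ht)
      (s.rho b) hrho
    refine le_trans (add_le_add ?_ le_rfl) hmain
    refine Finset.sum_le_sum fun Q hQ => mul_le_mul_of_nonneg_left ?_ (h.qq_nonneg hQ)
    have hr : P.rho1 s t b = s.rho b * (1 - ∑ x ∈ b ∩ s.A, qq s.A s.w x) := by
      unfold PD.rho1; rw [if_pos hc]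
    by_cases hQb : Q ∈ b
    · rw [Bn_dead hbu hc hQb, if_pos (Finset.mem_inter.2 ⟨hQb, hQ⟩), mul_zero]
    · rw [if_neg (fun hh => hQb (Finset.mem_inter.1 hh).1), hr]
      refine mul_le_mul_of_nonneg_left (Bn_notMem h hQb) ?_
      exact Even.pow_nonneg (by decide) _
  · have h1 : ∀ Q ∈ s.A, ((b ∩ s.A) ∩ P.K s t Q).card ≤ 1 := fun Q _ =>
      card_le_one_K hP hbu fun _ => Or.inl hc
    have hr : P.rho1 s t b = s.rho b := by unfold PD.rho1; rw [if_neg hc]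
    rw [if_neg hc, add_zero, hr]
    have e1 : ∑ Q ∈ s.A, qq s.A s.w Q * (s.rho b ^ 6 * P.Bn s t Q b) =
        s.rho b ^ 6 * ∑ Q ∈ s.A, qq s.A s.w Q * P.Bn s t Q b := by
      rw [Finset.mul_sum]
      exact Finset.sum_congr rfl fun Q _ => by ring
    rw [e1]
    refine mul_le_mul_of_nonneg_left ?_ (Even.pow_nonneg (by decide) _)
    refine le_trans (Finset.sum_le_sum fun Q hQ => ?_)
      (h.step_zero Finset.inter_subset_right h1 (fun Z hZ => Min_card_le hP hZ))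
    exact mul_le_mul_of_nonneg_left (Bn_le h ht hQ) (h.qq_nonneg hQ)

/-- the hazards are controlled by the blocks about to be completed -/
theorem sum_beta_le (h : SH s.A s.w (P.K s t)) :
    ∑ x ∈ s.A, s.w x * beta s.A s.w (P.K s t) x ≤
      ∑ b ∈ P.L, if P.c s t b then 4 * E 2 (b ∩ s.A) s.w else 0 := by
  have hq0 : ∀ x ∈ s.A, 0 ≤ qq s.A s.w x := fun x hx => h.qq_nonneg hx
  have h1 : ∀ x ∈ s.A, s.w x * beta s.A s.w (P.K s t) x ≤
      ∑ b ∈ P.L, if P.c s t b ∧ x ∈ b then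
        s.w x * ∑ Q ∈ (b ∩ s.A).erase x, qq s.A s.w Q else 0 := by
    intro x hx
    have e1 : beta s.A s.w (P.K s t) x ≤
        ∑ b ∈ P.L, if (P.c s t b ∧ x ∈ b) then ∑ Q ∈ (b ∩ s.A).erase x, qq s.A s.w Q else 0 := by
      unfold beta
      refine sum_le_cover _ P.L (qq s.A s.w) (fun b => P.c s t b ∧ x ∈ b)
        (fun b => (b ∩ s.A).erase x) ?_ ?_
      · intro b _ Q hQ
        exact hq0 Q (Finset.mem_inter.1 (Finset.mem_of_mem_erase hQ)).2
      · intro Q hQ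
        rw [Finset.mem_filter, mem_K] at hQ
        obtain ⟨hQA, _, hne, b, hb, hc, hQb, hxb⟩ := hQ
        exact ⟨b, hb, ⟨hc, hxb⟩, Finset.mem_erase.2 ⟨hne.symm, Finset.mem_inter.2 ⟨hQb, hQA⟩⟩⟩
    refine (mul_le_mul_of_nonneg_left e1 (h.wpos x hx).le).trans (le_of_eq ?_)
    rw [Finset.mul_sum]
    refine Finset.sum_congr rfl fun b _ => ?_
    split_ifs <;> simp
  refine (Finset.sum_le_sum h1).trans ?_
  rw [Finset.sum_comm]
  refine Finset.sum_le_sum fun b hb => ?_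
  by_cases hc : P.c s t b
  · simp only [hc, true_and, if_true]
    rw [← Finset.sum_filter]
    have e2 : s.A.filter (fun x => x ∈ b) = b ∩ s.A := by
      ext x; simp only [Finset.mem_filter, Finset.mem_inter]; tauto
    rw [e2]
    have h2 := two_E_two (b ∩ s.A) s.w
    have hW := h.W_pos
    have e3 : ∀ x ∈ b ∩ s.A, s.w x * ∑ Q ∈ (b ∩ s.A).erase x, qq s.A s.w Q ≤
        2 * (s.w x * ((∑ y ∈ b ∩ s.A, s.w y) - s.w x)) := by
      intro x hx
      have e4 := Finset.add_sum_erase (b ∩ s.A) s.w hx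
      have e5 : ∑ Q ∈ (b ∩ s.A).erase x, qq s.A s.w Q ≤
          2 * ((∑ y ∈ b ∩ s.A, s.w y) - s.w x) := by
        calc ∑ Q ∈ (b ∩ s.A).erase x, qq s.A s.w Q
            ≤ ∑ Q ∈ (b ∩ s.A).erase x, 2 * s.w Q :=
              Finset.sum_le_sum fun Q hQ =>
                h.qq_le (Finset.mem_inter.1 (Finset.mem_of_mem_erase hQ)).2
          _ = 2 * ((∑ y ∈ b ∩ s.A, s.w y) - s.w x) := by
              rw [← Finset.mul_sum]; congr 1; linarith
      have hw := (h.wpos x (Finset.mem_inter.1 hx).2).le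
      calc s.w x * ∑ Q ∈ (b ∩ s.A).erase x, qq s.A s.w Q
          ≤ s.w x * (2 * ((∑ y ∈ b ∩ s.A, s.w y) - s.w x)) := mul_le_mul_of_nonneg_left e5 hw
        _ = _ := by ring
    refine (Finset.sum_le_sum e3).trans ?_
    rw [← Finset.mul_sum, ← h2]
    linarith
  · simp [hc]

/-- the hazard part of the light potential -/
theorem S_avg (hI : P.Inv s t) (h : SH s.A s.w (P.K s t)) :
    ∑ Q ∈ s.A, qq s.A s.w Q * (∑ x ∈ (P.step s t Q).A, P.W1 s t x * P.S1 s t x +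
      P.Gam * ∑ x ∈ P.RC s t Q, P.W1 s t x) ≤
    ∑ x ∈ s.A, s.w x * s.S x + ∑ b ∈ P.L, if P.c s t b then 4 * E 2 (b ∩ s.A) s.w else 0 := by
  have hS1 : ∀ x ∈ s.A, 0 ≤ P.S1 s t x := fun x hx => add_nonneg (hI.S0 x hx) (h.beta_nonneg x)
  have hW1 : ∀ x ∈ s.A, 0 ≤ P.W1 s t x := fun x hx => (h.w1_pos hx).le
  have e1 : ∀ Q ∈ s.A, (∑ x ∈ (P.step s t Q).A, P.W1 s t x * P.S1 s t x +
      P.Gam * ∑ x ∈ P.RC s t Q, P.W1 s t x) ≤
      ∑ x ∈ s.A \ P.K s t Q, P.W1 s t x * P.S1 s t x := by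
    intro Q hQ
    have hd : Disjoint (P.step s t Q).A (P.RC s t Q) := by
      rw [Finset.disjoint_left]
      intro x hx hx'
      exact (mem_step hx).2.2.2.2.1 hx'
    have e2 : P.Gam * ∑ x ∈ P.RC s t Q, P.W1 s t x ≤
        ∑ x ∈ P.RC s t Q, P.W1 s t x * P.S1 s t x := by
      rw [Finset.mul_sum]
      refine Finset.sum_le_sum fun x hx => ?_
      have hx1 := Finset.mem_filter.1 hx
      have hx2 := (Finset.mem_sdiff.1 hx1.1).1
      rw [mul_comm]
      exact mul_le_mul_of_nonneg_left hx1.2.le (hW1 x hx2)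
    refine (add_le_add le_rfl e2).trans ?_
    rw [← Finset.sum_union hd]
    refine Finset.sum_le_sum_of_subset_of_nonneg ?_ ?_
    · exact Finset.union_subset (step_A_sub Q) (Finset.filter_subset _ _)
    · intro x hx _
      have := (Finset.mem_sdiff.1 hx).1
      exact mul_nonneg (hW1 x this) (hS1 x this)
  refine (Finset.sum_le_sum fun Q hQ => mul_le_mul_of_nonneg_left (e1 Q hQ) (h.qq_nonneg hQ)).trans ?_
  have e3 := h.avg_sum s.A (Finset.Subset.refl _) (P.S1 s t)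
  have e4 : ∑ Q ∈ s.A, qq s.A s.w Q * ∑ x ∈ s.A \ P.K s t Q, P.W1 s t x * P.S1 s t x =
      ∑ x ∈ s.A, s.w x * P.S1 s t x := e3
  rw [e4]
  have e5 : ∑ x ∈ s.A, s.w x * P.S1 s t x = ∑ x ∈ s.A, s.w x * s.S x +
      ∑ x ∈ s.A, s.w x * beta s.A s.w (P.K s t) x := by
    rw [← Finset.sum_add_distrib]
    refine Finset.sum_congr rfl fun x _ => ?_
    unfold S1; ring
  rw [e5]
  exact add_le_add le_rfl (sum_beta_le h)

end PD

end Pool.Agent.Grid3D.P
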