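import Mathlib

set_option autoImplicit false

/-! Elementary symmetric sums over a finite set and minimal completing sets. -/

namespace Pool.Agent.Grid3D.P

open Finset

variable {α : Type*} [DecidableEq α]

/-- elementary symmetric polynomial of the weights `w` on `X`. -/
noncomputable def E (r : ℕ) (X : Finset α) (w : α → ℝ) : ℝ :=
  ∑ J ∈ X.powersetCard r, ∏ x ∈ J, w x

lemma E_nonneg (r : ℕ) (X : Finset α) (w : α → ℝ) (hw : ∀ x ∈ X, 0 ≤ w x) : 0 ≤ E r X w := by
  refine Finset.sum_nonneg fun J hJ => Finset.prod_nonneg fun x hx => hw x ?_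
  exact (Finset.mem_powersetCard.1 hJ).1 hx

lemma E_mono_set (r : ℕ) {X Y : Finset α} (h : X ⊆ Y) (w : α → ℝ) (hw : ∀ x ∈ Y, 0 ≤ w x) :
    E r X w ≤ E r Y w := by
  refine Finset.sum_le_sum_of_subset_of_nonneg (Finset.powersetCard_mono h) ?_
  intro J hJ _
  exact Finset.prod_nonneg fun x hx => hw x ((Finset.mem_powersetCard.1 hJ).1 hx)

lemma E_mono_weight (r : ℕ) (X : Finset α) (w w' : α → ℝ) (hw : ∀ x ∈ X, 0 ≤ w x)
    (hww : ∀ x ∈ X, w x ≤ w' x) : E r X w ≤ E r X w' := by
  refine Finset.sum_le_sum fun J hJ => ?_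
  have hJX := (Finset.mem_powersetCard.1 hJ).1
  exact Finset.prod_le_prod (fun x hx => hw x (hJX hx)) (fun x hx => hww x (hJX hx))

lemma E_empty (r : ℕ) (hr : r ≠ 0) (w : α → ℝ) : E r (∅ : Finset α) w = 0 := by
  unfold E
  rw [Finset.powersetCard_eq_empty.2 (by simp; omega)]
  simp

lemma E_smul_le (r : ℕ) (X : Finset α) (w : α → ℝ) (c : ℝ)  :
    E r X (fun x => c * w x) = c ^ r * E r X w := by
  unfold E
  rw [Finset.mul_sum]
  refine Finset.sum_congr rfl fun J hJ => ?_
  rw [Finset.prod_mul_distrib, Finset.prod_const, (Finset.mem_powersetCard.1 hJ).2]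

lemma sum_mul_E_erase (r : ℕ) (X : Finset α) (w : α → ℝ) :
    ∑ Q ∈ X, w Q * E r (X.erase Q) w = (r + 1) * E (r + 1) X w := by
  unfold E
  have h1 : ∀ J ∈ X.powersetCard (r + 1), ((r : ℝ) + 1) * ∏ x ∈ J, w x =
      ∑ Q ∈ J, ∏ x ∈ J, w x := by
    intro J hJ
    rw [Finset.sum_const, (Finset.mem_powersetCard.1 hJ).2, nsmul_eq_mul]
    push_cast
    ring
  rw [Finset.mul_sum, Finset.sum_congr rfl h1]
  simp_rw [Finset.mul_sum]
  rw [Finset.sum_sigma', Finset.sum_sigma']
  refine Finset.sum_bij' (fun p _ => ⟨insert p.1 p.2, p.1⟩) (fun p _ => ⟨p.2, p.1.erase p.2⟩)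
    ?_ ?_ ?_ ?_ ?_
  · rintro ⟨Q, J⟩ h
    simp only [Finset.mem_sigma, Finset.mem_powersetCard] at h ⊢
    obtain ⟨hQ, hJ, hc⟩ := h
    have hQJ : Q ∉ J := fun h => by simpa using hJ h
    refine ⟨⟨?_, ?_⟩, Finset.mem_insert_self _ _⟩
    · intro x hx
      rcases Finset.mem_insert.1 hx with rfl | hx
      · exact hQ
      · exact Finset.mem_of_mem_erase (hJ hx)
    · rw [Finset.card_insert_of_notMem hQJ, hc]
  · rintro ⟨J, Q⟩ h
    simp only [Finset.mem_sigma, Finset.mem_powersetCard] at h ⊢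
    obtain ⟨⟨hJ, hc⟩, hQ⟩ := h
    refine ⟨hJ hQ, Finset.erase_subset_erase _ hJ, ?_⟩
    rw [Finset.card_erase_of_mem hQ, hc]; rfl
  · rintro ⟨Q, J⟩ h
    simp only [Finset.mem_sigma, Finset.mem_powersetCard] at h
    obtain ⟨hQ, hJ, hc⟩ := h
    have hQJ : Q ∉ J := fun h => by simpa using hJ h
    simp [Finset.erase_insert hQJ]
  · rintro ⟨J, Q⟩ h
    simp only [Finset.mem_sigma, Finset.mem_powersetCard] at h
    obtain ⟨⟨hJ, hc⟩, hQ⟩ := h
    simp [Finset.insert_erase hQ]
  · rintro ⟨Q, J⟩ h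
    simp only [Finset.mem_sigma, Finset.mem_powersetCard] at h
    obtain ⟨hQ, hJ, hc⟩ := h
    have hQJ : Q ∉ J := fun h => by simpa using hJ h
    simp only
    rw [Finset.prod_insert hQJ]

lemma two_E_two (X : Finset α) (w : α → ℝ) :
    2 * E 2 X w = ∑ x ∈ X, w x * ((∑ y ∈ X, w y) - w x) := by
  have h := sum_mul_E_erase 1 X w
  have h1 : ∀ Q ∈ X, E 1 (X.erase Q) w = (∑ y ∈ X, w y) - w Q := by
    intro Q hQ
    unfold E
    rw [Finset.powersetCard_one, Finset.sum_map]
    simp only [Function.Embedding.coeFn_mk, Finset.prod_singleton]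
    rw [← Finset.add_sum_erase X w hQ]; ring
  rw [Finset.sum_congr rfl (fun Q hQ => by rw [h1 Q hQ])] at h
  push_cast at h
  linarith

/-- minimal completing subsets of the future `[t, n)`. -/
noncomputable def Min (comp : Finset ℕ → Prop) (n t : ℕ) (T : Finset ℕ) : Finset (Finset ℕ) := by
  classical
  exact ((Finset.Ico t n).powerset).filter
    (fun Z => comp (T ∪ Z) ∧ ∀ Z', Z' ⊂ Z → ¬ comp (T ∪ Z'))

lemma mem_Min (comp : Finset ℕ → Prop) (n t : ℕ) (T Z : Finset ℕ) :
    Z ∈ Min comp n t T ↔ Z ⊆ Finset.Ico t n ∧ comp (T ∪ Z) ∧ ∀ Z', Z' ⊂ Z → ¬ comp (T ∪ Z') := by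
  classical
  unfold Min
  simp [Finset.mem_filter, Finset.mem_powerset]

lemma Min_succ (comp : Finset ℕ → Prop) (n t : ℕ) (T : Finset ℕ) :
    Min comp n (t + 1) T = (Min comp n t T).filter (fun Z => t ∉ Z) := by
  classical
  ext Z
  rw [Finset.mem_filter, mem_Min, mem_Min]
  constructor
  · rintro ⟨h1, h2, h3⟩
    refine ⟨⟨fun x hx => ?_, h2, h3⟩, fun ht => ?_⟩
    · have := Finset.mem_Ico.1 (h1 hx); exact Finset.mem_Ico.2 ⟨by omega, this.2⟩
    · have := Finset.mem_Ico.1 (h1 ht); omega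
  · rintro ⟨⟨h1, h2, h3⟩, ht⟩
    refine ⟨fun x hx => ?_, h2, h3⟩
    have := Finset.mem_Ico.1 (h1 hx)
    have hne : x ≠ t := fun h => ht (h ▸ hx)
    exact Finset.mem_Ico.2 ⟨by omega, this.2⟩

/-- After placing `t` in the block the new minimal sets are among: the old ones avoiding `t`, and the
old ones containing `t` with `t` removed. -/
lemma Min_insert (comp : Finset ℕ → Prop) (n t : ℕ) (T Z : Finset ℕ)
    (hcomp : ∀ T T' : Finset ℕ, T ⊆ T' → comp T → comp T')
    (htn : t < n)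
    (hZ : Z ∈ Min comp n (t + 1) (insert t T)) :
    (Z ∈ Min comp n t T ∧ t ∉ Z) ∨ (insert t Z ∈ Min comp n t T ∧ t ∉ Z) := by
  classical
  rw [mem_Min] at hZ
  obtain ⟨h1, h2, h3⟩ := hZ
  have htZ : t ∉ Z := fun ht => by
    have := Finset.mem_Ico.1 (h1 ht); omega
  by_cases hT : comp (T ∪ Z)
  · left
    refine ⟨?_, htZ⟩
    rw [mem_Min]
    refine ⟨fun x hx => ?_, hT, fun Z' hZ' hc => ?_⟩
    · have := Finset.mem_Ico.1 (h1 hx); exact Finset.mem_Ico.2 ⟨by omega, this.2⟩
    · refine h3 Z' hZ' (hcomp _ _ ?_ hc)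
      intro x hx
      rcases Finset.mem_union.1 hx with hx | hx
      · exact Finset.mem_union_left _ (Finset.mem_insert_of_mem hx)
      · exact Finset.mem_union_right _ hx
  · right
    refine ⟨?_, htZ⟩
    rw [mem_Min]
    refine ⟨fun x hx => ?_, ?_, fun Z' hZ' hc => ?_⟩
    · rcases Finset.mem_insert.1 hx with rfl | hx
      · exact Finset.mem_Ico.2 ⟨le_refl _, htn⟩
      · have := Finset.mem_Ico.1 (h1 hx); exact Finset.mem_Ico.2 ⟨by omega, this.2⟩
    · have : T ∪ insert t Z = insert t T ∪ Z := by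
        ext x; simp only [Finset.mem_union, Finset.mem_insert]; tauto
      rw [this]; exact h2
    · by_cases htZ' : t ∈ Z'
      · have hss : Z'.erase t ⊂ Z := by
          rw [Finset.ssubset_iff_subset_ne] at hZ' ⊢
          refine ⟨fun x hx => ?_, fun heq => ?_⟩
          · have hx' := Finset.mem_erase.1 hx
            rcases Finset.mem_insert.1 (hZ'.1 hx'.2) with h | h
            · exact absurd h hx'.1
            · exact h
          · apply hZ'.2
            rw [← heq, Finset.insert_erase htZ']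
        refine h3 _ hss (hcomp _ _ ?_ hc)
        intro x hx
        simp only [Finset.mem_union, Finset.mem_insert, Finset.mem_erase] at hx ⊢
        by_cases hxt : x = t
        · exact Or.inl (Or.inl hxt)
        · tauto
      · apply hT
        refine hcomp _ _ ?_ hc
        intro x hx
        rcases Finset.mem_union.1 hx with hx | hx
        · exact Finset.mem_union_left _ hx
        · have h4 := hZ'.1 hx
          rcases Finset.mem_insert.1 h4 with h | h
          · exact absurd (h ▸ hx) htZ'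
          · exact Finset.mem_union_right _ h

end Pool.Agent.Grid3D.P
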