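import Pool.Agent.Grid3D.PBasic

set_option autoImplicit false

/-! One step of the weighted greedy process, seen from one block. -/

namespace Pool.Agent.Grid3D.P

open Finset Classical

lemma one_sub_sum_le_prod {ι : Type*} (s : Finset ι) (f : ι → ℝ) (h0 : ∀ i ∈ s, 0 ≤ f i)
    (h1 : ∀ i ∈ s, f i ≤ 1) : 1 - ∑ i ∈ s, f i ≤ ∏ i ∈ s, (1 - f i) := by
  induction s using Finset.induction_on with
  | empty => simp
  | insert a s ha ih =>
    rw [Finset.sum_insert ha, Finset.prod_insert ha]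
    have h0' : ∀ i ∈ s, 0 ≤ f i := fun i hi => h0 i (Finset.mem_insert_of_mem hi)
    have h1' : ∀ i ∈ s, f i ≤ 1 := fun i hi => h1 i (Finset.mem_insert_of_mem hi)
    have ih' := ih h0' h1'
    have ha0 := h0 a (Finset.mem_insert_self _ _)
    have ha1 := h1 a (Finset.mem_insert_self _ _)
    have hs : 0 ≤ ∑ i ∈ s, f i := Finset.sum_nonneg h0'
    nlinarith

section step

variable {α : Type*} [DecidableEq α] (A : Finset α) (w : α → ℝ) (K : α → Finset α)

/-- total weight -/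
noncomputable def Wt : ℝ := ∑ x ∈ A, w x
/-- selection probability -/
noncomputable def qq (x : α) : ℝ := w x / Wt A w
/-- kill probability -/
noncomputable def beta (x : α) : ℝ := ∑ Q ∈ A.filter (fun Q => x ∈ K Q), qq A w Q
/-- compensated weight -/
noncomputable def w1 (x : α) : ℝ := w x / (1 - beta A w K x)

/-- Standing hypotheses of a step. -/
structure SH : Prop where
  wpos : ∀ x ∈ A, 0 < w x
  W_ge : 1 / 2 ≤ Wt A w
  beta_le : ∀ x ∈ A, beta A w K x ≤ 1 / 100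

variable {A w K}

lemma SH.W_pos (h : SH A w K) : 0 < Wt A w := by linarith [h.W_ge]

lemma SH.qq_nonneg (h : SH A w K) {x : α} (hx : x ∈ A) : 0 ≤ qq A w x :=
  div_nonneg (h.wpos x hx).le h.W_pos.le

lemma SH.qq_pos (h : SH A w K) {x : α} (hx : x ∈ A) : 0 < qq A w x :=
  div_pos (h.wpos x hx) h.W_pos

lemma SH.qq_le (h : SH A w K) {x : α} (hx : x ∈ A) : qq A w x ≤ 2 * w x := by
  unfold qq
  rw [div_le_iff₀ h.W_pos]
  nlinarith [h.W_ge, (h.wpos x hx).le]

lemma SH.sum_qq (h : SH A w K) : ∑ Q ∈ A, qq A w Q = 1 := by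
  unfold qq
  rw [← Finset.sum_div]
  exact div_self h.W_pos.ne'

lemma SH.beta_nonneg (h : SH A w K) (x : α) : 0 ≤ beta A w K x :=
  Finset.sum_nonneg fun _ hQ => h.qq_nonneg (Finset.mem_filter.1 hQ).1

lemma SH.one_sub_beta (h : SH A w K) {x : α} (hx : x ∈ A) : 99 / 100 ≤ 1 - beta A w K x := by
  linarith [h.beta_le x hx]

lemma SH.w1_pos (h : SH A w K) {x : α} (hx : x ∈ A) : 0 < w1 A w K x :=
  div_pos (h.wpos x hx) (by linarith [h.one_sub_beta hx])

lemma SH.w_le_w1 (h : SH A w K) {x : α} (hx : x ∈ A) : w x ≤ w1 A w K x := by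
  unfold w1
  rw [le_div_iff₀ (by linarith [h.one_sub_beta hx])]
  nlinarith [h.beta_nonneg x, (h.wpos x hx).le]

lemma SH.w1_le (h : SH A w K) {x : α} (hx : x ∈ A) : w1 A w K x ≤ (100 / 99) * w x := by
  unfold w1
  rw [div_le_iff₀ (by linarith [h.one_sub_beta hx])]
  nlinarith [h.one_sub_beta hx, (h.wpos x hx).le]

lemma SH.w1_mul (h : SH A w K) {x : α} (hx : x ∈ A) :
    w1 A w K x * (1 - beta A w K x) = w x := by
  unfold w1
  exact div_mul_cancel₀ _ (by linarith [h.one_sub_beta hx] : (1 - beta A w K x) ≠ 0)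

lemma SH.sum_not (h : SH A w K) (x : α) :
    ∑ Q ∈ A.filter (fun Q => x ∉ K Q), qq A w Q = 1 - beta A w K x := by
  have := Finset.sum_filter_add_sum_filter_not A (fun Q => x ∈ K Q) (fun Q => qq A w Q)
  rw [h.sum_qq] at this
  unfold beta
  linarith

/-- exchange of the averaging with a linear functional of the survivors -/
lemma sum_linear (G X : Finset α) (q g : α → ℝ) (K : α → Finset α) :
    ∑ Q ∈ G, q Q * ∑ x ∈ X \ K Q, g x =
      ∑ x ∈ X, g x * ∑ Q ∈ G.filter (fun Q => x ∉ K Q), q Q := by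
  have h1 : ∀ Q ∈ G, q Q * ∑ x ∈ X \ K Q, g x =
      ∑ x ∈ X, if x ∉ K Q then q Q * g x else 0 := by
    intro Q _
    rw [← Finset.sum_filter, Finset.mul_sum]
    refine Finset.sum_congr ?_ fun _ _ => rfl
    ext x; simp [Finset.mem_sdiff]
  rw [Finset.sum_congr rfl h1, Finset.sum_comm]
  refine Finset.sum_congr rfl fun x _ => ?_
  rw [Finset.mul_sum, Finset.sum_filter]
  refine Finset.sum_congr rfl fun Q _ => ?_
  split_ifs <;> ring

/-- exchange of the averaging with `E` of the survivors -/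
lemma sum_E (G X : Finset α) (q g : α → ℝ) (K : α → Finset α) (r : ℕ) :
    ∑ Q ∈ G, q Q * E r (X \ K Q) g =
      ∑ J ∈ X.powersetCard r, (∏ x ∈ J, g x) *
        ∑ Q ∈ G.filter (fun Q => Disjoint J (K Q)), q Q := by
  have h1 : ∀ Q ∈ G, q Q * E r (X \ K Q) g =
      ∑ J ∈ X.powersetCard r, if Disjoint J (K Q) then q Q * ∏ x ∈ J, g x else 0 := by
    intro Q _
    unfold E
    rw [← Finset.sum_filter, Finset.mul_sum]
    refine Finset.sum_congr ?_ fun _ _ => rfl
    ext J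
    simp only [Finset.mem_powersetCard, Finset.mem_filter, Finset.subset_sdiff]
    tauto
  rw [Finset.sum_congr rfl h1, Finset.sum_comm]
  refine Finset.sum_congr rfl fun x _ => ?_
  rw [Finset.mul_sum, Finset.sum_filter]
  refine Finset.sum_congr rfl fun Q _ => ?_
  split_ifs <;> ring

/-- If at most one point of `J` is killed by each `Q ∈ G`. -/
lemma sum_disjoint (G J : Finset α) (q : α → ℝ) (K : α → Finset α)
    (h1 : ∀ Q ∈ G, (J ∩ K Q).card ≤ 1) :
    ∑ Q ∈ G.filter (fun Q => Disjoint J (K Q)), q Q =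
      ∑ Q ∈ G, q Q - ∑ x ∈ J, ∑ Q ∈ G.filter (fun Q => x ∈ K Q), q Q := by
  have h2 : ∑ x ∈ J, ∑ Q ∈ G.filter (fun Q => x ∈ K Q), q Q =
      ∑ Q ∈ G.filter (fun Q => ¬ Disjoint J (K Q)), q Q := by
    have h3 : ∑ x ∈ J, ∑ Q ∈ G.filter (fun Q => x ∈ K Q), q Q =
        ∑ Q ∈ G, ∑ x ∈ J, if x ∈ K Q then q Q else 0 := by
      rw [Finset.sum_comm]
      refine Finset.sum_congr rfl fun x _ => ?_
      rw [Finset.sum_filter]
    rw [h3, Finset.sum_filter]
    refine Finset.sum_congr rfl fun Q hQ => ?_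
    rw [← Finset.sum_filter]
    have h4 : J.filter (fun x => x ∈ K Q) = J ∩ K Q := by
      ext x; simp [Finset.mem_filter, Finset.mem_inter]
    rw [h4, Finset.sum_const, nsmul_eq_mul]
    by_cases hd : Disjoint J (K Q)
    · rw [Finset.disjoint_iff_inter_eq_empty.1 hd]; simp [hd]
    · have h5 : (J ∩ K Q).card = 1 := by
        have h6 := h1 Q hQ
        have h7 : (J ∩ K Q).Nonempty := by
          rw [Finset.nonempty_iff_ne_empty]
          exact fun h => hd (Finset.disjoint_iff_inter_eq_empty.2 h)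
        have := h7.card_pos
        omega
      rw [h5]; simp [hd]
  have h3 := Finset.sum_filter_add_sum_filter_not G (fun Q => Disjoint J (K Q)) q
  linarith

/-- (case N) no internal kill. -/
lemma SH.avg_E_N (h : SH A w K) (X : Finset α) (hX : X ⊆ A)
    (h1 : ∀ Q ∈ A, (X ∩ K Q).card ≤ 1) (r : ℕ) :
    ∑ Q ∈ A, qq A w Q * E r (X \ K Q) (w1 A w K) ≤ E r X w := by
  rw [sum_E]
  unfold E
  refine Finset.sum_le_sum fun J hJ => ?_
  have hJX := (Finset.mem_powersetCard.1 hJ).1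
  have h2 : ∀ Q ∈ A, (J ∩ K Q).card ≤ 1 := fun Q hQ =>
    (Finset.card_le_card (Finset.inter_subset_inter_right hJX)).trans (h1 Q hQ)
  rw [sum_disjoint A J _ K h2, h.sum_qq]
  have h3 : ∑ x ∈ J, ∑ Q ∈ A.filter (fun Q => x ∈ K Q), qq A w Q =
      ∑ x ∈ J, beta A w K x := rfl
  rw [h3]
  have h4 := one_sub_sum_le_prod J (beta A w K) (fun i _ => h.beta_nonneg i)
    (fun i hi => by linarith [h.beta_le i (hX (hJX hi))])
  have h5 : 0 ≤ ∏ x ∈ J, w1 A w K x :=
    Finset.prod_nonneg fun x hx => (h.w1_pos (hX (hJX hx))).le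
  calc (∏ x ∈ J, w1 A w K x) * (1 - ∑ x ∈ J, beta A w K x)
      ≤ (∏ x ∈ J, w1 A w K x) * ∏ x ∈ J, (1 - beta A w K x) :=
        mul_le_mul_of_nonneg_left h4 h5
    _ = ∏ x ∈ J, w x := by
        rw [← Finset.prod_mul_distrib]
        exact Finset.prod_congr rfl fun x hx => h.w1_mul (hX (hJX hx))

/-- (case C) light block with internal kill. -/
lemma SH.avg_E_C (h : SH A w K) (X : Finset α) (hX : X ⊆ A)
    (h1 : ∀ Q ∈ A \ X, (X ∩ K Q).card ≤ 1)
    (h2 : ∀ Q ∈ X, ∀ x ∈ X, x ≠ Q → x ∈ K Q) (h2' : ∀ Q ∈ X, Q ∉ K Q)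
    (r : ℕ) (hr : r ≤ 4) (hr0 : r ≠ 0) (hqX : ∑ x ∈ X, qq A w x ≤ 1 / 20) :
    ∑ Q ∈ A \ X, qq A w Q * E r (X \ K Q) (w1 A w K) ≤
      (1 + 6 * ∑ x ∈ X, qq A w x) * E r X w := by
  set qX := ∑ x ∈ X, qq A w x with hqXdef
  have hqX0 : 0 ≤ qX := Finset.sum_nonneg fun x hx => h.qq_nonneg (hX hx)
  rw [sum_E]
  unfold E
  rw [Finset.mul_sum]
  refine Finset.sum_le_sum fun J hJ => ?_
  have hJX := (Finset.mem_powersetCard.1 hJ).1
  have hJc := (Finset.mem_powersetCard.1 hJ).2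
  have h3 : ∀ Q ∈ A \ X, (J ∩ K Q).card ≤ 1 := fun Q hQ =>
    (Finset.card_le_card (Finset.inter_subset_inter_right hJX)).trans (h1 Q hQ)
  rw [sum_disjoint (A \ X) J _ K h3]
  -- external kill probability
  set be : α → ℝ := fun x => ∑ Q ∈ (A \ X).filter (fun Q => x ∈ K Q), qq A w Q with hbe
  have hbe0 : ∀ x, 0 ≤ be x := fun x => Finset.sum_nonneg fun Q hQ =>
    h.qq_nonneg (Finset.mem_sdiff.1 (Finset.mem_filter.1 hQ).1).1
  have hsplit : ∀ x ∈ X, beta A w K x = be x + (qX - qq A w x) := by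
    intro x hx
    have e1 : A.filter (fun Q => x ∈ K Q) =
        (A \ X).filter (fun Q => x ∈ K Q) ∪ X.erase x := by
      ext Q
      simp only [Finset.mem_filter, Finset.mem_union, Finset.mem_sdiff, Finset.mem_erase]
      constructor
      · rintro ⟨hQ, hxQ⟩
        by_cases hQX : Q ∈ X
        · refine Or.inr ⟨?_, hQX⟩
          rintro rfl
          exact h2' Q hQX hxQ
        · exact Or.inl ⟨⟨hQ, hQX⟩, hxQ⟩
      · rintro (⟨⟨hQ, _⟩, hxQ⟩ | ⟨hne, hQX⟩)
        · exact ⟨hQ, hxQ⟩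
        · exact ⟨hX hQX, h2 Q hQX x hx (Ne.symm hne)⟩
    have hdisj : Disjoint ((A \ X).filter (fun Q => x ∈ K Q)) (X.erase x) := by
      rw [Finset.disjoint_left]
      intro Q hQ hQ'
      exact (Finset.mem_sdiff.1 (Finset.mem_filter.1 hQ).1).2 (Finset.mem_of_mem_erase hQ')
    unfold beta
    rw [e1, Finset.sum_union hdisj]
    have := Finset.add_sum_erase X (fun Q => qq A w Q) hx
    have h9 : ∑ Q ∈ X.erase x, qq A w Q = qX - qq A w x := by linarith
    rw [h9]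
  have hAX : ∑ Q ∈ A \ X, qq A w Q = 1 - qX := by
    have := Finset.sum_sdiff (f := fun Q => qq A w Q) hX
    rw [h.sum_qq] at this
    linarith
  rw [hAX]
  have h5 : 0 ≤ ∏ x ∈ J, w1 A w K x :=
    Finset.prod_nonneg fun x hx => (h.w1_pos (hX (hJX hx))).le
  have hwprod : (∏ x ∈ J, w1 A w K x) * ∏ x ∈ J, (1 - beta A w K x) = ∏ x ∈ J, w x := by
    rw [← Finset.prod_mul_distrib]
    exact Finset.prod_congr rfl fun x hx => h.w1_mul (hX (hJX hx))
  have h4 := one_sub_sum_le_prod J (beta A w K) (fun i _ => h.beta_nonneg i)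
    (fun i hi => by linarith [h.beta_le i (hX (hJX hi))])
  have hsumbe : ∑ x ∈ J, be x ≤ 4 / 100 := by
    have h6 : ∀ x ∈ J, be x ≤ 1 / 100 := by
      intro x hx
      have h7 := hsplit x (hJX hx)
      have h8 := h.beta_le x (hX (hJX hx))
      have h9 : qq A w x ≤ qX :=
        Finset.single_le_sum (f := fun x => qq A w x) (fun y hy => h.qq_nonneg (hX hy)) (hJX hx)
      linarith
    calc ∑ x ∈ J, be x ≤ ∑ x ∈ J, (1 / 100 : ℝ) := Finset.sum_le_sum h6
      _ = J.card * (1 / 100) := by rw [Finset.sum_const, nsmul_eq_mul]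
      _ ≤ 4 / 100 := by
        rw [hJc]
        have : (r : ℝ) ≤ 4 := by exact_mod_cast hr
        linarith
  have hsumbeta : ∑ x ∈ J, beta A w K x ≤ ∑ x ∈ J, be x + r * qX := by
    calc ∑ x ∈ J, beta A w K x ≤ ∑ x ∈ J, (be x + qX) := by
          refine Finset.sum_le_sum fun x hx => ?_
          rw [hsplit x (hJX hx)]
          linarith [h.qq_nonneg (hX (hJX hx))]
      _ = _ := by rw [Finset.sum_add_distrib, Finset.sum_const, nsmul_eq_mul, hJc]
  have hr4 : (r : ℝ) ≤ 4 := by exact_mod_cast hr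
  have hr1 : (1 : ℝ) ≤ r := by exact_mod_cast Nat.one_le_iff_ne_zero.2 hr0
  set s := ∑ x ∈ J, be x with hs
  have hs0 : 0 ≤ s := Finset.sum_nonneg fun x _ => hbe0 x
  -- the scalar inequality
  have hscal : (1 - qX - s) ≤ (1 + 6 * qX) * (1 - s - r * qX) := by
    nlinarith [mul_nonneg hqX0 hs0, mul_nonneg hqX0 hqX0]
  have hpp : 1 - s - r * qX ≤ ∏ x ∈ J, (1 - beta A w K x) := by linarith
  calc (∏ x ∈ J, w1 A w K x) * (1 - qX - s)
      ≤ (∏ x ∈ J, w1 A w K x) * ((1 + 6 * qX) * (1 - s - r * qX)) :=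
        mul_le_mul_of_nonneg_left hscal h5
    _ ≤ (∏ x ∈ J, w1 A w K x) * ((1 + 6 * qX) * ∏ x ∈ J, (1 - beta A w K x)) := by
        refine mul_le_mul_of_nonneg_left ?_ h5
        exact mul_le_mul_of_nonneg_left hpp (by linarith)
    _ = (1 + 6 * qX) * ∏ x ∈ J, w x := by rw [← hwprod]; ring

/-- placing a point in the block -/
lemma SH.avg_E_erase (h : SH A w K) (X : Finset α) (hX : X ⊆ A) (r : ℕ) (hr : r ≤ 3) :
    ∑ Q ∈ X, qq A w Q * E r (X.erase Q) (w1 A w K) ≤ (21 / 10) * ((r + 1) * E (r + 1) X w) := by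
  rw [← sum_mul_E_erase]
  rw [Finset.mul_sum]
  refine Finset.sum_le_sum fun Q hQ => ?_
  have h1 : E r (X.erase Q) (w1 A w K) ≤ (100 / 99) ^ r * E r (X.erase Q) w := by
    rw [← E_smul_le]
    refine E_mono_weight r _ _ _ (fun x hx => ?_) (fun x hx => ?_)
    · exact (h.w1_pos (hX (Finset.mem_of_mem_erase hx))).le
    · exact h.w1_le (hX (Finset.mem_of_mem_erase hx))
  have h2 : ((100 : ℝ) / 99) ^ r ≤ 105 / 100 := by
    calc ((100 : ℝ) / 99) ^ r ≤ (100 / 99) ^ 3 := pow_le_pow_right₀ (by norm_num) hr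
      _ ≤ 105 / 100 := by norm_num
  have h3 : 0 ≤ E r (X.erase Q) w := E_nonneg _ _ _ fun x hx =>
    (h.wpos x (hX (Finset.mem_of_mem_erase hx))).le
  have h4 := h.qq_le (hX hQ)
  have h5 := h.qq_nonneg (hX hQ)
  have hw := (h.wpos Q (hX hQ)).le
  calc qq A w Q * E r (X.erase Q) (w1 A w K)
      ≤ (2 * w Q) * ((105 / 100) * E r (X.erase Q) w) := by
        refine mul_le_mul h4 (h1.trans (mul_le_mul_of_nonneg_right h2 h3)) ?_ (by linarith)
        exact E_nonneg _ _ _ fun x hx => (h.w1_pos (hX (Finset.mem_of_mem_erase hx))).le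
    _ = (21 / 10) * (w Q * E r (X.erase Q) w) := by ring

end step

end Pool.Agent.Grid3D.P
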