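import Pool.Agent.Grid3D.PState

set_option autoImplicit false

/-! The invariants are preserved by a step. -/

namespace Pool.Agent.Grid3D.P

open Finset Classical

namespace PD

variable {α : Type} [DecidableEq α] {P : PD α} {s : St α} {t : ℕ}

lemma T_update (t i : ℕ) (hi : i ≤ t) (Q : α) (b : Finset α) :
    (P.step s t Q).T i b = s.T i b := by
  unfold St.T step
  ext j
  simp only [Finset.mem_filter, Finset.mem_range]
  constructor
  · rintro ⟨h1, h2⟩
    rw [Function.update_of_ne (by omega)] at h2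
    exact ⟨h1, h2⟩
  · rintro ⟨h1, h2⟩
    rw [Function.update_of_ne (by omega)]
    exact ⟨h1, h2⟩

lemma T_succ_mem (t : ℕ) {Q : α} {b : Finset α} (hQ : Q ∈ b) :
    (P.step s t Q).T (t + 1) b = insert t (s.T t b) := by
  unfold St.T step
  ext j
  simp only [Finset.mem_filter, Finset.mem_range, Finset.mem_insert]
  constructor
  · rintro ⟨h1, h2⟩
    by_cases hj : j = t
    · exact Or.inl hj
    · rw [Function.update_of_ne hj] at h2
      exact Or.inr ⟨by omega, h2⟩
  · rintro (h | ⟨h1, h2⟩)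
    · subst h
      exact ⟨by omega, by rw [Function.update_self]; exact hQ⟩
    · exact ⟨by omega, by rw [Function.update_of_ne (by omega)]; exact h2⟩

lemma T_succ_notMem (t : ℕ) {Q : α} {b : Finset α} (hQ : Q ∉ b) :
    (P.step s t Q).T (t + 1) b = s.T t b := by
  unfold St.T step
  ext j
  simp only [Finset.mem_filter, Finset.mem_range]
  constructor
  · rintro ⟨h1, h2⟩
    by_cases hj : j = t
    · subst hj
      rw [Function.update_self] at h2
      exact absurd h2 hQ
    · rw [Function.update_of_ne hj] at h2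
      exact ⟨by omega, h2⟩
  · rintro ⟨h1, h2⟩
    exact ⟨by omega, by rw [Function.update_of_ne (by omega)]; exact h2⟩

lemma step_A_sub (Q : α) : (P.step s t Q).A ⊆ s.A \ P.K s t Q := Finset.sdiff_subset

lemma step_A_sub' (Q : α) : (P.step s t Q).A ⊆ s.A :=
  (step_A_sub Q).trans Finset.sdiff_subset

lemma Q_notMem (Q : α) : Q ∉ (P.step s t Q).A := by
  intro h
  exact (Finset.mem_sdiff.1 h).2 (Finset.mem_insert_self _ _)

lemma mem_step {Q x : α} (h : x ∈ (P.step s t Q).A) :
    x ∈ s.A ∧ x ∉ P.K s t Q ∧ x ≠ Q ∧ x ∉ P.RH s t Q ∧ x ∉ P.RC s t Q ∧ x ∉ P.RO s t Q := by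
  have h1 := Finset.mem_sdiff.1 h
  have h2 := Finset.mem_sdiff.1 h1.1
  refine ⟨h2.1, h2.2, ?_, ?_, ?_, ?_⟩
  · rintro rfl; exact h1.2 (Finset.mem_insert_self _ _)
  · intro hh
    exact h1.2 (Finset.mem_insert_of_mem (Finset.mem_union_left _ (Finset.mem_union_left _ hh)))
  · intro hh
    exact h1.2 (Finset.mem_insert_of_mem (Finset.mem_union_left _ (Finset.mem_union_right _ hh)))
  · intro hh
    exact h1.2 (Finset.mem_insert_of_mem (Finset.mem_union_right _ hh))

/-- a completed block has no alive points -/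
lemma dead_of_c {b : Finset α} (hb : b ∈ P.L ∪ P.H) (hc : P.c s t b) {Q : α}
    (hQ : Q ∈ b) : b ∩ (P.step s t Q).A = ∅ := by
  rw [Finset.eq_empty_iff_forall_notMem]
  intro x hx
  rw [Finset.mem_inter] at hx
  obtain ⟨h1, h2, h3, h4, h5, h6⟩ := mem_step hx.2
  rcases Finset.mem_union.1 hb with hL | hH
  · exact h2 (key3 hL hc hQ (Finset.mem_inter.2 ⟨hx.1, h1⟩) h3)
  · apply h4
    unfold RH
    rw [Finset.mem_filter, Finset.mem_erase, Finset.mem_sdiff]
    exact ⟨⟨h3, h1, h2⟩, b, hH, hc, hQ, hx.1⟩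

lemma dead_of_ovr {b : Finset α} (hb : b ∈ P.Mon) {Q : α} (h : P.ovr s t Q b) :
    b ∩ (P.step s t Q).A = ∅ := by
  rw [Finset.eq_empty_iff_forall_notMem]
  intro x hx
  rw [Finset.mem_inter] at hx
  obtain ⟨h1, h2, h3, h4, h5, h6⟩ := mem_step hx.2
  apply h6
  unfold RO
  rw [Finset.mem_filter, Finset.mem_erase, Finset.mem_sdiff]
  exact ⟨⟨h3, h1, h2⟩, b, hb, hx.1, h⟩

lemma inv_one_sub_le {y : ℝ} (h0 : 0 ≤ y) (h1 : y ≤ 1 / 100) : 1 / (1 - y) ≤ Real.exp (2 * y) := by
  have h2 : 1 + 2 * y ≤ Real.exp (2 * y) := by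
    have := Real.add_one_le_exp (2 * y)
    linarith
  refine le_trans ?_ h2
  rw [div_le_iff₀ (by linarith)]
  nlinarith

/-- the invariants are preserved -/
theorem Inv.step (hP : P.Hyp) (hI : P.Inv s t) (ht : t < P.n) (hW : 1 / 2 ≤ Wt s.A s.w) {Q : α}
    (hQ : Q ∈ s.A) : P.Inv (P.step s t Q) (t + 1) := by
  have h := hI.SH hP hW
  have hwm := wm_pos hP
  have hC := Cpos hP
  have hn := npos hP
  have hb0 : ∀ x ∈ s.A, 0 ≤ beta s.A s.w (P.K s t) x := fun x _ => h.beta_nonneg x
  have hW1 : ∀ x ∈ s.A, 0 < P.W1 s t x := fun x hx => h.w1_pos hx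
  have hsub : (P.step s t Q).A ⊆ s.A := step_A_sub' Q
  have hRHsub : P.RH s t Q ⊆ s.A := fun x hx =>
    (Finset.mem_sdiff.1 (Finset.mem_of_mem_erase (Finset.mem_filter.1 hx).1)).1
  have hROsub : P.RO s t Q ⊆ s.A := fun x hx =>
    (Finset.mem_sdiff.1 (Finset.mem_of_mem_erase (Finset.mem_filter.1 hx).1)).1
  have hRCsub : P.RC s t Q ⊆ s.A := fun x hx =>
    (Finset.mem_sdiff.1 (Finset.mem_filter.1 hx).1).1
  refine
    { AC := hsub.trans hI.AC
      wpos := fun x hx => hW1 x (hsub hx)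
      wle := fun x hx => ?_
      S0 := fun x hx => add_nonneg (hI.S0 x (hsub hx)) (hb0 x (hsub hx))
      SG := fun x hx => ?_
      mon := fun b hb => ?_
      rho1 := fun b => ?_
      rho0 := fun b hb => ?_
      dead := fun b hb hc => ?_
      fC := fun i hi => ?_
      finj := fun i hi j hj hij => ?_
      good := fun b hb i hi hc => ?_
      lQ := ?_
      tot := ?_
      lH0 := add_nonneg hI.lH0 (Finset.sum_nonneg fun x hx => (hW1 x (hRHsub hx)).le)
      lC0 := add_nonneg hI.lC0 (Finset.sum_nonneg fun x hx => (hW1 x (hRCsub hx)).le)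
      lO0 := add_nonneg hI.lO0 (Finset.sum_nonneg fun x hx => (hW1 x (hROsub hx)).le) }
  · -- wle
    have hx' := hsub hx
    show P.W1 s t x ≤ Real.exp (2 * P.S1 s t x) / P.C.card
    unfold W1 S1 w1
    set y := beta s.A s.w (P.K s t) x with hy
    have hy0 : 0 ≤ y := hb0 x hx'
    have hy1 : y ≤ 1 / 100 := h.beta_le x hx'
    have e1 := inv_one_sub_le hy0 hy1
    have e2 := hI.wle x hx'
    have e3 := (hI.wpos x hx').le
    calc s.w x / (1 - y) = s.w x * (1 / (1 - y)) := by ring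
      _ ≤ s.w x * Real.exp (2 * y) := mul_le_mul_of_nonneg_left e1 e3
      _ ≤ (Real.exp (2 * s.S x) / P.C.card) * Real.exp (2 * y) :=
          mul_le_mul_of_nonneg_right e2 (Real.exp_pos _).le
      _ = Real.exp (2 * (s.S x + y)) / P.C.card := by
          rw [mul_add, Real.exp_add]; ring
  · -- SG
    obtain ⟨h1, h2, h3, h4, h5, h6⟩ := mem_step hx
    show P.S1 s t x ≤ P.Gam
    by_contra hc
    push Not at hc
    apply h5
    unfold RC
    rw [Finset.mem_filter, Finset.mem_sdiff]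
    exact ⟨⟨h1, h2⟩, hc⟩
  · -- mon
    by_cases ho : P.ovr s t Q b
    · rw [dead_of_ovr hb ho, Finset.sum_empty]
      positivity
    · unfold ovr at ho
      push Not at ho
      refine le_trans ?_ ho
      refine Finset.sum_le_sum_of_subset_of_nonneg ?_ ?_
      · intro x hx
        rw [Finset.mem_inter] at hx
        obtain ⟨h1, h2, _⟩ := mem_step hx.2
        exact Finset.mem_sdiff.2 ⟨Finset.mem_inter.2 ⟨hx.1, h1⟩, h2⟩
      · intro x hx _
        exact (hW1 x (Finset.mem_inter.1 (Finset.mem_sdiff.1 hx).1).2).le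
  · -- rho1
    show P.rho1 s t b ≤ 1
    unfold PD.rho1
    split_ifs with hc
    · have hq0 : 0 ≤ ∑ x ∈ b ∩ s.A, qq s.A s.w x :=
        Finset.sum_nonneg fun x hx => h.qq_nonneg (Finset.mem_inter.1 hx).2
      have hq1 : ∑ x ∈ b ∩ s.A, qq s.A s.w x ≤ 1 := by
        rw [← h.sum_qq]
        exact Finset.sum_le_sum_of_subset_of_nonneg Finset.inter_subset_right
          fun x hx _ => h.qq_nonneg hx
      have := hI.rho1 b
      nlinarith
    · exact hI.rho1 b
  · -- rho0
    show 1 - ((t + 1 : ℕ) : ℝ) / (10 * P.n) ≤ P.rho1 s t b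
    have hr0 := hI.rho0 b hb
    have hr1 := hI.rho1 b
    have htn : (t : ℝ) ≤ P.n := by exact_mod_cast ht.le
    have e0 : ((t + 1 : ℕ) : ℝ) / (10 * P.n) = (t : ℝ) / (10 * P.n) + 1 / (10 * P.n) := by
      push_cast; rw [add_div]
    have e1 : 0 < 1 / (10 * (P.n : ℝ)) := by positivity
    unfold PD.rho1
    split_ifs with hc
    · have hq := hI.q_light hP hW hb
      have hq0 : 0 ≤ ∑ x ∈ b ∩ s.A, qq s.A s.w x :=
        Finset.sum_nonneg fun x hx => h.qq_nonneg (Finset.mem_inter.1 hx).2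
      rw [e0]
      nlinarith
    · rw [e0]; linarith
  · -- dead
    by_cases hQb : Q ∈ b
    · rw [T_succ_mem t hQb] at hc
      by_cases hc0 : P.cmp b (s.T t b)
      · have := hI.dead b hb hc0
        have hmem : Q ∈ b ∩ s.A := Finset.mem_inter.2 ⟨hQb, hQ⟩
        rw [this] at hmem
        simp at hmem
      · exact dead_of_c hb ⟨hc0, hc⟩ hQb
    · rw [T_succ_notMem t hQb] at hc
      have := hI.dead b hb hc
      rw [← Finset.subset_empty, ← this]
      exact Finset.inter_subset_inter_left hsub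
  · -- fC
    by_cases hit : i = t
    · subst hit
      show Function.update s.f i Q i ∈ P.C ∧ Function.update s.f i Q i ∉ _
      rw [Function.update_self]
      exact ⟨hI.AC hQ, Q_notMem Q⟩
    · show Function.update s.f t Q i ∈ P.C ∧ Function.update s.f t Q i ∉ _
      rw [Function.update_of_ne hit]
      have := hI.fC i (by omega)
      exact ⟨this.1, fun hh => this.2 (hsub hh)⟩
  · -- finj
    change Function.update s.f t Q i = Function.update s.f t Q j at hij
    by_cases hit : i = t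
    · by_cases hjt : j = t
      · omega
      · exfalso
        rw [hit, Function.update_self, Function.update_of_ne hjt] at hij
        exact (hI.fC j (by omega)).2 (hij ▸ hQ)
    · by_cases hjt : j = t
      · exfalso
        rw [hjt, Function.update_self, Function.update_of_ne hit] at hij
        exact (hI.fC i (by omega)).2 (hij ▸ hQ)
      · rw [Function.update_of_ne hit, Function.update_of_ne hjt] at hij
        exact hI.finj i (by omega) j (by omega) hij
  · -- good
    rw [T_update t i (by omega)] at hc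
    show Function.update s.f t Q i ∉ b
    by_cases hit : i = t
    · subst hit
      rw [Function.update_self]
      intro hQb
      have := hI.dead b hb hc
      have hmem : Q ∈ b ∩ s.A := Finset.mem_inter.2 ⟨hQb, hQ⟩
      rw [this] at hmem
      simp at hmem
    · rw [Function.update_of_ne hit]
      exact hI.good b hb i (by omega) hc
  · -- lQ
    show s.lQ + P.W1 s t Q ≤ (102 / 100) * ((t + 1 : ℕ) : ℝ) * P.wm
    have e1 : P.W1 s t Q ≤ (100 / 99) * s.w Q := h.w1_le hQ
    have e2 := hI.w_le hP hQ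
    have e3 := hI.lQ
    push_cast
    nlinarith
  · -- tot
    have hA : ∑ x ∈ s.A \ P.K s t Q, P.W1 s t x ≤
        ∑ x ∈ (P.step s t Q).A, P.W1 s t x + ∑ x ∈ P.RH s t Q, P.W1 s t x +
        ∑ x ∈ P.RC s t Q, P.W1 s t x + ∑ x ∈ P.RO s t Q, P.W1 s t x + P.W1 s t Q := by
      have hnn : ∀ x ∈ s.A, 0 ≤ P.W1 s t x := fun x hx => (hW1 x hx).le
      have hs1 : ∀ U V : Finset α, U ⊆ s.A → V ⊆ s.A →
          ∑ x ∈ U ∪ V, P.W1 s t x ≤ ∑ x ∈ U, P.W1 s t x + ∑ x ∈ V, P.W1 s t x := by
        intro U V hU hV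
        rw [← Finset.sum_union_inter]
        have : 0 ≤ ∑ x ∈ U ∩ V, P.W1 s t x :=
          Finset.sum_nonneg fun x hx => hnn x (hU (Finset.mem_inter.1 hx).1)
        linarith
      have hcover : s.A \ P.K s t Q ⊆ (P.step s t Q).A ∪
          (insert Q (P.RH s t Q ∪ P.RC s t Q ∪ P.RO s t Q)) := by
        intro x hx
        by_cases hx2 : x ∈ insert Q (P.RH s t Q ∪ P.RC s t Q ∪ P.RO s t Q)
        · exact Finset.mem_union_right _ hx2
        · exact Finset.mem_union_left _ (Finset.mem_sdiff.2 ⟨hx, hx2⟩)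
      have hU3 : P.RH s t Q ∪ P.RC s t Q ⊆ s.A := Finset.union_subset hRHsub hRCsub
      have hU4 : P.RH s t Q ∪ P.RC s t Q ∪ P.RO s t Q ⊆ s.A := Finset.union_subset hU3 hROsub
      have hU5 : insert Q (P.RH s t Q ∪ P.RC s t Q ∪ P.RO s t Q) ⊆ s.A := by
        intro x hx
        rcases Finset.mem_insert.1 hx with rfl | hx
        · exact hQ
        · exact hU4 hx
      have e1 : ∑ x ∈ s.A \ P.K s t Q, P.W1 s t x ≤ ∑ x ∈ (P.step s t Q).A ∪
          (insert Q (P.RH s t Q ∪ P.RC s t Q ∪ P.RO s t Q)), P.W1 s t x :=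
        Finset.sum_le_sum_of_subset_of_nonneg hcover fun x hx _ =>
          hnn x (Finset.union_subset hsub hU5 hx)
      have e2 := hs1 _ _ hsub hU5
      have e3 : ∑ x ∈ insert Q (P.RH s t Q ∪ P.RC s t Q ∪ P.RO s t Q), P.W1 s t x ≤
          P.W1 s t Q + ∑ x ∈ P.RH s t Q ∪ P.RC s t Q ∪ P.RO s t Q, P.W1 s t x := by
        have := hs1 {Q} (P.RH s t Q ∪ P.RC s t Q ∪ P.RO s t Q)
          (Finset.singleton_subset_iff.2 hQ) hU4
        rw [Finset.sum_singleton] at this
        rw [Finset.insert_eq]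
        exact this
      have e4 := hs1 _ _ hU3 hROsub
      have e5 := hs1 _ _ hRHsub hRCsub
      linarith
    have htot := hI.tot
    have hWt : Wt (P.step s t Q).A (P.step s t Q).w = ∑ x ∈ (P.step s t Q).A, P.W1 s t x := rfl
    have hlH : (P.step s t Q).lH = s.lH + ∑ x ∈ P.RH s t Q, P.W1 s t x := rfl
    have hlC : (P.step s t Q).lC = s.lC + ∑ x ∈ P.RC s t Q, P.W1 s t x := rfl
    have hlO : (P.step s t Q).lO = s.lO + ∑ x ∈ P.RO s t Q, P.W1 s t x := rfl
    have hlQ : (P.step s t Q).lQ = s.lQ + P.W1 s t Q := rfl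
    have hD : (P.step s t Q).D = s.D - (∑ x ∈ s.A \ P.K s t Q, P.W1 s t x - Wt s.A s.w) := rfl
    rw [hWt, hlH, hlC, hlO, hlQ, hD]
    linarith

end PD

end Pool.Agent.Grid3D.P
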