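import Mathlib

set_option autoImplicit false

/-! Statement of the purely combinatorial process theorem (P) of `proof/MP_325b7c_co_alt`. -/

namespace Pool.Agent.Grid3D.P

open Finset Classical

/-- The conclusion and hypotheses of the process theorem.
`C` = set of candidate positions, `L` = light blocks, `H` = heavy blocks (blocks are subsets of `C`),
`adj` = adjacency of the vertices `0, …, n-1`, `k` = (an upper bound for) the number of edges,
`Gam` = cap for the accumulated hazard, `Del` = degree bound, `s0` = size bound of poor light blocks. -/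
def ProcessTheorem : Prop :=
  ∀ {α : Type} [DecidableEq α] (C : Finset α) (L H : Finset (Finset α)) (n k : ℕ)
    (adj : ℕ → ℕ → Prop) (Gam Del s0 : ℝ),
    (∀ x y, adj x y → adj y x) → (∀ x, ¬ adj x x) →
    ((range n ×ˢ range n).filter (fun q => q.1 < q.2 ∧ adj q.1 q.2)).card ≤ k →
    Disjoint L H →
    (∀ b ∈ L ∪ H, b ⊆ C) →
    -- (lin) two different blocks share at most one point
    (∀ b ∈ L ∪ H, ∀ b' ∈ L ∪ H, b ≠ b' → ∀ x y, x ∈ b → x ∈ b' → y ∈ b → y ∈ b' → x = y) →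
    -- (tri) no triangles of blocks
    (∀ b1 ∈ L ∪ H, ∀ b2 ∈ L ∪ H, ∀ b3 ∈ L ∪ H, b1 ≠ b2 → b2 ≠ b3 → b3 ≠ b1 →
      ∀ x y z, x ∈ b1 → x ∈ b2 → y ∈ b2 → y ∈ b3 → z ∈ b3 → z ∈ b1 → x = y) →
    -- (deg) degree in the light blocks
    (∀ x ∈ C, ∑ b ∈ L.filter (fun b => x ∈ b), ((b.card : ℝ) - 1) ≤ Del) →
    1 ≤ n → 0 < C.card → 1 ≤ Gam → 0 ≤ Del → 0 ≤ s0 →
    Del * (Real.exp (2 * Gam) / C.card) ≤ 1 / 200 →
    n * s0 * (Real.exp (2 * Gam) / C.card) ≤ 1 / 20 →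
    -- monitored light blocks (size > s0) are not too large
    (∀ b ∈ L, s0 < (b.card : ℝ) → 80 * (n : ℝ) * b.card ≤ C.card) →
    n * (Real.exp (2 * Gam) / C.card) ≤ 1 / 10 →
    8 * Del ≤ 80 * n →
    256 * n * Del ^ 2 * (Real.exp (2 * Gam) / C.card) ^ 2 +
      8 * (16 * k * (∑ b ∈ H, (b.card : ℝ) ^ 3) / (C.card : ℝ) ^ 3 +
        64 * k * n * (∑ b ∈ L, (b.card : ℝ) ^ 4) / ((C.card : ℝ) ^ 4 * Gam) +
        6 * Gam * (Real.exp (2 * Gam) / C.card) *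
          ((L.filter (fun b => s0 < (b.card : ℝ))).card : ℝ)) < 1 →
    ∃ f : ℕ → α, (∀ v < n, f v ∈ C) ∧ (∀ u < n, ∀ v < n, f u = f v → u = v) ∧
      ∀ b ∈ L ∪ H, ∀ v < n, ∀ w < n, ∀ x < n, ∀ y < n, adj v w → adj x y →
        v ≠ x → v ≠ y → w ≠ x → w ≠ y →
        ¬ (f v ∈ b ∧ f w ∈ b ∧ f x ∈ b ∧ f y ∈ b)

end Pool.Agent.Grid3D.P
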