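import Pool.Agent.Grid3D.PMon
import Pool.Agent.Grid3D.PSpec

set_option autoImplicit false

/-! The process theorem. -/

namespace Pool.Agent.Grid3D.P

open Finset Classical

namespace PD

variable {α : Type} [DecidableEq α] {P : PD α} {s : St α} {t : ℕ}

/-- pointwise majorant of the new potential -/
noncomputable def PhiMaj (P : PD α) (s : St α) (t : ℕ) (Q : α) : ℝ :=
  64 * (s.D - (∑ x ∈ s.A \ P.K s t Q, w1 s.A s.w (P.K s t) x - Wt s.A s.w)) ^ 2 +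
  8 * (s.lH + ∑ b ∈ P.H, (P.Bn s t Q b +
      (if P.c s t b ∧ Q ∈ b then ∑ x ∈ (b ∩ s.A).erase Q, P.W1 s t x else 0))) +
  8 * (s.lC + (1 / P.Gam) * ((∑ x ∈ (P.step s t Q).A, P.W1 s t x * P.S1 s t x +
      P.Gam * ∑ x ∈ P.RC s t Q, P.W1 s t x) + ∑ b ∈ P.L, P.rho1 s t b ^ 6 * P.Bn s t Q b)) +
  8 * (s.lO + ∑ b ∈ P.Mon, ((P.C.card : ℝ) / b.card) * P.Vn s t Q b)

lemma phi_le_maj (hP : P.Hyp) (h : SH s.A s.w (P.K s t)) {Q : α} :
    P.Phi (P.step s t Q) (t + 1) ≤ P.PhiMaj s t Q := by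
  have hG : 0 < P.Gam := by linarith [hP.G1]
  have hC := Cpos hP
  have hW1 : ∀ x ∈ s.A, 0 ≤ P.W1 s t x := fun x hx => (h.w1_pos hx).le
  have eH : ∑ x ∈ P.RH s t Q, P.W1 s t x ≤ ∑ b ∈ P.H,
      (if P.c s t b ∧ Q ∈ b then ∑ x ∈ (b ∩ s.A).erase Q, P.W1 s t x else 0) := by
    refine sum_le_cover _ P.H (P.W1 s t) (fun b => P.c s t b ∧ Q ∈ b)
      (fun b => (b ∩ s.A).erase Q) ?_ ?_
    · intro b _ x hx
      exact hW1 x (Finset.mem_inter.1 (Finset.mem_of_mem_erase hx)).2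
    · intro x hx
      unfold RH at hx
      rw [Finset.mem_filter, Finset.mem_erase, Finset.mem_sdiff] at hx
      obtain ⟨⟨h1, h2, h3⟩, b, hb, hc, hQb, hxb⟩ := hx
      exact ⟨b, hb, ⟨hc, hQb⟩, Finset.mem_erase.2 ⟨h1, Finset.mem_inter.2 ⟨hxb, h2⟩⟩⟩
  have eO : ∑ x ∈ P.RO s t Q, P.W1 s t x ≤ ∑ b ∈ P.Mon,
      (if P.ovr s t Q b then ∑ x ∈ ((b ∩ s.A) \ P.K s t Q).erase Q, P.W1 s t x else 0) := by
    refine sum_le_cover _ P.Mon (P.W1 s t) (fun b => P.ovr s t Q b)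
      (fun b => ((b ∩ s.A) \ P.K s t Q).erase Q) ?_ ?_
    · intro b _ x hx
      exact hW1 x (Finset.mem_inter.1 (Finset.mem_sdiff.1 (Finset.mem_of_mem_erase hx)).1).2
    · intro x hx
      unfold RO at hx
      rw [Finset.mem_filter, Finset.mem_erase, Finset.mem_sdiff] at hx
      obtain ⟨⟨h1, h2, h3⟩, b, hb, hxb, ho⟩ := hx
      exact ⟨b, hb, ho, Finset.mem_erase.2 ⟨h1, Finset.mem_sdiff.2
        ⟨Finset.mem_inter.2 ⟨hxb, h2⟩, h3⟩⟩⟩
  have qD : (P.step s t Q).D = s.D - (∑ x ∈ s.A \ P.K s t Q, w1 s.A s.w (P.K s t) x - Wt s.A s.w) :=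
    rfl
  have qlH : (P.step s t Q).lH = s.lH + ∑ x ∈ P.RH s t Q, P.W1 s t x := rfl
  have qlC : (P.step s t Q).lC = s.lC + ∑ x ∈ P.RC s t Q, P.W1 s t x := rfl
  have qlO : (P.step s t Q).lO = s.lO + ∑ x ∈ P.RO s t Q, P.W1 s t x := rfl
  have qH : P.Hpot (P.step s t Q) (t + 1) = ∑ b ∈ P.H, P.Bn s t Q b := rfl
  have qL : P.Lpot (P.step s t Q) (t + 1) = ∑ x ∈ (P.step s t Q).A, P.W1 s t x * P.S1 s t x +
      ∑ b ∈ P.L, P.rho1 s t b ^ 6 * P.Bn s t Q b := rfl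
  have qO : ∑ b ∈ P.Mon, ((P.C.card : ℝ) / b.card) * P.Vn s t Q b = P.Opot (P.step s t Q) +
      ∑ b ∈ P.Mon,
      (if P.ovr s t Q b then ∑ x ∈ ((b ∩ s.A) \ P.K s t Q).erase Q, P.W1 s t x else 0) := by
    unfold Opot
    rw [← Finset.sum_add_distrib]
    refine Finset.sum_congr rfl fun b hb => ?_
    have hbs : P.s0 < (b.card : ℝ) := (Finset.mem_filter.1 hb).2
    have hb0 : (0 : ℝ) < b.card := lt_of_le_of_lt hP.s00 hbs
    unfold Vn
    rw [mul_add, ← mul_assoc]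
    have : (P.C.card : ℝ) / b.card * ((b.card : ℝ) / P.C.card) = 1 := by
      field_simp
    rw [this, one_mul]
  unfold Phi PhiMaj
  rw [qD, qlH, qlC, qlO, qH, qL, qO, Finset.sum_add_distrib]
  have e3 : (1 / P.Gam) * ((∑ x ∈ (P.step s t Q).A, P.W1 s t x * P.S1 s t x +
      P.Gam * ∑ x ∈ P.RC s t Q, P.W1 s t x) + ∑ b ∈ P.L, P.rho1 s t b ^ 6 * P.Bn s t Q b) =
      ∑ x ∈ P.RC s t Q, P.W1 s t x + (∑ x ∈ (P.step s t Q).A, P.W1 s t x * P.S1 s t x +
      ∑ b ∈ P.L, P.rho1 s t b ^ 6 * P.Bn s t Q b) / P.Gam := by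
    field_simp
    ring
  rw [e3]
  linarith

lemma avg_const_add {ι : Type*} (h : SH s.A s.w (P.K s t)) (I : Finset ι) (c0 : ℝ)
    (F : α → ι → ℝ) :
    ∑ Q ∈ s.A, qq s.A s.w Q * (c0 + ∑ b ∈ I, F Q b) =
      c0 + ∑ b ∈ I, ∑ Q ∈ s.A, qq s.A s.w Q * F Q b := by
  rw [Finset.sum_comm]
  simp_rw [mul_add]
  rw [Finset.sum_add_distrib, ← Finset.sum_mul, h.sum_qq, one_mul]
  congr 1
  exact Finset.sum_congr rfl fun Q _ => by rw [Finset.mul_sum]

theorem phi_avg (hP : P.Hyp) (hI : P.Inv s t) (hW : 1 / 2 ≤ Wt s.A s.w) (ht : t < P.n) :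
    ∑ Q ∈ s.A, qq s.A s.w Q * P.Phi (P.step s t Q) (t + 1) ≤
      P.Phi s t + 256 * P.Del ^ 2 * P.wm ^ 2 := by
  have h := hI.SH hP hW
  have hG : 0 < P.Gam := by linarith [hP.G1]
  have hwm := wm_pos hP
  refine (Finset.sum_le_sum fun Q hQ =>
    mul_le_mul_of_nonneg_left (phi_le_maj hP h) (h.qq_nonneg hQ)).trans ?_
  have e0 : ∑ Q ∈ s.A, qq s.A s.w Q * P.PhiMaj s t Q =
      64 * ∑ Q ∈ s.A, qq s.A s.w Q *
        (s.D - (∑ x ∈ s.A \ P.K s t Q, w1 s.A s.w (P.K s t) x - Wt s.A s.w)) ^ 2 +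
      8 * ∑ Q ∈ s.A, qq s.A s.w Q * (s.lH + ∑ b ∈ P.H, (P.Bn s t Q b +
        (if P.c s t b ∧ Q ∈ b then ∑ x ∈ (b ∩ s.A).erase Q, P.W1 s t x else 0))) +
      8 * (s.lC * ∑ Q ∈ s.A, qq s.A s.w Q + (1 / P.Gam) *
        (∑ Q ∈ s.A, qq s.A s.w Q * (∑ x ∈ (P.step s t Q).A, P.W1 s t x * P.S1 s t x +
          P.Gam * ∑ x ∈ P.RC s t Q, P.W1 s t x) +
        ∑ Q ∈ s.A, qq s.A s.w Q * (0 + ∑ b ∈ P.L, P.rho1 s t b ^ 6 * P.Bn s t Q b))) +
      8 * ∑ Q ∈ s.A, qq s.A s.w Q *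
        (s.lO + ∑ b ∈ P.Mon, ((P.C.card : ℝ) / b.card) * P.Vn s t Q b) := by
    simp_rw [mul_add, Finset.mul_sum, ← Finset.sum_add_distrib, mul_add]
    unfold PhiMaj
    refine Finset.sum_congr rfl fun Q _ => ?_
    simp_rw [Finset.mul_sum]
    ring_nf
    simp_rw [Finset.mul_sum, Finset.sum_mul]
    ring_nf
  rw [e0, avg_const_add h, avg_const_add h, avg_const_add h, h.sum_qq]
  -- the deviation
  have hB : ∀ Q ∈ s.A, ∑ x ∈ P.K s t Q, s.w x ≤ P.Del * P.wm := by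
    intro Q hQ
    calc ∑ x ∈ P.K s t Q, s.w x ≤ ∑ x ∈ P.K s t Q, P.wm :=
          Finset.sum_le_sum fun x hx => hI.w_le hP (K_sub Q hx)
      _ = ((P.K s t Q).card : ℝ) * P.wm := by rw [Finset.sum_const, nsmul_eq_mul]
      _ ≤ P.Del * P.wm := mul_le_mul_of_nonneg_right (K_card hP (hI.AC hQ)) hwm.le
  have h1 := h.avg_sq (fun Q _ => K_sub Q) (P.Del * P.wm) (mul_nonneg hP.D0 hwm.le) hB s.D
  -- heavy blocks
  have h2 : ∑ b ∈ P.H, ∑ Q ∈ s.A, qq s.A s.w Q * (P.Bn s t Q b +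
        (if P.c s t b ∧ Q ∈ b then ∑ x ∈ (b ∩ s.A).erase Q, P.W1 s t x else 0)) ≤ P.Hpot s t :=
    Finset.sum_le_sum fun b hb => heavy_avg hP h ht hb
  -- light blocks
  have h3 := S_avg hI h
  have h4 : ∑ b ∈ P.L, ∑ Q ∈ s.A, qq s.A s.w Q * (P.rho1 s t b ^ 6 * P.Bn s t Q b) +
      ∑ b ∈ P.L, (if P.c s t b then 4 * E 2 (b ∩ s.A) s.w else 0) ≤
      ∑ b ∈ P.L, s.rho b ^ 6 * Bp (P.cmp b) P.n t (s.T t b) (b ∩ s.A) s.w := by
    rw [← Finset.sum_add_distrib]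
    exact Finset.sum_le_sum fun b hb => light_avg hP hI hW ht hb
  -- monitored blocks
  have h5 : ∑ b ∈ P.Mon, ∑ Q ∈ s.A, qq s.A s.w Q * (((P.C.card : ℝ) / b.card) * P.Vn s t Q b) ≤
      P.Opot s := by
    unfold Opot
    refine Finset.sum_le_sum fun b hb => ?_
    have e1 : ∑ Q ∈ s.A, qq s.A s.w Q * (((P.C.card : ℝ) / b.card) * P.Vn s t Q b) =
        ((P.C.card : ℝ) / b.card) * ∑ Q ∈ s.A, qq s.A s.w Q * P.Vn s t Q b := by
      rw [Finset.mul_sum]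
      exact Finset.sum_congr rfl fun Q _ => by ring
    rw [e1]
    exact mul_le_mul_of_nonneg_left (mon_avg hP hI hW ht hb) (by positivity)
  have h6 : (1 / P.Gam) *
        (∑ Q ∈ s.A, qq s.A s.w Q * (∑ x ∈ (P.step s t Q).A, P.W1 s t x * P.S1 s t x +
          P.Gam * ∑ x ∈ P.RC s t Q, P.W1 s t x) +
        (0 + ∑ b ∈ P.L, ∑ Q ∈ s.A, qq s.A s.w Q * (P.rho1 s t b ^ 6 * P.Bn s t Q b))) ≤
        P.Lpot s t / P.Gam := by
    have e8 : P.Lpot s t / P.Gam = (1 / P.Gam) * P.Lpot s t := by ring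
    rw [e8]
    refine mul_le_mul_of_nonneg_left ?_ (by positivity)
    unfold Lpot
    linarith
  unfold Phi
  have e7 : (P.Del * P.wm) ^ 2 = P.Del ^ 2 * P.wm ^ 2 := by ring
  rw [e7] at h1
  linarith

theorem exists_step (hP : P.Hyp) (hI : P.Inv s t) (hPhi : P.Phi s t < 1) (ht : t < P.n) :
    ∃ Q ∈ s.A, P.Inv (P.step s t Q) (t + 1) ∧
      P.Phi (P.step s t Q) (t + 1) ≤ P.Phi s t + 256 * P.Del ^ 2 * P.wm ^ 2 := by
  have hW := hI.W_ge hP ht.le hPhi hI.Hpot_nonneg hI.Lpot_nonneg (hI.Opot_nonneg hP)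
  have h := hI.SH hP hW
  by_contra hcon
  push Not at hcon
  have h1 := phi_avg hP hI hW ht
  have hne : s.A.Nonempty := by
    rw [Finset.nonempty_iff_ne_empty]
    intro he
    unfold Wt at hW
    rw [he] at hW
    norm_num at hW
  have h2 : ∑ Q ∈ s.A, qq s.A s.w Q * (P.Phi s t + 256 * P.Del ^ 2 * P.wm ^ 2) <
      ∑ Q ∈ s.A, qq s.A s.w Q * P.Phi (P.step s t Q) (t + 1) :=
    Finset.sum_lt_sum_of_nonempty hne fun Q hQ =>
      mul_lt_mul_of_pos_left (hcon Q hQ (hI.step hP ht hW hQ)) (h.qq_pos hQ)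
  rw [← Finset.sum_mul, h.sum_qq, one_mul] at h2
  linarith

/-- the initial state -/
noncomputable def init (P : PD α) (x0 : α) : St α where
  A := P.C
  w := fun _ => 1 / P.C.card
  S := fun _ => 0
  rho := fun _ => 1
  f := fun _ => x0
  D := 0
  lH := 0
  lC := 0
  lO := 0
  lQ := 0

lemma init_T (x0 : α) (b : Finset α) : (P.init x0).T 0 b = ∅ := by
  unfold St.T
  simp

lemma init_Wt (hP : P.Hyp) (x0 : α) : Wt (P.init x0).A (P.init x0).w = 1 := by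
  unfold Wt
  show ∑ x ∈ P.C, (1 : ℝ) / P.C.card = 1
  rw [Finset.sum_const, nsmul_eq_mul]
  have := Cpos hP
  field_simp

theorem init_inv (hP : P.Hyp) (x0 : α) : P.Inv (P.init x0) 0 := by
  have hC := Cpos hP
  refine
    { AC := Finset.Subset.refl _
      wpos := fun x _ => ?_
      wle := fun x _ => ?_
      S0 := fun x _ => le_rfl
      SG := fun x _ => ?_
      mon := fun b hb => ?_
      rho1 := fun b => le_rfl
      rho0 := fun b hb => ?_
      dead := fun b hb hc => ?_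
      fC := fun i hi => absurd hi (Nat.not_lt_zero i)
      finj := fun i hi => absurd hi (Nat.not_lt_zero i)
      good := fun b hb i hi => absurd hi (Nat.not_lt_zero i)
      lQ := ?_
      tot := ?_
      lH0 := le_rfl
      lC0 := le_rfl
      lO0 := le_rfl }
  · show (0 : ℝ) < 1 / P.C.card
    positivity
  · show (1 : ℝ) / P.C.card ≤ Real.exp (2 * 0) / P.C.card
    simp
  · show (0 : ℝ) ≤ P.Gam
    linarith [hP.G1]
  · show ∑ x ∈ b ∩ P.C, (1 : ℝ) / P.C.card ≤ 4 * (b.card : ℝ) / P.C.card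
    rw [Finset.sum_const, nsmul_eq_mul, mul_one_div]
    refine div_le_div_of_nonneg_right ?_ hC.le
    have : ((b ∩ P.C).card : ℝ) ≤ b.card := by
      exact_mod_cast Finset.card_le_card Finset.inter_subset_left
    have h0 : (0 : ℝ) ≤ b.card := Nat.cast_nonneg _
    linarith
  · show 1 - ((0 : ℕ) : ℝ) / (10 * P.n) ≤ 1
    simp
  · rw [init_T] at hc
    obtain ⟨_, x, hx, _⟩ := hc
    simp at hx
  · show (0 : ℝ) ≤ (102 / 100) * ((0 : ℕ) : ℝ) * P.wm
    simp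
  · rw [init_Wt hP]
    show (1 : ℝ) ≤ 1 + 0 + 0 + 0 + 0 + 0
    norm_num

/-- the edges -/
noncomputable def edges (P : PD α) : Finset (ℕ × ℕ) :=
  (range P.n ×ˢ range P.n).filter (fun q => q.1 < q.2 ∧ P.adj q.1 q.2)

omit [DecidableEq α] in
lemma E_const (r : ℕ) (X : Finset α) (c : ℝ) : E r X (fun _ => c) = (X.card.choose r) * c ^ r := by
  unfold E
  rw [Finset.sum_congr rfl (fun J hJ => by
    rw [Finset.prod_const, (Finset.mem_powersetCard.1 hJ).2])]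
  rw [Finset.sum_const, Finset.card_powersetCard, nsmul_eq_mul]

lemma Min_init_heavy (hP : P.Hyp) {b : Finset α} (hb : b ∉ P.L) :
    Min (P.cmp b) P.n 0 ∅ ⊆ P.edges.image (fun q => {q.1, q.2}) ∧
      ∀ Z ∈ Min (P.cmp b) P.n 0 ∅, Z.card = 2 := by
  have key : ∀ Z ∈ Min (P.cmp b) P.n 0 ∅, ∃ x y, x < y ∧ P.adj x y ∧ x < P.n ∧ y < P.n ∧
      Z = {x, y} := by
    intro Z hZ
    have h := (mem_Min _ _ _ _ _).1 hZ
    obtain ⟨x, y, hlt, hxy, hx, hy, hh⟩ := cmp_small hP h.2.1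
    rw [Finset.empty_union] at hx hy
    have hx' := Finset.mem_Ico.1 (h.1 hx)
    have hy' := Finset.mem_Ico.1 (h.1 hy)
    rcases hh with ⟨_, hc⟩ | ⟨hb', _⟩
    · refine ⟨x, y, hlt, hxy, hx'.2, hy'.2, ?_⟩
      have hsub : ({x, y} : Finset ℕ) ⊆ Z := by
        intro u hu
        rcases Finset.mem_insert.1 hu with rfl | hu
        · exact hx
        · rw [Finset.mem_singleton] at hu; subst hu; exact hy
      refine Finset.Subset.antisymm (Min_sub hZ ?_ hc) hsub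
      rw [Finset.empty_union]; exact hsub
    · exact absurd hb' hb
  constructor
  · intro Z hZ
    obtain ⟨x, y, hlt, hxy, hx, hy, rfl⟩ := key Z hZ
    rw [Finset.mem_image]
    refine ⟨(x, y), ?_, rfl⟩
    unfold edges
    rw [Finset.mem_filter, Finset.mem_product]
    exact ⟨⟨Finset.mem_range.2 hx, Finset.mem_range.2 hy⟩, hlt, hxy⟩
  · intro Z hZ
    obtain ⟨x, y, hlt, hxy, hx, hy, rfl⟩ := key Z hZ
    exact Finset.card_pair hlt.ne

lemma Min_init_light (hP : P.Hyp) {b : Finset α} (hb : b ∈ P.L) :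
    Min (P.cmp b) P.n 0 ∅ ⊆ (P.edges ×ˢ range P.n).image (fun q => {q.1.1, q.1.2, q.2}) ∧
      ∀ Z ∈ Min (P.cmp b) P.n 0 ∅, Z.card = 3 := by
  have key : ∀ Z ∈ Min (P.cmp b) P.n 0 ∅, ∃ x y z, x < y ∧ P.adj x y ∧ x < P.n ∧ y < P.n ∧
      z < P.n ∧ z ≠ x ∧ z ≠ y ∧ Z = {x, y, z} := by
    intro Z hZ
    have h := (mem_Min _ _ _ _ _).1 hZ
    obtain ⟨x, y, hlt, hxy, hx, hy, hh⟩ := cmp_small hP h.2.1
    rw [Finset.empty_union] at hx hy
    have hx' := Finset.mem_Ico.1 (h.1 hx)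
    have hy' := Finset.mem_Ico.1 (h.1 hy)
    rcases hh with ⟨hb', _⟩ | ⟨_, z, hz, hzx, hzy, hc⟩
    · exact absurd hb hb'
    · rw [Finset.empty_union] at hz
      have hz' := Finset.mem_Ico.1 (h.1 hz)
      refine ⟨x, y, z, hlt, hxy, hx'.2, hy'.2, hz'.2, hzx, hzy, ?_⟩
      have hsub : ({x, y, z} : Finset ℕ) ⊆ Z := by
        intro u hu
        rcases Finset.mem_insert.1 hu with rfl | hu
        · exact hx
        · rcases Finset.mem_insert.1 hu with rfl | hu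
          · exact hy
          · rw [Finset.mem_singleton] at hu; subst hu; exact hz
      refine Finset.Subset.antisymm (Min_sub hZ ?_ hc) hsub
      rw [Finset.empty_union]; exact hsub
  constructor
  · intro Z hZ
    obtain ⟨x, y, z, hlt, hxy, hx, hy, hz, _, _, rfl⟩ := key Z hZ
    rw [Finset.mem_image]
    refine ⟨((x, y), z), ?_, rfl⟩
    unfold edges
    rw [Finset.mem_product, Finset.mem_filter, Finset.mem_product]
    exact ⟨⟨⟨Finset.mem_range.2 hx, Finset.mem_range.2 hy⟩, hlt, hxy⟩, Finset.mem_range.2 hz⟩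
  · intro Z hZ
    obtain ⟨x, y, z, hlt, hxy, hx, hy, hz, hzx, hzy, rfl⟩ := key Z hZ
    rw [Finset.card_insert_of_notMem, Finset.card_insert_of_notMem, Finset.card_singleton]
    · simp only [Finset.mem_singleton]; exact hzy.symm
    · simp only [Finset.mem_insert, Finset.mem_singleton, not_or]
      exact ⟨hlt.ne, hzx.symm⟩

lemma Bp_init_heavy (hP : P.Hyp) (k : ℕ) (hk : P.edges.card ≤ k) {b : Finset α} (hb : b ∉ P.L) :
    Bp (P.cmp b) P.n 0 ∅ (b ∩ P.C) (fun _ => 1 / (P.C.card : ℝ)) ≤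
      16 * k * (b.card : ℝ) ^ 3 / (P.C.card : ℝ) ^ 3 := by
  obtain ⟨h1, h2⟩ := Min_init_heavy hP hb
  have hC := Cpos hP
  have hcard : ((Min (P.cmp b) P.n 0 ∅).card : ℝ) ≤ k := by
    have := (Finset.card_le_card h1).trans Finset.card_image_le
    exact_mod_cast this.trans hk
  unfold Bp
  rw [Finset.sum_congr rfl (fun Z hZ => by rw [h2 Z hZ])]
  rw [Finset.sum_const, nsmul_eq_mul, acoef_two, E_const]
  have h3 : (((b ∩ P.C).card.choose (2 + 1) : ℕ) : ℝ) ≤ (b.card : ℝ) ^ 3 / 6 := by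
    have e1 : (b ∩ P.C).card.choose (2 + 1) ≤ b.card.choose 3 :=
      Nat.choose_le_choose _ (Finset.card_le_card Finset.inter_subset_left)
    have e2 : ((b.card.choose 3 : ℕ) : ℝ) ≤ (b.card : ℝ) ^ 3 / ((3 : ℕ).factorial : ℝ) :=
      Nat.choose_le_pow_div 3 b.card
    have e3 : ((3 : ℕ).factorial : ℝ) = 6 := by norm_num [Nat.factorial]
    rw [e3] at e2
    exact le_trans (by exact_mod_cast e1) e2
  have h4 : (0 : ℝ) ≤ (1 / (P.C.card : ℝ)) ^ 3 := by positivity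
  calc ((Min (P.cmp b) P.n 0 ∅).card : ℝ) * (96 * ((((b ∩ P.C).card.choose (2 + 1) : ℕ) : ℝ) *
        (1 / (P.C.card : ℝ)) ^ (2 + 1)))
      ≤ (k : ℝ) * (96 * (((b.card : ℝ) ^ 3 / 6) * (1 / (P.C.card : ℝ)) ^ (2 + 1))) := by
        refine mul_le_mul hcard ?_ (by positivity) (Nat.cast_nonneg _)
        exact mul_le_mul_of_nonneg_left (mul_le_mul_of_nonneg_right h3 h4) (by norm_num)
    _ = 16 * k * (b.card : ℝ) ^ 3 / (P.C.card : ℝ) ^ 3 := by
        rw [div_pow, one_pow]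
        ring

lemma Bp_init_light (hP : P.Hyp) (k : ℕ) (hk : P.edges.card ≤ k) {b : Finset α} (hb : b ∈ P.L) :
    Bp (P.cmp b) P.n 0 ∅ (b ∩ P.C) (fun _ => 1 / (P.C.card : ℝ)) ≤
      64 * k * P.n * (b.card : ℝ) ^ 4 / (P.C.card : ℝ) ^ 4 := by
  obtain ⟨h1, h2⟩ := Min_init_light hP hb
  have hC := Cpos hP
  have hcard : ((Min (P.cmp b) P.n 0 ∅).card : ℝ) ≤ k * P.n := by
    have := (Finset.card_le_card h1).trans Finset.card_image_le
    rw [Finset.card_product, Finset.card_range] at this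
    have h3 : P.edges.card * P.n ≤ k * P.n := Nat.mul_le_mul_right _ hk
    exact_mod_cast this.trans h3
  unfold Bp
  rw [Finset.sum_congr rfl (fun Z hZ => by rw [h2 Z hZ])]
  rw [Finset.sum_const, nsmul_eq_mul, acoef_three, E_const]
  have h3 : (((b ∩ P.C).card.choose (3 + 1) : ℕ) : ℝ) ≤ (b.card : ℝ) ^ 4 / 24 := by
    have e1 : (b ∩ P.C).card.choose (3 + 1) ≤ b.card.choose 4 :=
      Nat.choose_le_choose _ (Finset.card_le_card Finset.inter_subset_left)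
    have e2 : ((b.card.choose 4 : ℕ) : ℝ) ≤ (b.card : ℝ) ^ 4 / ((4 : ℕ).factorial : ℝ) :=
      Nat.choose_le_pow_div 4 b.card
    have e3 : ((4 : ℕ).factorial : ℝ) = 24 := by norm_num [Nat.factorial]
    rw [e3] at e2
    exact le_trans (by exact_mod_cast e1) e2
  have h4 : (0 : ℝ) ≤ (1 / (P.C.card : ℝ)) ^ 4 := by positivity
  calc ((Min (P.cmp b) P.n 0 ∅).card : ℝ) * (1536 * ((((b ∩ P.C).card.choose (3 + 1) : ℕ) : ℝ) *
        (1 / (P.C.card : ℝ)) ^ (3 + 1)))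
      ≤ ((k : ℝ) * P.n) * (1536 * (((b.card : ℝ) ^ 4 / 24) * (1 / (P.C.card : ℝ)) ^ (3 + 1))) := by
        refine mul_le_mul hcard ?_ (by positivity) (by positivity)
        exact mul_le_mul_of_nonneg_left (mul_le_mul_of_nonneg_right h3 h4) (by norm_num)
    _ = 64 * k * P.n * (b.card : ℝ) ^ 4 / (P.C.card : ℝ) ^ 4 := by
        rw [div_pow, one_pow]
        ring

lemma V_init (hP : P.Hyp) (x0 : α) {b : Finset α} (hb : b ∈ P.Mon) :
    ((P.C.card : ℝ) / b.card) * P.V (P.init x0) b ≤ 6 * P.Gam * P.wm := by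
  have hC := Cpos hP
  have hwm := wm_pos hP
  have hG : 0 < P.Gam := by linarith [hP.G1]
  have hbs : P.s0 < (b.card : ℝ) := (Finset.mem_filter.1 hb).2
  have hb0 : (0 : ℝ) < b.card := lt_of_le_of_lt hP.s00 hbs
  have hsum : ∑ x ∈ b ∩ P.C, (1 : ℝ) / P.C.card ≤ (b.card : ℝ) / P.C.card := by
    rw [Finset.sum_const, nsmul_eq_mul, mul_one_div]
    refine div_le_div_of_nonneg_right ?_ hC.le
    exact_mod_cast Finset.card_le_card Finset.inter_subset_left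
  have e1 : P.V (P.init x0) b = (max (1 * ∑ x ∈ b ∩ P.C, (1 : ℝ) / P.C.card -
      (b.card : ℝ) / P.C.card) 0) ^ 2 +
      3 * P.wm * ∑ x ∈ b ∩ P.C, (1 : ℝ) / P.C.card * (2 * P.Gam - 0) := rfl
  rw [e1, one_mul, max_eq_right (by linarith), ← Finset.sum_mul, sub_zero]
  have e2 : (0 : ℝ) ^ 2 = 0 := by norm_num
  rw [e2, zero_add]
  calc ((P.C.card : ℝ) / b.card) * (3 * P.wm * ((∑ x ∈ b ∩ P.C, (1 : ℝ) / P.C.card) * (2 * P.Gam)))
      ≤ ((P.C.card : ℝ) / b.card) * (3 * P.wm * (((b.card : ℝ) / P.C.card) * (2 * P.Gam))) := by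
        refine mul_le_mul_of_nonneg_left ?_ (by positivity)
        refine mul_le_mul_of_nonneg_left ?_ (by linarith)
        exact mul_le_mul_of_nonneg_right hsum (by linarith)
    _ = 6 * P.Gam * P.wm := by
        field_simp
        ring

theorem phi_init (hP : P.Hyp) (k : ℕ) (hk : P.edges.card ≤ k) (x0 : α) :
    P.Phi (P.init x0) 0 ≤ 8 * (16 * k * (∑ b ∈ P.H, (b.card : ℝ) ^ 3) / (P.C.card : ℝ) ^ 3 +
        64 * k * P.n * (∑ b ∈ P.L, (b.card : ℝ) ^ 4) / ((P.C.card : ℝ) ^ 4 * P.Gam) +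
        6 * P.Gam * P.wm * (P.Mon.card : ℝ)) := by
  have hG : 0 < P.Gam := by linarith [hP.G1]
  have hC := Cpos hP
  have h1 : P.Hpot (P.init x0) 0 ≤ 16 * k * (∑ b ∈ P.H, (b.card : ℝ) ^ 3) / (P.C.card : ℝ) ^ 3 := by
    unfold Hpot
    rw [Finset.mul_sum, Finset.sum_div]
    refine Finset.sum_le_sum fun b hb => ?_
    rw [init_T]
    exact Bp_init_heavy hP k hk (Finset.disjoint_right.1 hP.disj hb)
  have h2 : P.Lpot (P.init x0) 0 ≤
      64 * k * P.n * (∑ b ∈ P.L, (b.card : ℝ) ^ 4) / (P.C.card : ℝ) ^ 4 := by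
    unfold Lpot
    have e1 : ∑ x ∈ (P.init x0).A, (P.init x0).w x * (P.init x0).S x = 0 :=
      Finset.sum_eq_zero fun x _ => mul_zero _
    rw [e1, zero_add, Finset.mul_sum, Finset.sum_div]
    refine Finset.sum_le_sum fun b hb => ?_
    rw [init_T]
    have e2 : (P.init x0).rho b ^ 6 = 1 := by
      show (1 : ℝ) ^ 6 = 1
      norm_num
    rw [e2, one_mul]
    exact Bp_init_light hP k hk hb
  have h3 : P.Opot (P.init x0) ≤ 6 * P.Gam * P.wm * (P.Mon.card : ℝ) := by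
    unfold Opot
    calc ∑ b ∈ P.Mon, ((P.C.card : ℝ) / b.card) * P.V (P.init x0) b
        ≤ ∑ b ∈ P.Mon, 6 * P.Gam * P.wm := Finset.sum_le_sum fun b hb => V_init hP x0 hb
      _ = _ := by rw [Finset.sum_const, nsmul_eq_mul]; ring
  have h4 : P.Lpot (P.init x0) 0 / P.Gam ≤
      64 * k * P.n * (∑ b ∈ P.L, (b.card : ℝ) ^ 4) / ((P.C.card : ℝ) ^ 4 * P.Gam) := by
    rw [← div_div]
    exact div_le_div_of_nonneg_right h2 hG.le
  unfold Phi
  have e1 : (P.init x0).D = 0 := rfl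
  have e2 : (P.init x0).lH = 0 := rfl
  have e3 : (P.init x0).lC = 0 := rfl
  have e4 : (P.init x0).lO = 0 := rfl
  rw [e1, e2, e3, e4]
  nlinarith

theorem run (hP : P.Hyp) (k : ℕ) (hk : P.edges.card ≤ k) (x0 : α)
    (hlt : 256 * P.n * P.Del ^ 2 * P.wm ^ 2 +
      8 * (16 * k * (∑ b ∈ P.H, (b.card : ℝ) ^ 3) / (P.C.card : ℝ) ^ 3 +
        64 * k * P.n * (∑ b ∈ P.L, (b.card : ℝ) ^ 4) / ((P.C.card : ℝ) ^ 4 * P.Gam) +
        6 * P.Gam * P.wm * (P.Mon.card : ℝ)) < 1) (t : ℕ) (ht : t ≤ P.n) :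
    ∃ s : St α, P.Inv s t ∧
      P.Phi s t ≤ P.Phi (P.init x0) 0 + t * (256 * P.Del ^ 2 * P.wm ^ 2) := by
  induction t with
  | zero => exact ⟨P.init x0, init_inv hP x0, by simp⟩
  | succ t ih =>
    obtain ⟨s, hI, hPhi⟩ := ih (by omega)
    have h0 := phi_init hP k hk x0
    have hsq : 0 ≤ 256 * P.Del ^ 2 * P.wm ^ 2 := by positivity
    have htn : (t : ℝ) ≤ P.n := by exact_mod_cast (by omega : t ≤ P.n)
    have h1 : P.Phi s t < 1 := by
      have : (t : ℝ) * (256 * P.Del ^ 2 * P.wm ^ 2) ≤ P.n * (256 * P.Del ^ 2 * P.wm ^ 2) :=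
        mul_le_mul_of_nonneg_right htn hsq
      nlinarith
    obtain ⟨Q, hQ, hI', hPhi'⟩ := exists_step hP hI h1 (by omega)
    refine ⟨P.step s t Q, hI', ?_⟩
    push_cast
    linarith

end PD

theorem processTheorem : ProcessTheorem := by
  intro α _ C L H n k adj Gam Del s0 hsymm hirr hk hdisj hsub hlin htri hdeg hn1 hC hG hD0 hs0
    hD hs hM hn h8 hlt
  by_cases hn2 : n = 1
  · subst hn2
    obtain ⟨x0, hx0⟩ := Finset.card_pos.1 hC
    refine ⟨fun _ => x0, fun _ _ => hx0, fun u hu v hv _ => by omega, ?_⟩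
    intro b _ v hv w hw x hx y hy hvw
    have h1 : v = w := by omega
    rw [h1] at hvw
    exact absurd hvw (hirr w)
  · set P : PD α := ⟨C, L, H, n, adj, Gam, Del, s0⟩ with hPdef
    have hP : P.Hyp :=
      { symm := hsymm
        irr := hirr
        disj := hdisj
        sub := hsub
        lin := hlin
        tri := htri
        deg := hdeg
        n2 := by show 2 ≤ n; omega
        C0 := hC
        G1 := hG
        D0 := hD0
        s00 := hs0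
        hD := hD
        hs := hs
        hM := hM
        hn := hn
        h8 := h8 }
    obtain ⟨x0, hx0⟩ := Finset.card_pos.1 hC
    obtain ⟨s, hI, _⟩ := P.run hP k hk x0 hlt n le_rfl
    refine ⟨s.f, fun v hv => (hI.fC v hv).1, hI.finj, ?_⟩
    intro b hb v hv w hw x hx y hy hvw hxy h1 h2 h3 h4 hall
    obtain ⟨hfv, hfw, hfx, hfy⟩ := hall
    have hne1 : v ≠ w := by rintro rfl; exact hirr v hvw
    have hne2 : x ≠ y := by rintro rfl; exact hirr x hxy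
    have mk : ∀ m a c d : ℕ, a < m → c < m → d < m → a ≠ c → a ≠ d → c ≠ d → adj c d →
        s.f a ∈ b → s.f c ∈ b → s.f d ∈ b → P.cmp b (s.T m b) := by
      intro m a c d ha hc hd hac had hcd hadj ga gc gd
      have ia : a ∈ s.T m b := Finset.mem_filter.2 ⟨Finset.mem_range.2 ha, ga⟩
      have ic : c ∈ s.T m b := Finset.mem_filter.2 ⟨Finset.mem_range.2 hc, gc⟩
      have id : d ∈ s.T m b := Finset.mem_filter.2 ⟨Finset.mem_range.2 hd, gd⟩
      refine ⟨fun _ => ?_, c, ic, d, id, hadj⟩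
      have hs3 : ({a, c, d} : Finset ℕ) ⊆ s.T m b := by
        intro u hu
        rcases Finset.mem_insert.1 hu with rfl | hu
        · exact ia
        · rcases Finset.mem_insert.1 hu with rfl | hu
          · exact ic
          · rw [Finset.mem_singleton] at hu; subst hu; exact id
      have hc3 : ({a, c, d} : Finset ℕ).card = 3 := by
        rw [Finset.card_insert_of_notMem, Finset.card_insert_of_notMem, Finset.card_singleton]
        · simp only [Finset.mem_singleton]; exact hcd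
        · simp only [Finset.mem_insert, Finset.mem_singleton, not_or]; exact ⟨hac, had⟩
      rw [← hc3]
      exact Finset.card_le_card hs3
    by_cases hmv : w < v ∧ x < v ∧ y < v
    · exact hI.good b hb v hv (mk v w x y hmv.1 hmv.2.1 hmv.2.2 h3 h4 hne2 hxy hfw hfx hfy) hfv
    · by_cases hmw : v < w ∧ x < w ∧ y < w
      · exact hI.good b hb w hw (mk w v x y hmw.1 hmw.2.1 hmw.2.2 h1 h2 hne2 hxy hfv hfx hfy) hfw
      · by_cases hmx : v < x ∧ w < x ∧ y < x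
        · exact hI.good b hb x hx (mk x y v w hmx.2.2 hmx.1 hmx.2.1 h2.symm h4.symm hne1 hvw
            hfy hfv hfw) hfx
        · have hmy : v < y ∧ w < y ∧ x < y := by omega
          exact hI.good b hb y hy (mk y x v w hmy.2.2 hmy.1 hmy.2.1 h1.symm h3.symm hne1 hvw
            hfx hfv hfw) hfy

end Pool.Agent.Grid3D.P

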