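import Pool.Agent.Grid3D.PPot

set_option autoImplicit false

/-! The total weight, the accumulated hazards and the monitored blocks in one step. -/

namespace Pool.Agent.Grid3D.P

open Finset Classical

section

variable {α : Type*} [DecidableEq α] {A : Finset α} {w : α → ℝ} {K : α → Finset α}

/-- average of a weighted sum over the survivors -/
lemma SH.avg_sum (h : SH A w K) (X : Finset α) (hX : X ⊆ A) (g : α → ℝ) :
    ∑ Q ∈ A, qq A w Q * ∑ x ∈ X \ K Q, w1 A w K x * g x = ∑ x ∈ X, w x * g x := by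
  rw [sum_linear]
  refine Finset.sum_congr rfl fun x hx => ?_
  rw [h.sum_not x]
  have := h.w1_mul (hX hx)
  calc w1 A w K x * g x * (1 - beta A w K x) = (w1 A w K x * (1 - beta A w K x)) * g x := by ring
    _ = w x * g x := by rw [this]

lemma SH.sum_w_beta (_h : SH A w K) (hKA : ∀ Q ∈ A, K Q ⊆ A) :
    ∑ x ∈ A, w x * beta A w K x = ∑ Q ∈ A, qq A w Q * ∑ x ∈ K Q, w x := by
  unfold beta
  simp_rw [Finset.mul_sum]
  simp_rw [Finset.sum_filter]
  rw [Finset.sum_comm]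
  refine Finset.sum_congr rfl fun Q hQ => ?_
  rw [← Finset.sum_filter]
  have : A.filter (fun x => x ∈ K Q) = K Q := by
    ext x
    simp only [Finset.mem_filter]
    exact ⟨fun h => h.2, fun hx => ⟨hKA Q hQ hx, hx⟩⟩
  rw [this]
  exact Finset.sum_congr rfl fun x _ => by ring

/-- the squared deviation -/
lemma SH.avg_sq (h : SH A w K) (hKA : ∀ Q ∈ A, K Q ⊆ A) (B : ℝ) (hB0 : 0 ≤ B)
    (hB : ∀ Q ∈ A, ∑ x ∈ K Q, w x ≤ B) (D : ℝ) :
    ∑ Q ∈ A, qq A w Q * (D - (∑ x ∈ A \ K Q, w1 A w K x - Wt A w)) ^ 2 ≤ D ^ 2 + 4 * B ^ 2 := by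
  have h1 : ∑ Q ∈ A, qq A w Q * ∑ x ∈ A \ K Q, w1 A w K x = Wt A w := by
    have := h.avg_sum A (Finset.Subset.refl A) (fun _ => 1)
    simp only [mul_one] at this
    rw [this]; rfl
  set Y : α → ℝ := fun Q => ∑ x ∈ A \ K Q, w1 A w K x - Wt A w with hY
  have hYavg : ∑ Q ∈ A, qq A w Q * Y Q = 0 := by
    simp only [hY]
    simp_rw [mul_sub]
    rw [Finset.sum_sub_distrib, h1, ← Finset.sum_mul, h.sum_qq]
    ring
  have hYabs : ∀ Q ∈ A, (Y Q) ^ 2 ≤ 4 * B ^ 2 := by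
    intro Q hQ
    have e1 : ∑ x ∈ A \ K Q, w1 A w K x = ∑ x ∈ A, w1 A w K x - ∑ x ∈ K Q, w1 A w K x := by
      have := Finset.sum_sdiff (f := w1 A w K) (hKA Q hQ)
      linarith
    have e2 : ∑ x ∈ K Q, w1 A w K x ≤ (100 / 99) * B := by
      calc ∑ x ∈ K Q, w1 A w K x ≤ ∑ x ∈ K Q, (100 / 99) * w x :=
            Finset.sum_le_sum fun x hx => h.w1_le (hKA Q hQ hx)
        _ = (100 / 99) * ∑ x ∈ K Q, w x := by rw [Finset.mul_sum]
        _ ≤ _ := mul_le_mul_of_nonneg_left (hB Q hQ) (by norm_num)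
    have e2' : 0 ≤ ∑ x ∈ K Q, w1 A w K x :=
      Finset.sum_nonneg fun x hx => (h.w1_pos (hKA Q hQ hx)).le
    have e3 : ∑ x ∈ A, w1 A w K x - Wt A w ≤ (100 / 99) * B := by
      have e4 : ∑ x ∈ A, w1 A w K x - Wt A w ≤ ∑ x ∈ A, (100 / 99) * (w x * beta A w K x) := by
        unfold Wt
        rw [← Finset.sum_sub_distrib]
        refine Finset.sum_le_sum fun x hx => ?_
        have q1 := h.w1_mul hx
        have q2 := h.w1_le hx
        have q3 := h.beta_nonneg x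
        nlinarith
      have e5 : ∑ x ∈ A, (100 / 99) * (w x * beta A w K x) ≤ (100 / 99) * B := by
        rw [← Finset.mul_sum, h.sum_w_beta hKA]
        refine mul_le_mul_of_nonneg_left ?_ (by norm_num)
        calc ∑ Q ∈ A, qq A w Q * ∑ x ∈ K Q, w x ≤ ∑ Q ∈ A, qq A w Q * B :=
              Finset.sum_le_sum fun Q hQ => mul_le_mul_of_nonneg_left (hB Q hQ) (h.qq_nonneg hQ)
          _ = B := by rw [← Finset.sum_mul, h.sum_qq, one_mul]
      linarith
    have e3' : 0 ≤ ∑ x ∈ A, w1 A w K x - Wt A w := by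
      unfold Wt
      rw [← Finset.sum_sub_distrib]
      exact Finset.sum_nonneg fun x hx => by linarith [h.w_le_w1 hx]
    have e6 : Y Q ≤ 2 * B := by simp only [hY]; rw [e1]; linarith
    have e7 : -(2 * B) ≤ Y Q := by simp only [hY]; rw [e1]; linarith
    nlinarith
  have e8 : ∑ Q ∈ A, qq A w Q * (D - Y Q) ^ 2 =
      D ^ 2 * ∑ Q ∈ A, qq A w Q - 2 * D * ∑ Q ∈ A, qq A w Q * Y Q +
        ∑ Q ∈ A, qq A w Q * (Y Q) ^ 2 := by
    rw [Finset.mul_sum, Finset.mul_sum, ← Finset.sum_sub_distrib, ← Finset.sum_add_distrib]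
    exact Finset.sum_congr rfl fun Q _ => by ring
  show ∑ Q ∈ A, qq A w Q * (D - Y Q) ^ 2 ≤ _
  rw [e8, h.sum_qq, hYavg]
  have e9 : ∑ Q ∈ A, qq A w Q * (Y Q) ^ 2 ≤ 4 * B ^ 2 := by
    calc ∑ Q ∈ A, qq A w Q * (Y Q) ^ 2 ≤ ∑ Q ∈ A, qq A w Q * (4 * B ^ 2) :=
          Finset.sum_le_sum fun Q hQ => mul_le_mul_of_nonneg_left (hYabs Q hQ) (h.qq_nonneg hQ)
      _ = 4 * B ^ 2 := by rw [← Finset.sum_mul, h.sum_qq, one_mul]
  linarith

/-- the positive part square of a random variable with small upward drift -/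
lemma sq_pos_le (x y a : ℝ) :
    (max (y - a) 0) ^ 2 ≤ (max (x - a) 0) ^ 2 + 2 * max (x - a) 0 * (y - x) + (y - x) ^ 2 := by
  have h1 : (max (x - a) 0 + (y - x)) ^ 2 =
      (max (x - a) 0) ^ 2 + 2 * max (x - a) 0 * (y - x) + (y - x) ^ 2 := by ring
  rw [← h1]
  rcases le_total (y - a) 0 with hy | hy
  · rw [max_eq_right hy]
    have := sq_nonneg (max (x - a) 0 + (y - x))
    linarith [this]
  · rw [max_eq_left hy]
    have h2 := le_max_left (x - a) 0
    nlinarith [h2]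

/-- Monitored block, one step.  `G` = the choices which do not destroy the block
(`G = A` if no completion, `G = A \ X` if completion). -/
lemma SH.avg_v (h : SH A w K) (X G : Finset α) (hX : X ⊆ A) (hG : G ⊆ A)
    (p rho a wm : ℝ) (be : α → ℝ)
    (h1 : ∀ Q ∈ G, (X ∩ K Q).card ≤ 1)
    (hp : ∑ Q ∈ G, qq A w Q = p) (hp1 : p ≤ 1)
    (hbe : ∀ x ∈ X, be x = ∑ Q ∈ G.filter (fun Q => x ∈ K Q), qq A w Q)
    -- `beta = be + (1 - p) - (something nonneg) ≥ be + (1-p) - c`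
    (hbeta : ∀ x ∈ X, ∃ c : ℝ, 0 ≤ c ∧ beta A w K x = be x + (1 - p) - c)
    (hbele : ∀ x ∈ X, be x ≤ beta A w K x)
    (hrho0 : 0 ≤ rho) (hrho1 : rho ≤ 1)
    (hwm : ∀ x ∈ X, w x ≤ wm) (hUle : ∑ x ∈ X, w x * be x ≤ wm) :
    ∑ Q ∈ G, qq A w Q * (max (rho * p * ∑ x ∈ X \ K Q, w1 A w K x - a) 0) ^ 2 ≤
      (max (rho * ∑ x ∈ X, w x - a) 0) ^ 2 + 3 * wm * ∑ x ∈ X, w x * be x := by
  have hq0 : ∀ Q ∈ G, 0 ≤ qq A w Q := fun Q hQ => h.qq_nonneg (hG hQ)
  have hbe0 : ∀ x ∈ X, 0 ≤ be x := fun x hx => by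
    rw [hbe x hx]
    exact Finset.sum_nonneg fun Q hQ => hq0 Q (Finset.mem_filter.1 hQ).1
  set u : α → ℝ := fun x => 1 + be x / (1 - beta A w K x) with hu
  have h99 : ∀ x ∈ X, 99 / 100 ≤ 1 - beta A w K x := fun x hx => h.one_sub_beta (hX hx)
  have hu1 : ∀ x ∈ X, 1 ≤ u x := fun x hx => by
    simp only [hu]
    have := div_nonneg (hbe0 x hx) (by linarith [h99 x hx] : (0 : ℝ) ≤ 1 - beta A w K x)
    linarith
  have hbe100 : ∀ x ∈ X, be x ≤ 1 / 100 := fun x hx =>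
    (hbele x hx).trans (h.beta_le x (hX hx))
  have hu2 : ∀ x ∈ X, u x ≤ 1 + (100 / 99) * be x := fun x hx => by
    simp only [hu]
    have h3 : be x / (1 - beta A w K x) ≤ (100 / 99) * be x := by
      rw [div_le_iff₀ (by linarith [h99 x hx])]
      nlinarith [h99 x hx, hbe0 x hx]
    linarith
  -- pointwise domination
  have hdom : ∀ x ∈ X, p * w1 A w K x ≤ w x * u x := by
    intro x hx
    obtain ⟨c, hc0, hc⟩ := hbeta x hx
    have hpos : 0 < 1 - beta A w K x := by linarith [h99 x hx]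
    unfold w1
    simp only [hu]
    rw [← mul_div_assoc, div_le_iff₀ hpos]
    have e1 : w x * (1 + be x / (1 - beta A w K x)) * (1 - beta A w K x) =
        w x * ((1 - beta A w K x) + be x) := by
      field_simp
    rw [e1]
    have e2 : p ≤ (1 - beta A w K x) + be x := by rw [hc]; linarith
    nlinarith [(h.wpos x (hX hx)).le]
  -- the dominating variable
  set Xr : ℝ := rho * ∑ x ∈ X, w x with hXr
  set Y : α → ℝ := fun Q => rho * ∑ x ∈ X \ K Q, w x * u x with hY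
  have hYdom : ∀ Q, rho * p * ∑ x ∈ X \ K Q, w1 A w K x ≤ Y Q := by
    intro Q
    simp only [hY]
    rw [mul_assoc]
    refine mul_le_mul_of_nonneg_left ?_ hrho0
    rw [Finset.mul_sum]
    exact Finset.sum_le_sum fun x hx => hdom x (Finset.mem_sdiff.1 hx).1
  -- its average
  have hYavg : ∑ Q ∈ G, qq A w Q * Y Q ≤ p * Xr := by
    have e1 : ∑ Q ∈ G, qq A w Q * Y Q =
        rho * ∑ x ∈ X, (w x * u x) * ∑ Q ∈ G.filter (fun Q => x ∉ K Q), qq A w Q := by
      rw [← sum_linear G X (qq A w) (fun x => w x * u x) K, Finset.mul_sum]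
      exact Finset.sum_congr rfl fun Q _ => by simp only [hY]; ring
    rw [e1]
    have e2 : ∀ x ∈ X, ∑ Q ∈ G.filter (fun Q => x ∉ K Q), qq A w Q = p - be x := by
      intro x hx
      have := Finset.sum_filter_add_sum_filter_not G (fun Q => x ∈ K Q) (fun Q => qq A w Q)
      rw [hp, ← hbe x hx] at this
      linarith
    have e3 : ∀ x ∈ X, (w x * u x) * ∑ Q ∈ G.filter (fun Q => x ∉ K Q), qq A w Q ≤ p * w x := by
      intro x hx
      rw [e2 x hx]
      obtain ⟨c, hc0, hc⟩ := hbeta x hx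
      have hpos : 0 < 1 - beta A w K x := by linarith [h99 x hx]
      have hw := (h.wpos x (hX hx)).le
      have e4 : u x * (p - be x) ≤ p := by
        simp only [hu]
        have e5 : (1 + be x / (1 - beta A w K x)) * (p - be x) =
            ((1 - beta A w K x) + be x) * (p - be x) / (1 - beta A w K x) := by
          field_simp
        rw [e5, div_le_iff₀ hpos]
        rw [hc]
        nlinarith [hbe0 x hx, mul_nonneg hc0 (hbe0 x hx)]
      calc w x * u x * (p - be x) = w x * (u x * (p - be x)) := by ring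
        _ ≤ w x * p := mul_le_mul_of_nonneg_left e4 hw
        _ = p * w x := by ring
    calc rho * ∑ x ∈ X, (w x * u x) * ∑ Q ∈ G.filter (fun Q => x ∉ K Q), qq A w Q
        ≤ rho * ∑ x ∈ X, p * w x := mul_le_mul_of_nonneg_left (Finset.sum_le_sum e3) hrho0
      _ = p * Xr := by rw [← Finset.mul_sum]; simp only [hXr]; ring
  -- second moment of the difference
  set U : ℝ := ∑ x ∈ X, w x * (u x - 1) with hU
  set κ : α → ℝ := fun Q => ∑ x ∈ X ∩ K Q, w x * u x with hκ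
  have hdiff : ∀ Q, Y Q - Xr = rho * (U - κ Q) := by
    intro Q
    simp only [hY, hXr, hU, hκ]
    have e1 : ∑ x ∈ X \ K Q, w x * u x = ∑ x ∈ X, w x * u x - ∑ x ∈ X ∩ K Q, w x * u x := by
      have := Finset.sum_inter_add_sum_sdiff X (K Q) (fun x => w x * u x)
      linarith
    have e2 : ∑ x ∈ X, w x * (u x - 1) = ∑ x ∈ X, w x * u x - ∑ x ∈ X, w x := by
      rw [← Finset.sum_sub_distrib]
      exact Finset.sum_congr rfl fun x _ => by ring
    rw [e1, e2]; ring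
  set b : ℝ := ∑ x ∈ X, w x * be x with hb
  have hb0 : 0 ≤ b := Finset.sum_nonneg fun x hx => mul_nonneg (h.wpos x (hX hx)).le (hbe0 x hx)
  have hU0 : 0 ≤ U := Finset.sum_nonneg fun x hx =>
    mul_nonneg (h.wpos x (hX hx)).le (by linarith [hu1 x hx])
  have hUb : U ≤ (100 / 99) * b := by
    simp only [hU, hb]
    rw [Finset.mul_sum]
    refine Finset.sum_le_sum fun x hx => ?_
    have := hu2 x hx
    have hw := (h.wpos x (hX hx)).le
    nlinarith
  have hwm0 : 0 ≤ wm := hb0.trans hUle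
  have hU2 : U ^ 2 ≤ (11 / 10) * (wm * b) := by
    have : U ^ 2 ≤ ((100 / 99) * b) ^ 2 := pow_le_pow_left₀ hU0 hUb 2
    nlinarith
  have hκ0 : ∀ Q, 0 ≤ κ Q := fun Q => Finset.sum_nonneg fun x hx =>
    mul_nonneg (h.wpos x (hX (Finset.mem_inter.1 hx).1)).le
      (by linarith [hu1 x (Finset.mem_inter.1 hx).1])
  have hκ2 : ∑ Q ∈ G, qq A w Q * (κ Q) ^ 2 ≤ (11 / 10) * (wm * b) := by
    have e1 : ∀ Q ∈ G, (κ Q) ^ 2 ≤ ∑ x ∈ X ∩ K Q, (11 / 10) * (wm * w x) := by
      intro Q hQ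
      have hc := h1 Q hQ
      have hcase : X ∩ K Q = ∅ ∨ ∃ x0, X ∩ K Q = {x0} := by
        rcases Nat.le_one_iff_eq_zero_or_eq_one.1 hc with h0 | h0
        · exact Or.inl (Finset.card_eq_zero.1 h0)
        · exact Or.inr (Finset.card_eq_one.1 h0)
      rcases hcase with he | ⟨x0, he⟩
      · simp only [hκ]; rw [he]; simp
      · have hx0X : x0 ∈ X := by
          have : x0 ∈ X ∩ K Q := by rw [he]; exact Finset.mem_singleton_self _
          exact (Finset.mem_inter.1 this).1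
        simp only [hκ]
        rw [he, Finset.sum_singleton, Finset.sum_singleton]
        have hw := (h.wpos x0 (hX hx0X)).le
        have hw2 := hwm x0 hx0X
        have hu3 : u x0 ≤ 102 / 100 := by
          have := hu2 x0 hx0X
          have := hbe100 x0 hx0X
          linarith
        have hu4 := hu1 x0 hx0X
        have hu5 : (u x0) ^ 2 ≤ 11 / 10 := by nlinarith
        calc (w x0 * u x0) ^ 2 = (w x0 * w x0) * (u x0) ^ 2 := by ring
          _ ≤ (w x0 * w x0) * (11 / 10) := mul_le_mul_of_nonneg_left hu5 (mul_nonneg hw hw)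
          _ ≤ (wm * w x0) * (11 / 10) :=
              mul_le_mul_of_nonneg_right (mul_le_mul_of_nonneg_right hw2 hw) (by norm_num)
          _ = _ := by ring
    calc ∑ Q ∈ G, qq A w Q * (κ Q) ^ 2
        ≤ ∑ Q ∈ G, qq A w Q * ∑ x ∈ X ∩ K Q, (11 / 10) * (wm * w x) :=
          Finset.sum_le_sum fun Q hQ => mul_le_mul_of_nonneg_left (e1 Q hQ) (hq0 Q hQ)
      _ = ∑ x ∈ X, ((11 / 10) * (wm * w x)) * be x := by
          have e2 : ∀ Q ∈ G, qq A w Q * ∑ x ∈ X ∩ K Q, (11 / 10) * (wm * w x) =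
              ∑ x ∈ X, if x ∈ K Q then qq A w Q * ((11 / 10) * (wm * w x)) else 0 := by
            intro Q _
            rw [← Finset.sum_filter, Finset.mul_sum]
            refine Finset.sum_congr ?_ fun _ _ => rfl
            ext x; simp [Finset.mem_inter]
          rw [Finset.sum_congr rfl e2, Finset.sum_comm]
          refine Finset.sum_congr rfl fun x hx => ?_
          rw [hbe x hx, Finset.mul_sum, Finset.sum_filter]
          refine Finset.sum_congr rfl fun Q _ => ?_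
          split_ifs <;> ring
      _ = (11 / 10) * (wm * b) := by
          simp only [hb]
          rw [Finset.mul_sum, Finset.mul_sum]
          exact Finset.sum_congr rfl fun x _ => by ring
  have hsecond : ∑ Q ∈ G, qq A w Q * (Y Q - Xr) ^ 2 ≤ 3 * wm * b := by
    calc ∑ Q ∈ G, qq A w Q * (Y Q - Xr) ^ 2
        ≤ ∑ Q ∈ G, qq A w Q * (U ^ 2 + (κ Q) ^ 2) := by
          refine Finset.sum_le_sum fun Q hQ => mul_le_mul_of_nonneg_left ?_ (hq0 Q hQ)
          rw [hdiff, mul_pow]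
          have e1 : rho ^ 2 ≤ 1 := pow_le_one₀ hrho0 hrho1
          have e2 : (U - κ Q) ^ 2 ≤ U ^ 2 + (κ Q) ^ 2 := by nlinarith [mul_nonneg hU0 (hκ0 Q)]
          have e3 : 0 ≤ (U - κ Q) ^ 2 := sq_nonneg _
          nlinarith
      _ = U ^ 2 * p + ∑ Q ∈ G, qq A w Q * (κ Q) ^ 2 := by
          rw [← hp, Finset.mul_sum, ← Finset.sum_add_distrib]
          exact Finset.sum_congr rfl fun Q _ => by ring
      _ ≤ 3 * wm * b := by
          have e4 : U ^ 2 * p ≤ U ^ 2 := by nlinarith [sq_nonneg U]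
          have e5 : 0 ≤ wm * b := mul_nonneg hwm0 hb0
          nlinarith
  -- assemble
  calc ∑ Q ∈ G, qq A w Q * (max (rho * p * ∑ x ∈ X \ K Q, w1 A w K x - a) 0) ^ 2
      ≤ ∑ Q ∈ G, qq A w Q * ((max (Xr - a) 0) ^ 2 + 2 * max (Xr - a) 0 * (Y Q - Xr) +
          (Y Q - Xr) ^ 2) := by
        refine Finset.sum_le_sum fun Q hQ => mul_le_mul_of_nonneg_left ?_ (hq0 Q hQ)
        refine le_trans ?_ (sq_pos_le Xr (Y Q) a)
        refine pow_le_pow_left₀ (le_max_right _ _) ?_ 2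
        exact max_le_max (by linarith [hYdom Q]) le_rfl
    _ = (max (Xr - a) 0) ^ 2 * p + 2 * max (Xr - a) 0 *
          (∑ Q ∈ G, qq A w Q * Y Q - p * Xr) + ∑ Q ∈ G, qq A w Q * (Y Q - Xr) ^ 2 := by
        have e1 : ∑ Q ∈ G, qq A w Q * ((max (Xr - a) 0) ^ 2 + 2 * max (Xr - a) 0 * (Y Q - Xr) +
          (Y Q - Xr) ^ 2) = (max (Xr - a) 0) ^ 2 * ∑ Q ∈ G, qq A w Q + 2 * max (Xr - a) 0 *
          (∑ Q ∈ G, qq A w Q * Y Q - (∑ Q ∈ G, qq A w Q) * Xr) +
            ∑ Q ∈ G, qq A w Q * (Y Q - Xr) ^ 2 := by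
          rw [Finset.sum_mul, ← Finset.sum_sub_distrib, Finset.mul_sum, Finset.mul_sum,
            ← Finset.sum_add_distrib, ← Finset.sum_add_distrib]
          exact Finset.sum_congr rfl fun Q _ => by ring
        rw [e1, hp]
    _ ≤ (max (Xr - a) 0) ^ 2 + 3 * wm * b := by
        have m0 : 0 ≤ max (Xr - a) 0 := le_max_right _ _
        have e2 : (max (Xr - a) 0) ^ 2 * p ≤ (max (Xr - a) 0) ^ 2 := by
          nlinarith [sq_nonneg (max (Xr - a) 0)]
        have e3 : 2 * max (Xr - a) 0 * (∑ Q ∈ G, qq A w Q * Y Q - p * Xr) ≤ 0 := by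
          nlinarith
        linarith

end

end Pool.Agent.Grid3D.P
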