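import Pool.Agent.Grid3D.PAvg

set_option autoImplicit false

/-! The one-step average inequality for a monitored block. -/

namespace Pool.Agent.Grid3D.P

open Finset Classical

namespace PD

variable {α : Type} [DecidableEq α] {P : PD α} {s : St α} {t : ℕ}

/-- new potential of a monitored block including the loss -/
noncomputable def Vn (P : PD α) (s : St α) (t : ℕ) (Q : α) (b : Finset α) : ℝ :=
  P.V (P.step s t Q) b + ((b.card : ℝ) / P.C.card) *
    (if P.ovr s t Q b then ∑ x ∈ ((b ∩ s.A) \ P.K s t Q).erase Q, P.W1 s t x else 0)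

/-- the majorant of `Vn` -/
noncomputable def VF (P : PD α) (s : St α) (t : ℕ) (Q : α) (b : Finset α) : ℝ :=
  (max (P.rho1 s t b * ∑ x ∈ (b ∩ s.A) \ P.K s t Q, P.W1 s t x - (b.card : ℝ) / P.C.card) 0) ^ 2 +
    3 * P.wm * ∑ x ∈ (b ∩ s.A) \ P.K s t Q, P.W1 s t x * (2 * P.Gam - P.S1 s t x)

lemma V_of_dead {s' : St α} {b : Finset α} (hb : b ∩ s'.A = ∅) : P.V s' b = 0 := by
  unfold V
  rw [hb, Finset.sum_empty, Finset.sum_empty, mul_zero, mul_zero, add_zero, zero_sub,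
    max_eq_right]
  · simp
  · have : 0 ≤ (b.card : ℝ) / P.C.card := by positivity
    linarith

lemma Vn_zero {b : Finset α} (hb : b ∈ P.L) (hc : P.c s t b) {Q : α} (hQb : Q ∈ b) :
    P.Vn s t Q b = 0 := by
  unfold Vn
  rw [V_of_dead (dead_of_c (Finset.mem_union_left _ hb) hc hQb)]
  have : ((b ∩ s.A) \ P.K s t Q).erase Q = ∅ := by
    rw [Finset.eq_empty_iff_forall_notMem]
    intro x hx
    rw [Finset.mem_erase, Finset.mem_sdiff] at hx
    exact hx.2.2 (key3 hb hc hQb hx.2.1 hx.1)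
  rw [this]
  simp

lemma gap_nonneg (hP : P.Hyp) (hI : P.Inv s t) (h : SH s.A s.w (P.K s t)) {x : α} (hx : x ∈ s.A) :
    0 ≤ 2 * P.Gam - P.S1 s t x := by
  unfold S1
  have h1 := hI.SG x hx
  have h2 := h.beta_le x hx
  have h3 := hP.G1
  linarith

lemma rho1_bounds (hP : P.Hyp) (hI : P.Inv s t) (hW : 1 / 2 ≤ Wt s.A s.w) (ht : t < P.n)
    {Q : α} (hQ : Q ∈ s.A) {b : Finset α} (hb : b ∈ P.L) :
    9 / 10 ≤ P.rho1 s t b ∧ P.rho1 s t b ≤ 1 := by
  have hI' := hI.step hP ht hW hQ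
  have hn := npos hP
  refine ⟨?_, hI'.rho1 b⟩
  refine le_trans ?_ (hI'.rho0 b hb)
  have : ((t + 1 : ℕ) : ℝ) / (10 * P.n) ≤ 1 / 10 := by
    rw [div_le_div_iff₀ (by positivity) (by norm_num)]
    have : ((t + 1 : ℕ) : ℝ) ≤ P.n := by exact_mod_cast ht
    linarith
  linarith

lemma Vn_le (hP : P.Hyp) (hI : P.Inv s t) (hW : 1 / 2 ≤ Wt s.A s.w) (ht : t < P.n)
    {b : Finset α} (hb : b ∈ P.Mon) {Q : α} (hQ : Q ∈ s.A) : P.Vn s t Q b ≤ P.VF s t Q b := by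
  have h := hI.SH hP hW
  have hC := Cpos hP
  have hwm := wm_pos hP
  have hbL : b ∈ P.L := (Finset.mem_filter.1 hb).1
  have hW1 : ∀ x ∈ s.A, 0 ≤ P.W1 s t x := fun x hx => (h.w1_pos hx).le
  obtain ⟨hr0, hr1⟩ := rho1_bounds hP hI hW ht hQ hbL
  set a : ℝ := (b.card : ℝ) / P.C.card with ha
  have ha0 : 0 ≤ a := by positivity
  have hsecond : 0 ≤ 3 * P.wm * ∑ x ∈ (b ∩ s.A) \ P.K s t Q, P.W1 s t x * (2 * P.Gam - P.S1 s t x) := by
    refine mul_nonneg (by linarith) (Finset.sum_nonneg fun x hx => ?_)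
    have hxA := (Finset.mem_inter.1 (Finset.mem_sdiff.1 hx).1).2
    exact mul_nonneg (hW1 x hxA) (gap_nonneg hP hI h hxA)
  by_cases ho : P.ovr s t Q b
  · unfold Vn VF
    rw [V_of_dead (dead_of_ovr hb ho), if_pos ho, zero_add, ← ha]
    unfold ovr at ho
    set m : ℝ := ∑ y ∈ (b ∩ s.A) \ P.K s t Q, P.W1 s t y with hm
    have ho' : 4 * a < m := by rw [ha]; rw [mul_div_assoc] at ho; exact ho
    have h1 : ∑ x ∈ ((b ∩ s.A) \ P.K s t Q).erase Q, P.W1 s t x ≤ m := by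
      refine Finset.sum_le_sum_of_subset_of_nonneg (Finset.erase_subset _ _) fun x hx _ => ?_
      exact hW1 x (Finset.mem_inter.1 (Finset.mem_sdiff.1 hx).1).2
    have h2 : a * ∑ x ∈ ((b ∩ s.A) \ P.K s t Q).erase Q, P.W1 s t x ≤ a * m :=
      mul_le_mul_of_nonneg_left h1 ha0
    have h3 : a * m ≤ (max (P.rho1 s t b * m - a) 0) ^ 2 := by
      have hmpos : 0 < m := by linarith
      have h4 : (65 / 100) * m ≤ P.rho1 s t b * m - a := by nlinarith
      have h5 : (65 / 100) * m ≤ max (P.rho1 s t b * m - a) 0 := h4.trans (le_max_left _ _)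
      have h6 : ((65 / 100) * m) ^ 2 ≤ (max (P.rho1 s t b * m - a) 0) ^ 2 :=
        pow_le_pow_left₀ (by positivity) h5 2
      nlinarith
    linarith
  · unfold Vn VF
    rw [if_neg ho, mul_zero, add_zero, ← ha]
    unfold V
    show (max (P.rho1 s t b * ∑ x ∈ b ∩ (P.step s t Q).A, P.W1 s t x - (b.card : ℝ) / P.C.card) 0) ^ 2 +
      3 * P.wm * ∑ x ∈ b ∩ (P.step s t Q).A, P.W1 s t x * (2 * P.Gam - P.S1 s t x) ≤ _
    have hsub : b ∩ (P.step s t Q).A ⊆ (b ∩ s.A) \ P.K s t Q := by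
      intro x hx
      rw [Finset.mem_inter] at hx
      obtain ⟨h1, h2, _⟩ := mem_step hx.2
      exact Finset.mem_sdiff.2 ⟨Finset.mem_inter.2 ⟨hx.1, h1⟩, h2⟩
    refine add_le_add ?_ ?_
    · refine pow_le_pow_left₀ (le_max_right _ _) (max_le_max ?_ le_rfl) 2
      rw [← ha]
      have h1 : ∑ x ∈ b ∩ (P.step s t Q).A, P.W1 s t x ≤ ∑ x ∈ (b ∩ s.A) \ P.K s t Q, P.W1 s t x :=
        Finset.sum_le_sum_of_subset_of_nonneg hsub fun x hx _ =>
          hW1 x (Finset.mem_inter.1 (Finset.mem_sdiff.1 hx).1).2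
      have := mul_le_mul_of_nonneg_left h1 (by linarith : (0 : ℝ) ≤ P.rho1 s t b)
      linarith
    · refine mul_le_mul_of_nonneg_left ?_ (by linarith)
      refine Finset.sum_le_sum_of_subset_of_nonneg hsub fun x hx _ => ?_
      have hxA := (Finset.mem_inter.1 (Finset.mem_sdiff.1 hx).1).2
      exact mul_nonneg (hW1 x hxA) (gap_nonneg hP hI h hxA)

lemma mon_core (hP : P.Hyp) (hI : P.Inv s t) (hW : 1 / 2 ≤ Wt s.A s.w) (ht : t < P.n)
    {b : Finset α} (hb : b ∈ P.Mon) (G : Finset α) (hG : G ⊆ s.A) (p : ℝ)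
    (hp : ∑ Q ∈ G, qq s.A s.w Q = p) (h1 : ∀ Q ∈ G, ((b ∩ s.A) ∩ P.K s t Q).card ≤ 1)
    (hbeta : ∀ x ∈ b ∩ s.A, ∃ c : ℝ, 0 ≤ c ∧ beta s.A s.w (P.K s t) x =
      ∑ Q ∈ G.filter (fun Q => x ∈ P.K s t Q), qq s.A s.w Q + (1 - p) - c)
    (hr : P.rho1 s t b = s.rho b * p) :
    ∑ Q ∈ G, qq s.A s.w Q * P.VF s t Q b ≤ P.V s b := by
  have h := hI.SH hP hW
  have hC := Cpos hP
  have hwm := wm_pos hP
  have hn := npos hP
  have hbL : b ∈ P.L := (Finset.mem_filter.1 hb).1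
  have hbs : P.s0 < (b.card : ℝ) := (Finset.mem_filter.1 hb).2
  have hW1 : ∀ x ∈ s.A, 0 ≤ P.W1 s t x := fun x hx => (h.w1_pos hx).le
  have hXA : b ∩ s.A ⊆ s.A := Finset.inter_subset_right
  set X : Finset α := b ∩ s.A with hX
  set a : ℝ := (b.card : ℝ) / P.C.card with ha
  have hp1 : p ≤ 1 := by
    rw [← hp, ← h.sum_qq]
    exact Finset.sum_le_sum_of_subset_of_nonneg hG fun x hx _ => h.qq_nonneg hx
  have hbele : ∀ x ∈ X, ∑ Q ∈ G.filter (fun Q => x ∈ P.K s t Q), qq s.A s.w Q ≤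
      beta s.A s.w (P.K s t) x := by
    intro x _
    unfold beta
    exact Finset.sum_le_sum_of_subset_of_nonneg (Finset.filter_subset_filter _ hG)
      fun Q hQ _ => h.qq_nonneg (Finset.mem_filter.1 hQ).1
  have hrho0 : 0 ≤ s.rho b := by
    refine le_trans ?_ (hI.rho0 b hbL)
    have : (t : ℝ) / (10 * P.n) ≤ 1 / 10 := by
      rw [div_le_div_iff₀ (by positivity) (by norm_num)]
      have : (t : ℝ) ≤ P.n := by exact_mod_cast ht.le
      linarith
    linarith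
  have hUle : ∑ x ∈ X, s.w x * (∑ Q ∈ G.filter (fun Q => x ∈ P.K s t Q), qq s.A s.w Q) ≤ P.wm := by
    have e1 : ∀ x ∈ X, s.w x * (∑ Q ∈ G.filter (fun Q => x ∈ P.K s t Q), qq s.A s.w Q) ≤
        s.w x * (2 * P.Del * P.wm) := fun x hx =>
      mul_le_mul_of_nonneg_left ((hbele x hx).trans (hI.beta_le hP hW (hXA hx)))
        (h.wpos x (hXA hx)).le
    refine (Finset.sum_le_sum e1).trans ?_
    rw [← Finset.sum_mul]
    have e2 := hI.mon b hb
    have e3 : 0 ≤ 2 * P.Del * P.wm := mul_nonneg (mul_nonneg (by norm_num) hP.D0) hwm.le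
    refine (mul_le_mul_of_nonneg_right e2 e3).trans ?_
    have e4 := hP.hM b hbL hbs
    have e5 := hP.h8
    have e6 : 4 * (b.card : ℝ) / P.C.card * (2 * P.Del * P.wm) =
        ((8 * P.Del) * b.card / P.C.card) * P.wm := by ring
    rw [e6]
    have e7 : (8 * P.Del) * (b.card : ℝ) / P.C.card ≤ 1 := by
      rw [div_le_one hC]
      have : (8 * P.Del) * (b.card : ℝ) ≤ (80 * P.n) * b.card :=
        mul_le_mul_of_nonneg_right e5 (Nat.cast_nonneg _)
      linarith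
    nlinarith
  have hmain := h.avg_v X G hXA hG p (s.rho b) a P.wm
    (fun x => ∑ Q ∈ G.filter (fun Q => x ∈ P.K s t Q), qq s.A s.w Q) h1 hp hp1
    (fun x _ => rfl) hbeta hbele hrho0 (hI.rho1 b) (fun x hx => hI.w_le hP (hXA hx)) hUle
  have hsec : ∑ Q ∈ G, qq s.A s.w Q * ∑ x ∈ X \ P.K s t Q, P.W1 s t x * (2 * P.Gam - P.S1 s t x) ≤
      ∑ x ∈ X, s.w x * (2 * P.Gam - s.S x) - ∑ x ∈ X, s.w x * beta s.A s.w (P.K s t) x := by
    have e1 := h.avg_sum X hXA (fun x => 2 * P.Gam - P.S1 s t x)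
    have e2 : ∑ x ∈ X, s.w x * (2 * P.Gam - s.S x) - ∑ x ∈ X, s.w x * beta s.A s.w (P.K s t) x =
        ∑ x ∈ X, s.w x * (2 * P.Gam - P.S1 s t x) := by
      rw [← Finset.sum_sub_distrib]
      refine Finset.sum_congr rfl fun x _ => ?_
      unfold S1; ring
    rw [e2, ← e1]
    refine Finset.sum_le_sum_of_subset_of_nonneg hG fun Q hQ _ => ?_
    refine mul_nonneg (h.qq_nonneg hQ) (Finset.sum_nonneg fun x hx => ?_)
    have hxA := hXA (Finset.mem_sdiff.1 hx).1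
    exact mul_nonneg (hW1 x hxA) (gap_nonneg hP hI h hxA)
  have hbw : ∑ x ∈ X, s.w x * (∑ Q ∈ G.filter (fun Q => x ∈ P.K s t Q), qq s.A s.w Q) ≤
      ∑ x ∈ X, s.w x * beta s.A s.w (P.K s t) x :=
    Finset.sum_le_sum fun x hx => mul_le_mul_of_nonneg_left (hbele x hx) (h.wpos x (hXA hx)).le
  have e0 : ∑ Q ∈ G, qq s.A s.w Q * P.VF s t Q b =
      ∑ Q ∈ G, qq s.A s.w Q * (max (s.rho b * p * ∑ x ∈ X \ P.K s t Q, w1 s.A s.w (P.K s t) x - a) 0) ^ 2 +
      3 * P.wm * ∑ Q ∈ G, qq s.A s.w Q *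
        ∑ x ∈ X \ P.K s t Q, P.W1 s t x * (2 * P.Gam - P.S1 s t x) := by
    rw [Finset.mul_sum, ← Finset.sum_add_distrib]
    refine Finset.sum_congr rfl fun Q _ => ?_
    unfold VF
    rw [hr]
    unfold W1
    ring
  rw [e0]
  unfold V
  have e8 : 0 ≤ 3 * P.wm := by linarith
  have e9 := mul_le_mul_of_nonneg_left hsec e8
  have e10 := mul_le_mul_of_nonneg_left hbw e8
  rw [mul_sub] at e9
  linarith

theorem mon_avg (hP : P.Hyp) (hI : P.Inv s t) (hW : 1 / 2 ≤ Wt s.A s.w) (ht : t < P.n)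
    {b : Finset α} (hb : b ∈ P.Mon) :
    ∑ Q ∈ s.A, qq s.A s.w Q * P.Vn s t Q b ≤ P.V s b := by
  have h := hI.SH hP hW
  have hbL : b ∈ P.L := (Finset.mem_filter.1 hb).1
  have hbu : b ∈ P.L ∪ P.H := Finset.mem_union_left _ hbL
  have hXA : b ∩ s.A ⊆ s.A := Finset.inter_subset_right
  by_cases hc : P.c s t b
  · set G : Finset α := s.A \ (b ∩ s.A) with hG
    have hGA : G ⊆ s.A := Finset.sdiff_subset
    have hp : ∑ Q ∈ G, qq s.A s.w Q = 1 - ∑ x ∈ b ∩ s.A, qq s.A s.w x := by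
      have := Finset.sum_sdiff (f := fun Q => qq s.A s.w Q) hXA
      rw [h.sum_qq] at this
      linarith
    have hnotb : ∀ Q ∈ G, Q ∉ b := fun Q hQ hQb =>
      (Finset.mem_sdiff.1 hQ).2 (Finset.mem_inter.2 ⟨hQb, (Finset.mem_sdiff.1 hQ).1⟩)
    have h1 : ∑ Q ∈ s.A, qq s.A s.w Q * P.Vn s t Q b ≤ ∑ Q ∈ G, qq s.A s.w Q * P.VF s t Q b := by
      rw [← Finset.sum_sdiff hXA]
      have e1 : ∑ Q ∈ b ∩ s.A, qq s.A s.w Q * P.Vn s t Q b = 0 :=
        Finset.sum_eq_zero fun Q hQ => by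
          rw [Vn_zero hbL hc (Finset.mem_inter.1 hQ).1, mul_zero]
      rw [e1, add_zero]
      exact Finset.sum_le_sum fun Q hQ =>
        mul_le_mul_of_nonneg_left (Vn_le hP hI hW ht hb (hGA hQ)) (h.qq_nonneg (hGA hQ))
    refine h1.trans (mon_core hP hI hW ht hb G hGA _ hp ?_ ?_ ?_)
    · intro Q hQ
      exact card_le_one_K hP hbu fun hQb => absurd hQb (hnotb Q hQ)
    · intro x hx
      refine ⟨qq s.A s.w x, h.qq_nonneg (hXA hx), ?_⟩
      have e1 : s.A.filter (fun Q => x ∈ P.K s t Q) =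
          G.filter (fun Q => x ∈ P.K s t Q) ∪ (b ∩ s.A).erase x := by
        ext Q
        simp only [Finset.mem_filter, Finset.mem_union, Finset.mem_erase]
        constructor
        · rintro ⟨hQ, hxQ⟩
          by_cases hQX : Q ∈ b ∩ s.A
          · refine Or.inr ⟨?_, hQX⟩
            rintro rfl
            exact notMem_K Q hxQ
          · exact Or.inl ⟨Finset.mem_sdiff.2 ⟨hQ, hQX⟩, hxQ⟩
        · rintro (⟨hQ, hxQ⟩ | ⟨hne, hQX⟩)
          · exact ⟨hGA hQ, hxQ⟩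
          · exact ⟨hXA hQX, key3 hbL hc (Finset.mem_inter.1 hQX).1 hx (Ne.symm hne)⟩
      have hdisj : Disjoint (G.filter (fun Q => x ∈ P.K s t Q)) ((b ∩ s.A).erase x) := by
        rw [Finset.disjoint_left]
        intro Q hQ hQ'
        exact (Finset.mem_sdiff.1 (Finset.mem_filter.1 hQ).1).2 (Finset.mem_of_mem_erase hQ')
      unfold beta
      rw [e1, Finset.sum_union hdisj]
      have := Finset.add_sum_erase (b ∩ s.A) (fun Q => qq s.A s.w Q) hx
      linarith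
    · unfold PD.rho1; rw [if_pos hc]
  · have hp : ∑ Q ∈ s.A, qq s.A s.w Q = 1 := h.sum_qq
    have h1 : ∑ Q ∈ s.A, qq s.A s.w Q * P.Vn s t Q b ≤ ∑ Q ∈ s.A, qq s.A s.w Q * P.VF s t Q b :=
      Finset.sum_le_sum fun Q hQ =>
        mul_le_mul_of_nonneg_left (Vn_le hP hI hW ht hb hQ) (h.qq_nonneg hQ)
    refine h1.trans (mon_core hP hI hW ht hb s.A (Finset.Subset.refl _) 1 hp ?_ ?_ ?_)
    · intro Q _
      exact card_le_one_K hP hbu fun _ => Or.inl hc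
    · intro x _
      refine ⟨0, le_rfl, ?_⟩
      unfold beta
      ring
    · unfold PD.rho1; rw [if_neg hc, mul_one]

end PD

end Pool.Agent.Grid3D.P
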