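import Pool.Agent.Grid3D.PBlock

set_option autoImplicit false

/-! The block potential and its behaviour in one step. -/

namespace Pool.Agent.Grid3D.P

open Finset Classical

/-- coefficients `4^j (j+1)!` -/
noncomputable def acoef (j : ℕ) : ℝ := 4 ^ j * ((j + 1).factorial : ℝ)

lemma acoef_pos (j : ℕ) : 0 < acoef j := by unfold acoef; positivity

lemma acoef_succ (j : ℕ) : acoef (j + 1) = 4 * (j + 2) * acoef j := by
  unfold acoef
  rw [Nat.factorial_succ (j + 1), pow_succ]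
  push_cast
  ring

lemma acoef_one : acoef 1 = 8 := by
  unfold acoef
  norm_num [Nat.factorial]

lemma acoef_two : acoef 2 = 96 := by
  unfold acoef
  norm_num [Nat.factorial]

lemma acoef_three : acoef 3 = 1536 := by
  unfold acoef
  norm_num [Nat.factorial]

section

variable {α : Type*} [DecidableEq α]

/-- the block potential -/
noncomputable def Bp (comp : Finset ℕ → Prop) (n t : ℕ) (T : Finset ℕ) (X : Finset α)
    (w : α → ℝ) : ℝ := ∑ Z ∈ Min comp n t T, acoef Z.card * E (Z.card + 1) X w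

/-- terms of minimal sets not containing `t` -/
noncomputable def Bfar (comp : Finset ℕ → Prop) (n t : ℕ) (T : Finset ℕ) (X : Finset α)
    (w : α → ℝ) : ℝ :=
  ∑ Z ∈ (Min comp n t T).filter (fun Z => t ∉ Z), acoef Z.card * E (Z.card + 1) X w

/-- terms of minimal sets containing `t` -/
noncomputable def Bnear (comp : Finset ℕ → Prop) (n t : ℕ) (T : Finset ℕ) (X : Finset α)
    (w : α → ℝ) : ℝ :=
  ∑ Z ∈ (Min comp n t T).filter (fun Z => t ∈ Z), acoef Z.card * E (Z.card + 1) X w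

/-- what the terms of minimal sets containing `t` become when `t` is placed -/
noncomputable def Bnew (comp : Finset ℕ → Prop) (n t : ℕ) (T : Finset ℕ) (X : Finset α)
    (w : α → ℝ) : ℝ :=
  ∑ Z ∈ (Min comp n t T).filter (fun Z => t ∈ Z), acoef (Z.card - 1) * E Z.card X w

variable (comp : Finset ℕ → Prop) (n t : ℕ) (T : Finset ℕ) (X : Finset α) (w : α → ℝ)

lemma Bp_split : Bp comp n t T X w = Bfar comp n t T X w + Bnear comp n t T X w := by
  unfold Bp Bfar Bnear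
  rw [add_comm]
  exact (Finset.sum_filter_add_sum_filter_not (Min comp n t T) (fun Z => t ∈ Z)
    (fun Z => acoef Z.card * E (Z.card + 1) X w)).symm

lemma Bp_succ : Bp comp n (t + 1) T X w = Bfar comp n t T X w := by
  unfold Bp Bfar
  rw [Min_succ]

lemma Bp_nonneg (hw : ∀ x ∈ X, 0 ≤ w x) : 0 ≤ Bp comp n t T X w :=
  Finset.sum_nonneg fun _ _ => mul_nonneg (acoef_pos _).le (E_nonneg _ _ _ hw)

lemma Bfar_nonneg (hw : ∀ x ∈ X, 0 ≤ w x) : 0 ≤ Bfar comp n t T X w :=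
  Finset.sum_nonneg fun _ _ => mul_nonneg (acoef_pos _).le (E_nonneg _ _ _ hw)

lemma Bnear_nonneg (hw : ∀ x ∈ X, 0 ≤ w x) : 0 ≤ Bnear comp n t T X w :=
  Finset.sum_nonneg fun _ _ => mul_nonneg (acoef_pos _).le (E_nonneg _ _ _ hw)

lemma Bnew_nonneg (hw : ∀ x ∈ X, 0 ≤ w x) : 0 ≤ Bnew comp n t T X w :=
  Finset.sum_nonneg fun _ _ => mul_nonneg (acoef_pos _).le (E_nonneg _ _ _ hw)

lemma Bp_mono {X Y : Finset α} (h : X ⊆ Y) (hw : ∀ x ∈ Y, 0 ≤ w x) :
    Bp comp n t T X w ≤ Bp comp n t T Y w :=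
  Finset.sum_le_sum fun _ _ => mul_le_mul_of_nonneg_left (E_mono_set _ h w hw) (acoef_pos _).le

lemma Bfar_mono {X Y : Finset α} (h : X ⊆ Y) (hw : ∀ x ∈ Y, 0 ≤ w x) :
    Bfar comp n t T X w ≤ Bfar comp n t T Y w :=
  Finset.sum_le_sum fun _ _ => mul_le_mul_of_nonneg_left (E_mono_set _ h w hw) (acoef_pos _).le

lemma Bnew_mono {X Y : Finset α} (h : X ⊆ Y) (hw : ∀ x ∈ Y, 0 ≤ w x) :
    Bnew comp n t T X w ≤ Bnew comp n t T Y w :=
  Finset.sum_le_sum fun _ _ => mul_le_mul_of_nonneg_left (E_mono_set _ h w hw) (acoef_pos _).le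

lemma Bp_empty (w : α → ℝ) : Bp comp n t T (∅ : Finset α) w = 0 := by
  unfold Bp
  refine Finset.sum_eq_zero fun Z _ => ?_
  rw [E_empty _ (Nat.succ_ne_zero _), mul_zero]

lemma Bp_insert_le (hcomp : ∀ T T' : Finset ℕ, T ⊆ T' → comp T → comp T') (htn : t < n)
    (hw : ∀ x ∈ X, 0 ≤ w x) :
    Bp comp n (t + 1) (insert t T) X w ≤ Bfar comp n t T X w + Bnew comp n t T X w := by
  have hsub : Min comp n (t + 1) (insert t T) ⊆ (Min comp n t T).filter (fun Z => t ∉ Z) ∪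
      ((Min comp n t T).filter (fun Z => t ∈ Z)).image (fun Z => Z.erase t) := by
    intro Z hZ
    rcases Min_insert comp n t T Z hcomp htn hZ with ⟨h1, h2⟩ | ⟨h1, h2⟩
    · exact Finset.mem_union_left _ (Finset.mem_filter.2 ⟨h1, h2⟩)
    · refine Finset.mem_union_right _ (Finset.mem_image.2 ⟨insert t Z, ?_, ?_⟩)
      · exact Finset.mem_filter.2 ⟨h1, Finset.mem_insert_self _ _⟩
      · exact Finset.erase_insert h2
  have hnn : ∀ Z : Finset ℕ, 0 ≤ acoef Z.card * E (Z.card + 1) X w := fun Z =>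
    mul_nonneg (acoef_pos _).le (E_nonneg _ _ _ hw)
  have h1 : Bp comp n (t + 1) (insert t T) X w ≤
      ∑ Z ∈ (Min comp n t T).filter (fun Z => t ∉ Z) ∪
      ((Min comp n t T).filter (fun Z => t ∈ Z)).image (fun Z => Z.erase t),
        acoef Z.card * E (Z.card + 1) X w :=
    Finset.sum_le_sum_of_subset_of_nonneg hsub fun Z _ _ => hnn Z
  refine h1.trans ?_
  have h2 : ∑ Z ∈ (Min comp n t T).filter (fun Z => t ∉ Z) ∪
      ((Min comp n t T).filter (fun Z => t ∈ Z)).image (fun Z => Z.erase t),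
        acoef Z.card * E (Z.card + 1) X w ≤
      ∑ Z ∈ (Min comp n t T).filter (fun Z => t ∉ Z), acoef Z.card * E (Z.card + 1) X w +
      ∑ Z ∈ ((Min comp n t T).filter (fun Z => t ∈ Z)).image (fun Z => Z.erase t),
        acoef Z.card * E (Z.card + 1) X w := by
    rw [← Finset.sum_union_inter]
    have : 0 ≤ ∑ Z ∈ (Min comp n t T).filter (fun Z => t ∉ Z) ∩
      ((Min comp n t T).filter (fun Z => t ∈ Z)).image (fun Z => Z.erase t),
        acoef Z.card * E (Z.card + 1) X w := Finset.sum_nonneg fun Z _ => hnn Z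
    linarith
  refine h2.trans ?_
  unfold Bfar Bnew
  refine add_le_add le_rfl ?_
  rw [Finset.sum_image]
  · refine le_of_eq (Finset.sum_congr rfl fun Z hZ => ?_)
    have htZ := (Finset.mem_filter.1 hZ).2
    have hpos := Finset.card_pos.2 ⟨t, htZ⟩
    rw [Finset.card_erase_of_mem htZ]
    have : Z.card - 1 + 1 = Z.card := by omega
    rw [this]
  · intro Z hZ Z' hZ' he
    have htZ := (Finset.mem_filter.1 hZ).2
    have htZ' := (Finset.mem_filter.1 hZ').2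
    simp only at he
    rw [← Finset.insert_erase htZ, he, Finset.insert_erase htZ']

variable {comp n t T X w} {A : Finset α} {K : α → Finset α}

lemma SH.avg_far_N (h : SH A w K) (hX : X ⊆ A) (h1 : ∀ Q ∈ A, (X ∩ K Q).card ≤ 1) :
    ∑ Q ∈ A, qq A w Q * Bfar comp n t T (X \ K Q) (w1 A w K) ≤ Bfar comp n t T X w := by
  unfold Bfar
  have e1 : ∑ Q ∈ A, qq A w Q * ∑ Z ∈ (Min comp n t T).filter (fun Z => t ∉ Z),
      acoef Z.card * E (Z.card + 1) (X \ K Q) (w1 A w K) =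
      ∑ Z ∈ (Min comp n t T).filter (fun Z => t ∉ Z), acoef Z.card *
        ∑ Q ∈ A, qq A w Q * E (Z.card + 1) (X \ K Q) (w1 A w K) := by
    simp_rw [Finset.mul_sum]
    rw [Finset.sum_comm]
    refine Finset.sum_congr rfl fun Z _ => Finset.sum_congr rfl fun Q _ => by ring
  rw [e1]
  exact Finset.sum_le_sum fun Z _ => mul_le_mul_of_nonneg_left (h.avg_E_N X hX h1 _) (acoef_pos _).le

lemma SH.avg_far_C (h : SH A w K) (hX : X ⊆ A)
    (h1 : ∀ Q ∈ A \ X, (X ∩ K Q).card ≤ 1)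
    (h2 : ∀ Q ∈ X, ∀ x ∈ X, x ≠ Q → x ∈ K Q) (h2' : ∀ Q ∈ X, Q ∉ K Q)
    (hM : ∀ Z ∈ Min comp n t T, Z.card ≤ 3) (hqX : ∑ x ∈ X, qq A w x ≤ 1 / 20) :
    ∑ Q ∈ A \ X, qq A w Q * Bfar comp n t T (X \ K Q) (w1 A w K) ≤
      (1 + 6 * ∑ x ∈ X, qq A w x) * Bfar comp n t T X w := by
  unfold Bfar
  have e1 : ∑ Q ∈ A \ X, qq A w Q * ∑ Z ∈ (Min comp n t T).filter (fun Z => t ∉ Z),
      acoef Z.card * E (Z.card + 1) (X \ K Q) (w1 A w K) =
      ∑ Z ∈ (Min comp n t T).filter (fun Z => t ∉ Z), acoef Z.card *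
        ∑ Q ∈ A \ X, qq A w Q * E (Z.card + 1) (X \ K Q) (w1 A w K) := by
    simp_rw [Finset.mul_sum]
    rw [Finset.sum_comm]
    refine Finset.sum_congr rfl fun Z _ => Finset.sum_congr rfl fun Q _ => by ring
  rw [e1, Finset.mul_sum]
  refine Finset.sum_le_sum fun Z hZ => ?_
  have h3 := h.avg_E_C X hX h1 h2 h2' (Z.card + 1)
    (by have := hM Z (Finset.mem_filter.1 hZ).1; omega) (Nat.succ_ne_zero _) hqX
  calc acoef Z.card * ∑ Q ∈ A \ X, qq A w Q * E (Z.card + 1) (X \ K Q) (w1 A w K)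
      ≤ acoef Z.card * ((1 + 6 * ∑ x ∈ X, qq A w x) * E (Z.card + 1) X w) :=
        mul_le_mul_of_nonneg_left h3 (acoef_pos _).le
    _ = _ := by ring

lemma SH.avg_new (h : SH A w K) (hX : X ⊆ A) (hM : ∀ Z ∈ Min comp n t T, Z.card ≤ 3) :
    ∑ Q ∈ X, qq A w Q * Bnew comp n t T (X.erase Q) (w1 A w K) ≤ Bnear comp n t T X w := by
  unfold Bnew Bnear
  have e1 : ∑ Q ∈ X, qq A w Q * ∑ Z ∈ (Min comp n t T).filter (fun Z => t ∈ Z),
      acoef (Z.card - 1) * E Z.card (X.erase Q) (w1 A w K) =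
      ∑ Z ∈ (Min comp n t T).filter (fun Z => t ∈ Z), acoef (Z.card - 1) *
        ∑ Q ∈ X, qq A w Q * E Z.card (X.erase Q) (w1 A w K) := by
    simp_rw [Finset.mul_sum]
    rw [Finset.sum_comm]
    refine Finset.sum_congr rfl fun Z _ => Finset.sum_congr rfl fun Q _ => by ring
  rw [e1]
  refine Finset.sum_le_sum fun Z hZ => ?_
  have hZ3 := hM Z (Finset.mem_filter.1 hZ).1
  have htZ := (Finset.mem_filter.1 hZ).2
  have hpos := Finset.card_pos.2 ⟨t, htZ⟩
  obtain ⟨j, hj⟩ : ∃ j, Z.card = j + 1 := ⟨Z.card - 1, by omega⟩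
  have h3 := h.avg_E_erase X hX Z.card hZ3
  have hE : 0 ≤ E (Z.card + 1) X w := E_nonneg _ _ _ fun x hx => (h.wpos x (hX hx)).le
  have ha := acoef_pos (Z.card - 1)
  calc acoef (Z.card - 1) * ∑ Q ∈ X, qq A w Q * E Z.card (X.erase Q) (w1 A w K)
      ≤ acoef (Z.card - 1) * ((21 / 10) * ((Z.card + 1) * E (Z.card + 1) X w)) :=
        mul_le_mul_of_nonneg_left h3 ha.le
    _ ≤ acoef Z.card * E (Z.card + 1) X w := by
        rw [hj]
        have e2 : j + 1 - 1 = j := by omega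
        rw [e2, acoef_succ]
        rw [hj] at hE
        push_cast
        have h4 : 0 ≤ acoef j * E (j + 1 + 1) X w := mul_nonneg (acoef_pos j).le hE
        have h5 : (0 : ℝ) ≤ (j : ℝ) := Nat.cast_nonneg j
        nlinarith [mul_nonneg h5 h4]

lemma Bnear_ge (ht : {t} ∈ Min comp n t T) (hw : ∀ x ∈ X, 0 ≤ w x) :
    8 * E 2 X w ≤ Bnear comp n t T X w := by
  unfold Bnear
  have h1 : ({t} : Finset ℕ) ∈ (Min comp n t T).filter (fun Z => t ∈ Z) :=
    Finset.mem_filter.2 ⟨ht, Finset.mem_singleton_self t⟩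
  have := Finset.single_le_sum (f := fun Z : Finset ℕ => acoef Z.card * E (Z.card + 1) X w)
    (fun Z _ => mul_nonneg (acoef_pos _).le (E_nonneg _ _ _ hw)) h1
  simp only [Finset.card_singleton] at this
  rw [acoef_one] at this
  exact this

/-- step inequality, no completion at this step -/
lemma SH.step_zero (h : SH A w K) (hX : X ⊆ A) (h1 : ∀ Q ∈ A, (X ∩ K Q).card ≤ 1)
    (hM : ∀ Z ∈ Min comp n t T, Z.card ≤ 3) :
    ∑ Q ∈ A, qq A w Q * (Bfar comp n t T (X \ K Q) (w1 A w K) +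
      (if Q ∈ X then Bnew comp n t T (X.erase Q) (w1 A w K) else 0)) ≤
      Bp comp n t T X w := by
  have e1 : ∑ Q ∈ A, qq A w Q * (Bfar comp n t T (X \ K Q) (w1 A w K) +
      (if Q ∈ X then Bnew comp n t T (X.erase Q) (w1 A w K) else 0)) =
      ∑ Q ∈ A, qq A w Q * Bfar comp n t T (X \ K Q) (w1 A w K) +
      ∑ Q ∈ X, qq A w Q * Bnew comp n t T (X.erase Q) (w1 A w K) := by
    simp_rw [mul_add]
    rw [Finset.sum_add_distrib]
    congr 1
    rw [← Finset.sum_subset hX (fun Q _ hQX => by simp [hQX])]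
    exact Finset.sum_congr rfl fun Q hQ => by simp [hQ]
  rw [e1, Bp_split]
  exact add_le_add (h.avg_far_N hX h1) (h.avg_new hX hM)

/-- step inequality for a heavy block which would be completed -/
lemma SH.step_heavy (h : SH A w K) (hX : X ⊆ A) (h1 : ∀ Q ∈ A, (X ∩ K Q).card ≤ 1)
    (ht : {t} ∈ Min comp n t T) :
    ∑ Q ∈ A, qq A w Q * ((if Q ∈ X then 0 else Bfar comp n t T (X \ K Q) (w1 A w K)) +
      (if Q ∈ X then ∑ x ∈ X.erase Q, w1 A w K x else 0)) ≤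
      Bp comp n t T X w := by
  have hnn : ∀ Q, 0 ≤ Bfar comp n t T (X \ K Q) (w1 A w K) := fun Q =>
    Bfar_nonneg _ _ _ _ _ _ fun x hx => (h.w1_pos (hX (Finset.mem_sdiff.1 hx).1)).le
  have e1 : ∑ Q ∈ A, qq A w Q * ((if Q ∈ X then 0 else Bfar comp n t T (X \ K Q) (w1 A w K)) +
      (if Q ∈ X then ∑ x ∈ X.erase Q, w1 A w K x else 0)) ≤
      ∑ Q ∈ A, qq A w Q * Bfar comp n t T (X \ K Q) (w1 A w K) +
      ∑ Q ∈ X, qq A w Q * E 1 (X.erase Q) (w1 A w K) := by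
    simp_rw [mul_add]
    rw [Finset.sum_add_distrib]
    refine add_le_add ?_ ?_
    · refine Finset.sum_le_sum fun Q hQ => ?_
      refine mul_le_mul_of_nonneg_left ?_ (h.qq_nonneg hQ)
      split_ifs
      · exact hnn Q
      · exact le_rfl
    · rw [← Finset.sum_subset hX (fun Q _ hQX => by simp [hQX])]
      refine le_of_eq (Finset.sum_congr rfl fun Q hQ => ?_)
      simp only [hQ, if_true]
      unfold E
      rw [Finset.powersetCard_one, Finset.sum_map]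
      simp
  refine e1.trans ?_
  have h2 := h.avg_far_N (comp := comp) (n := n) (t := t) (T := T) hX h1
  have h3 := h.avg_E_erase X hX 1 (by norm_num)
  have h4 := Bnear_ge (X := X) (w := w) ht fun x hx => (h.wpos x (hX hx)).le
  have h5 : 0 ≤ E 2 X w := E_nonneg _ _ _ fun x hx => (h.wpos x (hX hx)).le
  rw [Bp_split]
  norm_num at h3
  linarith

/-- step inequality for a light block which would be completed -/
lemma SH.step_light (h : SH A w K) (hX : X ⊆ A)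
    (h1 : ∀ Q ∈ A \ X, (X ∩ K Q).card ≤ 1)
    (h2 : ∀ Q ∈ X, ∀ x ∈ X, x ≠ Q → x ∈ K Q) (h2' : ∀ Q ∈ X, Q ∉ K Q)
    (hM : ∀ Z ∈ Min comp n t T, Z.card ≤ 3) (hqX : ∑ x ∈ X, qq A w x ≤ 1 / 20)
    (ht : {t} ∈ Min comp n t T) (rho : ℝ) (hrho : 9 / 10 ≤ rho) :
    ∑ Q ∈ A, qq A w Q * (if Q ∈ X then 0 else
      (rho * (1 - ∑ x ∈ X, qq A w x)) ^ 6 * Bfar comp n t T (X \ K Q) (w1 A w K)) +
      4 * E 2 X w ≤ rho ^ 6 * Bp comp n t T X w := by
  set qX := ∑ x ∈ X, qq A w x with hqXdef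
  have hqX0 : 0 ≤ qX := Finset.sum_nonneg fun x hx => h.qq_nonneg (hX hx)
  have e1 : ∑ Q ∈ A, qq A w Q * (if Q ∈ X then 0 else
      (rho * (1 - qX)) ^ 6 * Bfar comp n t T (X \ K Q) (w1 A w K)) =
      (rho * (1 - qX)) ^ 6 *
        ∑ Q ∈ A \ X, qq A w Q * Bfar comp n t T (X \ K Q) (w1 A w K) := by
    rw [Finset.mul_sum, ← Finset.sum_subset (Finset.sdiff_subset (s := A) (t := X))]
    · refine Finset.sum_congr rfl fun Q hQ => ?_
      rw [if_neg (Finset.mem_sdiff.1 hQ).2]; ring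
    · intro Q hQA hQ
      have : Q ∈ X := by
        by_contra hc
        exact hQ (Finset.mem_sdiff.2 ⟨hQA, hc⟩)
      simp [this]
  rw [e1]
  have h3 := h.avg_far_C hX h1 h2 h2' hM hqX (comp := comp) (n := n) (t := t) (T := T)
  have h4 := Bnear_ge (X := X) (w := w) ht fun x hx => (h.wpos x (hX hx)).le
  have h5 : 0 ≤ E 2 X w := E_nonneg _ _ _ fun x hx => (h.wpos x (hX hx)).le
  have h6 : 0 ≤ Bfar comp n t T X w :=
    Bfar_nonneg _ _ _ _ _ _ fun x hx => (h.wpos x (hX hx)).le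
  have hq1 : (1 - qX) ^ 6 * (1 + 6 * qX) ≤ 1 := by
    have h01 : 0 ≤ 1 - qX := by linarith
    have hb : (1 - qX) ^ 6 * (1 + qX) ^ 6 ≤ 1 := by
      rw [← mul_pow]
      refine pow_le_one₀ ?_ ?_
      · nlinarith
      · nlinarith
    have hb2 : 1 + 6 * qX ≤ (1 + qX) ^ 6 := by
      have := one_add_mul_le_pow (a := qX) (by linarith) 6
      push_cast at this
      linarith
    have hb3 : 0 ≤ (1 - qX) ^ 6 := by positivity
    nlinarith
  have hr6 : (1 : ℝ) / 2 ≤ rho ^ 6 := by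
    calc (1 : ℝ) / 2 ≤ (9 / 10) ^ 6 := by norm_num
      _ ≤ rho ^ 6 := pow_le_pow_left₀ (by norm_num) hrho 6
  have hr0 : 0 ≤ rho ^ 6 := by linarith
  rw [Bp_split, mul_add]
  have h7 : (rho * (1 - qX)) ^ 6 *
      ∑ Q ∈ A \ X, qq A w Q * Bfar comp n t T (X \ K Q) (w1 A w K) ≤
      rho ^ 6 * Bfar comp n t T X w := by
    rw [mul_pow]
    have h8 : 0 ≤ (1 - qX) ^ 6 := by
      have : 0 ≤ 1 - qX := by linarith
      positivity
    calc rho ^ 6 * (1 - qX) ^ 6 *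
        ∑ Q ∈ A \ X, qq A w Q * Bfar comp n t T (X \ K Q) (w1 A w K)
        ≤ rho ^ 6 * (1 - qX) ^ 6 * ((1 + 6 * qX) * Bfar comp n t T X w) :=
          mul_le_mul_of_nonneg_left h3 (mul_nonneg hr0 h8)
      _ = rho ^ 6 * (((1 - qX) ^ 6 * (1 + 6 * qX)) * Bfar comp n t T X w) := by ring
      _ ≤ rho ^ 6 * (1 * Bfar comp n t T X w) :=
          mul_le_mul_of_nonneg_left (mul_le_mul_of_nonneg_right hq1 h6) hr0
      _ = _ := by ring
  have h9 : 4 * E 2 X w ≤ rho ^ 6 * Bnear comp n t T X w := by nlinarith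
  linarith

end

end Pool.Agent.Grid3D.P
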