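import Pool.Agent.Grid3D.PMisc

set_option autoImplicit false

/-! The state of the weighted greedy process, its invariants and the basic facts about one step. -/

namespace Pool.Agent.Grid3D.P

open Finset Classical

/-- data of the process -/
structure PD (α : Type) where
  C : Finset α
  L : Finset (Finset α)
  H : Finset (Finset α)
  n : ℕ
  adj : ℕ → ℕ → Prop
  Gam : ℝ
  Del : ℝ
  s0 : ℝ

/-- state of the process -/
structure St (α : Type) where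
  A : Finset α
  w : α → ℝ
  S : α → ℝ
  rho : Finset α → ℝ
  f : ℕ → α
  D : ℝ
  lH : ℝ
  lC : ℝ
  lO : ℝ
  lQ : ℝ

/-- times before `t` whose vertex lies in the block -/
noncomputable def St.T {α : Type} [DecidableEq α] (s : St α) (t : ℕ) (b : Finset α) : Finset ℕ :=
  (range t).filter (fun i => s.f i ∈ b)

namespace PD

variable {α : Type} [DecidableEq α] (P : PD α)

/-- cap of the weights -/
noncomputable def wm : ℝ := Real.exp (2 * P.Gam) / P.C.card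
/-- monitored blocks -/
noncomputable def Mon : Finset (Finset α) := P.L.filter (fun b => P.s0 < (b.card : ℝ))
/-- completed blocks -/
def cmp (b : Finset α) (T : Finset ℕ) : Prop :=
  (b ∈ P.L → 3 ≤ T.card) ∧ ∃ x ∈ T, ∃ y ∈ T, P.adj x y

omit [DecidableEq α] in
lemma cmp_mono (b : Finset α) (T T' : Finset ℕ) (h : T ⊆ T') (hT : P.cmp b T) : P.cmp b T' := by
  obtain ⟨h1, x, hx, y, hy, hxy⟩ := hT
  exact ⟨fun hb => (h1 hb).trans (Finset.card_le_card h), x, h hx, y, h hy, hxy⟩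

/-- hypotheses on the data -/
structure Hyp : Prop where
  symm : ∀ x y, P.adj x y → P.adj y x
  irr : ∀ x, ¬ P.adj x x
  disj : Disjoint P.L P.H
  sub : ∀ b ∈ P.L ∪ P.H, b ⊆ P.C
  lin : ∀ b ∈ P.L ∪ P.H, ∀ b' ∈ P.L ∪ P.H, b ≠ b' → ∀ x y, x ∈ b → x ∈ b' → y ∈ b → y ∈ b' → x = y
  tri : ∀ b1 ∈ P.L ∪ P.H, ∀ b2 ∈ P.L ∪ P.H, ∀ b3 ∈ P.L ∪ P.H, b1 ≠ b2 → b2 ≠ b3 → b3 ≠ b1 →
      ∀ x y z, x ∈ b1 → x ∈ b2 → y ∈ b2 → y ∈ b3 → z ∈ b3 → z ∈ b1 → x = y
  deg : ∀ x ∈ P.C, ∑ b ∈ P.L.filter (fun b => x ∈ b), ((b.card : ℝ) - 1) ≤ P.Del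
  n2 : 2 ≤ P.n
  C0 : 0 < P.C.card
  G1 : 1 ≤ P.Gam
  D0 : 0 ≤ P.Del
  s00 : 0 ≤ P.s0
  hD : P.Del * P.wm ≤ 1 / 200
  hs : P.n * P.s0 * P.wm ≤ 1 / 20
  hM : ∀ b ∈ P.L, P.s0 < (b.card : ℝ) → 80 * (P.n : ℝ) * b.card ≤ P.C.card
  hn : P.n * P.wm ≤ 1 / 10
  h8 : 8 * P.Del ≤ 80 * P.n

variable (s : St α) (t : ℕ)

/-- the block would be completed by placing `t` in it -/
def c (b : Finset α) : Prop := ¬ P.cmp b (s.T t b) ∧ P.cmp b (insert t (s.T t b))

/-- points killed by the placement of `t` at `Q` -/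
noncomputable def K (Q : α) : Finset α :=
  s.A.filter (fun x => x ≠ Q ∧ ∃ b ∈ P.L, P.c s t b ∧ Q ∈ b ∧ x ∈ b)

/-- the compensated weights -/
noncomputable def W1 : α → ℝ := w1 s.A s.w (P.K s t)

/-- updated accumulated hazard -/
noncomputable def S1 (x : α) : ℝ := s.S x + beta s.A s.w (P.K s t) x

/-- updated discount -/
noncomputable def rho1 (b : Finset α) : ℝ :=
  if P.c s t b then s.rho b * (1 - ∑ x ∈ b ∩ s.A, qq s.A s.w x) else s.rho b

/-- removed because of heavy blocks -/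
noncomputable def RH (Q : α) : Finset α :=
  ((s.A \ P.K s t Q).erase Q).filter (fun x => ∃ b ∈ P.H, P.c s t b ∧ Q ∈ b ∧ x ∈ b)

/-- removed because of the cap -/
noncomputable def RC (Q : α) : Finset α :=
  (s.A \ P.K s t Q).filter (fun x => P.Gam < P.S1 s t x)

/-- the monitored block becomes too heavy -/
def ovr (Q : α) (b : Finset α) : Prop :=
  4 * (b.card : ℝ) / P.C.card < ∑ y ∈ (b ∩ s.A) \ P.K s t Q, P.W1 s t y

/-- removed because of monitored blocks which are too heavy -/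
noncomputable def RO (Q : α) : Finset α :=
  ((s.A \ P.K s t Q).erase Q).filter (fun x => ∃ b ∈ P.Mon, x ∈ b ∧ P.ovr s t Q b)

/-- one step of the process -/
noncomputable def step (Q : α) : St α where
  A := (s.A \ P.K s t Q) \ (insert Q (P.RH s t Q ∪ P.RC s t Q ∪ P.RO s t Q))
  w := P.W1 s t
  S := P.S1 s t
  rho := P.rho1 s t
  f := Function.update s.f t Q
  D := s.D - (∑ x ∈ s.A \ P.K s t Q, P.W1 s t x - Wt s.A s.w)
  lH := s.lH + ∑ x ∈ P.RH s t Q, P.W1 s t x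
  lC := s.lC + ∑ x ∈ P.RC s t Q, P.W1 s t x
  lO := s.lO + ∑ x ∈ P.RO s t Q, P.W1 s t x
  lQ := s.lQ + P.W1 s t Q

/-- the invariants -/
structure Inv : Prop where
  AC : s.A ⊆ P.C
  wpos : ∀ x ∈ s.A, 0 < s.w x
  wle : ∀ x ∈ s.A, s.w x ≤ Real.exp (2 * s.S x) / P.C.card
  S0 : ∀ x ∈ s.A, 0 ≤ s.S x
  SG : ∀ x ∈ s.A, s.S x ≤ P.Gam
  mon : ∀ b ∈ P.Mon, ∑ x ∈ b ∩ s.A, s.w x ≤ 4 * (b.card : ℝ) / P.C.card
  rho1 : ∀ b, s.rho b ≤ 1
  rho0 : ∀ b ∈ P.L, 1 - (t : ℝ) / (10 * P.n) ≤ s.rho b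
  dead : ∀ b ∈ P.L ∪ P.H, P.cmp b (s.T t b) → b ∩ s.A = ∅
  fC : ∀ i < t, s.f i ∈ P.C ∧ s.f i ∉ s.A
  finj : ∀ i < t, ∀ j < t, s.f i = s.f j → i = j
  good : ∀ b ∈ P.L ∪ P.H, ∀ i < t, P.cmp b (s.T i b) → s.f i ∉ b
  lQ : s.lQ ≤ (102 / 100) * t * P.wm
  tot : 1 ≤ Wt s.A s.w + s.lH + s.lC + s.lO + s.lQ + s.D
  lH0 : 0 ≤ s.lH
  lC0 : 0 ≤ s.lC
  lO0 : 0 ≤ s.lO

/-- the potential of a monitored block -/
noncomputable def V (b : Finset α) : ℝ :=
  (max (s.rho b * ∑ x ∈ b ∩ s.A, s.w x - (b.card : ℝ) / P.C.card) 0) ^ 2 +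
    3 * P.wm * ∑ x ∈ b ∩ s.A, s.w x * (2 * P.Gam - s.S x)

/-- the potential of the heavy blocks -/
noncomputable def Hpot : ℝ :=
  ∑ b ∈ P.H, Bp (P.cmp b) P.n t (s.T t b) (b ∩ s.A) s.w

/-- the potential of the light blocks -/
noncomputable def Lpot : ℝ :=
  ∑ x ∈ s.A, s.w x * s.S x +
    ∑ b ∈ P.L, s.rho b ^ 6 * Bp (P.cmp b) P.n t (s.T t b) (b ∩ s.A) s.w

/-- the potential of the monitored blocks -/
noncomputable def Opot : ℝ := ∑ b ∈ P.Mon, ((P.C.card : ℝ) / b.card) * P.V s b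

/-- the total potential -/
noncomputable def Phi : ℝ :=
  64 * s.D ^ 2 + 8 * (s.lH + P.Hpot s t) + 8 * (s.lC + P.Lpot s t / P.Gam) +
    8 * (s.lO + P.Opot s)

variable {P s t}

lemma wm_pos (hP : P.Hyp) : 0 < P.wm :=
  div_pos (Real.exp_pos _) (by exact_mod_cast hP.C0)

lemma Cpos (hP : P.Hyp) : (0 : ℝ) < P.C.card := by exact_mod_cast hP.C0

lemma npos (hP : P.Hyp) : (0 : ℝ) < P.n := by
  have := hP.n2
  exact_mod_cast (by omega : 0 < P.n)

lemma Inv.w_le (hP : P.Hyp) (hI : P.Inv s t) {x : α} (hx : x ∈ s.A) : s.w x ≤ P.wm := by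
  refine (hI.wle x hx).trans ?_
  unfold wm
  have := hI.SG x hx
  exact div_le_div_of_nonneg_right (Real.exp_le_exp.2 (by linarith)) (Cpos hP).le

lemma K_sub (Q : α) : P.K s t Q ⊆ s.A := Finset.filter_subset _ _

lemma notMem_K (Q : α) : Q ∉ P.K s t Q := by
  intro h
  exact (Finset.mem_filter.1 h).2.1 rfl

lemma mem_K {Q x : α} : x ∈ P.K s t Q ↔
    x ∈ s.A ∧ x ≠ Q ∧ ∃ b ∈ P.L, P.c s t b ∧ Q ∈ b ∧ x ∈ b := by
  unfold K
  rw [Finset.mem_filter]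

lemma K_symm {Q x : α} (hQ : Q ∈ s.A) (h : x ∈ P.K s t Q) : Q ∈ P.K s t x := by
  rw [mem_K] at h ⊢
  obtain ⟨_, h2, b, hb, hc, h3, h4⟩ := h
  exact ⟨hQ, h2.symm, b, hb, hc, h4, h3⟩

lemma K_card (hP : P.Hyp) {x : α} (hx : x ∈ P.C) :
    ((P.K s t x).card : ℝ) ≤ P.Del := by
  have h1 : P.K s t x ⊆ (P.L.filter (fun b => x ∈ b)).biUnion (fun b => b.erase x) := by
    intro y hy
    rw [mem_K] at hy
    obtain ⟨_, h2, b, hb, hc, h3, h4⟩ := hy
    rw [Finset.mem_biUnion]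
    exact ⟨b, Finset.mem_filter.2 ⟨hb, h3⟩, Finset.mem_erase.2 ⟨h2, h4⟩⟩
  have h2 : (P.K s t x).card ≤ ∑ b ∈ P.L.filter (fun b => x ∈ b), (b.erase x).card :=
    (Finset.card_le_card h1).trans Finset.card_biUnion_le
  have h3 : ((∑ b ∈ P.L.filter (fun b => x ∈ b), (b.erase x).card : ℕ) : ℝ) =
      ∑ b ∈ P.L.filter (fun b => x ∈ b), ((b.card : ℝ) - 1) := by
    push_cast
    refine Finset.sum_congr rfl fun b hb => ?_
    have hxb := (Finset.mem_filter.1 hb).2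
    rw [Finset.card_erase_of_mem hxb]
    have : 1 ≤ b.card := Finset.card_pos.2 ⟨x, hxb⟩
    push_cast [Nat.cast_sub this]
    ring
  calc ((P.K s t x).card : ℝ) ≤ ((∑ b ∈ P.L.filter (fun b => x ∈ b), (b.erase x).card : ℕ) : ℝ) := by
        exact_mod_cast h2
    _ ≤ P.Del := by rw [h3]; exact hP.deg x hx

lemma key1 (hP : P.Hyp) {b : Finset α} (hb : b ∈ P.L ∪ P.H) {Q : α} (hQ : Q ∉ b) :
    (b ∩ P.K s t Q).card ≤ 1 := by
  rw [Finset.card_le_one]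
  intro x hx y hy
  rw [Finset.mem_inter, mem_K] at hx hy
  obtain ⟨hxb, _, hxQ, b1, hb1, _, hQ1, hx1⟩ := hx
  obtain ⟨hyb, _, hyQ, b2, hb2, _, hQ2, hy2⟩ := hy
  have hb1' : b1 ∈ P.L ∪ P.H := Finset.mem_union_left _ hb1
  have hb2' : b2 ∈ P.L ∪ P.H := Finset.mem_union_left _ hb2
  have hne1 : b1 ≠ b := by rintro rfl; exact hQ hQ1
  have hne2 : b2 ≠ b := by rintro rfl; exact hQ hQ2
  by_cases h12 : b1 = b2
  · subst h12
    exact hP.lin b1 hb1' b hb hne1 x y hx1 hxb hy2 hyb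
  · exfalso
    apply hyQ
    exact (hP.tri b1 hb1' b2 hb2' b hb h12 hne2 hne1.symm Q y x hQ1 hQ2 hy2 hyb hxb hx1).symm

lemma key2 (hP : P.Hyp) {b : Finset α} (hb : b ∈ P.L ∪ P.H) {Q : α} (hQ : Q ∈ b)
    (h : ¬ P.c s t b ∨ b ∈ P.H) : b ∩ P.K s t Q = ∅ := by
  rw [Finset.eq_empty_iff_forall_notMem]
  intro x hx
  rw [Finset.mem_inter, mem_K] at hx
  obtain ⟨hxb, _, hxQ, b1, hb1, hc1, hQ1, hx1⟩ := hx
  have hne : b1 ≠ b := by
    rintro rfl
    rcases h with h | h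
    · exact h hc1
    · exact (Finset.disjoint_left.1 hP.disj hb1) h
  exact hxQ (hP.lin b1 (Finset.mem_union_left _ hb1) b hb hne x Q hx1 hxb hQ1 hQ)

lemma key3 {b : Finset α} (hb : b ∈ P.L) (hc : P.c s t b) {Q : α} (hQ : Q ∈ b) {x : α}
    (hx : x ∈ b ∩ s.A) (hxQ : x ≠ Q) : x ∈ P.K s t Q := by
  rw [mem_K]
  exact ⟨(Finset.mem_inter.1 hx).2, hxQ, b, hb, hc, hQ, (Finset.mem_inter.1 hx).1⟩

lemma Inv.W_ge (hP : P.Hyp) (hI : P.Inv s t) (ht : t ≤ P.n) (hPhi : P.Phi s t < 1)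
    (hH : 0 ≤ P.Hpot s t) (hL : 0 ≤ P.Lpot s t) (hO : 0 ≤ P.Opot s) :
    1 / 2 ≤ Wt s.A s.w := by
  have hG : 0 < P.Gam := by linarith [hP.G1]
  have hLG : 0 ≤ P.Lpot s t / P.Gam := div_nonneg hL hG.le
  unfold Phi at hPhi
  have h1 := hI.lH0
  have h2 := hI.lC0
  have h3 := hI.lO0
  have hD2 : 64 * s.D ^ 2 < 1 := by nlinarith [sq_nonneg s.D]
  have hD : s.D < 1 / 8 := by
    by_contra hc
    push Not at hc
    nlinarith
  have hl : s.lH + s.lC + s.lO < 1 / 8 := by nlinarith [sq_nonneg s.D]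
  have hQ : s.lQ ≤ 102 / 1000 := by
    refine hI.lQ.trans ?_
    have hw := (wm_pos hP).le
    have : (t : ℝ) ≤ P.n := by exact_mod_cast ht
    calc (102 / 100 : ℝ) * t * P.wm ≤ (102 / 100) * P.n * P.wm :=
          mul_le_mul_of_nonneg_right (mul_le_mul_of_nonneg_left this (by norm_num)) hw
      _ = (102 / 100) * (P.n * P.wm) := by ring
      _ ≤ (102 / 100) * (1 / 10) := mul_le_mul_of_nonneg_left hP.hn (by norm_num)
      _ = 102 / 1000 := by norm_num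
  linarith [hI.tot]

lemma Bp_nn (hI : P.Inv s t) (b : Finset α) :
    0 ≤ Bp (P.cmp b) P.n t (s.T t b) (b ∩ s.A) s.w :=
  Bp_nonneg _ _ _ _ _ _ fun x hx => (hI.wpos x (Finset.mem_inter.1 hx).2).le

lemma Inv.Hpot_nonneg (hI : P.Inv s t) : 0 ≤ P.Hpot s t :=
  Finset.sum_nonneg fun b _ => Bp_nn hI b

lemma Inv.Lpot_nonneg (hI : P.Inv s t) : 0 ≤ P.Lpot s t := by
  refine add_nonneg (Finset.sum_nonneg fun x hx => mul_nonneg (hI.wpos x hx).le (hI.S0 x hx))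
    (Finset.sum_nonneg fun b _ => mul_nonneg ?_ (Bp_nn hI b))
  exact Even.pow_nonneg (by decide) _

lemma Inv.V_nonneg (hP : P.Hyp) (hI : P.Inv s t) (b : Finset α) : 0 ≤ P.V s b := by
  unfold V
  refine add_nonneg (sq_nonneg _) (mul_nonneg (mul_nonneg (by norm_num) (wm_pos hP).le) ?_)
  refine Finset.sum_nonneg fun x hx => ?_
  have hx' := (Finset.mem_inter.1 hx).2
  refine mul_nonneg (hI.wpos x hx').le ?_
  linarith [hI.SG x hx', hP.G1]

lemma Inv.Opot_nonneg (hP : P.Hyp) (hI : P.Inv s t) : 0 ≤ P.Opot s :=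
  Finset.sum_nonneg fun b _ => mul_nonneg (div_nonneg (Nat.cast_nonneg _) (Nat.cast_nonneg _))
    (hI.V_nonneg hP b)

lemma Inv.beta_le (hP : P.Hyp) (hI : P.Inv s t) (hW : 1 / 2 ≤ Wt s.A s.w) {x : α} (hx : x ∈ s.A) :
    beta s.A s.w (P.K s t) x ≤ 2 * P.Del * P.wm := by
  unfold beta
  have hWp : 0 < Wt s.A s.w := by linarith
  have hwm := wm_pos hP
  have h1 : s.A.filter (fun Q => x ∈ P.K s t Q) ⊆ P.K s t x := by
    intro Q hQ
    rw [Finset.mem_filter] at hQ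
    exact K_symm hQ.1 hQ.2
  have h2 : ∀ Q ∈ s.A, qq s.A s.w Q ≤ 2 * P.wm := by
    intro Q hQ
    unfold qq
    rw [div_le_iff₀ hWp]
    have := hI.w_le hP hQ
    nlinarith
  calc ∑ Q ∈ s.A.filter (fun Q => x ∈ P.K s t Q), qq s.A s.w Q
      ≤ ∑ Q ∈ s.A.filter (fun Q => x ∈ P.K s t Q), 2 * P.wm :=
        Finset.sum_le_sum fun Q hQ => h2 Q (Finset.mem_filter.1 hQ).1
    _ = ((s.A.filter (fun Q => x ∈ P.K s t Q)).card : ℝ) * (2 * P.wm) := by
        rw [Finset.sum_const, nsmul_eq_mul]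
    _ ≤ P.Del * (2 * P.wm) := by
        refine mul_le_mul_of_nonneg_right ?_ (by linarith)
        refine le_trans ?_ (K_card (s := s) (t := t) hP (hI.AC hx))
        exact_mod_cast Finset.card_le_card h1
    _ = 2 * P.Del * P.wm := by ring

lemma Inv.SH (hP : P.Hyp) (hI : P.Inv s t) (hW : 1 / 2 ≤ Wt s.A s.w) :
    SH s.A s.w (P.K s t) where
  wpos := hI.wpos
  W_ge := hW
  beta_le := fun x hx => by
    have h1 := hI.beta_le hP hW hx
    have h2 := hP.hD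
    linarith

/-- the selection probability of a light block is at most `1/(10 n)` -/
lemma Inv.q_light (hP : P.Hyp) (hI : P.Inv s t) (hW : 1 / 2 ≤ Wt s.A s.w) {b : Finset α}
    (hb : b ∈ P.L) : ∑ x ∈ b ∩ s.A, qq s.A s.w x ≤ 1 / (10 * P.n) := by
  have hWp : 0 < Wt s.A s.w := by linarith
  have hn := npos hP
  have hC := Cpos hP
  have hwm := wm_pos hP
  have h1 : ∑ x ∈ b ∩ s.A, qq s.A s.w x = (∑ x ∈ b ∩ s.A, s.w x) / Wt s.A s.w := by
    unfold qq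
    rw [Finset.sum_div]
  have h0 : 0 ≤ ∑ x ∈ b ∩ s.A, s.w x :=
    Finset.sum_nonneg fun x hx => (hI.wpos x (Finset.mem_inter.1 hx).2).le
  have h2 : ∑ x ∈ b ∩ s.A, s.w x ≤ 1 / (20 * P.n) := by
    by_cases hs : P.s0 < (b.card : ℝ)
    · have h3 := hI.mon b (Finset.mem_filter.2 ⟨hb, hs⟩)
      have h4 := hP.hM b hb hs
      refine h3.trans ?_
      rw [div_le_div_iff₀ hC (by positivity)]
      nlinarith
    · push Not at hs
      calc ∑ x ∈ b ∩ s.A, s.w x ≤ ∑ x ∈ b ∩ s.A, P.wm :=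
            Finset.sum_le_sum fun x hx => hI.w_le hP (Finset.mem_inter.1 hx).2
        _ = ((b ∩ s.A).card : ℝ) * P.wm := by rw [Finset.sum_const, nsmul_eq_mul]
        _ ≤ P.s0 * P.wm := by
            refine mul_le_mul_of_nonneg_right ?_ hwm.le
            refine le_trans ?_ hs
            exact_mod_cast Finset.card_le_card Finset.inter_subset_left
        _ ≤ 1 / (20 * P.n) := by
            rw [le_div_iff₀ (by positivity)]
            have := hP.hs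
            nlinarith
  rw [h1, div_le_iff₀ hWp]
  calc ∑ x ∈ b ∩ s.A, s.w x ≤ 1 / (20 * P.n) := h2
    _ = 1 / (10 * P.n) * (1 / 2) := by field_simp; norm_num
    _ ≤ 1 / (10 * P.n) * Wt s.A s.w := mul_le_mul_of_nonneg_left hW (by positivity)

lemma mem_Min_of_c {b : Finset α} (hc : P.c s t b) (ht : t < P.n) :
    {t} ∈ Min (P.cmp b) P.n t (s.T t b) := by
  rw [mem_Min]
  refine ⟨?_, ?_, ?_⟩
  · intro x hx
    rw [Finset.mem_singleton] at hx
    subst hx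
    exact Finset.mem_Ico.2 ⟨le_rfl, ht⟩
  · have : s.T t b ∪ {t} = insert t (s.T t b) := by
      ext x; simp only [Finset.mem_union, Finset.mem_singleton, Finset.mem_insert]; tauto
    rw [this]; exact hc.2
  · intro Z' hZ' hcm
    have : Z' = ∅ := by
      rw [Finset.ssubset_singleton_iff] at hZ'
      exact hZ'
    rw [this, Finset.union_empty] at hcm
    exact hc.1 hcm

omit [DecidableEq α] in
lemma Min_sub {b : Finset α} {T Z U : Finset ℕ} {m : ℕ} (hZ : Z ∈ Min (P.cmp b) m t T)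
    (hU : U ⊆ T ∪ Z) (hc : P.cmp b U) : Z ⊆ U := by
  rw [mem_Min] at hZ
  obtain ⟨_, _, h3⟩ := hZ
  have h4 : P.cmp b (T ∪ (Z ∩ U)) := by
    refine P.cmp_mono b U _ ?_ hc
    intro x hx
    rcases Finset.mem_union.1 (hU hx) with h | h
    · exact Finset.mem_union_left _ h
    · exact Finset.mem_union_right _ (Finset.mem_inter.2 ⟨h, hx⟩)
  have h5 : ¬ (Z ∩ U ⊂ Z) := fun h => h3 _ h h4
  have h6 : Z ∩ U = Z := by
    by_contra hne
    exact h5 (Finset.ssubset_iff_subset_ne.2 ⟨Finset.inter_subset_left, hne⟩)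
  exact Finset.inter_eq_left.1 h6

/-- a witness of size at most `3` (`2` if the block is not light) -/
lemma cmp_small (hP : P.Hyp) {b : Finset α} {T : Finset ℕ} (h : P.cmp b T) :
    ∃ x y, x < y ∧ P.adj x y ∧ x ∈ T ∧ y ∈ T ∧
      ((b ∉ P.L ∧ P.cmp b {x, y}) ∨ (b ∈ P.L ∧ ∃ z ∈ T, z ≠ x ∧ z ≠ y ∧ P.cmp b {x, y, z})) := by
  obtain ⟨h1, x, hx, y, hy, hxy⟩ := h
  have hne : x ≠ y := by rintro rfl; exact hP.irr x hxy
  wlog hlt : x < y generalizing x y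
  · exact this y hy x hx (hP.symm _ _ hxy) hne.symm (lt_of_le_of_ne (not_lt.1 hlt) hne.symm)
  refine ⟨x, y, hlt, hxy, hx, hy, ?_⟩
  by_cases hb : b ∈ P.L
  · right
    refine ⟨hb, ?_⟩
    have h3 := h1 hb
    have h4 : ((T.erase x).erase y).Nonempty := by
      rw [← Finset.card_pos]
      rw [Finset.card_erase_of_mem (Finset.mem_erase.2 ⟨hne.symm, hy⟩),
        Finset.card_erase_of_mem hx]
      omega
    obtain ⟨z, hz⟩ := h4
    rw [Finset.mem_erase, Finset.mem_erase] at hz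
    refine ⟨z, hz.2.2, hz.2.1, hz.1, fun _ => ?_, x, by simp, y, by simp, hxy⟩
    rw [Finset.card_insert_of_notMem, Finset.card_insert_of_notMem, Finset.card_singleton]
    · simp only [Finset.mem_singleton]; exact fun h => hz.1 h.symm
    · simp only [Finset.mem_insert, Finset.mem_singleton, not_or]
      exact ⟨hne, fun h => hz.2.1 h.symm⟩
  · left
    exact ⟨hb, fun h => absurd h hb, x, by simp, y, by simp, hxy⟩

lemma Min_card_le (hP : P.Hyp) {b : Finset α} {T Z : Finset ℕ} {m : ℕ}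
    (hZ : Z ∈ Min (P.cmp b) m t T) : Z.card ≤ 3 := by
  have h := (mem_Min _ _ _ _ _).1 hZ
  obtain ⟨x, y, hlt, hxy, hx, hy, hh⟩ := cmp_small hP h.2.1
  rcases hh with ⟨hb, hc⟩ | ⟨hb, z, hz, hzx, hzy, hc⟩
  · have h2 := Min_sub hZ (U := {x, y}) (by
      intro u hu
      rcases Finset.mem_insert.1 hu with rfl | hu
      · exact hx
      · rw [Finset.mem_singleton] at hu; subst hu; exact hy) hc
    calc Z.card ≤ ({x, y} : Finset ℕ).card := Finset.card_le_card h2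
      _ ≤ 2 := Finset.card_le_two
      _ ≤ 3 := by norm_num
  · have h2 := Min_sub hZ (U := {x, y, z}) (by
      intro u hu
      rcases Finset.mem_insert.1 hu with rfl | hu
      · exact hx
      · rcases Finset.mem_insert.1 hu with rfl | hu
        · exact hy
        · rw [Finset.mem_singleton] at hu; subst hu; exact hz) hc
    exact (Finset.card_le_card h2).trans Finset.card_le_three

end PD

end Pool.Agent.Grid3D.P
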