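import Pool.Agent.Grid3D.ProcessDefs

/-!
# Regime 1: the concrete parameters
-/

set_option autoImplicit false

open Classical Finset

noncomputable section

namespace Pool.Agent.Grid3D

/-- number of edges among the vertices `< n` -/
def edgeCount (G : SimpleGraph ℕ) (n : ℕ) : ℕ :=
  ((range n ×ˢ range n).filter (fun q => q.1 < q.2 ∧ G.Adj q.1 q.2)).card

/-- The process of regime 1 in the box of side `N`:
`M = N^β`, `β = 1/100`; `A = κ₁ log N`, `κ₁ = 10^{-5}`; `κ₀ = 1/100`. -/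
def par (N : ℕ) (hN : 0 < N) (G : SimpleGraph ℕ) : Params where
  N := N
  G := G
  M := ⌊(N : ℝ) ^ (1 / 100 : ℝ)⌋₊
  A := (1 / 10 ^ 5) * Real.log N
  κ := 1 / 100
  hN := hN
  hA := mul_nonneg (by norm_num) (Real.log_natCast_nonneg N)

/-- The relation between `n` and `N` in regime 1: `n ≤ N^{1+η}`, `η = 10^{-5}`. -/
def NBound (N n : ℕ) : Prop := (n : ℝ) ≤ (N : ℝ) ^ (1 + 1 / 10 ^ 5 : ℝ)

/-- `|e(a,b)| ≥ D = N^{1-δ}`, `δ = 1/10`. -/
def Spread (N : ℕ) (a b : Pt) : Prop := (N : ℝ) ^ (9 / 10 : ℝ) ≤ (dirN a b : ℝ)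

theorem par_om (N : ℕ) (hN : 0 < N) (G : SimpleGraph ℕ) :
    (par N hN G).om = (N : ℝ) ^ (2 / 10 ^ 5 : ℝ) := by
  have hN' : (0 : ℝ) < N := by exact_mod_cast hN
  show Real.exp (2 * ((1 / 10 ^ 5) * Real.log N)) = _
  rw [Real.rpow_def_of_pos hN']
  congr 1
  ring

end Pool.Agent.Grid3D
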