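import Pool.Agent.Grid3D.LLL
import Pool.Agent.Grid3D.Geo3

/-!
# Regime 2: the pool lemma
-/

set_option autoImplicit false

open Classical Finset

noncomputable section

namespace Pool.Agent.Grid3D.Pool38

/-- number of pairs coplanar with the pair `z z'` -/
def KK (N : ℕ) (z z' : Pt) : ℝ :=
  (((box N ×ˢ box N).filter (fun p => Cop z z' p.1 p.2)).card : ℝ)

/-- number of points coplanar with the triple -/
def PP (N : ℕ) (z z' z'' : Pt) : ℝ := (((box N).filter (fun w => Cop z z' z'' w)).card : ℝ)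

/-- sum over embeddings of a function of few coordinates -/
def FF {m r : ℕ} (g : (Fin r → Pt) → ℝ) (p : Fin m → Pt) : ℝ :=
  ∑ e : Fin r ↪ Fin m, g (p ∘ e)

theorem sum_FF {N m r : ℕ} (hN : 0 < N) (g : (Fin r → Pt) → ℝ) (G : ℝ)
    (hg : ∀ y, 0 ≤ g y)
    (hG : ∑ y ∈ Fintype.piFinset (fun _ : Fin r => box N), g y ≤ G) :
    ∑ p ∈ Fintype.piFinset (fun _ : Fin m => box N), FF g p ≤
      ((Fintype.piFinset (fun _ : Fin m => box N)).card : ℝ) *
        ((m : ℝ) ^ r * (G / ((N : ℝ) ^ 3) ^ r)) := by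
  have hN' : (0 : ℝ) < N := by exact_mod_cast hN
  have hG0 : 0 ≤ G := (sum_nonneg fun y _ => hg y).trans hG
  have hcard : ((Fintype.piFinset (fun _ : Fin r => box N)).card : ℝ) = ((N : ℝ) ^ 3) ^ r := by
    rw [Fintype.card_piFinset, prod_const, card_univ, Fintype.card_fin, Geo2.card_box]
    push_cast
    ring
  unfold FF
  rw [sum_comm]
  have hone : ∀ e : Fin r ↪ Fin m, ∑ p ∈ Fintype.piFinset (fun _ : Fin m => box N), g (p ∘ e) ≤
      ((Fintype.piFinset (fun _ : Fin m => box N)).card : ℝ) * (G / ((N : ℝ) ^ 3) ^ r) := by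
    intro e
    have h := sum_comp_inj (fun _ : Fin m => box N) e e.injective g
    have h' : (∑ p ∈ Fintype.piFinset (fun _ : Fin m => box N), g (p ∘ e)) * ((N : ℝ) ^ 3) ^ r =
        ((Fintype.piFinset (fun _ : Fin m => box N)).card : ℝ) *
          ∑ y ∈ Fintype.piFinset (fun _ : Fin r => box N), g y := by
      rw [← hcard]; exact h
    rw [mul_div_assoc', le_div_iff₀ (by positivity), h']
    exact mul_le_mul_of_nonneg_left hG (Nat.cast_nonneg _)
  refine (sum_le_card_nsmul _ _ _ fun e _ => hone e).trans ?_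
  rw [card_univ, nsmul_eq_mul]
  have h2 : ((Fintype.card (Fin r ↪ Fin m) : ℕ) : ℝ) ≤ (m : ℝ) ^ r := by
    have h3 : Fintype.card (Fin r ↪ Fin m) ≤ m ^ r := by
      rw [Fintype.card_embedding_eq, Fintype.card_fin, Fintype.card_fin]
      exact Nat.descFactorial_le_pow m r
    exact_mod_cast h3
  calc ((Fintype.card (Fin r ↪ Fin m) : ℕ) : ℝ) *
        (((Fintype.piFinset (fun _ : Fin m => box N)).card : ℝ) * (G / ((N : ℝ) ^ 3) ^ r))
      ≤ (m : ℝ) ^ r *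
        (((Fintype.piFinset (fun _ : Fin m => box N)).card : ℝ) * (G / ((N : ℝ) ^ 3) ^ r)) :=
        mul_le_mul_of_nonneg_right h2 (by positivity)
    _ = _ := by ring

/-- averaging over five functionals -/
theorem exists_good5 {α : Type} (Ω : Finset α) (hΩ : Ω.Nonempty) (F : Fin 5 → α → ℝ) (b : Fin 5 → ℝ)
    (hb : ∀ i, 0 < b i) (hF : ∀ i, ∀ p ∈ Ω, 0 ≤ F i p)
    (hs : ∀ i, ∑ p ∈ Ω, F i p ≤ (Ω.card : ℝ) * b i) :
    ∃ p ∈ Ω, ∀ i, F i p ≤ 5 * b i := by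
  by_contra hcon
  push Not at hcon
  have h1 : ∀ p ∈ Ω, 5 < ∑ i, F i p / b i := by
    intro p hp
    obtain ⟨i, hi⟩ := hcon p hp
    have h2 : 5 < F i p / b i := by
      rw [lt_div_iff₀ (hb i)]; exact hi
    refine h2.trans_le ?_
    exact single_le_sum (f := fun i => F i p / b i) (fun j _ => div_nonneg (hF j p hp) (hb j).le)
      (mem_univ i)
  have h3 : (Ω.card : ℝ) * 5 < ∑ p ∈ Ω, ∑ i, F i p / b i := by
    rw [← nsmul_eq_mul, ← Finset.sum_const]
    exact sum_lt_sum_of_nonempty hΩ h1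
  rw [sum_comm] at h3
  have h4 : ∑ i, ∑ p ∈ Ω, F i p / b i ≤ ∑ _i : Fin 5, (Ω.card : ℝ) := by
    refine sum_le_sum fun i _ => ?_
    rw [← sum_div, div_le_iff₀ (hb i)]
    exact hs i
  rw [sum_const, card_univ, Fintype.card_fin, nsmul_eq_mul] at h4
  push_cast at h4
  linarith

theorem sum_pi_succ {β : Type} (X : Finset β) (r : ℕ) (g : (Fin (r + 1) → β) → ℝ) :
    ∑ y ∈ Fintype.piFinset (fun _ : Fin (r + 1) => X), g y =
      ∑ x ∈ X, ∑ y ∈ Fintype.piFinset (fun _ : Fin r => X), g (Fin.cons x y) := by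
  rw [← Finset.sum_product' X (Fintype.piFinset (fun _ : Fin r => X)) (fun x y => g (Fin.cons x y))]
  refine Finset.sum_nbij' (fun y => (y 0, Fin.tail y)) (fun p => Fin.cons p.1 p.2) ?_ ?_ ?_ ?_ ?_
  · intro y hy
    rw [Fintype.mem_piFinset] at hy
    rw [mem_product, Fintype.mem_piFinset]
    exact ⟨hy 0, fun i => hy i.succ⟩
  · intro p hp
    rw [mem_product, Fintype.mem_piFinset] at hp
    rw [Fintype.mem_piFinset]
    intro i
    refine Fin.cases ?_ (fun j => ?_) i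
    · exact hp.1
    · exact hp.2 j
  · intro y _
    exact Fin.cons_self_tail y
  · intro p _
    simp
  · intro y _
    simp only [Fin.cons_self_tail]

theorem sum_pi_zero {β : Type} (X : Finset β) (g : (Fin 0 → β) → ℝ) :
    ∑ y ∈ Fintype.piFinset (fun _ : Fin 0 => X), g y = g Fin.elim0 := by
  have : Fintype.piFinset (fun _ : Fin 0 => X) = {Fin.elim0} := by
    ext y
    rw [Fintype.mem_piFinset, mem_singleton]
    constructor
    · intro _; funext i; exact i.elim0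
    · intro _ i; exact i.elim0
  rw [this, sum_singleton]

theorem sum_pi_two {β : Type} (X : Finset β) (f : β → β → ℝ) :
    ∑ y ∈ Fintype.piFinset (fun _ : Fin 2 => X), f (y 0) (y 1) = ∑ x ∈ X, ∑ z ∈ X, f x z := by
  rw [sum_pi_succ]
  refine Finset.sum_congr rfl fun x _ => ?_
  rw [sum_pi_succ]
  refine Finset.sum_congr rfl fun z _ => ?_
  rw [sum_pi_zero]
  rfl

theorem sum_pi_three {β : Type} (X : Finset β) (f : β → β → β → ℝ) :
    ∑ y ∈ Fintype.piFinset (fun _ : Fin 3 => X), f (y 0) (y 1) (y 2) =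
      ∑ x ∈ X, ∑ z ∈ X, ∑ w ∈ X, f x z w := by
  rw [sum_pi_succ]
  refine Finset.sum_congr rfl fun x _ => ?_
  rw [sum_pi_succ]
  refine Finset.sum_congr rfl fun z _ => ?_
  rw [sum_pi_succ]
  refine Finset.sum_congr rfl fun w _ => ?_
  rw [sum_pi_zero]
  rfl

theorem sum_pi_four {β : Type} (X : Finset β) (f : β → β → β → β → ℝ) :
    ∑ y ∈ Fintype.piFinset (fun _ : Fin 4 => X), f (y 0) (y 1) (y 2) (y 3) =
      ∑ x ∈ X, ∑ z ∈ X, ∑ w ∈ X, ∑ t ∈ X, f x z w t := by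
  rw [sum_pi_succ]
  refine Finset.sum_congr rfl fun x _ => ?_
  rw [sum_pi_succ]
  refine Finset.sum_congr rfl fun z _ => ?_
  rw [sum_pi_succ]
  refine Finset.sum_congr rfl fun w _ => ?_
  rw [sum_pi_succ]
  refine Finset.sum_congr rfl fun t _ => ?_
  rw [sum_pi_zero]
  rfl

/-- the sums of the functionals of two variables over a sub-embedding -/
theorem sum_sub {m a r : ℕ} (g : (Fin r → Pt) → ℝ) (hg : ∀ y, 0 ≤ g y) (p : Fin m → Pt)
    (ι : Fin a ↪ Fin m) : ∑ e : Fin r ↪ Fin a, g (fun i => p (ι (e i))) ≤ FF g p := by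
  unfold FF
  have hinj : Function.Injective (fun e : Fin r ↪ Fin a => e.trans ι) := by
    intro e e' h
    ext i
    have := DFunLike.congr_fun h i
    simp only [Function.Embedding.trans_apply] at this
    exact congrArg Fin.val (ι.injective this)
  calc ∑ e : Fin r ↪ Fin a, g (fun i => p (ι (e i)))
      = ∑ e ∈ (univ : Finset (Fin r ↪ Fin a)).map ⟨_, hinj⟩, g (p ∘ e) := by
        rw [sum_map]; rfl
    _ ≤ _ := sum_le_sum_of_subset_of_nonneg (subset_univ _) fun e _ _ => hg _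

theorem bad_card {m r : ℕ} (Q : (Fin r → Pt) → Prop) (p : Fin m → Pt) (j : Fin r) :
    ((((univ : Finset (Fin r ↪ Fin m)).filter (fun e : Fin r ↪ Fin m => Q (p ∘ e))).image
      (fun e : Fin r ↪ Fin m => e j)).card : ℝ) ≤
      FF (fun y => if Q y then (1 : ℝ) else 0) p := by
  unfold FF
  rw [sum_boole]
  exact_mod_cast card_image_le

theorem pool {N a : ℕ} (hN : 0 < N) (ha : 0 < a) {C0 C1 L : ℝ} (hC0 : 1 ≤ C0) (hC1 : 0 < C1)
    (hL : 1 ≤ L)
    (hT3 : ∀ x ∈ box N, (((box N ×ˢ box N ×ˢ box N).filter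
      (fun p => Cop x p.1 p.2.1 p.2.2)).card : ℝ) ≤ C0 * (N : ℝ) ^ 6 * L)
    (hT2 : ∀ x ∈ box N, (((box N ×ˢ box N).filter (fun p => Col x p.1 p.2)).card : ℝ) ≤
      C1 * (N : ℝ) ^ 3)
    (hcond : 140 * (C0 + C1) * L * (a : ℝ) ^ 3 ≤ (N : ℝ) ^ 3) :
    ∃ h : Fin a → Pt, (∀ i, h i ∈ box N) ∧ Function.Injective h ∧
      (∀ e : Fin 3 ↪ Fin a, ¬ Col (h (e 0)) (h (e 1)) (h (e 2))) ∧
      (∀ e : Fin 4 ↪ Fin a, ¬ Cop (h (e 0)) (h (e 1)) (h (e 2)) (h (e 3))) ∧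
      (∑ e : Fin 2 ↪ Fin a, KK N (h (e 0)) (h (e 1)) ≤ 20 * C0 * (a : ℝ) ^ 2 * (N : ℝ) ^ 3 * L) ∧
      (∑ e : Fin 3 ↪ Fin a, PP N (h (e 0)) (h (e 1)) (h (e 2)) ≤ 40 * C0 * (a : ℝ) ^ 3 * L) := by
  have hN' : (0 : ℝ) < N := by exact_mod_cast hN
  have ha' : (0 : ℝ) < a := by exact_mod_cast ha
  have ha1 : (1 : ℝ) ≤ a := by exact_mod_cast ha
  set X := box N with hX
  have hXc : (X.card : ℝ) = (N : ℝ) ^ 3 := by rw [hX, Geo2.card_box]; push_cast; rfl
  set Ω := Fintype.piFinset (fun _ : Fin (2 * a) => X) with hΩ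
  have hXne : X.Nonempty := by
    rw [← card_pos]
    have : (0 : ℝ) < X.card := by rw [hXc]; positivity
    exact_mod_cast this
  have hΩne : Ω.Nonempty := by
    rw [hΩ, Fintype.piFinset_nonempty]
    exact fun _ => hXne
  have hm : (((2 * a : ℕ)) : ℝ) = 2 * a := by push_cast; rfl
  -- the functions
  set q2 : (Fin 2 → Pt) → Prop := fun y => y 0 = y 1 with hq2
  set q3 : (Fin 3 → Pt) → Prop := fun y => Col (y 0) (y 1) (y 2) with hq3
  set q4 : (Fin 4 → Pt) → Prop := fun y => Cop (y 0) (y 1) (y 2) (y 3) with hq4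
  set g2 : (Fin 2 → Pt) → ℝ := fun y => if q2 y then 1 else 0 with hg2
  set g3 : (Fin 3 → Pt) → ℝ := fun y => if q3 y then 1 else 0 with hg3
  set g4 : (Fin 4 → Pt) → ℝ := fun y => if q4 y then 1 else 0 with hg4
  set gK : (Fin 2 → Pt) → ℝ := fun y => KK N (y 0) (y 1) with hgK
  set gP : (Fin 3 → Pt) → ℝ := fun y => PP N (y 0) (y 1) (y 2) with hgP
  have n2 : ∀ y, 0 ≤ g2 y := fun y => by simp only [hg2]; split_ifs <;> norm_num
  have n3 : ∀ y, 0 ≤ g3 y := fun y => by simp only [hg3]; split_ifs <;> norm_num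
  have n4 : ∀ y, 0 ≤ g4 y := fun y => by simp only [hg4]; split_ifs <;> norm_num
  have nK : ∀ y, 0 ≤ gK y := fun y => Nat.cast_nonneg _
  have nP : ∀ y, 0 ≤ gP y := fun y => Nat.cast_nonneg _
  -- their sums
  have s2 : ∑ y ∈ Fintype.piFinset (fun _ : Fin 2 => X), g2 y ≤ (N : ℝ) ^ 3 := by
    rw [← hXc]
    refine (sum_pi_two X (fun x z => if x = z then (1 : ℝ) else 0)).le.trans ?_
    refine (sum_le_card_nsmul _ _ 1 fun x hx => ?_).trans (by simp)
    rw [sum_ite_eq]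
    split_ifs <;> norm_num
  have s3 : ∑ y ∈ Fintype.piFinset (fun _ : Fin 3 => X), g3 y ≤ (N : ℝ) ^ 3 * (C1 * (N : ℝ) ^ 3) := by
    refine (sum_pi_three X (fun x z w => if Col x z w then (1 : ℝ) else 0)).le.trans ?_
    rw [← hXc, ← nsmul_eq_mul, hXc]
    refine sum_le_card_nsmul _ _ _ fun x hx => ?_
    refine le_trans (le_of_eq ?_) (hT2 x hx)
    rw [← sum_product' X X (fun z w => if Col x z w then (1 : ℝ) else 0), sum_boole]
  have t4 : ∀ x ∈ X, ∑ z ∈ X, ∑ w ∈ X, ∑ t ∈ X, (if Cop x z w t then (1 : ℝ) else 0) ≤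
      C0 * (N : ℝ) ^ 6 * L := by
    intro x hx
    refine le_trans (le_of_eq ?_) (hT3 x hx)
    rw [← sum_boole, sum_product]
    refine Finset.sum_congr rfl fun z _ => ?_
    rw [sum_product]
  have s4 : ∑ y ∈ Fintype.piFinset (fun _ : Fin 4 => X), g4 y ≤
      (N : ℝ) ^ 3 * (C0 * (N : ℝ) ^ 6 * L) := by
    refine (sum_pi_four X (fun x z w t => if Cop x z w t then (1 : ℝ) else 0)).le.trans ?_
    rw [← hXc, ← nsmul_eq_mul]
    exact sum_le_card_nsmul _ _ _ t4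
  have sK : ∑ y ∈ Fintype.piFinset (fun _ : Fin 2 => X), gK y ≤
      (N : ℝ) ^ 3 * (C0 * (N : ℝ) ^ 6 * L) := by
    refine (sum_pi_two X (fun x z => KK N x z)).le.trans ?_
    rw [← hXc, ← nsmul_eq_mul]
    refine sum_le_card_nsmul _ _ _ fun x hx => le_trans (le_of_eq ?_) (t4 x hx)
    refine Finset.sum_congr rfl fun z _ => ?_
    rw [← sum_product' X X (fun w t => if Cop x z w t then (1 : ℝ) else 0), sum_boole]
    rfl
  have sP : ∑ y ∈ Fintype.piFinset (fun _ : Fin 3 => X), gP y ≤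
      (N : ℝ) ^ 3 * (C0 * (N : ℝ) ^ 6 * L) := by
    refine (sum_pi_three X (fun x z w => PP N x z w)).le.trans ?_
    rw [← hXc, ← nsmul_eq_mul]
    refine sum_le_card_nsmul _ _ _ fun x hx => le_trans (le_of_eq ?_) (t4 x hx)
    refine Finset.sum_congr rfl fun z _ => Finset.sum_congr rfl fun w _ => ?_
    rw [sum_boole]
    rfl
  -- averaging
  set b : Fin 5 → ℝ := ![4 * a ^ 2 / (N : ℝ) ^ 3, 8 * a ^ 3 * C1 / (N : ℝ) ^ 3,
    16 * a ^ 4 * C0 * L / (N : ℝ) ^ 3, 4 * a ^ 2 * C0 * (N : ℝ) ^ 3 * L, 8 * a ^ 3 * C0 * L] with hb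
  set F : Fin 5 → (Fin (2 * a) → Pt) → ℝ := ![FF g2, FF g3, FF g4, FF gK, FF gP] with hF
  have hFF0 : ∀ {r : ℕ} (g : (Fin r → Pt) → ℝ), (∀ y, 0 ≤ g y) → ∀ p : Fin (2 * a) → Pt,
      0 ≤ FF g p := fun g hg p => sum_nonneg fun e _ => hg _
  obtain ⟨p, hp, hgood⟩ := exists_good5 Ω hΩne F b
    (by
      intro i
      fin_cases i
      · show 0 < 4 * (a : ℝ) ^ 2 / (N : ℝ) ^ 3; positivity
      · show 0 < 8 * (a : ℝ) ^ 3 * C1 / (N : ℝ) ^ 3; positivity
      · show 0 < 16 * (a : ℝ) ^ 4 * C0 * L / (N : ℝ) ^ 3; positivity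
      · show 0 < 4 * (a : ℝ) ^ 2 * C0 * (N : ℝ) ^ 3 * L; positivity
      · show 0 < 8 * (a : ℝ) ^ 3 * C0 * L; positivity)
    (by
      intro i p _
      fin_cases i
      · exact hFF0 g2 n2 p
      · exact hFF0 g3 n3 p
      · exact hFF0 g4 n4 p
      · exact hFF0 gK nK p
      · exact hFF0 gP nP p)
    (by
      intro i
      fin_cases i
      · refine (sum_FF hN g2 _ n2 s2).trans (mul_le_mul_of_nonneg_left (le_of_eq ?_) (Nat.cast_nonneg _))
        show _ = 4 * (a : ℝ) ^ 2 / (N : ℝ) ^ 3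
        rw [hm]; field_simp; norm_num
      · refine (sum_FF hN g3 _ n3 s3).trans (mul_le_mul_of_nonneg_left (le_of_eq ?_) (Nat.cast_nonneg _))
        show _ = 8 * (a : ℝ) ^ 3 * C1 / (N : ℝ) ^ 3
        rw [hm]; field_simp; norm_num
      · refine (sum_FF hN g4 _ n4 s4).trans (mul_le_mul_of_nonneg_left (le_of_eq ?_) (Nat.cast_nonneg _))
        show _ = 16 * (a : ℝ) ^ 4 * C0 * L / (N : ℝ) ^ 3
        rw [hm]; field_simp; norm_num
      · refine (sum_FF hN gK _ nK sK).trans (mul_le_mul_of_nonneg_left (le_of_eq ?_) (Nat.cast_nonneg _))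
        show _ = 4 * (a : ℝ) ^ 2 * C0 * (N : ℝ) ^ 3 * L
        rw [hm]; field_simp; norm_num
      · refine (sum_FF hN gP _ nP sP).trans (mul_le_mul_of_nonneg_left (le_of_eq ?_) (Nat.cast_nonneg _))
        show _ = 8 * (a : ℝ) ^ 3 * C0 * L
        rw [hm]; field_simp; norm_num)
  have f2 : FF g2 p ≤ 5 * (4 * a ^ 2 / (N : ℝ) ^ 3) := hgood 0
  have f3 : FF g3 p ≤ 5 * (8 * a ^ 3 * C1 / (N : ℝ) ^ 3) := hgood 1
  have f4 : FF g4 p ≤ 5 * (16 * a ^ 4 * C0 * L / (N : ℝ) ^ 3) := hgood 2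
  have fK : FF gK p ≤ 5 * (4 * a ^ 2 * C0 * (N : ℝ) ^ 3 * L) := hgood 3
  have fP : FF gP p ≤ 5 * (8 * a ^ 3 * C0 * L) := hgood 4
  have hpX : ∀ i, p i ∈ X := Fintype.mem_piFinset.1 hp
  -- few bad tuples
  have hfew : FF g2 p + FF g3 p + FF g4 p ≤ a := by
    have e1 : 5 * (4 * (a : ℝ) ^ 2 / (N : ℝ) ^ 3) + 5 * (8 * a ^ 3 * C1 / (N : ℝ) ^ 3) +
        5 * (16 * a ^ 4 * C0 * L / (N : ℝ) ^ 3) =
        (20 * a ^ 2 + 40 * a ^ 3 * C1 + 80 * a ^ 4 * C0 * L) / (N : ℝ) ^ 3 := by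
      field_simp
      ring
    have e2 : 20 * (a : ℝ) ^ 2 + 40 * a ^ 3 * C1 + 80 * a ^ 4 * C0 * L ≤ a * (N : ℝ) ^ 3 := by
      have h1 : (a : ℝ) ^ 2 ≤ a ^ 4 * C0 * L := by
        have g1 : (a : ℝ) ^ 2 ≤ a ^ 4 := pow_le_pow_right₀ ha1 (by norm_num)
        have g2 : (a : ℝ) ^ 4 * 1 * 1 ≤ a ^ 4 * C0 * L := by gcongr
        linarith
      have h2 : (a : ℝ) ^ 3 * C1 ≤ a ^ 4 * C1 * L := by
        have g1 : (a : ℝ) ^ 3 ≤ a ^ 4 := pow_le_pow_right₀ ha1 (by norm_num)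
        calc (a : ℝ) ^ 3 * C1 = a ^ 3 * C1 * 1 := by ring
          _ ≤ a ^ 4 * C1 * L := by gcongr
      have h3 := mul_le_mul_of_nonneg_left hcond ha'.le
      have h4 : (a : ℝ) * (140 * (C0 + C1) * L * a ^ 3) = 140 * (a ^ 4 * C0 * L) +
          140 * (a ^ 4 * C1 * L) := by ring
      have h5 : 0 ≤ (a : ℝ) ^ 4 * C0 * L := by positivity
      have h6 : 0 ≤ (a : ℝ) ^ 4 * C1 * L := by positivity
      linarith
    have e3 : (20 * (a : ℝ) ^ 2 + 40 * a ^ 3 * C1 + 80 * a ^ 4 * C0 * L) / (N : ℝ) ^ 3 ≤ a := by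
      rw [div_le_iff₀ (by positivity)]; exact e2
    linarith
  -- deletion
  set B2 := ((univ : Finset (Fin 2 ↪ Fin (2 * a))).filter
    (fun e : Fin 2 ↪ Fin (2 * a) => q2 (p ∘ e))).image (fun e : Fin 2 ↪ Fin (2 * a) => e 0)
    with hB2
  set B3 := ((univ : Finset (Fin 3 ↪ Fin (2 * a))).filter
    (fun e : Fin 3 ↪ Fin (2 * a) => q3 (p ∘ e))).image (fun e : Fin 3 ↪ Fin (2 * a) => e 0)
    with hB3
  set B4 := ((univ : Finset (Fin 4 ↪ Fin (2 * a))).filter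
    (fun e : Fin 4 ↪ Fin (2 * a) => q4 (p ∘ e))).image (fun e : Fin 4 ↪ Fin (2 * a) => e 0)
    with hB4
  have c2 : (B2.card : ℝ) ≤ FF g2 p := by convert bad_card q2 p 0
  have c3 : (B3.card : ℝ) ≤ FF g3 p := by convert bad_card q3 p 0
  have c4 : (B4.card : ℝ) ≤ FF g4 p := by convert bad_card q4 p 0
  have hBcard : (B2 ∪ B3 ∪ B4).card ≤ a := by
    have h1 : (B2 ∪ B3 ∪ B4).card ≤ B2.card + B3.card + B4.card :=
      (card_union_le _ _).trans (Nat.add_le_add_right (card_union_le _ _) _)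
    have h2 : ((B2.card + B3.card + B4.card : ℕ) : ℝ) ≤ a := by
      push_cast; linarith
    have h3 : B2.card + B3.card + B4.card ≤ a := by exact_mod_cast h2
    exact h1.trans h3
  have hRem : a ≤ ((B2 ∪ B3 ∪ B4)ᶜ).card := by
    rw [card_compl, Fintype.card_fin]
    omega
  obtain ⟨R, hRsub, hRcard⟩ := exists_subset_card_eq hRem
  set ι : Fin a ↪ Fin (2 * a) := (R.orderEmbOfFin hRcard).toEmbedding with hι
  have hιmem : ∀ i, ι i ∉ B2 ∪ B3 ∪ B4 := by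
    intro i
    have := hRsub (R.orderEmbOfFin_mem hRcard i)
    exact mem_compl.1 this
  refine ⟨fun i => p (ι i), fun i => hpX _, ?_, ?_, ?_, ?_, ?_⟩
  · intro i j hij
    by_contra hne
    have hinj : Function.Injective ![ι i, ι j] := by
      intro u v huv
      fin_cases u <;> fin_cases v
      · rfl
      · exact absurd (ι.injective huv) hne
      · exact absurd (ι.injective huv.symm) hne
      · rfl
    apply hιmem i
    refine mem_union_left _ (mem_union_left _ (mem_image.2 ⟨⟨![ι i, ι j], hinj⟩, ?_, rfl⟩))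
    rw [mem_filter]
    exact ⟨mem_univ _, hij⟩
  · intro e hcol
    apply hιmem (e 0)
    refine mem_union_left _ (mem_union_right _ (mem_image.2 ⟨e.trans ι, ?_, rfl⟩))
    rw [mem_filter]
    exact ⟨mem_univ _, hcol⟩
  · intro e hcop
    apply hιmem (e 0)
    refine mem_union_right _ (mem_image.2 ⟨e.trans ι, ?_, rfl⟩)
    rw [mem_filter]
    exact ⟨mem_univ _, hcop⟩
  · refine (sum_sub gK nK p ι).trans (fK.trans (le_of_eq ?_))
    ring
  · refine (sum_sub gP nP p ι).trans (fP.trans (le_of_eq ?_))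
    ring

end Pool.Agent.Grid3D.Pool38
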