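import Pool.Agent.Grid3D.ProcessDefs

set_option autoImplicit false

open Classical Finset

noncomputable section

namespace Pool.Agent.Grid3D

namespace Params

variable (P : Params)

theorem V_pos : 0 < P.V := by
  have := P.hN
  unfold V
  positivity

theorem one_le_om : 1 ≤ P.om := Real.one_le_exp (by have := P.hA; linarith)

theorem mem_K {s : ℕ} {ω : ℕ → Pt} {x u : Pt} :
    u ∈ P.K s ω x ↔ u ∈ box P.N ∧ (u = x ∨ ∃ c d, P.adm s c d ∧ Cop x u (ω c) (ω d)) := by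
  simp [K]

/-! Predictability -/

theorem K_congr {s : ℕ} {ω ω' : ℕ → Pt} (h : ∀ i < s, ω i = ω' i) (x : Pt) :
    P.K s ω x = P.K s ω' x := by
  ext u
  rw [mem_K, mem_K]
  refine and_congr_right (fun _ => or_congr_right ?_)
  refine exists_congr (fun c => exists_congr (fun d => ?_))
  refine and_congr_right (fun hcd => ?_)
  rw [h c hcd.1, h d hcd.2.1]

theorem admP_congr {s : ℕ} {ω ω' : ℕ → Pt} (h : ∀ i < s, ω i = ω' i) (m : Pt) (c : ℤ) :
    P.admP s ω m c ↔ P.admP s ω' m c := by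
  unfold admP
  refine exists_congr (fun a => exists_congr (fun b => ?_))
  refine and_congr_right (fun hcd => ?_)
  rw [h a hcd.1, h b hcd.2.1]

theorem phS_congr {s : ℕ} {ω ω' : ℕ → Pt} (h : ∀ i < s, ω i = ω' i) (σ : St) (x : Pt) :
    P.phS σ s ω x = P.phS σ s ω' x := by
  unfold phS
  rw [P.K_congr h]

theorem phPS_congr {s : ℕ} {ω ω' : ℕ → Pt} (h : ∀ i < s, ω i = ω' i) (σ : St) (m : Pt) (c : ℤ) :
    P.phPS σ s ω m c = P.phPS σ s ω' m c := by
  unfold phPS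
  simp only [P.admP_congr h]

theorem okS_congr {s : ℕ} {ω ω' : ℕ → Pt} (h : ∀ i < s, ω i = ω' i) (σ : St) (x : Pt) :
    P.okS σ s ω x ↔ P.okS σ s ω' x := by
  unfold okS
  simp only [P.phS_congr h, P.phPS_congr h]
  refine and_congr_right (fun _ => and_congr_right (fun _ => and_congr_right (fun _ => ?_)))
  refine forall_congr' (fun c => forall_congr' (fun hc => forall_congr' (fun d =>
    forall_congr' (fun hd => ?_))))
  rw [h c hc, h d hd]

theorem actS'_congr {s : ℕ} {ω ω' : ℕ → Pt} (h : ∀ i < s, ω i = ω' i) (σ : St) :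
    P.actS' σ s ω = P.actS' σ s ω' := by
  unfold actS'
  simp only [P.okS_congr h]

theorem WS_congr {s : ℕ} {ω ω' : ℕ → Pt} (h : ∀ i < s, ω i = ω' i) (σ : St) :
    P.WS σ s ω = P.WS σ s ω' := by
  unfold WS
  rw [P.actS'_congr h]

theorem prS_congr {s : ℕ} {ω ω' : ℕ → Pt} (h : ∀ i < s, ω i = ω' i) (σ : St) (u : Pt) :
    P.prS σ s ω u = P.prS σ s ω' u := by
  unfold prS
  rw [P.WS_congr h, P.actS'_congr h]

theorem pS_congr {s : ℕ} {ω ω' : ℕ → Pt} (h : ∀ i < s, ω i = ω' i) (σ : St) (x : Pt) :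
    P.pS σ s ω x = P.pS σ s ω' x := by
  unfold pS
  rw [P.K_congr h]
  exact Finset.sum_congr rfl (fun u _ => P.prS_congr h σ u)

theorem pred_st (s : ℕ) : Pred s (fun ω => P.st ω s) := by
  induction s with
  | zero => intro ω ω' _; rfl
  | succ s ih =>
    intro ω ω' h
    have h' : ∀ i < s, ω i = ω' i := fun i hi => h i (Nat.lt_succ_of_lt hi)
    have e := ih ω ω' h'
    simp only at e
    simp only [st, e, P.actS'_congr h', P.K_congr h', h s (Nat.lt_succ_self s), P.pS_congr h',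
      P.phS_congr h', P.phPS_congr h']

theorem pred_K (s : ℕ) (x : Pt) : Pred s (fun ω => P.K s ω x) := fun _ _ h => P.K_congr h x
theorem pred_w (s : ℕ) (x : Pt) : Pred s (fun ω => P.w s ω x) := fun ω ω' h => by
  have e := P.pred_st s ω ω' h
  simp only at e
  simp only [w, e]
theorem pred_act (s : ℕ) : Pred s (fun ω => P.act s ω) := fun ω ω' h => by
  have e := P.pred_st s ω ω' h
  simp only at e
  simp only [act, e]
theorem pred_act' (s : ℕ) : Pred s (fun ω => P.act' s ω) := fun ω ω' h => by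
  have e := P.pred_st s ω ω' h
  simp only at e
  simp only [act', e, P.actS'_congr h]
theorem pred_W (s : ℕ) : Pred s (fun ω => P.W s ω) := fun ω ω' h => by
  have e := P.pred_st s ω ω' h
  simp only at e
  simp only [W, e, P.WS_congr h]
theorem pred_ph (s : ℕ) (x : Pt) : Pred s (fun ω => P.ph s ω x) := fun ω ω' h => by
  have e := P.pred_st s ω ω' h
  simp only at e
  simp only [ph, e, P.phS_congr h]
theorem pred_phP (s : ℕ) (m : Pt) (c : ℤ) : Pred s (fun ω => P.phP s ω m c) := fun ω ω' h => by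
  have e := P.pred_st s ω ω' h
  simp only at e
  simp only [phP, e, P.phPS_congr h]
theorem pred_pr (s : ℕ) (u : Pt) : Pred s (fun ω => P.pr s ω u) := fun ω ω' h => by
  have e := P.pred_st s ω ω' h
  simp only at e
  simp only [pr, e, P.prS_congr h]
theorem pred_p (s : ℕ) (x : Pt) : Pred s (fun ω => P.p s ω x) := fun ω ω' h => by
  have e := P.pred_st s ω ω' h
  simp only at e
  simp only [p, e, P.pS_congr h]
theorem pred_p2 (s : ℕ) (a b : Pt) : Pred s (fun ω => P.p2 s ω a b) := fun ω ω' h => by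
  unfold p2
  simp only [P.K_congr h]
  exact Finset.sum_congr rfl (fun u _ => P.pred_pr s u ω ω' h)
theorem pred_go (s : ℕ) : Pred s (fun ω => P.go s ω) := fun ω ω' h => by
  have e := P.pred_W s ω ω' h
  simp only at e
  simp only [go, e]
theorem pred_wa (s : ℕ) (x : Pt) : Pred s (fun ω => P.wa s ω x) := fun ω ω' h => by
  have e1 := P.pred_w s x ω ω' h
  have e2 := P.pred_act s ω ω' h
  simp only at e1 e2
  simp only [wa, e1, e2]
theorem pred_wab (s : ℕ) (x : Pt) : Pred s (fun ω => P.wab s ω x) := fun ω ω' h => by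
  have e1 := P.pred_w s x ω ω' h
  have e2 := P.pred_act s ω ω' h
  have e3 := P.pred_act' s ω ω' h
  simp only at e1 e2 e3
  simp only [wab, e1, e2, e3]

theorem pred_mono {β : Sort*} {s t : ℕ} {F : (ℕ → Pt) → β} (h : Pred s F) (hst : s ≤ t) :
    Pred t F := fun ω ω' hω => h ω ω' (fun i hi => hω i (lt_of_lt_of_le hi hst))

/-- Updating coordinate `t ≥ s` does not change a function of the first `s` coordinates. -/
theorem _root_.Pool.Agent.Grid3D.Pred.update {β : Sort*} {s t : ℕ} {F : (ℕ → Pt) → β}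
    (h : Pred s F) (hst : s ≤ t) (ω : ℕ → Pt) (u : Pt) : F (Function.update ω t u) = F ω :=
  h _ _ (fun i hi => Function.update_of_ne (by omega) _ _)

/-! Recursion -/

theorem act_zero (ω : ℕ → Pt) : P.act 0 ω = box P.N := rfl
theorem w_zero (ω : ℕ → Pt) (x : Pt) : P.w 0 ω x = 1 := rfl
theorem mem_act_succ {s : ℕ} {ω : ℕ → Pt} {x : Pt} :
    x ∈ P.act (s + 1) ω ↔ x ∈ P.act' s ω ∧ ω s ∉ P.K s ω x := by
  show x ∈ (P.actS' (P.st ω s) s ω).filter (fun x => ω s ∉ P.K s ω x) ↔ _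
  rw [Finset.mem_filter]
  rfl
theorem w_succ_of_mem {s : ℕ} {ω : ℕ → Pt} {x : Pt} (h : x ∈ P.act (s + 1) ω) :
    P.w (s + 1) ω x = P.w s ω x / (1 - P.p s ω x) := by
  rw [mem_act_succ] at h
  show (if x ∈ P.act' s ω then
      (if ω s ∈ P.K s ω x then 0 else P.w s ω x / (1 - P.p s ω x))
      else P.w s ω x) = _
  rw [if_pos h.1, if_neg h.2]
theorem w_succ_of_notMem {s : ℕ} {ω : ℕ → Pt} {x : Pt} (h : x ∉ P.act' s ω) :
    P.w (s + 1) ω x = P.w s ω x := by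
  show (if x ∈ P.act' s ω then
      (if ω s ∈ P.K s ω x then 0 else P.w s ω x / (1 - P.p s ω x))
      else P.w s ω x) = _
  rw [if_neg h]
theorem w_succ_of_killed {s : ℕ} {ω : ℕ → Pt} {x : Pt} (h : x ∈ P.act' s ω)
    (hk : ω s ∈ P.K s ω x) : P.w (s + 1) ω x = 0 := by
  show (if x ∈ P.act' s ω then
      (if ω s ∈ P.K s ω x then 0 else P.w s ω x / (1 - P.p s ω x))
      else P.w s ω x) = _
  rw [if_pos h, if_pos hk]

theorem acc_eq (s : ℕ) (ω : ℕ → Pt) (x : Pt) :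
    (P.st ω s).acc x = ∑ r ∈ range s, P.ph r ω x := by
  induction s with
  | zero => rfl
  | succ s ih =>
    rw [Finset.sum_range_succ, ← ih]
    rfl

theorem accP_eq (s : ℕ) (ω : ℕ → Pt) (m : Pt) (c : ℤ) :
    (P.st ω s).accP m c = ∑ r ∈ range s, P.phP r ω m c := by
  induction s with
  | zero => rfl
  | succ s ih =>
    rw [Finset.sum_range_succ, ← ih]
    rfl

theorem mem_act' {s : ℕ} {ω : ℕ → Pt} {x : Pt} :
    x ∈ P.act' s ω ↔ x ∈ P.act s ω ∧ ¬ P.A1 s ω x ∧ ¬ P.A2 s ω x ∧ ¬ P.A4 s ω x ∧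
      ¬ P.A5 s ω x := by
  show x ∈ (P.act s ω).filter (fun x => P.okS (P.st ω s) s ω x) ↔ _
  rw [Finset.mem_filter]
  refine and_congr_right (fun _ => ?_)
  unfold okS
  refine and_congr ?_ (and_congr ?_ (and_congr ?_ ?_))
  · rw [acc_eq, A1, not_lt, Finset.sum_range_succ]
    rfl
  · unfold A2
    push Not
    refine forall_congr' (fun m => forall_congr' (fun hm => ?_))
    rw [accP_eq, Finset.sum_range_succ]
    rfl
  · rw [A4, not_lt]
    rfl
  · unfold A5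
    push Not
    rfl

theorem act'_subset_act (s : ℕ) (ω : ℕ → Pt) : P.act' s ω ⊆ P.act s ω :=
  Finset.filter_subset _ _

theorem act_succ_subset (s : ℕ) (ω : ℕ → Pt) : P.act (s + 1) ω ⊆ P.act' s ω := fun _ hx =>
  (P.mem_act_succ.1 hx).1

theorem act_anti {s t : ℕ} (h : s ≤ t) (ω : ℕ → Pt) : P.act t ω ⊆ P.act s ω := by
  induction t, h using Nat.le_induction with
  | base => exact Finset.Subset.refl _
  | succ t _ ih => exact ((P.act_succ_subset t ω).trans (P.act'_subset_act t ω)).trans ih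

theorem act_subset_box (s : ℕ) (ω : ℕ → Pt) : P.act s ω ⊆ box P.N :=
  P.act_anti (Nat.zero_le s) ω

theorem act_subset_act' {s t : ℕ} (h : s < t) (ω : ℕ → Pt) : P.act t ω ⊆ P.act' s ω :=
  (P.act_anti (Nat.succ_le_of_lt h) ω).trans (P.act_succ_subset s ω)

theorem act'_anti {s t : ℕ} (h : s ≤ t) (ω : ℕ → Pt) : P.act' t ω ⊆ P.act' s ω := by
  rcases h.lt_or_eq with h | h
  · exact (P.act'_subset_act t ω).trans (P.act_subset_act' h ω)
  · subst h; exact Finset.Subset.refl _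

/-- An active point is not in the kill set of an earlier step. -/
theorem notMem_K_of_mem_act {s r : ℕ} {ω : ℕ → Pt} {x : Pt} (hx : x ∈ P.act s ω) (hr : r < s) :
    ω r ∉ P.K r ω x :=
  (P.mem_act_succ.1 (P.act_anti (Nat.succ_le_of_lt hr) ω hx)).2

/-- An active point is not placed. -/
theorem ne_of_mem_act {s r : ℕ} {ω : ℕ → Pt} {x : Pt} (hx : x ∈ P.act s ω) (hr : r < s) :
    ω r ≠ x := by
  intro h
  apply P.notMem_K_of_mem_act hx hr
  rw [mem_K, h]
  exact ⟨P.act_subset_box s ω hx, Or.inl rfl⟩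

/-- An active point is not coplanar with an earlier placed vertex and a pair admissible for it. -/
theorem not_cop_of_mem_act {s r c d : ℕ} {ω : ℕ → Pt} {x : Pt} (hx : x ∈ P.act s ω) (hr : r < s)
    (hbox : ω r ∈ box P.N) (hcd : P.adm r c d) : ¬ Cop x (ω r) (ω c) (ω d) := by
  intro h
  apply P.notMem_K_of_mem_act hx hr
  rw [mem_K]
  exact ⟨hbox, Or.inr ⟨c, d, hcd, h⟩⟩

/-- No point of `Act'_s` is collinear with two placed points. -/
theorem not_col_of_mem_act' {s c d : ℕ} {ω : ℕ → Pt} {x : Pt} (hx : x ∈ P.act' s ω) (hc : c < s)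
    (hd : d < s) (hcd : c ≠ d) : ¬ Col (ω c) (ω d) x := by
  intro h
  exact (P.mem_act'.1 hx).2.2.2.2 ⟨c, hc, d, hd, hcd, h⟩

theorem sum_ph_le {s : ℕ} {ω : ℕ → Pt} {x : Pt} (hx : x ∈ P.act' s ω) :
    ∑ r ∈ range (s + 1), P.ph r ω x ≤ P.A :=
  not_lt.1 (P.mem_act'.1 hx).2.1

theorem sum_phP_le {s : ℕ} {ω : ℕ → Pt} {x : Pt} (hx : x ∈ P.act' s ω) {m : Pt}
    (hm : m ∈ normals P.M) : ∑ r ∈ range (s + 1), P.phP r ω m (dot m x) ≤ P.κ := by
  by_contra h
  exact (P.mem_act'.1 hx).2.2.1 ⟨m, hm, not_le.1 h⟩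

theorem ph_le_of_mem_act' {s : ℕ} {ω : ℕ → Pt} {x : Pt} (hx : x ∈ P.act' s ω) :
    P.ph s ω x ≤ 1 / 64 :=
  not_lt.1 (P.mem_act'.1 hx).2.2.2.1


/-! Positivity and (F1) -/

theorem pr_def (s : ℕ) (ω : ℕ → Pt) (u : Pt) : P.pr s ω u =
    if P.V / 2 ≤ P.W s ω ∧ u ∈ P.act' s ω then P.w s ω u / P.W s ω else 0 := rfl

theorem p_def (s : ℕ) (ω : ℕ → Pt) (x : Pt) : P.p s ω x = ∑ u ∈ P.K s ω x, P.pr s ω u := rfl

theorem W_def (s : ℕ) (ω : ℕ → Pt) : P.W s ω = ∑ x ∈ P.act' s ω, P.w s ω x := rfl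

theorem K_subset_box (s : ℕ) (ω : ℕ → Pt) (x : Pt) : P.K s ω x ⊆ box P.N :=
  Finset.filter_subset _ _

/-- `phat_s(x) = (2/V) Σ_{u ∈ K_s(x)} w_s(u) 1(u ∈ Act_s)` -/
theorem ph_eq (s : ℕ) (ω : ℕ → Pt) (x : Pt) :
    P.ph s ω x = 2 / P.V * ∑ u ∈ P.K s ω x, P.wa s ω u := by
  show 2 / P.V * ∑ u ∈ P.act s ω ∩ P.K s ω x, P.w s ω u = _
  congr 1
  unfold wa
  rw [← Finset.sum_filter, Finset.inter_comm, Finset.filter_mem_eq_inter]

theorem phP_eq (s : ℕ) (ω : ℕ → Pt) (m : Pt) (c : ℤ) :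
    P.phP s ω m c =
      if P.admP s ω m c then 2 / P.V * ∑ u ∈ plane P.N m c, P.wa s ω u else 0 := by
  show (if P.admP s ω m c then
    2 / P.V * ∑ u ∈ (P.act s ω).filter (fun u => dot m u = c), P.w s ω u else 0) = _
  congr 2
  unfold wa plane
  rw [← Finset.sum_filter]
  congr 1
  ext u
  simp only [Finset.mem_filter]
  constructor
  · rintro ⟨h1, h2⟩
    exact ⟨⟨P.act_subset_box s ω h1, h2⟩, h1⟩
  · rintro ⟨⟨_, h2⟩, h1⟩
    exact ⟨h1, h2⟩

theorem wa_nonneg_aux {s : ℕ} {ω : ℕ → Pt} (hw : ∀ x, 0 ≤ P.w s ω x) (x : Pt) :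
    0 ≤ P.wa s ω x := by
  unfold wa
  split_ifs
  · exact hw x
  · exact le_refl _

theorem pr_le_wa_aux {s : ℕ} {ω : ℕ → Pt} (hw : ∀ x, 0 ≤ P.w s ω x) (u : Pt) :
    P.pr s ω u ≤ 2 / P.V * P.wa s ω u := by
  have hV := P.V_pos
  rw [pr_def]
  split_ifs with h
  · have : P.wa s ω u = P.w s ω u := by
      unfold wa
      rw [if_pos (P.act'_subset_act s ω h.2)]
    rw [this]
    calc P.w s ω u / P.W s ω ≤ P.w s ω u / (P.V / 2) :=
          div_le_div_of_nonneg_left (hw u) (by positivity) h.1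
      _ = 2 / P.V * P.w s ω u := by field_simp
  · have := P.wa_nonneg_aux hw u
    positivity

theorem p_le_ph_aux {s : ℕ} {ω : ℕ → Pt} (hw : ∀ x, 0 ≤ P.w s ω x) (x : Pt) :
    P.p s ω x ≤ P.ph s ω x := by
  rw [p_def, ph_eq, Finset.mul_sum]
  exact Finset.sum_le_sum (fun u _ => P.pr_le_wa_aux hw u)

theorem w_nonneg (s : ℕ) (ω : ℕ → Pt) (x : Pt) : 0 ≤ P.w s ω x := by
  induction s generalizing x with
  | zero => rw [w_zero]; norm_num
  | succ s ih =>
    by_cases h : x ∈ P.act' s ω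
    · by_cases hk : ω s ∈ P.K s ω x
      · rw [P.w_succ_of_killed h hk]
      · rw [P.w_succ_of_mem (P.mem_act_succ.2 ⟨h, hk⟩)]
        have h1 := P.p_le_ph_aux ih x
        have h2 := P.ph_le_of_mem_act' h
        exact div_nonneg (ih x) (by linarith)
    · rw [P.w_succ_of_notMem h]
      exact ih x

theorem wa_nonneg (s : ℕ) (ω : ℕ → Pt) (x : Pt) : 0 ≤ P.wa s ω x :=
  P.wa_nonneg_aux (P.w_nonneg s ω) x

theorem wa_of_mem {s : ℕ} {ω : ℕ → Pt} {x : Pt} (h : x ∈ P.act s ω) :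
    P.wa s ω x = P.w s ω x := if_pos h

theorem wa_of_notMem {s : ℕ} {ω : ℕ → Pt} {x : Pt} (h : x ∉ P.act s ω) :
    P.wa s ω x = 0 := if_neg h

theorem mem_act_of_wa_ne_zero {s : ℕ} {ω : ℕ → Pt} {x : Pt} (h : P.wa s ω x ≠ 0) :
    x ∈ P.act s ω := by
  by_contra h'
  exact h (P.wa_of_notMem h')

/-- (F3) -/
theorem pr_le_wa (s : ℕ) (ω : ℕ → Pt) (u : Pt) : P.pr s ω u ≤ 2 / P.V * P.wa s ω u :=
  P.pr_le_wa_aux (P.w_nonneg s ω) u

theorem pr_nonneg (s : ℕ) (ω : ℕ → Pt) (u : Pt) : 0 ≤ P.pr s ω u := by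
  have hV := P.V_pos
  rw [pr_def]
  split_ifs with h
  · exact div_nonneg (P.w_nonneg s ω u) (by linarith [h.1])
  · exact le_refl _

theorem pr_eq_zero {s : ℕ} {ω : ℕ → Pt} {u : Pt} (h : u ∉ P.act' s ω) : P.pr s ω u = 0 := by
  rw [pr_def, if_neg (fun h' => h h'.2)]

theorem go_of_pr {s : ℕ} {ω : ℕ → Pt} {u : Pt} (h : P.pr s ω u ≠ 0) :
    P.go s ω ∧ u ∈ P.act' s ω := by
  by_contra h'
  apply h
  rw [pr_def]
  exact if_neg h'

theorem p_nonneg (s : ℕ) (ω : ℕ → Pt) (x : Pt) : 0 ≤ P.p s ω x :=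
  Finset.sum_nonneg (fun u _ => P.pr_nonneg s ω u)

theorem p_le_ph (s : ℕ) (ω : ℕ → Pt) (x : Pt) : P.p s ω x ≤ P.ph s ω x :=
  P.p_le_ph_aux (P.w_nonneg s ω) x

theorem p_le {s : ℕ} {ω : ℕ → Pt} {x : Pt} (hx : x ∈ P.act' s ω) : P.p s ω x ≤ 1 / 64 :=
  (P.p_le_ph s ω x).trans (P.ph_le_of_mem_act' hx)

theorem p2_nonneg (s : ℕ) (ω : ℕ → Pt) (a b : Pt) : 0 ≤ P.p2 s ω a b :=
  Finset.sum_nonneg (fun u _ => P.pr_nonneg s ω u)

theorem ph_nonneg (s : ℕ) (ω : ℕ → Pt) (x : Pt) : 0 ≤ P.ph s ω x :=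
  (P.p_nonneg s ω x).trans (P.p_le_ph s ω x)

theorem phP_nonneg (s : ℕ) (ω : ℕ → Pt) (m : Pt) (c : ℤ) : 0 ≤ P.phP s ω m c := by
  have hV := P.V_pos
  rw [phP_eq]
  split_ifs
  · exact mul_nonneg (by positivity) (Finset.sum_nonneg (fun u _ => P.wa_nonneg s ω u))
  · exact le_refl _

theorem sum_pr_of_go {s : ℕ} {ω : ℕ → Pt} (h : P.go s ω) :
    ∑ u ∈ box P.N, P.pr s ω u = 1 := by
  have hV := P.V_pos
  unfold go at h
  have hW : P.W s ω ≠ 0 := by
    intro h0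
    rw [h0] at h
    linarith
  have hsub : P.act' s ω ⊆ box P.N := (P.act'_subset_act s ω).trans (P.act_subset_box s ω)
  rw [← Finset.sum_subset hsub (fun u _ hu => P.pr_eq_zero hu)]
  have : ∀ u ∈ P.act' s ω, P.pr s ω u = P.w s ω u / P.W s ω := fun u hu => by
    rw [pr_def, if_pos ⟨h, hu⟩]
  rw [Finset.sum_congr rfl this, ← Finset.sum_div, ← W_def, div_self hW]

theorem sum_pr_of_not_go {s : ℕ} {ω : ℕ → Pt} (h : ¬ P.go s ω) :
    ∑ u ∈ box P.N, P.pr s ω u = 0 := by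
  refine Finset.sum_eq_zero (fun u _ => ?_)
  rw [pr_def, if_neg (fun h' => h h'.1)]

theorem sum_pr_le_one (s : ℕ) (ω : ℕ → Pt) : ∑ u ∈ box P.N, P.pr s ω u ≤ 1 := by
  by_cases h : P.go s ω
  · rw [P.sum_pr_of_go h]
  · rw [P.sum_pr_of_not_go h]; norm_num

theorem one_div_le_exp {p : ℝ} (h0 : 0 ≤ p) (h1 : p ≤ 1 / 64) :
    1 / (1 - p) ≤ Real.exp (2 * p) := by
  rw [div_le_iff₀ (by linarith)]
  have h2 := Real.add_one_le_exp (2 * p)
  have h3 : (2 * p + 1) * (1 - p) ≤ Real.exp (2 * p) * (1 - p) :=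
    mul_le_mul_of_nonneg_right h2 (by linarith)
  nlinarith

theorem w_le_exp {s : ℕ} {ω : ℕ → Pt} {x : Pt} (hx : x ∈ P.act s ω) :
    P.w s ω x ≤ Real.exp (2 * ∑ r ∈ range s, P.ph r ω x) := by
  induction s with
  | zero => simp [w_zero]
  | succ s ih =>
    have hx' := (P.mem_act_succ.1 hx).1
    rw [P.w_succ_of_mem hx, Finset.sum_range_succ, mul_add, Real.exp_add]
    have h1 := ih (P.act'_subset_act s ω hx')
    have h2 := P.p_le_ph s ω x
    have h3 := P.p_nonneg s ω x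
    have h4 := P.p_le hx'
    have h5 := one_div_le_exp h3 h4
    rw [div_eq_mul_one_div]
    refine mul_le_mul h1 (h5.trans (Real.exp_le_exp.2 (by linarith))) ?_ (Real.exp_pos _).le
    exact div_nonneg zero_le_one (by linarith)

/-- (F1) -/
theorem w_le_om (s : ℕ) (ω : ℕ → Pt) (x : Pt) : P.w s ω x ≤ P.om := by
  induction s with
  | zero => rw [w_zero]; exact P.one_le_om
  | succ s ih =>
    by_cases h : x ∈ P.act' s ω
    · by_cases hk : ω s ∈ P.K s ω x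
      · rw [P.w_succ_of_killed h hk]; exact zero_le_one.trans P.one_le_om
      · refine (P.w_le_exp (P.mem_act_succ.2 ⟨h, hk⟩)).trans ?_
        unfold om
        exact Real.exp_le_exp.2 (by linarith [P.sum_ph_le h])
    · rw [P.w_succ_of_notMem h]
      exact ih

theorem wa_le_om (s : ℕ) (ω : ℕ → Pt) (x : Pt) : P.wa s ω x ≤ P.om := by
  unfold wa
  split_ifs
  · exact P.w_le_om s ω x
  · exact zero_le_one.trans P.one_le_om

theorem wab_nonneg (s : ℕ) (ω : ℕ → Pt) (x : Pt) : 0 ≤ P.wab s ω x := by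
  unfold wab
  split_ifs
  · exact P.w_nonneg s ω x
  · exact le_refl _

theorem wab_le_wa (s : ℕ) (ω : ℕ → Pt) (x : Pt) : P.wab s ω x ≤ P.wa s ω x := by
  unfold wab wa
  split_ifs with h1 h2 h3
  · exact le_refl _
  · exact absurd h1.1 h2
  · exact P.w_nonneg s ω x
  · exact le_refl _

theorem pr_le_om (s : ℕ) (ω : ℕ → Pt) (u : Pt) : P.pr s ω u ≤ 2 * P.om / P.V := by
  have hV := P.V_pos
  refine (P.pr_le_wa s ω u).trans ?_
  calc 2 / P.V * P.wa s ω u ≤ 2 / P.V * P.om :=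
        mul_le_mul_of_nonneg_left (P.wa_le_om s ω u) (by positivity)
    _ = 2 * P.om / P.V := by ring

end Params

end Pool.Agent.Grid3D
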