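import Pool.Agent.Grid3D.ProcBasic

set_option autoImplicit false

open Classical Finset

noncomputable section

namespace Pool.Agent.Grid3D

namespace Params

variable (P : Params)

/-! ### The expectation functional -/

theorem ex_zero (F : (ℕ → Pt) → ℝ) : P.ex 0 F = F (fun _ => 0) := rfl

theorem ex_succ (s : ℕ) (F : (ℕ → Pt) → ℝ) :
    P.ex (s + 1) F =
      P.ex s (fun ω => ∑ u ∈ box P.N, P.pr s ω u * F (Function.update ω s u)) := rfl

theorem alive_zero (ω : ℕ → Pt) : P.Alive 0 ω := fun r hr => absurd hr (Nat.not_lt_zero r)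

theorem alive_update {s : ℕ} {ω : ℕ → Pt} {u : Pt} (h : P.Alive s ω) (hu : P.pr s ω u ≠ 0) :
    P.Alive (s + 1) (Function.update ω s u) := by
  intro r hr
  rcases Nat.lt_succ_iff_lt_or_eq.1 hr with hr' | hr'
  · have h1 := (P.pred_go r).update hr'.le ω u
    have h2 := (P.pred_act' r).update hr'.le ω u
    rw [h1, h2, Function.update_of_ne hr'.ne]
    exact h r hr'
  · subst hr'
    have h1 := (P.pred_go r).update le_rfl ω u
    have h2 := (P.pred_act' r).update le_rfl ω u
    rw [h1, h2, Function.update_self]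
    exact P.go_of_pr hu

theorem alive_mono {s t : ℕ} (h : s ≤ t) {ω : ℕ → Pt} (ha : P.Alive t ω) : P.Alive s ω :=
  fun r hr => ha r (lt_of_lt_of_le hr h)

/-- On an alive path the placed points are in the box. -/
theorem mem_box_of_alive {s r : ℕ} {ω : ℕ → Pt} (h : P.Alive s ω) (hr : r < s) :
    ω r ∈ box P.N :=
  P.act_subset_box r ω (P.act'_subset_act r ω (h r hr).2)

/-- Monotonicity; only alive paths matter. -/
theorem ex_mono {s : ℕ} {F F' : (ℕ → Pt) → ℝ} (h : ∀ ω, P.Alive s ω → F ω ≤ F' ω) :
    P.ex s F ≤ P.ex s F' := by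
  induction s generalizing F F' with
  | zero => exact h _ (P.alive_zero _)
  | succ s ih =>
    rw [ex_succ, ex_succ]
    refine ih (fun ω hω => Finset.sum_le_sum (fun u _ => ?_))
    by_cases hu : P.pr s ω u = 0
    · rw [hu, zero_mul, zero_mul]
    · exact mul_le_mul_of_nonneg_left (h _ (P.alive_update hω hu)) (P.pr_nonneg s ω u)

theorem ex_congr {s : ℕ} {F F' : (ℕ → Pt) → ℝ} (h : ∀ ω, P.Alive s ω → F ω = F' ω) :
    P.ex s F = P.ex s F' :=
  le_antisymm (P.ex_mono (fun ω hω => (h ω hω).le)) (P.ex_mono (fun ω hω => (h ω hω).ge))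

theorem ex_zero_fun (s : ℕ) : P.ex s (fun _ => 0) = 0 := by
  induction s with
  | zero => rfl
  | succ s ih =>
    rw [ex_succ]
    simpa using ih

theorem ex_nonneg {s : ℕ} {F : (ℕ → Pt) → ℝ} (h : ∀ ω, P.Alive s ω → 0 ≤ F ω) :
    0 ≤ P.ex s F := by
  rw [← P.ex_zero_fun s]
  exact P.ex_mono h

theorem ex_add (s : ℕ) (F F' : (ℕ → Pt) → ℝ) :
    P.ex s (fun ω => F ω + F' ω) = P.ex s F + P.ex s F' := by
  induction s generalizing F F' with
  | zero => rfl
  | succ s ih =>
    rw [ex_succ, ex_succ, ex_succ, ← ih]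
    congr 1
    funext ω
    rw [← Finset.sum_add_distrib]
    exact Finset.sum_congr rfl (fun u _ => mul_add _ _ _)

theorem ex_const_mul (s : ℕ) (c : ℝ) (F : (ℕ → Pt) → ℝ) :
    P.ex s (fun ω => c * F ω) = c * P.ex s F := by
  induction s generalizing F with
  | zero => rfl
  | succ s ih =>
    rw [ex_succ, ex_succ, ← ih]
    congr 1
    funext ω
    rw [Finset.mul_sum]
    exact Finset.sum_congr rfl (fun u _ => by ring)

theorem ex_sum {α : Type*} (s : ℕ) (S : Finset α) (F : α → (ℕ → Pt) → ℝ) :
    P.ex s (fun ω => ∑ a ∈ S, F a ω) = ∑ a ∈ S, P.ex s (F a) := by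
  induction S using Finset.induction_on with
  | empty => simp [ex_zero_fun]
  | insert a S ha ih =>
    rw [Finset.sum_insert ha, ← ih, ← ex_add]
    congr 1
    funext ω
    rw [Finset.sum_insert ha]

theorem ex_sub (s : ℕ) (F F' : (ℕ → Pt) → ℝ) :
    P.ex s (fun ω => F ω - F' ω) = P.ex s F - P.ex s F' := by
  have h := P.ex_add s (fun ω => F ω - F' ω) F'
  have h2 : (fun ω => F ω - F' ω + F' ω) = F := by funext ω; ring
  rw [h2] at h
  linarith

/-- Runs only disappear. -/
theorem ex_succ_le {s : ℕ} {F : (ℕ → Pt) → ℝ} (hF : Pred s F)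
    (h0 : ∀ ω, P.Alive s ω → 0 ≤ F ω) : P.ex (s + 1) F ≤ P.ex s F := by
  rw [ex_succ]
  refine P.ex_mono (fun ω hω => ?_)
  have : ∀ u ∈ box P.N, P.pr s ω u * F (Function.update ω s u) = P.pr s ω u * F ω := by
    intro u _
    rw [hF.update le_rfl]
  rw [Finset.sum_congr rfl this, ← Finset.sum_mul]
  calc (∑ u ∈ box P.N, P.pr s ω u) * F ω ≤ 1 * F ω :=
        mul_le_mul_of_nonneg_right (P.sum_pr_le_one s ω) (h0 ω hω)
    _ = F ω := one_mul _

/-- For a nonnegative function of the first `s` coordinates the expectation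
decreases with the length. -/
theorem ex_mono_time {s t : ℕ} (hst : s ≤ t) {F : (ℕ → Pt) → ℝ} (hF : Pred s F)
    (h0 : ∀ ω, P.Alive s ω → 0 ≤ F ω) : P.ex t F ≤ P.ex s F := by
  induction t, hst using Nat.le_induction with
  | base => exact le_refl _
  | succ t hst ih =>
    refine (P.ex_succ_le (pred_mono hF hst) (fun ω hω => ?_)).trans ih
    exact h0 ω (P.alive_mono hst hω)

theorem ex_one_le (s : ℕ) : P.ex s (fun _ => 1) ≤ 1 :=
  P.ex_mono_time (Nat.zero_le s) (fun _ _ _ => rfl) (fun _ _ => zero_le_one)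

theorem ex_const_le (s : ℕ) {c : ℝ} (hc : 0 ≤ c) : P.ex s (fun _ => c) ≤ c :=
  P.ex_mono_time (Nat.zero_le s) (fun _ _ _ => rfl) (fun _ _ => hc)

theorem exists_alive {s : ℕ} (h : P.ex s (fun _ => 1) ≠ 0) : ∃ ω, P.Alive s ω := by
  by_contra hn
  push Not at hn
  apply h
  rw [← P.ex_zero_fun s]
  exact P.ex_congr (fun ω hω => absurd hω (hn ω))

/-! ### CRUDE -/

/-- (F3) CRUDE: prescribed vertices at prescribed positions, with a general nonnegative predictable
factor at each step. -/
theorem crude (T : ℕ) (C : Finset ℕ) (hC : ∀ c ∈ C, c < T) (z : ℕ → Pt) :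
    P.ex T (fun ω => ∏ c ∈ C, if ω c = z c then (1 : ℝ) else 0) ≤
      (2 * P.om / P.V) ^ C.card := by
  have hV := P.V_pos
  have hom := zero_lt_one.trans_le P.one_le_om
  have hq : 0 ≤ 2 * P.om / P.V := by positivity
  induction T generalizing C with
  | zero =>
    have : C = ∅ := Finset.eq_empty_of_forall_notMem (fun c hc => Nat.not_lt_zero c (hC c hc))
    subst this
    simp [ex_zero]
  | succ T ih =>
    by_cases hT : T ∈ C
    · have hC' : ∀ c ∈ C.erase T, c < T := fun c hc => by
        have h1 := hC c (Finset.mem_of_mem_erase hc)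
        have h2 := Finset.ne_of_mem_erase hc
        omega
      have key : P.ex (T + 1) (fun ω => ∏ c ∈ C, if ω c = z c then (1 : ℝ) else 0) ≤
          P.ex T (fun ω => (2 * P.om / P.V) *
            ∏ c ∈ C.erase T, if ω c = z c then (1 : ℝ) else 0) := by
        rw [ex_succ]
        refine P.ex_mono (fun ω hω => ?_)
        have e : ∀ u ∈ box P.N, P.pr T ω u *
            (∏ c ∈ C, if Function.update ω T u c = z c then (1 : ℝ) else 0) =
            (if u = z T then P.pr T ω u else 0) *
              ∏ c ∈ C.erase T, if ω c = z c then (1 : ℝ) else 0 := by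
          intro u _
          rw [← Finset.mul_prod_erase C _ hT, Function.update_self]
          have : ∏ c ∈ C.erase T, (if Function.update ω T u c = z c then (1 : ℝ) else 0) =
              ∏ c ∈ C.erase T, if ω c = z c then (1 : ℝ) else 0 := by
            refine Finset.prod_congr rfl (fun c hc => ?_)
            rw [Function.update_of_ne (Finset.ne_of_mem_erase hc)]
          rw [this]
          split_ifs <;> ring
        rw [Finset.sum_congr rfl e, ← Finset.sum_mul]
        refine mul_le_mul_of_nonneg_right ?_ (Finset.prod_nonneg (fun c _ => by split_ifs <;> norm_num))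
        rw [Finset.sum_ite_eq']
        split_ifs
        · exact P.pr_le_om T ω (z T)
        · exact hq
      refine key.trans ?_
      rw [ex_const_mul, ← Finset.card_erase_add_one hT, pow_succ, mul_comm]
      exact mul_le_mul_of_nonneg_right (ih _ hC') hq
    · have hC' : ∀ c ∈ C, c < T := fun c hc => by
        have h1 := hC c hc
        have h2 : c ≠ T := fun h => hT (h ▸ hc)
        omega
      refine (P.ex_succ_le ?_ ?_).trans (ih C hC')
      · intro ω ω' h
        refine Finset.prod_congr rfl (fun c hc => ?_)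
        rw [h c (hC' c hc)]
      · intro ω _
        exact Finset.prod_nonneg (fun c _ => by split_ifs <;> norm_num)

/-- CRUDE with marks: the placed marks are at distinct vertices. -/
theorem crude_marks {ι : Type} [Fintype ι] (a : ι → Pt) (t : ι → ℕ) (pl : ι → Bool) (T : ℕ)
    (hinj : ∀ i j, pl i = true → pl j = true → t i = t j → i = j)
    (hT : ∀ i, pl i = true → t i < T) :
    P.ex T (fun ω => ∏ i, P.mv (a i) (t i) (pl i) ω) ≤
      P.om ^ (univ.filter (fun i => pl i = false)).card *
        (2 * P.om / P.V) ^ (univ.filter (fun i => pl i = true)).card := by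
  have hom := zero_lt_one.trans_le P.one_le_om
  set I := univ.filter (fun i => pl i = true) with hI
  have hmem : ∀ i, i ∈ I ↔ pl i = true := fun i => by simp [hI]
  let z : ℕ → Pt := fun c => if h : ∃ i, pl i = true ∧ t i = c then a h.choose else 0
  have hz : ∀ i ∈ I, z (t i) = a i := fun i hi => by
    have hex : ∃ j, pl j = true ∧ t j = t i := ⟨i, (hmem i).1 hi, rfl⟩
    show (if h : ∃ j, pl j = true ∧ t j = t i then a h.choose else 0) = a i
    rw [dif_pos hex, hinj _ _ hex.choose_spec.1 ((hmem i).1 hi) hex.choose_spec.2]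
  have hinj' : Set.InjOn t I := by
    intro i hi j hj hij
    exact hinj i j ((hmem i).1 hi) ((hmem j).1 hj) hij
  have hcard : (I.image t).card = I.card := Finset.card_image_of_injOn hinj'
  have hfil : univ.filter (fun i => pl i = false) = univ.filter (fun i => ¬ pl i = true) := by
    ext i; simp
  have key : ∀ ω, (∏ i, P.mv (a i) (t i) (pl i) ω) ≤
      P.om ^ (univ.filter (fun i => pl i = false)).card *
        ∏ c ∈ I.image t, if ω c = z c then (1 : ℝ) else 0 := by
    intro ω
    rw [← Finset.prod_filter_mul_prod_filter_not univ (fun i => pl i = true), ← hI, mul_comm,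
      ← hfil]
    refine mul_le_mul ?_ (le_of_eq ?_) ?_ (by positivity)
    · rw [← Finset.prod_const]
      refine Finset.prod_le_prod (fun i hi => ?_) (fun i hi => ?_)
      · rw [Finset.mem_filter] at hi
        unfold mv; rw [hi.2]; simpa using P.wa_nonneg (t i) ω (a i)
      · rw [Finset.mem_filter] at hi
        unfold mv; rw [hi.2]; simpa using P.wa_le_om (t i) ω (a i)
    · rw [Finset.prod_image (fun i hi j hj h => hinj' hi hj h)]
      refine Finset.prod_congr rfl (fun i hi => ?_)
      unfold mv
      rw [(hmem i).1 hi, hz i hi]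
      simp
    · refine Finset.prod_nonneg (fun i hi => ?_)
      unfold mv
      rw [(hmem i).1 hi]
      simp only [if_true]
      split_ifs <;> norm_num
  refine (P.ex_mono (fun ω _ => key ω)).trans ?_
  rw [ex_const_mul, ← hcard]
  refine mul_le_mul_of_nonneg_left (P.crude T (I.image t) ?_ z) (by positivity)
  intro c hc
  rw [Finset.mem_image] at hc
  obtain ⟨i, hi, rfl⟩ := hc
  exact hT i ((hmem i).1 hi)

end Params

end Pool.Agent.Grid3D
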