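import Pool.Agent.Grid3D.ProcStep

set_option autoImplicit false

open Classical Finset

noncomputable section

namespace Pool.Agent.Grid3D

/-! Symmetries of `Col` and `Cop` -/

theorem col_iff {p q r : Pt} : Col p q r ↔
    (q 1 - p 1) * (r 2 - p 2) - (q 2 - p 2) * (r 1 - p 1) = 0 ∧
    (q 2 - p 2) * (r 0 - p 0) - (q 0 - p 0) * (r 2 - p 2) = 0 ∧
    (q 0 - p 0) * (r 1 - p 1) - (q 1 - p 1) * (r 0 - p 0) = 0 := by
  unfold Col cross
  constructor
  · intro h
    have h0 := congrFun h 0
    have h1 := congrFun h 1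
    have h2 := congrFun h 2
    simp at h0 h1 h2
    exact ⟨h0, h1, h2⟩
  · rintro ⟨h0, h1, h2⟩
    funext i
    fin_cases i <;> simp [h0, h1, h2]

theorem col_swap {p q r : Pt} (h : Col p q r) : Col q p r := by
  rw [col_iff] at h ⊢
  obtain ⟨h0, h1, h2⟩ := h
  refine ⟨?_, ?_, ?_⟩
  · linear_combination -h0
  · linear_combination -h1
  · linear_combination -h2

theorem col_rot {p q r : Pt} (h : Col p q r) : Col q r p := by
  rw [col_iff] at h ⊢
  obtain ⟨h0, h1, h2⟩ := h
  refine ⟨?_, ?_, ?_⟩
  · linear_combination h0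
  · linear_combination h1
  · linear_combination h2

theorem cop_iff {p q r s : Pt} : Cop p q r s ↔
    (q 0 - p 0) * ((r 1 - p 1) * (s 2 - p 2) - (r 2 - p 2) * (s 1 - p 1)) +
    (q 1 - p 1) * ((r 2 - p 2) * (s 0 - p 0) - (r 0 - p 0) * (s 2 - p 2)) +
    (q 2 - p 2) * ((r 0 - p 0) * (s 1 - p 1) - (r 1 - p 1) * (s 0 - p 0)) = 0 := by
  unfold Cop dot cross
  simp

/-- swap the first two points -/
theorem cop_swap12 {p q r s : Pt} (h : Cop p q r s) : Cop q p r s := by
  rw [cop_iff] at h ⊢
  linear_combination -h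

/-- swap the second and the third point -/
theorem cop_swap23 {p q r s : Pt} (h : Cop p q r s) : Cop p r q s := by
  rw [cop_iff] at h ⊢
  linear_combination -h

/-- swap the last two points -/
theorem cop_swap34 {p q r s : Pt} (h : Cop p q r s) : Cop p q s r := by
  rw [cop_iff] at h ⊢
  linear_combination -h

namespace Params

variable (P : Params)

theorem not_cop_of_alive {n v b c d : ℕ} {ω : ℕ → Pt} (h : P.Alive n ω) (hv : v < n)
    (hb : b < v) (hc : c < v) (hd : d < v) (hbc : b ≠ c) (hbd : b ≠ d) (hcd : P.G.Adj c d) :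
    ¬ Cop (ω v) (ω b) (ω c) (ω d) := by
  have hact : ω v ∈ P.act v ω := P.act'_subset_act v ω (h v hv).2
  have hne : c ≠ d := hcd.ne
  have hbox : ∀ r < v, ω r ∈ box P.N := fun r hr => P.mem_box_of_alive h (hr.trans hv)
  rcases lt_trichotomy b c with h1 | h1 | h1
  · rcases lt_trichotomy c d with h2 | h2 | h2
    · -- d max
      intro hcop
      have := P.not_cop_of_mem_act hact hd (hbox d hd) (c := b) (d := c)
        ⟨h1.trans h2, h2, hbc, Or.inr (Or.inr hcd.symm)⟩
      exact this (cop_swap23 (cop_swap34 hcop))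
    · exact absurd h2 hne
    · -- c max
      intro hcop
      have := P.not_cop_of_mem_act hact hc (hbox c hc) (c := b) (d := d)
        ⟨h1, h2, hbd, Or.inr (Or.inr hcd)⟩
      exact this (cop_swap23 hcop)
  · exact absurd h1 hbc
  · rcases lt_trichotomy b d with h2 | h2 | h2
    · -- d max
      intro hcop
      have := P.not_cop_of_mem_act hact hd (hbox d hd) (c := b) (d := c)
        ⟨h2, h1.trans h2, hbc, Or.inr (Or.inr hcd.symm)⟩
      exact this (cop_swap23 (cop_swap34 hcop))
    · exact absurd h2 hbd
    · -- b max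
      exact P.not_cop_of_mem_act hact hb (hbox b hb) ⟨h1, h2, hne, Or.inl hcd⟩

/-- A completed run is a good placement. -/
theorem good_of_alive {n : ℕ} {ω : ℕ → Pt} (h : P.Alive n ω) : Good P.N n P.G ω := by
  have hne : ∀ u v, u < v → v < n → ω u ≠ ω v := fun u v huv hv =>
    P.ne_of_mem_act (P.act'_subset_act v ω (h v hv).2) huv
  have hcol : ∀ a b v, a < v → b < v → v < n → a ≠ b → ¬ Col (ω a) (ω b) (ω v) :=
    fun a b v ha hb hv hab => P.not_col_of_mem_act' (h v hv).2 ha hb hab
  constructor
  · exact fun v hv => P.mem_box_of_alive h hv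
  · intro u hu v hv e
    by_contra huv
    rcases lt_or_gt_of_ne huv with h1 | h1
    · exact hne u v h1 hv e
    · exact hne v u h1 hu e.symm
  · intro u hu v hv w hw huv hwu hwv hc
    have huv' : u ≠ v := huv.ne
    -- the last of the three
    rcases lt_or_gt_of_ne hwu with h1 | h1
    · rcases lt_or_gt_of_ne huv' with h2 | h2
      · -- v is last
        exact hcol w u v (h1.trans h2) h2 hv hwu (col_rot (col_rot hc))
      · -- u is last
        exact hcol v w u h2 h1 hu (fun e => hwv e.symm) (col_rot hc)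
    · rcases lt_or_gt_of_ne hwv with h2 | h2
      · -- v last
        exact hcol w u v h2 (h1.trans h2) hv hwu (col_rot (col_rot hc))
      · -- w last
        exact hcol u v w h1 h2 hw huv' hc
  · intro a ha b hb c hc d hd hab hcd hac had hbc hbd hcop
    have hab' : a ≠ b := hab.ne
    have hcd' : c ≠ d := hcd.ne
    -- the last of the four
    rcases lt_or_gt_of_ne hab' with h1 | h1
    · rcases lt_or_gt_of_ne hcd' with h2 | h2
      · rcases lt_or_gt_of_ne hbd with h3 | h3
        · -- d last
          exact P.not_cop_of_alive h hd h2 (h1.trans h3) h3 hac.symm hbc.symm hab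
            (cop_swap12 (cop_swap23 (cop_swap12 (cop_swap34 (cop_swap23 hcop)))))
        · -- b last
          exact P.not_cop_of_alive h hb h1 (h2.trans h3) h3 hac had hcd (cop_swap12 hcop)
      · rcases lt_or_gt_of_ne hbc with h3 | h3
        · -- c last
          exact P.not_cop_of_alive h hc h2 (h1.trans h3) h3 had.symm hbd.symm hab
            (cop_swap23 (cop_swap34 (cop_swap12 (cop_swap23 hcop))))
        · -- b last
          exact P.not_cop_of_alive h hb h1 h3 (h2.trans h3) hac had hcd (cop_swap12 hcop)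
    · rcases lt_or_gt_of_ne hcd' with h2 | h2
      · rcases lt_or_gt_of_ne had with h3 | h3
        · -- d last
          exact P.not_cop_of_alive h hd h2 h3 (h1.trans h3) hac.symm hbc.symm hab
            (cop_swap12 (cop_swap23 (cop_swap12 (cop_swap34 (cop_swap23 hcop)))))
        · -- a last
          exact P.not_cop_of_alive h ha h1 (h2.trans h3) h3 hbc hbd hcd hcop
      · rcases lt_or_gt_of_ne hac with h3 | h3
        · -- c last
          exact P.not_cop_of_alive h hc h2 h3 (h1.trans h3) had.symm hbd.symm hab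
            (cop_swap23 (cop_swap34 (cop_swap12 (cop_swap23 hcop))))
        · -- a last
          exact P.not_cop_of_alive h ha h1 h3 (h2.trans h3) hbc hbd hcd hcop

/-- (F4) If every point is abandoned with total weight at most `1/4`, some run completes,
and a completed run is a good placement. -/
theorem good_of_wab (n : ℕ)
    (hx : ∀ x ∈ box P.N, ∑ s ∈ range n, P.ex s (fun ω => P.wab s ω x) ≤ 1 / 4) :
    ∃ φ, Good P.N n P.G φ := by
  obtain ⟨ω, hω⟩ := P.alive_of_wab n hx
  exact ⟨ω, P.good_of_alive hω⟩

end Params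

end Pool.Agent.Grid3D
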