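import Pool.Agent.Grid3D.ProcStep

set_option autoImplicit false

open Classical Finset

noncomputable section

namespace Pool.Agent.Grid3D

namespace Params

variable (P : Params)

/-! ### The multi point inequality -/

theorem one_sub_sum_le_prod {ι : Type} (A : Finset ι) (q : ι → ℝ) (h0 : ∀ i ∈ A, 0 ≤ q i)
    (h1 : ∀ i ∈ A, q i ≤ 1) : 1 - ∑ i ∈ A, q i ≤ ∏ i ∈ A, (1 - q i) ∧
      ∏ i ∈ A, (1 - q i) ≤ 1 ∧ 0 ≤ ∏ i ∈ A, (1 - q i) := by
  induction A using Finset.induction_on with
  | empty => simp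
  | insert a A ha ih =>
    obtain ⟨i1, i2, i3⟩ := ih (fun i hi => h0 i (Finset.mem_insert_of_mem hi))
      (fun i hi => h1 i (Finset.mem_insert_of_mem hi))
    have g0 := h0 a (Finset.mem_insert_self a A)
    have g1 := h1 a (Finset.mem_insert_self a A)
    rw [Finset.sum_insert ha, Finset.prod_insert ha]
    refine ⟨?_, ?_, ?_⟩
    · nlinarith
    · nlinarith
    · exact mul_nonneg (by linarith) i3

/-- Bonferroni, pointwise: `1(c = 0) ≤ 1 - c + c(c-1)/2`. -/
theorem bonf_nat (c : ℕ) : (if c = 0 then (1 : ℝ) else 0) ≤ 1 - c + (c * c - c) / 2 := by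
  split_ifs with h
  · subst h; norm_num
  · rcases Nat.lt_or_ge c 2 with h2 | h2
    · have : c = 1 := by omega
      subst this; norm_num
    · have : (2 : ℝ) ≤ c := by exact_mod_cast h2
      nlinarith

/-- The no-kill probability. -/
theorem nokill_le {ι : Type} (A : Finset ι) (a : ι → Pt) (s : ℕ) (ω : ℕ → Pt) :
    ∑ u ∈ box P.N, P.pr s ω u * (if ∀ i ∈ A, u ∉ P.K s ω (a i) then 1 else 0) ≤
      1 - ∑ i ∈ A, P.p s ω (a i) +
        (∑ i ∈ A, ∑ j ∈ A, if i = j then 0 else P.p2 s ω (a i) (a j)) / 2 := by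
  set cnt : Pt → ℕ := fun u => (A.filter (fun i => u ∈ P.K s ω (a i))).card with hcnt
  have h1 : ∀ u ∈ box P.N, P.pr s ω u * (if ∀ i ∈ A, u ∉ P.K s ω (a i) then 1 else 0) ≤
      P.pr s ω u * (1 - cnt u + ((cnt u : ℝ) * cnt u - cnt u) / 2) := by
    intro u _
    refine mul_le_mul_of_nonneg_left ?_ (P.pr_nonneg s ω u)
    refine le_trans (le_of_eq ?_) (bonf_nat (cnt u))
    have : (∀ i ∈ A, u ∉ P.K s ω (a i)) ↔ cnt u = 0 := by
      rw [hcnt]
      simp only [Finset.card_eq_zero, Finset.filter_eq_empty_iff]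
    simp only [this]
  refine (Finset.sum_le_sum h1).trans ?_
  have hc : ∀ u, (cnt u : ℝ) = ∑ i ∈ A, if u ∈ P.K s ω (a i) then 1 else 0 := by
    intro u
    rw [hcnt]
    simp
  have hp : ∀ x, P.p s ω x = ∑ u ∈ box P.N, P.pr s ω u * (if u ∈ P.K s ω x then 1 else 0) := by
    intro x
    rw [p_def]
    simp only [mul_ite, mul_one, mul_zero]
    rw [← Finset.sum_filter]
    congr 1
    ext u
    rw [Finset.mem_filter]
    exact ⟨fun h => ⟨P.K_subset_box s ω x h, h⟩, fun h => h.2⟩
  have hp2 : ∀ x y, P.p2 s ω x y = ∑ u ∈ box P.N, P.pr s ω u *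
      ((if u ∈ P.K s ω x then 1 else 0) * (if u ∈ P.K s ω y then 1 else 0)) := by
    intro x y
    unfold p2
    have e : ∀ u ∈ box P.N, P.pr s ω u *
      ((if u ∈ P.K s ω x then 1 else 0) * (if u ∈ P.K s ω y then (1 : ℝ) else 0)) =
      if u ∈ P.K s ω x ∩ P.K s ω y then P.pr s ω u else 0 := by
      intro u _
      by_cases h1 : u ∈ P.K s ω x <;> by_cases h2 : u ∈ P.K s ω y <;> simp [h1, h2]
    rw [Finset.sum_congr rfl e, ← Finset.sum_filter]
    congr 1
    ext u
    rw [Finset.mem_filter]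
    exact ⟨fun h => ⟨P.K_subset_box s ω x (Finset.mem_inter.1 h).1, h⟩, fun h => h.2⟩
  have e1 : ∑ i ∈ A, P.p s ω (a i) = ∑ u ∈ box P.N, P.pr s ω u * cnt u := by
    rw [Finset.sum_congr rfl (fun i _ => hp (a i)), Finset.sum_comm]
    refine Finset.sum_congr rfl (fun u _ => ?_)
    rw [hc, Finset.mul_sum]
  have e2 : ∑ i ∈ A, ∑ j ∈ A, (if i = j then 0 else P.p2 s ω (a i) (a j)) =
      ∑ u ∈ box P.N, P.pr s ω u * ((cnt u : ℝ) * cnt u - cnt u) := by
    have : ∀ i ∈ A, ∑ j ∈ A, (if i = j then 0 else P.p2 s ω (a i) (a j)) =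
        ∑ j ∈ A, P.p2 s ω (a i) (a j) - P.p2 s ω (a i) (a i) := by
      intro i hi
      have h3 : ∀ j ∈ A, (if i = j then 0 else P.p2 s ω (a i) (a j)) =
          P.p2 s ω (a i) (a j) - if i = j then P.p2 s ω (a i) (a j) else 0 := by
        intro j _
        split_ifs <;> ring
      rw [Finset.sum_congr rfl h3, Finset.sum_sub_distrib, Finset.sum_ite_eq, if_pos hi]
    rw [Finset.sum_congr rfl this, Finset.sum_sub_distrib]
    have h4 : ∀ i ∈ A, P.p2 s ω (a i) (a i) = P.p s ω (a i) := by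
      intro i _
      unfold p2
      rw [Finset.inter_self, p_def]
    rw [Finset.sum_congr rfl h4, e1]
    have h5 : ∑ i ∈ A, ∑ j ∈ A, P.p2 s ω (a i) (a j) =
        ∑ u ∈ box P.N, P.pr s ω u * ((cnt u : ℝ) * cnt u) := by
      have : ∀ i ∈ A, ∑ j ∈ A, P.p2 s ω (a i) (a j) =
          ∑ u ∈ box P.N, P.pr s ω u * ((if u ∈ P.K s ω (a i) then 1 else 0) * (cnt u : ℝ)) := by
        intro i _
        rw [Finset.sum_congr rfl (fun j _ => hp2 (a i) (a j)), Finset.sum_comm]
        refine Finset.sum_congr rfl (fun u _ => ?_)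
        rw [← Finset.mul_sum, ← Finset.mul_sum, ← hc]
      rw [Finset.sum_congr rfl this, Finset.sum_comm]
      refine Finset.sum_congr rfl (fun u _ => ?_)
      rw [← Finset.mul_sum, ← Finset.sum_mul, ← hc]
    rw [h5, ← Finset.sum_sub_distrib]
    refine Finset.sum_congr rfl (fun u _ => ?_)
    ring
  rw [e1, e2]
  have e3 : ∑ u ∈ box P.N, P.pr s ω u * (1 - (cnt u : ℝ) + ((cnt u : ℝ) * cnt u - cnt u) / 2) =
      ∑ u ∈ box P.N, P.pr s ω u - ∑ u ∈ box P.N, P.pr s ω u * cnt u +
      (∑ u ∈ box P.N, P.pr s ω u * ((cnt u : ℝ) * cnt u - cnt u)) / 2 := by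
    rw [← Finset.sum_sub_distrib, Finset.sum_div, ← Finset.sum_add_distrib]
    refine Finset.sum_congr rfl (fun u _ => ?_)
    ring
  rw [e3]
  have := P.sum_pr_le_one s ω
  linarith

/-- One step of MP, no placed mark. -/
theorem step_eval {ι : Type} (A : Finset ι) (a : ι → Pt) (s : ℕ) (ω : ℕ → Pt)
    (hA : A.card ≤ 32) :
    ∑ u ∈ box P.N, P.pr s ω u * ∏ i ∈ A, P.wa (s + 1) (Function.update ω s u) (a i) ≤
      (∏ i ∈ A, P.wa s ω (a i)) *
        Real.exp (∑ i ∈ A, ∑ j ∈ A, if i = j then 0 else P.p2 s ω (a i) (a j)) := by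
  by_cases hall : ∀ i ∈ A, a i ∈ P.act' s ω
  · have hp : ∀ i ∈ A, P.p s ω (a i) ≤ 1 / 64 := fun i hi => P.p_le (hall i hi)
    have hp0 : ∀ i ∈ A, 0 ≤ P.p s ω (a i) := fun i _ => P.p_nonneg s ω (a i)
    have hS1 : ∑ i ∈ A, P.p s ω (a i) ≤ 1 / 2 := by
      refine (Finset.sum_le_sum hp).trans ?_
      rw [Finset.sum_const, nsmul_eq_mul]
      have : (A.card : ℝ) ≤ 32 := by exact_mod_cast hA
      linarith
    obtain ⟨q1, q2, q3⟩ := one_sub_sum_le_prod A (fun i => P.p s ω (a i)) hp0
      (fun i hi => (hp i hi).trans (by norm_num))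
    have hQ0 : 0 ≤ ∑ i ∈ A, ∑ j ∈ A, (if i = j then 0 else P.p2 s ω (a i) (a j)) :=
      Finset.sum_nonneg (fun i _ => Finset.sum_nonneg (fun j _ => by
        split_ifs
        · exact le_refl _
        · exact P.p2_nonneg _ _ _ _))
    set Q := ∑ i ∈ A, ∑ j ∈ A, (if i = j then 0 else P.p2 s ω (a i) (a j)) with hQ
    set S1 := ∑ i ∈ A, P.p s ω (a i) with hS
    set D := ∏ i ∈ A, (1 - P.p s ω (a i)) with hD
    have hDpos : 0 < D := by linarith
    have h1 : ∀ u ∈ box P.N, P.pr s ω u *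
        ∏ i ∈ A, P.wa (s + 1) (Function.update ω s u) (a i) =
        (∏ i ∈ A, P.wa' s ω (a i)) / D *
          (P.pr s ω u * (if ∀ i ∈ A, u ∉ P.K s ω (a i) then 1 else 0)) := by
      intro u _
      by_cases hk : ∀ i ∈ A, u ∉ P.K s ω (a i)
      · rw [if_pos hk]
        have : ∏ i ∈ A, P.wa (s + 1) (Function.update ω s u) (a i) =
            (∏ i ∈ A, P.wa' s ω (a i)) / D := by
          rw [hD, ← Finset.prod_div_distrib]
          refine Finset.prod_congr rfl (fun i hi => ?_)
          rw [wa_update, if_neg (hk i hi)]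
        rw [this]; ring
      · rw [if_neg hk]
        push Not at hk
        obtain ⟨i, hi, hki⟩ := hk
        have : ∏ i ∈ A, P.wa (s + 1) (Function.update ω s u) (a i) = 0 := by
          refine Finset.prod_eq_zero hi ?_
          rw [wa_update, if_pos hki]
        rw [this]; ring
    rw [Finset.sum_congr rfl h1, ← Finset.mul_sum]
    have h2 := P.nokill_le A a s ω
    rw [← hQ, ← hS] at h2
    have hwa : ∏ i ∈ A, P.wa' s ω (a i) = ∏ i ∈ A, P.wa s ω (a i) := by
      refine Finset.prod_congr rfl (fun i hi => ?_)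
      unfold wa' wa
      rw [if_pos (hall i hi), if_pos (P.act'_subset_act s ω (hall i hi))]
    have hprod : 0 ≤ ∏ i ∈ A, P.wa s ω (a i) := Finset.prod_nonneg (fun i _ => P.wa_nonneg s ω _)
    rw [hwa]
    calc (∏ i ∈ A, P.wa s ω (a i)) / D * _ ≤ (∏ i ∈ A, P.wa s ω (a i)) / D * (1 - S1 + Q / 2) :=
          mul_le_mul_of_nonneg_left h2 (div_nonneg hprod hDpos.le)
      _ = (∏ i ∈ A, P.wa s ω (a i)) * ((1 - S1 + Q / 2) / D) := by ring
      _ ≤ (∏ i ∈ A, P.wa s ω (a i)) * Real.exp Q := by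
          refine mul_le_mul_of_nonneg_left ?_ hprod
          rw [div_le_iff₀ hDpos]
          have h3 : 1 + Q ≤ Real.exp Q := by
            have := Real.add_one_le_exp Q
            linarith
          have h4 : (1 + Q) * (1 - S1) ≤ Real.exp Q * D :=
            mul_le_mul h3 q1 (by linarith) (Real.exp_pos _).le
          nlinarith
  · push Not at hall
    obtain ⟨i, hi, hia⟩ := hall
    have h0 : ∀ u ∈ box P.N, P.pr s ω u *
        ∏ i ∈ A, P.wa (s + 1) (Function.update ω s u) (a i) = 0 := by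
      intro u _
      have : ∏ i ∈ A, P.wa (s + 1) (Function.update ω s u) (a i) = 0 := by
        refine Finset.prod_eq_zero hi ?_
        rw [wa_update]
        unfold wa'
        rw [if_neg hia]
        simp
      rw [this, mul_zero]
    rw [Finset.sum_eq_zero h0]
    exact mul_nonneg (Finset.prod_nonneg (fun i _ => P.wa_nonneg s ω _)) (Real.exp_pos _).le

/-- One step of MP, placed mark at `b`. -/
theorem step_placed {ι : Type} (A : Finset ι) (a : ι → Pt) (s : ℕ) (ω : ℕ → Pt) (b : Pt)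
    (hA : A.card ≤ 32) :
    P.pr s ω b * ∏ i ∈ A, P.wa (s + 1) (Function.update ω s b) (a i) ≤
      4 / P.V * P.wa s ω b * ∏ i ∈ A, P.wa s ω (a i) := by
  have hV := P.V_pos
  have h1 : ∀ i ∈ A, P.wa (s + 1) (Function.update ω s b) (a i) ≤
      64 / 63 * P.wa s ω (a i) := by
    intro i _
    rw [wa_update]
    have h0 := P.wa_nonneg s ω (a i)
    split_ifs
    · positivity
    · by_cases hx : a i ∈ P.act' s ω
      · have hp := P.p_le hx
        have hw := P.wa'_le_wa s ω (a i)
        have hw0 := P.wa'_nonneg s ω (a i)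
        rw [div_le_iff₀ (by linarith)]
        nlinarith
      · have : P.wa' s ω (a i) = 0 := if_neg hx
        rw [this, zero_div]
        positivity
  have h2 : ∏ i ∈ A, P.wa (s + 1) (Function.update ω s b) (a i) ≤
      (64 / 63) ^ A.card * ∏ i ∈ A, P.wa s ω (a i) := by
    rw [← Finset.prod_const, ← Finset.prod_mul_distrib]
    exact Finset.prod_le_prod (fun i _ => P.wa_nonneg _ _ _) h1
  have h3 : (64 / 63 : ℝ) ^ A.card ≤ 2 := by
    calc (64 / 63 : ℝ) ^ A.card ≤ (64 / 63 : ℝ) ^ 32 := pow_le_pow_right₀ (by norm_num) hA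
      _ ≤ 2 := by norm_num
  have hprod : 0 ≤ ∏ i ∈ A, P.wa s ω (a i) := Finset.prod_nonneg (fun i _ => P.wa_nonneg s ω _)
  calc P.pr s ω b * ∏ i ∈ A, P.wa (s + 1) (Function.update ω s b) (a i)
      ≤ (2 / P.V * P.wa s ω b) * (2 * ∏ i ∈ A, P.wa s ω (a i)) := by
        refine mul_le_mul (P.pr_le_wa s ω b) (h2.trans ?_)
          (Finset.prod_nonneg (fun i _ => P.wa_nonneg _ _ _)) ?_
        · exact mul_le_mul_of_nonneg_right h3 hprod
        · exact mul_nonneg (by positivity) (P.wa_nonneg s ω b)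
    _ = 4 / P.V * P.wa s ω b * ∏ i ∈ A, P.wa s ω (a i) := by ring


/-- One step of MP, all cases. -/
theorem step_all {ι : Type} (A Dn : Finset ι) (a : ι → Pt) (ha : Function.Injective a) (s : ℕ)
    (ω : ℕ → Pt) (hA : A.card ≤ 32) :
    ∑ u ∈ box P.N, P.pr s ω u * ((∏ i ∈ A, P.wa (s + 1) (Function.update ω s u) (a i)) *
      ∏ i ∈ Dn, if u = a i then (1 : ℝ) else 0) ≤
      (4 / P.V) ^ Dn.card * ((∏ i ∈ Dn, P.wa s ω (a i)) * ∏ i ∈ A, P.wa s ω (a i)) *
        Real.exp (∑ i ∈ A, ∑ j ∈ A, if i = j then 0 else P.p2 s ω (a i) (a j)) := by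
  have hV := P.V_pos
  have hQ0 : 0 ≤ ∑ i ∈ A, ∑ j ∈ A, (if i = j then 0 else P.p2 s ω (a i) (a j)) :=
    Finset.sum_nonneg (fun i _ => Finset.sum_nonneg (fun j _ => by
      split_ifs
      · exact le_refl _
      · exact P.p2_nonneg _ _ _ _))
  have hexp : 1 ≤ Real.exp (∑ i ∈ A, ∑ j ∈ A, if i = j then 0 else P.p2 s ω (a i) (a j)) :=
    Real.one_le_exp hQ0
  have hprodA : 0 ≤ ∏ i ∈ A, P.wa s ω (a i) := Finset.prod_nonneg (fun i _ => P.wa_nonneg s ω _)
  have hprodD : 0 ≤ ∏ i ∈ Dn, P.wa s ω (a i) := Finset.prod_nonneg (fun i _ => P.wa_nonneg s ω _)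
  rcases Nat.lt_or_ge Dn.card 2 with hc | hc
  · rcases Nat.lt_or_ge Dn.card 1 with hc1 | hc1
    · have : Dn = ∅ := Finset.card_eq_zero.1 (by omega)
      subst this
      simp only [Finset.prod_empty, mul_one, Finset.card_empty, pow_zero, one_mul]
      exact P.step_eval A a s ω hA
    · obtain ⟨d, rfl⟩ := Finset.card_eq_one.1 (show Dn.card = 1 by omega)
      simp only [Finset.prod_singleton, Finset.card_singleton, pow_one]
      have h1 : ∀ u ∈ box P.N, P.pr s ω u * ((∏ i ∈ A, P.wa (s + 1) (Function.update ω s u) (a i)) *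
          if u = a d then (1 : ℝ) else 0) =
          if u = a d then P.pr s ω (a d) *
            ∏ i ∈ A, P.wa (s + 1) (Function.update ω s (a d)) (a i) else 0 := by
        intro u _
        split_ifs with h
        · rw [h]; ring
        · ring
      rw [Finset.sum_congr rfl h1, Finset.sum_ite_eq']
      have h2 : 0 ≤ 4 / P.V * (P.wa s ω (a d) * ∏ i ∈ A, P.wa s ω (a i)) :=
        mul_nonneg (by positivity) (mul_nonneg (P.wa_nonneg s ω _) hprodA)
      have h3 : 4 / P.V * (P.wa s ω (a d) * ∏ i ∈ A, P.wa s ω (a i)) ≤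
          4 / P.V * (P.wa s ω (a d) * ∏ i ∈ A, P.wa s ω (a i)) *
          Real.exp (∑ i ∈ A, ∑ j ∈ A, if i = j then 0 else P.p2 s ω (a i) (a j)) :=
        le_mul_of_one_le_right h2 hexp
      split_ifs
      · refine le_trans (P.step_placed A a s ω (a d) hA) (le_trans (le_of_eq ?_) h3)
        ring
      · exact h2.trans h3
  · have h0 : ∀ u, (∏ i ∈ Dn, if u = a i then (1 : ℝ) else 0) = 0 := by
      intro u
      obtain ⟨d, hd, d', hd', hne⟩ := Finset.one_lt_card.1 (show 1 < Dn.card by omega)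
      by_cases h : u = a d
      · refine Finset.prod_eq_zero hd' ?_
        rw [if_neg]
        intro h'
        exact hne (ha (h.symm.trans h'))
      · exact Finset.prod_eq_zero hd (if_neg h)
    simp only [h0, mul_zero, Finset.sum_const_zero]
    exact mul_nonneg (mul_nonneg (by positivity) (mul_nonneg hprodD hprodA)) (Real.exp_pos _).le

theorem mv_true (a : Pt) (t : ℕ) (ω : ℕ → Pt) :
    P.mv a t true ω = if ω t = a then 1 else 0 := by
  unfold mv
  rw [if_pos rfl]

theorem mv_false (a : Pt) (t : ℕ) (ω : ℕ → Pt) : P.mv a t false ω = P.wa t ω a := by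
  unfold mv
  rw [if_neg (by decide)]

theorem mv_nonneg (a : Pt) (t : ℕ) (pl : Bool) (ω : ℕ → Pt) : 0 ≤ P.mv a t pl ω := by
  cases pl
  · rw [mv_false]; exact P.wa_nonneg t ω a
  · rw [mv_true]; split_ifs <;> norm_num

/-- value of the mark `i` in the potential of time `s` -/
def val {ι : Type} (a : ι → Pt) (t : ι → ℕ) (pl : ι → Bool) (s : ℕ) (ω : ℕ → Pt) (i : ι) : ℝ :=
  if (pl i = true ∧ t i < s) ∨ (pl i = false ∧ t i ≤ s) then P.mv (a i) (t i) (pl i) ω
  else P.wa s ω (a i)

/-- the part of `Lam` before time `s` -/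
def LamS {ι : Type} [Fintype ι] (a : ι → Pt) (t : ι → ℕ) (s : ℕ) (ω : ℕ → Pt) : ℝ :=
  ∑ i, ∑ j, if i = j then 0 else
    ∑ r ∈ Finset.range (min s (min (t i) (t j))), P.p2 r ω (a i) (a j)

/-- the potential -/
def Pot {ι : Type} [Fintype ι] (a : ι → Pt) (t : ι → ℕ) (pl : ι → Bool) (s : ℕ)
    (ω : ℕ → Pt) : ℝ :=
  (∏ i, P.val a t pl s ω i) * Real.exp (-(P.LamS a t s ω)) *
    (4 / P.V) ^ (univ.filter (fun i => pl i = true ∧ s ≤ t i)).card

theorem pot_step {ι : Type} [Fintype ι] (a : ι → Pt) (ha : Function.Injective a) (t : ι → ℕ)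
    (pl : ι → Bool) (hcard : Fintype.card ι ≤ 32) (s : ℕ) (ω : ℕ → Pt) :
    ∑ u ∈ box P.N, P.pr s ω u * P.Pot a t pl (s + 1) (Function.update ω s u) ≤
      P.Pot a t pl s ω := by
  have hV := P.V_pos
  set A : Finset ι := univ.filter (fun i => s < t i) with hA
  set Dn : Finset ι := univ.filter (fun i => pl i = true ∧ t i = s) with hD
  set Rr : Finset ι := univ.filter (fun i => ¬ s < t i ∧ ¬ (pl i = true ∧ t i = s)) with hR
  have hAc : A.card ≤ 32 := (Finset.card_le_univ A).trans hcard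
  have hsplit : ∀ f : ι → ℝ, ∏ i, f i = (∏ i ∈ Rr, f i) * ((∏ i ∈ A, f i) * ∏ i ∈ Dn, f i) := by
    intro f
    have e1 := Finset.prod_filter_mul_prod_filter_not univ (fun i => s < t i) f
    have e2 := Finset.prod_filter_mul_prod_filter_not (univ.filter (fun i => ¬ s < t i))
      (fun i => pl i = true ∧ t i = s) f
    rw [Finset.filter_filter, Finset.filter_filter] at e2
    have e3 : univ.filter (fun i => ¬ s < t i ∧ (pl i = true ∧ t i = s)) = Dn := by
      rw [hD]
      ext i
      simp only [Finset.mem_filter, Finset.mem_univ, true_and]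
      constructor
      · exact fun h => h.2
      · intro h
        exact ⟨by omega, h⟩
    rw [e3] at e2
    rw [← e1, ← e2]
    ring
  have hvalR : ∀ u, ∀ i ∈ Rr, P.val a t pl (s + 1) (Function.update ω s u) i =
      P.val a t pl s ω i := by
    intro u i hi
    rw [hR, Finset.mem_filter] at hi
    obtain ⟨_, h1, h2⟩ := hi
    unfold val
    rcases Bool.eq_false_or_eq_true (pl i) with hp | hp
    · have ht : t i < s := by
        rcases lt_or_eq_of_le (not_lt.1 h1) with h | h
        · exact h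
        · exact absurd ⟨hp, h⟩ h2
      rw [if_pos (Or.inl ⟨hp, by omega⟩), if_pos (Or.inl ⟨hp, ht⟩), hp, mv_true, mv_true,
        Function.update_of_ne ht.ne]
    · have ht : t i ≤ s := not_lt.1 h1
      rw [if_pos (Or.inr ⟨hp, by omega⟩), if_pos (Or.inr ⟨hp, ht⟩), hp, mv_false, mv_false]
      exact (P.pred_wa (t i) (a i)).update ht ω u
  have hvalA : ∀ u, ∀ i ∈ A, P.val a t pl (s + 1) (Function.update ω s u) i =
      P.wa (s + 1) (Function.update ω s u) (a i) := by
    intro u i hi
    rw [hA, Finset.mem_filter] at hi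
    unfold val
    split_ifs with h
    · rcases h with h | h
      · omega
      · have : t i = s + 1 := by omega
        rw [h.1, this, mv_false]
    · rfl
  have hvalA' : ∀ i ∈ A, P.val a t pl s ω i = P.wa s ω (a i) := by
    intro i hi
    rw [hA, Finset.mem_filter] at hi
    unfold val
    rw [if_neg]
    rintro (h | h) <;> omega
  have hvalD : ∀ u, ∀ i ∈ Dn, P.val a t pl (s + 1) (Function.update ω s u) i =
      if u = a i then 1 else 0 := by
    intro u i hi
    rw [hD, Finset.mem_filter] at hi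
    unfold val
    rw [if_pos (Or.inl ⟨hi.2.1, by omega⟩), hi.2.1, hi.2.2, mv_true, Function.update_self]
  have hvalD' : ∀ i ∈ Dn, P.val a t pl s ω i = P.wa s ω (a i) := by
    intro i hi
    rw [hD, Finset.mem_filter] at hi
    unfold val
    rw [if_neg]
    rintro (h | h)
    · omega
    · rw [hi.2.1] at h
      exact absurd h.1 (by decide)
  set Q := ∑ i ∈ A, ∑ j ∈ A, (if i = j then 0 else P.p2 s ω (a i) (a j)) with hQ
  have hLam : ∀ u, P.LamS a t (s + 1) (Function.update ω s u) = P.LamS a t s ω + Q := by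
    intro u
    have hQ' : Q = ∑ i, ∑ j, if s < t i ∧ s < t j then
        (if i = j then 0 else P.p2 s ω (a i) (a j)) else 0 := by
      rw [hQ, hA, Finset.sum_filter]
      refine Finset.sum_congr rfl (fun i _ => ?_)
      rw [Finset.sum_filter]
      by_cases h : s < t i
      · simp [h]
      · simp [h]
    unfold LamS
    rw [hQ', ← Finset.sum_add_distrib]
    refine Finset.sum_congr rfl (fun i _ => ?_)
    rw [← Finset.sum_add_distrib]
    refine Finset.sum_congr rfl (fun j _ => ?_)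
    by_cases hij : i = j
    · simp [hij]
    · rw [if_neg hij, if_neg hij, if_neg hij]
      by_cases h : s < t i ∧ s < t j
      · rw [if_pos h]
        have e1 : min (s + 1) (min (t i) (t j)) = s + 1 := by omega
        have e2 : min s (min (t i) (t j)) = s := by omega
        rw [e1, e2, Finset.sum_range_succ]
        congr 1
        · refine Finset.sum_congr rfl (fun r hr => ?_)
          rw [Finset.mem_range] at hr
          exact (P.pred_p2 r (a i) (a j)).update hr.le ω u
        · exact (P.pred_p2 s (a i) (a j)).update le_rfl ω u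
      · rw [if_neg h, add_zero]
        have e1 : min (s + 1) (min (t i) (t j)) = min s (min (t i) (t j)) := by omega
        rw [e1]
        refine Finset.sum_congr rfl (fun r hr => ?_)
        rw [Finset.mem_range] at hr
        exact (P.pred_p2 r (a i) (a j)).update (by omega) ω u
  have hcardD : (univ.filter (fun i => pl i = true ∧ s ≤ t i)).card =
      Dn.card + (univ.filter (fun i => pl i = true ∧ s + 1 ≤ t i)).card := by
    rw [hD, ← Finset.card_union_of_disjoint]
    · congr 1
      ext i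
      simp only [Finset.mem_filter, Finset.mem_univ, true_and, Finset.mem_union]
      constructor
      · rintro ⟨h1, h2⟩
        rcases h2.eq_or_lt with h | h
        · exact Or.inl ⟨h1, h.symm⟩
        · exact Or.inr ⟨h1, h⟩
      · rintro (⟨h1, h2⟩ | ⟨h1, h2⟩)
        · exact ⟨h1, by omega⟩
        · exact ⟨h1, by omega⟩
    · rw [Finset.disjoint_left]
      intro i h1 h2
      rw [Finset.mem_filter] at h1 h2
      omega
  have hR0 : 0 ≤ ∏ i ∈ Rr, P.val a t pl s ω i := by
    refine Finset.prod_nonneg (fun i _ => ?_)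
    unfold val
    split_ifs
    · exact P.mv_nonneg _ _ _ _
    · exact P.wa_nonneg _ _ _
  set k' := (univ.filter (fun i => pl i = true ∧ s + 1 ≤ t i)).card with hk'
  have hterm : ∀ u ∈ box P.N, P.pr s ω u * P.Pot a t pl (s + 1) (Function.update ω s u) =
      ((∏ i ∈ Rr, P.val a t pl s ω i) * Real.exp (-(P.LamS a t s ω + Q)) * (4 / P.V) ^ k') *
        (P.pr s ω u * ((∏ i ∈ A, P.wa (s + 1) (Function.update ω s u) (a i)) *
          ∏ i ∈ Dn, if u = a i then (1 : ℝ) else 0)) := by
    intro u _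
    unfold Pot
    rw [hsplit, hLam, Finset.prod_congr rfl (hvalR u), Finset.prod_congr rfl (hvalA u),
      Finset.prod_congr rfl (hvalD u), ← hk']
    ring
  rw [Finset.sum_congr rfl hterm, ← Finset.mul_sum]
  have hstep := P.step_all A Dn a ha s ω hAc
  rw [← hQ] at hstep
  have hc0 : 0 ≤ (∏ i ∈ Rr, P.val a t pl s ω i) * Real.exp (-(P.LamS a t s ω + Q)) *
      (4 / P.V) ^ k' := mul_nonneg (mul_nonneg hR0 (Real.exp_pos _).le) (by positivity)
  refine (mul_le_mul_of_nonneg_left hstep hc0).trans (le_of_eq ?_)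
  unfold Pot
  rw [hsplit, Finset.prod_congr rfl hvalA', Finset.prod_congr rfl hvalD', hcardD, pow_add,
    neg_add, Real.exp_add, Real.exp_neg Q]
  have hE := (Real.exp_pos Q).ne'
  field_simp

/-- (MP) with constant `4` instead of `2.2`, for at most 32 marks. -/
theorem MP {ι : Type} [Fintype ι] (a : ι → Pt) (ha : Function.Injective a) (t : ι → ℕ)
    (pl : ι → Bool) (T : ℕ) (hcard : Fintype.card ι ≤ 32)
    (hT : ∀ i, t i ≤ T) (hT' : ∀ i, pl i = true → t i < T) :
    P.ex T (fun ω => (∏ i, P.mv (a i) (t i) (pl i) ω) * Real.exp (-(P.Lam a t ω))) ≤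
      (4 / P.V) ^ (univ.filter (fun i => pl i = true)).card := by
  have hV := P.V_pos
  have hdec : ∀ s, P.ex s (P.Pot a t pl s) ≤ P.ex 0 (P.Pot a t pl 0) := by
    intro s
    induction s with
    | zero => exact le_refl _
    | succ s ih =>
      refine le_trans ?_ ih
      rw [ex_succ]
      exact P.ex_mono (fun ω _ => P.pot_step a ha t pl hcard s ω)
  have h1 : P.ex T (fun ω => (∏ i, P.mv (a i) (t i) (pl i) ω) * Real.exp (-(P.Lam a t ω))) =
      P.ex T (P.Pot a t pl T) := by
    refine P.ex_congr (fun ω _ => ?_)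
    unfold Pot
    have e1 : ∀ i, P.val a t pl T ω i = P.mv (a i) (t i) (pl i) ω := by
      intro i
      unfold val
      rw [if_pos]
      rcases Bool.eq_false_or_eq_true (pl i) with hp | hp
      · exact Or.inl ⟨hp, hT' i hp⟩
      · exact Or.inr ⟨hp, hT i⟩
    have e2 : P.LamS a t T ω = P.Lam a t ω := by
      unfold LamS Lam
      refine Finset.sum_congr rfl (fun i _ => Finset.sum_congr rfl (fun j _ => ?_))
      have : min T (min (t i) (t j)) = min (t i) (t j) := by
        have := hT i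
        omega
      rw [this]
    have e3 : (univ.filter (fun i => pl i = true ∧ T ≤ t i)) = ∅ := by
      rw [Finset.filter_eq_empty_iff]
      rintro i _ ⟨h1, h2⟩
      have := hT' i h1
      omega
    rw [e2, e3, Finset.prod_congr rfl (fun i _ => e1 i)]
    simp
  rw [h1]
  refine (hdec T).trans ?_
  rw [ex_zero]
  unfold Pot
  have e1 : P.LamS a t 0 (fun _ => 0) = 0 := by
    unfold LamS
    simp
  have e2 : ∏ i, P.val a t pl 0 (fun _ => 0) i ≤ 1 := by
    refine Finset.prod_le_one (fun i _ => ?_) (fun i _ => ?_)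
    · unfold val
      split_ifs
      · exact P.mv_nonneg _ _ _ _
      · exact P.wa_nonneg _ _ _
    · have hwa : ∀ x, P.wa 0 (fun _ => 0) x ≤ 1 := by
        intro x
        unfold wa
        split_ifs
        · rw [w_zero]
        · norm_num
      unfold val
      split_ifs with h
      · rcases h with h | h
        · omega
        · have : t i = 0 := by omega
          rw [h.1, this, mv_false]
          exact hwa _
      · exact hwa _
  have e3 : (univ.filter (fun i => pl i = true ∧ 0 ≤ t i)) = univ.filter (fun i => pl i = true) := by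
    ext i; simp
  rw [e1, e3, neg_zero, Real.exp_zero, mul_one]
  exact mul_le_of_le_one_left (by positivity) e2

end Params

end Pool.Agent.Grid3D
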