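import Pool.Agent.Grid3D.ProcEx

set_option autoImplicit false

open Classical Finset

noncomputable section

namespace Pool.Agent.Grid3D

namespace Params

variable (P : Params)

/-! ### One step -/

/-- `w_s(x) 1(x ∈ Act'_s)` -/
def wa' (s : ℕ) (ω : ℕ → Pt) (x : Pt) : ℝ := if x ∈ P.act' s ω then P.w s ω x else 0

theorem wa_eq (s : ℕ) (ω : ℕ → Pt) (x : Pt) : P.wa s ω x = P.wa' s ω x + P.wab s ω x := by
  unfold wa wa' wab
  by_cases h1 : x ∈ P.act' s ω
  · have h2 := P.act'_subset_act s ω h1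
    simp [h1, h2]
  · by_cases h2 : x ∈ P.act s ω
    · simp [h1, h2]
    · simp [h1, h2]

theorem wa'_nonneg (s : ℕ) (ω : ℕ → Pt) (x : Pt) : 0 ≤ P.wa' s ω x := by
  unfold wa'
  split_ifs
  · exact P.w_nonneg s ω x
  · exact le_refl _

theorem wa'_le_wa (s : ℕ) (ω : ℕ → Pt) (x : Pt) : P.wa' s ω x ≤ P.wa s ω x := by
  have := P.wa_eq s ω x
  have := P.wab_nonneg s ω x
  linarith

theorem wa_update (s : ℕ) (ω : ℕ → Pt) (x u : Pt) :
    P.wa (s + 1) (Function.update ω s u) x =
      if u ∈ P.K s ω x then 0 else P.wa' s ω x / (1 - P.p s ω x) := by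
  have h1 := (P.pred_act' s).update le_rfl ω u
  have h2 := (P.pred_K s x).update le_rfl ω u
  have h3 := (P.pred_w s x).update le_rfl ω u
  have h4 := (P.pred_p s x).update le_rfl ω u
  by_cases hm : x ∈ P.act (s + 1) (Function.update ω s u)
  · rw [P.wa_of_mem hm, P.w_succ_of_mem hm, h3, h4]
    rw [mem_act_succ, h1, h2, Function.update_self] at hm
    rw [if_neg hm.2]
    unfold wa'
    rw [if_pos hm.1]
  · rw [P.wa_of_notMem hm]
    rw [mem_act_succ, h1, h2, Function.update_self] at hm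
    by_cases hk : u ∈ P.K s ω x
    · rw [if_pos hk]
    · rw [if_neg hk]
      unfold wa'
      rw [if_neg (fun h => hm ⟨h, hk⟩), zero_div]

theorem sum_pr_wa (s : ℕ) (ω : ℕ → Pt) (x : Pt) :
    ∑ u ∈ box P.N, P.pr s ω u * P.wa (s + 1) (Function.update ω s u) x =
      P.wa' s ω x / (1 - P.p s ω x) * (∑ u ∈ box P.N, P.pr s ω u - P.p s ω x) := by
  have h : ∀ u ∈ box P.N, P.pr s ω u * P.wa (s + 1) (Function.update ω s u) x =
      P.wa' s ω x / (1 - P.p s ω x) *
        (P.pr s ω u - if u ∈ P.K s ω x then P.pr s ω u else 0) := by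
    intro u _
    rw [wa_update]
    split_ifs <;> ring
  rw [Finset.sum_congr rfl h, ← Finset.mul_sum, Finset.sum_sub_distrib, p_def]
  congr 2
  rw [← Finset.sum_filter]
  congr 1
  ext u
  rw [Finset.mem_filter]
  exact ⟨fun h => h.2, fun h => ⟨P.K_subset_box s ω x h, h⟩⟩

/-- (F2) the martingale property on runs that do not stop -/
theorem sum_pr_wa_of_go {s : ℕ} {ω : ℕ → Pt} (h : P.go s ω) (x : Pt) :
    ∑ u ∈ box P.N, P.pr s ω u * P.wa (s + 1) (Function.update ω s u) x = P.wa' s ω x := by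
  rw [sum_pr_wa, P.sum_pr_of_go h]
  by_cases hx : x ∈ P.act' s ω
  · have := P.p_le hx
    rw [div_mul_cancel₀]
    linarith
  · have : P.wa' s ω x = 0 := if_neg hx
    rw [this]; simp

theorem sum_pr_wa_of_not_go {s : ℕ} {ω : ℕ → Pt} (h : ¬ P.go s ω) (f : Pt → ℝ) :
    ∑ u ∈ box P.N, P.pr s ω u * f u = 0 := by
  refine Finset.sum_eq_zero (fun u _ => ?_)
  rw [pr_def, if_neg (fun h' => h h'.1), zero_mul]

theorem sum_pr_wa_le (s : ℕ) (ω : ℕ → Pt) (x : Pt) :
    ∑ u ∈ box P.N, P.pr s ω u * P.wa (s + 1) (Function.update ω s u) x ≤ P.wa' s ω x := by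
  by_cases h : P.go s ω
  · exact (P.sum_pr_wa_of_go h x).le
  · rw [P.sum_pr_wa_of_not_go h]
    exact P.wa'_nonneg s ω x

/-! ### The abandonment identity -/

theorem pred_wa' (s : ℕ) (x : Pt) : Pred s (fun ω => P.wa' s ω x) := fun ω ω' h => by
  have e1 := P.pred_w s x ω ω' h
  have e3 := P.pred_act' s ω ω' h
  simp only at e1 e3
  simp only [wa', e1, e3]

theorem ex_wa_succ_le {s : ℕ} {x : Pt} {Y : (ℕ → Pt) → ℝ} (hY : Pred s Y)
    (hY0 : ∀ ω, P.Alive s ω → 0 ≤ Y ω) :
    P.ex (s + 1) (fun ω => P.wa (s + 1) ω x * Y ω) ≤ P.ex s (fun ω => P.wa' s ω x * Y ω) := by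
  rw [ex_succ]
  refine P.ex_mono (fun ω hω => ?_)
  have h : ∀ u ∈ box P.N, P.pr s ω u * (P.wa (s + 1) (Function.update ω s u) x *
      Y (Function.update ω s u)) =
      P.pr s ω u * P.wa (s + 1) (Function.update ω s u) x * Y ω := by
    intro u _
    rw [hY.update le_rfl, mul_assoc]
  rw [Finset.sum_congr rfl h, ← Finset.sum_mul]
  exact mul_le_mul_of_nonneg_right (P.sum_pr_wa_le s ω x) (hY0 ω hω)

/-- For nonnegative predictable increments `y_s` and `Y_s = Σ_{r ≤ s} y_r`:
`E[w_τ(x) Y_τ] ≤ Σ_s E[w_s(x) 1(x ∈ Act_s) y_s]`. -/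
theorem aband_le (n : ℕ) (x : Pt) (y : ℕ → (ℕ → Pt) → ℝ) (hy : ∀ s, Pred s (y s))
    (hy0 : ∀ s ω, P.Alive s ω → 0 ≤ y s ω) :
    ∑ s ∈ range n, P.ex s (fun ω => P.wab s ω x * ∑ r ∈ range (s + 1), y r ω) ≤
      ∑ s ∈ range n, P.ex s (fun ω => P.wa s ω x * y s ω) := by
  -- stronger: add the mass still active
  have hpred : ∀ s, Pred s (fun ω => ∑ r ∈ range (s + 1), y r ω) := by
    intro s ω ω' h
    refine Finset.sum_congr rfl (fun r hr => ?_)
    rw [Finset.mem_range] at hr
    exact hy r ω ω' (fun i hi => h i (by omega))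
  have hnn : ∀ s ω, P.Alive s ω → 0 ≤ ∑ r ∈ range (s + 1), y r ω := by
    intro s ω hω
    refine Finset.sum_nonneg (fun r hr => ?_)
    rw [Finset.mem_range] at hr
    exact hy0 r ω (P.alive_mono (by omega) hω)
  suffices H : ∀ n, ∑ s ∈ range (n + 1), P.ex s (fun ω => P.wab s ω x * ∑ r ∈ range (s + 1), y r ω) +
      P.ex n (fun ω => P.wa' n ω x * ∑ r ∈ range (n + 1), y r ω) ≤
      ∑ s ∈ range (n + 1), P.ex s (fun ω => P.wa s ω x * y s ω) by
    rcases n with _ | n
    · simp
    · have h1 := H n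
      have h2 : 0 ≤ P.ex n (fun ω => P.wa' n ω x * ∑ r ∈ range (n + 1), y r ω) :=
        P.ex_nonneg (fun ω hω => mul_nonneg (P.wa'_nonneg _ _ _) (hnn n ω hω))
      linarith
  intro n
  induction n with
  | zero =>
    simp only [zero_add, Finset.sum_range_one]
    rw [← ex_add]
    refine le_of_eq (P.ex_congr (fun ω _ => ?_))
    rw [P.wa_eq]; ring
  | succ n ih =>
    rw [Finset.sum_range_succ _ (n + 1), Finset.sum_range_succ _ (n + 1)]
    have h1 : P.ex (n + 1) (fun ω => P.wab (n + 1) ω x * ∑ r ∈ range (n + 1 + 1), y r ω) +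
        P.ex (n + 1) (fun ω => P.wa' (n + 1) ω x * ∑ r ∈ range (n + 1 + 1), y r ω) =
        P.ex (n + 1) (fun ω => P.wa (n + 1) ω x * ∑ r ∈ range (n + 1), y r ω) +
        P.ex (n + 1) (fun ω => P.wa (n + 1) ω x * y (n + 1) ω) := by
      rw [← ex_add, ← ex_add]
      refine P.ex_congr (fun ω _ => ?_)
      rw [P.wa_eq, Finset.sum_range_succ _ (n + 1)]; ring
    have h2 : P.ex (n + 1) (fun ω => P.wa (n + 1) ω x * ∑ r ∈ range (n + 1), y r ω) ≤
        P.ex n (fun ω => P.wa' n ω x * ∑ r ∈ range (n + 1), y r ω) :=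
      P.ex_wa_succ_le (hpred n) (hnn n)
    linarith

/-- Splitting by the rule that fires. -/
theorem wab_le_rules (s : ℕ) (ω : ℕ → Pt) (x : Pt) :
    P.wab s ω x ≤
      P.wab s ω x * (if P.A5 s ω x then 1 else 0) +
      P.wab s ω x * (if P.A4 s ω x ∧ ¬ P.A5 s ω x then 1 else 0) +
      P.wab s ω x * (if P.A1 s ω x then 1 else 0) +
      P.wab s ω x * (if P.A2 s ω x then 1 else 0) := by
  have h0 := P.wab_nonneg s ω x
  by_cases h : P.A5 s ω x ∨ P.A4 s ω x ∨ P.A1 s ω x ∨ P.A2 s ω x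
  · have e1 : 0 ≤ P.wab s ω x * (if P.A5 s ω x then 1 else 0) :=
      mul_nonneg h0 (by split_ifs <;> norm_num)
    have e2 : 0 ≤ P.wab s ω x * (if P.A4 s ω x ∧ ¬ P.A5 s ω x then 1 else 0) :=
      mul_nonneg h0 (by split_ifs <;> norm_num)
    have e3 : 0 ≤ P.wab s ω x * (if P.A1 s ω x then 1 else 0) :=
      mul_nonneg h0 (by split_ifs <;> norm_num)
    have e4 : 0 ≤ P.wab s ω x * (if P.A2 s ω x then 1 else 0) :=
      mul_nonneg h0 (by split_ifs <;> norm_num)
    by_cases h5 : P.A5 s ω x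
    · simp only [h5, if_true, mul_one] at *
      linarith
    · rcases h with h | h | h | h
      · exact absurd h h5
      · have e2' : P.wab s ω x * (if P.A4 s ω x ∧ ¬ P.A5 s ω x then 1 else 0) = P.wab s ω x := by
          rw [if_pos ⟨h, h5⟩, mul_one]
        linarith
      · have e2' : P.wab s ω x * (if P.A1 s ω x then 1 else 0) = P.wab s ω x := by
          rw [if_pos h, mul_one]
        linarith
      · have e2' : P.wab s ω x * (if P.A2 s ω x then 1 else 0) = P.wab s ω x := by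
          rw [if_pos h, mul_one]
        linarith
  · push Not at h
    have : P.wab s ω x = 0 := by
      unfold wab
      rw [if_neg]
      rintro ⟨h1, h2⟩
      exact h2 (P.mem_act'.2 ⟨h1, h.2.2.1, h.2.2.2, h.2.1, h.1⟩)
    rw [this]; simp

/-! ### (F4) -/

theorem ex_split_go (s : ℕ) (F : (ℕ → Pt) → ℝ) :
    P.ex s F = P.ex s (fun ω => if P.go s ω then F ω else 0) +
      P.ex s (fun ω => if P.go s ω then 0 else F ω) := by
  rw [← ex_add]
  refine P.ex_congr (fun ω _ => ?_)
  split_ifs <;> ring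

theorem mass_cons (n : ℕ) :
    ∑ s ∈ range n, P.ex s (fun ω => if P.go s ω then 0 else 1) + P.ex n (fun _ => 1) = 1 := by
  induction n with
  | zero => simp [ex_zero]
  | succ n ih =>
    rw [Finset.sum_range_succ]
    have h : P.ex (n + 1) (fun _ => 1) = P.ex n (fun ω => if P.go n ω then 1 else 0) := by
      rw [ex_succ]
      refine P.ex_congr (fun ω _ => ?_)
      simp only [mul_one]
      split_ifs with hg
      · exact P.sum_pr_of_go hg
      · exact P.sum_pr_of_not_go hg
    have h2 := P.ex_split_go n (fun _ => 1)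
    rw [h]
    linarith

theorem weight_cons (n : ℕ) {x : Pt} (hx : x ∈ box P.N) :
    ∑ s ∈ range n, P.ex s (fun ω => P.wab s ω x) +
      ∑ s ∈ range n, P.ex s (fun ω => if P.go s ω then 0 else P.wa' s ω x) +
      P.ex n (fun ω => P.wa n ω x) = 1 := by
  induction n with
  | zero =>
    simp only [Finset.range_zero, Finset.sum_empty, zero_add, ex_zero]
    unfold wa
    rw [act_zero, if_pos hx, w_zero]
  | succ n ih =>
    rw [Finset.sum_range_succ, Finset.sum_range_succ]
    have h : P.ex (n + 1) (fun ω => P.wa (n + 1) ω x) =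
        P.ex n (fun ω => if P.go n ω then P.wa' n ω x else 0) := by
      rw [ex_succ]
      refine P.ex_congr (fun ω _ => ?_)
      split_ifs with hg
      · exact P.sum_pr_wa_of_go hg x
      · exact P.sum_pr_wa_of_not_go hg _
    have h2 := P.ex_split_go n (fun ω => P.wa' n ω x)
    have h3 : P.ex n (fun ω => P.wa n ω x) =
        P.ex n (fun ω => P.wa' n ω x) + P.ex n (fun ω => P.wab n ω x) := by
      rw [← ex_add]
      exact P.ex_congr (fun ω _ => P.wa_eq n ω x)
    rw [h]
    linarith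

theorem card_box (N : ℕ) : ((box N).card : ℝ) = (N : ℝ) ^ 3 := by
  unfold box
  rw [Fintype.card_piFinset]
  simp

/-- If every point is abandoned with total weight at most `1/4`, some run completes. -/
theorem alive_of_wab (n : ℕ)
    (hx : ∀ x ∈ box P.N, ∑ s ∈ range n, P.ex s (fun ω => P.wab s ω x) ≤ 1 / 4) :
    ∃ ω, P.Alive n ω := by
  apply P.exists_alive
  intro h0
  have hV := P.V_pos
  -- sum over x
  have h1 : ∑ x ∈ box P.N, (∑ s ∈ range n, P.ex s (fun ω => P.wab s ω x) +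
      ∑ s ∈ range n, P.ex s (fun ω => if P.go s ω then 0 else P.wa' s ω x) +
      P.ex n (fun ω => P.wa n ω x)) = P.V := by
    rw [Finset.sum_congr rfl (fun x hx => P.weight_cons n hx), Finset.sum_const, nsmul_eq_mul,
      mul_one, card_box]
    rfl
  have h2 : ∑ x ∈ box P.N, ∑ s ∈ range n, P.ex s (fun ω => P.wab s ω x) ≤ P.V * (1 / 4) := by
    refine (Finset.sum_le_sum hx).trans ?_
    rw [Finset.sum_const, nsmul_eq_mul, card_box]
    exact le_refl _
  have h3 : ∑ x ∈ box P.N, ∑ s ∈ range n,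
      P.ex s (fun ω => if P.go s ω then 0 else P.wa' s ω x) ≤ P.V / 2 := by
    rw [Finset.sum_comm]
    have : ∀ s ∈ range n, ∑ x ∈ box P.N, P.ex s (fun ω => if P.go s ω then 0 else P.wa' s ω x) ≤
        P.V / 2 * P.ex s (fun ω => if P.go s ω then 0 else 1) := by
      intro s _
      rw [← ex_sum, ← ex_const_mul]
      refine P.ex_mono (fun ω _ => ?_)
      split_ifs with hg
      · simp
      · rw [mul_one]
        have e : ∑ x ∈ box P.N, P.wa' s ω x = P.W s ω := by
          rw [W_def]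
          unfold wa'
          rw [← Finset.sum_filter]
          congr 1
          ext u
          rw [Finset.mem_filter]
          exact ⟨fun h => h.2, fun h => ⟨P.act_subset_box s ω (P.act'_subset_act s ω h), h⟩⟩
        rw [e]
        unfold go at hg
        exact (not_le.1 hg).le
    refine (Finset.sum_le_sum this).trans ?_
    rw [← Finset.mul_sum]
    have hm := P.mass_cons n
    have : ∑ s ∈ range n, P.ex s (fun ω => if P.go s ω then 0 else 1) ≤ 1 := by
      have := P.ex_nonneg (s := n) (F := fun _ => 1) (fun _ _ => zero_le_one)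
      linarith
    calc P.V / 2 * _ ≤ P.V / 2 * 1 := mul_le_mul_of_nonneg_left this (by positivity)
      _ = P.V / 2 := mul_one _
  have h4 : ∑ x ∈ box P.N, P.ex n (fun ω => P.wa n ω x) ≤ 0 := by
    refine Finset.sum_nonpos (fun x _ => ?_)
    have : P.ex n (fun ω => P.wa n ω x) ≤ P.ex n (fun _ => P.om * 1) :=
      P.ex_mono (fun ω _ => by rw [mul_one]; exact P.wa_le_om n ω x)
    rw [P.ex_const_mul, h0, mul_zero] at this
    exact this
  rw [Finset.sum_add_distrib, Finset.sum_add_distrib] at h1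
  linarith

end Params

end Pool.Agent.Grid3D
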