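import Pool.Agent.Grid3D.ProcGood
import Pool.Agent.Grid3D.ProcMP

/-!
# Regime 1: facts about the process (F1–F4, CRUDE, MP, the abandonment identity)

* `ProcBasic`: predictability, recursion, positivity, (F1), (F3)
* `ProcEx`: the functional `ex`, `crude`, `crude_marks`
* `ProcStep`: one step identities (F2), `aband_le`, `wab_le_rules`, `alive_of_wab`
* `ProcGood`: `good_of_alive`, `good_of_wab` (F4)
* `ProcMP`: the multi point inequality `MP`
-/

set_option autoImplicit false

namespace Pool.Agent.Grid3D

namespace Params

variable (P : Params)

theorem pred_adm_K (s : ℕ) (x : Pt) : Pred s (fun ω => P.K s ω x) := P.pred_K s x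

end Params

end Pool.Agent.Grid3D
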