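import Pool.Agent.Grid3D.Basic

/-!
# Regime 1: the weighted random greedy process

A *path* is a function `ω : ℕ → Pt` (`ω s` = position of vertex `s`; vertices are `0,1,2,…`,
the graph is a `SimpleGraph ℕ`).  Every quantity at time `s` is a function of `ω` that only reads
`ω 0, …, ω (s-1)` (predicate `Pred s`).

* `P.w s ω x`     weight of `x` at time `s`         (`s` vertices are placed)
* `P.act s ω`     active points before the check
* `P.act' s ω`    active points after the check of step `s`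
* `P.pr s ω u`    probability that vertex `s` is put at `u` (all zero if the run stops at time `s`)
* `P.ex s F`      = sum over all paths of length `s` of (probability) * `F path`
                  (a SUB-probability: runs stopped before time `s` have disappeared)
-/

set_option autoImplicit false

open Classical

noncomputable section

namespace Pool.Agent.Grid3D

/-- Parameters: box side `N`, graph `G`, bound `M` for the normals of small planes,
threshold `A` (`= κ₁ log N`) of rule (A1), threshold `κ` of rule (A2). -/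
structure Params where
  N : ℕ
  G : SimpleGraph ℕ
  M : ℕ
  A : ℝ
  κ : ℝ
  hN : 0 < N
  hA : 0 ≤ A

/-- State of the process: weights, active set, accumulated hazards of points and of planes. -/
structure St where
  w : Pt → ℝ
  act : Finset Pt
  acc : Pt → ℝ
  accP : Pt → ℤ → ℝ

/-- `F` only reads the first `s` coordinates of the path. -/
def Pred {β : Sort*} (s : ℕ) (F : (ℕ → Pt) → β) : Prop :=
  ∀ ω ω' : ℕ → Pt, (∀ i < s, ω i = ω' i) → F ω = F ω'

namespace Params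

variable (P : Params)

/-- number of points of the box -/
def V : ℝ := (P.N : ℝ) ^ 3

/-- the bound for the weights, `exp (2A) = N^{2κ₁}` -/
def om : ℝ := Real.exp (2 * P.A)

/-- `{c,d}` is an admissible pair at step `s` (when vertex `s` is about to be placed). -/
def adm (s c d : ℕ) : Prop :=
  c < s ∧ d < s ∧ c ≠ d ∧ (P.G.Adj c d ∨ P.G.Adj s c ∨ P.G.Adj s d)

/-- `K_s(x)`: the positions of vertex `s` that kill `x`. -/
def K (s : ℕ) (ω : ℕ → Pt) (x : Pt) : Finset Pt :=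
  (box P.N).filter (fun u => u = x ∨ ∃ c d, P.adm s c d ∧ Cop x u (ω c) (ω d))

/-- the plane `{m·y = c}` contains an admissible pair at step `s` -/
def admP (s : ℕ) (ω : ℕ → Pt) (m : Pt) (c : ℤ) : Prop :=
  ∃ a b, P.adm s a b ∧ dot m (ω a) = c ∧ dot m (ω b) = c

/-- `phat_s(x)` computed from a state -/
def phS (σ : St) (s : ℕ) (ω : ℕ → Pt) (x : Pt) : ℝ :=
  2 / P.V * ∑ u ∈ σ.act ∩ P.K s ω x, σ.w u

/-- `phat_s(plane m c)` computed from a state -/
def phPS (σ : St) (s : ℕ) (ω : ℕ → Pt) (m : Pt) (c : ℤ) : ℝ :=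
  if P.admP s ω m c then 2 / P.V * ∑ u ∈ σ.act.filter (fun u => dot m u = c), σ.w u else 0

/-- the points that pass the check of step `s` -/
def okS (σ : St) (s : ℕ) (ω : ℕ → Pt) (x : Pt) : Prop :=
  σ.acc x + P.phS σ s ω x ≤ P.A ∧
  (∀ m ∈ normals P.M, σ.accP m (dot m x) + P.phPS σ s ω m (dot m x) ≤ P.κ) ∧
  P.phS σ s ω x ≤ 1 / 64 ∧
  (∀ c < s, ∀ d < s, c ≠ d → ¬ Col (ω c) (ω d) x)

def actS' (σ : St) (s : ℕ) (ω : ℕ → Pt) : Finset Pt := σ.act.filter (fun x => P.okS σ s ω x)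

def WS (σ : St) (s : ℕ) (ω : ℕ → Pt) : ℝ := ∑ x ∈ P.actS' σ s ω, σ.w x

def prS (σ : St) (s : ℕ) (ω : ℕ → Pt) (u : Pt) : ℝ :=
  if P.V / 2 ≤ P.WS σ s ω ∧ u ∈ P.actS' σ s ω then σ.w u / P.WS σ s ω else 0

def pS (σ : St) (s : ℕ) (ω : ℕ → Pt) (x : Pt) : ℝ := ∑ u ∈ P.K s ω x, P.prS σ s ω u

/-- The state at time `s` along the path `ω`. -/
def st (ω : ℕ → Pt) : ℕ → St
  | 0 => { w := fun _ => 1, act := box P.N, acc := fun _ => 0, accP := fun _ _ => 0 }
  | s + 1 =>
    { w := fun x =>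
        if x ∈ P.actS' (st ω s) s ω then
          (if ω s ∈ P.K s ω x then 0 else (st ω s).w x / (1 - P.pS (st ω s) s ω x))
        else (st ω s).w x
      act := (P.actS' (st ω s) s ω).filter (fun x => ω s ∉ P.K s ω x)
      acc := fun x => (st ω s).acc x + P.phS (st ω s) s ω x
      accP := fun m c => (st ω s).accP m c + P.phPS (st ω s) s ω m c }

/-! ### The quantities used everywhere -/

/-- weight `w_s(x)` -/
def w (s : ℕ) (ω : ℕ → Pt) (x : Pt) : ℝ := (P.st ω s).w x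
/-- active set before the check of step `s` -/
def act (s : ℕ) (ω : ℕ → Pt) : Finset Pt := (P.st ω s).act
/-- active set after the check of step `s` -/
def act' (s : ℕ) (ω : ℕ → Pt) : Finset Pt := P.actS' (P.st ω s) s ω
/-- `W_s = w_s(Act'_s)` -/
def W (s : ℕ) (ω : ℕ → Pt) : ℝ := P.WS (P.st ω s) s ω
/-- `phat_s(x)` -/
def ph (s : ℕ) (ω : ℕ → Pt) (x : Pt) : ℝ := P.phS (P.st ω s) s ω x
/-- `phat_s(π)` for the plane `m·y = c` -/
def phP (s : ℕ) (ω : ℕ → Pt) (m : Pt) (c : ℤ) : ℝ := P.phPS (P.st ω s) s ω m c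
/-- transition probabilities (all zero if the run stops at time `s`, i.e. if `W_s < V/2`) -/
def pr (s : ℕ) (ω : ℕ → Pt) (u : Pt) : ℝ := P.prS (P.st ω s) s ω u
/-- `p_s(x)` = probability that step `s` kills `x` -/
def p (s : ℕ) (ω : ℕ → Pt) (x : Pt) : ℝ := P.pS (P.st ω s) s ω x
/-- `p_s(a,b)` = probability that step `s` kills both `a` and `b` -/
def p2 (s : ℕ) (ω : ℕ → Pt) (a b : Pt) : ℝ := ∑ u ∈ P.K s ω a ∩ P.K s ω b, P.pr s ω u
/-- the run does not stop at time `s` -/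
def go (s : ℕ) (ω : ℕ → Pt) : Prop := P.V / 2 ≤ P.W s ω

/-- `w_s(x) 1(x ∈ Act_s)` -/
def wa (s : ℕ) (ω : ℕ → Pt) (x : Pt) : ℝ := if x ∈ P.act s ω then P.w s ω x else 0

/-- `w_s(x) 1(x ∈ Act_s \ Act'_s)` : `x` is abandoned by the check of step `s` -/
def wab (s : ℕ) (ω : ℕ → Pt) (x : Pt) : ℝ :=
  if x ∈ P.act s ω ∧ x ∉ P.act' s ω then P.w s ω x else 0

/-- rule (A1) fires -/
def A1 (s : ℕ) (ω : ℕ → Pt) (x : Pt) : Prop := P.A < ∑ r ∈ Finset.range (s + 1), P.ph r ω x
/-- rule (A2) fires -/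
def A2 (s : ℕ) (ω : ℕ → Pt) (x : Pt) : Prop :=
  ∃ m ∈ normals P.M, P.κ < ∑ r ∈ Finset.range (s + 1), P.phP r ω m (dot m x)
/-- rule (A4) fires -/
def A4 (s : ℕ) (ω : ℕ → Pt) (x : Pt) : Prop := 1 / 64 < P.ph s ω x
/-- rule (A5) fires -/
def A5 (_Q : Params) (s : ℕ) (ω : ℕ → Pt) (x : Pt) : Prop := ∃ c < s, ∃ d < s, c ≠ d ∧ Col (ω c) (ω d) x

/-- The run `ω` is alive at time `s`: no stop, and all placed points were active. -/
def Alive (s : ℕ) (ω : ℕ → Pt) : Prop := ∀ r < s, P.go r ω ∧ ω r ∈ P.act' r ω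

/-- The (sub-probability) expectation over paths of length `s`. -/
def ex : ℕ → ((ℕ → Pt) → ℝ) → ℝ
  | 0, F => F (fun _ => 0)
  | s + 1, F => ex s (fun ω => ∑ u ∈ box P.N, P.pr s ω u * F (Function.update ω s u))

/-- Value of a mark: `1(ω t = a)` for a placed mark, `w_t(a) 1(a ∈ Act_t)` for an eval mark. -/
def mv (a : Pt) (t : ℕ) (placed : Bool) (ω : ℕ → Pt) : ℝ :=
  if placed then (if ω t = a then 1 else 0) else P.wa t ω a

/-- `Σ` over ORDERED pairs of marks `i ≠ j` of `Σ_{s < min(t_i,t_j)} p_s(a_i,a_j)`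
(so this is `2Λ` of the paper proof). -/
def Lam {ι : Type} [Fintype ι] (a : ι → Pt) (t : ι → ℕ) (ω : ℕ → Pt) : ℝ :=
  ∑ i, ∑ j, if i = j then 0 else ∑ s ∈ Finset.range (min (t i) (t j)), P.p2 s ω (a i) (a j)

/-- `R_s(a,b)`: the points `u ∈ Act'_s ∩ K_s(a) ∩ K_s(b)` such that no small plane through `a,b,u`
contains an admissible pair. -/
def R (s : ℕ) (ω : ℕ → Pt) (a b : Pt) : Finset Pt :=
  (P.act' s ω ∩ (P.K s ω a ∩ P.K s ω b)).filter (fun u =>
    ∀ m ∈ normals P.M, dot m a = dot m b → dot m u = dot m b → ¬ P.admP s ω m (dot m b))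

/-- The rest sum of a pair up to time `S`. -/
def restSum (S : ℕ) (ω : ℕ → Pt) (a b : Pt) : ℝ :=
  ∑ s ∈ Finset.range S, if a ∈ P.act' s ω ∧ b ∈ P.act' s ω then
    2 * P.om / P.V * ((P.R s ω a b).card : ℝ) else 0

end Params

end Pool.Agent.Grid3D
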