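import Pool.Agent.Grid3D.R2Spec

set_option autoImplicit false

namespace Pool.Agent.Grid3D

open Finset Classical

noncomputable section

lemma edgeCount_fin (G : SimpleGraph ℕ) (n : ℕ) :
    edgeCount G n = (univ.filter (fun q : Fin n × Fin n => q.1 < q.2 ∧ G.Adj q.1 q.2)).card := by
  unfold edgeCount
  symm
  refine Finset.card_bij (fun q _ => ((q.1 : ℕ), (q.2 : ℕ))) ?_ ?_ ?_
  · intro q hq
    simp only [Finset.mem_filter, Finset.mem_univ, true_and] at hq
    simp only [Finset.mem_filter, Finset.mem_product, Finset.mem_range]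
    exact ⟨⟨q.1.2, q.2.2⟩, hq.1, hq.2⟩
  · intro q _ q' _ h
    simp only [Prod.mk.injEq] at h
    exact Prod.ext (Fin.ext h.1) (Fin.ext h.2)
  · intro q hq
    simp only [Finset.mem_filter, Finset.mem_product, Finset.mem_range] at hq
    refine ⟨(⟨q.1, hq.1.1⟩, ⟨q.2, hq.1.2⟩), ?_, rfl⟩
    simp only [Finset.mem_filter, Finset.mem_univ, true_and]
    exact ⟨hq.2.1, hq.2.2⟩

lemma k2_eq (n : ℕ) (G : SimpleGraph ℕ) : k2 n G = 2 * edgeCount G n := by
  have h1 : (univ.filter (fun q : Fin n × Fin n => G.Adj q.1 q.2)) =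
      (univ.filter (fun q : Fin n × Fin n => q.1 < q.2 ∧ G.Adj q.1 q.2)) ∪
      (univ.filter (fun q : Fin n × Fin n => q.2 < q.1 ∧ G.Adj q.1 q.2)) := by
    ext q
    simp only [Finset.mem_filter, Finset.mem_univ, true_and, Finset.mem_union]
    constructor
    · intro h
      have hne : (q.1 : ℕ) ≠ q.2 := h.ne
      rcases lt_or_gt_of_ne hne with h1 | h1
      · exact Or.inl ⟨h1, h⟩
      · exact Or.inr ⟨h1, h⟩
    · rintro (h | h)
      · exact h.2
      · exact h.2
  have hdisj : Disjoint (univ.filter (fun q : Fin n × Fin n => q.1 < q.2 ∧ G.Adj q.1 q.2))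
      (univ.filter (fun q : Fin n × Fin n => q.2 < q.1 ∧ G.Adj q.1 q.2)) := by
    rw [Finset.disjoint_left]
    intro q h1 h2
    simp only [Finset.mem_filter, Finset.mem_univ, true_and] at h1 h2
    exact absurd (h1.1.trans h2.1) (lt_irrefl _)
  have h2 : (univ.filter (fun q : Fin n × Fin n => q.2 < q.1 ∧ G.Adj q.1 q.2)).card =
      (univ.filter (fun q : Fin n × Fin n => q.1 < q.2 ∧ G.Adj q.1 q.2)).card := by
    refine Finset.card_bij (fun q _ => (q.2, q.1)) ?_ ?_ ?_
    · intro q hq
      simp only [Finset.mem_filter, Finset.mem_univ, true_and] at hq ⊢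
      exact ⟨hq.1, hq.2.symm⟩
    · intro q _ q' _ h
      simp only [Prod.mk.injEq] at h
      exact Prod.ext h.2 h.1
    · intro q hq
      simp only [Finset.mem_filter, Finset.mem_univ, true_and] at hq
      refine ⟨(q.2, q.1), ?_, rfl⟩
      simp only [Finset.mem_filter, Finset.mem_univ, true_and]
      exact ⟨hq.1, hq.2.symm⟩
  unfold k2
  rw [h1, Finset.card_union_of_disjoint hdisj, h2, edgeCount_fin]
  push_cast
  ring

lemma sum_dg (n : ℕ) (G : SimpleGraph ℕ) : ∑ v : Fin n, dg G v = k2 n G := by
  unfold dg k2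
  rw [Finset.card_filter, Fintype.sum_prod_type]
  push_cast
  refine Finset.sum_congr rfl (fun v _ => ?_)
  rw [Finset.card_filter]
  push_cast
  rfl

lemma dg_nonneg {n : ℕ} (G : SimpleGraph ℕ) (v : Fin n) : 0 ≤ dg G v := Nat.cast_nonneg _

lemma dg_le {n : ℕ} (G : SimpleGraph ℕ) (v : Fin n) : dg G v ≤ edgeCount G n := by
  rw [edgeCount_fin]
  unfold dg
  have : (univ.filter (fun u : Fin n => G.Adj v u)).card ≤
      (univ.filter (fun q : Fin n × Fin n => q.1 < q.2 ∧ G.Adj q.1 q.2)).card := by
    refine Finset.card_le_card_of_injOn (fun u => if v < u then (v, u) else (u, v)) ?_ ?_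
    · intro u hu
      simp only [Finset.coe_filter, Finset.mem_univ, true_and] at hu
      have hadj : G.Adj v u := hu
      have hne : (v : ℕ) ≠ u := hadj.ne
      simp only [Finset.coe_filter, Finset.mem_univ, true_and]
      by_cases h : v < u
      · show (if v < u then (v, u) else (u, v)).1 < (if v < u then (v, u) else (u, v)).2 ∧
          G.Adj (if v < u then (v, u) else (u, v)).1 (if v < u then (v, u) else (u, v)).2
        rw [if_pos h]
        exact ⟨h, hadj⟩
      · show (if v < u then (v, u) else (u, v)).1 < (if v < u then (v, u) else (u, v)).2 ∧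
          G.Adj (if v < u then (v, u) else (u, v)).1 (if v < u then (v, u) else (u, v)).2
        rw [if_neg h]
        have h' : u < v := by
          rcases lt_or_gt_of_ne hne with h1 | h1
          · exact absurd h1 h
          · exact h1
        exact ⟨h', hadj.symm⟩
    · intro u hu w hw huw
      simp only at huw
      have hneu : v ≠ u := by
        intro e
        have : G.Adj v u := (Finset.mem_filter.1 (Finset.mem_coe.1 hu)).2
        rw [← e] at this
        exact this.ne rfl
      have hnew : v ≠ w := by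
        intro e
        have : G.Adj v w := (Finset.mem_filter.1 (Finset.mem_coe.1 hw)).2
        rw [← e] at this
        exact this.ne rfl
      by_cases h1 : v < u
      · by_cases h2 : v < w
        · rw [if_pos h1, if_pos h2] at huw
          exact (Prod.mk.inj huw).2
        · rw [if_pos h1, if_neg h2] at huw
          exact absurd (Prod.mk.inj huw).1 hnew
      · by_cases h2 : v < w
        · rw [if_neg h1, if_pos h2] at huw
          exact absurd (Prod.mk.inj huw).1.symm hneu
        · rw [if_neg h1, if_neg h2] at huw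
          exact (Prod.mk.inj huw).1
  exact_mod_cast this

lemma hub_card {n : ℕ} (G : SimpleGraph ℕ) (θ : ℝ) :
    ((univ.filter (fun v : Fin n => θ ≤ dg G v)).card : ℝ) * θ ≤ k2 n G := by
  rw [← sum_dg]
  calc ((univ.filter (fun v : Fin n => θ ≤ dg G v)).card : ℝ) * θ
      = ∑ v ∈ univ.filter (fun v : Fin n => θ ≤ dg G v), θ := by
        rw [Finset.sum_const, nsmul_eq_mul]
    _ ≤ ∑ v ∈ univ.filter (fun v : Fin n => θ ≤ dg G v), dg G v := by
        refine Finset.sum_le_sum (fun v hv => ?_)
        rw [Finset.mem_filter] at hv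
        exact hv.2
    _ ≤ ∑ v, dg G v :=
        Finset.sum_le_sum_of_subset_of_nonneg (Finset.subset_univ _)
          (fun v _ _ => dg_nonneg G v)

end

end Pool.Agent.Grid3D
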