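import Pool.Agent.Grid3D.R2Spec
import Pool.Agent.Grid3D.LLL

set_option autoImplicit false

/-! Regime 2, step 3: the local lemma. -/

namespace Pool.Agent.Grid3D

open Finset Classical

noncomputable section

section

variable {n : ℕ} (G : SimpleGraph ℕ) (A : Finset (Fin n))

/-- no violation inside the set `T` of vertices -/
structure GdT (T : Finset (Fin n)) (p : Fin n → Pt) : Prop where
  eq : ∀ u ∈ T, ∀ v ∈ T, u ≠ v → p u ≠ p v
  col : ∀ x ∈ T, ∀ y ∈ T, ∀ w ∈ T, G.Adj x y → w ≠ x → w ≠ y → ¬ Col (p x) (p y) (p w)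
  cop : ∀ a ∈ T, ∀ b ∈ T, ∀ c ∈ T, ∀ d ∈ T, G.Adj a b → G.Adj c d →
    a ≠ c → a ≠ d → b ≠ c → b ≠ d → ¬ Cop (p a) (p b) (p c) (p d)

/-- the index type of the events -/
abbrev Ix (n : ℕ) := Fin n ⊕ (Fin n × Fin n) ⊕ (Fin n × Fin n × Fin n)

def tup (v : Fin n) : Ix n → Finset (Fin n)
  | Sum.inl w => {v, w}
  | Sum.inr (Sum.inl q) => {v, q.1, q.2}
  | Sum.inr (Sum.inr q) => {v, q.1, q.2.1, q.2.2}

def badE (v : Fin n) : Ix n → (Fin n → Pt) → Prop
  | Sum.inl w, p => p v = p w
  | Sum.inr (Sum.inl q), p => Col (p v) (p q.1) (p q.2)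
  | Sum.inr (Sum.inr q), p => Cop (p v) (p q.1) (p q.2.1) (p q.2.2)

def F1s (v : Fin n) : Finset (Fin n) := univ.filter (fun w => w ≠ v)
def F2s (v : Fin n) : Finset (Fin n × Fin n) :=
  univ.filter (fun q => q.1 ≠ v ∧ q.2 ≠ v ∧ q.1 ≠ q.2 ∧ (G.Adj q.1 q.2 ∨ G.Adj v q.1))
def F3s (v : Fin n) : Finset (Fin n × Fin n × Fin n) :=
  univ.filter (fun q => G.Adj v q.1 ∧ G.Adj q.2.1 q.2.2 ∧ q.2.1 ≠ v ∧ q.2.2 ≠ v ∧
    q.1 ≠ q.2.1 ∧ q.1 ≠ q.2.2)

def FF (v : Fin n) : Finset (Ix n) :=
  if v ∈ A then ∅ else (F1s v).disjSum ((F2s G v).disjSum (F3s G v))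

variable {G A}

lemma badE_congr {v : Fin n} {τ : Ix n} {p p' : Fin n → Pt} (h : ∀ u ∈ tup v τ, p u = p' u) :
    badE v τ p ↔ badE v τ p' := by
  rcases τ with w | q | q
  · have h1 := h v (by simp [tup])
    have h2 := h w (by simp [tup])
    simp only [badE, h1, h2]
  · have h1 := h v (by simp [tup])
    have h2 := h q.1 (by simp [tup])
    have h3 := h q.2 (by simp [tup])
    simp only [badE, h1, h2, h3]
  · have h1 := h v (by simp [tup])
    have h2 := h q.1 (by simp [tup])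
    have h3 := h q.2.1 (by simp [tup])
    have h4 := h q.2.2 (by simp [tup])
    simp only [badE, h1, h2, h3, h4]

lemma mem_tup (v : Fin n) (τ : Ix n) : v ∈ tup v τ := by
  rcases τ with w | q | q <;> simp [tup]

lemma tup_card (v : Fin n) (τ : Ix n) : (tup v τ).card ≤ 4 := by
  rcases τ with w | q | q
  · exact Finset.card_le_two.trans (by norm_num)
  · exact Finset.card_le_three.trans (by norm_num)
  · exact Finset.card_le_four

/-- A new violation involves the new vertex. -/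
lemma new_violation {S : Finset (Fin n)} {v : Fin n} {p : Fin n → Pt} (hv : v ∉ A)
    (h1 : GdT G (S ∪ A) p) (h2 : ¬ GdT G (insert v S ∪ A) p) :
    ∃ τ ∈ FF G A v, tup v τ ⊆ insert v S ∪ A ∧ badE v τ p := by
  by_contra hcon
  push Not at hcon
  apply h2
  have hFF : FF G A v = (F1s v).disjSum ((F2s G v).disjSum (F3s G v)) := if_neg hv
  have hmem : ∀ u ∈ insert v S ∪ A, u ≠ v → u ∈ S ∪ A := by
    intro u hu huv
    simp only [Finset.mem_union, Finset.mem_insert] at hu ⊢
    tauto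
  have hvT : v ∈ insert v S ∪ A := by simp
  have k1 : ∀ w ∈ insert v S ∪ A, w ≠ v → p v ≠ p w := by
    intro w hw hwv
    refine hcon (Sum.inl w) ?_ ?_
    · rw [hFF, Finset.inl_mem_disjSum]
      simp [F1s, hwv]
    · intro u hu
      simp only [tup, Finset.mem_insert, Finset.mem_singleton] at hu
      rcases hu with rfl | rfl
      · exact hvT
      · exact hw
  have k2' : ∀ x ∈ insert v S ∪ A, ∀ y ∈ insert v S ∪ A, x ≠ v → y ≠ v → x ≠ y →
      (G.Adj x y ∨ G.Adj v x) → ¬ Col (p v) (p x) (p y) := by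
    intro x hx y hy hxv hyv hxy hadj
    refine hcon (Sum.inr (Sum.inl (x, y))) ?_ ?_
    · rw [hFF, Finset.inr_mem_disjSum, Finset.inl_mem_disjSum]
      simp only [F2s, Finset.mem_filter, Finset.mem_univ, true_and]
      exact ⟨hxv, hyv, hxy, hadj⟩
    · intro u hu
      simp only [tup, Finset.mem_insert, Finset.mem_singleton] at hu
      rcases hu with rfl | rfl | rfl
      · exact hvT
      · exact hx
      · exact hy
  have k3 : ∀ b ∈ insert v S ∪ A, ∀ c ∈ insert v S ∪ A, ∀ d ∈ insert v S ∪ A,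
      G.Adj v b → G.Adj c d → c ≠ v → d ≠ v → b ≠ c → b ≠ d →
      ¬ Cop (p v) (p b) (p c) (p d) := by
    intro b hb c hc d hd h1 h2 h3 h4 h5 h6
    refine hcon (Sum.inr (Sum.inr (b, c, d))) ?_ ?_
    · rw [hFF, Finset.inr_mem_disjSum, Finset.inr_mem_disjSum]
      simp only [F3s, Finset.mem_filter, Finset.mem_univ, true_and]
      exact ⟨h1, h2, h3, h4, h5, h6⟩
    · intro u hu
      simp only [tup, Finset.mem_insert, Finset.mem_singleton] at hu
      rcases hu with rfl | rfl | rfl | rfl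
      · exact hvT
      · exact hb
      · exact hc
      · exact hd
  have adjne : ∀ x y : Fin n, G.Adj x y → x ≠ y := fun x y h e => h.ne (by rw [e])
  constructor
  · intro u hu w hw huw
    by_cases huv : u = v
    · subst huv
      exact k1 w hw (fun e => huw e.symm)
    · by_cases hwv : w = v
      · subst hwv
        exact fun e => k1 u hu huv e.symm
      · exact h1.eq u (hmem u hu huv) w (hmem w hw hwv) huw
  · intro x hx y hy w hw hadj hwx hwy hcol
    have hxy := adjne x y hadj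
    by_cases hxv : x = v
    · subst hxv
      exact k2' y hy w hw hxy.symm hwx (fun e => hwy e.symm) (Or.inr hadj) hcol
    · by_cases hyv : y = v
      · subst hyv
        exact k2' x hx w hw hxv hwy (fun e => hwx e.symm) (Or.inr hadj.symm) (col_swap hcol)
      · by_cases hwv : w = v
        · subst hwv
          exact k2' x hx y hy hxv hyv hxy (Or.inl hadj) (col_rot (col_rot hcol))
        · exact h1.col x (hmem x hx hxv) y (hmem y hy hyv) w (hmem w hw hwv) hadj hwx hwy hcol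
  · intro a ha b hb c hc d hd hab hcd hac had hbc hbd hcop
    have hab' := adjne a b hab
    have hcd' := adjne c d hcd
    by_cases hav : a = v
    · subst hav
      exact k3 b hb c hc d hd hab hcd hac.symm had.symm hbc hbd hcop
    · by_cases hbv : b = v
      · subst hbv
        exact k3 a ha c hc d hd hab.symm hcd hbc.symm hbd.symm hac had (cop_swap12 hcop)
      · by_cases hcv : c = v
        · subst hcv
          exact k3 d hd a ha b hb hcd hab hac hbc had.symm hbd.symm
            (cop_swap23 (cop_swap34 (cop_swap12 (cop_swap23 hcop))))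
        · by_cases hdv : d = v
          · subst hdv
            exact k3 c hc a ha b hb hcd.symm hab had hbd hac.symm hbc.symm
              (cop_swap12 (cop_swap23 (cop_swap12 (cop_swap34 (cop_swap23 hcop)))))
          · exact h1.cop a (hmem a ha hav) b (hmem b hb hbv) c (hmem c hc hcv) d (hmem d hd hdv)
              hab hcd hac had hbc hbd hcop

lemma card_badE {N : ℕ} (hN : 1 ≤ N) (h : Fin n → Pt) (v : Fin n) (τ : Ix n) :
    (((Fintype.piFinset (YY N A h)).filter (badE v τ)).card : ℝ) =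
      ((Fintype.piFinset (YY N A h)).card : ℝ) *
        Ev (YY N A h) (fun p => if badE v τ p then (1 : ℝ) else 0) := by
  have hpos := card_pi_pos (Y := YY N A h) (YY_nonempty hN)
  unfold Ev
  rw [mul_div_cancel₀ _ hpos.ne', Finset.card_filter]
  push_cast
  rfl

end

/-- counting the pairs: `#F2s ≤ 2k + deg(v) n` -/
lemma card_F2s {n : ℕ} (G : SimpleGraph ℕ) (v : Fin n) :
    ((F2s G v).card : ℝ) ≤ k2 n G + dg G v * n := by
  have h1 : F2s G v ⊆ (univ.filter (fun q : Fin n × Fin n => G.Adj q.1 q.2)) ∪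
      ((univ.filter (fun u : Fin n => G.Adj v u)) ×ˢ (univ : Finset (Fin n))) := by
    intro q hq
    simp only [F2s, Finset.mem_filter, Finset.mem_univ, true_and] at hq
    simp only [Finset.mem_union, Finset.mem_filter, Finset.mem_univ, true_and,
      Finset.mem_product, and_true]
    exact hq.2.2.2
  have h2 := (Finset.card_le_card h1).trans (Finset.card_union_le _ _)
  rw [Finset.card_product, Finset.card_univ, Fintype.card_fin] at h2
  unfold k2 dg
  exact_mod_cast h2

/-- counting the triples: `#F3s ≤ deg(v) 2k` -/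
lemma card_F3s {n : ℕ} (G : SimpleGraph ℕ) (v : Fin n) :
    ((F3s G v).card : ℝ) ≤ dg G v * k2 n G := by
  have h1 : F3s G v ⊆ (univ.filter (fun u : Fin n => G.Adj v u)) ×ˢ
      (univ.filter (fun q : Fin n × Fin n => G.Adj q.1 q.2)) := by
    intro q hq
    simp only [F3s, Finset.mem_filter, Finset.mem_univ, true_and] at hq
    simp only [Finset.mem_filter, Finset.mem_univ, true_and, Finset.mem_product]
    exact ⟨hq.1, hq.2.1⟩
  have h2 := Finset.card_le_card h1
  rw [Finset.card_product] at h2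
  unfold k2 dg
  exact_mod_cast h2

lemma sum_pairs_A {n : ℕ} (G : SimpleGraph ℕ) (A : Finset (Fin n)) (v : Fin n) (c : ℝ)
    (hc : 0 ≤ c) :
    ∑ q ∈ F2s G v, (if q.1 ∈ A ∧ q.2 ∈ A then c else 0) ≤ (A.card : ℝ) ^ 2 * c := by
  calc ∑ q ∈ F2s G v, (if q.1 ∈ A ∧ q.2 ∈ A then c else 0)
      ≤ ∑ q : Fin n × Fin n, (if q.1 ∈ A ∧ q.2 ∈ A then c else 0) :=
        Finset.sum_le_sum_of_subset_of_nonneg (Finset.subset_univ _)
          (fun q _ _ => by split_ifs <;> simp [hc])
    _ = ∑ q ∈ A ×ˢ A, c := by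
        rw [← Finset.sum_filter]
        congr 1
        ext q
        simp [Finset.mem_product]
    _ = (A.card : ℝ) ^ 2 * c := by
        rw [Finset.sum_const, nsmul_eq_mul, Finset.card_product]
        push_cast
        ring

/-- the extra terms -/
lemma sum_extra {n N : ℕ} (G : SimpleGraph ℕ) (A : Finset (Fin n)) (h : Fin n → Pt) (v : Fin n) :
    ∑ q ∈ F3s G v, extra N A h q.1 q.2.1 q.2.2 ≤
      3 * n * ((∑ u ∈ A, ∑ w ∈ A, if u ≠ w then KK N (h u) (h w) else 0) / (N : ℝ) ^ 6) +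
      (∑ u ∈ A, ∑ w ∈ A, ∑ x ∈ A, if u ≠ w ∧ u ≠ x ∧ w ≠ x then PP N (h u) (h w) (h x) else 0) /
        (N : ℝ) ^ 3 := by
  set KF : Fin n → Fin n → ℝ := fun u w => if u ∈ A ∧ w ∈ A ∧ u ≠ w then
    KK N (h u) (h w) / (N : ℝ) ^ 6 else 0 with hKF
  set PF : Fin n → Fin n → Fin n → ℝ := fun u w x =>
    if u ∈ A ∧ w ∈ A ∧ x ∈ A ∧ (u ≠ w ∧ u ≠ x ∧ w ≠ x) then
      PP N (h u) (h w) (h x) / (N : ℝ) ^ 3 else 0 with hPF
  have hKnn : ∀ u w, 0 ≤ KF u w := by
    intro u w
    simp only [hKF]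
    split_ifs
    · exact div_nonneg (KK_nonneg _ _ _) (by positivity)
    · exact le_refl _
  have hPnn : ∀ u w x, 0 ≤ PF u w x := by
    intro u w x
    simp only [hPF]
    split_ifs
    · exact div_nonneg (PP_nonneg _ _ _ _) (by positivity)
    · exact le_refl _
  have hK : ∑ u, ∑ w, KF u w =
      (∑ u ∈ A, ∑ w ∈ A, if u ≠ w then KK N (h u) (h w) else 0) / (N : ℝ) ^ 6 := by
    rw [Finset.sum_div]
    have e1 : ∑ u ∈ A, (∑ w ∈ A, if u ≠ w then KK N (h u) (h w) else 0) / (N : ℝ) ^ 6 =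
        ∑ u, if u ∈ A then (∑ w ∈ A, if u ≠ w then KK N (h u) (h w) else 0) / (N : ℝ) ^ 6
          else 0 := by
      rw [← Finset.sum_filter]
      simp
    rw [e1]
    refine Finset.sum_congr rfl (fun u _ => ?_)
    by_cases hu : u ∈ A
    · rw [if_pos hu, Finset.sum_div]
      have e2 : ∑ w ∈ A, (if u ≠ w then KK N (h u) (h w) else 0) / (N : ℝ) ^ 6 =
          ∑ w, if w ∈ A then (if u ≠ w then KK N (h u) (h w) else 0) / (N : ℝ) ^ 6 else 0 := by
        rw [← Finset.sum_filter]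
        simp
      rw [e2]
      refine Finset.sum_congr rfl (fun w _ => ?_)
      simp only [hKF]
      by_cases hw : w ∈ A
      · by_cases huw : u = w
        · simp [huw]
        · rw [if_pos ⟨hu, hw, huw⟩, if_pos hw, if_pos huw]
      · rw [if_neg hw, if_neg (fun hc => hw hc.2.1)]
    · rw [if_neg hu]
      refine Finset.sum_eq_zero (fun w _ => ?_)
      simp only [hKF]
      rw [if_neg (fun hc => hu hc.1)]
  have hP : ∑ u, ∑ w, ∑ x, PF u w x =
      (∑ u ∈ A, ∑ w ∈ A, ∑ x ∈ A, if u ≠ w ∧ u ≠ x ∧ w ≠ x then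
        PP N (h u) (h w) (h x) else 0) / (N : ℝ) ^ 3 := by
    rw [Finset.sum_div]
    have e1 : ∑ u ∈ A, (∑ w ∈ A, ∑ x ∈ A, if u ≠ w ∧ u ≠ x ∧ w ≠ x then
        PP N (h u) (h w) (h x) else 0) / (N : ℝ) ^ 3 =
        ∑ u, if u ∈ A then (∑ w ∈ A, ∑ x ∈ A, if u ≠ w ∧ u ≠ x ∧ w ≠ x then
        PP N (h u) (h w) (h x) else 0) / (N : ℝ) ^ 3 else 0 := by
      rw [← Finset.sum_filter]
      simp
    rw [e1]
    refine Finset.sum_congr rfl (fun u _ => ?_)
    by_cases hu : u ∈ A
    · rw [if_pos hu, Finset.sum_div]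
      have e2 : ∑ w ∈ A, (∑ x ∈ A, if u ≠ w ∧ u ≠ x ∧ w ≠ x then
          PP N (h u) (h w) (h x) else 0) / (N : ℝ) ^ 3 =
          ∑ w, if w ∈ A then (∑ x ∈ A, if u ≠ w ∧ u ≠ x ∧ w ≠ x then
          PP N (h u) (h w) (h x) else 0) / (N : ℝ) ^ 3 else 0 := by
        rw [← Finset.sum_filter]
        simp
      rw [e2]
      refine Finset.sum_congr rfl (fun w _ => ?_)
      by_cases hw : w ∈ A
      · rw [if_pos hw, Finset.sum_div]
        have e3 : ∑ x ∈ A, (if u ≠ w ∧ u ≠ x ∧ w ≠ x then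
            PP N (h u) (h w) (h x) else 0) / (N : ℝ) ^ 3 =
            ∑ x, if x ∈ A then (if u ≠ w ∧ u ≠ x ∧ w ≠ x then
            PP N (h u) (h w) (h x) else 0) / (N : ℝ) ^ 3 else 0 := by
          rw [← Finset.sum_filter]
          simp
        rw [e3]
        refine Finset.sum_congr rfl (fun x _ => ?_)
        simp only [hPF]
        by_cases hx : x ∈ A
        · by_cases hd : u ≠ w ∧ u ≠ x ∧ w ≠ x
          · rw [if_pos ⟨hu, hw, hx, hd⟩, if_pos hx, if_pos hd]
          · rw [if_neg (fun hc => hd hc.2.2.2), if_pos hx, if_neg hd, zero_div]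
        · rw [if_neg hx, if_neg (fun hc => hx hc.2.2.1)]
      · rw [if_neg hw]
        refine Finset.sum_eq_zero (fun x _ => ?_)
        simp only [hPF]
        rw [if_neg (fun hc => hw hc.2.1)]
    · rw [if_neg hu]
      refine Finset.sum_eq_zero (fun w _ => Finset.sum_eq_zero (fun x _ => ?_))
      simp only [hPF]
      rw [if_neg (fun hc => hu hc.1)]
  rw [← hK, ← hP]
  have hterm : ∀ q ∈ F3s G v, extra N A h q.1 q.2.1 q.2.2 ≤
      KF q.1 q.2.1 + KF q.1 q.2.2 + KF q.2.1 q.2.2 + PF q.1 q.2.1 q.2.2 := by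
    intro q hq
    simp only [F3s, Finset.mem_filter, Finset.mem_univ, true_and] at hq
    obtain ⟨h1, h2, h3, h4, h5, h6⟩ := hq
    have h7 : q.2.1 ≠ q.2.2 := fun e => h2.ne (by rw [e])
    unfold extra
    simp only [hKF, hPF]
    refine add_le_add (add_le_add (add_le_add ?_ ?_) ?_) ?_
    · by_cases hc : q.1 ∈ A ∧ q.2.1 ∈ A
      · rw [if_pos hc, if_pos ⟨hc.1, hc.2, h5⟩]
      · rw [if_neg hc, if_neg (fun hc' => hc ⟨hc'.1, hc'.2.1⟩)]
    · by_cases hc : q.1 ∈ A ∧ q.2.2 ∈ A
      · rw [if_pos hc, if_pos ⟨hc.1, hc.2, h6⟩]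
      · rw [if_neg hc, if_neg (fun hc' => hc ⟨hc'.1, hc'.2.1⟩)]
    · by_cases hc : q.2.1 ∈ A ∧ q.2.2 ∈ A
      · rw [if_pos hc, if_pos ⟨hc.1, hc.2, h7⟩]
      · rw [if_neg hc, if_neg (fun hc' => hc ⟨hc'.1, hc'.2.1⟩)]
    · by_cases hc : q.1 ∈ A ∧ q.2.1 ∈ A ∧ q.2.2 ∈ A
      · rw [if_pos hc, if_pos ⟨hc.1, hc.2.1, hc.2.2, h5, h6, h7⟩]
      · rw [if_neg hc, if_neg (fun hc' => hc ⟨hc'.1, hc'.2.1, hc'.2.2.1⟩)]
  refine (Finset.sum_le_sum hterm).trans ?_
  have hall : ∑ q ∈ F3s G v, (KF q.1 q.2.1 + KF q.1 q.2.2 + KF q.2.1 q.2.2 + PF q.1 q.2.1 q.2.2) ≤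
      ∑ q : Fin n × Fin n × Fin n,
        (KF q.1 q.2.1 + KF q.1 q.2.2 + KF q.2.1 q.2.2 + PF q.1 q.2.1 q.2.2) := by
    refine Finset.sum_le_sum_of_subset_of_nonneg (Finset.subset_univ _) (fun q _ _ => ?_)
    have a1 := hKnn q.1 q.2.1
    have a2 := hKnn q.1 q.2.2
    have a3 := hKnn q.2.1 q.2.2
    have a4 := hPnn q.1 q.2.1 q.2.2
    linarith
  refine hall.trans (le_of_eq ?_)
  rw [Fintype.sum_prod_type]
  simp only [Fintype.sum_prod_type, Finset.sum_add_distrib]
  have s1 : ∑ x : Fin n, ∑ y : Fin n, ∑ _z : Fin n, KF x y = n * ∑ u, ∑ w, KF u w := by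
    simp only [Finset.sum_const, Finset.card_univ, Fintype.card_fin, nsmul_eq_mul,
      ← Finset.mul_sum]
  have s2 : ∑ x : Fin n, ∑ _y : Fin n, ∑ z : Fin n, KF x z = n * ∑ u, ∑ w, KF u w := by
    simp only [Finset.sum_const, Finset.card_univ, Fintype.card_fin, nsmul_eq_mul,
      ← Finset.mul_sum]
  have s3 : ∑ _x : Fin n, ∑ y : Fin n, ∑ z : Fin n, KF y z = n * ∑ u, ∑ w, KF u w := by
    simp only [Finset.sum_const, Finset.card_univ, Fintype.card_fin, nsmul_eq_mul,
      ← Finset.mul_sum]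
  rw [s1, s2, s3]
  ring

section

variable {n : ℕ} {A : Finset (Fin n)}

lemma Ev_bad1 (N : ℕ) (h : Fin n → Pt) (v w : Fin n) :
    Ev (YY N A h) (fun p => if badE v (Sum.inl w) p then (1 : ℝ) else 0) =
      Ev (YY N A h) (fun p => if p v = p w then (1 : ℝ) else 0) := by
  have : (fun p : Fin n → Pt => if badE v (Sum.inl w) p then (1 : ℝ) else 0) =
      (fun p => if p v = p w then (1 : ℝ) else 0) := by
    funext p
    exact if_congr Iff.rfl rfl rfl
  rw [this]

lemma Ev_bad2 (N : ℕ) (h : Fin n → Pt) (v : Fin n) (q : Fin n × Fin n) :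
    Ev (YY N A h) (fun p => if badE v (Sum.inr (Sum.inl q)) p then (1 : ℝ) else 0) =
      Ev (YY N A h) (fun p => ic (p v) (p q.1) (p q.2)) := by
  have : (fun p : Fin n → Pt => if badE v (Sum.inr (Sum.inl q)) p then (1 : ℝ) else 0) =
      (fun p => ic (p v) (p q.1) (p q.2)) := by
    funext p
    unfold ic
    exact if_congr Iff.rfl rfl rfl
  rw [this]

lemma Ev_bad3 (N : ℕ) (h : Fin n → Pt) (v : Fin n) (q : Fin n × Fin n × Fin n) :
    Ev (YY N A h) (fun p => if badE v (Sum.inr (Sum.inr q)) p then (1 : ℝ) else 0) =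
      Ev (YY N A h) (fun p => ip (p v) (p q.1) (p q.2.1) (p q.2.2)) := by
  have : (fun p : Fin n → Pt => if badE v (Sum.inr (Sum.inr q)) p then (1 : ℝ) else 0) =
      (fun p => ip (p v) (p q.1) (p q.2.1) (p q.2.2)) := by
    funext p
    unfold ip
    exact if_congr Iff.rfl rfl rfl
  rw [this]

lemma hsum_aux {N : ℕ} (G : SimpleGraph ℕ) (h : Fin n → Pt) (hN : 1 ≤ N) (hh : HubOK N A h)
    {v : Fin n} (hv : v ∉ A)
    (hs : (n : ℝ) / (N : ℝ) ^ 3 + (k2 n G + dg G v * n) * (79 / (N : ℝ) ^ 3) +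
      3 * (A.card : ℝ) ^ 2 / (N : ℝ) ^ 2 +
      dg G v * k2 n G * (C0 * (1 + Real.log N) / (N : ℝ) ^ 3) +
      3 * n * ((∑ u ∈ A, ∑ w ∈ A, if u ≠ w then KK N (h u) (h w) else 0) / (N : ℝ) ^ 6) +
      (∑ u ∈ A, ∑ w ∈ A, ∑ x ∈ A, if u ≠ w ∧ u ≠ x ∧ w ≠ x then PP N (h u) (h w) (h x) else 0) /
        (N : ℝ) ^ 3 ≤ 1 / 16) :
    ∑ τ ∈ FF G A v, Ev (YY N A h) (fun p => if badE v τ p then (1 : ℝ) else 0) ≤ 1 / 16 := by
  have hN' : (0 : ℝ) < N := by exact_mod_cast hN
  have hN1 : (1 : ℝ) ≤ N := by exact_mod_cast hN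
  have hFF : FF G A v = (F1s v).disjSum ((F2s G v).disjSum (F3s G v)) := if_neg hv
  refine le_trans ?_ hs
  rw [hFF, Finset.sum_disjSum, Finset.sum_disjSum]
  have s1 : ∑ w ∈ F1s v, Ev (YY N A h)
      (fun p => if badE v (Sum.inl w) p then (1 : ℝ) else 0) ≤ (n : ℝ) / (N : ℝ) ^ 3 := by
    have : ∀ w ∈ F1s v, Ev (YY N A h)
        (fun p => if badE v (Sum.inl w) p then (1 : ℝ) else 0) ≤ 1 / (N : ℝ) ^ 3 := by
      intro w hw
      simp only [F1s, Finset.mem_filter, Finset.mem_univ, true_and] at hw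
      rw [Ev_bad1]
      exact E_eq hN hv hw
    refine (Finset.sum_le_sum this).trans ?_
    rw [Finset.sum_const, nsmul_eq_mul]
    have hc : ((F1s v).card : ℝ) ≤ n := by
      have := Finset.card_le_univ (F1s v)
      rw [Fintype.card_fin] at this
      exact_mod_cast this
    calc ((F1s v).card : ℝ) * (1 / (N : ℝ) ^ 3) ≤ n * (1 / (N : ℝ) ^ 3) :=
          mul_le_mul_of_nonneg_right hc (by positivity)
      _ = (n : ℝ) / (N : ℝ) ^ 3 := by ring
  have s2 : ∑ q ∈ F2s G v, Ev (YY N A h)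
      (fun p => if badE v (Sum.inr (Sum.inl q)) p then (1 : ℝ) else 0) ≤
      (k2 n G + dg G v * n) * (79 / (N : ℝ) ^ 3) + 3 * (A.card : ℝ) ^ 2 / (N : ℝ) ^ 2 := by
    have : ∀ q ∈ F2s G v, Ev (YY N A h)
        (fun p => if badE v (Sum.inr (Sum.inl q)) p then (1 : ℝ) else 0) ≤
        79 / (N : ℝ) ^ 3 + (if q.1 ∈ A ∧ q.2 ∈ A then 3 / (N : ℝ) ^ 2 else 0) := by
      intro q hq
      simp only [F2s, Finset.mem_filter, Finset.mem_univ, true_and] at hq
      rw [Ev_bad2]
      exact E_col hN hh hv hq.1 hq.2.1 hq.2.2.1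
    refine (Finset.sum_le_sum this).trans ?_
    rw [Finset.sum_add_distrib, Finset.sum_const, nsmul_eq_mul]
    have e1 := mul_le_mul_of_nonneg_right (card_F2s G v)
      (show (0 : ℝ) ≤ 79 / (N : ℝ) ^ 3 by positivity)
    have e2 := sum_pairs_A G A v (3 / (N : ℝ) ^ 2) (by positivity)
    have e3 : (A.card : ℝ) ^ 2 * (3 / (N : ℝ) ^ 2) = 3 * (A.card : ℝ) ^ 2 / (N : ℝ) ^ 2 := by
      ring
    rw [e3] at e2
    exact add_le_add e1 e2
  have s3 : ∑ q ∈ F3s G v, Ev (YY N A h)
      (fun p => if badE v (Sum.inr (Sum.inr q)) p then (1 : ℝ) else 0) ≤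
      dg G v * k2 n G * (C0 * (1 + Real.log N) / (N : ℝ) ^ 3) +
      (3 * n * ((∑ u ∈ A, ∑ w ∈ A, if u ≠ w then KK N (h u) (h w) else 0) / (N : ℝ) ^ 6) +
      (∑ u ∈ A, ∑ w ∈ A, ∑ x ∈ A, if u ≠ w ∧ u ≠ x ∧ w ≠ x then
        PP N (h u) (h w) (h x) else 0) / (N : ℝ) ^ 3) := by
    have : ∀ q ∈ F3s G v, Ev (YY N A h)
        (fun p => if badE v (Sum.inr (Sum.inr q)) p then (1 : ℝ) else 0) ≤
        C0 * (1 + Real.log N) / (N : ℝ) ^ 3 + extra N A h q.1 q.2.1 q.2.2 := by
      intro q hq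
      simp only [F3s, Finset.mem_filter, Finset.mem_univ, true_and] at hq
      obtain ⟨h1, h2, h3, h4, h5, h6⟩ := hq
      have h7 : q.2.1 ≠ q.2.2 := fun e => h2.ne (by rw [e])
      have h8 : q.1 ≠ v := fun e => h1.ne (by rw [e])
      rw [Ev_bad3]
      exact E_cop hN hh hv h8 h3 h4 h5 h6 h7
    refine (Finset.sum_le_sum this).trans ?_
    rw [Finset.sum_add_distrib, Finset.sum_const, nsmul_eq_mul]
    have hlog : 0 ≤ Real.log N := Real.log_nonneg hN1
    have hC0 : (0 : ℝ) < C0 := by linarith [C0_ge]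
    have e1 := mul_le_mul_of_nonneg_right (card_F3s G v)
      (show (0 : ℝ) ≤ C0 * (1 + Real.log N) / (N : ℝ) ^ 3 by positivity)
    exact add_le_add e1 (sum_extra G A h v)
  linarith

end

theorem lllPlace : LLLPlace := by
  intro n N G A h hN hh hsum
  have hN' : (0 : ℝ) < N := by exact_mod_cast hN
  have hN1 : (1 : ℝ) ≤ N := by exact_mod_cast hN
  have hΩpos := card_pi_pos (Y := YY N A h) (YY_nonempty hN)
  have hhub : ∀ p ∈ Fintype.piFinset (YY N A h), ∀ v ∈ A, p v = h v := by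
    intro p hp v hv
    have := (Fintype.mem_piFinset.1 hp) v
    rw [YY_mem hv, Finset.mem_singleton] at this
    exact this
  have hbox : ∀ p ∈ Fintype.piFinset (YY N A h), ∀ v, p v ∈ box N := by
    intro p hp v
    by_cases hv : v ∈ A
    · rw [hhub p hp v hv]
      exact hh.mem v hv
    · have := (Fintype.mem_piFinset.1 hp) v
      rwa [YY_notMem hv] at this
  have key : ∃ p ∈ Fintype.piFinset (YY N A h), GdT G (univ ∪ A) p := by
    refine counting_lll (YY N A h) (YY_nonempty hN)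
      (fun S p => GdT G (S ∪ A) p) ?_ ?_ ?_ (FF G A) (fun v τ => tup v τ \ A) badE ?_ ?_ ?_ ?_
    · -- Gd ∅
      intro p hp
      have hA : ∀ u ∈ (∅ ∪ A : Finset (Fin n)), u ∈ A := fun u hu => by simpa using hu
      have adjne : ∀ x y : Fin n, G.Adj x y → x ≠ y := fun x y h e => h.ne (by rw [e])
      constructor
      · intro u hu v hv huv
        rw [hhub p hp u (hA u hu), hhub p hp v (hA v hv)]
        exact hh.inj u (hA u hu) v (hA v hv) huv
      · intro x hx y hy w hw hadj hwx hwy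
        rw [hhub p hp x (hA x hx), hhub p hp y (hA y hy), hhub p hp w (hA w hw)]
        exact hh.ncol x (hA x hx) y (hA y hy) w (hA w hw) (adjne x y hadj) (fun e => hwx e.symm)
          (fun e => hwy e.symm)
      · intro a ha b hb c hc d hd hab hcd hac had hbc hbd
        rw [hhub p hp a (hA a ha), hhub p hp b (hA b hb), hhub p hp c (hA c hc),
          hhub p hp d (hA d hd)]
        exact hh.ncop a (hA a ha) b (hA b hb) c (hA c hc) d (hA d hd) (adjne a b hab) hac had hbc
          hbd (adjne c d hcd)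
    · -- monotone
      intro S S' p hSS hg
      have hsub : S ∪ A ⊆ S' ∪ A := Finset.union_subset_union_left hSS
      exact ⟨fun u hu v hv => hg.eq u (hsub hu) v (hsub hv),
        fun x hx y hy w hw => hg.col x (hsub hx) y (hsub hy) w (hsub hw),
        fun a ha b hb c hc d hd => hg.cop a (hsub ha) b (hsub hb) c (hsub hc) d (hsub hd)⟩
    · -- dependence
      intro S p hp p' hp' hS hg
      have hpe : ∀ u ∈ S ∪ A, p u = p' u := by
        intro u hu
        rcases Finset.mem_union.1 hu with h1 | h1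
        · exact hS u h1
        · rw [hhub p hp u h1, hhub p' hp' u h1]
      constructor
      · intro u hu v hv huv
        rw [← hpe u hu, ← hpe v hv]
        exact hg.eq u hu v hv huv
      · intro x hx y hy w hw
        rw [← hpe x hx, ← hpe y hy, ← hpe w hw]
        exact hg.col x hx y hy w hw
      · intro a ha b hb c hc d hd
        rw [← hpe a ha, ← hpe b hb, ← hpe c hc, ← hpe d hd]
        exact hg.cop a ha b hb c hc d hd
    · -- dependence of bad
      intro v τ p hp p' hp' hs hb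
      refine (badE_congr (fun u hu => ?_)).1 hb
      by_cases huA : u ∈ A
      · rw [hhub p hp u huA, hhub p' hp' u huA]
      · exact hs u (Finset.mem_sdiff.2 ⟨hu, huA⟩)
    · -- v in supp
      intro v τ hτ
      have hv : v ∉ A := by
        intro hv
        unfold FF at hτ
        rw [if_pos hv] at hτ
        exact absurd hτ (Finset.notMem_empty τ)
      exact Finset.mem_sdiff.2 ⟨mem_tup v τ, hv⟩
    · -- step
      intro S v p hp hvS hg hng
      by_cases hvA : v ∈ A
      · exfalso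
        apply hng
        have : insert v S ∪ A = S ∪ A := by
          ext u
          simp only [Finset.mem_union, Finset.mem_insert]
          constructor
          · rintro ((rfl | h1) | h1)
            · exact Or.inr hvA
            · exact Or.inl h1
            · exact Or.inr h1
          · rintro (h1 | h1)
            · exact Or.inl (Or.inr h1)
            · exact Or.inr h1
        rw [this]
        exact hg
      · obtain ⟨τ, hτ, hsub, hb⟩ := new_violation hvA hg hng
        refine ⟨τ, hτ, ?_, hb⟩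
        intro u hu
        rw [Finset.mem_sdiff] at hu
        have := hsub hu.1
        rw [Finset.mem_union] at this
        exact this.resolve_right hu.2
    · -- the sum
      intro v
      by_cases hv : v ∈ A
      · have : FF G A v = ∅ := if_pos hv
        rw [this, Finset.sum_empty]
        positivity
      have hFF : FF G A v = (F1s v).disjSum ((F2s G v).disjSum (F3s G v)) := if_neg hv
      have hterm : ∀ τ ∈ FF G A v, (2 : ℝ) ^ ((tup v τ \ A).card - 1) *
          (((Fintype.piFinset (YY N A h)).filter (badE v τ)).card : ℝ) ≤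
          ((Fintype.piFinset (YY N A h)).card : ℝ) * 8 *
            Ev (YY N A h) (fun p => if badE v τ p then (1 : ℝ) else 0) := by
        intro τ _
        have h1 : (tup v τ \ A).card ≤ 4 :=
          (Finset.card_le_card Finset.sdiff_subset).trans (tup_card v τ)
        have h2 : (2 : ℝ) ^ ((tup v τ \ A).card - 1) ≤ 8 := by
          calc (2 : ℝ) ^ ((tup v τ \ A).card - 1) ≤ 2 ^ 3 :=
                pow_le_pow_right₀ (by norm_num) (by omega)
            _ = 8 := by norm_num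
        rw [card_badE hN]
        have h3 : 0 ≤ ((Fintype.piFinset (YY N A h)).card : ℝ) *
            Ev (YY N A h) (fun p => if badE v τ p then (1 : ℝ) else 0) := by
          rw [← card_badE hN]
          positivity
        nlinarith
      refine (Finset.sum_le_sum hterm).trans ?_
      rw [← Finset.mul_sum]
      have hE := hsum_aux G h hN hh hv (hsum v hv)
      have h8 : ((Fintype.piFinset (YY N A h)).card : ℝ) * 8 *
          ∑ τ ∈ FF G A v, Ev (YY N A h) (fun p => if badE v τ p then (1 : ℝ) else 0) ≤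
          ((Fintype.piFinset (YY N A h)).card : ℝ) * 8 * (1 / 16) :=
        mul_le_mul_of_nonneg_left hE (by positivity)
      refine h8.trans (le_of_eq ?_)
      ring
  obtain ⟨p, hp, hgd⟩ := key
  refine ⟨fun i => if hi : i < n then p ⟨i, hi⟩ else 0, ?_⟩
  have hT : ∀ u : Fin n, u ∈ (univ ∪ A : Finset (Fin n)) := fun u => by simp
  constructor
  · intro v hv
    simp only [hv, dif_pos]
    exact hbox p hp _
  · intro u hu v hv e
    simp only [hu, hv, dif_pos] at e
    by_contra huv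
    exact hgd.eq ⟨u, hu⟩ (hT _) ⟨v, hv⟩ (hT _) (fun e' => huv (by simpa using e')) e
  · intro u hu v hv w hw hadj hwu hwv hcol
    simp only [hu, hv, hw, dif_pos] at hcol
    exact hgd.col ⟨u, hu⟩ (hT _) ⟨v, hv⟩ (hT _) ⟨w, hw⟩ (hT _) hadj
      (fun e' => hwu (by simpa using e')) (fun e' => hwv (by simpa using e')) hcol
  · intro a ha b hb c hc d hd hab hcd hac had hbc hbd hcop
    simp only [ha, hb, hc, hd, dif_pos] at hcop
    exact hgd.cop ⟨a, ha⟩ (hT _) ⟨b, hb⟩ (hT _) ⟨c, hc⟩ (hT _) ⟨d, hd⟩ (hT _) hab hcd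
      (fun e' => hac (by simpa using e')) (fun e' => had (by simpa using e'))
      (fun e' => hbc (by simpa using e')) (fun e' => hbd (by simpa using e')) hcop

end

end Pool.Agent.Grid3D
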