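import Pool.Agent.Grid3D.R2Count
import Pool.Agent.Grid3D.HubPool

/-!
# Regime 2, step 4: choice of the hubs and numerics (helper35)
-/

set_option autoImplicit false

namespace Pool.Agent.Grid3D

open Finset Classical

noncomputable section

namespace R2Num

theorem small_of_neg (C ε e : ℝ) (hε : 0 < ε) (he : e < 0) : ∃ N0 : ℕ, 1 ≤ N0 ∧ ∀ N ≥ N0,
    C * (N : ℝ) ^ e ≤ ε := by
  have h1 : Filter.Tendsto (fun x : ℝ => x ^ e) Filter.atTop (nhds 0) := by
    have := tendsto_rpow_neg_atTop (show 0 < -e by linarith)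
    simpa using this
  have h2 : Filter.Tendsto (fun N : ℕ => C * (N : ℝ) ^ e) Filter.atTop (nhds (C * 0)) :=
    (h1.comp tendsto_natCast_atTop_atTop).const_mul C
  rw [mul_zero] at h2
  obtain ⟨N0, hN0⟩ := Filter.eventually_atTop.mp (h2.eventually (gt_mem_nhds hε))
  exact ⟨max N0 1, le_max_right _ _, fun N hN => (hN0 N (le_trans (le_max_left _ _) hN)).le⟩

/-- `(1 + log N) / N^{η/2}` is small -/
theorem log_small (C ε : ℝ) (hC : 0 ≤ C) (hε : 0 < ε) : ∃ N0 : ℕ, 1 ≤ N0 ∧ ∀ N ≥ N0,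
    C * ((1 + Real.log N) / (N : ℝ) ^ (1 / (2 * 10 ^ 5) : ℝ)) ≤ ε := by
  obtain ⟨N0, h1, hN0⟩ := small_of_neg (C * (1 + 4 * 10 ^ 5)) ε (-(1 / (4 * 10 ^ 5))) hε (by norm_num)
  refine ⟨N0, h1, fun N hN => ?_⟩
  have hN1 : 1 ≤ N := le_trans h1 hN
  have hX : (1 : ℝ) ≤ N := by exact_mod_cast hN1
  have hX0 : (0 : ℝ) < N := by linarith
  refine le_trans ?_ (hN0 N hN)
  rw [mul_assoc]
  apply mul_le_mul_of_nonneg_left _ hC
  rw [div_le_iff₀ (by positivity), mul_assoc, ← Real.rpow_add hX0]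
  have h2 := Real.log_le_rpow_div (x := (N : ℝ)) (by positivity)
    (show (0 : ℝ) < 1 / (4 * 10 ^ 5) by norm_num)
  have h3 : (1 : ℝ) ≤ (N : ℝ) ^ (1 / (4 * 10 ^ 5) : ℝ) := Real.one_le_rpow hX (by norm_num)
  have h4 : (-(1 / (4 * 10 ^ 5)) + 1 / (2 * 10 ^ 5) : ℝ) = 1 / (4 * 10 ^ 5) := by norm_num
  rw [h4]
  have h5 : (N : ℝ) ^ (1 / (4 * 10 ^ 5) : ℝ) / (1 / (4 * 10 ^ 5)) =
      4 * 10 ^ 5 * (N : ℝ) ^ (1 / (4 * 10 ^ 5) : ℝ) := by
    rw [div_div_eq_mul_div]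
    ring
  rw [h5] at h2
  linarith

/-- the numerical inequalities -/
theorem num {X n k a u L K0 C d : ℝ} (hX : 1 ≤ X) (hn : 1 ≤ n) (hk : 1 ≤ k) (ha : 0 ≤ a)
    (hu : 1 ≤ u) (hL : 1 ≤ L) (hK0 : 1 ≤ K0) (hC : 0 < C)
    (hnX : X * u ^ 2 ≤ n) (hkn : K0 * k * n ≤ X ^ 3) (han : a * n ≤ 2 * k * u)
    (hd : d * u ≤ n) (hdk : d ≤ k) :
    140 * C * L * a ^ 3 / X ^ 3 ≤ 1120 * C * (L / u) ∧
    n / X ^ 3 ≤ 1 / K0 ∧
    (2 * k + d * n) * (79 / X ^ 3) ≤ 237 / K0 ∧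
    3 * a ^ 2 / X ^ 2 ≤ 12 * (L / u) ∧
    d * (2 * k) * (C * L / X ^ 3) ≤ 2 * C * (L / u) ∧
    3 * n * ((20 * C * a ^ 2 * X ^ 3 * L) / X ^ 6) ≤ 240 * C * (L / u) ∧
    (40 * C * a ^ 3 * L) / X ^ 3 ≤ 320 * C * (L / u) := by
  have hX0 : 0 < X := by linarith
  have hu0 : 0 < u := by linarith
  have hn0 : 0 < n := by linarith
  have hk0 : 0 < k := by linarith
  have hK00 : 0 < K0 := by linarith
  have hL0 : 0 < L := by linarith
  -- k ≤ X² / u²
  have hk2 : k * u ^ 2 ≤ X ^ 2 := by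
    have h1 : k * (X * u ^ 2) ≤ X ^ 3 := by
      calc k * (X * u ^ 2) ≤ k * n := mul_le_mul_of_nonneg_left hnX hk0.le
        _ ≤ K0 * (k * n) := by
            have : 0 < k * n := by positivity
            nlinarith
        _ = K0 * k * n := by ring
        _ ≤ X ^ 3 := hkn
    have h2 : X * (k * u ^ 2) ≤ X * X ^ 2 := by
      calc X * (k * u ^ 2) = k * (X * u ^ 2) := by ring
        _ ≤ X ^ 3 := h1
        _ = X * X ^ 2 := by ring
    exact le_of_mul_le_mul_left h2 hX0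
  -- a ≤ 2 X / u^3
  have ha3 : a * u ^ 3 ≤ 2 * X := by
    have h1 : (a * u ^ 3) * X ≤ 2 * X * X := by
      have h2 : (a * u) * (X * u ^ 2) ≤ (a * u) * n := mul_le_mul_of_nonneg_left hnX (by positivity)
      have h3 : u * (a * n) ≤ u * (2 * k * u) := mul_le_mul_of_nonneg_left han hu0.le
      nlinarith
    exact le_of_mul_le_mul_right h1 hX0
  have hau : a ≤ 2 * X / u := by
    rw [le_div_iff₀ hu0]
    have : u ≤ u ^ 3 := by
      calc u = u ^ 1 := (pow_one u).symm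
        _ ≤ u ^ 3 := pow_le_pow_right₀ hu (by norm_num)
    nlinarith
  have ha2 : a ≤ 2 * X := by
    have : 1 ≤ u ^ 3 := one_le_pow₀ hu
    nlinarith
  have hacube : a ^ 3 ≤ 8 * X ^ 3 / u := by
    have h1 : a ^ 2 ≤ 4 * X ^ 2 := by nlinarith
    calc a ^ 3 = a ^ 2 * a := by ring
      _ ≤ (4 * X ^ 2) * (2 * X / u) := mul_le_mul h1 hau ha (by positivity)
      _ = 8 * X ^ 3 / u := by ring
  have hasq : a ^ 2 ≤ 4 * X ^ 2 / u := by
    calc a ^ 2 = a * a := by ring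
      _ ≤ (2 * X) * (2 * X / u) := mul_le_mul ha2 hau ha (by positivity)
      _ = 4 * X ^ 2 / u := by ring
  have ha2n : a ^ 2 * n ≤ 4 * X ^ 3 / u := by
    have h1 : a ^ 2 * n ≤ a * (2 * k * u) := by
      calc a ^ 2 * n = a * (a * n) := by ring
        _ ≤ _ := mul_le_mul_of_nonneg_left han ha
    have h2 : a * (2 * k * u) * u ^ 4 ≤ 4 * X ^ 3 := by
      calc a * (2 * k * u) * u ^ 4 = 2 * (a * u ^ 3) * (k * u ^ 2) := by ring
        _ ≤ 2 * (2 * X) * (X ^ 2) := by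
            apply mul_le_mul _ hk2 (by positivity) (by positivity)
            linarith
        _ = 4 * X ^ 3 := by ring
    have h3 : u ≤ u ^ 4 := by
      calc u = u ^ 1 := (pow_one u).symm
        _ ≤ u ^ 4 := pow_le_pow_right₀ hu (by norm_num)
    rw [le_div_iff₀ hu0]
    calc a ^ 2 * n * u ≤ a * (2 * k * u) * u := mul_le_mul_of_nonneg_right h1 hu0.le
      _ ≤ a * (2 * k * u) * u ^ 4 := mul_le_mul_of_nonneg_left h3 (by positivity)
      _ ≤ _ := h2
  refine ⟨?_, ?_, ?_, ?_, ?_, ?_, ?_⟩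
  · rw [div_le_iff₀ (by positivity)]
    calc 140 * C * L * a ^ 3 ≤ 140 * C * L * (8 * X ^ 3 / u) :=
          mul_le_mul_of_nonneg_left hacube (by positivity)
      _ = _ := by ring
  · rw [div_le_div_iff₀ (by positivity) hK00]
    have : K0 * n ≤ K0 * k * n := by nlinarith [mul_pos hK00 hn0]
    linarith
  · have h1 : (2 * k + d * n) ≤ 3 * (k * n) := by nlinarith [mul_pos hk0 hn0]
    have h2 : k * n / X ^ 3 ≤ 1 / K0 := by
      rw [div_le_div_iff₀ (by positivity) hK00]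
      linarith
    calc (2 * k + d * n) * (79 / X ^ 3) ≤ 3 * (k * n) * (79 / X ^ 3) :=
          mul_le_mul_of_nonneg_right h1 (by positivity)
      _ = 237 * (k * n / X ^ 3) := by ring
      _ ≤ 237 * (1 / K0) := by linarith
      _ = 237 / K0 := by ring
  · rw [div_le_iff₀ (by positivity)]
    calc 3 * a ^ 2 ≤ 3 * (4 * X ^ 2 / u) := by linarith
      _ = 12 * (1 / u) * X ^ 2 := by ring
      _ ≤ 12 * (L / u) * X ^ 2 := by gcongr
  · have h1 : d * (2 * k) ≤ 2 * X ^ 3 / u := by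
      rw [le_div_iff₀ hu0]
      have h3 : k * n ≤ X ^ 3 := by nlinarith [mul_pos hk0 hn0]
      calc d * (2 * k) * u = 2 * k * (d * u) := by ring
        _ ≤ 2 * k * n := mul_le_mul_of_nonneg_left hd (by positivity)
        _ = 2 * (k * n) := by ring
        _ ≤ 2 * X ^ 3 := by linarith
    calc d * (2 * k) * (C * L / X ^ 3) ≤ 2 * X ^ 3 / u * (C * L / X ^ 3) :=
          mul_le_mul_of_nonneg_right h1 (by positivity)
      _ = 2 * C * (L / u) := by field_simp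
  · calc 3 * n * ((20 * C * a ^ 2 * X ^ 3 * L) / X ^ 6) = 60 * C * L * (a ^ 2 * n) / X ^ 3 := by
          field_simp
          ring
      _ ≤ 60 * C * L * (4 * X ^ 3 / u) / X ^ 3 := by gcongr
      _ = 240 * C * (L / u) := by field_simp; ring
  · calc (40 * C * a ^ 3 * L) / X ^ 3 ≤ (40 * C * (8 * X ^ 3 / u) * L) / X ^ 3 := by gcongr
      _ = 320 * C * (L / u) := by field_simp; ring

end R2Num

theorem regime2_of (hL : LLLPlace) : Regime2 := by
  have hC : (0 : ℝ) < C0 := by unfold C0; norm_num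
  obtain ⟨N0, hN0, hsmall⟩ := R2Num.log_small (12 + 2 * C0 + 240 * C0 + 320 * C0 + 1120 * C0) (1 / 64)
    (by positivity) (by norm_num)
  refine ⟨238 * 64, by norm_num, N0, ?_⟩
  intro N hN hNpos G n hn hk hkn
  have hN1 : 1 ≤ N := hNpos
  have hX : (1 : ℝ) ≤ N := by exact_mod_cast hN1
  have hX0 : (0 : ℝ) < N := by linarith
  have hlog : 0 ≤ Real.log N := Real.log_nonneg hX
  set u : ℝ := (N : ℝ) ^ (1 / (2 * 10 ^ 5) : ℝ) with hu
  have hu1 : 1 ≤ u := Real.one_le_rpow hX (by norm_num)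
  have hu0 : 0 < u := by linarith
  have hsm := hsmall N hN
  rw [← hu] at hsm
  have hkr : (1 : ℝ) ≤ edgeCount G n := by exact_mod_cast hk
  have hnX : (N : ℝ) * u ^ 2 ≤ n := by
    unfold NBound at hn
    push Not at hn
    refine le_trans (le_of_eq ?_) hn.le
    rw [hu, ← Real.rpow_natCast ((N : ℝ) ^ (1 / (2 * 10 ^ 5) : ℝ)) 2, ← Real.rpow_mul hX0.le]
    nth_rewrite 1 [← Real.rpow_one (N : ℝ)]
    rw [← Real.rpow_add hX0]
    congr 1
    norm_num
  have hn1 : (1 : ℝ) ≤ n := by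
    have : 1 ≤ u ^ 2 := one_le_pow₀ hu1
    nlinarith
  set A : Finset (Fin n) := univ.filter (fun v : Fin n => (n : ℝ) / u ≤ dg G v) with hA
  have ha := hub_card (n := n) G ((n : ℝ) / u)
  rw [← hA, k2_eq] at ha
  have han : (A.card : ℝ) * n ≤ 2 * edgeCount G n * u := by
    have : (A.card : ℝ) * ((n : ℝ) / u) = (A.card : ℝ) * n / u := by ring
    rw [this, div_le_iff₀ hu0] at ha
    exact ha
  have hkn' : 238 * 64 * (edgeCount G n : ℝ) * n ≤ (N : ℝ) ^ 3 := hkn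
  have key := fun (d : ℝ) (hd : d * u ≤ n) (hdk : d ≤ edgeCount G n) =>
    R2Num.num (X := N) (n := n) (k := edgeCount G n) (a := A.card) (u := u) (L := 1 + Real.log N)
      (K0 := 238 * 64) (C := C0) (d := d) hX hn1 hkr (Nat.cast_nonneg _) hu1 (by linarith)
      (by norm_num) hC hnX hkn' han hd hdk
  have hLu : 0 ≤ (1 + Real.log N) / u := by positivity
  have hpool : 140 * C0 * (1 + Real.log N) * (A.card : ℝ) ^ 3 ≤ (N : ℝ) ^ 3 := by
    have h1 := (key 0 (by simp) (by positivity)).1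
    have h2 : 1120 * C0 * ((1 + Real.log N) / u) ≤ 1 := by
      have : 0 ≤ (12 + 2 * C0 + 240 * C0 + 320 * C0) * ((1 + Real.log N) / u) := by positivity
      linarith
    have h3 := le_trans h1 h2
    rw [div_le_iff₀ (by positivity), one_mul] at h3
    exact h3
  obtain ⟨h, hm, hinj, hcol, hcop, hKK, hPP⟩ := pool A hN1 hpool
  refine hL G A h hN1 ⟨hm, hinj, hcol, hcop⟩ ?_
  intro v hv
  have hdv : dg G v * u ≤ n := by
    rw [hA, Finset.mem_filter] at hv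
    push Not at hv
    have := hv (Finset.mem_univ _)
    rw [lt_div_iff₀ hu0] at this
    exact this.le
  have hdk := dg_le G v
  obtain ⟨_, t1, t2, t3, t4, t5, t6⟩ := key (dg G v) hdv hdk
  rw [k2_eq]
  have hd0 := dg_nonneg G v
  have t4' : dg G v * (2 * (edgeCount G n : ℝ)) * (C0 * (1 + Real.log N) / (N : ℝ) ^ 3) ≤
    2 * C0 * ((1 + Real.log N) / u) := t4
  have t5' : 3 * n * ((∑ u ∈ A, ∑ w ∈ A, if u ≠ w then KK N (h u) (h w) else 0) / (N : ℝ) ^ 6) ≤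
      240 * C0 * ((1 + Real.log N) / u) := by
    refine le_trans ?_ t5
    gcongr
  have t6' : (∑ u ∈ A, ∑ w ∈ A, ∑ x ∈ A, if u ≠ w ∧ u ≠ x ∧ w ≠ x then PP N (h u) (h w) (h x) else 0) /
        (N : ℝ) ^ 3 ≤ 320 * C0 * ((1 + Real.log N) / u) := by
    refine le_trans ?_ t6
    gcongr
  have hfin : (12 + 2 * C0 + 240 * C0 + 320 * C0) * ((1 + Real.log N) / u) ≤ 1 / 64 := by
    have : 0 ≤ 1120 * C0 * ((1 + Real.log N) / u) := by positivity
    linarith
  have hK : (1 : ℝ) / (238 * 64) + 237 / (238 * 64) = 1 / 64 := by norm_num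
  linarith

end

end Pool.Agent.Grid3D
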