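import Pool.Agent.Grid3D.HubPool
import Pool.Agent.Grid3D.ProcGood

set_option autoImplicit false

/-! Regime 2, step 2: the probabilities of the bad events. -/

namespace Pool.Agent.Grid3D

open Finset Classical

noncomputable section

lemma ic_swap (x y z : Pt) : ic x y z = ic y x z := by
  unfold ic
  have : Col x y z ↔ Col y x z := ⟨col_swap, col_swap⟩
  simp only [this]

lemma ic_rot (x y z : Pt) : ic x y z = ic y z x := by
  unfold ic
  have : Col x y z ↔ Col y z x := ⟨col_rot, fun h => col_rot (col_rot h)⟩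
  simp only [this]

lemma ip_swap12 (x y z w : Pt) : ip x y z w = ip y x z w := by
  unfold ip
  have : Cop x y z w ↔ Cop y x z w := ⟨cop_swap12, cop_swap12⟩
  simp only [this]

lemma ip_swap23 (x y z w : Pt) : ip x y z w = ip x z y w := by
  unfold ip
  have : Cop x y z w ↔ Cop x z y w := ⟨cop_swap23, cop_swap23⟩
  simp only [this]

lemma ip_swap34 (x y z w : Pt) : ip x y z w = ip x y w z := by
  unfold ip
  have : Cop x y z w ↔ Cop x y w z := ⟨cop_swap34, cop_swap34⟩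
  simp only [this]

/-- rotate: last to first -/
lemma ip_rot (x y z w : Pt) : ip x y z w = ip w x y z := by
  rw [ip_swap34, ip_swap23, ip_swap12]

section

variable {V : Type*} [Fintype V] [DecidableEq V]

/-- the sets of allowed positions -/
def YY (N : ℕ) (A : Finset V) (h : V → Pt) (v : V) : Finset Pt := if v ∈ A then {h v} else box N

variable {N : ℕ} {A : Finset V} {h : V → Pt}

lemma YY_mem {v : V} (hv : v ∈ A) : YY N A h v = {h v} := if_pos hv
lemma YY_notMem {v : V} (hv : v ∉ A) : YY N A h v = box N := if_neg hv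

lemma YY_nonempty (hN : 1 ≤ N) (v : V) : (YY N A h v).Nonempty := by
  unfold YY
  split_ifs
  · exact Finset.singleton_nonempty _
  · exact box_nonempty hN

lemma av_YY_mem {v : V} (hv : v ∈ A) (f : Pt → ℝ) : av (YY N A h v) f = f (h v) := by
  rw [YY_mem hv, av_singleton]

lemma av_YY_notMem {v : V} (hN : 1 ≤ N) (hv : v ∉ A) (f : Pt → ℝ) :
    av (YY N A h v) f = (∑ y ∈ box N, f y) / (N : ℝ) ^ 3 := by
  rw [YY_notMem hv, av_box hN]

lemma E_eq (hN : 1 ≤ N) {v w : V} (hv : v ∉ A) (hvw : w ≠ v) :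
    Ev (YY N A h) (fun p => if p v = p w then (1 : ℝ) else 0) ≤ 1 / (N : ℝ) ^ 3 := by
  have hN' : (0 : ℝ) < N := by exact_mod_cast hN
  rw [Ev2 (YY_nonempty hN) hvw (fun y0 y1 => if y1 = y0 then (1 : ℝ) else 0)]
  have h1 : ∀ y0 ∈ YY N A h w, av (YY N A h v) (fun y1 => if y1 = y0 then (1 : ℝ) else 0) ≤
      1 / (N : ℝ) ^ 3 := by
    intro y0 _
    rw [av_YY_notMem hN hv, Finset.sum_ite_eq']
    refine div_le_div_of_nonneg_right ?_ (by positivity)
    split_ifs <;> norm_num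
  refine (av_mono h1).trans (le_of_eq ?_)
  exact av_const (YY_nonempty hN w) _

/-- the hub positions are good -/
structure HubOK (N : ℕ) (A : Finset V) (h : V → Pt) : Prop where
  mem : ∀ v ∈ A, h v ∈ box N
  inj : ∀ u ∈ A, ∀ v ∈ A, u ≠ v → h u ≠ h v
  ncol : ∀ u ∈ A, ∀ v ∈ A, ∀ w ∈ A, u ≠ v → u ≠ w → v ≠ w → ¬ Col (h u) (h v) (h w)
  ncop : ∀ a ∈ A, ∀ b ∈ A, ∀ c ∈ A, ∀ d ∈ A, a ≠ b → a ≠ c → a ≠ d → b ≠ c → b ≠ d → c ≠ d →
        ¬ Cop (h a) (h b) (h c) (h d)

lemma sum_line {x y : Pt} (hx : x ∈ box N) (hy : y ∈ box N) (hne : x ≠ y) :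
    ∑ z ∈ box N, ic x y z ≤ 3 * N := by
  have h1 := Geo2.card_line hx hy hne.symm
  have h2 : ∑ z ∈ box N, ic x y z = (((box N).filter (fun z => Col x y z)).card : ℝ) := by
    rw [Finset.card_filter]
    push_cast
    rfl
  rw [h2]
  refine h1.trans ?_
  have h3 : 0 < nrm (Geo2.prim (y - x)) :=
    Geo2.Prim.nrm_pos (Geo2.prim_Prim (sub_ne_zero.2 hne.symm))
  have h4 : (1 : ℝ) ≤ nrm (Geo2.prim (y - x)) := by exact_mod_cast h3
  exact div_le_self (by positivity) h4

lemma E_col (hN : 1 ≤ N) (hh : HubOK N A h) {v x y : V} (hv : v ∉ A) (hxv : x ≠ v) (hyv : y ≠ v)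
    (hxy : x ≠ y) :
    Ev (YY N A h) (fun p => ic (p v) (p x) (p y)) ≤
      79 / (N : ℝ) ^ 3 + (if x ∈ A ∧ y ∈ A then 3 / (N : ℝ) ^ 2 else 0) := by
  have hN' : (0 : ℝ) < N := by exact_mod_cast hN
  rw [Ev3 (YY_nonempty hN) hxy hxv hyv (fun y0 y1 y2 => ic y2 y0 y1)]
  by_cases hx : x ∈ A
  · rw [av_YY_mem hx]
    by_cases hy : y ∈ A
    · rw [av_YY_mem hy, av_YY_notMem hN hv, if_pos ⟨hx, hy⟩]
      have h1 : ∑ z ∈ box N, ic z (h x) (h y) ≤ 3 * N := by
        refine le_trans (le_of_eq ?_) (sum_line (hh.mem x hx) (hh.mem y hy)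
          (hh.inj x hx y hy hxy))
        refine Finset.sum_congr rfl (fun z _ => ?_)
        rw [ic_rot]
      have h2 : (∑ z ∈ box N, ic z (h x) (h y)) / (N : ℝ) ^ 3 ≤ 3 / (N : ℝ) ^ 2 := by
        rw [div_le_div_iff₀ (by positivity) (by positivity)]
        calc (∑ z ∈ box N, ic z (h x) (h y)) * (N : ℝ) ^ 2 ≤ (3 * N) * (N : ℝ) ^ 2 :=
              mul_le_mul_of_nonneg_right h1 (by positivity)
          _ = 3 * (N : ℝ) ^ 3 := by ring
      have h3 : (0 : ℝ) ≤ 79 / (N : ℝ) ^ 3 := by positivity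
      linarith
    · rw [av_YY_notMem hN hy, if_neg (fun hc => hy hc.2), add_zero]
      simp only [av_YY_notMem hN hv]
      rw [← Finset.sum_div, div_div, div_le_div_iff₀ (by positivity) (by positivity)]
      have h1 : ∑ i ∈ box N, ∑ z ∈ box N, ic z (h x) i ≤ 79 * (N : ℝ) ^ 3 := by
        refine le_trans (le_of_eq ?_) (sum_T2 (hh.mem x hx))
        refine Finset.sum_congr rfl (fun i _ => Finset.sum_congr rfl (fun z _ => ?_))
        rw [ic_rot]
      nlinarith [pow_pos hN' 3]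
  · have hneg : ¬ (x ∈ A ∧ y ∈ A) := fun hc => hx hc.1
    rw [if_neg hneg, add_zero, av_YY_notMem hN hx]
    by_cases hy : y ∈ A
    · simp only [av_YY_mem hy, av_YY_notMem hN hv]
      rw [← Finset.sum_div, div_div, div_le_div_iff₀ (by positivity) (by positivity)]
      have h1 : ∑ i ∈ box N, ∑ z ∈ box N, ic z i (h y) ≤ 79 * (N : ℝ) ^ 3 := by
        refine le_trans (le_of_eq ?_) (sum_T2 (hh.mem y hy))
        rw [Finset.sum_comm]
        refine Finset.sum_congr rfl (fun i _ => Finset.sum_congr rfl (fun z _ => ?_))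
        rw [ic_rot, ic_rot]
      nlinarith [pow_pos hN' 3]
    · simp only [av_YY_notMem hN hy, av_YY_notMem hN hv]
      simp only [← Finset.sum_div, div_div]
      rw [div_le_div_iff₀ (by positivity) (by positivity)]
      have h1 : ∑ i ∈ box N, ∑ j ∈ box N, ∑ z ∈ box N, ic z i j ≤ 79 * (N : ℝ) ^ 6 := by
        refine le_trans (le_of_eq ?_) (sum_three_le N)
        refine Finset.sum_congr rfl (fun i _ => Finset.sum_congr rfl (fun j _ =>
          Finset.sum_congr rfl (fun z _ => ?_)))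
        rw [ic_rot]
      calc (∑ i ∈ box N, ∑ j ∈ box N, ∑ z ∈ box N, ic z i j) * (N : ℝ) ^ 3
          ≤ 79 * (N : ℝ) ^ 6 * (N : ℝ) ^ 3 := mul_le_mul_of_nonneg_right h1 (by positivity)
        _ = 79 * ((N : ℝ) ^ 3 * (N : ℝ) ^ 3 * (N : ℝ) ^ 3) := by ring

/-- the three pair terms and the triple term of a coplanarity event -/
def extra (N : ℕ) (A : Finset V) (h : V → Pt) (b c d : V) : ℝ :=
  (if b ∈ A ∧ c ∈ A then KK N (h b) (h c) / (N : ℝ) ^ 6 else 0) +
  (if b ∈ A ∧ d ∈ A then KK N (h b) (h d) / (N : ℝ) ^ 6 else 0) +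
  (if c ∈ A ∧ d ∈ A then KK N (h c) (h d) / (N : ℝ) ^ 6 else 0) +
  (if b ∈ A ∧ c ∈ A ∧ d ∈ A then PP N (h b) (h c) (h d) / (N : ℝ) ^ 3 else 0)

lemma E_cop (hN : 1 ≤ N) (hh : HubOK N A h) {v b c d : V} (hv : v ∉ A) (hbv : b ≠ v) (hcv : c ≠ v)
    (hdv : d ≠ v) (hbc : b ≠ c) (hbd : b ≠ d) (hcd : c ≠ d) :
    Ev (YY N A h) (fun p => ip (p v) (p b) (p c) (p d)) ≤
      C0 * (1 + Real.log N) / (N : ℝ) ^ 3 + extra N A h b c d := by
  have hN' : (0 : ℝ) < N := by exact_mod_cast hN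
  have hN1 : (1 : ℝ) ≤ N := by exact_mod_cast hN
  have hlog : 0 ≤ Real.log N := Real.log_nonneg hN1
  have hC0 : (0 : ℝ) < C0 := by linarith [C0_ge]
  have hmain : 0 ≤ C0 * (1 + Real.log N) / (N : ℝ) ^ 3 := by positivity
  have hKn : ∀ z z', 0 ≤ KK N z z' / (N : ℝ) ^ 6 := fun z z' =>
    div_nonneg (KK_nonneg _ _ _) (by positivity)
  have hPn : ∀ z z' z'', 0 ≤ PP N z z' z'' / (N : ℝ) ^ 3 := fun z z' z'' =>
    div_nonneg (PP_nonneg _ _ _ _) (by positivity)
  have hite1 : 0 ≤ (if b ∈ A ∧ c ∈ A then KK N (h b) (h c) / (N : ℝ) ^ 6 else 0) := by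
    split_ifs
    · exact hKn _ _
    · exact le_refl _
  have hite2 : 0 ≤ (if b ∈ A ∧ d ∈ A then KK N (h b) (h d) / (N : ℝ) ^ 6 else 0) := by
    split_ifs
    · exact hKn _ _
    · exact le_refl _
  have hite3 : 0 ≤ (if c ∈ A ∧ d ∈ A then KK N (h c) (h d) / (N : ℝ) ^ 6 else 0) := by
    split_ifs
    · exact hKn _ _
    · exact le_refl _
  have hite4 : 0 ≤ (if b ∈ A ∧ c ∈ A ∧ d ∈ A then PP N (h b) (h c) (h d) / (N : ℝ) ^ 3
      else 0) := by
    split_ifs
    · exact hPn _ _ _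
    · exact le_refl _
  have one : ∀ {S : ℝ}, S ≤ C0 * (N : ℝ) ^ 6 * (1 + Real.log N) →
      S / (N : ℝ) ^ 9 ≤ C0 * (1 + Real.log N) / (N : ℝ) ^ 3 := by
    intro S hS
    rw [div_le_div_iff₀ (by positivity) (by positivity)]
    calc S * (N : ℝ) ^ 3 ≤ C0 * (N : ℝ) ^ 6 * (1 + Real.log N) * (N : ℝ) ^ 3 :=
          mul_le_mul_of_nonneg_right hS (by positivity)
      _ = C0 * (1 + Real.log N) * (N : ℝ) ^ 9 := by ring
  have p9 : (N : ℝ) ^ 3 * (N : ℝ) ^ 3 * (N : ℝ) ^ 3 = (N : ℝ) ^ 9 := by ring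
  have p6 : (N : ℝ) ^ 3 * (N : ℝ) ^ 3 = (N : ℝ) ^ 6 := by ring
  unfold extra
  rw [Ev4 (YY_nonempty hN) hbc hbd hbv hcd hcv hdv (fun y0 y1 y2 y3 => ip y3 y0 y1 y2)]
  by_cases hb : b ∈ A
  · rw [av_YY_mem hb]
    by_cases hc : c ∈ A
    · rw [av_YY_mem hc]
      by_cases hd : d ∈ A
      · rw [av_YY_mem hd, av_YY_notMem hN hv]
        have e : (∑ z ∈ box N, ip z (h b) (h c) (h d)) = PP N (h b) (h c) (h d) :=
          Finset.sum_congr rfl (fun z _ => (ip_rot _ _ _ _).symm)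
        have e4 : (if b ∈ A ∧ c ∈ A ∧ d ∈ A then PP N (h b) (h c) (h d) / (N : ℝ) ^ 3
            else 0) = PP N (h b) (h c) (h d) / (N : ℝ) ^ 3 := if_pos ⟨hb, hc, hd⟩
        rw [e, e4]
        linarith
      · rw [av_YY_notMem hN hd]
        simp only [av_YY_notMem hN hv]
        rw [← Finset.sum_div, div_div, p6]
        have e : (∑ y ∈ box N, ∑ z ∈ box N, ip z (h b) (h c) y) = KK N (h b) (h c) :=
          Finset.sum_congr rfl (fun y _ => Finset.sum_congr rfl (fun z _ => by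
            rw [← ip_rot (h b) (h c) y z]))
        rw [e, if_pos (⟨hb, hc⟩ : b ∈ A ∧ c ∈ A)]
        linarith
    · rw [av_YY_notMem hN hc]
      by_cases hd : d ∈ A
      · simp only [av_YY_mem hd, av_YY_notMem hN hv]
        rw [← Finset.sum_div, div_div, p6]
        have e : (∑ y ∈ box N, ∑ z ∈ box N, ip z (h b) y (h d)) = KK N (h b) (h d) :=
          Finset.sum_congr rfl (fun y _ => Finset.sum_congr rfl (fun z _ => by
            rw [← ip_rot (h b) y (h d) z, ip_swap23]))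
        rw [e, if_pos (⟨hb, hd⟩ : b ∈ A ∧ d ∈ A)]
        linarith
      · simp only [av_YY_notMem hN hd, av_YY_notMem hN hv]
        simp only [← Finset.sum_div, div_div]
        rw [p9]
        have e : (∑ x ∈ box N, ∑ y ∈ box N, ∑ z ∈ box N, ip z (h b) x y) =
            ∑ x ∈ box N, ∑ y ∈ box N, ∑ z ∈ box N, ip (h b) x y z :=
          Finset.sum_congr rfl (fun x _ => Finset.sum_congr rfl (fun y _ =>
            Finset.sum_congr rfl (fun z _ => by rw [← ip_rot (h b) x y z])))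
        rw [e]
        have := one (sum_T3 (hh.mem b hb))
        linarith
  · rw [av_YY_notMem hN hb]
    by_cases hc : c ∈ A
    · simp only [av_YY_mem hc]
      by_cases hd : d ∈ A
      · simp only [av_YY_mem hd, av_YY_notMem hN hv]
        rw [← Finset.sum_div, div_div, p6]
        have e : (∑ y ∈ box N, ∑ z ∈ box N, ip z y (h c) (h d)) = KK N (h c) (h d) :=
          Finset.sum_congr rfl (fun y _ => Finset.sum_congr rfl (fun z _ => by
            rw [← ip_rot y (h c) (h d) z, ip_swap12, ip_swap23]))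
        rw [e, if_pos (⟨hc, hd⟩ : c ∈ A ∧ d ∈ A)]
        linarith
      · simp only [av_YY_notMem hN hd, av_YY_notMem hN hv]
        simp only [← Finset.sum_div, div_div]
        rw [p9]
        have e : (∑ x ∈ box N, ∑ y ∈ box N, ∑ z ∈ box N, ip z x (h c) y) =
            ∑ x ∈ box N, ∑ y ∈ box N, ∑ z ∈ box N, ip (h c) x y z :=
          Finset.sum_congr rfl (fun x _ => Finset.sum_congr rfl (fun y _ =>
            Finset.sum_congr rfl (fun z _ => by
              rw [← ip_rot x (h c) y z, ip_swap12])))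
        rw [e]
        have := one (sum_T3 (hh.mem c hc))
        linarith
    · simp only [av_YY_notMem hN hc]
      by_cases hd : d ∈ A
      · simp only [av_YY_mem hd, av_YY_notMem hN hv]
        simp only [← Finset.sum_div, div_div]
        rw [p9]
        have e : (∑ x ∈ box N, ∑ y ∈ box N, ∑ z ∈ box N, ip z x y (h d)) =
            ∑ x ∈ box N, ∑ y ∈ box N, ∑ z ∈ box N, ip (h d) x y z :=
          Finset.sum_congr rfl (fun x _ => Finset.sum_congr rfl (fun y _ =>
            Finset.sum_congr rfl (fun z _ => by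
              rw [← ip_rot x y (h d) z, ip_swap23, ip_swap12])))
        rw [e]
        have := one (sum_T3 (hh.mem d hd))
        linarith
      · simp only [av_YY_notMem hN hd, av_YY_notMem hN hv]
        simp only [← Finset.sum_div, div_div]
        have p12 : (N : ℝ) ^ 3 * (N : ℝ) ^ 3 * (N : ℝ) ^ 3 * (N : ℝ) ^ 3 = (N : ℝ) ^ 12 := by ring
        rw [p12]
        have e : (∑ t ∈ box N, ∑ x ∈ box N, ∑ y ∈ box N, ∑ z ∈ box N, ip z t x y) =
            ∑ t ∈ box N, ∑ x ∈ box N, ∑ y ∈ box N, ∑ z ∈ box N, ip t x y z :=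
          Finset.sum_congr rfl (fun t _ => Finset.sum_congr rfl (fun x _ =>
            Finset.sum_congr rfl (fun y _ => Finset.sum_congr rfl (fun z _ => by
              rw [← ip_rot t x y z]))))
        rw [e]
        have h4 : (∑ t ∈ box N, ∑ x ∈ box N, ∑ y ∈ box N, ∑ z ∈ box N, ip t x y z) /
            (N : ℝ) ^ 12 ≤ C0 * (1 + Real.log N) / (N : ℝ) ^ 3 := by
          rw [div_le_div_iff₀ (by positivity) (by positivity)]
          calc (∑ t ∈ box N, ∑ x ∈ box N, ∑ y ∈ box N, ∑ z ∈ box N, ip t x y z) * (N : ℝ) ^ 3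
              ≤ C0 * (N : ℝ) ^ 9 * (1 + Real.log N) * (N : ℝ) ^ 3 :=
                mul_le_mul_of_nonneg_right (sum_four_le N) (by positivity)
            _ = C0 * (1 + Real.log N) * (N : ℝ) ^ 12 := by ring
        linarith

end

end

end Pool.Agent.Grid3D
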