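import Pool.Agent.Grid3D.R2Prob
import Pool.Agent.Grid3D.Regime2Spec

set_option autoImplicit false

namespace Pool.Agent.Grid3D

open Finset Classical

noncomputable section

/-- degree inside `{0,…,n-1}` -/
def dg {n : ℕ} (G : SimpleGraph ℕ) (v : Fin n) : ℝ :=
  ((univ.filter (fun u : Fin n => G.Adj v u)).card : ℝ)

/-- number of ordered adjacent pairs -/
def k2 (n : ℕ) (G : SimpleGraph ℕ) : ℝ :=
  ((univ.filter (fun q : Fin n × Fin n => G.Adj q.1 q.2)).card : ℝ)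

/-- Regime 2, step 3 (helper96, in progress): placement of the non hub vertices by the local lemma. -/
def LLLPlace : Prop := ∀ {n N : ℕ} (G : SimpleGraph ℕ) (A : Finset (Fin n)) (h : Fin n → Pt),
    1 ≤ N → HubOK N A h →
    (∀ v, v ∉ A → (n : ℝ) / (N : ℝ) ^ 3 + (k2 n G + dg G v * n) * (79 / (N : ℝ) ^ 3) +
      3 * (A.card : ℝ) ^ 2 / (N : ℝ) ^ 2 +
      dg G v * k2 n G * (C0 * (1 + Real.log N) / (N : ℝ) ^ 3) +
      3 * n * ((∑ u ∈ A, ∑ w ∈ A, if u ≠ w then KK N (h u) (h w) else 0) / (N : ℝ) ^ 6) +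
      (∑ u ∈ A, ∑ w ∈ A, ∑ x ∈ A, if u ≠ w ∧ u ≠ x ∧ w ≠ x then PP N (h u) (h w) (h x) else 0) /
        (N : ℝ) ^ 3 ≤ 1 / 16) →
    ∃ φ, Good N n G φ

/-- Regime 2, step 4 (numerics: choice of the hubs `A = {v : dg G v ≥ n N^(-η/2)}`, η = 10^(-5),
pool lemma `pool`, verification of the sum): wanted `theorem regime2_of : LLLPlace → Regime2`. -/
def Step4 : Prop := LLLPlace → Regime2

end

end Pool.Agent.Grid3D
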