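import Pool.Agent.Grid3D.RuleA2Tuple
import Pool.Agent.Grid3D.A2Count
import Pool.Agent.Grid3D.Geo3

/-!
# Rule (A1)
-/

set_option autoImplicit false

open Classical Finset

noncomputable section

namespace Pool.Agent.Grid3D.RuleA1

open RuleA2 A2 Params

/-- triples coplanar with `x`, all four points distinct -/
def T (N : ℕ) (x : Pt) : Finset (Pt × Pt × Pt) :=
  (box N ×ˢ box N ×ˢ box N).filter (fun p => Cop x p.1 p.2.1 p.2.2 ∧ p.1 ≠ x ∧ p.2.1 ≠ x ∧
    p.2.2 ≠ x ∧ p.2.1 ≠ p.1 ∧ p.2.2 ≠ p.1 ∧ p.2.1 ≠ p.2.2)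

theorem mem_T {N : ℕ} {x : Pt} {p : Pt × Pt × Pt} : p ∈ T N x ↔
    (p.1 ∈ box N ∧ p.2.1 ∈ box N ∧ p.2.2 ∈ box N) ∧ (Cop x p.1 p.2.1 p.2.2 ∧ p.1 ≠ x ∧ p.2.1 ≠ x ∧
    p.2.2 ≠ x ∧ p.2.1 ≠ p.1 ∧ p.2.2 ≠ p.1 ∧ p.2.1 ≠ p.2.2) := by
  rw [T, mem_filter, mem_product, mem_product]

theorem card_T {N : ℕ} {x : Pt} (hx : x ∈ box N) :
    ((T N x).card : ℝ) ≤ 34580989 * (N : ℝ) ^ 6 * (1 + Real.log N) := by
  refine le_trans ?_ (Geo2.G4 hx)
  have : T N x ⊆ (box N ×ˢ box N ×ˢ box N).filter (fun p => Cop x p.1 p.2.1 p.2.2) := by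
    intro p hp
    rw [T, mem_filter] at hp
    exact mem_filter.2 ⟨hp.1, hp.2.1⟩
  exact_mod_cast card_le_card this

/-- all six pairs spread -/
def Spr (N : ℕ) (x : Pt) (p : Pt × Pt × Pt) : Prop :=
  Spread N x p.1 ∧ Spread N x p.2.1 ∧ Spread N x p.2.2 ∧ Spread N p.1 p.2.1 ∧ Spread N p.1 p.2.2 ∧
    Spread N p.2.1 p.2.2

theorem lt_of_not_spread {N : ℕ} {a b : Pt} (h : ¬ Spread N a b) :
    dirN a b < ⌈(N : ℝ) ^ (9 / 10 : ℝ)⌉₊ := by
  have h1 : (dirN a b : ℝ) < (N : ℝ) ^ (9 / 10 : ℝ) := not_le.1 h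
  have h2 := h1.trans_le (Nat.le_ceil _)
  exact_mod_cast h2

theorem card_nonspr {N : ℕ} {x : Pt} (hx : x ∈ box N) :
    (((T N x).filter (fun p => ¬ Spr N x p)).card : ℝ) ≤
      6 * (17290494 * (N : ℝ) ^ 5 * ⌈(N : ℝ) ^ (9 / 10 : ℝ)⌉₊ * (1 + Real.log N)) := by
  set D := ⌈(N : ℝ) ^ (9 / 10 : ℝ)⌉₊ with hD
  set U := (box N ×ˢ box N ×ˢ box N).filter
      (fun p => p.1 ≠ x ∧ dirN x p.1 < D ∧ Cop x p.1 p.2.1 p.2.2) with hU
  set W := (box N ×ˢ box N ×ˢ box N).filter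
      (fun p => p.2.1 ≠ p.1 ∧ dirN p.1 p.2.1 < D ∧ Cop x p.1 p.2.1 p.2.2) with hW
  have hUc : (U.card : ℝ) ≤ 17290494 * (N : ℝ) ^ 5 * D * (1 + Real.log N) := Geo2.G7a' hx
  have hWc : (W.card : ℝ) ≤ 17290494 * (N : ℝ) ^ 5 * D * (1 + Real.log N) := Geo2.G7b' hx
  -- the six injections
  have hsub : (T N x).filter (fun p => ¬ Spr N x p) ⊆
      U ∪ (U.image (fun q => (q.2.1, q.1, q.2.2)) ∪ (U.image (fun q => (q.2.1, q.2.2, q.1)) ∪
      (W ∪ (W.image (fun q => (q.1, q.2.2, q.2.1)) ∪ W.image (fun q => (q.2.2, q.1, q.2.1)))))) := by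
    rintro ⟨u, z, w⟩ hp
    rw [mem_filter, mem_T] at hp
    obtain ⟨⟨⟨hu, hz, hw⟩, hcop, hux, hzx, hwx, hzu, hwu, hzw⟩, hns⟩ := hp
    simp only at hu hz hw hcop hux hzx hwx hzu hwu hzw
    rw [Spr] at hns
    simp only [not_and_or] at hns
    rcases hns with h | h | h | h | h | h
    · refine mem_union_left _ ?_
      rw [hU, mem_filter, mem_product, mem_product]
      exact ⟨⟨hu, hz, hw⟩, hux, lt_of_not_spread h, hcop⟩
    · refine mem_union_right _ (mem_union_left _ ?_)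
      refine mem_image.2 ⟨(z, u, w), ?_, rfl⟩
      rw [hU, mem_filter, mem_product, mem_product]
      exact ⟨⟨hz, hu, hw⟩, hzx, lt_of_not_spread h, cop_swap23 hcop⟩
    · refine mem_union_right _ (mem_union_right _ (mem_union_left _ ?_))
      refine mem_image.2 ⟨(w, u, z), ?_, rfl⟩
      rw [hU, mem_filter, mem_product, mem_product]
      exact ⟨⟨hw, hu, hz⟩, hwx, lt_of_not_spread h, cop_swap23 (cop_swap34 hcop)⟩
    · refine mem_union_right _ (mem_union_right _ (mem_union_right _ (mem_union_left _ ?_)))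
      rw [hW, mem_filter, mem_product, mem_product]
      exact ⟨⟨hu, hz, hw⟩, hzu, lt_of_not_spread h, hcop⟩
    · refine mem_union_right _ (mem_union_right _ (mem_union_right _ (mem_union_right _
        (mem_union_left _ ?_))))
      refine mem_image.2 ⟨(u, w, z), ?_, rfl⟩
      rw [hW, mem_filter, mem_product, mem_product]
      exact ⟨⟨hu, hw, hz⟩, hwu, lt_of_not_spread h, cop_swap34 hcop⟩
    · refine mem_union_right _ (mem_union_right _ (mem_union_right _ (mem_union_right _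
        (mem_union_right _ ?_))))
      refine mem_image.2 ⟨(z, w, u), ?_, rfl⟩
      rw [hW, mem_filter, mem_product, mem_product]
      exact ⟨⟨hz, hw, hu⟩, hzw.symm, lt_of_not_spread h, cop_swap34 (cop_swap23 hcop)⟩
  have hcard : ((T N x).filter (fun p => ¬ Spr N x p)).card ≤
      U.card + (U.card + (U.card + (W.card + (W.card + W.card)))) := by
    refine (card_le_card hsub).trans ?_
    refine (card_union_le _ _).trans (Nat.add_le_add_left ?_ _)
    refine (card_union_le _ _).trans (Nat.add_le_add card_image_le ?_)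
    refine (card_union_le _ _).trans (Nat.add_le_add card_image_le ?_)
    refine (card_union_le _ _).trans (Nat.add_le_add_left ?_ _)
    exact (card_union_le _ _).trans (Nat.add_le_add card_image_le card_image_le)
  have hcard' : ((((T N x).filter (fun p => ¬ Spr N x p)).card : ℕ) : ℝ) ≤
      U.card + (U.card + (U.card + (W.card + (W.card + W.card)))) := by exact_mod_cast hcard
  linarith

/-- pointwise bound of the hazard -/
theorem ph_le (P : Params) {s : ℕ} {ω : ℕ → Pt} {x : Pt} (hω : P.Alive s ω)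
    (hx : x ∈ P.act s ω) :
    P.ph s ω x ≤ 2 / P.V * (P.wa s ω x + ∑ q ∈ A2.adm P.G s, ∑ p ∈ T P.N x,
      P.wa s ω p.1 * ((if ω q.1 = p.2.1 then 1 else 0) * (if ω q.2 = p.2.2 then 1 else 0))) := by
  have hV := P.V_pos
  rw [P.ph_eq]
  refine mul_le_mul_of_nonneg_left ?_ (by positivity)
  set Gq : ℕ × ℕ → Pt × Pt × Pt → ℝ := fun q p =>
    P.wa s ω p.1 * ((if ω q.1 = p.2.1 then 1 else 0) * (if ω q.2 = p.2.2 then 1 else 0)) with hGq
  have hG0 : ∀ q p, 0 ≤ Gq q p := by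
    intro q p
    simp only [hGq]
    refine mul_nonneg (P.wa_nonneg _ _ _) ?_
    split_ifs <;> norm_num
  have hpt : ∀ u ∈ P.K s ω x, P.wa s ω u ≤ (if u = x then P.wa s ω x else 0) +
      ∑ q ∈ A2.adm P.G s, ∑ p ∈ T P.N x, (if p.1 = u then Gq q p else 0) := by
    intro u hu
    have hnn : 0 ≤ ∑ q ∈ A2.adm P.G s, ∑ p ∈ T P.N x, (if p.1 = u then Gq q p else 0) :=
      sum_nonneg fun q _ => sum_nonneg fun p _ => by split_ifs <;> first | exact hG0 _ _ | exact le_rfl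
    by_cases hux : u = x
    · rw [if_pos hux, hux]; rw [hux] at hnn; linarith
    · rw [if_neg hux, zero_add]
      by_cases hwu : P.wa s ω u = 0
      · rw [hwu]; exact hnn
      have huact := P.mem_act_of_wa_ne_zero hwu
      obtain ⟨hub, hcd⟩ := P.mem_K.1 hu
      obtain ⟨c, d, ⟨hc, hd, hne, hadm⟩, hcop⟩ := hcd.resolve_left hux
      -- the ordered pair
      obtain ⟨c', d', hc', hd', hlt, hadm', hcop'⟩ : ∃ c' d', c' < s ∧ d' < s ∧ c' < d' ∧
          (P.G.Adj c' d' ∨ P.G.Adj s c' ∨ P.G.Adj s d') ∧ Cop x u (ω c') (ω d') := by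
        rcases lt_or_gt_of_ne hne with h | h
        · exact ⟨c, d, hc, hd, h, hadm, hcop⟩
        · refine ⟨d, c, hd, hc, h, ?_, cop_swap34 hcop⟩
          rcases hadm with h | h | h
          · exact Or.inl h.symm
          · exact Or.inr (Or.inr h)
          · exact Or.inr (Or.inl h)
      have hq : (c', d') ∈ A2.adm P.G s := by
        simp only [A2.adm, mem_filter, mem_product, mem_range]
        exact ⟨⟨hc', hd'⟩, hlt, hadm'⟩
      have hp : (u, ω c', ω d') ∈ T P.N x := by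
        rw [mem_T]
        refine ⟨⟨hub, P.mem_box_of_alive hω hc', P.mem_box_of_alive hω hd'⟩, hcop', hux,
          P.ne_of_mem_act hx hc', P.ne_of_mem_act hx hd', P.ne_of_mem_act huact hc',
          P.ne_of_mem_act huact hd', ?_⟩
        exact P.ne_of_mem_act (P.act'_subset_act d' ω (hω d' hd').2) hlt
      have h1 : P.wa s ω u = (if (u, ω c', ω d').1 = u then Gq (c', d') (u, ω c', ω d') else 0) := by
        simp [hGq]
      have h2 : (if (u, ω c', ω d').1 = u then Gq (c', d') (u, ω c', ω d') else 0) ≤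
          ∑ p ∈ T P.N x, (if p.1 = u then Gq (c', d') p else 0) :=
        single_le_sum (f := fun p : Pt × Pt × Pt => if p.1 = u then Gq (c', d') p else 0)
          (fun p _ => by
            show 0 ≤ (if p.1 = u then Gq (c', d') p else 0)
            split_ifs
            · exact hG0 _ _
            · exact le_rfl) hp
      have h3 : ∑ p ∈ T P.N x, (if p.1 = u then Gq (c', d') p else 0) ≤
          ∑ q ∈ A2.adm P.G s, ∑ p ∈ T P.N x, (if p.1 = u then Gq q p else 0) :=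
        single_le_sum (f := fun q : ℕ × ℕ => ∑ p ∈ T P.N x, (if p.1 = u then Gq q p else 0))
          (fun q _ => sum_nonneg fun p _ => by
            split_ifs
            · exact hG0 _ _
            · exact le_rfl) hq
      rw [h1]
      exact h2.trans h3
  refine (sum_le_sum hpt).trans ?_
  rw [sum_add_distrib]
  refine add_le_add ?_ ?_
  · rw [sum_ite_eq']
    split_ifs
    · exact le_rfl
    · exact P.wa_nonneg _ _ _
  · rw [sum_comm]
    refine sum_le_sum fun q _ => ?_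
    rw [sum_comm]
    refine sum_le_sum fun p _ => ?_
    rw [sum_ite_eq]
    show (if p.1 ∈ P.K s ω x then Gq q p else 0) ≤ Gq q p
    by_cases h : p.1 ∈ P.K s ω x
    · rw [if_pos h]
    · rw [if_neg h]; exact hG0 _ _

/-- the expectation of one term, spread case and general case -/
theorem term_bounds (P : Params) (n : ℕ) (C : ℝ) (hMP : MPn P n C) {s : ℕ} (hs : s ≤ n) {x : Pt}
    (hx : x ∈ box P.N) {q : ℕ × ℕ} (hq : q ∈ A2.adm P.G s) {p : Pt × Pt × Pt} (hp : p ∈ T P.N x) :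
    (Spr P.N x p → P.ex s (fun ω => P.wa s ω x * (P.wa s ω p.1 *
      ((if ω q.1 = p.2.1 then 1 else 0) * (if ω q.2 = p.2.2 then 1 else 0)))) ≤
        C * (1 / P.V) ^ 2) ∧
    P.ex s (fun ω => P.wa s ω x * (P.wa s ω p.1 *
      ((if ω q.1 = p.2.1 then 1 else 0) * (if ω q.2 = p.2.2 then 1 else 0)))) ≤
        P.om ^ 2 * (2 * P.om / P.V) ^ 2 := by
  obtain ⟨c, d⟩ := q
  obtain ⟨u, z, w⟩ := p
  simp only [A2.adm, mem_filter, mem_product, mem_range] at hq
  obtain ⟨⟨hc, hd⟩, hcd, _⟩ := hq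
  rw [mem_T] at hp
  obtain ⟨⟨hu, hz, hw⟩, _⟩ := hp
  simp only at hu hz hw
  have hfun : (fun ω => P.wa s ω x * (P.wa s ω u *
      ((if ω c = z then 1 else 0) * (if ω d = w then 1 else 0)))) =
      (fun ω => ∏ i : Fin 4, P.mv (![x, u, z, w] i) (![s, s, c, d] i)
        (![false, false, true, true] i) ω) := by
    funext ω
    rw [Fin.prod_univ_four]
    simp only [Matrix.cons_val_zero, Matrix.cons_val_one, Matrix.cons_val]
    rw [P.mv_false, P.mv_false, P.mv_true, P.mv_true]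
    ring
  have hcT : (univ.filter (fun i : Fin 4 => (![false, false, true, true] : Fin 4 → Bool) i = true)).card = 2 := by
    decide
  have hcF : (univ.filter (fun i : Fin 4 => (![false, false, true, true] : Fin 4 → Bool) i = false)).card = 2 := by
    decide
  constructor
  · rintro ⟨h1, h2, h3, h4, h5, h6⟩
    simp only at h1 h2 h3 h4 h5 h6
    rw [hfun]
    have := hMP (ι := Fin 4) ![x, u, z, w] ![s, s, c, d] ![false, false, true, true] s
      (by simp)
      (by intro i; fin_cases i <;> simp [hx, hu, hz, hw])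
      (by
        intro i j hij
        fin_cases i <;> fin_cases j <;>
          first
          | exact absurd rfl hij
          | exact h1
          | exact h2
          | exact h3
          | exact h4
          | exact h5
          | exact h6
          | exact Spread.symm' h1
          | exact Spread.symm' h2
          | exact Spread.symm' h3
          | exact Spread.symm' h4
          | exact Spread.symm' h5
          | exact Spread.symm' h6)
      hs
      (by intro i; fin_cases i <;> simp [hc.le, hd.le])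
      (by intro i; fin_cases i <;> simp [hc, hd])
    rw [hcT] at this
    exact this
  · show P.ex s (fun ω => P.wa s ω x * (P.wa s ω u *
      ((if ω c = z then 1 else 0) * (if ω d = w then 1 else 0)))) ≤ _
    rw [hfun]
    have := P.crude_marks (ι := Fin 4) ![x, u, z, w] ![s, s, c, d] ![false, false, true, true] s
      (by
        intro i j h1 h2 h3
        fin_cases i <;> fin_cases j <;> simp at h1 h2 h3 ⊢ <;> omega)
      (by intro i; fin_cases i <;> simp [hc, hd])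
    rw [hcT, hcF] at this
    exact this

/-- first moment of the hazard at one step -/
theorem ex_ph_le (P : Params) (n : ℕ) (C : ℝ) (hC : 0 ≤ C) (hMP : MPn P n C) {s : ℕ} (hs : s ≤ n)
    {x : Pt} (hx : x ∈ box P.N) :
    P.ex s (fun ω => P.wa s ω x * P.ph s ω x) ≤
      2 / P.V * (P.om ^ 2 + (A2.adm P.G s).card *
        (C * (1 / P.V) ^ 2 * (34580989 * (P.N : ℝ) ^ 6 * (1 + Real.log P.N)) +
         P.om ^ 2 * (2 * P.om / P.V) ^ 2 *
          (6 * (17290494 * (P.N : ℝ) ^ 5 * ⌈(P.N : ℝ) ^ (9 / 10 : ℝ)⌉₊ * (1 + Real.log P.N))))) := by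
  have hV := P.V_pos
  have hom := P.one_le_om
  have h1 : P.ex s (fun ω => P.wa s ω x * P.ph s ω x) ≤
      P.ex s (fun ω => 2 / P.V * (P.om ^ 2 + ∑ q ∈ A2.adm P.G s, ∑ p ∈ T P.N x,
        P.wa s ω x * (P.wa s ω p.1 *
          ((if ω q.1 = p.2.1 then 1 else 0) * (if ω q.2 = p.2.2 then 1 else 0))))) := by
    refine P.ex_mono fun ω hω => ?_
    by_cases hact : x ∈ P.act s ω
    · have e1 := mul_le_mul_of_nonneg_left (ph_le P hω hact) (P.wa_nonneg s ω x)
      refine e1.trans ?_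
      have e2 : P.wa s ω x * P.wa s ω x ≤ P.om ^ 2 := by
        rw [sq]
        exact mul_le_mul (P.wa_le_om _ _ _) (P.wa_le_om _ _ _) (P.wa_nonneg _ _ _) (by linarith)
      have e3 : P.wa s ω x * ∑ q ∈ A2.adm P.G s, ∑ p ∈ T P.N x,
          P.wa s ω p.1 * ((if ω q.1 = p.2.1 then 1 else 0) * (if ω q.2 = p.2.2 then 1 else 0)) =
          ∑ q ∈ A2.adm P.G s, ∑ p ∈ T P.N x, P.wa s ω x * (P.wa s ω p.1 *
          ((if ω q.1 = p.2.1 then 1 else 0) * (if ω q.2 = p.2.2 then 1 else 0))) := by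
        rw [mul_sum]
        exact Finset.sum_congr rfl fun q _ => by rw [mul_sum]
      rw [← e3, mul_left_comm]
      refine mul_le_mul_of_nonneg_left ?_ (by positivity)
      rw [mul_add]
      linarith
    · have e0 : P.wa s ω x = 0 := by
        by_contra hcon
        exact hact (P.mem_act_of_wa_ne_zero hcon)
      rw [e0, zero_mul]
      refine mul_nonneg (by positivity) (add_nonneg (by positivity) ?_)
      refine sum_nonneg fun q _ => sum_nonneg fun p _ => ?_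
      rw [zero_mul]
  refine h1.trans ?_
  rw [P.ex_const_mul, P.ex_add]
  refine mul_le_mul_of_nonneg_left ?_ (by positivity)
  refine add_le_add (P.ex_const_le s (by positivity)) ?_
  rw [P.ex_sum, ← nsmul_eq_mul]
  refine sum_le_card_nsmul _ _ _ fun q hq => ?_
  rw [P.ex_sum, ← Finset.sum_filter_add_sum_filter_not (T P.N x) (fun p => Spr P.N x p)]
  refine add_le_add ?_ ?_
  · refine (sum_le_card_nsmul _ _ (C * (1 / P.V) ^ 2) (fun p hp => ?_)).trans ?_
    · rw [mem_filter] at hp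
      exact (term_bounds P n C hMP hs hx hq hp.1).1 hp.2
    · rw [nsmul_eq_mul, mul_comm]
      refine mul_le_mul_of_nonneg_left ?_ (by positivity)
      refine le_trans ?_ (card_T hx)
      exact_mod_cast card_filter_le _ _
  · refine (sum_le_card_nsmul _ _ (P.om ^ 2 * (2 * P.om / P.V) ^ 2) (fun p hp => ?_)).trans ?_
    · rw [mem_filter] at hp
      exact (term_bounds P n C hMP hs hx hq hp.1).2
    · rw [nsmul_eq_mul, mul_comm]
      exact mul_le_mul_of_nonneg_left (card_nonspr hx) (by positivity)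

/-- **Rule (A1).** -/
theorem a1Bound_of (hMP : MPSpread) : A1Bound := by
  obtain ⟨C, hC, N0, hMP⟩ := hMP
  refine ⟨3 * 10 ^ 7 * (4 * 10 ^ 7 * C + 10 ^ 9), by positivity, max N0 (10 ^ 7), ?_⟩
  intro N hN hNpos G n hnN hk x hx
  have hNN0 : N0 ≤ N := (le_max_left _ _).trans hN
  have hN7 : 10 ^ 7 ≤ N := (le_max_right _ _).trans hN
  have hN7' : (10 : ℝ) ^ 7 ≤ N := by exact_mod_cast hN7
  have hN1' : (1 : ℝ) ≤ N := by linarith
  have hN' : (0 : ℝ) < N := by linarith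
  set P := par N hNpos G with hP
  have hPN : P.N = N := rfl
  have hPG : P.G = G := rfl
  have hPA : P.A = (1 / 10 ^ 5) * Real.log N := rfl
  have hV : P.V = (N : ℝ) ^ 3 := rfl
  have hMPn : MPn P n C := fun a t pl T h1 h2 h3 h4 h5 h6 =>
    hMP N hNN0 hNpos G n hnN a t pl T h1 h2 h3 h4 h5 h6
  have hlog : 1 ≤ Real.log N := by
    rw [Real.le_log_iff_exp_le hN']
    have := Real.exp_one_lt_d9
    linarith
  set L := Real.log N with hL
  have hA : 0 < P.A := by rw [hPA]; positivity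
  have hom : P.om = (N : ℝ) ^ (2 / 10 ^ 5 : ℝ) := par_om N hNpos G
  have hom1 := P.one_le_om
  set D : ℕ := ⌈(N : ℝ) ^ (9 / 10 : ℝ)⌉₊ with hD
  -- Markov and the abandonment identity
  have h1 : ∑ s ∈ range n, P.ex s (fun ω => P.wab s ω x * (if P.A1 s ω x then 1 else 0)) ≤
      ∑ s ∈ range n, 1 / P.A * P.ex s (fun ω => P.wab s ω x * ∑ r ∈ range (s + 1), P.ph r ω x) := by
    refine sum_le_sum fun s _ => ?_
    rw [← P.ex_const_mul]
    refine P.ex_mono fun ω _ => ?_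
    have e0 := P.wab_nonneg s ω x
    have e1 : 0 ≤ ∑ r ∈ range (s + 1), P.ph r ω x := sum_nonneg fun r _ => P.ph_nonneg _ _ _
    rw [mul_left_comm]
    refine mul_le_mul_of_nonneg_left ?_ e0
    split_ifs with hA1
    · rw [div_mul_eq_mul_div, one_mul, one_le_div hA]
      have : P.A < ∑ r ∈ range (s + 1), P.ph r ω x := hA1
      exact this.le
    · positivity
  have h2 := P.aband_le n x (fun s ω => P.ph s ω x) (fun s => P.pred_ph s x)
    (fun s ω _ => P.ph_nonneg s ω x)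
  have h3 : ∑ s ∈ range n, P.ex s (fun ω => P.wa s ω x * P.ph s ω x) ≤
      ∑ s ∈ range n, 2 / P.V * (P.om ^ 2 + (A2.adm P.G s).card *
        (C * (1 / P.V) ^ 2 * (34580989 * (P.N : ℝ) ^ 6 * (1 + Real.log P.N)) +
         P.om ^ 2 * (2 * P.om / P.V) ^ 2 *
          (6 * (17290494 * (P.N : ℝ) ^ 5 * ⌈(P.N : ℝ) ^ (9 / 10 : ℝ)⌉₊ * (1 + Real.log P.N))))) := by
    refine sum_le_sum fun s hs => ?_
    exact ex_ph_le P n C hC.le hMPn (mem_range.1 hs).le hx
  -- the constant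
  have hD2 : P.om ^ 4 * (D : ℝ) ≤ 2 * N := by
    have g1 : (D : ℝ) ≤ 2 * (N : ℝ) ^ (9 / 10 : ℝ) := by
      have h1 : (D : ℝ) ≤ (N : ℝ) ^ (9 / 10 : ℝ) + 1 := (Nat.ceil_lt_add_one (by positivity)).le
      have h2 : (1 : ℝ) ≤ (N : ℝ) ^ (9 / 10 : ℝ) := Real.one_le_rpow hN1' (by norm_num)
      linarith
    have g2 : P.om ^ 4 = (N : ℝ) ^ ((2 / 10 ^ 5) * 4 : ℝ) := by
      rw [hom, ← Real.rpow_natCast ((N : ℝ) ^ (2 / 10 ^ 5 : ℝ)) 4, ← Real.rpow_mul hN'.le]
      norm_num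
    calc P.om ^ 4 * (D : ℝ) ≤ (N : ℝ) ^ ((2 / 10 ^ 5) * 4 : ℝ) * (2 * (N : ℝ) ^ (9 / 10 : ℝ)) := by
          rw [g2]; exact mul_le_mul_of_nonneg_left g1 (by positivity)
      _ = 2 * (N : ℝ) ^ ((2 / 10 ^ 5) * 4 + 9 / 10 : ℝ) := by
          rw [Real.rpow_add hN']; ring
      _ ≤ 2 * (N : ℝ) ^ (1 : ℝ) := by
          refine mul_le_mul_of_nonneg_left ?_ (by norm_num)
          exact Real.rpow_le_rpow_of_exponent_le hN1' (by norm_num)
      _ = 2 * N := by rw [Real.rpow_one]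
  set Q : ℝ := C * (1 / P.V) ^ 2 * (34580989 * (P.N : ℝ) ^ 6 * (1 + Real.log P.N)) +
         P.om ^ 2 * (2 * P.om / P.V) ^ 2 *
          (6 * (17290494 * (P.N : ℝ) ^ 5 * ⌈(P.N : ℝ) ^ (9 / 10 : ℝ)⌉₊ * (1 + Real.log P.N))) with hQ
  have hQle : Q ≤ (1 + L) * (4 * 10 ^ 7 * C + 10 ^ 9) := by
    have e1 : Q = (1 + L) * (34580989 * C + 414971856 * (P.om ^ 4 * D / N)) := by
      rw [hQ, hV, hPN]
      field_simp
      ring
    rw [e1]
    refine mul_le_mul_of_nonneg_left ?_ (by linarith)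
    have e2 : P.om ^ 4 * D / N ≤ 2 := by
      rw [div_le_iff₀ hN']; exact hD2
    nlinarith
  have hQ0 : 0 ≤ Q := by
    rw [hQ]
    have : 0 ≤ Real.log P.N := by rw [hPN]; linarith
    have := P.V_pos
    positivity
  have hadm : ∑ s ∈ range n, ((A2.adm P.G s).card : ℝ) ≤ 2 * n * (edgeCount G n) := by
    have := sum_adm P.G n
    exact_mod_cast this
  have h4 : ∑ s ∈ range n, 2 / P.V * (P.om ^ 2 + (A2.adm P.G s).card * Q) ≤
      2 / (N : ℝ) ^ 3 * (n * P.om ^ 2 + 2 * n * (edgeCount G n) * Q) := by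
    rw [← mul_sum, hV]
    refine mul_le_mul_of_nonneg_left ?_ (by positivity)
    rw [sum_add_distrib, sum_const, card_range, nsmul_eq_mul, ← sum_mul]
    exact add_le_add le_rfl (mul_le_mul_of_nonneg_right hadm hQ0)
  have hnom : (n : ℝ) * P.om ^ 2 ≤ (N : ℝ) ^ 2 := by
    have g2 : P.om ^ 2 = (N : ℝ) ^ ((2 / 10 ^ 5) * 2 : ℝ) := by
      rw [hom, ← Real.rpow_natCast ((N : ℝ) ^ (2 / 10 ^ 5 : ℝ)) 2, ← Real.rpow_mul hN'.le]
      norm_num
    have hn1 : (n : ℝ) ≤ (N : ℝ) ^ (1 + 1 / 10 ^ 5 : ℝ) := hnN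
    calc (n : ℝ) * P.om ^ 2 ≤ (N : ℝ) ^ (1 + 1 / 10 ^ 5 : ℝ) * (N : ℝ) ^ ((2 / 10 ^ 5) * 2 : ℝ) := by
          rw [g2]; exact mul_le_mul_of_nonneg_right hn1 (by positivity)
      _ = (N : ℝ) ^ (1 + 1 / 10 ^ 5 + (2 / 10 ^ 5) * 2 : ℝ) := by rw [← Real.rpow_add hN']
      _ ≤ (N : ℝ) ^ (2 : ℝ) := Real.rpow_le_rpow_of_exponent_le hN1' (by norm_num)
      _ = (N : ℝ) ^ 2 := by norm_num
  have hfin : 1 / P.A * (2 / (N : ℝ) ^ 3 * (n * P.om ^ 2 + 2 * n * (edgeCount G n) * Q)) ≤ 1 / 16 := by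
    set E : ℝ := (edgeCount G n : ℝ) * n with hE
    have hE0 : 0 ≤ E := by positivity
    set Y : ℝ := 4 * 10 ^ 7 * C + 10 ^ 9 with hY
    have hYpos : 0 < Y := by positivity
    have hk' : 3 * 10 ^ 7 * Y * E ≤ (N : ℝ) ^ 3 := by
      calc _ = 3 * 10 ^ 7 * Y * (edgeCount G n) * n := by rw [hE]; ring
        _ ≤ _ := hk
    rw [hPA]
    have e1 : 1 / (1 / 10 ^ 5 * L) * (2 / (N : ℝ) ^ 3 * (n * P.om ^ 2 + 2 * n * (edgeCount G n) * Q)) =
        2 * 10 ^ 5 * (n * P.om ^ 2 + 2 * E * Q) / (L * (N : ℝ) ^ 3) := by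
      rw [hE]
      field_simp
    rw [e1, div_le_iff₀ (by positivity)]
    have e2 : 2 * 10 ^ 5 * (n * P.om ^ 2) ≤ 1 / 32 * (L * (N : ℝ) ^ 3) := by
      have : 2 * 10 ^ 5 * (N : ℝ) ^ 2 ≤ 1 / 32 * (N : ℝ) ^ 3 := by
        have : (N : ℝ) ^ 3 = (N : ℝ) ^ 2 * N := by ring
        rw [this]
        nlinarith [pow_pos hN' 2]
      have h5 : 1 / 32 * (N : ℝ) ^ 3 ≤ 1 / 32 * (L * (N : ℝ) ^ 3) := by
        have : 0 ≤ (N : ℝ) ^ 3 := by positivity
        nlinarith
      nlinarith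
    have e3 : 2 * 10 ^ 5 * (2 * E * Q) ≤ 1 / 32 * (L * (N : ℝ) ^ 3) := by
      have g1 : 2 * E * Q ≤ 2 * E * ((2 * L) * Y) := by
        refine mul_le_mul_of_nonneg_left (hQle.trans ?_) (by positivity)
        exact mul_le_mul_of_nonneg_right (by linarith) hYpos.le
      have g2 : L * (3 * 10 ^ 7 * Y * E) ≤ L * (N : ℝ) ^ 3 :=
        mul_le_mul_of_nonneg_left hk' (by linarith)
      have g3 : 0 ≤ L * (Y * E) := by positivity
      nlinarith
    nlinarith
  calc _ ≤ ∑ s ∈ range n, 1 / P.A * P.ex s (fun ω => P.wab s ω x *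
        ∑ r ∈ range (s + 1), P.ph r ω x) := h1
    _ = 1 / P.A * ∑ s ∈ range n, P.ex s (fun ω => P.wab s ω x *
        ∑ r ∈ range (s + 1), P.ph r ω x) := by rw [mul_sum]
    _ ≤ 1 / P.A * (2 / (N : ℝ) ^ 3 * (n * P.om ^ 2 + 2 * n * (edgeCount G n) * Q)) :=
        mul_le_mul_of_nonneg_left (h2.trans (h3.trans h4)) (by positivity)
    _ ≤ 1 / 16 := hfin

end Pool.Agent.Grid3D.RuleA1
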