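import Mathlib

/-! Rule (A2): real inequalities. -/

set_option autoImplicit false

namespace Pool.Agent.Grid3D.RuleA2

theorem numB {C om ε N n k θ h q : ℝ} (hC : 0 ≤ C) (hom : 1 ≤ om) (hε : 0 ≤ ε) (hN : 0 < N)
    (hn : 0 ≤ n) (hk : 0 ≤ k) (hkn : k ≤ n ^ 2) (hh : 1 ≤ h) (hnN : n ≤ h * N)
    (hNθ : N * θ ≤ 9) (hnθ : n * θ ≤ 9) (hq0 : 0 ≤ q) (hq : q ≤ θ) :
    (4 * C * q ^ 6 + 144 * 2 ^ 4 * om ^ 7 * (ε / N) * q ^ 5) * (2 * n * k) ^ 2 +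
    (4 * C * q ^ 5 + 144 * 2 ^ 3 * om ^ 6 * (ε / N) * q ^ 4) * (4 * n ^ 3 * k) +
    (4 * C * q ^ 4 + 144 * 2 ^ 2 * om ^ 5 * (ε / N) * q ^ 3) * (2 * n ^ 2 * k) ≤
    1448 * C * (n ^ 2 * k * θ ^ 4) + 6 * 10 ^ 8 * (om ^ 7 * h ^ 6 * ε) := by
  have hθ : 0 ≤ θ := hq0.trans hq
  have hom0 : 0 ≤ om := by linarith
  have hh0 : 0 ≤ h := by linarith
  -- replace `q` by `θ`
  have step1 : (4 * C * q ^ 6 + 144 * 2 ^ 4 * om ^ 7 * (ε / N) * q ^ 5) * (2 * n * k) ^ 2 +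
    (4 * C * q ^ 5 + 144 * 2 ^ 3 * om ^ 6 * (ε / N) * q ^ 4) * (4 * n ^ 3 * k) +
    (4 * C * q ^ 4 + 144 * 2 ^ 2 * om ^ 5 * (ε / N) * q ^ 3) * (2 * n ^ 2 * k) ≤
    (4 * C * θ ^ 6 + 144 * 2 ^ 4 * om ^ 7 * (ε / N) * θ ^ 5) * (2 * n * k) ^ 2 +
    (4 * C * θ ^ 5 + 144 * 2 ^ 3 * om ^ 6 * (ε / N) * θ ^ 4) * (4 * n ^ 3 * k) +
    (4 * C * θ ^ 4 + 144 * 2 ^ 2 * om ^ 5 * (ε / N) * θ ^ 3) * (2 * n ^ 2 * k) := by
    gcongr
  refine step1.trans ?_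
  set u := n / N with hu
  have hnu : n = u * N := by rw [hu]; field_simp
  have hu0 : 0 ≤ u := by positivity
  have huh : u ≤ h := by rw [hu, div_le_iff₀ hN]; exact hnN
  set v := N * θ with hv
  have hv0 : 0 ≤ v := by positivity
  have hθv : θ = v / N := by rw [hv]; field_simp
  -- main terms
  have m1 : n ^ 2 * k ^ 2 * θ ^ 6 ≤ 81 * (n ^ 2 * k * θ ^ 4) := by
    have e1 : k ^ 2 ≤ n ^ 2 * k := by nlinarith
    have e2 : (n * θ) ^ 2 ≤ 9 ^ 2 := pow_le_pow_left₀ (by positivity) hnθ 2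
    calc n ^ 2 * k ^ 2 * θ ^ 6 = (n * θ) ^ 2 * (k ^ 2 * θ ^ 4) := by ring
      _ ≤ 9 ^ 2 * ((n ^ 2 * k) * θ ^ 4) := by gcongr
      _ = _ := by ring
  have m2 : n ^ 3 * k * θ ^ 5 ≤ 9 * (n ^ 2 * k * θ ^ 4) := by
    calc n ^ 3 * k * θ ^ 5 = (n * θ) * (n ^ 2 * k * θ ^ 4) := by ring
      _ ≤ 9 * (n ^ 2 * k * θ ^ 4) := by gcongr
  -- error terms
  have r1 : θ ^ 5 * (n ^ 2 * k ^ 2) / N ≤ 9 ^ 5 * h ^ 6 := by
    calc θ ^ 5 * (n ^ 2 * k ^ 2) / N ≤ θ ^ 5 * (n ^ 2 * (n ^ 2) ^ 2) / N := by gcongr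
      _ = v ^ 5 * u ^ 6 := by rw [hθv, hnu]; field_simp
      _ ≤ 9 ^ 5 * h ^ 6 := by gcongr
  have r2 : θ ^ 4 * (n ^ 3 * k) / N ≤ 9 ^ 4 * h ^ 6 := by
    calc θ ^ 4 * (n ^ 3 * k) / N ≤ θ ^ 4 * (n ^ 3 * n ^ 2) / N := by gcongr
      _ = v ^ 4 * u ^ 5 := by rw [hθv, hnu]; field_simp
      _ ≤ 9 ^ 4 * h ^ 5 := by gcongr
      _ ≤ 9 ^ 4 * h ^ 6 := by gcongr <;> norm_num
  have r3 : θ ^ 3 * (n ^ 2 * k) / N ≤ 9 ^ 3 * h ^ 6 := by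
    calc θ ^ 3 * (n ^ 2 * k) / N ≤ θ ^ 3 * (n ^ 2 * n ^ 2) / N := by gcongr
      _ = v ^ 3 * u ^ 4 := by rw [hθv, hnu]; field_simp
      _ ≤ 9 ^ 3 * h ^ 4 := by gcongr
      _ ≤ 9 ^ 3 * h ^ 6 := by gcongr <;> norm_num
  have o6 : om ^ 6 ≤ om ^ 7 := pow_le_pow_right₀ hom (by norm_num)
  have o5 : om ^ 5 ≤ om ^ 7 := pow_le_pow_right₀ hom (by norm_num)
  calc _ = 16 * C * (n ^ 2 * k ^ 2 * θ ^ 6) + 16 * C * (n ^ 3 * k * θ ^ 5) +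
        8 * C * (n ^ 2 * k * θ ^ 4) +
        (9216 * om ^ 7 * ε * (θ ^ 5 * (n ^ 2 * k ^ 2) / N) +
        4608 * om ^ 6 * ε * (θ ^ 4 * (n ^ 3 * k) / N) +
        1152 * om ^ 5 * ε * (θ ^ 3 * (n ^ 2 * k) / N)) := by
        field_simp
        ring
    _ ≤ 16 * C * (81 * (n ^ 2 * k * θ ^ 4)) + 16 * C * (9 * (n ^ 2 * k * θ ^ 4)) +
        8 * C * (n ^ 2 * k * θ ^ 4) +
        (9216 * om ^ 7 * ε * (9 ^ 5 * h ^ 6) + 4608 * om ^ 7 * ε * (9 ^ 4 * h ^ 6) +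
        1152 * om ^ 7 * ε * (9 ^ 3 * h ^ 6)) := by gcongr
    _ ≤ _ := by
        have : 0 ≤ om ^ 7 * h ^ 6 * ε := by positivity
        nlinarith

theorem numA {C om ε N n k θ h q D H : ℝ} (hC : 0 ≤ C) (hom : 1 ≤ om) (hε : 0 ≤ ε) (hN : 0 < N)
    (hn : 0 ≤ n) (hk : 0 ≤ k) (hkn : k ≤ n ^ 2) (hh : 1 ≤ h) (hnN : n ≤ h * N)
    (hNθ : N * θ ≤ 9) (hq0 : 0 ≤ q) (hq : q ≤ θ) (hD : 0 < D) (hDθ : D * θ = 9)
    (hH0 : 0 ≤ H) (hHD : D * H ≤ 2 * k) (hHn : H ≤ n) (hy : k * θ ^ 2 ≤ 81) :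
    k * (C * q ^ 2 + 36 * 2 ^ 2 * om ^ 3 * (ε / N) * q) +
    H * (C * q + 36 * 2 * om ^ 2 * (ε / N)) +
    2 * 10 ^ 4 * ((4 * C * q ^ 4 + 144 * 2 ^ 2 * om ^ 5 * (ε / N) * q ^ 3) * k ^ 2 +
      (4 * C * q ^ 3 + 144 * 2 * om ^ 4 * (ε / N) * q ^ 2) * (2 * D * k)) ≤
    8 * 10 ^ 6 * C * (k * θ ^ 2) + 10 ^ 10 * (om ^ 7 * h ^ 6 * ε) := by
  have hθ : 0 ≤ θ := hq0.trans hq
  have hom0 : 0 ≤ om := by linarith
  have hh0 : 0 ≤ h := by linarith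
  have step1 : k * (C * q ^ 2 + 36 * 2 ^ 2 * om ^ 3 * (ε / N) * q) +
    H * (C * q + 36 * 2 * om ^ 2 * (ε / N)) +
    2 * 10 ^ 4 * ((4 * C * q ^ 4 + 144 * 2 ^ 2 * om ^ 5 * (ε / N) * q ^ 3) * k ^ 2 +
      (4 * C * q ^ 3 + 144 * 2 * om ^ 4 * (ε / N) * q ^ 2) * (2 * D * k)) ≤
    k * (C * θ ^ 2 + 36 * 2 ^ 2 * om ^ 3 * (ε / N) * θ) +
    H * (C * θ + 36 * 2 * om ^ 2 * (ε / N)) +
    2 * 10 ^ 4 * ((4 * C * θ ^ 4 + 144 * 2 ^ 2 * om ^ 5 * (ε / N) * θ ^ 3) * k ^ 2 +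
      (4 * C * θ ^ 3 + 144 * 2 * om ^ 4 * (ε / N) * θ ^ 2) * (2 * D * k)) := by
    gcongr
  refine step1.trans ?_
  set u := n / N with hu
  have hnu : n = u * N := by rw [hu]; field_simp
  have hu0 : 0 ≤ u := by positivity
  have huh : u ≤ h := by rw [hu, div_le_iff₀ hN]; exact hnN
  set v := N * θ with hv
  have hv0 : 0 ≤ v := by positivity
  have hθv : θ = v / N := by rw [hv]; field_simp
  -- main terms
  have m1 : H * θ ≤ k * θ ^ 2 := by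
    have e1 : θ * (D * θ) = θ * 9 := by rw [hDθ]
    have e2 : D * H * θ ^ 2 ≤ 2 * k * θ ^ 2 := by gcongr
    have e3 : D * H * θ ^ 2 = H * (θ * (D * θ)) := by ring
    rw [e3, e1] at e2
    have : 0 ≤ H * θ := by positivity
    nlinarith
  have m2 : θ ^ 4 * k ^ 2 ≤ 81 * (k * θ ^ 2) := by
    calc θ ^ 4 * k ^ 2 = (k * θ ^ 2) * (k * θ ^ 2) := by ring
      _ ≤ 81 * (k * θ ^ 2) := by gcongr
  have m3 : θ ^ 3 * (D * k) = 9 * (k * θ ^ 2) := by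
    calc θ ^ 3 * (D * k) = (D * θ) * (k * θ ^ 2) := by ring
      _ = _ := by rw [hDθ]
  -- error terms
  have r1 : θ * k / N ≤ 9 * h ^ 6 := by
    calc θ * k / N ≤ θ * n ^ 2 / N := by gcongr
      _ = v * u ^ 2 := by rw [hθv, hnu]; field_simp
      _ ≤ 9 * h ^ 2 := by gcongr
      _ ≤ 9 * h ^ 6 := by gcongr <;> norm_num
  have r2 : H / N ≤ h ^ 6 := by
    calc H / N ≤ n / N := by gcongr
      _ = u := rfl
      _ ≤ h := huh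
      _ = h ^ 1 := (pow_one h).symm
      _ ≤ h ^ 6 := pow_le_pow_right₀ hh (by norm_num)
  have r3 : θ ^ 3 * k ^ 2 / N ≤ 9 ^ 3 * h ^ 6 := by
    calc θ ^ 3 * k ^ 2 / N ≤ θ ^ 3 * (n ^ 2) ^ 2 / N := by gcongr
      _ = v ^ 3 * u ^ 4 := by rw [hθv, hnu]; field_simp
      _ ≤ 9 ^ 3 * h ^ 4 := by gcongr
      _ ≤ 9 ^ 3 * h ^ 6 := by gcongr <;> norm_num
  have r4 : θ ^ 2 * (D * k) / N ≤ 81 * h ^ 6 := by
    have e1 : θ ^ 2 * (D * k) / N = 9 * (θ * k / N) := by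
      calc θ ^ 2 * (D * k) / N = (D * θ) * (θ * k / N) := by ring
        _ = _ := by rw [hDθ]
    rw [e1]
    linarith
  have o2 : om ^ 2 ≤ om ^ 7 := pow_le_pow_right₀ hom (by norm_num)
  have o3 : om ^ 3 ≤ om ^ 7 := pow_le_pow_right₀ hom (by norm_num)
  have o4 : om ^ 4 ≤ om ^ 7 := pow_le_pow_right₀ hom (by norm_num)
  have o5 : om ^ 5 ≤ om ^ 7 := pow_le_pow_right₀ hom (by norm_num)
  calc _ = C * (k * θ ^ 2) + C * (H * θ) + 2 * 10 ^ 4 * (4 * C * (θ ^ 4 * k ^ 2) +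
          8 * C * (θ ^ 3 * (D * k))) +
        (144 * om ^ 3 * ε * (θ * k / N) + 72 * om ^ 2 * ε * (H / N) +
          2 * 10 ^ 4 * (576 * om ^ 5 * ε * (θ ^ 3 * k ^ 2 / N) +
            576 * om ^ 4 * ε * (θ ^ 2 * (D * k) / N))) := by
        field_simp
        ring
    _ ≤ C * (k * θ ^ 2) + C * (k * θ ^ 2) + 2 * 10 ^ 4 * (4 * C * (81 * (k * θ ^ 2)) +
          8 * C * (9 * (k * θ ^ 2))) +
        (144 * om ^ 7 * ε * (9 * h ^ 6) + 72 * om ^ 7 * ε * (h ^ 6) +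
          2 * 10 ^ 4 * (576 * om ^ 7 * ε * (9 ^ 3 * h ^ 6) +
            576 * om ^ 7 * ε * (81 * h ^ 6))) := by
        rw [m3]
        gcongr
    _ ≤ _ := by
        have h1 : 0 ≤ om ^ 7 * h ^ 6 * ε := by positivity
        have h2 : 0 ≤ C * (k * θ ^ 2) := by positivity
        nlinarith

/-- `Σ_{a < R ≤ M} 1/R² ≤ 2/(a+1)` -/
theorem sum_inv_sq (a M : ℕ) :
    ∑ R ∈ (Finset.Icc 1 M).filter (fun R => a < R), (1 : ℝ) / (R : ℝ) ^ 2 ≤ 2 / (a + 1) := by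
  have key : ∀ M : ℕ, a ≤ M →
      ∑ R ∈ (Finset.Icc 1 M).filter (fun R => a < R), (1 : ℝ) / (R : ℝ) ^ 2 + 2 / (M + 1) ≤
        2 / (a + 1) := by
    intro M hM
    induction M, hM using Nat.le_induction with
    | base =>
      have : (Finset.Icc 1 a).filter (fun R => a < R) = ∅ := by
        rw [Finset.filter_eq_empty_iff]
        intro R hR
        have := (Finset.mem_Icc.1 hR).2
        omega
      rw [this, Finset.sum_empty, zero_add]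
    | succ M hM ih =>
      have e : (Finset.Icc 1 (M + 1)).filter (fun R => a < R) =
          insert (M + 1) ((Finset.Icc 1 M).filter (fun R => a < R)) := by
        ext R
        simp only [Finset.mem_filter, Finset.mem_Icc, Finset.mem_insert]
        omega
      rw [e, Finset.sum_insert (by simp)]
      have : (1 : ℝ) / ((M + 1 : ℕ) : ℝ) ^ 2 + 2 / (((M + 1 : ℕ) : ℝ) + 1) ≤ 2 / (M + 1) := by
        push_cast
        rw [div_add_div _ _ (by positivity) (by positivity), div_le_div_iff₀ (by positivity) (by positivity)]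
        have : (0 : ℝ) ≤ M := Nat.cast_nonneg M
        nlinarith [mul_nonneg this this, mul_nonneg (mul_nonneg this this) this]
      linarith
  rcases le_total a M with h | h
  · have := key M h
    have h2 : (0 : ℝ) ≤ 2 / ((M : ℝ) + 1) := by positivity
    linarith
  · have : (Finset.Icc 1 M).filter (fun R => a < R) = ∅ := by
      rw [Finset.filter_eq_empty_iff]
      intro R hR
      have := (Finset.mem_Icc.1 hR).2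
      omega
    rw [this, Finset.sum_empty]
    positivity

end Pool.Agent.Grid3D.RuleA2
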