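import Pool.Agent.Grid3D.RuleA2Cases
import Pool.Agent.Grid3D.RuleA2Num
import Pool.Agent.Grid3D.Geo3

set_option autoImplicit false

open Classical Finset

noncomputable section

namespace Pool.Agent.Grid3D.RuleA2

open A2

theorem F_two {P : Params} {C : ℝ} {π : Finset Pt} {B : ℕ} (p : ℕ) {ε : ℝ}
    (hε : ε / P.N = B / P.V) :
    (2 / P.V) ^ 2 * F P C π B 2 p =
      4 * C * ((π.card : ℝ) / P.V) ^ (p + 2) +
        144 * 2 ^ p * P.om ^ (p + 3) * (ε / P.N) * ((π.card : ℝ) / P.V) ^ (p + 1) := by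
  have hV := P.V_pos
  rw [hε, F]
  have e : p + 2 - 1 = p + 1 := by omega
  rw [e]
  generalize (π.card : ℝ) = c
  have hV' := hV.ne'
  rw [div_pow c, div_pow c, div_pow (2 * P.om), div_pow 1, one_pow, mul_pow 2 P.om]
  field_simp
  ring

theorem F_zero {P : Params} {C : ℝ} {π : Finset Pt} {B : ℕ} (p : ℕ) {ε : ℝ}
    (hε : ε / P.N = B / P.V) :
    F P C π B 0 (p + 1) =
      C * ((π.card : ℝ) / P.V) ^ (p + 1) +
        36 * 2 ^ (p + 1) * P.om ^ (p + 2) * (ε / P.N) * ((π.card : ℝ) / P.V) ^ p := by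
  have hV := P.V_pos
  rw [hε, F]
  have e : p + 1 + 0 - 1 = p := by omega
  rw [e]
  generalize (π.card : ℝ) = c
  have hV' := hV.ne'
  rw [div_pow c, div_pow c, div_pow (2 * P.om), div_pow 1, one_pow, mul_pow 2 P.om]
  field_simp
  ring

/-- The bound for one plane. -/
theorem per_plane {P : Params} {n : ℕ} {C : ℝ} {m : Pt} {x : Pt} {B : ℕ}
    (hC : 0 ≤ C) (hMP : MPn P n C) (hm : m ∈ normals P.M) (hMN : P.M ≤ P.N) (hx : x ∈ box P.N)
    (hB : ∀ a ∈ plane P.N m (dot m x),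
      ((plane P.N m (dot m x)).filter (fun b => ¬ Spread P.N a b)).card ≤ B)
    (h : ℝ) (hh : 1 ≤ h) (hnN : (n : ℝ) ≤ h * P.N)
    (hk : ((edg P.G n).card : ℝ) * n ≤ (P.N : ℝ) ^ 3) :
    ∑ s ∈ range n, P.ex s (fun ω => P.wab s ω x *
      (if 1 / 100 < ∑ r ∈ range (s + 1), P.phP r ω m (dot m x) then 1 else 0)) ≤
      (if P.N * nrm m ≤ n then 10 ^ 9 * C * (((edg P.G n).card : ℝ) / ((P.N : ℝ) * nrm m) ^ 2)
       else 2 * 10 ^ 11 * C * ((n : ℝ) ^ 2 * (edg P.G n).card / ((P.N : ℝ) * nrm m) ^ 4)) +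
      2 * 10 ^ 13 * (P.om ^ 7 * h ^ 6 * ((B : ℝ) / (P.N : ℝ) ^ 2)) := by
  have hH : Hyp P n C (plane P.N m (dot m x)) x B :=
    ⟨hC, hMP, filter_subset _ _, mem_plane.2 ⟨hx, rfl⟩, hB⟩
  obtain ⟨hmM, hprim⟩ := Geo2.mem_normals.1 hm
  have ht : 0 < nrm m := Geo2.Prim.nrm_pos hprim
  have hNpos : (0 : ℝ) < P.N := by exact_mod_cast P.hN
  have htpos : (0 : ℝ) < nrm m := by exact_mod_cast ht
  have hpc := Geo2.card_plane_le (N := P.N) (c := dot m x) hprim (hmM.trans hMN)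
  set π := plane P.N m (dot m x) with hπ
  set t : ℝ := (nrm m : ℝ) with htdef
  set k : ℝ := ((edg P.G n).card : ℝ) with hkdef
  set N : ℝ := (P.N : ℝ) with hN
  set q : ℝ := (π.card : ℝ) / P.V with hq
  set θ : ℝ := 9 / (N * t) with hθ
  set ε : ℝ := (B : ℝ) / N ^ 2 with hε
  have hV : P.V = N ^ 3 := rfl
  have hεN : ε / N = B / P.V := by
    rw [hε, hV]; field_simp
  have hq0 : 0 ≤ q := by
    rw [hq, hV]; positivity
  have hqθ : q ≤ θ := by
    rw [hq, hV, hθ, div_le_div_iff₀ (by positivity) (by positivity)]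
    have := mul_le_mul_of_nonneg_right hpc (by positivity : (0:ℝ) ≤ N * t)
    calc (π.card : ℝ) * (N * t) ≤ 9 * N ^ 2 / t * (N * t) := this
      _ = _ := by field_simp
  have hk0 : 0 ≤ k := Nat.cast_nonneg _
  have hn0 : (0 : ℝ) ≤ n := Nat.cast_nonneg _
  have hkn : k ≤ (n : ℝ) ^ 2 := by
    rw [hkdef]; exact_mod_cast edg_card_le P.G n
  have hε0 : 0 ≤ ε := by rw [hε]; positivity
  have ht1 : 1 ≤ t := by rw [htdef]; exact_mod_cast ht
  have hNθ : N * θ ≤ 9 := by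
    rw [hθ]
    have : N * (9 / (N * t)) = 9 / t := by field_simp
    rw [this, div_le_iff₀ (by positivity)]
    linarith
  by_cases hcase : P.N * nrm m ≤ n
  · rw [if_pos hcase]
    have hcase' : N * t ≤ n := by
      rw [hN, htdef]; exact_mod_cast hcase
    refine (caseA hH (1 / 100) (by norm_num) (P.N * nrm m)).trans ?_
    rw [show (2 : ℝ) / (1 / 100) ^ 2 = 2 * 10 ^ 4 by norm_num]
    rw [mul_add ((2 / P.V) ^ 2), ← mul_assoc ((2 / P.V) ^ 2), ← mul_assoc ((2 / P.V) ^ 2)]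
    rw [F_two 2 hεN, F_two 1 hεN, F_zero 1 hεN, F_zero 0 hεN]
    set H : ℝ := (((range n).filter (fun v => P.N * nrm m < (nb P.G n v).card)).card : ℝ) with hH
    have hD : 0 < N * t := by positivity
    have hHD : (N * t) * H ≤ 2 * k := by
      rw [hN, htdef, hH, hkdef]
      exact_mod_cast card_high P.G n (P.N * nrm m)
    have hHn : H ≤ n := by
      rw [hH]
      have := card_filter_le (range n) (fun v => P.N * nrm m < (nb P.G n v).card)
      rw [card_range] at this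
      exact_mod_cast this
    have hy : k * θ ^ 2 ≤ 81 := by
      have e1 : k * (N * t) ≤ N ^ 3 := (mul_le_mul_of_nonneg_left hcase' hk0).trans hk
      have e2 : k * θ ^ 2 = 81 * (k * (N * t)) / (N * t) ^ 3 := by
        rw [hθ]; field_simp; norm_num
      rw [e2, div_le_iff₀ (by positivity)]
      have e3 : N ^ 3 ≤ (N * t) ^ 3 := by
        apply pow_le_pow_left₀ hNpos.le
        nlinarith
      nlinarith
    have key := numA (C := C) (om := P.om) (ε := ε) (N := N) (n := n) (k := k) (θ := θ) (h := h)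
      (q := q) (D := N * t) (H := H) hC P.one_le_om hε0 hNpos hn0 hk0 hkn hh hnN hNθ hq0 hqθ hD
      (by rw [hθ]; field_simp) (Nat.cast_nonneg _) hHD hHn hy
    have hcast : (((P.N * nrm m : ℕ)) : ℝ) = N * t := by push_cast; rfl
    rw [hcast]
    have e4 : k * θ ^ 2 = 81 * (k / (N * t) ^ 2) := by
      rw [hθ]; field_simp; norm_num
    have e5 : (0 : ℝ) ≤ C * (k / (N * t) ^ 2) := by positivity
    have e6 : 0 ≤ P.om ^ 7 * h ^ 6 * ε := by
      have := P.one_le_om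
      positivity
    refine le_trans (le_of_eq ?_) (key.trans ?_)
    · norm_num
      rfl
    · rw [e4]
      nlinarith
  · rw [if_neg hcase]
    have hcase' : (n : ℝ) ≤ N * t := by
      rw [hN, htdef]
      have := (not_le.1 hcase).le
      exact_mod_cast this
    refine (caseB hH (1 / 100) (by norm_num)).trans ?_
    rw [show (2 : ℝ) / (1 / 100) ^ 2 = 2 * 10 ^ 4 by norm_num]
    rw [mul_add ((2 / P.V) ^ 2), mul_add ((2 / P.V) ^ 2), ← mul_assoc ((2 / P.V) ^ 2),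
      ← mul_assoc ((2 / P.V) ^ 2), ← mul_assoc ((2 / P.V) ^ 2)]
    rw [F_two 4 hεN, F_two 3 hεN, F_two 2 hεN]
    have hnθ : n * θ ≤ 9 := by
      rw [hθ, mul_div_assoc', div_le_iff₀ (by positivity)]
      nlinarith
    have key := numB (C := C) (om := P.om) (ε := ε) (N := N) (n := n) (k := k) (θ := θ) (h := h)
      (q := q) hC P.one_le_om hε0 hNpos hn0 hk0 hkn hh hnN hNθ hnθ hq0 hqθ
    have e4 : (n : ℝ) ^ 2 * k * θ ^ 4 = 6561 * ((n : ℝ) ^ 2 * k / (N * t) ^ 4) := by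
      rw [hθ]; field_simp; norm_num
    have e5 : (0 : ℝ) ≤ C * ((n : ℝ) ^ 2 * k / (N * t) ^ 4) := by positivity
    have e6 : 0 ≤ P.om ^ 7 * h ^ 6 * ε := by
      have := P.one_le_om
      positivity
    rw [e4] at key
    refine le_trans (mul_le_mul_of_nonneg_left (le_trans (le_of_eq ?_) key) (by norm_num)) ?_
    · norm_num
      rfl
    · nlinarith

/-- The sum of the main terms over all normals. -/
theorem main_sum {C : ℝ} (hC : 0 ≤ C) {N n k M : ℕ} (hN : 0 < N) (hn : 0 < n) :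
    ∑ m ∈ normals M,
      (if N * nrm m ≤ n then 10 ^ 9 * C * ((k : ℝ) / ((N : ℝ) * nrm m) ^ 2)
       else 2 * 10 ^ 11 * C * ((n : ℝ) ^ 2 * k / ((N : ℝ) * nrm m) ^ 4)) ≤
      2 * 10 ^ 13 * C * ((k : ℝ) * n / (N : ℝ) ^ 3) := by
  have hN' : (0 : ℝ) < N := by exact_mod_cast hN
  have hn' : (0 : ℝ) < n := by exact_mod_cast hn
  set f : ℕ → ℝ := fun R => if N * R ≤ n then 10 ^ 9 * C * ((k : ℝ) / ((N : ℝ) * R) ^ 2)
       else 2 * 10 ^ 11 * C * ((n : ℝ) ^ 2 * k / ((N : ℝ) * R) ^ 4) with hf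
  have hf0 : ∀ R, 0 ≤ f R := by
    intro R
    simp only [hf]
    split_ifs <;> positivity
  refine (Geo2.sum_shells f hf0).trans ?_
  set a := n / N with ha
  have hiff : ∀ R, N * R ≤ n ↔ ¬ a < R := by
    intro R
    rw [not_lt, ha, Nat.le_div_iff_mul_le hN, mul_comm]
  rw [← Finset.sum_filter_add_sum_filter_not _ (fun R => a < R)]
  have h1 : ∑ R ∈ (Icc 1 M).filter (fun R => a < R), 26 * (R : ℝ) ^ 2 * f R ≤
      (52 * 10 ^ 11 * C * ((n : ℝ) ^ 2 * k / (N : ℝ) ^ 4)) * (2 / (a + 1)) := by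
    refine le_trans (le_of_eq ?_) (mul_le_mul_of_nonneg_left (sum_inv_sq a M) (by positivity))
    rw [mul_sum]
    refine Finset.sum_congr rfl fun R hR => ?_
    obtain ⟨hR1, hR2⟩ := mem_filter.1 hR
    have hR0 : (R : ℝ) ≠ 0 := by
      have := (mem_Icc.1 hR1).1
      have : 0 < R := by omega
      exact_mod_cast this.ne'
    have : ¬ N * R ≤ n := by rw [hiff]; simpa using hR2
    simp only [hf]
    rw [if_neg this]
    field_simp
    ring
  have h2 : ∑ R ∈ (Icc 1 M).filter (fun R => ¬ a < R), 26 * (R : ℝ) ^ 2 * f R ≤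
      (26 * 10 ^ 9 * C * ((k : ℝ) / (N : ℝ) ^ 2)) * (n / N) := by
    have e1 : ∑ R ∈ (Icc 1 M).filter (fun R => ¬ a < R), 26 * (R : ℝ) ^ 2 * f R =
        ∑ R ∈ (Icc 1 M).filter (fun R => ¬ a < R), 26 * 10 ^ 9 * C * ((k : ℝ) / (N : ℝ) ^ 2) := by
      refine Finset.sum_congr rfl fun R hR => ?_
      obtain ⟨hR1, hR2⟩ := mem_filter.1 hR
      have hR0 : (R : ℝ) ≠ 0 := by
        have := (mem_Icc.1 hR1).1
        have : 0 < R := by omega
        exact_mod_cast this.ne'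
      have : N * R ≤ n := by rw [hiff]; exact hR2
      simp only [hf]
      rw [if_pos this]
      field_simp
    rw [e1, sum_const, nsmul_eq_mul, mul_comm]
    refine mul_le_mul_of_nonneg_left ?_ (by positivity)
    have e2 : ((Icc 1 M).filter (fun R => ¬ a < R)).card ≤ a := by
      have : (Icc 1 M).filter (fun R => ¬ a < R) ⊆ Icc 1 a := by
        intro R hR
        rw [mem_filter, mem_Icc] at hR
        rw [mem_Icc]
        omega
      have h3 := card_le_card this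
      rwa [Nat.card_Icc, Nat.add_sub_cancel] at h3
    have e3 : ((((Icc 1 M).filter (fun R => ¬ a < R)).card : ℕ) : ℝ) ≤ (a : ℝ) := by
      exact_mod_cast e2
    refine e3.trans ?_
    rw [ha]
    exact Nat.cast_div_le
  have h3 : (2 : ℝ) / (a + 1) ≤ 2 * N / n := by
    rw [div_le_div_iff₀ (by positivity) hn']
    have : n < N * (a + 1) := by
      rw [ha]
      exact Nat.lt_mul_div_succ n hN
    have h4 : (n : ℝ) < N * (a + 1) := by exact_mod_cast this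
    nlinarith
  have h4 : (52 * 10 ^ 11 * C * ((n : ℝ) ^ 2 * k / (N : ℝ) ^ 4)) * (2 / (a + 1)) ≤
      (52 * 10 ^ 11 * C * ((n : ℝ) ^ 2 * k / (N : ℝ) ^ 4)) * (2 * N / n) :=
    mul_le_mul_of_nonneg_left h3 (by positivity)
  have h5 : (52 * 10 ^ 11 * C * ((n : ℝ) ^ 2 * k / (N : ℝ) ^ 4)) * (2 * N / n) =
      104 * 10 ^ 11 * C * ((k : ℝ) * n / (N : ℝ) ^ 3) := by
    field_simp
    ring
  have h6 : (26 * 10 ^ 9 * C * ((k : ℝ) / (N : ℝ) ^ 2)) * (n / N) =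
      26 * 10 ^ 9 * C * ((k : ℝ) * n / (N : ℝ) ^ 3) := by
    field_simp
  have h7 : 0 ≤ C * ((k : ℝ) * n / (N : ℝ) ^ 3) := by positivity
  rw [h5] at h4
  rw [h6] at h2
  nlinarith

theorem edg_eq (G : SimpleGraph ℕ) (n : ℕ) : (edg G n).card = edgeCount G n := rfl

theorem card_normals (M : ℕ) : (normals M).card ≤ (2 * M + 1) ^ 3 := by
  rw [← Geo2.card_ball]
  exact card_filter_le _ _

/-- The error terms are negligible. -/
theorem err_small : ∃ N1 : ℕ, 1 ≤ N1 ∧ ∀ N : ℕ, N1 ≤ N →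
    ((2 * (⌊(N : ℝ) ^ (1 / 100 : ℝ)⌋₊ : ℝ) + 1) ^ 3) *
      (2 * 10 ^ 13 * (((N : ℝ) ^ (2 / 10 ^ 5 : ℝ)) ^ 7 * ((N : ℝ) ^ (1 / 10 ^ 5 : ℝ)) ^ 6 *
        (((18 * N * ⌈(N : ℝ) ^ (9 / 10 : ℝ)⌉₊ : ℕ) : ℝ) / (N : ℝ) ^ 2))) ≤ 1 / 32 := by
  have htend : Filter.Tendsto (fun x : ℝ => x ^ (-(6 / 100) : ℝ)) Filter.atTop (nhds 0) := by
    exact tendsto_rpow_neg_atTop (by norm_num)
  have hev : ∀ᶠ x : ℝ in Filter.atTop, x ^ (-(6 / 100) : ℝ) < 1 / (32 * (27 * (2 * 10 ^ 13 * 36))) :=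
    htend.eventually (gt_mem_nhds (by positivity))
  obtain ⟨X, hX⟩ := Filter.eventually_atTop.1 hev
  refine ⟨max 1 ⌈X⌉₊, le_max_left _ _, fun N hN => ?_⟩
  have hN1 : 1 ≤ N := (le_max_left _ _).trans hN
  have hNX : X ≤ N := by
    have : ⌈X⌉₊ ≤ N := (le_max_right _ _).trans hN
    exact (Nat.le_ceil X).trans (by exact_mod_cast this)
  have hN1' : (1 : ℝ) ≤ N := by exact_mod_cast hN1
  have hN0 : (0 : ℝ) < N := by linarith
  have hmain := hX N hNX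
  have e1 : (1 : ℝ) ≤ (N : ℝ) ^ (1 / 100 : ℝ) := Real.one_le_rpow hN1' (by norm_num)
  have e2 : (⌊(N : ℝ) ^ (1 / 100 : ℝ)⌋₊ : ℝ) ≤ (N : ℝ) ^ (1 / 100 : ℝ) :=
    Nat.floor_le (by positivity)
  have e3 : ((2 * (⌊(N : ℝ) ^ (1 / 100 : ℝ)⌋₊ : ℝ) + 1) ^ 3) ≤ 27 * (N : ℝ) ^ (3 / 100 : ℝ) := by
    have : (N : ℝ) ^ (3 / 100 : ℝ) = ((N : ℝ) ^ (1 / 100 : ℝ)) ^ 3 := by
      rw [← Real.rpow_natCast, ← Real.rpow_mul hN0.le]
      norm_num
    rw [this]
    have h27 : (27 : ℝ) * ((N : ℝ) ^ (1 / 100 : ℝ)) ^ 3 = (3 * (N : ℝ) ^ (1 / 100 : ℝ)) ^ 3 := by ring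
    rw [h27]
    apply pow_le_pow_left₀ (by positivity)
    linarith
  have e4 : (((18 * N * ⌈(N : ℝ) ^ (9 / 10 : ℝ)⌉₊ : ℕ) : ℝ) / (N : ℝ) ^ 2) ≤
      36 * (N : ℝ) ^ (-(1 / 10) : ℝ) := by
    have h1 : (⌈(N : ℝ) ^ (9 / 10 : ℝ)⌉₊ : ℝ) ≤ (N : ℝ) ^ (9 / 10 : ℝ) + 1 :=
      (Nat.ceil_lt_add_one (by positivity)).le
    have h2 : (1 : ℝ) ≤ (N : ℝ) ^ (9 / 10 : ℝ) := Real.one_le_rpow hN1' (by norm_num)
    have h3 : (N : ℝ) ^ (-(1 / 10) : ℝ) * N = (N : ℝ) ^ (9 / 10 : ℝ) := by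
      nth_rw 2 [← Real.rpow_one (N : ℝ)]
      rw [← Real.rpow_add hN0]
      norm_num
    push_cast
    rw [div_le_iff₀ (by positivity)]
    have h4 : 36 * (N : ℝ) ^ (-(1 / 10) : ℝ) * (N : ℝ) ^ 2 =
        18 * N * (2 * (N : ℝ) ^ (9 / 10 : ℝ)) := by
      rw [← h3]; ring
    rw [h4]
    refine mul_le_mul_of_nonneg_left ?_ (by positivity)
    linarith
  calc _ ≤ (27 * (N : ℝ) ^ (3 / 100 : ℝ)) *
      (2 * 10 ^ 13 * (((N : ℝ) ^ (2 / 10 ^ 5 : ℝ)) ^ 7 * ((N : ℝ) ^ (1 / 10 ^ 5 : ℝ)) ^ 6 *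
        (36 * (N : ℝ) ^ (-(1 / 10) : ℝ)))) := by gcongr
    _ = (27 * (2 * 10 ^ 13 * 36)) * ((N : ℝ) ^ (3 / 100 : ℝ) * (((N : ℝ) ^ (2 / 10 ^ 5 : ℝ)) ^ 7 *
        ((N : ℝ) ^ (1 / 10 ^ 5 : ℝ)) ^ 6) * (N : ℝ) ^ (-(1 / 10) : ℝ)) := by ring
    _ = (27 * (2 * 10 ^ 13 * 36)) * (N : ℝ) ^ (3 / 100 + ((2 / 10 ^ 5) * 7 + (1 / 10 ^ 5) * 6) +
        -(1 / 10) : ℝ) := by
        have g1 : ((N : ℝ) ^ (2 / 10 ^ 5 : ℝ)) ^ 7 = (N : ℝ) ^ ((2 / 10 ^ 5) * 7 : ℝ) := by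
          rw [← Real.rpow_natCast ((N : ℝ) ^ (2 / 10 ^ 5 : ℝ)) 7, ← Real.rpow_mul hN0.le]
          norm_num
        have g2 : ((N : ℝ) ^ (1 / 10 ^ 5 : ℝ)) ^ 6 = (N : ℝ) ^ ((1 / 10 ^ 5) * 6 : ℝ) := by
          rw [← Real.rpow_natCast ((N : ℝ) ^ (1 / 10 ^ 5 : ℝ)) 6, ← Real.rpow_mul hN0.le]
          norm_num
        rw [g1, g2, ← Real.rpow_add hN0, ← Real.rpow_add hN0, ← Real.rpow_add hN0]
    _ ≤ (27 * (2 * 10 ^ 13 * 36)) * (N : ℝ) ^ (-(6 / 100) : ℝ) := by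
        refine mul_le_mul_of_nonneg_left ?_ (by positivity)
        exact Real.rpow_le_rpow_of_exponent_le hN1' (by norm_num)
    _ ≤ 1 / 32 := by
        have := mul_le_mul_of_nonneg_left hmain.le
          (by positivity : (0:ℝ) ≤ (27 * (2 * 10 ^ 13 * 36)))
        refine this.trans (le_of_eq ?_)
        field_simp

/-- **Rule (A2).** -/
theorem a2Bound (hMP : MPSpread) : A2Bound := by
  obtain ⟨C, hC, N0, hMP⟩ := hMP
  obtain ⟨N1, hN1, herr⟩ := err_small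
  refine ⟨10 ^ 15 * C + 1, by positivity, max N0 N1, ?_⟩
  intro N hN hNpos G n hnN hk x hx
  have hNN0 : N0 ≤ N := (le_max_left _ _).trans hN
  have hNN1 : N1 ≤ N := (le_max_right _ _).trans hN
  rcases Nat.eq_zero_or_pos n with hn0 | hn
  · subst hn0; simp
  have hN1' : (1 : ℝ) ≤ N := by exact_mod_cast hNpos
  have hN' : (0 : ℝ) < N := by linarith
  have hn' : (0 : ℝ) < n := by exact_mod_cast hn
  set P := par N hNpos G with hP
  have hPN : P.N = N := rfl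
  have hPG : P.G = G := rfl
  have hPM : P.M = ⌊(N : ℝ) ^ (1 / 100 : ℝ)⌋₊ := rfl
  have hMPn : MPn P n C := fun a t pl T h1 h2 h3 h4 h5 h6 =>
    hMP N hNN0 hNpos G n hnN a t pl T h1 h2 h3 h4 h5 h6
  have hMN : P.M ≤ P.N := by
    rw [hPM, hPN]
    have h1 : (N : ℝ) ^ (1 / 100 : ℝ) ≤ N := by
      calc (N : ℝ) ^ (1 / 100 : ℝ) ≤ (N : ℝ) ^ (1 : ℝ) :=
            Real.rpow_le_rpow_of_exponent_le hN1' (by norm_num)
        _ = N := Real.rpow_one _
    have h2 := Nat.floor_le (a := (N : ℝ) ^ (1 / 100 : ℝ)) (by positivity)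
    exact_mod_cast h2.trans h1
  set h : ℝ := (N : ℝ) ^ (1 / 10 ^ 5 : ℝ) with hh
  have hh1 : 1 ≤ h := Real.one_le_rpow hN1' (by norm_num)
  have hnh : (n : ℝ) ≤ h * P.N := by
    have h1 : (n : ℝ) ≤ (N : ℝ) ^ (1 + 1 / 10 ^ 5 : ℝ) := hnN
    rw [Real.rpow_add hN', Real.rpow_one] at h1
    rw [hPN, mul_comm]
    exact h1
  set B : ℕ := 18 * N * ⌈(N : ℝ) ^ (9 / 10 : ℝ)⌉₊ with hBdef
  have hB : ∀ m ∈ normals P.M, ∀ a ∈ plane P.N m (dot m x),
      ((plane P.N m (dot m x)).filter (fun b => ¬ Spread P.N a b)).card ≤ B := by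
    intro m hm a ha
    have hprim := (Geo2.mem_normals.1 hm).2
    have h8 := Geo2.G8 (D := ⌈(N : ℝ) ^ (9 / 10 : ℝ)⌉₊) (Geo2.Prim.ne_zero hprim) ha
    refine le_trans (card_le_card ?_) h8
    intro b hb
    rw [mem_filter] at hb ⊢
    refine ⟨hb.1, ?_⟩
    have h1 : (dirN a b : ℝ) < (N : ℝ) ^ (9 / 10 : ℝ) := not_le.1 hb.2
    have h2 := h1.trans_le (Nat.le_ceil _)
    exact_mod_cast h2
  have hkn0 : (0 : ℝ) ≤ (edgeCount G n : ℝ) * n := by positivity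
  have hk' : (1 + 10 ^ 15 * C) * ((edgeCount G n : ℝ) * n) ≤ (N : ℝ) ^ 3 := by
    calc _ = (10 ^ 15 * C + 1) * (edgeCount G n : ℝ) * n := by ring
      _ ≤ _ := hk
  have hk1 : ((edg P.G n).card : ℝ) * n ≤ (P.N : ℝ) ^ 3 := by
    rw [hPG, edg_eq, hPN]
    have : 0 ≤ 10 ^ 15 * C * ((edgeCount G n : ℝ) * n) := by positivity
    nlinarith
  -- union bound over the normals
  have hunion : ∀ s ω, P.wab s ω x * (if P.A2 s ω x then (1 : ℝ) else 0) ≤
      ∑ m ∈ normals P.M, P.wab s ω x *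
        (if 1 / 100 < ∑ r ∈ range (s + 1), P.phP r ω m (dot m x) then 1 else 0) := by
    intro s ω
    rw [← mul_sum]
    refine mul_le_mul_of_nonneg_left ?_ (P.wab_nonneg _ _ _)
    split_ifs with hA
    · obtain ⟨m, hm, hlt⟩ := hA
      have hlt' : (1 / 100 : ℝ) < ∑ r ∈ range (s + 1), P.phP r ω m (dot m x) := hlt
      have e1 : (1 : ℝ) = (if 1 / 100 < ∑ r ∈ range (s + 1), P.phP r ω m (dot m x) then 1 else 0) := by
        rw [if_pos hlt']
      refine e1.le.trans ?_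
      exact single_le_sum (f := fun m =>
        (if 1 / 100 < ∑ r ∈ range (s + 1), P.phP r ω m (dot m x) then (1 : ℝ) else 0))
        (fun m _ => by
          show (0 : ℝ) ≤ (if 1 / 100 < ∑ r ∈ range (s + 1), P.phP r ω m (dot m x) then (1 : ℝ) else 0)
          split_ifs <;> norm_num) hm
    · exact sum_nonneg fun m _ => by split_ifs <;> norm_num
  calc ∑ s ∈ range n, P.ex s (fun ω => P.wab s ω x * (if P.A2 s ω x then 1 else 0))
      ≤ ∑ s ∈ range n, ∑ m ∈ normals P.M, P.ex s (fun ω => P.wab s ω x *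
        (if 1 / 100 < ∑ r ∈ range (s + 1), P.phP r ω m (dot m x) then 1 else 0)) := by
        refine sum_le_sum fun s _ => ?_
        rw [← P.ex_sum]
        exact P.ex_mono fun ω _ => hunion s ω
    _ = ∑ m ∈ normals P.M, ∑ s ∈ range n, P.ex s (fun ω => P.wab s ω x *
        (if 1 / 100 < ∑ r ∈ range (s + 1), P.phP r ω m (dot m x) then 1 else 0)) := sum_comm
    _ ≤ ∑ m ∈ normals P.M,
        ((if P.N * nrm m ≤ n then
            10 ^ 9 * C * (((edg P.G n).card : ℝ) / ((P.N : ℝ) * nrm m) ^ 2)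
          else 2 * 10 ^ 11 * C *
            ((n : ℝ) ^ 2 * (edg P.G n).card / ((P.N : ℝ) * nrm m) ^ 4)) +
          2 * 10 ^ 13 * (P.om ^ 7 * h ^ 6 * ((B : ℝ) / (P.N : ℝ) ^ 2))) := by
        refine sum_le_sum fun m hm => ?_
        exact per_plane hC.le hMPn hm hMN hx (hB m hm) h hh1 hnh hk1
    _ ≤ 2 * 10 ^ 13 * C * (((edg P.G n).card : ℝ) * n / (P.N : ℝ) ^ 3) + 1 / 32 := by
        rw [sum_add_distrib]
        refine add_le_add (main_sum hC.le hNpos hn) ?_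
        rw [sum_const, nsmul_eq_mul]
        have hcard : ((normals P.M).card : ℝ) ≤
            (2 * (⌊(N : ℝ) ^ (1 / 100 : ℝ)⌋₊ : ℝ) + 1) ^ 3 := by
          have := card_normals P.M
          rw [hPM] at this
          rw [hPM]
          exact_mod_cast this
        have hom : P.om = (N : ℝ) ^ (2 / 10 ^ 5 : ℝ) := par_om N hNpos G
        refine le_trans ?_ (herr N hNN1)
        rw [hom, hPN]
        refine mul_le_mul_of_nonneg_right hcard (by positivity)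
    _ ≤ 1 / 16 := by
        have h1 : (10 ^ 15 * C) * (((edg P.G n).card : ℝ) * n / (P.N : ℝ) ^ 3) ≤ 1 := by
          rw [mul_div_assoc', div_le_one (by positivity), hPG, edg_eq, hPN]
          nlinarith
        nlinarith

end Pool.Agent.Grid3D.RuleA2
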