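import Pool.Agent.Grid3D.RuleA4
import Pool.Agent.Grid3D.RuleA1
import Pool.Agent.Grid3D.RuleA2
import Pool.Agent.Grid3D.MPSpread

/-!
# Regime 1, assembly
-/

set_option autoImplicit false

namespace Pool.Agent.Grid3D

theorem regime1 : Regime1 :=
  regime1_of a5Bound a4Bound (RuleA1.a1Bound_of mpSpread) (RuleA2.a2Bound mpSpread)

end Pool.Agent.Grid3D
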