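import Pool.Agent.Grid3D.Par
import Pool.Agent.Grid3D.Process

/-!
# Regime 1: SPEC of parts E (helper49) and F (helper35, helper38).  Statements only.
-/

set_option autoImplicit false

open Classical Finset

noncomputable section

namespace Pool.Agent.Grid3D

/-- E1 (helper49): REST LEMMA.  The forced vertices are `c ∈ C`, at positions `z c`.
Only those placed before time `S` have to be spread from `a`, `b` and from each other. -/
def RestLemma : Prop :=
  ∃ N0 : ℕ, ∀ N ≥ N0, ∀ (hN : 0 < N) (G : SimpleGraph ℕ) (n : ℕ), NBound N n →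
    ∀ (a b : Pt) (S T : ℕ) (C : Finset ℕ) (z : ℕ → Pt),
      a ∈ box N → b ∈ box N → (∀ c ∈ C, z c ∈ box N) → S ≤ T → T ≤ n → (∀ c ∈ C, c < T) →
      C.card ≤ 7 → Spread N a b →
      (∀ c ∈ C, c < S → Spread N a (z c) ∧ Spread N b (z c)) →
      (∀ c ∈ C, ∀ d ∈ C, c < S → d < S → c ≠ d → Spread N (z c) (z d)) →
      (par N hN G).ex T (fun ω => (∏ c ∈ C, if ω c = z c then (1 : ℝ) else 0) *
        (par N hN G).restSum S ω a b) ≤
        (2 * (par N hN G).om / (par N hN G).V) ^ C.card * (N : ℝ) ^ (-(1 / 200) : ℝ)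

/-- E2 (helper49): MP' for spread marks. -/
def MPSpread : Prop :=
  ∃ C7 : ℝ, 0 < C7 ∧ ∃ N0 : ℕ, ∀ N ≥ N0, ∀ (hN : 0 < N) (G : SimpleGraph ℕ) (n : ℕ), NBound N n →
    ∀ {ι : Type} [Fintype ι] (a : ι → Pt) (t : ι → ℕ) (pl : ι → Bool) (T : ℕ),
      Fintype.card ι ≤ 7 → (∀ i, a i ∈ box N) → (∀ i j, i ≠ j → Spread N (a i) (a j)) →
      T ≤ n → (∀ i, t i ≤ T) → (∀ i, pl i = true → t i < T) →
      (par N hN G).ex T (fun ω => ∏ i, (par N hN G).mv (a i) (t i) (pl i) ω) ≤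
        C7 * (1 / (par N hN G).V) ^ (univ.filter (fun i => pl i = true)).card

/-- F (helper35): rule (A5). -/
def A5Bound : Prop :=
  ∃ N0 : ℕ, ∀ N ≥ N0, ∀ (hN : 0 < N) (G : SimpleGraph ℕ) (n : ℕ), NBound N n →
    ∀ x ∈ box N, ∑ s ∈ range n, (par N hN G).ex s (fun ω => (par N hN G).wab s ω x *
      (if (par N hN G).A5 s ω x then 1 else 0)) ≤ 1 / 16

/-- F (helper35): rule (A4). -/
def A4Bound : Prop :=
  ∃ N0 : ℕ, ∀ N ≥ N0, ∀ (hN : 0 < N) (G : SimpleGraph ℕ) (n : ℕ), NBound N n →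
    ∀ x ∈ box N, ∑ s ∈ range n, (par N hN G).ex s (fun ω => (par N hN G).wab s ω x *
      (if (par N hN G).A4 s ω x ∧ ¬ (par N hN G).A5 s ω x then 1 else 0)) ≤ 1 / 16

/-- F (helper35): rule (A1). -/
def A1Bound : Prop :=
  ∃ K0 : ℝ, 0 < K0 ∧ ∃ N0 : ℕ, ∀ N ≥ N0, ∀ (hN : 0 < N) (G : SimpleGraph ℕ) (n : ℕ), NBound N n →
    K0 * edgeCount G n * n ≤ (N : ℝ) ^ 3 →
    ∀ x ∈ box N, ∑ s ∈ range n, (par N hN G).ex s (fun ω => (par N hN G).wab s ω x *
      (if (par N hN G).A1 s ω x then 1 else 0)) ≤ 1 / 16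

/-- F (helper38): rule (A2). -/
def A2Bound : Prop :=
  ∃ K0 : ℝ, 0 < K0 ∧ ∃ N0 : ℕ, ∀ N ≥ N0, ∀ (hN : 0 < N) (G : SimpleGraph ℕ) (n : ℕ), NBound N n →
    K0 * edgeCount G n * n ≤ (N : ℝ) ^ 3 →
    ∀ x ∈ box N, ∑ s ∈ range n, (par N hN G).ex s (fun ω => (par N hN G).wab s ω x *
      (if (par N hN G).A2 s ω x then 1 else 0)) ≤ 1 / 16

/-- The result of regime 1, used by helper90. -/
def Regime1 : Prop :=
  ∃ K0 : ℝ, 0 < K0 ∧ ∃ N0 : ℕ, ∀ N ≥ N0, 0 < N → ∀ (G : SimpleGraph ℕ) (n : ℕ), NBound N n →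
    K0 * edgeCount G n * n ≤ (N : ℝ) ^ 3 → ∃ φ, Good N n G φ

/-- Assembly of regime 1. -/
theorem regime1_of (h5 : A5Bound) (h4 : A4Bound) (h1 : A1Bound) (h2 : A2Bound) : Regime1 := by
  obtain ⟨N5, h5⟩ := h5
  obtain ⟨N4, h4⟩ := h4
  obtain ⟨K1, hK1, N1, h1⟩ := h1
  obtain ⟨K2, hK2, N2, h2⟩ := h2
  refine ⟨max K1 K2, lt_max_of_lt_left hK1, max (max N5 N4) (max N1 N2), ?_⟩
  intro N hN hN0 G n hn hk
  have hkn : (0 : ℝ) ≤ edgeCount G n * n := by positivity
  have e1 : K1 * edgeCount G n * n ≤ (N : ℝ) ^ 3 := by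
    refine le_trans ?_ hk
    have := mul_le_mul_of_nonneg_right (le_max_left K1 K2) hkn
    nlinarith
  have e2 : K2 * edgeCount G n * n ≤ (N : ℝ) ^ 3 := by
    refine le_trans ?_ hk
    have := mul_le_mul_of_nonneg_right (le_max_right K1 K2) hkn
    nlinarith
  have hb5 := h5 N (le_trans (le_trans (le_max_left _ _) (le_max_left _ _)) hN) hN0 G n hn
  have hb4 := h4 N (le_trans (le_trans (le_max_right _ _) (le_max_left _ _)) hN) hN0 G n hn
  have hb1 := h1 N (le_trans (le_trans (le_max_left _ _) (le_max_right _ _)) hN) hN0 G n hn e1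
  have hb2 := h2 N (le_trans (le_trans (le_max_right _ _) (le_max_right _ _)) hN) hN0 G n hn e2
  have key := (par N hN0 G).good_of_wab n ?_
  · exact key
  · intro x hx
    have q5 := hb5 x hx
    have q4 := hb4 x hx
    have q1 := hb1 x hx
    have q2 := hb2 x hx
    calc ∑ s ∈ range n, (par N hN0 G).ex s (fun ω => (par N hN0 G).wab s ω x)
        ≤ ∑ s ∈ range n, ((par N hN0 G).ex s (fun ω => (par N hN0 G).wab s ω x *
              (if (par N hN0 G).A5 s ω x then 1 else 0)) +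
            (par N hN0 G).ex s (fun ω => (par N hN0 G).wab s ω x *
              (if (par N hN0 G).A4 s ω x ∧ ¬ (par N hN0 G).A5 s ω x then 1 else 0)) +
            (par N hN0 G).ex s (fun ω => (par N hN0 G).wab s ω x *
              (if (par N hN0 G).A1 s ω x then 1 else 0)) +
            (par N hN0 G).ex s (fun ω => (par N hN0 G).wab s ω x *
              (if (par N hN0 G).A2 s ω x then 1 else 0))) := by
          refine Finset.sum_le_sum (fun s _ => ?_)
          rw [← Params.ex_add, ← Params.ex_add, ← Params.ex_add]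
          exact Params.ex_mono _ (fun ω _ => Params.wab_le_rules _ s ω x)
      _ ≤ 1 / 4 := by
          rw [Finset.sum_add_distrib, Finset.sum_add_distrib, Finset.sum_add_distrib]
          linarith

end Pool.Agent.Grid3D
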