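import Pool.Agent.Grid3D.R2Num
import Pool.Agent.Grid3D.R2LLL

/-!
# Regime 2, assembly
-/

set_option autoImplicit false

namespace Pool.Agent.Grid3D

theorem regime2 : Regime2 := regime2_of lllPlace

end Pool.Agent.Grid3D
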