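import Pool.Agent.Grid3D.Geo3

/-!
# Regime 1, REST lemma, part 2: counting the patterns
-/

set_option autoImplicit false

open Classical Finset

noncomputable section

namespace Pool.Agent.Grid3D
namespace Rest

open Geo2

/-- the four points lie in a common small plane -/
def Sm (M : ℕ) (x y z w : Pt) : Prop :=
  ∃ m ∈ normals M, dot m x = dot m y ∧ dot m x = dot m z ∧ dot m x = dot m w

/-- a non degenerate witness for `u ∈ K(x)` -/
def Wit (x u p q : Pt) : Prop :=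
  Cop x u p q ∧ ¬ Col x p q ∧ ¬ Col u p q ∧ ¬ Col x u p ∧ ¬ Col x u q

structure Hyp (N M D : ℕ) : Prop where
  M1 : 1 ≤ M
  M7 : M ^ 7 ≤ N
  MD : M * D ≤ N
  LD : (M : ℝ) ^ 2 * (1 + Real.log N) ≤ D
  D2 : 2 * M ^ 2 < D

/-- the common bound -/
def bd (N M k : ℕ) : ℝ := 10 ^ 13 * (N : ℝ) ^ (2 * (k + 1)) * (1 + Real.log N) / M

/-! ### symmetries -/

lemma cop12 {x y p q : Pt} (h : Cop x y p q) : Cop y x p q := by
  have : dot (x - y) (cross (p - y) (q - y)) = - dot (y - x) (cross (p - x) (q - x)) := by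
    simp only [dot, cross_apply0, cross_apply1, cross_apply2, Pi.sub_apply]; ring
  unfold Cop at h ⊢
  rw [this, h, neg_zero]

lemma cop23 {x y p q : Pt} (h : Cop x y p q) : Cop x p y q := by
  have : dot (p - x) (cross (y - x) (q - x)) = - dot (y - x) (cross (p - x) (q - x)) := by
    simp only [dot, cross_apply0, cross_apply1, cross_apply2, Pi.sub_apply]; ring
  unfold Cop at h ⊢
  rw [this, h, neg_zero]

lemma cop34 {x y p q : Pt} (h : Cop x y p q) : Cop x y q p := by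
  have : dot (y - x) (cross (q - x) (p - x)) = - dot (y - x) (cross (p - x) (q - x)) := by
    simp only [dot, cross_apply0, cross_apply1, cross_apply2, Pi.sub_apply]; ring
  unfold Cop at h ⊢
  rw [this, h, neg_zero]

lemma col12 {x y z : Pt} (h : Col x y z) : Col y x z := by
  have : cross (x - y) (z - y) = - cross (y - x) (z - x) := by
    funext i
    fin_cases i <;> simp [cross] <;> ring
  unfold Col at h ⊢
  rw [this, h, neg_zero]

lemma col23 {x y z : Pt} (h : Col x y z) : Col x z y := by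
  have : cross (z - x) (y - x) = - cross (y - x) (z - x) := by
    funext i
    fin_cases i <;> simp [cross] <;> ring
  unfold Col at h ⊢
  rw [this, h, neg_zero]

lemma Wit.swap {x u p q : Pt} (h : Wit x u p q) : Wit x u q p :=
  ⟨cop34 h.1, fun h' => h.2.1 (col23 h'), fun h' => h.2.2.1 (col23 h'), h.2.2.2.2, h.2.2.2.1⟩

lemma Sm.swap34 {M : ℕ} {x y z w : Pt} (h : Sm M x y z w) : Sm M x y w z := by
  obtain ⟨m, hm, h1, h2, h3⟩ := h
  exact ⟨m, hm, h1, h3, h2⟩

lemma Sm.swap23 {M : ℕ} {x y z w : Pt} (h : Sm M x y z w) : Sm M x z y w := by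
  obtain ⟨m, hm, h1, h2, h3⟩ := h
  exact ⟨m, hm, h2, h1, h3⟩

/-- a plane with three non collinear points of a coplanar quadruple contains the fourth -/
lemma plane_mem {m x y p q : Pt} (h1 : dot m x = dot m y) (h2 : dot m x = dot m p)
    (h3 : ¬ Col x y p) (h4 : Cop x y p q) : dot m x = dot m q := by
  have hY : dot m (y - x) = 0 := by rw [dot_sub, h1]; ring
  have hP : dot m (p - x) = 0 := by rw [dot_sub, h2]; ring
  have hQ : dot (cross (y - x) (p - x)) (q - x) = 0 := by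
    have : dot (cross (y - x) (p - x)) (q - x) = dot (y - x) (cross (p - x) (q - x)) := by
      simp only [dot, cross_apply0, cross_apply1, cross_apply2, Pi.sub_apply]; ring
    rw [this]; exact h4
  have hne : cross (y - x) (p - x) ≠ 0 := h3
  obtain ⟨i, hi⟩ : ∃ i, cross (y - x) (p - x) i ≠ 0 := by
    by_contra hcon
    push Not at hcon
    exact hne (funext hcon)
  have key : ∀ i, cross (y - x) (p - x) i * dot m (q - x) =
      m i * dot (cross (y - x) (p - x)) (q - x) := by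
    simp only [dot] at hY hP
    intro i
    fin_cases i
    · simp only [dot, cross_apply0, cross_apply1, cross_apply2, Fin.zero_eta, Fin.isValue]
      linear_combination ((q - x) 1 * (p - x) 2 - (q - x) 2 * (p - x) 1) * hY +
        ((q - x) 2 * (y - x) 1 - (q - x) 1 * (y - x) 2) * hP
    · simp only [dot, cross_apply0, cross_apply1, cross_apply2, Fin.mk_one, Fin.isValue]
      linear_combination ((q - x) 2 * (p - x) 0 - (q - x) 0 * (p - x) 2) * hY +
        ((q - x) 0 * (y - x) 2 - (q - x) 2 * (y - x) 0) * hP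
    · simp only [dot, cross_apply0, cross_apply1, cross_apply2, Fin.reduceFinMk, Fin.isValue]
      linear_combination ((q - x) 0 * (p - x) 1 - (q - x) 1 * (p - x) 0) * hY +
        ((q - x) 1 * (y - x) 0 - (q - x) 0 * (y - x) 1) * hP
  have h5 := key i
  rw [hQ, mul_zero] at h5
  have h6 := (mul_eq_zero.1 h5).resolve_left hi
  rw [dot_sub] at h6
  linarith

/-! ### planes through three points -/

lemma card_pl {N : ℕ} {x y p : Pt} (hx : x ∈ box N) (hy : y ∈ box N) (hp : p ∈ box N)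
    (h : ¬ Col x y p) :
    (((box N).filter (fun q => Cop x y p q)).card : ℝ) ≤ 18 * (N : ℝ) ^ 2 := by
  have hns := normal_spec h
  set m := prim (cross (y - x) (p - x)) with hm
  have hP : Prim m := prim_Prim h
  have h1 := planeBound N m x y p hP hx hy hp h
    (by
      have := (hns y).1 (by unfold Cop; simp [cross, dot]; ring)
      exact this)
    (by
      have := (hns p).1 (by unfold Cop; simp [cross, dot]; ring)
      exact this)
  have h2 : (box N).filter (fun q => Cop x y p q) = plane N m (dot m x) := by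
    unfold plane
    apply Finset.filter_congr
    intro q _
    exact hns q
  rw [h2]
  refine h1.trans ?_
  have h3 : (1 : ℝ) ≤ nrm m := by exact_mod_cast Prim.nrm_pos hP
  rw [div_le_iff₀ (by linarith)]
  nlinarith [sq_nonneg (N : ℝ)]

lemma card_pl_large {N M : ℕ} (hM : 1 ≤ M) {x y p : Pt} (hx : x ∈ box N) (hy : y ∈ box N)
    (hp : p ∈ box N) (h : ¬ Col x y p) :
    (((box N).filter (fun q => Cop x y p q ∧ ¬ Sm M x y p q)).card : ℝ) ≤
      18 * (N : ℝ) ^ 2 / M := by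
  have hM0 : (0 : ℝ) < M := by exact_mod_cast hM
  rcases Finset.eq_empty_or_nonempty ((box N).filter (fun q => Cop x y p q ∧ ¬ Sm M x y p q))
    with h0 | ⟨q0, hq0⟩
  · rw [h0, Finset.card_empty, Nat.cast_zero]
    positivity
  · rw [Finset.mem_filter] at hq0
    have hns := normal_spec h
    set m := prim (cross (y - x) (p - x)) with hm
    have hP : Prim m := prim_Prim h
    have hmy : dot m y = dot m x := (hns y).1 (by unfold Cop; simp [cross, dot]; ring)
    have hmp : dot m p = dot m x := (hns p).1 (by unfold Cop; simp [cross, dot]; ring)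
    have h1 := planeBound N m x y p hP hx hy hp h hmy hmp
    have hMm : M < nrm m := by
      by_contra hcon
      push Not at hcon
      apply hq0.2.2
      exact ⟨m, mem_normals.2 ⟨hcon, hP⟩, hmy.symm, hmp.symm, ((hns q0).1 hq0.2.1).symm⟩
    have h2 : (box N).filter (fun q => Cop x y p q ∧ ¬ Sm M x y p q) ⊆ plane N m (dot m x) := by
      intro q hq
      rw [Finset.mem_filter] at hq
      rw [plane, Finset.mem_filter]
      exact ⟨hq.1, (hns q).1 hq.2.1⟩
    have h3 : (((box N).filter (fun q => Cop x y p q ∧ ¬ Sm M x y p q)).card : ℝ) ≤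
        ((plane N m (dot m x)).card : ℝ) := by exact_mod_cast Finset.card_le_card h2
    refine h3.trans (h1.trans ?_)
    have h4 : (M : ℝ) ≤ nrm m := by exact_mod_cast hMm.le
    apply div_le_div_of_nonneg_left (by positivity) hM0 h4

/-- fibre counting -/
lemma card_fib {α β γ : Type*} (A : Finset α) (B : Finset β) (f : α → β) (g : α → γ)
    (F : β → Finset γ) (hf : ∀ x ∈ A, f x ∈ B) (hg : ∀ x ∈ A, g x ∈ F (f x))
    (hinj : ∀ x y, f x = f y → g x = g y → x = y) {n : ℝ}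
    (hF : ∀ y ∈ B, ((F y).card : ℝ) ≤ n) : (A.card : ℝ) ≤ B.card * n := by
  have h1 : A.card ≤ (B.sigma F).card := by
    apply Finset.card_le_card_of_injOn (fun x => (⟨f x, g x⟩ : Sigma (fun _ : β => γ)))
    · intro x hx
      simp only [Finset.coe_sigma, Set.mem_sigma_iff, Finset.mem_coe]
      exact ⟨hf x hx, hg x hx⟩
    · intro x _ y _ hxy
      simp only [Sigma.mk.injEq, heq_eq_eq] at hxy
      exact hinj x y hxy.1 hxy.2
  rw [Finset.card_sigma] at h1
  calc (A.card : ℝ) ≤ ((∑ y ∈ B, (F y).card : ℕ) : ℝ) := by exact_mod_cast h1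
    _ = ∑ y ∈ B, ((F y).card : ℝ) := by push_cast; rfl
    _ ≤ ∑ _y ∈ B, n := Finset.sum_le_sum hF
    _ = B.card * n := by rw [Finset.sum_const, nsmul_eq_mul]

section counts

variable {N M D : ℕ} (H : Hyp N M D)
include H

lemma Hyp.M0 : (0 : ℝ) < M := by
  have := H.M1
  exact_mod_cast this

lemma Hyp.M1r : (1 : ℝ) ≤ M := by
  have := H.M1
  exact_mod_cast this

lemma Hyp.MN : (M : ℝ) ≤ N := by
  have h1 : M ≤ M ^ 7 := Nat.le_self_pow (by norm_num) M
  exact_mod_cast h1.trans H.M7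

lemma Hyp.N1 : (1 : ℝ) ≤ N := H.M1r.trans H.MN

lemma Hyp.L1 : (1 : ℝ) ≤ 1 + Real.log N := by
  have := Real.log_nonneg H.N1
  linarith

lemma Hyp.MDr : (M : ℝ) * D ≤ N := by exact_mod_cast H.MD

/-- how to prove the bounds: `x * M ≤ 10^13 * N^{2(k+1)} * L`. -/
lemma le_bd {k : ℕ} {x y : ℝ} (h : x ≤ y / M) (h2 : y ≤ 10 ^ 13 * (N : ℝ) ^ (2 * (k + 1)) *
    (1 + Real.log N)) : x ≤ bd N M k := by
  refine h.trans ?_
  unfold bd
  exact div_le_div_of_nonneg_right h2 H.M0.le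

lemma bd_nonneg (k : ℕ) : 0 ≤ bd N M k := by
  unfold bd
  have := H.M0
  have := H.N1
  have := H.L1
  positivity

lemma le_bd' {k : ℕ} {x c : ℝ} (hc : c ≤ 10 ^ 13) (_hc0 : 0 ≤ c)
    (h : x ≤ c * (N : ℝ) ^ (2 * (k + 1)) * (1 + Real.log N) / M) : x ≤ bd N M k := by
  refine h.trans ?_
  unfold bd
  have := H.M0
  have := H.N1
  have := H.L1
  gcongr

/-! #### k = 0 -/

lemma cnt00 (a b : Pt) : ((({a, b} : Finset Pt).card : ℕ) : ℝ) ≤ bd N M 0 := by
  have h1 : ((({a, b} : Finset Pt).card : ℕ) : ℝ) ≤ 2 := by exact_mod_cast Finset.card_le_two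
  have hM := H.M0
  have hMN := H.MN
  have hN := H.N1
  have hL := H.L1
  apply le_bd' H (c := 2) (by norm_num) (by norm_num)
  refine h1.trans ?_
  rw [le_div_iff₀ hM]
  calc (2 : ℝ) * M ≤ 2 * (N * N) := by nlinarith
    _ = 2 * (N : ℝ) ^ (2 * (0 + 1)) * 1 := by ring
    _ ≤ 2 * (N : ℝ) ^ (2 * (0 + 1)) * (1 + Real.log N) := by gcongr

lemma cnt01 {a z : Pt} (ha : a ∈ box N) (hz : z ∈ box N) (hne : z ≠ a) :
    (((box N).filter (fun u => Col a u z)).card : ℝ) ≤ bd N M 0 := by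
  have h1 := card_line ha hz hne
  have h2 : (box N).filter (fun u => Col a u z) ⊆ (box N).filter (fun u => Col a z u) := by
    intro u hu
    rw [Finset.mem_filter] at hu ⊢
    exact ⟨hu.1, col23 hu.2⟩
  have h3 : (((box N).filter (fun u => Col a u z)).card : ℝ) ≤
      (((box N).filter (fun u => Col a z u)).card : ℝ) := by
    exact_mod_cast Finset.card_le_card h2
  have hpos : (1 : ℝ) ≤ nrm (prim (z - a)) := by
    exact_mod_cast Prim.nrm_pos (prim_Prim (sub_ne_zero.2 hne))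
  have hM := H.M0
  have hMN := H.MN
  have hN := H.N1
  have hL := H.L1
  apply le_bd' H (c := 3) (by norm_num) (by norm_num)
  refine h3.trans (h1.trans ?_)
  have h4 : 3 * (N : ℝ) / nrm (prim (z - a)) ≤ 3 * N := by
    rw [div_le_iff₀ (by linarith)]
    nlinarith
  refine h4.trans ?_
  rw [le_div_iff₀ hM]
  calc 3 * (N : ℝ) * M ≤ 3 * N * N := by gcongr
    _ = 3 * (N : ℝ) ^ (2 * (0 + 1)) * 1 := by ring
    _ ≤ 3 * (N : ℝ) ^ (2 * (0 + 1)) * (1 + Real.log N) := by gcongr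

lemma cntIff {a z z' : Pt} (ha : a ∈ box N) :
    (((box N).filter (fun u => dirN a u < D ∧ Wit a u z z')).card : ℝ) ≤ bd N M 0 := by
  have hM := H.M0
  have hN := H.N1
  have hL := H.L1
  rcases Finset.eq_empty_or_nonempty ((box N).filter (fun u => dirN a u < D ∧ Wit a u z z'))
    with h0 | ⟨u0, hu0⟩
  · rw [h0, Finset.card_empty, Nat.cast_zero]
    exact bd_nonneg H 0
  rw [Finset.mem_filter] at hu0
  have hcol : ¬ Col a z z' := hu0.2.2.2.1
  have hns := normal_spec hcol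
  set m := prim (cross (z - a) (z' - a)) with hm
  have hP : Prim m := prim_Prim hcol
  have h8 := G8 (N := N) (D := D) (m := m) (a := a) (c := dot m a) (Prim.ne_zero hP)
    (by rw [plane, Finset.mem_filter]; exact ⟨ha, rfl⟩)
  have h2 : (box N).filter (fun u => dirN a u < D ∧ Wit a u z z') ⊆
      (plane N m (dot m a)).filter (fun b => dirN a b < D) := by
    intro u hu
    rw [Finset.mem_filter] at hu
    rw [Finset.mem_filter, plane, Finset.mem_filter]
    refine ⟨⟨hu.1, (hns u).1 ?_⟩, hu.2.1⟩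
    exact cop34 (cop23 hu.2.2.1)
  have h3 := (Finset.card_le_card h2).trans h8
  have h4 : (((box N).filter (fun u => dirN a u < D ∧ Wit a u z z')).card : ℝ) ≤
      18 * N * D := by exact_mod_cast h3
  apply le_bd' H (c := 18) (by norm_num) (by norm_num)
  refine h4.trans ?_
  rw [le_div_iff₀ hM]
  have h5 := H.MDr
  have h6 : 0 ≤ (N : ℝ) ^ (2 * (0 + 1)) := by positivity
  calc 18 * (N : ℝ) * D * M = 18 * N * (M * D) := by ring
    _ ≤ 18 * N * N := by gcongr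
    _ = 18 * (N : ℝ) ^ (2 * (0 + 1)) * 1 := by ring
    _ ≤ 18 * (N : ℝ) ^ (2 * (0 + 1)) * (1 + Real.log N) := by gcongr

lemma cntIIff {a z z' : Pt} (ha : a ∈ box N) (hz : z ∈ box N) (hz' : z' ∈ box N) :
    (((box N).filter (fun u => Wit a u z z' ∧ ¬ Sm M a u z z')).card : ℝ) ≤ bd N M 0 := by
  have hM := H.M0
  have hN := H.N1
  have hL := H.L1
  rcases Finset.eq_empty_or_nonempty ((box N).filter (fun u => Wit a u z z' ∧ ¬ Sm M a u z z'))
    with h0 | ⟨u0, hu0⟩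
  · rw [h0, Finset.card_empty, Nat.cast_zero]
    exact bd_nonneg H 0
  rw [Finset.mem_filter] at hu0
  have hcol : ¬ Col a z z' := hu0.2.1.2.1
  have h1 := card_pl_large H.M1 ha hz hz' hcol
  have h2 : (box N).filter (fun u => Wit a u z z' ∧ ¬ Sm M a u z z') ⊆
      (box N).filter (fun q => Cop a z z' q ∧ ¬ Sm M a z z' q) := by
    intro u hu
    rw [Finset.mem_filter] at hu ⊢
    exact ⟨hu.1, cop34 (cop23 hu.2.1.1), fun h => hu.2.2 (h.swap34.swap23)⟩
  have h3 : (((box N).filter (fun u => Wit a u z z' ∧ ¬ Sm M a u z z')).card : ℝ) ≤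
      (((box N).filter (fun q => Cop a z z' q ∧ ¬ Sm M a z z' q)).card : ℝ) := by
    exact_mod_cast Finset.card_le_card h2
  apply le_bd' H (c := 18) (by norm_num) (by norm_num)
  refine h3.trans (h1.trans ?_)
  apply div_le_div_of_nonneg_right _ hM.le
  calc 18 * (N : ℝ) ^ 2 = 18 * (N : ℝ) ^ (2 * (0 + 1)) * 1 := by ring
    _ ≤ 18 * (N : ℝ) ^ (2 * (0 + 1)) * (1 + Real.log N) := by gcongr

omit H in
lemma card_normals (M : ℕ) : ((normals M).card : ℝ) ≤ (2 * M + 1) ^ 3 := by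
  have h1 : (normals M).card ≤ (ball M).card := Finset.card_filter_le _ _
  rw [card_ball] at h1
  exact_mod_cast h1

omit H in
lemma card_two_planes {m m' a b : Pt} (hm : Prim m) (hm' : Prim m')
    (hne : dot m a ≠ dot m b) :
    ((box N).filter (fun u => dot m a = dot m u ∧ dot m' b = dot m' u)).card ≤ N := by
  by_cases hc : cross m m' = 0
  · have h0 : (box N).filter (fun u => dot m a = dot m u ∧ dot m' b = dot m' u) = ∅ := by
      rw [Finset.filter_eq_empty_iff]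
      rintro u _ ⟨h1, h2⟩
      apply hne
      rcases prim_unique hm hm' hc with h | h
      · rw [h] at h2
        rw [h1, h2]
      · rw [h] at h2
        have e : ∀ y, dot (-m) y = - dot m y := by
          intro y
          simp [dot]; ring
        rw [e, e] at h2
        rw [h1]
        linarith
    rw [h0]
    simp
  · obtain ⟨i, hi⟩ : ∃ i, cross m m' i ≠ 0 := by
      by_contra hcon
      push Not at hcon
      exact hc (funext hcon)
    have hN : (Finset.Ico (0 : ℤ) N).card = N := by simp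
    conv_rhs => rw [← hN]
    apply Finset.card_le_card_of_injOn (fun u => u i)
    · intro u hu
      simp only [Finset.coe_filter, Set.mem_ofPred_eq] at hu
      have := mem_box.1 hu.1 i
      simp only [Finset.coe_Ico, Set.mem_Ico]
      exact this
    · intro u hu u' hu' huu
      simp only [Finset.coe_filter, Set.mem_ofPred_eq] at hu hu'
      simp only at huu
      have h1 : dot m (u' - u) = 0 := by rw [dot_sub, ← hu.2.1, ← hu'.2.1]; ring
      have h2 : dot m' (u' - u) = 0 := by rw [dot_sub, ← hu.2.2, ← hu'.2.2]; ring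
      have h3 : (u' - u) i = 0 := by simp [huu]
      have key : ∀ j, cross m m' i * (u' - u) j = cross m m' j * (u' - u) i := by
        simp only [dot] at h1 h2
        intro j
        fin_cases i <;> fin_cases j <;>
          simp only [cross_apply0, cross_apply1, cross_apply2, Fin.zero_eta, Fin.mk_one,
            Fin.reduceFinMk, Fin.isValue]
        · linear_combination m' 2 * h1 - m 2 * h2
        · linear_combination m 1 * h2 - m' 1 * h1
        · linear_combination m 2 * h2 - m' 2 * h1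
        · linear_combination m' 0 * h1 - m 0 * h2
        · linear_combination m' 1 * h1 - m 1 * h2
        · linear_combination m 0 * h2 - m' 0 * h1
      funext j
      have h4 := key j
      rw [h3, mul_zero] at h4
      have h5 := (mul_eq_zero.1 h4).resolve_left hi
      have h6 : u' j - u j = 0 := h5
      linarith

/-- two different small planes -/
lemma cntIV (a b : Pt) :
    (((box N).filter (fun u => ∃ m ∈ normals M, ∃ m' ∈ normals M, dot m a = dot m u ∧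
      dot m' b = dot m' u ∧ dot m a ≠ dot m b)).card : ℝ) ≤ bd N M 0 := by
  have hM := H.M0
  have hM1 := H.M1r
  have hN := H.N1
  have hL := H.L1
  have h1 : (box N).filter (fun u => ∃ m ∈ normals M, ∃ m' ∈ normals M, dot m a = dot m u ∧
      dot m' b = dot m' u ∧ dot m a ≠ dot m b) ⊆
      ((normals M ×ˢ normals M).filter (fun q => dot q.1 a ≠ dot q.1 b)).biUnion
        (fun q => (box N).filter (fun u => dot q.1 a = dot q.1 u ∧ dot q.2 b = dot q.2 u)) := by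
    intro u hu
    rw [Finset.mem_filter] at hu
    obtain ⟨hu, m, hm, m', hm', h1, h2, h3⟩ := hu
    rw [Finset.mem_biUnion]
    refine ⟨(m, m'), ?_, ?_⟩
    · rw [Finset.mem_filter, Finset.mem_product]
      exact ⟨⟨hm, hm'⟩, h3⟩
    · rw [Finset.mem_filter]
      exact ⟨hu, h1, h2⟩
  have h2 := (Finset.card_le_card h1).trans Finset.card_biUnion_le
  have h3 : ∑ q ∈ (normals M ×ˢ normals M).filter (fun q => dot q.1 a ≠ dot q.1 b),
      ((box N).filter (fun u => dot q.1 a = dot q.1 u ∧ dot q.2 b = dot q.2 u)).card ≤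
      ((normals M ×ˢ normals M).filter (fun q => dot q.1 a ≠ dot q.1 b)).card * N := by
    rw [← smul_eq_mul, ← Finset.sum_const]
    apply Finset.sum_le_sum
    intro q hq
    rw [Finset.mem_filter, Finset.mem_product] at hq
    exact card_two_planes (mem_normals.1 hq.1.1).2 (mem_normals.1 hq.1.2).2 hq.2
  have h4 : ((normals M ×ˢ normals M).filter (fun q => dot q.1 a ≠ dot q.1 b)).card ≤
      (normals M).card * (normals M).card := by
    rw [← Finset.card_product]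
    exact Finset.card_filter_le _ _
  have h5 : (((box N).filter (fun u => ∃ m ∈ normals M, ∃ m' ∈ normals M, dot m a = dot m u ∧
      dot m' b = dot m' u ∧ dot m a ≠ dot m b)).card : ℝ) ≤
      (normals M).card * (normals M).card * N := by
    exact_mod_cast h2.trans (h3.trans (Nat.mul_le_mul_right N h4))
  have h6 := card_normals M
  have h7 : ((normals M).card : ℝ) ≤ 27 * (M : ℝ) ^ 3 := by
    refine h6.trans ?_
    calc (2 * (M : ℝ) + 1) ^ 3 ≤ (3 * M) ^ 3 := by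
          apply pow_le_pow_left₀ (by positivity)
          linarith
      _ = 27 * (M : ℝ) ^ 3 := by ring
  have h8 : (M : ℝ) ^ 7 ≤ N := by exact_mod_cast H.M7
  apply le_bd' H (c := 729) (by norm_num) (by norm_num)
  refine h5.trans ?_
  rw [le_div_iff₀ hM]
  calc ((normals M).card : ℝ) * (normals M).card * N * M
      ≤ (27 * (M : ℝ) ^ 3) * (27 * (M : ℝ) ^ 3) * N * M := by gcongr
    _ = 729 * (N * (M : ℝ) ^ 7) := by ring
    _ ≤ 729 * (N * N) := by gcongr
    _ = 729 * (N : ℝ) ^ (2 * (0 + 1)) * 1 := by ring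
    _ ≤ 729 * (N : ℝ) ^ (2 * (0 + 1)) * (1 + Real.log N) := by gcongr

/-! #### k = 1 -/

lemma cnt1 {a : Pt} (ha : a ∈ box N) :
    (((box N ×ˢ box N).filter (fun p => Col a p.1 p.2)).card : ℝ) ≤ bd N M 1 := by
  have hM := H.M0
  have hN := H.N1
  have hL := H.L1
  have hMN := H.MN
  apply le_bd' H (c := 79) (by norm_num) (by norm_num)
  refine (G9 ha).trans ?_
  rw [le_div_iff₀ hM]
  calc 79 * (N : ℝ) ^ 3 * M ≤ 79 * (N : ℝ) ^ 3 * N := by gcongr
    _ = 79 * (N : ℝ) ^ (2 * (1 + 1)) * 1 := by ring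
    _ ≤ 79 * (N : ℝ) ^ (2 * (1 + 1)) * (1 + Real.log N) := by gcongr

/-- large pairs for a far point -/
lemma cntP2L {a z : Pt} (ha : a ∈ box N) (hz : z ∈ box N) (h : D ≤ dirN a z) :
    (((box N ×ˢ box N).filter (fun p => Cop a z p.1 p.2 ∧ ¬ Sm M a z p.1 p.2)).card : ℝ) ≤
      70002 * (N : ℝ) ^ 4 / (M : ℝ) ^ 2 := by
  have hM := H.M0
  have hM1 := H.M1r
  have hN := H.N1
  have hL := H.L1
  have hD0 : 0 < D := by have := H.D2; omega
  have hne : z ≠ a := by
    rintro rfl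
    have : dirN z z = 0 := by simp [dirN, nrm]
    omega
  have h1 := P2L' (M := M) H.M1 ha hz hne
  refine le_trans ?_ (h1.trans ?_)
  · apply Nat.cast_le.mpr
    apply Finset.card_le_card
    intro p hp
    simp only [Finset.mem_filter] at hp ⊢
    exact hp
  have hDr : (0 : ℝ) < D := by exact_mod_cast hD0
  have hdr : (D : ℝ) ≤ dirN a z := by exact_mod_cast h
  have h2 : (1 + Real.log N) / (dirN a z : ℝ) ≤ 1 / (M : ℝ) ^ 2 := by
    rw [div_le_div_iff₀ (by linarith) (by positivity)]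
    have := H.LD
    nlinarith
  calc 35001 * (N : ℝ) ^ 4 * ((1 + Real.log N) / (dirN a z : ℝ) + 1 / (M : ℝ) ^ 2)
      ≤ 35001 * (N : ℝ) ^ 4 * (1 / (M : ℝ) ^ 2 + 1 / (M : ℝ) ^ 2) := by gcongr
    _ = 70002 * (N : ℝ) ^ 4 / (M : ℝ) ^ 2 := by ring

lemma cntIInf {a z : Pt} (ha : a ∈ box N) (hz : z ∈ box N) (h : D ≤ dirN a z) :
    (((box N ×ˢ box N).filter (fun p => Wit a p.1 z p.2 ∧ ¬ Sm M a p.1 z p.2)).card : ℝ) ≤
      bd N M 1 := by
  have hM := H.M0
  have hM1 := H.M1r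
  have hN := H.N1
  have hL := H.L1
  have h1 := cntP2L H ha hz h
  have h2 : (box N ×ˢ box N).filter (fun p => Wit a p.1 z p.2 ∧ ¬ Sm M a p.1 z p.2) ⊆
      (box N ×ˢ box N).filter (fun p => Cop a z p.1 p.2 ∧ ¬ Sm M a z p.1 p.2) := by
    intro p hp
    rw [Finset.mem_filter] at hp ⊢
    exact ⟨hp.1, cop23 hp.2.1.1, fun h => hp.2.2 h.swap23⟩
  have h3 : (((box N ×ˢ box N).filter (fun p => Wit a p.1 z p.2 ∧ ¬ Sm M a p.1 z p.2)).card : ℝ) ≤
      (((box N ×ˢ box N).filter (fun p => Cop a z p.1 p.2 ∧ ¬ Sm M a z p.1 p.2)).card : ℝ) := by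
    exact_mod_cast Finset.card_le_card h2
  apply le_bd' H (c := 70002) (by norm_num) (by norm_num)
  refine h3.trans (h1.trans ?_)
  rw [div_le_div_iff₀ (by positivity) hM]
  calc 70002 * (N : ℝ) ^ 4 * M = 70002 * (N : ℝ) ^ (2 * (1 + 1)) * 1 * (M * 1) := by ring
    _ ≤ 70002 * (N : ℝ) ^ (2 * (1 + 1)) * (1 + Real.log N) * (M * M) := by gcongr
    _ = 70002 * (N : ℝ) ^ (2 * (1 + 1)) * (1 + Real.log N) * (M : ℝ) ^ 2 := by ring

lemma cntInf {a z : Pt} (ha : a ∈ box N) (h : D ≤ dirN a z) :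
    (((box N ×ˢ box N).filter (fun p => dirN a p.1 < D ∧ Wit a p.1 z p.2 ∧
      Sm M a p.1 z p.2)).card : ℝ) ≤ bd N M 1 := by
  have hM := H.M0
  have hM1 := H.M1r
  have hN := H.N1
  have hL := H.L1
  rcases Finset.eq_empty_or_nonempty ((box N ×ˢ box N).filter (fun p => dirN a p.1 < D ∧
      Wit a p.1 z p.2 ∧ Sm M a p.1 z p.2))
    with h0 | ⟨q, hq⟩
  · rw [h0, Finset.card_empty, Nat.cast_zero]
    exact bd_nonneg H 1
  rw [Finset.mem_filter] at hq
  obtain ⟨_, _, _, m, hm, _, hmz, _⟩ := hq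
  rw [mem_normals] at hm
  have hD2 := H.D2
  have h2 : (box N ×ˢ box N).filter (fun p => dirN a p.1 < D ∧ Wit a p.1 z p.2 ∧
      Sm M a p.1 z p.2) ⊆
      ((plane N m (dot m a)).filter (fun b => dirN a b < D)) ×ˢ (plane N m (dot m a)) := by
    rintro ⟨u, p⟩ hp
    rw [Finset.mem_filter, Finset.mem_product] at hp
    obtain ⟨⟨hu, hp⟩, hd, _, m', hm', h1, h2, h3⟩ := hp
    simp only at hu hp hd h1 h2 h3
    rw [mem_normals] at hm'
    have h6 := G6 (M := M) (by omega) hm.2 hm'.2 hm.1 hm'.1 hmz h2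
    have e : ∀ y, dot (-m) y = - dot m y := by
      intro y
      simp [dot]; ring
    have h7 : dot m a = dot m u ∧ dot m a = dot m p := by
      rcases h6 with h6 | h6
      · rw [h6] at h1 h3
        exact ⟨h1, h3⟩
      · rw [h6, e, e] at h1 h3
        exact ⟨by linarith, by linarith⟩
    simp only [Finset.mem_product, Finset.mem_filter, plane]
    exact ⟨⟨⟨hu, h7.1.symm⟩, hd⟩, hp, h7.2.symm⟩
  have h8 := G8 (N := N) (D := D) (m := m) (a := a) (c := dot m a) (Prim.ne_zero hm.2)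
    (by rw [plane, Finset.mem_filter]; exact ⟨ha, rfl⟩)
  have hMN : M ≤ N := by exact_mod_cast H.MN
  have h9 := card_small_plane ha hm.2 (hm.1.trans hMN)
  have h9' : ((plane N m (dot m a)).card : ℝ) ≤ 9 * (N : ℝ) ^ 2 := by
    refine h9.trans ?_
    have : (1 : ℝ) ≤ nrm m := by exact_mod_cast Prim.nrm_pos hm.2
    rw [div_le_iff₀ (by linarith)]
    nlinarith [sq_nonneg (N : ℝ)]
  have h10 : (((box N ×ˢ box N).filter (fun p => dirN a p.1 < D ∧ Wit a p.1 z p.2 ∧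
      Sm M a p.1 z p.2)).card : ℝ) ≤ (18 * N * D) * (9 * (N : ℝ) ^ 2) := by
    have h11 := Finset.card_le_card h2
    rw [Finset.card_product] at h11
    calc (((box N ×ˢ box N).filter (fun p => dirN a p.1 < D ∧ Wit a p.1 z p.2 ∧
      Sm M a p.1 z p.2)).card : ℝ) ≤ (((plane N m (dot m a)).filter (fun b => dirN a b < D)).card : ℝ)
          * ((plane N m (dot m a)).card : ℝ) := by exact_mod_cast h11
      _ ≤ _ := by
        apply mul_le_mul _ h9' (by positivity) (by positivity)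
        exact_mod_cast h8
  apply le_bd' H (c := 162) (by norm_num) (by norm_num)
  refine h10.trans ?_
  rw [le_div_iff₀ hM]
  have hMD := H.MDr
  calc 18 * (N : ℝ) * D * (9 * (N : ℝ) ^ 2) * M = 162 * (N : ℝ) ^ 3 * (M * D) := by ring
    _ ≤ 162 * (N : ℝ) ^ 3 * N := by gcongr
    _ = 162 * (N : ℝ) ^ (2 * (1 + 1)) * 1 := by ring
    _ ≤ 162 * (N : ℝ) ^ (2 * (1 + 1)) * (1 + Real.log N) := by gcongr

/-! #### k = 2 -/

lemma cntInn {a : Pt} (ha : a ∈ box N) :
    (((box N ×ˢ box N ×ˢ box N).filter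
      (fun p => p.1 ≠ a ∧ dirN a p.1 < D ∧ Cop a p.1 p.2.1 p.2.2)).card : ℝ) ≤ bd N M 2 := by
  have hM := H.M0
  have hN := H.N1
  have hL := H.L1
  have hMD := H.MDr
  have h1 := G7a' (N := N) (D := D) ha
  apply le_bd' H (c := 17290494) (by norm_num) (by norm_num)
  refine le_trans ?_ (h1.trans ?_)
  · apply Nat.cast_le.mpr
    apply Finset.card_le_card
    intro p hp
    simp only [Finset.mem_filter] at hp ⊢
    exact hp
  rw [le_div_iff₀ hM]
  calc 17290494 * (N : ℝ) ^ 5 * D * (1 + Real.log N) * M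
      = 17290494 * (N : ℝ) ^ 5 * (M * D) * (1 + Real.log N) := by ring
    _ ≤ 17290494 * (N : ℝ) ^ 5 * N * (1 + Real.log N) := by gcongr
    _ = 17290494 * (N : ℝ) ^ (2 * (2 + 1)) * (1 + Real.log N) := by ring

omit H in
lemma cop_of_dot {m a b p q : Pt} (hm : m ≠ 0) (h1 : dot m a = dot m b) (h2 : dot m a = dot m p)
    (h3 : dot m a = dot m q) : Cop a b p q := by
  have hX : dot m (b - a) = 0 := by rw [dot_sub, h1]; ring
  have hY : dot m (p - a) = 0 := by rw [dot_sub, h2]; ring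
  have hZ : dot m (q - a) = 0 := by rw [dot_sub, h3]; ring
  obtain ⟨i, hi⟩ : ∃ i, m i ≠ 0 := by
    by_contra hcon
    push Not at hcon
    exact hm (funext hcon)
  have key : ∀ i, m i * dot (b - a) (cross (p - a) (q - a)) = 0 := by
    simp only [dot] at hX hY hZ
    intro i
    fin_cases i
    · simp only [dot, cross_apply0, cross_apply1, cross_apply2, Fin.zero_eta, Fin.isValue]
      linear_combination ((p - a) 1 * (q - a) 2 - (p - a) 2 * (q - a) 1) * hX -
        ((b - a) 1 * (q - a) 2 - (b - a) 2 * (q - a) 1) * hY +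
        ((b - a) 1 * (p - a) 2 - (b - a) 2 * (p - a) 1) * hZ
    · simp only [dot, cross_apply0, cross_apply1, cross_apply2, Fin.mk_one, Fin.isValue]
      linear_combination ((p - a) 2 * (q - a) 0 - (p - a) 0 * (q - a) 2) * hX -
        ((b - a) 2 * (q - a) 0 - (b - a) 0 * (q - a) 2) * hY +
        ((b - a) 2 * (p - a) 0 - (b - a) 0 * (p - a) 2) * hZ
    · simp only [dot, cross_apply0, cross_apply1, cross_apply2, Fin.reduceFinMk, Fin.isValue]
      linear_combination ((p - a) 0 * (q - a) 1 - (p - a) 1 * (q - a) 0) * hX -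
        ((b - a) 0 * (q - a) 1 - (b - a) 1 * (q - a) 0) * hY +
        ((b - a) 0 * (p - a) 1 - (b - a) 1 * (p - a) 0) * hZ
  exact (mul_eq_zero.1 (key i)).resolve_left hi

lemma cntsame {a b : Pt} (ha : a ∈ box N) (hb : b ∈ box N) (h : D ≤ dirN a b) :
    (((box N ×ˢ box N ×ˢ box N).filter (fun x => Wit a x.1 x.2.1 x.2.2 ∧
      ¬ Sm M a x.1 x.2.1 x.2.2 ∧ Wit b x.1 x.2.1 x.2.2)).card : ℝ) ≤ bd N M 2 := by
  have hM := H.M0
  have hM1 := H.M1r
  have hN := H.N1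
  have hL := H.L1
  have h1 := card_fib ((box N ×ˢ box N ×ˢ box N).filter (fun x => Wit a x.1 x.2.1 x.2.2 ∧
      ¬ Sm M a x.1 x.2.1 x.2.2 ∧ Wit b x.1 x.2.1 x.2.2))
    ((box N ×ˢ box N).filter (fun p => (Cop a b p.1 p.2 ∧ ¬ Sm M a b p.1 p.2) ∧
      ¬ Col a p.1 p.2))
    (fun x => x.2) (fun x => x.1)
    (fun p => (box N).filter (fun u => Cop a p.1 p.2 u ∧ ¬ Sm M a p.1 p.2 u))
    (n := 18 * (N : ℝ) ^ 2 / M) ?_ ?_ ?_ ?_
  · have h2 : (((box N ×ˢ box N).filter (fun p => (Cop a b p.1 p.2 ∧ ¬ Sm M a b p.1 p.2) ∧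
      ¬ Col a p.1 p.2)).card : ℝ) ≤ 70002 * (N : ℝ) ^ 4 / (M : ℝ) ^ 2 := by
      refine le_trans ?_ (cntP2L H ha hb h)
      apply Nat.cast_le.mpr
      apply Finset.card_le_card
      intro p hp
      simp only [Finset.mem_filter] at hp ⊢
      exact ⟨hp.1, hp.2.1⟩
    apply le_bd' H (c := 70002 * 18) (by norm_num) (by norm_num)
    refine h1.trans ?_
    calc _ ≤ (70002 * (N : ℝ) ^ 4 / (M : ℝ) ^ 2) * (18 * (N : ℝ) ^ 2 / M) := by gcongr
      _ = 70002 * 18 * (N : ℝ) ^ 6 / (M : ℝ) ^ 2 / M := by ring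
      _ ≤ 70002 * 18 * (N : ℝ) ^ 6 / 1 / M := by gcongr; nlinarith
      _ = 70002 * 18 * (N : ℝ) ^ (2 * (2 + 1)) * 1 / M := by ring
      _ ≤ _ := by gcongr
  · rintro ⟨u, p, q⟩ hx
    simp only [Finset.mem_filter, Finset.mem_product] at hx ⊢
    obtain ⟨⟨hu, hp, hq⟩, hw, hS, hw'⟩ := hx
    have hns := normal_spec hw.2.2.1
    have hne : prim (cross (p - u) (q - u)) ≠ 0 := Prim.ne_zero (prim_Prim hw.2.2.1)
    have e1 := (hns a).1 (cop34 (cop23 (cop12 hw.1)))
    have e2 := (hns b).1 (cop34 (cop23 (cop12 hw'.1)))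
    have e3 := (hns p).1 (by unfold Cop; simp [cross, dot]; ring)
    have e4 := (hns q).1 (by unfold Cop; simp [cross, dot]; ring)
    refine ⟨⟨hp, hq⟩, ⟨cop_of_dot hne (by rw [e1, e2]) (by rw [e1, e3]) (by rw [e1, e4]), ?_⟩,
      hw.2.1⟩
    rintro ⟨m, hm, f1, f2, f3⟩
    apply hS
    refine ⟨m, hm, ?_, f2, f3⟩
    exact plane_mem f2 f3 hw.2.1 (cop34 (cop23 hw.1))
  · rintro ⟨u, p, q⟩ hx
    simp only [Finset.mem_filter, Finset.mem_product] at hx ⊢
    obtain ⟨⟨hu, hp, hq⟩, hw, hS, hw'⟩ := hx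
    exact ⟨hu, cop34 (cop23 hw.1), fun h => hS h.swap34.swap23⟩
  · rintro ⟨u, p, q⟩ ⟨u', p', q'⟩ h1 h2
    simp only at h1 h2
    rw [h1, h2]
  · rintro ⟨p, q⟩ hx
    simp only [Finset.mem_filter, Finset.mem_product] at hx
    exact card_pl_large H.M1 ha hx.1.1 hx.1.2 hx.2.2

lemma cntP2 {b z : Pt} (hb : b ∈ box N) (hz : z ∈ box N) (hne : z ≠ b) :
    (((box N ×ˢ box N).filter (fun p => Cop b z p.1 p.2)).card : ℝ) ≤
      70002 * (N : ℝ) ^ 4 * (1 + Real.log N) := by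
  have hN := H.N1
  have hL := H.L1
  rw [card_cop_eq hne]
  have he := prim_sub_mem_normals hb hz hne
  refine (p2Bound hb _ he).trans ?_
  have h1 : (1 : ℝ) ≤ nrm (prim (z - b)) := by
    exact_mod_cast Prim.nrm_pos (mem_normals.1 he).2
  have h2 : (1 : ℝ) ≤ mu (prim (z - b)) := by
    obtain ⟨m, hm1, _, hm3, _⟩ := mu_spec (Prim.ne_zero (mem_normals.1 he).2)
    have := Prim.nrm_pos hm1
    rw [← hm3]
    exact_mod_cast this
  have h3 : (1 + Real.log N) / (nrm (prim (z - b)) : ℝ) ≤ 1 + Real.log N := by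
    rw [div_le_iff₀ (by linarith)]
    nlinarith
  have h4 : 1 / (mu (prim (z - b)) : ℝ) ^ 2 ≤ 1 + Real.log N := by
    rw [div_le_iff₀ (by positivity)]
    nlinarith
  calc 35001 * (N : ℝ) ^ 4 * ((1 + Real.log N) / (nrm (prim (z - b)) : ℝ) +
        1 / (mu (prim (z - b)) : ℝ) ^ 2)
      ≤ 35001 * (N : ℝ) ^ 4 * ((1 + Real.log N) + (1 + Real.log N)) := by gcongr
    _ = _ := by ring

lemma cntnfs {a b z : Pt} (ha : a ∈ box N) (hb : b ∈ box N) (hz : z ∈ box N) (hne : z ≠ b) :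
    (((box N ×ˢ box N ×ˢ box N).filter (fun x => Wit a x.1 x.2.1 x.2.2 ∧
      ¬ Sm M a x.1 x.2.1 x.2.2 ∧ Cop b x.1 z x.2.1)).card : ℝ) ≤ bd N M 2 := by
  have hM := H.M0
  have hM1 := H.M1r
  have hN := H.N1
  have hL := H.L1
  have h1 := card_fib ((box N ×ˢ box N ×ˢ box N).filter (fun x => Wit a x.1 x.2.1 x.2.2 ∧
      ¬ Sm M a x.1 x.2.1 x.2.2 ∧ Cop b x.1 z x.2.1))
    ((box N ×ˢ box N).filter (fun p => Cop b z p.1 p.2 ∧ ¬ Col a p.1 p.2))
    (fun x => (x.1, x.2.1)) (fun x => x.2.2)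
    (fun p => (box N).filter (fun u => Cop a p.1 p.2 u ∧ ¬ Sm M a p.1 p.2 u))
    (n := 18 * (N : ℝ) ^ 2 / M) ?_ ?_ ?_ ?_
  · have h2 : (((box N ×ˢ box N).filter (fun p => Cop b z p.1 p.2 ∧
      ¬ Col a p.1 p.2)).card : ℝ) ≤ 70002 * (N : ℝ) ^ 4 * (1 + Real.log N) := by
      refine le_trans ?_ (cntP2 H hb hz hne)
      apply Nat.cast_le.mpr
      apply Finset.card_le_card
      intro p hp
      simp only [Finset.mem_filter] at hp ⊢
      exact ⟨hp.1, hp.2.1⟩
    apply le_bd' H (c := 70002 * 18) (by norm_num) (by norm_num)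
    refine h1.trans ?_
    calc _ ≤ (70002 * (N : ℝ) ^ 4 * (1 + Real.log N)) * (18 * (N : ℝ) ^ 2 / M) := by gcongr
      _ = 70002 * 18 * (N : ℝ) ^ (2 * (2 + 1)) * (1 + Real.log N) / M := by ring
  · rintro ⟨u, p, q⟩ hx
    simp only [Finset.mem_filter, Finset.mem_product] at hx ⊢
    obtain ⟨⟨hu, hp, hq⟩, hw, hS, hc⟩ := hx
    exact ⟨⟨hu, hp⟩, cop23 hc, hw.2.2.2.1⟩
  · rintro ⟨u, p, q⟩ hx
    simp only [Finset.mem_filter, Finset.mem_product] at hx ⊢
    obtain ⟨⟨hu, hp, hq⟩, hw, hS, hc⟩ := hx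
    exact ⟨hq, hw.1, hS⟩
  · rintro ⟨u, p, q⟩ ⟨u', p', q'⟩ h1 h2
    simp only [Prod.mk.injEq] at h1 h2
    rw [h1.1, h1.2, h2]
  · rintro ⟨p, q⟩ hx
    simp only [Finset.mem_filter, Finset.mem_product] at hx
    exact card_pl_large H.M1 ha hx.1.1 hx.1.2 hx.2.2

lemma cntnnff {a b z z' : Pt} (ha : a ∈ box N) (hb : b ∈ box N) (hz : z ∈ box N)
    (hz' : z' ∈ box N) :
    (((box N ×ˢ box N ×ˢ box N).filter (fun x => D ≤ dirN a x.1 ∧ Wit a x.1 x.2.1 x.2.2 ∧
      ¬ Sm M a x.1 x.2.1 x.2.2 ∧ Wit b x.1 z z')).card : ℝ) ≤ bd N M 2 := by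
  have hM := H.M0
  have hM1 := H.M1r
  have hN := H.N1
  have hL := H.L1
  by_cases hcol : Col b z z'
  · have h0 : (box N ×ˢ box N ×ˢ box N).filter (fun x => D ≤ dirN a x.1 ∧ Wit a x.1 x.2.1 x.2.2 ∧
      ¬ Sm M a x.1 x.2.1 x.2.2 ∧ Wit b x.1 z z') = ∅ := by
      rw [Finset.filter_eq_empty_iff]
      rintro x _ ⟨_, _, _, h⟩
      exact h.2.1 hcol
    rw [h0, Finset.card_empty, Nat.cast_zero]
    exact bd_nonneg H 2
  have h1 := card_fib ((box N ×ˢ box N ×ˢ box N).filter (fun x => D ≤ dirN a x.1 ∧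
      Wit a x.1 x.2.1 x.2.2 ∧ ¬ Sm M a x.1 x.2.1 x.2.2 ∧ Wit b x.1 z z'))
    ((box N).filter (fun u => Cop b z z' u ∧ D ≤ dirN a u))
    (fun x => x.1) (fun x => x.2)
    (fun u => (box N ×ˢ box N).filter (fun p => Cop a u p.1 p.2 ∧ ¬ Sm M a u p.1 p.2))
    (n := 70002 * (N : ℝ) ^ 4 / (M : ℝ) ^ 2) ?_ ?_ ?_ ?_
  · have h2 : (((box N).filter (fun u => Cop b z z' u ∧ D ≤ dirN a u)).card : ℝ) ≤
        18 * (N : ℝ) ^ 2 := by
      refine le_trans ?_ (card_pl hb hz hz' hcol)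
      apply Nat.cast_le.mpr
      apply Finset.card_le_card
      intro p hp
      simp only [Finset.mem_filter] at hp ⊢
      exact ⟨hp.1, hp.2.1⟩
    apply le_bd' H (c := 70002 * 18) (by norm_num) (by norm_num)
    refine h1.trans ?_
    calc _ ≤ (18 * (N : ℝ) ^ 2) * (70002 * (N : ℝ) ^ 4 / (M : ℝ) ^ 2) := by gcongr
      _ = 70002 * 18 * (N : ℝ) ^ 6 / (M * M) := by ring
      _ ≤ 70002 * 18 * (N : ℝ) ^ 6 / (1 * M) := by gcongr
      _ = 70002 * 18 * (N : ℝ) ^ (2 * (2 + 1)) * 1 / M := by ring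
      _ ≤ _ := by gcongr
  · rintro ⟨u, p, q⟩ hx
    simp only [Finset.mem_filter, Finset.mem_product] at hx ⊢
    obtain ⟨⟨hu, hp, hq⟩, hd, hw, hS, hc⟩ := hx
    exact ⟨hu, cop34 (cop23 hc.1), hd⟩
  · rintro ⟨u, p, q⟩ hx
    simp only [Finset.mem_filter, Finset.mem_product] at hx ⊢
    obtain ⟨⟨hu, hp, hq⟩, hd, hw, hS, hc⟩ := hx
    exact ⟨⟨hp, hq⟩, hw.1, hS⟩
  · rintro ⟨u, p, q⟩ ⟨u', p', q'⟩ h1 h2
    simp only [Prod.mk.injEq] at h1 h2
    rw [h1, h2.1, h2.2]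
  · rintro u hx
    simp only [Finset.mem_filter] at hx
    exact cntP2L H ha hx.1 hx.2.2

/-! #### k = 3 -/

lemma cntshare {a b : Pt} (ha : a ∈ box N) (hb : b ∈ box N) :
    (((box N ×ˢ box N ×ˢ box N ×ˢ box N).filter (fun x => Wit a x.1 x.2.1 x.2.2.1 ∧
      ¬ Sm M a x.1 x.2.1 x.2.2.1 ∧ Cop b x.1 x.2.1 x.2.2.2)).card : ℝ) ≤ bd N M 3 := by
  have hM := H.M0
  have hM1 := H.M1r
  have hN := H.N1
  have hL := H.L1
  have h1 := card_fib ((box N ×ˢ box N ×ˢ box N ×ˢ box N).filter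
      (fun x => Wit a x.1 x.2.1 x.2.2.1 ∧
      ¬ Sm M a x.1 x.2.1 x.2.2.1 ∧ Cop b x.1 x.2.1 x.2.2.2))
    ((box N ×ˢ box N ×ˢ box N).filter (fun p => Cop b p.1 p.2.1 p.2.2 ∧ ¬ Col a p.1 p.2.1))
    (fun x => (x.1, x.2.1, x.2.2.2)) (fun x => x.2.2.1)
    (fun p => (box N).filter (fun q => Cop a p.1 p.2.1 q ∧ ¬ Sm M a p.1 p.2.1 q))
    (n := 18 * (N : ℝ) ^ 2 / M) ?_ ?_ ?_ ?_
  · have h2 : (((box N ×ˢ box N ×ˢ box N).filter (fun p => Cop b p.1 p.2.1 p.2.2 ∧
        ¬ Col a p.1 p.2.1)).card : ℝ) ≤ 34580989 * (N : ℝ) ^ 6 * (1 + Real.log N) := by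
      refine le_trans ?_ (G4 hb)
      apply Nat.cast_le.mpr
      apply Finset.card_le_card
      intro p hp
      simp only [Finset.mem_filter] at hp ⊢
      exact ⟨hp.1, hp.2.1⟩
    apply le_bd' H (c := 34580989 * 18) (by norm_num) (by norm_num)
    refine h1.trans ?_
    calc _ ≤ (34580989 * (N : ℝ) ^ 6 * (1 + Real.log N)) * (18 * (N : ℝ) ^ 2 / M) := by gcongr
      _ = 34580989 * 18 * (N : ℝ) ^ (2 * (3 + 1)) * (1 + Real.log N) / M := by ring
  · rintro ⟨u, p, q, r⟩ hx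
    simp only [Finset.mem_filter, Finset.mem_product] at hx ⊢
    obtain ⟨⟨hu, hp, hq, hr⟩, hw, hS, hc⟩ := hx
    exact ⟨⟨hu, hp, hr⟩, hc, hw.2.2.2.1⟩
  · rintro ⟨u, p, q, r⟩ hx
    simp only [Finset.mem_filter, Finset.mem_product] at hx ⊢
    obtain ⟨⟨hu, hp, hq, hr⟩, hw, hS, hc⟩ := hx
    exact ⟨hq, hw.1, hS⟩
  · rintro ⟨u, p, q, r⟩ ⟨u', p', q', r'⟩ h1 h2
    simp only [Prod.mk.injEq] at h1 h2
    rw [h1.1, h1.2.1, h1.2.2, h2]
  · rintro ⟨u, p, r⟩ hx
    simp only [Finset.mem_filter, Finset.mem_product] at hx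
    exact card_pl_large H.M1 ha hx.1.1 hx.1.2.1 hx.2.2

lemma cntnfd {a b z : Pt} (ha : a ∈ box N) (hb : b ∈ box N) (hz : z ∈ box N) (hne : z ≠ b) :
    (((box N ×ˢ box N ×ˢ box N ×ˢ box N).filter (fun x => D ≤ dirN a x.1 ∧
      Wit a x.1 x.2.1 x.2.2.1 ∧ ¬ Sm M a x.1 x.2.1 x.2.2.1 ∧
      Cop b x.1 z x.2.2.2)).card : ℝ) ≤ bd N M 3 := by
  have hM := H.M0
  have hM1 := H.M1r
  have hN := H.N1
  have hL := H.L1
  have h1 := card_fib ((box N ×ˢ box N ×ˢ box N ×ˢ box N).filter (fun x => D ≤ dirN a x.1 ∧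
      Wit a x.1 x.2.1 x.2.2.1 ∧ ¬ Sm M a x.1 x.2.1 x.2.2.1 ∧ Cop b x.1 z x.2.2.2))
    ((box N ×ˢ box N).filter (fun p => Cop b z p.1 p.2 ∧ D ≤ dirN a p.1))
    (fun x => (x.1, x.2.2.2)) (fun x => (x.2.1, x.2.2.1))
    (fun p => (box N ×ˢ box N).filter (fun q => Cop a p.1 q.1 q.2 ∧ ¬ Sm M a p.1 q.1 q.2))
    (n := 70002 * (N : ℝ) ^ 4 / (M : ℝ) ^ 2) ?_ ?_ ?_ ?_
  · have h2 : (((box N ×ˢ box N).filter (fun p => Cop b z p.1 p.2 ∧
        D ≤ dirN a p.1)).card : ℝ) ≤ 70002 * (N : ℝ) ^ 4 * (1 + Real.log N) := by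
      refine le_trans ?_ (cntP2 H hb hz hne)
      apply Nat.cast_le.mpr
      apply Finset.card_le_card
      intro p hp
      simp only [Finset.mem_filter] at hp ⊢
      exact ⟨hp.1, hp.2.1⟩
    apply le_bd' H (c := 70002 * 70002) (by norm_num) (by norm_num)
    refine h1.trans ?_
    calc _ ≤ (70002 * (N : ℝ) ^ 4 * (1 + Real.log N)) * (70002 * (N : ℝ) ^ 4 / (M : ℝ) ^ 2) := by
          gcongr
      _ = 70002 * 70002 * (N : ℝ) ^ 8 * (1 + Real.log N) / (M * M) := by ring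
      _ ≤ 70002 * 70002 * (N : ℝ) ^ 8 * (1 + Real.log N) / (1 * M) := by gcongr
      _ = 70002 * 70002 * (N : ℝ) ^ (2 * (3 + 1)) * (1 + Real.log N) / M := by ring
  · rintro ⟨u, p, q, r⟩ hx
    simp only [Finset.mem_filter, Finset.mem_product] at hx ⊢
    obtain ⟨⟨hu, hp, hq, hr⟩, hd, hw, hS, hc⟩ := hx
    exact ⟨⟨hu, hr⟩, cop23 hc, hd⟩
  · rintro ⟨u, p, q, r⟩ hx
    simp only [Finset.mem_filter, Finset.mem_product] at hx ⊢
    obtain ⟨⟨hu, hp, hq, hr⟩, hd, hw, hS, hc⟩ := hx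
    exact ⟨⟨hp, hq⟩, hw.1, hS⟩
  · rintro ⟨u, p, q, r⟩ ⟨u', p', q', r'⟩ h1 h2
    simp only [Prod.mk.injEq] at h1 h2
    rw [h1.1, h1.2, h2.1, h2.2]
  · rintro ⟨u, r⟩ hx
    simp only [Finset.mem_filter, Finset.mem_product] at hx
    exact cntP2L H ha hx.1.1 hx.2.2

/-! #### k = 4 -/

lemma cntdisj {a b : Pt} (ha : a ∈ box N) (hb : b ∈ box N) :
    (((box N ×ˢ box N ×ˢ box N ×ˢ box N ×ˢ box N).filter (fun x => D ≤ dirN a x.1 ∧
      Wit a x.1 x.2.1 x.2.2.1 ∧ ¬ Sm M a x.1 x.2.1 x.2.2.1 ∧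
      Cop b x.1 x.2.2.2.1 x.2.2.2.2)).card : ℝ) ≤ bd N M 4 := by
  have hM := H.M0
  have hM1 := H.M1r
  have hN := H.N1
  have hL := H.L1
  have h1 := card_fib ((box N ×ˢ box N ×ˢ box N ×ˢ box N ×ˢ box N).filter
      (fun x => D ≤ dirN a x.1 ∧
      Wit a x.1 x.2.1 x.2.2.1 ∧ ¬ Sm M a x.1 x.2.1 x.2.2.1 ∧ Cop b x.1 x.2.2.2.1 x.2.2.2.2))
    ((box N ×ˢ box N ×ˢ box N).filter (fun p => Cop b p.1 p.2.1 p.2.2 ∧ D ≤ dirN a p.1))
    (fun x => (x.1, x.2.2.2.1, x.2.2.2.2)) (fun x => (x.2.1, x.2.2.1))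
    (fun p => (box N ×ˢ box N).filter (fun q => Cop a p.1 q.1 q.2 ∧ ¬ Sm M a p.1 q.1 q.2))
    (n := 70002 * (N : ℝ) ^ 4 / (M : ℝ) ^ 2) ?_ ?_ ?_ ?_
  · have h2 : (((box N ×ˢ box N ×ˢ box N).filter (fun p => Cop b p.1 p.2.1 p.2.2 ∧
        D ≤ dirN a p.1)).card : ℝ) ≤ 34580989 * (N : ℝ) ^ 6 * (1 + Real.log N) := by
      refine le_trans ?_ (G4 hb)
      apply Nat.cast_le.mpr
      apply Finset.card_le_card
      intro p hp
      simp only [Finset.mem_filter] at hp ⊢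
      exact ⟨hp.1, hp.2.1⟩
    apply le_bd' H (c := 34580989 * 70002) (by norm_num) (by norm_num)
    refine h1.trans ?_
    calc _ ≤ (34580989 * (N : ℝ) ^ 6 * (1 + Real.log N)) *
          (70002 * (N : ℝ) ^ 4 / (M : ℝ) ^ 2) := by
          gcongr
      _ = 34580989 * 70002 * (N : ℝ) ^ 10 * (1 + Real.log N) / (M * M) := by ring
      _ ≤ 34580989 * 70002 * (N : ℝ) ^ 10 * (1 + Real.log N) / (1 * M) := by gcongr
      _ = 34580989 * 70002 * (N : ℝ) ^ (2 * (4 + 1)) * (1 + Real.log N) / M := by ring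
  · rintro ⟨u, p, q, r, s⟩ hx
    simp only [Finset.mem_filter, Finset.mem_product] at hx ⊢
    obtain ⟨⟨hu, hp, hq, hr, hs⟩, hd, hw, hS, hc⟩ := hx
    exact ⟨⟨hu, hr, hs⟩, hc, hd⟩
  · rintro ⟨u, p, q, r, s⟩ hx
    simp only [Finset.mem_filter, Finset.mem_product] at hx ⊢
    obtain ⟨⟨hu, hp, hq, hr, hs⟩, hd, hw, hS, hc⟩ := hx
    exact ⟨⟨hp, hq⟩, hw.1, hS⟩
  · rintro ⟨u, p, q, r, s⟩ ⟨u', p', q', r', s'⟩ h1 h2
    simp only [Prod.mk.injEq] at h1 h2
    rw [h1.1, h1.2.1, h1.2.2, h2.1, h2.2]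
  · rintro ⟨u, r, s⟩ hx
    simp only [Finset.mem_filter, Finset.mem_product] at hx
    exact cntP2L H ha hx.1.1 hx.2.2

end counts

end Rest
end Pool.Agent.Grid3D
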