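import Pool.Agent.Grid3D.RestCost
import Pool.Agent.Grid3D.RestGeo

/-!
# Regime 1, REST lemma, part 3: covering and assembly
-/

set_option autoImplicit false

open Classical Finset

noncomputable section

namespace Pool.Agent.Grid3D
namespace Rest

open Geo2

section patterns

variable (P : Params) (S D : ℕ) (C : Finset ℕ) (z : ℕ → Pt) (a b : Pt)

def Q1 : Finset (Pt × Pt) := (box P.N ×ˢ box P.N).filter (fun p => Col a p.1 p.2)
def Q01 (x : Pt) : Finset Pt := (box P.N).filter (fun u => Col a u x)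
def QInn : Finset (Pt × Pt × Pt) := (box P.N ×ˢ box P.N ×ˢ box P.N).filter
      (fun p => p.1 ≠ a ∧ dirN a p.1 < D ∧ Cop a p.1 p.2.1 p.2.2)
def QIInf (x : Pt) : Finset (Pt × Pt) :=
  (box P.N ×ˢ box P.N).filter (fun p => Wit a p.1 x p.2 ∧ ¬ Sm P.M a p.1 x p.2)
def QInf (x : Pt) : Finset (Pt × Pt) :=
  (box P.N ×ˢ box P.N).filter (fun p => dirN a p.1 < D ∧ Wit a p.1 x p.2 ∧ Sm P.M a p.1 x p.2)
def QIff (x x' : Pt) : Finset Pt := (box P.N).filter (fun u => dirN a u < D ∧ Wit a u x x')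
def QIIff (x x' : Pt) : Finset Pt :=
  (box P.N).filter (fun u => Wit a u x x' ∧ ¬ Sm P.M a u x x')
def Qsame : Finset (Pt × Pt × Pt) := (box P.N ×ˢ box P.N ×ˢ box P.N).filter
  (fun x => Wit a x.1 x.2.1 x.2.2 ∧ ¬ Sm P.M a x.1 x.2.1 x.2.2 ∧ Wit b x.1 x.2.1 x.2.2)
def Qnfs (y : Pt) : Finset (Pt × Pt × Pt) := (box P.N ×ˢ box P.N ×ˢ box P.N).filter
  (fun x => Wit a x.1 x.2.1 x.2.2 ∧ ¬ Sm P.M a x.1 x.2.1 x.2.2 ∧ Cop b x.1 y x.2.1)
def Qnnff (y y' : Pt) : Finset (Pt × Pt × Pt) := (box P.N ×ˢ box P.N ×ˢ box P.N).filter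
  (fun x => D ≤ dirN a x.1 ∧ Wit a x.1 x.2.1 x.2.2 ∧ ¬ Sm P.M a x.1 x.2.1 x.2.2 ∧
    Wit b x.1 y y')
def Qshare : Finset (Pt × Pt × Pt × Pt) :=
  (box P.N ×ˢ box P.N ×ˢ box P.N ×ˢ box P.N).filter (fun x => Wit a x.1 x.2.1 x.2.2.1 ∧
      ¬ Sm P.M a x.1 x.2.1 x.2.2.1 ∧ Cop b x.1 x.2.1 x.2.2.2)
def Qnfd (y : Pt) : Finset (Pt × Pt × Pt × Pt) :=
  (box P.N ×ˢ box P.N ×ˢ box P.N ×ˢ box P.N).filter (fun x => D ≤ dirN a x.1 ∧
      Wit a x.1 x.2.1 x.2.2.1 ∧ ¬ Sm P.M a x.1 x.2.1 x.2.2.1 ∧ Cop b x.1 y x.2.2.2)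
def Qdisj : Finset (Pt × Pt × Pt × Pt × Pt) :=
  (box P.N ×ˢ box P.N ×ˢ box P.N ×ˢ box P.N ×ˢ box P.N).filter (fun x => D ≤ dirN a x.1 ∧
      Wit a x.1 x.2.1 x.2.2.1 ∧ ¬ Sm P.M a x.1 x.2.1 x.2.2.1 ∧
      Cop b x.1 x.2.2.2.1 x.2.2.2.2)
def QIV : Finset Pt := (box P.N).filter (fun u => ∃ m ∈ normals P.M, ∃ m' ∈ normals P.M,
  dot m a = dot m u ∧ dot m' b = dot m' u ∧ dot m a ≠ dot m b)

def N0 (Q : Finset Pt) (_s : ℕ) (_ω : ℕ → Pt) (u : Pt) : Prop := u ∈ Q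
def N1 (Q : Finset (Pt × Pt)) (s : ℕ) (ω : ℕ → Pt) (u : Pt) : Prop :=
  ∃ i < s, i ∉ C ∧ (u, ω i) ∈ Q
def N2 (Q : Finset (Pt × Pt × Pt)) (s : ℕ) (ω : ℕ → Pt) (u : Pt) : Prop :=
  ∃ i j, i < s ∧ j < s ∧ i ≠ j ∧ i ∉ C ∧ j ∉ C ∧ (u, ω i, ω j) ∈ Q
def N3 (Q : Finset (Pt × Pt × Pt × Pt)) (s : ℕ) (ω : ℕ → Pt) (u : Pt) : Prop :=
  ∃ i j k, i < s ∧ j < s ∧ k < s ∧ i ≠ j ∧ i ≠ k ∧ j ≠ k ∧
      i ∉ C ∧ j ∉ C ∧ k ∉ C ∧ (u, ω i, ω j, ω k) ∈ Q
def N4 (Q : Finset (Pt × Pt × Pt × Pt × Pt)) (s : ℕ) (ω : ℕ → Pt) (u : Pt) : Prop :=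
  ∃ i j k l, i < s ∧ j < s ∧ k < s ∧ l < s ∧ i ≠ j ∧ i ≠ k ∧
      i ≠ l ∧ j ≠ k ∧ j ≠ l ∧ k ≠ l ∧
      i ∉ C ∧ j ∉ C ∧ k ∉ C ∧ l ∉ C ∧ (u, ω i, ω j, ω k, ω l) ∈ Q

/-- all patterns with base point `a` -/
def PatA (s : ℕ) (ω : ℕ → Pt) (u : Pt) : Prop :=
  N1 C (Q1 P a) s ω u ∨
  (∃ c ∈ C.filter (fun c => c < S), N0 (Q01 P a (z c)) s ω u) ∨
  N2 C (QInn P D a) s ω u ∨
  (∃ c ∈ C.filter (fun c => c < S), N1 C (QIInf P a (z c)) s ω u) ∨
  (∃ c ∈ C.filter (fun c => c < S), N1 C (QInf P D a (z c)) s ω u) ∨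
  (∃ c ∈ C.filter (fun c => c < S), ∃ c' ∈ C.filter (fun c => c < S),
    N0 (QIff P D a (z c) (z c')) s ω u) ∨
  (∃ c ∈ C.filter (fun c => c < S), ∃ c' ∈ C.filter (fun c => c < S),
    N0 (QIIff P a (z c) (z c')) s ω u) ∨
  N2 C (Qsame P a b) s ω u ∨
  (∃ c ∈ C.filter (fun c => c < S), N2 C (Qnfs P a b (z c)) s ω u) ∨
  (∃ c ∈ C.filter (fun c => c < S), ∃ c' ∈ C.filter (fun c => c < S),
    N2 C (Qnnff P D a b (z c) (z c')) s ω u) ∨
  N3 C (Qshare P a b) s ω u ∨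
  (∃ c ∈ C.filter (fun c => c < S), N3 C (Qnfd P D a b (z c)) s ω u) ∨
  N4 C (Qdisj P D a b) s ω u

end patterns

section cover

variable {P : Params} {S D : ℕ} {C : Finset ℕ} {z : ℕ → Pt} {a b : Pt}

/-- near case -/
lemma cover_near {s : ℕ} {ω : ℕ → Pt} {u : Pt} (hz : ∀ c ∈ C, ω c = z c) (hs : s < S)
    (hbox : ∀ i < s, ω i ∈ box P.N) (hu : u ∈ box P.N) (hua : u ≠ a) {c d : ℕ} (hc : c < s)
    (hd : d < s) (hcd : c ≠ d) (hw : Wit a u (ω c) (ω d)) (hnear : dirN a u < D) :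
    PatA P S D C z a b s ω u := by
  have hbc := hbox c hc
  have hbd := hbox d hd
  unfold PatA
  by_cases hcC : c ∈ C
  · by_cases hdC : d ∈ C
    · -- both forced
      refine Or.inr (Or.inr (Or.inr (Or.inr (Or.inr (Or.inl ?_)))))
      refine ⟨c, Finset.mem_filter.2 ⟨hcC, by omega⟩, d, Finset.mem_filter.2 ⟨hdC, by omega⟩, ?_⟩
      rw [← hz c hcC, ← hz d hdC]
      exact Finset.mem_filter.2 ⟨hu, hnear, hw⟩
    · by_cases hS : Sm P.M a u (ω c) (ω d)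
      · refine Or.inr (Or.inr (Or.inr (Or.inr (Or.inl ?_))))
        refine ⟨c, Finset.mem_filter.2 ⟨hcC, by omega⟩, d, hd, hdC, ?_⟩
        rw [← hz c hcC]
        exact Finset.mem_filter.2 ⟨Finset.mem_product.2 ⟨hu, hbd⟩, hnear, hw, hS⟩
      · refine Or.inr (Or.inr (Or.inr (Or.inl ?_)))
        refine ⟨c, Finset.mem_filter.2 ⟨hcC, by omega⟩, d, hd, hdC, ?_⟩
        rw [← hz c hcC]
        exact Finset.mem_filter.2 ⟨Finset.mem_product.2 ⟨hu, hbd⟩, hw, hS⟩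
  · by_cases hdC : d ∈ C
    · by_cases hS : Sm P.M a u (ω c) (ω d)
      · refine Or.inr (Or.inr (Or.inr (Or.inr (Or.inl ?_))))
        refine ⟨d, Finset.mem_filter.2 ⟨hdC, by omega⟩, c, hc, hcC, ?_⟩
        rw [← hz d hdC]
        exact Finset.mem_filter.2 ⟨Finset.mem_product.2 ⟨hu, hbc⟩, hnear, hw.swap, hS.swap34⟩
      · refine Or.inr (Or.inr (Or.inr (Or.inl ?_)))
        refine ⟨d, Finset.mem_filter.2 ⟨hdC, by omega⟩, c, hc, hcC, ?_⟩
        rw [← hz d hdC]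
        exact Finset.mem_filter.2 ⟨Finset.mem_product.2 ⟨hu, hbc⟩, hw.swap,
          fun h => hS h.swap34⟩
    · refine Or.inr (Or.inr (Or.inl ?_))
      refine ⟨c, d, hc, hd, hcd, hcC, hdC, ?_⟩
      exact Finset.mem_filter.2 ⟨Finset.mem_product.2 ⟨hu, Finset.mem_product.2 ⟨hbc, hbd⟩⟩,
        hua, hnear, hw.1⟩

/-- far and large plane, new witnesses for `a`, the first witness of `b` is forced -/
lemma cover_far1 {s : ℕ} {ω : ℕ → Pt} {u : Pt} (hz : ∀ c ∈ C, ω c = z c) (hs : s < S)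
    (hbox : ∀ i < s, ω i ∈ box P.N) (hu : u ∈ box P.N) {c d : ℕ} (hc : c < s)
    (hd : d < s) (hcd : c ≠ d) (hw : Wit a u (ω c) (ω d)) (hfar : D ≤ dirN a u)
    (hS : ¬ Sm P.M a u (ω c) (ω d)) (hcC : c ∉ C) (hdC : d ∉ C) {c' d' : ℕ}
    (hc' : c' < s) (hd' : d' < s) (hw' : Wit b u (ω c') (ω d'))
    (hcC' : c' ∈ C) : PatA P S D C z a b s ω u := by
  have hbc := hbox c hc
  have hbd := hbox d hd
  have hbc' := hbox c' hc'
  have hbd' := hbox d' hd'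
  unfold PatA
  by_cases hdC' : d' ∈ C
  · refine Or.inr (Or.inr (Or.inr (Or.inr (Or.inr (Or.inr (Or.inr (Or.inr (Or.inr
      (Or.inl ?_)))))))))
    refine ⟨c', Finset.mem_filter.2 ⟨hcC', by omega⟩, d', Finset.mem_filter.2 ⟨hdC', by omega⟩,
      c, d, hc, hd, hcd, hcC, hdC, ?_⟩
    rw [← hz c' hcC', ← hz d' hdC']
    exact Finset.mem_filter.2 ⟨Finset.mem_product.2 ⟨hu, Finset.mem_product.2 ⟨hbc, hbd⟩⟩,
      hfar, hw, hS, hw'⟩
  · by_cases h1 : d' = c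
    · subst h1
      refine Or.inr (Or.inr (Or.inr (Or.inr (Or.inr (Or.inr (Or.inr (Or.inr (Or.inl ?_))))))))
      refine ⟨c', Finset.mem_filter.2 ⟨hcC', by omega⟩, d', d, hc, hd, hcd, hcC, hdC, ?_⟩
      rw [← hz c' hcC']
      exact Finset.mem_filter.2 ⟨Finset.mem_product.2 ⟨hu, Finset.mem_product.2 ⟨hbc, hbd⟩⟩,
        hw, hS, hw'.1⟩
    · by_cases h2 : d' = d
      · subst h2
        refine Or.inr (Or.inr (Or.inr (Or.inr (Or.inr (Or.inr (Or.inr (Or.inr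
          (Or.inl ?_))))))))
        refine ⟨c', Finset.mem_filter.2 ⟨hcC', by omega⟩, d', c, hd, hc, hcd.symm, hdC, hcC, ?_⟩
        rw [← hz c' hcC']
        exact Finset.mem_filter.2 ⟨Finset.mem_product.2 ⟨hu, Finset.mem_product.2 ⟨hbd, hbc⟩⟩,
          hw.swap, fun h => hS h.swap34, hw'.1⟩
      · refine Or.inr (Or.inr (Or.inr (Or.inr (Or.inr (Or.inr (Or.inr (Or.inr (Or.inr
          (Or.inr (Or.inr (Or.inl ?_)))))))))))
        refine ⟨c', Finset.mem_filter.2 ⟨hcC', by omega⟩, c, d, d', hc, hd, hd', hcd,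
          fun h => h1 h.symm, fun h => h2 h.symm, hcC, hdC, hdC', ?_⟩
        rw [← hz c' hcC']
        exact Finset.mem_filter.2 ⟨Finset.mem_product.2 ⟨hu, Finset.mem_product.2 ⟨hbc,
          Finset.mem_product.2 ⟨hbd, hbd'⟩⟩⟩, hfar, hw, hS, hw'.1⟩

/-- far and large plane, all witnesses new, the first witnesses coincide -/
lemma cover_far2 {s : ℕ} {ω : ℕ → Pt} {u : Pt}
    (hbox : ∀ i < s, ω i ∈ box P.N) (hu : u ∈ box P.N) {c d : ℕ} (hc : c < s)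
    (hd : d < s) (hcd : c ≠ d) (hw : Wit a u (ω c) (ω d))
    (hS : ¬ Sm P.M a u (ω c) (ω d)) (hcC : c ∉ C) (hdC : d ∉ C) {d' : ℕ}
    (hd' : d' < s) (hcd' : c ≠ d') (hw' : Wit b u (ω c) (ω d'))
    (hdC' : d' ∉ C) : PatA P S D C z a b s ω u := by
  have hbc := hbox c hc
  have hbd := hbox d hd
  have hbd' := hbox d' hd'
  unfold PatA
  by_cases h : d' = d
  · subst h
    refine Or.inr (Or.inr (Or.inr (Or.inr (Or.inr (Or.inr (Or.inr (Or.inl ?_)))))))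
    refine ⟨c, d', hc, hd, hcd, hcC, hdC, ?_⟩
    exact Finset.mem_filter.2 ⟨Finset.mem_product.2 ⟨hu, Finset.mem_product.2 ⟨hbc, hbd⟩⟩,
      hw, hS, hw'⟩
  · refine Or.inr (Or.inr (Or.inr (Or.inr (Or.inr (Or.inr (Or.inr (Or.inr (Or.inr
      (Or.inr (Or.inl ?_))))))))))
    refine ⟨c, d, d', hc, hd, hd', hcd, hcd', fun h' => h h'.symm, hcC, hdC, hdC', ?_⟩
    exact Finset.mem_filter.2 ⟨Finset.mem_product.2 ⟨hu, Finset.mem_product.2 ⟨hbc,
          Finset.mem_product.2 ⟨hbd, hbd'⟩⟩⟩, hw, hS, hw'.1⟩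

/-- far case with a large plane -/
lemma cover_far {s : ℕ} {ω : ℕ → Pt} {u : Pt} (hz : ∀ c ∈ C, ω c = z c) (hs : s < S)
    (hbox : ∀ i < s, ω i ∈ box P.N) (hu : u ∈ box P.N) {c d : ℕ} (hc : c < s)
    (hd : d < s) (hcd : c ≠ d) (hw : Wit a u (ω c) (ω d)) (hfar : D ≤ dirN a u)
    (hS : ¬ Sm P.M a u (ω c) (ω d)) {c' d' : ℕ}
    (hc' : c' < s) (hd' : d' < s) (hcd' : c' ≠ d') (hw' : Wit b u (ω c') (ω d')) :
    PatA P S D C z a b s ω u := by
  have hbc := hbox c hc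
  have hbd := hbox d hd
  have hbc' := hbox c' hc'
  have hbd' := hbox d' hd'
  by_cases hcC : c ∈ C
  · by_cases hdC : d ∈ C
    · refine Or.inr (Or.inr (Or.inr (Or.inr (Or.inr (Or.inr (Or.inl ?_))))))
      refine ⟨c, Finset.mem_filter.2 ⟨hcC, by omega⟩, d, Finset.mem_filter.2 ⟨hdC, by omega⟩, ?_⟩
      rw [← hz c hcC, ← hz d hdC]
      exact Finset.mem_filter.2 ⟨hu, hw, hS⟩
    · refine Or.inr (Or.inr (Or.inr (Or.inl ?_)))
      refine ⟨c, Finset.mem_filter.2 ⟨hcC, by omega⟩, d, hd, hdC, ?_⟩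
      rw [← hz c hcC]
      exact Finset.mem_filter.2 ⟨Finset.mem_product.2 ⟨hu, hbd⟩, hw, hS⟩
  · by_cases hdC : d ∈ C
    · refine Or.inr (Or.inr (Or.inr (Or.inl ?_)))
      refine ⟨d, Finset.mem_filter.2 ⟨hdC, by omega⟩, c, hc, hcC, ?_⟩
      rw [← hz d hdC]
      exact Finset.mem_filter.2 ⟨Finset.mem_product.2 ⟨hu, hbc⟩, hw.swap,
        fun h => hS h.swap34⟩
    · by_cases hcC' : c' ∈ C
      · exact cover_far1 hz hs hbox hu hc hd hcd hw hfar hS hcC hdC hc' hd' hw' hcC'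
      · by_cases hdC' : d' ∈ C
        · exact cover_far1 hz hs hbox hu hc hd hcd hw hfar hS hcC hdC hd' hc' hw'.swap hdC'
        · have hS' : ¬ Sm P.M a u (ω d) (ω c) := fun h => hS h.swap34
          by_cases h1 : c' = c
          · subst h1
            exact cover_far2 hbox hu hc hd hcd hw hS hcC hdC hd' hcd' hw' hdC'
          · by_cases h2 : c' = d
            · subst h2
              exact cover_far2 hbox hu hd hc hcd.symm hw.swap hS' hdC hcC hd' hcd' hw' hdC'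
            · by_cases h3 : d' = c
              · subst h3
                exact cover_far2 hbox hu hc hd hcd hw hS hcC hdC hc' hcd'.symm hw'.swap hcC'
              · by_cases h4 : d' = d
                · subst h4
                  exact cover_far2 hbox hu hd hc hcd.symm hw.swap hS' hdC hcC hc' hcd'.symm
                    hw'.swap hcC'
                · refine Or.inr (Or.inr (Or.inr (Or.inr (Or.inr (Or.inr (Or.inr (Or.inr (Or.inr
                    (Or.inr (Or.inr (Or.inr ?_)))))))))))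
                  refine ⟨c, d, c', d', hc, hd, hc', hd', hcd, fun h => h1 h.symm,
                    fun h => h3 h.symm, fun h => h2 h.symm, fun h => h4 h.symm, hcd',
                    hcC, hdC, hcC', hdC', ?_⟩
                  exact Finset.mem_filter.2 ⟨Finset.mem_product.2 ⟨hu, Finset.mem_product.2 ⟨hbc,
                    Finset.mem_product.2 ⟨hbd, Finset.mem_product.2 ⟨hbc', hbd'⟩⟩⟩⟩,
                    hfar, hw, hS, hw'.1⟩

/-- the collinear case -/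
lemma cover_col {s : ℕ} {ω : ℕ → Pt} {u : Pt} (hz : ∀ c ∈ C, ω c = z c) (hs : s < S)
    (hbox : ∀ i < s, ω i ∈ box P.N) (hu : u ∈ box P.N) {i : ℕ} (hi : i < s)
    (h : Col a u (ω i)) : PatA P S D C z a b s ω u := by
  by_cases hC : i ∈ C
  · refine Or.inr (Or.inl ?_)
    refine ⟨i, Finset.mem_filter.2 ⟨hC, by omega⟩, ?_⟩
    rw [← hz i hC]
    exact Finset.mem_filter.2 ⟨hu, h⟩
  · refine Or.inl ⟨i, hi, hC, ?_⟩
    exact Finset.mem_filter.2 ⟨Finset.mem_product.2 ⟨hu, hbox i hi⟩, h⟩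

lemma wit_of {s : ℕ} {ω : ℕ → Pt} {x u : Pt} (hx : x ∈ P.act' s ω) (hu : u ∈ P.act' s ω)
    (hncol : ∀ i < s, ¬ Col x u (ω i)) {c d : ℕ} (hcd : P.adm s c d)
    (hcop : Cop x u (ω c) (ω d)) : Wit x u (ω c) (ω d) := by
  have h1 := P.not_col_of_mem_act' hx hcd.1 hcd.2.1 hcd.2.2.1
  have h2 := P.not_col_of_mem_act' hu hcd.1 hcd.2.1 hcd.2.2.1
  exact ⟨hcop, fun h => h1 (col23 (col12 h)), fun h => h2 (col23 (col12 h)),
    hncol c hcd.1, hncol d hcd.2.1⟩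

/-- the covering -/
lemma cover {T s : ℕ} {ω : ℕ → Pt} {u : Pt} (hal : P.Alive T ω) (hST : S ≤ T)
    (hz : ∀ c ∈ C, ω c = z c) (hs : s < S)
    (ha : a ∈ P.act' s ω) (hb : b ∈ P.act' s ω) (hR : u ∈ P.R s ω a b) :
    u ∈ ({a, b} : Finset Pt) ∨ PatA P S D C z a b s ω u ∨ PatA P S D C z b a s ω u ∨
      u ∈ QIV P a b := by
  have hbox : ∀ i < s, ω i ∈ box P.N := fun i hi => P.mem_box_of_alive hal (by omega)
  simp only [Params.R, Finset.mem_filter, Finset.mem_inter, P.mem_K] at hR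
  obtain ⟨⟨hua, ⟨hu, hKa⟩, _, hKb⟩, hsm⟩ := hR
  by_cases h1 : u = a
  · left; rw [h1]; simp
  by_cases h2 : u = b
  · left; rw [h2]; simp
  obtain ⟨c, d, hcd, hcop⟩ := hKa.resolve_left h1
  obtain ⟨c', d', hcd', hcop'⟩ := hKb.resolve_left h2
  right
  by_cases hca : ∃ i < s, Col a u (ω i)
  · obtain ⟨i, hi, h⟩ := hca
    exact Or.inl (cover_col hz hs hbox hu hi h)
  by_cases hcb : ∃ i < s, Col b u (ω i)
  · obtain ⟨i, hi, h⟩ := hcb
    exact Or.inr (Or.inl (cover_col hz hs hbox hu hi h))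
  push Not at hca hcb
  have hw := wit_of ha hua hca hcd hcop
  have hw' := wit_of hb hua hcb hcd' hcop'
  by_cases hna : dirN a u < D
  · exact Or.inl (cover_near hz hs hbox hu h1 hcd.1 hcd.2.1 hcd.2.2.1 hw hna)
  by_cases hnb : dirN b u < D
  · exact Or.inr (Or.inl (cover_near hz hs hbox hu h2 hcd'.1 hcd'.2.1 hcd'.2.2.1 hw' hnb))
  by_cases hSa : Sm P.M a u (ω c) (ω d)
  · by_cases hSb : Sm P.M b u (ω c') (ω d')
    · right; right
      obtain ⟨m, hm, e1, e2, e3⟩ := hSa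
      obtain ⟨m', hm', f1, _, _⟩ := hSb
      refine Finset.mem_filter.2 ⟨hu, m, hm, m', hm', e1, f1, ?_⟩
      intro hab
      apply hsm m hm hab (by rw [← e1, hab])
      exact ⟨c, d, hcd, by rw [← e2, hab], by rw [← e3, hab]⟩
    · exact Or.inr (Or.inl (cover_far hz hs hbox hu hcd'.1 hcd'.2.1 hcd'.2.2.1 hw'
        (by omega) hSb hcd.1 hcd.2.1 hcd.2.2.1 hw))
  · exact Or.inl (cover_far hz hs hbox hu hcd.1 hcd.2.1 hcd.2.2.1 hw
        (by omega) hSa hcd'.1 hcd'.2.1 hcd'.2.2.1 hw')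

end cover

section costs

variable {P : Params} {T S D : ℕ} {C : Finset ℕ} {z : ℕ → Pt} {a b : Pt} {g : ℝ}

/-- the common error -/
def eps (N M : ℕ) (g : ℝ) : ℝ := 10 ^ 13 * g ^ 5 * (1 + Real.log N) / M

lemma pat_le (H : Hyp P.N P.M D) (hg : 1 ≤ g)
    (hlam : T * (2 * P.om / P.V) * (P.N : ℝ) ^ 2 ≤ g) {k : ℕ} (hk : k ≤ 4) {q : ℝ}
    (hq : q ≤ bd P.N P.M k) :
    (T * (2 * P.om / P.V)) ^ (k + 1) * q ≤ eps P.N P.M g := by
  have hf := fac_nonneg (P := P)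
  have hM := H.M0
  have hN := H.N1
  have hL := H.L1
  have h1 : (T * (2 * P.om / P.V) * (P.N : ℝ) ^ 2) ^ (k + 1) ≤ g ^ 5 := by
    calc (T * (2 * P.om / P.V) * (P.N : ℝ) ^ 2) ^ (k + 1) ≤ g ^ (k + 1) := by
          apply pow_le_pow_left₀ (by positivity) hlam
      _ ≤ g ^ 5 := pow_le_pow_right₀ hg (by omega)
  calc (T * (2 * P.om / P.V)) ^ (k + 1) * q
      ≤ (T * (2 * P.om / P.V)) ^ (k + 1) * bd P.N P.M k := by gcongr
    _ = 10 ^ 13 * (T * (2 * P.om / P.V) * (P.N : ℝ) ^ 2) ^ (k + 1) * (1 + Real.log P.N) / P.M := by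
        unfold bd
        rw [mul_pow _ ((P.N : ℝ) ^ 2), ← pow_mul]
        ring
    _ ≤ 10 ^ 13 * g ^ 5 * (1 + Real.log P.N) / P.M := by gcongr

lemma cost_or' {B B' R : ℕ → (ℕ → Pt) → Pt → Prop}
    (h : ∀ s ω u, R s ω u → B s ω u ∨ B' s ω u) {x y : ℝ}
    (hB : cost P T S C z B ≤ x) (hB' : cost P T S C z B' ≤ y) : cost P T S C z R ≤ x + y := by
  refine le_trans (cost_mono (B' := fun s ω u => B s ω u ∨ B' s ω u) ?_) (cost_or.trans ?_)
  · intro ω _ _ s _ u _ hR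
    exact h s ω u hR
  · linarith

lemma cost_PatA (H : Hyp P.N P.M D) (hST : S ≤ T) (hC : ∀ c ∈ C, c < T) (hcard : C.card ≤ 7)
    (ha : a ∈ box P.N) (hb : b ∈ box P.N) (hz : ∀ c ∈ C, z c ∈ box P.N) (hab : D ≤ dirN a b)
    (haz : ∀ c ∈ C, c < S → D ≤ dirN a (z c)) (hbz : ∀ c ∈ C, c < S → D ≤ dirN b (z c))
    (hg : 1 ≤ g) (hlam : T * (2 * P.om / P.V) * (P.N : ℝ) ^ 2 ≤ g) :
    cost P T S C z (PatA P S D C z a b) ≤
      187 * ((2 * P.om / P.V) ^ C.card * eps P.N P.M g) := by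
  have hf := fac_nonneg (P := P)
  have hD0 : 0 < D := by have := H.D2; omega
  have hself : ∀ x : Pt, dirN x x = 0 := by
    intro x
    simp [dirN, nrm]
  have hzb : ∀ c ∈ C, c < S → z c ≠ b := by
    intro c hc hcS h
    have := hbz c hc hcS
    rw [h, hself] at this
    omega
  have hza : ∀ c ∈ C, c < S → z c ≠ a := by
    intro c hc hcS h
    have := haz c hc hcS
    rw [h, hself] at this
    omega
  have he0 : 0 ≤ eps P.N P.M g := by
    unfold eps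
    have hM := H.M0
    have hN := H.N1
    have hL := H.L1
    positivity
  set F := (2 * P.om / P.V) ^ C.card with hF
  have hF0 : 0 ≤ F := by positivity
  have hcard' : ((C.filter (fun c => c < S)).card : ℝ) ≤ 7 := by
    have := (Finset.card_filter_le C (fun c => c < S)).trans hcard
    exact_mod_cast this
  have ex1 : ∀ {B : ℕ → ℕ → (ℕ → Pt) → Pt → Prop} {K : ℝ}, 0 ≤ K →
      (∀ c ∈ C, c < S → cost P T S C z (B c) ≤ K) →
      cost P T S C z (fun s ω u => ∃ c ∈ C.filter (fun c => c < S), B c s ω u) ≤ 7 * K := by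
    intro B K hK h
    refine (cost_exists _ (fun c hc => ?_)).trans (mul_le_mul_of_nonneg_right hcard' hK)
    rw [Finset.mem_filter] at hc
    exact h c hc.1 hc.2
  have p0 : ∀ Q : Finset Pt, (Q.card : ℝ) ≤ bd P.N P.M 0 →
      cost P T S C z (N0 Q) ≤ F * eps P.N P.M g := by
    intro Q hQ
    refine (cost_pat0 hST hC Q).trans ?_
    exact mul_le_mul_of_nonneg_left (pat_le H hg hlam (by norm_num) hQ) hF0
  have p1 : ∀ Q : Finset (Pt × Pt), (Q.card : ℝ) ≤ bd P.N P.M 1 →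
      cost P T S C z (N1 C Q) ≤ F * eps P.N P.M g := by
    intro Q hQ
    refine (cost_pat1 hST hC Q).trans ?_
    exact mul_le_mul_of_nonneg_left (pat_le H hg hlam (by norm_num) hQ) hF0
  have p2 : ∀ Q : Finset (Pt × Pt × Pt), (Q.card : ℝ) ≤ bd P.N P.M 2 →
      cost P T S C z (N2 C Q) ≤ F * eps P.N P.M g := by
    intro Q hQ
    refine (cost_pat2 hST hC Q).trans ?_
    exact mul_le_mul_of_nonneg_left (pat_le H hg hlam (by norm_num) hQ) hF0
  have p3 : ∀ Q : Finset (Pt × Pt × Pt × Pt), (Q.card : ℝ) ≤ bd P.N P.M 3 →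
      cost P T S C z (N3 C Q) ≤ F * eps P.N P.M g := by
    intro Q hQ
    refine (cost_pat3 hST hC Q).trans ?_
    exact mul_le_mul_of_nonneg_left (pat_le H hg hlam (by norm_num) hQ) hF0
  have p4 : ∀ Q : Finset (Pt × Pt × Pt × Pt × Pt), (Q.card : ℝ) ≤ bd P.N P.M 4 →
      cost P T S C z (N4 C Q) ≤ F * eps P.N P.M g := by
    intro Q hQ
    refine (cost_pat4 hST hC Q).trans ?_
    exact mul_le_mul_of_nonneg_left (pat_le H hg hlam (by norm_num) hQ) hF0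
  set E := F * eps P.N P.M g with hE
  have hE0 : 0 ≤ E := mul_nonneg hF0 he0
  have c1 := p1 (Q1 P a) (cnt1 H ha)
  have c2 := ex1 (B := fun c => N0 (Q01 P a (z c))) hE0
    (fun c hc hcS => p0 _ (cnt01 H ha (hz c hc) (hza c hc hcS)))
  have c3 := p2 (QInn P D a) (cntInn H ha)
  have c4 := ex1 (B := fun c => N1 C (QIInf P a (z c))) hE0
    (fun c hc hcS => p1 _ (cntIInf H ha (hz c hc) (haz c hc hcS)))
  have c5 := ex1 (B := fun c => N1 C (QInf P D a (z c))) hE0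
    (fun c hc hcS => p1 _ (cntInf H ha (haz c hc hcS)))
  have c6 := ex1 (B := fun c s ω u => ∃ c' ∈ C.filter (fun c => c < S),
      N0 (QIff P D a (z c) (z c')) s ω u) (K := 7 * E) (by positivity)
    (fun c hc hcS => ex1 (B := fun c' => N0 (QIff P D a (z c) (z c'))) hE0
      (fun c' hc' hcS' => p0 _ (cntIff H ha)))
  have c7 := ex1 (B := fun c s ω u => ∃ c' ∈ C.filter (fun c => c < S),
      N0 (QIIff P a (z c) (z c')) s ω u) (K := 7 * E) (by positivity)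
    (fun c hc hcS => ex1 (B := fun c' => N0 (QIIff P a (z c) (z c'))) hE0
      (fun c' hc' hcS' => p0 _ (cntIIff H ha (hz c hc) (hz c' hc'))))
  have c8 := p2 (Qsame P a b) (cntsame H ha hb hab)
  have c9 := ex1 (B := fun c => N2 C (Qnfs P a b (z c))) hE0
    (fun c hc hcS => p2 _ (cntnfs H ha hb (hz c hc) (hzb c hc hcS)))
  have c10 := ex1 (B := fun c s ω u => ∃ c' ∈ C.filter (fun c => c < S),
      N2 C (Qnnff P D a b (z c) (z c')) s ω u) (K := 7 * E) (by positivity)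
    (fun c hc hcS => ex1 (B := fun c' => N2 C (Qnnff P D a b (z c) (z c'))) hE0
      (fun c' hc' hcS' => p2 _ (cntnnff H ha hb (hz c hc) (hz c' hc'))))
  have c11 := p3 (Qshare P a b) (cntshare H ha hb)
  have c12 := ex1 (B := fun c => N3 C (Qnfd P D a b (z c))) hE0
    (fun c hc hcS => p3 _ (cntnfd H ha hb (hz c hc) (hzb c hc hcS)))
  have c13 := p4 (Qdisj P D a b) (cntdisj H ha hb)
  have key := cost_or' (R := PatA P S D C z a b) (fun s ω u h => h) c1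
    (cost_or' (fun s ω u h => h) c2
    (cost_or' (fun s ω u h => h) c3
    (cost_or' (fun s ω u h => h) c4
    (cost_or' (fun s ω u h => h) c5
    (cost_or' (fun s ω u h => h) c6
    (cost_or' (fun s ω u h => h) c7
    (cost_or' (fun s ω u h => h) c8
    (cost_or' (fun s ω u h => h) c9
    (cost_or' (fun s ω u h => h) c10
    (cost_or' (fun s ω u h => h) c11
    (cost_or' (fun s ω u h => h) c12 c13)))))))))))
  refine key.trans ?_
  linarith

lemma dirN_comm (x y : Pt) : dirN x y = dirN y x := by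
  have h1 : x - y = -(y - x) := by simp
  have h2 : nrm (x - y) = nrm (y - x) := by rw [h1, nrm_neg]
  have h3 : content (x - y) = content (y - x) := by
    have e : ∀ i, (x i - y i).natAbs = (y i - x i).natAbs := by
      intro i
      rw [← Int.natAbs_neg]
      congr 1
      ring
    simp only [content, Int.gcd, Pi.sub_apply, e]
  unfold dirN
  rw [h2, h3]

/-- the bound of the rest sum in terms of the parameters -/
lemma rest_main (H : Hyp P.N P.M D) (hST : S ≤ T) (hC : ∀ c ∈ C, c < T) (hcard : C.card ≤ 7)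
    (ha : a ∈ box P.N) (hb : b ∈ box P.N) (hz : ∀ c ∈ C, z c ∈ box P.N) (hab : D ≤ dirN a b)
    (haz : ∀ c ∈ C, c < S → D ≤ dirN a (z c)) (hbz : ∀ c ∈ C, c < S → D ≤ dirN b (z c))
    (hg : 1 ≤ g) (hlam : T * (2 * P.om / P.V) * (P.N : ℝ) ^ 2 ≤ g) :
    P.ex T (fun ω => (∏ c ∈ C, if ω c = z c then (1 : ℝ) else 0) * P.restSum S ω a b) ≤
      376 * ((2 * P.om / P.V) ^ C.card * eps P.N P.M g) := by
  have hf := fac_nonneg (P := P)
  have h1 : P.ex T (fun ω => (∏ c ∈ C, if ω c = z c then (1 : ℝ) else 0) *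
      P.restSum S ω a b) ≤ cost P T S C z (fun s ω u => a ∈ P.act' s ω ∧ b ∈ P.act' s ω ∧
        u ∈ P.R s ω a b) := by
    apply P.ex_mono
    intro ω _
    apply mul_le_mul_of_nonneg_left _ (prod_ind_nonneg ω)
    apply Finset.sum_le_sum
    intro s _
    split_ifs with h
    · apply mul_le_mul_of_nonneg_left _ hf
      apply Nat.cast_le.mpr
      apply Finset.card_le_card
      intro u hu
      simp only [Finset.mem_filter]
      refine ⟨?_, h.1, h.2, hu⟩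
      simp only [Params.R, Finset.mem_filter, Finset.mem_inter, P.mem_K] at hu
      exact hu.1.2.1.1
    · exact mul_nonneg hf (Nat.cast_nonneg _)
  have hQ : ∀ Q : Finset Pt, (Q.card : ℝ) ≤ bd P.N P.M 0 →
      cost P T S C z (N0 Q) ≤ (2 * P.om / P.V) ^ C.card * eps P.N P.M g := by
    intro Q hQ
    refine (cost_pat0 hST hC Q).trans ?_
    exact mul_le_mul_of_nonneg_left (pat_le H hg hlam (by norm_num) hQ) (by positivity)
  have c1 := hQ {a, b} (cnt00 H a b)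
  have c2 := cost_PatA H hST hC hcard ha hb hz hab haz hbz hg hlam
  have c3 := cost_PatA H hST hC hcard hb ha hz (by rw [dirN_comm]; exact hab) hbz haz hg hlam
  have c4 := hQ (QIV P a b) (cntIV H a b)
  have h2 : cost P T S C z (fun s ω u => a ∈ P.act' s ω ∧ b ∈ P.act' s ω ∧
        u ∈ P.R s ω a b) ≤ cost P T S C z (fun s ω u => N0 {a, b} s ω u ∨
          PatA P S D C z a b s ω u ∨ PatA P S D C z b a s ω u ∨ N0 (QIV P a b) s ω u) := by
    apply cost_mono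
    intro ω hal hzC s hs u _ h
    exact cover hal hST hzC hs h.1 h.2.1 h.2.2
  have key := cost_or' (R := fun s ω u => N0 {a, b} s ω u ∨
          PatA P S D C z a b s ω u ∨ PatA P S D C z b a s ω u ∨ N0 (QIV P a b) s ω u)
    (fun s ω u h => h) c1 (cost_or' (fun s ω u h => h) c2 (cost_or' (fun s ω u h => h) c3 c4))
  refine h1.trans (h2.trans (key.trans ?_))
  linarith

end costs

section asym

open Filter Topology

lemma ev_log (C r : ℝ) (hr : 0 < r) :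
    ∀ᶠ N : ℕ in atTop, C * (1 + Real.log N) ≤ (N : ℝ) ^ r := by
  have h1 : ∀ᶠ x : ℝ in atTop, C * (1 + Real.log x) ≤ x ^ r := by
    have hc : (0 : ℝ) < 1 / (2 * (|C| + 1)) := by positivity
    have h2 := (isLittleO_log_rpow_atTop hr).def hc
    have h3 := (tendsto_rpow_atTop hr).eventually_ge_atTop (2 * (|C| + 1))
    filter_upwards [h2, h3, eventually_ge_atTop 1] with x h2 h3 h4
    rw [Real.norm_eq_abs, Real.norm_eq_abs] at h2
    have hlog : 0 ≤ Real.log x := Real.log_nonneg h4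
    have hx : 0 ≤ x ^ r := by positivity
    rw [abs_of_nonneg hlog, abs_of_nonneg hx] at h2
    have h5 : (|C| + 1) * Real.log x ≤ x ^ r / 2 := by
      calc (|C| + 1) * Real.log x ≤ (|C| + 1) * (1 / (2 * (|C| + 1)) * x ^ r) := by gcongr
        _ = x ^ r / 2 := by field_simp
    have h6 : C * (1 + Real.log x) ≤ (|C| + 1) * (1 + Real.log x) := by
      apply mul_le_mul_of_nonneg_right _ (by linarith)
      linarith [le_abs_self C]
    linarith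
  exact tendsto_natCast_atTop_atTop.eventually h1

lemma ev_const (C r : ℝ) (hr : 0 < r) : ∀ᶠ N : ℕ in atTop, C ≤ (N : ℝ) ^ r :=
  tendsto_natCast_atTop_atTop.eventually ((tendsto_rpow_atTop hr).eventually_ge_atTop C)

/-- the side `M` of the small planes -/
def MM (N : ℕ) : ℕ := ⌊(N : ℝ) ^ (1 / 100 : ℝ)⌋₊
/-- the spreading distance -/
def DD (N : ℕ) : ℕ := ⌈(N : ℝ) ^ (9 / 10 : ℝ)⌉₊

lemma spread_iff {N : ℕ} {x y : Pt} : Spread N x y ↔ DD N ≤ dirN x y := by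
  unfold Spread DD
  rw [Nat.ceil_le]

lemma MM_bounds {N : ℕ} (hN : 1 ≤ N) :
    (N : ℝ) ^ (1 / 100 : ℝ) / 2 ≤ MM N ∧ (MM N : ℝ) ≤ (N : ℝ) ^ (1 / 100 : ℝ) := by
  have hN1 : (1 : ℝ) ≤ N := by exact_mod_cast hN
  have h1 : (1 : ℝ) ≤ (N : ℝ) ^ (1 / 100 : ℝ) := Real.one_le_rpow hN1 (by norm_num)
  have h2 := Nat.floor_le (show 0 ≤ (N : ℝ) ^ (1 / 100 : ℝ) by positivity)
  have h3 := Nat.lt_floor_add_one ((N : ℝ) ^ (1 / 100 : ℝ))
  have h4 : (1 : ℝ) ≤ (⌊(N : ℝ) ^ (1 / 100 : ℝ)⌋₊ : ℝ) := by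
    exact_mod_cast Nat.le_floor (by exact_mod_cast h1)
  unfold MM
  constructor
  · linarith
  · exact h2

lemma ev_hyp : ∀ᶠ N : ℕ in atTop, Hyp N (MM N) (DD N) := by
  filter_upwards [eventually_ge_atTop 1, ev_const 2 (9 / 100) (by norm_num),
    ev_log 1 (88 / 100) (by norm_num), ev_const 3 (88 / 100) (by norm_num)] with N hN h1 h2 h3
  have hN1 : (1 : ℝ) ≤ N := by exact_mod_cast hN
  have hN0 : (0 : ℝ) < N := by linarith
  obtain ⟨hM1, hM2⟩ := MM_bounds hN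
  have hMone : 1 ≤ MM N := Nat.le_floor (by
    have := Real.one_le_rpow hN1 (show (0 : ℝ) ≤ 1 / 100 by norm_num)
    exact_mod_cast this)
  have hD1 : (N : ℝ) ^ (9 / 10 : ℝ) ≤ DD N := Nat.le_ceil _
  have hD2 : (DD N : ℝ) ≤ 2 * (N : ℝ) ^ (9 / 10 : ℝ) := by
    have h4 := Nat.ceil_lt_add_one (show 0 ≤ (N : ℝ) ^ (9 / 10 : ℝ) by positivity)
    have h5 := Real.one_le_rpow hN1 (show (0 : ℝ) ≤ 9 / 10 by norm_num)
    unfold DD
    linarith
  have hsq : (MM N : ℝ) ^ 2 ≤ (N : ℝ) ^ (2 / 100 : ℝ) := by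
    calc (MM N : ℝ) ^ 2 ≤ ((N : ℝ) ^ (1 / 100 : ℝ)) ^ 2 := by gcongr
      _ = (N : ℝ) ^ (2 / 100 : ℝ) := by
          rw [← Real.rpow_natCast, ← Real.rpow_mul hN0.le]
          norm_num
  refine ⟨hMone, ?_, ?_, ?_, ?_⟩
  · have : (MM N : ℝ) ^ 7 ≤ N := by
      calc (MM N : ℝ) ^ 7 ≤ ((N : ℝ) ^ (1 / 100 : ℝ)) ^ 7 := by gcongr
        _ = (N : ℝ) ^ (7 / 100 : ℝ) := by
            rw [← Real.rpow_natCast, ← Real.rpow_mul hN0.le]
            norm_num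
        _ ≤ (N : ℝ) ^ (1 : ℝ) := Real.rpow_le_rpow_of_exponent_le hN1 (by norm_num)
        _ = N := Real.rpow_one _
    exact_mod_cast this
  · have : (MM N : ℝ) * DD N ≤ N := by
      calc (MM N : ℝ) * DD N ≤ (N : ℝ) ^ (1 / 100 : ℝ) * (2 * (N : ℝ) ^ (9 / 10 : ℝ)) := by
            gcongr
        _ ≤ (N : ℝ) ^ (1 / 100 : ℝ) * ((N : ℝ) ^ (9 / 100 : ℝ) * (N : ℝ) ^ (9 / 10 : ℝ)) := by
            gcongr
        _ = (N : ℝ) ^ (1 : ℝ) := by
            rw [← Real.rpow_add hN0, ← Real.rpow_add hN0]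
            norm_num
        _ = N := Real.rpow_one _
    exact_mod_cast this
  · have hL : 0 ≤ 1 + Real.log N := by
      have := Real.log_nonneg hN1
      linarith
    calc (MM N : ℝ) ^ 2 * (1 + Real.log N) ≤ (N : ℝ) ^ (2 / 100 : ℝ) * (N : ℝ) ^ (88 / 100 : ℝ) := by
          gcongr
          linarith
      _ = (N : ℝ) ^ (9 / 10 : ℝ) := by
          rw [← Real.rpow_add hN0]
          norm_num
      _ ≤ DD N := hD1
  · have : (2 : ℝ) * (MM N : ℝ) ^ 2 < DD N := by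
      have h6 : 0 < (N : ℝ) ^ (2 / 100 : ℝ) := by positivity
      calc (2 : ℝ) * (MM N : ℝ) ^ 2 ≤ 2 * (N : ℝ) ^ (2 / 100 : ℝ) := by gcongr
        _ < (N : ℝ) ^ (2 / 100 : ℝ) * 3 := by linarith
        _ ≤ (N : ℝ) ^ (2 / 100 : ℝ) * (N : ℝ) ^ (88 / 100 : ℝ) := by gcongr
        _ = (N : ℝ) ^ (9 / 10 : ℝ) := by
            rw [← Real.rpow_add hN0]
            norm_num
        _ ≤ DD N := hD1
    exact_mod_cast this

/-- the bound for the scaled intensity -/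
def gg (N : ℕ) : ℝ := 2 * (N : ℝ) ^ (3 / 10 ^ 5 : ℝ)

lemma ev_final : ∀ᶠ N : ℕ in atTop, 376 * eps N (MM N) (gg N) ≤ (N : ℝ) ^ (-(1 / 200) : ℝ) := by
  filter_upwards [eventually_ge_atTop 1,
    ev_log (376 * 10 ^ 13 * 32 * 2) (1 / 100 - 1 / 200 - 15 / 10 ^ 5) (by norm_num)] with N hN h1
  have hN1 : (1 : ℝ) ≤ N := by exact_mod_cast hN
  have hN0 : (0 : ℝ) < N := by linarith
  obtain ⟨hM1, hM2⟩ := MM_bounds hN
  have hL : 0 ≤ 1 + Real.log N := by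
    have := Real.log_nonneg hN1
    linarith
  have hg : gg N ^ 5 = 32 * (N : ℝ) ^ (15 / 10 ^ 5 : ℝ) := by
    unfold gg
    rw [mul_pow, ← Real.rpow_natCast ((N : ℝ) ^ (3 / 10 ^ 5 : ℝ)), ← Real.rpow_mul hN0.le]
    norm_num
  unfold eps
  rw [hg]
  have hp : 0 < (N : ℝ) ^ (1 / 100 : ℝ) / 2 := by positivity
  calc 376 * (10 ^ 13 * (32 * (N : ℝ) ^ (15 / 10 ^ 5 : ℝ)) * (1 + Real.log N) / (MM N : ℝ))
      ≤ 376 * (10 ^ 13 * (32 * (N : ℝ) ^ (15 / 10 ^ 5 : ℝ)) * (1 + Real.log N) /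
          ((N : ℝ) ^ (1 / 100 : ℝ) / 2)) := by gcongr
    _ = (N : ℝ) ^ (15 / 10 ^ 5 : ℝ) * (376 * 10 ^ 13 * 32 * 2 * (1 + Real.log N)) /
          (N : ℝ) ^ (1 / 100 : ℝ) := by
        field_simp
    _ ≤ (N : ℝ) ^ (15 / 10 ^ 5 : ℝ) * ((N : ℝ) ^ (1 / 100 - 1 / 200 - 15 / 10 ^ 5 : ℝ)) /
          (N : ℝ) ^ (1 / 100 : ℝ) := by gcongr
    _ = (N : ℝ) ^ (-(1 / 200) : ℝ) := by
        rw [← Real.rpow_add hN0, ← Real.rpow_sub hN0]
        norm_num

end asym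

end Rest

open Rest Filter in
/-- **REST LEMMA** -/
theorem restLemma : RestLemma := by
  obtain ⟨N0, h⟩ := Filter.eventually_atTop.1 (ev_hyp.and ev_final)
  refine ⟨N0, ?_⟩
  intro N hNN hN G n hn a b S T C z ha hb hz hST hTn hC hcard hab habz _
  obtain ⟨H, hfin⟩ := h N hNN
  set P := par N hN G with hP
  have hPN : P.N = N := rfl
  have hPM : P.M = MM N := rfl
  have hN1 : (1 : ℝ) ≤ N := by exact_mod_cast hN
  have hN0 : (0 : ℝ) < N := by linarith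
  have hV : P.V = (N : ℝ) ^ 3 := rfl
  have hom : P.om = (N : ℝ) ^ (2 / 10 ^ 5 : ℝ) := par_om N hN G
  have hg : 1 ≤ gg N := by
    have := Real.one_le_rpow hN1 (show (0 : ℝ) ≤ 3 / 10 ^ 5 by norm_num)
    unfold gg
    linarith
  have hlam : T * (2 * P.om / P.V) * (P.N : ℝ) ^ 2 ≤ gg N := by
    rw [hPN, hV, hom]
    have hT : (T : ℝ) ≤ (N : ℝ) ^ (1 + 1 / 10 ^ 5 : ℝ) := by
      refine le_trans ?_ hn
      exact_mod_cast hTn
    have e3 : (N : ℝ) ^ 3 = (N : ℝ) ^ (3 : ℝ) := by norm_cast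
    have e2 : (N : ℝ) ^ 2 = (N : ℝ) ^ (2 : ℝ) := by norm_cast
    calc (T : ℝ) * (2 * (N : ℝ) ^ (2 / 10 ^ 5 : ℝ) / (N : ℝ) ^ 3) * (N : ℝ) ^ 2
        ≤ (N : ℝ) ^ (1 + 1 / 10 ^ 5 : ℝ) * (2 * (N : ℝ) ^ (2 / 10 ^ 5 : ℝ) / (N : ℝ) ^ 3) *
          (N : ℝ) ^ 2 := by gcongr
      _ = 2 * ((N : ℝ) ^ (1 + 1 / 10 ^ 5 : ℝ) * (N : ℝ) ^ (2 / 10 ^ 5 : ℝ) * (N : ℝ) ^ (2 : ℝ) /
          (N : ℝ) ^ (3 : ℝ)) := by rw [e3, e2]; ring
      _ = gg N := by
          rw [← Real.rpow_add hN0, ← Real.rpow_add hN0, ← Real.rpow_sub hN0]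
          unfold gg
          norm_num
  have key := rest_main (P := P) (D := DD N) (T := T) (S := S) (C := C) (z := z) (a := a) (b := b)
    (g := gg N) H hST hC hcard ha hb hz (spread_iff.1 hab)
    (fun c hc hcS => spread_iff.1 (habz c hc hcS).1)
    (fun c hc hcS => spread_iff.1 (habz c hc hcS).2) hg hlam
  refine key.trans ?_
  have hf := fac_nonneg (P := P)
  calc 376 * ((2 * P.om / P.V) ^ C.card * eps P.N P.M (gg N))
      = (2 * P.om / P.V) ^ C.card * (376 * eps N (MM N) (gg N)) := by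
        rw [hPN, hPM]; ring
    _ ≤ (2 * P.om / P.V) ^ C.card * (N : ℝ) ^ (-(1 / 200) : ℝ) := by gcongr

end Pool.Agent.Grid3D
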