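import Pool.Agent.Grid3D.Geo3
import Pool.Agent.Grid3D.Regime1Spec

/-!
# Regime 1, REST lemma, part 1: the cost functional
-/

set_option autoImplicit false

open Classical Finset

noncomputable section

namespace Pool.Agent.Grid3D
namespace Rest

variable (P : Params)

/-- cost of a predicate `B s ω u` -/
def cost (T S : ℕ) (C : Finset ℕ) (z : ℕ → Pt) (B : ℕ → (ℕ → Pt) → Pt → Prop) : ℝ :=
  P.ex T (fun ω => (∏ c ∈ C, if ω c = z c then (1 : ℝ) else 0) *
    ∑ s ∈ range S, 2 * P.om / P.V * (((box P.N).filter (fun u => B s ω u)).card : ℝ))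

variable {P} {T S : ℕ} {C : Finset ℕ} {z : ℕ → Pt}

lemma fac_nonneg : 0 ≤ 2 * P.om / P.V := by
  have h1 := P.V_pos
  have h2 := P.one_le_om
  positivity

lemma prod_ind_nonneg (ω : ℕ → Pt) : 0 ≤ (∏ c ∈ C, if ω c = z c then (1 : ℝ) else 0) := by
  apply Finset.prod_nonneg
  intro c _
  split_ifs <;> norm_num

lemma prod_ind_eq (ω : ℕ → Pt) : (∏ c ∈ C, if ω c = z c then (1 : ℝ) else 0) =
    if ∀ c ∈ C, ω c = z c then 1 else 0 := by
  split_ifs with h
  · apply Finset.prod_eq_one
    intro c hc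
    rw [if_pos (h c hc)]
  · push Not at h
    obtain ⟨c, hc, h⟩ := h
    apply Finset.prod_eq_zero hc
    rw [if_neg h]

/-- monotonicity of the cost -/
lemma cost_mono {B B' : ℕ → (ℕ → Pt) → Pt → Prop}
    (h : ∀ ω, P.Alive T ω → (∀ c ∈ C, ω c = z c) → ∀ s < S, ∀ u ∈ box P.N, B s ω u → B' s ω u) :
    cost P T S C z B ≤ cost P T S C z B' := by
  apply P.ex_mono
  intro ω hω
  rw [prod_ind_eq]
  split_ifs with hz
  · rw [one_mul, one_mul]
    apply Finset.sum_le_sum
    intro s hs
    apply mul_le_mul_of_nonneg_left _ fac_nonneg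
    have : (box P.N).filter (fun u => B s ω u) ⊆ (box P.N).filter (fun u => B' s ω u) := by
      intro u hu
      rw [Finset.mem_filter] at hu ⊢
      exact ⟨hu.1, h ω hω hz s (Finset.mem_range.1 hs) u hu.1 hu.2⟩
    exact_mod_cast Finset.card_le_card this
  · simp

lemma cost_or {B B' : ℕ → (ℕ → Pt) → Pt → Prop} :
    cost P T S C z (fun s ω u => B s ω u ∨ B' s ω u) ≤
      cost P T S C z B + cost P T S C z B' := by
  unfold cost
  rw [← P.ex_add]
  apply P.ex_mono
  intro ω _
  rw [← mul_add, ← Finset.sum_add_distrib]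
  apply mul_le_mul_of_nonneg_left _ (prod_ind_nonneg ω)
  apply Finset.sum_le_sum
  intro s _
  rw [← mul_add]
  apply mul_le_mul_of_nonneg_left _ fac_nonneg
  refine le_trans (Nat.cast_le.mpr (Finset.card_le_card (t := (box P.N).filter (fun u => B s ω u) ∪
    (box P.N).filter (fun u => B' s ω u)) ?_)) ?_
  · intro u hu
    simp only [Finset.mem_union, Finset.mem_filter] at hu ⊢
    rcases hu.2 with h | h
    · exact Or.inl ⟨hu.1, h⟩
    · exact Or.inr ⟨hu.1, h⟩
  · exact_mod_cast Finset.card_union_le _ _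

lemma cost_false : cost P T S C z (fun _ _ _ => False) = 0 := by
  unfold cost
  simp [P.ex_zero_fun]

lemma cost_nonneg {B : ℕ → (ℕ → Pt) → Pt → Prop} : 0 ≤ cost P T S C z B := by
  apply P.ex_nonneg
  intro ω _
  apply mul_nonneg (prod_ind_nonneg ω)
  apply Finset.sum_nonneg
  intro s _
  exact mul_nonneg fac_nonneg (Nat.cast_nonneg _)

/-- union over a finite set of indices -/
lemma cost_exists {α : Type*} (I : Finset α) {B : α → ℕ → (ℕ → Pt) → Pt → Prop} {K : ℝ}
    (h : ∀ i ∈ I, cost P T S C z (B i) ≤ K) :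
    cost P T S C z (fun s ω u => ∃ i ∈ I, B i s ω u) ≤ I.card * K := by
  induction I using Finset.induction_on with
  | empty =>
    simp only [Finset.notMem_empty, false_and, exists_false, Finset.card_empty, Nat.cast_zero,
      zero_mul]
    rw [cost_false]
  | insert i I hi ih =>
    have h1 : cost P T S C z (fun s ω u => ∃ j ∈ insert i I, B j s ω u) ≤
        cost P T S C z (fun s ω u => B i s ω u ∨ ∃ j ∈ I, B j s ω u) := by
      apply cost_mono
      intro ω _ _ s _ u _ hB
      obtain ⟨j, hj, hB⟩ := hB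
      rw [Finset.mem_insert] at hj
      rcases hj with rfl | hj
      · exact Or.inl hB
      · exact Or.inr ⟨j, hj, hB⟩
    refine h1.trans (cost_or.trans ?_)
    have h2 := ih (fun j hj => h j (Finset.mem_insert_of_mem hj))
    have h3 := h i (Finset.mem_insert_self i I)
    rw [Finset.card_insert_of_notMem hi]
    push_cast
    linarith

/-- one family of new vertices at given positions -/
lemma ex_new_le {k : ℕ} (hC : ∀ c ∈ C, c < T) (i : Fin k → ℕ) (hi : Function.Injective i)
    (hiT : ∀ j, i j < T) (hiC : ∀ j, i j ∉ C) (y : Fin k → Pt) :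
    P.ex T (fun ω => (∏ c ∈ C, if ω c = z c then (1 : ℝ) else 0) *
      (if (fun j => ω (i j)) = y then 1 else 0)) ≤
      (2 * P.om / P.V) ^ C.card * (2 * P.om / P.V) ^ k := by
  have hdisj : Disjoint C (univ.image i) := by
    rw [Finset.disjoint_left]
    intro c hc hc'
    rw [Finset.mem_image] at hc'
    obtain ⟨j, _, rfl⟩ := hc'
    exact hiC j hc
  have hcard : (C ∪ univ.image i).card = C.card + k := by
    rw [Finset.card_union_of_disjoint hdisj, Finset.card_image_of_injective _ hi, Finset.card_univ,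
      Fintype.card_fin]
  have h := P.crude T (C ∪ univ.image i) (by
    intro c hc
    rw [Finset.mem_union, Finset.mem_image] at hc
    rcases hc with hc | ⟨j, _, rfl⟩
    · exact hC c hc
    · exact hiT j) (fun c => if h : ∃ j, i j = c then y h.choose else z c)
  rw [hcard, pow_add] at h
  refine le_trans ?_ h
  apply P.ex_mono
  intro ω _
  by_cases h1 : ∀ c ∈ C, ω c = z c
  · by_cases h2 : (fun j => ω (i j)) = y
    · have h3 : ∀ c ∈ C ∪ univ.image i, ω c = if h : ∃ j, i j = c then y h.choose else z c := by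
        intro c hc
        rw [Finset.mem_union, Finset.mem_image] at hc
        rcases hc with hc | ⟨j, _, rfl⟩
        · have : ¬ ∃ j, i j = c := by
            rintro ⟨j, rfl⟩
            exact hiC j hc
          rw [dif_neg this]
          exact h1 c hc
        · have hex : ∃ j', i j' = i j := ⟨j, rfl⟩
          rw [dif_pos hex]
          have : hex.choose = j := hi hex.choose_spec
          rw [this, ← h2]
      rw [prod_ind_eq, prod_ind_eq, if_pos h1, if_pos h2, if_pos h3, mul_one]
    · rw [if_neg h2, mul_zero]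
      exact prod_ind_nonneg ω
  · rw [prod_ind_eq, if_neg h1, zero_mul]
    exact prod_ind_nonneg ω

/-- the general pattern bound -/
lemma cost_pat {k : ℕ} (hST : S ≤ T) (hC : ∀ c ∈ C, c < T) (Q : Finset (Pt × (Fin k → Pt))) :
    cost P T S C z (fun s ω u => ∃ i : Fin k → ℕ, Function.Injective i ∧
      (∀ j, i j < s ∧ i j ∉ C) ∧ (u, fun j => ω (i j)) ∈ Q) ≤
      (2 * P.om / P.V) ^ C.card * ((T * (2 * P.om / P.V)) ^ (k + 1) * Q.card) := by
  set I : Finset (Fin k → ℕ) := (Fintype.piFinset (fun _ => range T)).filter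
    (fun i => Function.Injective i ∧ ∀ j, i j ∉ C) with hI
  have hIcard : (I.card : ℝ) ≤ (T : ℝ) ^ k := by
    have h1 : I.card ≤ (Fintype.piFinset (fun _ : Fin k => range T)).card :=
      Finset.card_filter_le _ _
    rw [Fintype.card_piFinset_const, Finset.card_range] at h1
    exact_mod_cast h1
  have hf := fac_nonneg (P := P)
  have h1 : cost P T S C z (fun s ω u => ∃ i : Fin k → ℕ, Function.Injective i ∧
      (∀ j, i j < s ∧ i j ∉ C) ∧ (u, fun j => ω (i j)) ∈ Q) ≤
      P.ex T (fun ω => ∑ s ∈ range S, ∑ i ∈ I, ∑ q ∈ Q, 2 * P.om / P.V *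
        ((∏ c ∈ C, if ω c = z c then (1 : ℝ) else 0) *
          (if (fun j => ω (i j)) = q.2 then 1 else 0))) := by
    apply P.ex_mono
    intro ω _
    rw [Finset.mul_sum]
    apply Finset.sum_le_sum
    intro s hs
    rw [Finset.mem_range] at hs
    have h2 : (((box P.N).filter (fun u => ∃ i : Fin k → ℕ, Function.Injective i ∧
      (∀ j, i j < s ∧ i j ∉ C) ∧ (u, fun j => ω (i j)) ∈ Q)).card : ℝ) ≤
      ∑ i ∈ I, ∑ q ∈ Q, (if (fun j => ω (i j)) = q.2 then (1 : ℝ) else 0) := by
      have h3 : (box P.N).filter (fun u => ∃ i : Fin k → ℕ, Function.Injective i ∧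
        (∀ j, i j < s ∧ i j ∉ C) ∧ (u, fun j => ω (i j)) ∈ Q) ⊆
        I.biUnion (fun i => (Q.filter (fun q => (fun j => ω (i j)) = q.2)).image Prod.fst) := by
        intro u hu
        rw [Finset.mem_filter] at hu
        obtain ⟨_, i, hi1, hi2, hi3⟩ := hu
        rw [Finset.mem_biUnion]
        refine ⟨i, ?_, ?_⟩
        · rw [hI, Finset.mem_filter, Fintype.mem_piFinset]
          exact ⟨fun j => Finset.mem_range.2 (by have := (hi2 j).1; omega), hi1,
            fun j => (hi2 j).2⟩
        · rw [Finset.mem_image]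
          exact ⟨_, Finset.mem_filter.2 ⟨hi3, rfl⟩, rfl⟩
      calc (((box P.N).filter (fun u => ∃ i : Fin k → ℕ, Function.Injective i ∧
            (∀ j, i j < s ∧ i j ∉ C) ∧ (u, fun j => ω (i j)) ∈ Q)).card : ℝ)
          ≤ ((I.biUnion (fun i => (Q.filter (fun q => (fun j => ω (i j)) = q.2)).image
              Prod.fst)).card : ℝ) := by exact_mod_cast Finset.card_le_card h3
        _ ≤ ∑ i ∈ I, (((Q.filter (fun q => (fun j => ω (i j)) = q.2)).image
              Prod.fst).card : ℝ) := by exact_mod_cast Finset.card_biUnion_le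
        _ ≤ ∑ i ∈ I, ((Q.filter (fun q => (fun j => ω (i j)) = q.2)).card : ℝ) := by
            apply Finset.sum_le_sum
            intro i _
            exact_mod_cast Finset.card_image_le
        _ = _ := by
            apply Finset.sum_congr rfl
            intro i _
            rw [Finset.card_filter]
            push_cast
            rfl
    calc (∏ c ∈ C, if ω c = z c then (1 : ℝ) else 0) * (2 * P.om / P.V *
          (((box P.N).filter (fun u => ∃ i : Fin k → ℕ, Function.Injective i ∧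
            (∀ j, i j < s ∧ i j ∉ C) ∧ (u, fun j => ω (i j)) ∈ Q)).card : ℝ))
        ≤ (∏ c ∈ C, if ω c = z c then (1 : ℝ) else 0) * (2 * P.om / P.V *
          ∑ i ∈ I, ∑ q ∈ Q, (if (fun j => ω (i j)) = q.2 then (1 : ℝ) else 0)) := by
          apply mul_le_mul_of_nonneg_left _ (prod_ind_nonneg ω)
          exact mul_le_mul_of_nonneg_left h2 hf
      _ = _ := by
          rw [Finset.mul_sum, Finset.mul_sum]
          apply Finset.sum_congr rfl
          intro i _
          rw [Finset.mul_sum, Finset.mul_sum]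
          apply Finset.sum_congr rfl
          intro q _
          ring
  refine h1.trans ?_
  rw [P.ex_sum]
  have h4 : ∀ s ∈ range S, P.ex T (fun ω => ∑ i ∈ I, ∑ q ∈ Q, 2 * P.om / P.V *
        ((∏ c ∈ C, if ω c = z c then (1 : ℝ) else 0) *
          (if (fun j => ω (i j)) = q.2 then 1 else 0))) ≤
        (T : ℝ) ^ k * (Q.card * (2 * P.om / P.V *
          ((2 * P.om / P.V) ^ C.card * (2 * P.om / P.V) ^ k))) := by
    intro s _
    rw [P.ex_sum]
    calc ∑ i ∈ I, P.ex T (fun ω => ∑ q ∈ Q, 2 * P.om / P.V *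
        ((∏ c ∈ C, if ω c = z c then (1 : ℝ) else 0) *
          (if (fun j => ω (i j)) = q.2 then 1 else 0)))
        ≤ ∑ i ∈ I, (Q.card * (2 * P.om / P.V *
          ((2 * P.om / P.V) ^ C.card * (2 * P.om / P.V) ^ k))) := by
          apply Finset.sum_le_sum
          intro i hi
          rw [hI, Finset.mem_filter, Fintype.mem_piFinset] at hi
          rw [P.ex_sum]
          calc ∑ q ∈ Q, P.ex T (fun ω => 2 * P.om / P.V *
              ((∏ c ∈ C, if ω c = z c then (1 : ℝ) else 0) *
                (if (fun j => ω (i j)) = q.2 then 1 else 0)))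
              ≤ ∑ q ∈ Q, (2 * P.om / P.V *
                ((2 * P.om / P.V) ^ C.card * (2 * P.om / P.V) ^ k)) := by
                apply Finset.sum_le_sum
                intro q _
                rw [P.ex_const_mul]
                apply mul_le_mul_of_nonneg_left _ hf
                exact ex_new_le hC i hi.2.1 (fun j => Finset.mem_range.1 (hi.1 j)) hi.2.2 q.2
            _ = _ := by rw [Finset.sum_const, nsmul_eq_mul]
      _ = I.card * (Q.card * (2 * P.om / P.V *
          ((2 * P.om / P.V) ^ C.card * (2 * P.om / P.V) ^ k))) := by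
            rw [Finset.sum_const, nsmul_eq_mul]
      _ ≤ _ := by
          apply mul_le_mul_of_nonneg_right hIcard
          positivity
  calc ∑ s ∈ range S, P.ex T (fun ω => ∑ i ∈ I, ∑ q ∈ Q, 2 * P.om / P.V *
        ((∏ c ∈ C, if ω c = z c then (1 : ℝ) else 0) *
          (if (fun j => ω (i j)) = q.2 then 1 else 0)))
      ≤ ∑ s ∈ range S, (T : ℝ) ^ k * (Q.card * (2 * P.om / P.V *
          ((2 * P.om / P.V) ^ C.card * (2 * P.om / P.V) ^ k))) := Finset.sum_le_sum h4
    _ = S * ((T : ℝ) ^ k * (Q.card * (2 * P.om / P.V *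
          ((2 * P.om / P.V) ^ C.card * (2 * P.om / P.V) ^ k)))) := by
        rw [Finset.sum_const, Finset.card_range, nsmul_eq_mul]
    _ ≤ T * ((T : ℝ) ^ k * (Q.card * (2 * P.om / P.V *
          ((2 * P.om / P.V) ^ C.card * (2 * P.om / P.V) ^ k)))) := by
        apply mul_le_mul_of_nonneg_right (by exact_mod_cast hST)
        positivity
    _ = _ := by
        rw [mul_pow]
        ring

/-- zero new vertices -/
lemma cost_pat0 (hST : S ≤ T) (hC : ∀ c ∈ C, c < T) (Q : Finset Pt) :
    cost P T S C z (fun _ _ u => u ∈ Q) ≤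
      (2 * P.om / P.V) ^ C.card * ((T * (2 * P.om / P.V)) ^ 1 * Q.card) := by
  have h := cost_pat (P := P) (z := z) hST hC
    (Q.image (fun u => ((u, fun j => j.elim0) : Pt × (Fin 0 → Pt))))
  refine le_trans (cost_mono ?_) (h.trans ?_)
  · intro ω _ _ s _ u _ hu
    refine ⟨fun j => j.elim0, fun j => j.elim0, fun j => j.elim0, ?_⟩
    rw [Finset.mem_image]
    refine ⟨u, hu, ?_⟩
    congr 1
    funext j
    exact j.elim0
  · have hf := fac_nonneg (P := P)
    apply mul_le_mul_of_nonneg_left _ (by positivity)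
    apply mul_le_mul_of_nonneg_left _ (by positivity)
    exact_mod_cast Finset.card_image_le

/-- one new vertex -/
lemma cost_pat1 (hST : S ≤ T) (hC : ∀ c ∈ C, c < T) (Q : Finset (Pt × Pt)) :
    cost P T S C z (fun s ω u => ∃ i < s, i ∉ C ∧ (u, ω i) ∈ Q) ≤
      (2 * P.om / P.V) ^ C.card * ((T * (2 * P.om / P.V)) ^ 2 * Q.card) := by
  have h := cost_pat (P := P) (z := z) hST hC
    (Q.image (fun q => ((q.1, ![q.2]) : Pt × (Fin 1 → Pt))))
  refine le_trans (cost_mono ?_) (h.trans ?_)
  · intro ω _ _ s _ u _ hu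
    obtain ⟨i, hi, hiC, hQ⟩ := hu
    refine ⟨![i], ?_, ?_, ?_⟩
    · intro j j' _
      exact Subsingleton.elim j j'
    · intro j
      fin_cases j
      exact ⟨hi, hiC⟩
    rw [Finset.mem_image]
    refine ⟨_, hQ, ?_⟩
    congr 1
    funext j
    fin_cases j
    rfl
  · have hf := fac_nonneg (P := P)
    apply mul_le_mul_of_nonneg_left _ (by positivity)
    apply mul_le_mul_of_nonneg_left _ (by positivity)
    exact_mod_cast Finset.card_image_le

/-- two new vertices -/
lemma cost_pat2 (hST : S ≤ T) (hC : ∀ c ∈ C, c < T) (Q : Finset (Pt × Pt × Pt)) :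
    cost P T S C z (fun s ω u => ∃ i j, i < s ∧ j < s ∧ i ≠ j ∧ i ∉ C ∧ j ∉ C ∧
      (u, ω i, ω j) ∈ Q) ≤
      (2 * P.om / P.V) ^ C.card * ((T * (2 * P.om / P.V)) ^ 3 * Q.card) := by
  have h := cost_pat (P := P) (z := z) hST hC
    (Q.image (fun q => ((q.1, ![q.2.1, q.2.2]) : Pt × (Fin 2 → Pt))))
  refine le_trans (cost_mono ?_) (h.trans ?_)
  · intro ω _ _ s _ u _ hu
    obtain ⟨i, i', hi, hi', hne, hiC, hiC', hQ⟩ := hu
    refine ⟨![i, i'], ?_, ?_, ?_⟩
    · intro j j' hj
      fin_cases j <;> fin_cases j' <;> first | rfl | (exfalso; simp at hj; omega)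
    · intro j
      fin_cases j
      · exact ⟨hi, hiC⟩
      · exact ⟨hi', hiC'⟩
    rw [Finset.mem_image]
    refine ⟨_, hQ, ?_⟩
    congr 1
    funext j
    fin_cases j <;> rfl
  · have hf := fac_nonneg (P := P)
    apply mul_le_mul_of_nonneg_left _ (by positivity)
    apply mul_le_mul_of_nonneg_left _ (by positivity)
    exact_mod_cast Finset.card_image_le

/-- three new vertices -/
lemma cost_pat3 (hST : S ≤ T) (hC : ∀ c ∈ C, c < T) (Q : Finset (Pt × Pt × Pt × Pt)) :
    cost P T S C z (fun s ω u => ∃ i j k, i < s ∧ j < s ∧ k < s ∧ i ≠ j ∧ i ≠ k ∧ j ≠ k ∧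
      i ∉ C ∧ j ∉ C ∧ k ∉ C ∧ (u, ω i, ω j, ω k) ∈ Q) ≤
      (2 * P.om / P.V) ^ C.card * ((T * (2 * P.om / P.V)) ^ 4 * Q.card) := by
  have h := cost_pat (P := P) (z := z) hST hC
    (Q.image (fun q => ((q.1, ![q.2.1, q.2.2.1, q.2.2.2]) : Pt × (Fin 3 → Pt))))
  refine le_trans (cost_mono ?_) (h.trans ?_)
  · intro ω _ _ s _ u _ hu
    obtain ⟨i, i', i'', hi, hi', hi'', hne, hne', hne'', hiC, hiC', hiC'', hQ⟩ := hu
    refine ⟨![i, i', i''], ?_, ?_, ?_⟩
    · intro j j' hj
      fin_cases j <;> fin_cases j' <;> first | rfl | (exfalso; simp at hj; omega)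
    · intro j
      fin_cases j
      · exact ⟨hi, hiC⟩
      · exact ⟨hi', hiC'⟩
      · exact ⟨hi'', hiC''⟩
    rw [Finset.mem_image]
    refine ⟨_, hQ, ?_⟩
    congr 1
    funext j
    fin_cases j <;> rfl
  · have hf := fac_nonneg (P := P)
    apply mul_le_mul_of_nonneg_left _ (by positivity)
    apply mul_le_mul_of_nonneg_left _ (by positivity)
    exact_mod_cast Finset.card_image_le

/-- four new vertices -/
lemma cost_pat4 (hST : S ≤ T) (hC : ∀ c ∈ C, c < T) (Q : Finset (Pt × Pt × Pt × Pt × Pt)) :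
    cost P T S C z (fun s ω u => ∃ i j k l, i < s ∧ j < s ∧ k < s ∧ l < s ∧ i ≠ j ∧ i ≠ k ∧
      i ≠ l ∧ j ≠ k ∧ j ≠ l ∧ k ≠ l ∧
      i ∉ C ∧ j ∉ C ∧ k ∉ C ∧ l ∉ C ∧ (u, ω i, ω j, ω k, ω l) ∈ Q) ≤
      (2 * P.om / P.V) ^ C.card * ((T * (2 * P.om / P.V)) ^ 5 * Q.card) := by
  have h := cost_pat (P := P) (z := z) hST hC
    (Q.image (fun q => ((q.1, ![q.2.1, q.2.2.1, q.2.2.2.1, q.2.2.2.2]) : Pt × (Fin 4 → Pt))))
  refine le_trans (cost_mono ?_) (h.trans ?_)
  · intro ω _ _ s _ u _ hu
    obtain ⟨i, i', i'', i3, hi, hi', hi'', hi3, h01, h02, h03, h12, h13, h23, hiC, hiC', hiC'',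
      hiC3, hQ⟩ := hu
    refine ⟨![i, i', i'', i3], ?_, ?_, ?_⟩
    · intro j j' hj
      fin_cases j <;> fin_cases j' <;> first | rfl | (exfalso; simp at hj; omega)
    · intro j
      fin_cases j
      · exact ⟨hi, hiC⟩
      · exact ⟨hi', hiC'⟩
      · exact ⟨hi'', hiC''⟩
      · exact ⟨hi3, hiC3⟩
    rw [Finset.mem_image]
    refine ⟨_, hQ, ?_⟩
    congr 1
    funext j
    fin_cases j <;> rfl
  · have hf := fac_nonneg (P := P)
    apply mul_le_mul_of_nonneg_left _ (by positivity)
    apply mul_le_mul_of_nonneg_left _ (by positivity)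
    exact_mod_cast Finset.card_image_le

end Rest
end Pool.Agent.Grid3D
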