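import Pool.Agent.Grid3D.A2Count

/-!
Rule (A2): the two counting statements for pairs of vertex sets.
-/

set_option autoImplicit false

open Classical Finset

noncomputable section

namespace Pool.Agent.Grid3D.RuleA2

open A2

/-- the sets of the first kind: admissible pairs -/
def SB (G : SimpleGraph ℕ) (s : ℕ) : Finset (Finset ℕ) := (adm G s).image (fun p => {p.1, p.2})

/-- the sets of the second kind: back neighbours of degree at most `D` -/
def SA (G : SimpleGraph ℕ) (n D : ℕ) (s : ℕ) : Finset (Finset ℕ) :=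
  ((bn G s).filter (fun d => (nb G n d).card ≤ D)).image (fun d => {d})

theorem SB_spec {G : SimpleGraph ℕ} {s : ℕ} {S : Finset ℕ} (h : S ∈ SB G s) :
    S.card = 2 ∧ ∀ v ∈ S, v < s := by
  obtain ⟨⟨c, d⟩, hp, rfl⟩ := mem_image.1 h
  simp only [adm, mem_filter, mem_product, mem_range] at hp
  obtain ⟨⟨hc, hd⟩, hcd, _⟩ := hp
  refine ⟨card_pair hcd.ne, ?_⟩
  intro v hv
  simp only [mem_insert, mem_singleton] at hv
  rcases hv with rfl | rfl <;> assumption

theorem SA_spec {G : SimpleGraph ℕ} {n D s : ℕ} {S : Finset ℕ} (h : S ∈ SA G n D s) :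
    S.card = 1 ∧ ∀ v ∈ S, v < s := by
  obtain ⟨d, hd, rfl⟩ := mem_image.1 h
  simp only [bn, mem_filter, mem_range] at hd
  exact ⟨card_singleton d, fun v hv => by rw [mem_singleton.1 hv]; exact hd.1.1⟩

theorem SB_card (G : SimpleGraph ℕ) (s : ℕ) : (SB G s).card ≤ (adm G s).card := card_image_le

/-- number of sets `S' ∈ SB r` with `S ∪ S'` of three elements -/
theorem count_three {G : SimpleGraph ℕ} {s r n : ℕ} (hr : r ≤ n) {S : Finset ℕ} (hS : S ∈ SB G s) :
    ((SB G r).filter (fun S' => (S ∪ S').card = 3)).card ≤ 2 * n := by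
  have hsub : (SB G r).filter (fun S' => (S ∪ S').card = 3) ⊆
      (S ×ˢ range n).image (fun q => {q.1, q.2}) := by
    intro S' hS'
    rw [mem_filter] at hS'
    obtain ⟨h1, h2⟩ := hS'
    have hc := (SB_spec hS).1
    have hc' := SB_spec h1
    have hi : (S ∩ S').card = 1 := by
      have := card_union_add_card_inter S S'
      omega
    obtain ⟨v, hv⟩ := card_eq_one.1 hi
    have hvS : v ∈ S ∩ S' := by rw [hv]; exact mem_singleton_self v
    rw [mem_inter] at hvS
    have : (S'.erase v).card = 1 := by rw [card_erase_of_mem hvS.2, hc'.1]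
    obtain ⟨w, hw⟩ := card_eq_one.1 this
    have hwS : w ∈ S' := by
      have : w ∈ S'.erase v := by rw [hw]; exact mem_singleton_self w
      exact mem_of_mem_erase this
    refine mem_image.2 ⟨(v, w), mem_product.2 ⟨hvS.1, mem_range.2 ?_⟩, ?_⟩
    · exact (hc'.2 w hwS).trans_le hr
    · show ({v, w} : Finset ℕ) = S'
      rw [← insert_erase hvS.2, hw]
  refine (card_le_card hsub).trans (card_image_le.trans ?_)
  rw [card_product, card_range, (SB_spec hS).1]

theorem count_two {G : SimpleGraph ℕ} {s r : ℕ} {S : Finset ℕ} (hS : S ∈ SB G s) :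
    ((SB G r).filter (fun S' => (S ∪ S').card = 2)).card ≤ 1 := by
  rw [card_le_one]
  intro a ha b hb
  rw [mem_filter] at ha hb
  have key : ∀ S', S' ∈ SB G r → (S ∪ S').card = 2 → S' = S := by
    intro S' h1 h2
    have e1 : S ∪ S' = S := by
      symm
      apply eq_of_subset_of_card_le subset_union_left
      rw [h2, (SB_spec hS).1]
    have e2 : S' ⊆ S := by rw [← e1]; exact subset_union_right
    exact eq_of_subset_of_card_le e2 (by rw [(SB_spec hS).1, (SB_spec h1).1])
  rw [key a ha.1 ha.2, key b hb.1 hb.2]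

/-- **Count B.** -/
theorem countB (G : SimpleGraph ℕ) (n : ℕ) (f : ℕ → ℝ) (hf : ∀ p, 0 ≤ f p) :
    ∑ s ∈ range n, ∑ r ∈ range (s + 1), ∑ S ∈ SB G s, ∑ S' ∈ SB G r, f (S ∪ S').card ≤
      f 4 * (2 * n * (edg G n).card) ^ 2 + f 3 * (4 * n ^ 3 * (edg G n).card) +
        f 2 * (2 * n ^ 2 * (edg G n).card) := by
  set k : ℝ := ((edg G n).card : ℝ) with hk
  have hadm : ∑ s ∈ range n, ((SB G s).card : ℝ) ≤ 2 * n * k := by
    have h1 : ∑ s ∈ range n, ((SB G s).card : ℝ) ≤ ∑ s ∈ range n, ((adm G s).card : ℝ) :=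
      sum_le_sum fun s _ => by exact_mod_cast SB_card G s
    have h2 := sum_adm G n
    refine h1.trans ?_
    rw [hk]
    exact_mod_cast h2
  have hinner : ∀ s ∈ range n, ∀ r ∈ range (s + 1), ∀ S ∈ SB G s,
      ∑ S' ∈ SB G r, f (S ∪ S').card ≤ f 4 * (SB G r).card + f 3 * (2 * n) + f 2 := by
    intro s hs r hr S hS
    have hrn : r ≤ n := by
      have := mem_range.1 hs; have := mem_range.1 hr; omega
    have hpt : ∀ S' ∈ SB G r, f (S ∪ S').card ≤ f 4 +
        f 3 * (if (S ∪ S').card = 3 then 1 else 0) + f 2 * (if (S ∪ S').card = 2 then 1 else 0) := by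
      intro S' hS'
      have hc := (SB_spec hS).1
      have hc' := (SB_spec hS').1
      have h1 := card_union_le S S'
      have h2 : 2 ≤ (S ∪ S').card := by rw [← hc]; exact card_le_card subset_union_left
      have h3 : (S ∪ S').card = 2 ∨ (S ∪ S').card = 3 ∨ (S ∪ S').card = 4 := by omega
      have := hf 2
      have := hf 3
      have := hf 4
      rcases h3 with h3 | h3 | h3 <;> rw [h3] <;> norm_num <;> linarith
    refine (sum_le_sum hpt).trans ?_
    rw [sum_add_distrib, sum_add_distrib, sum_const, nsmul_eq_mul, ← mul_sum, ← mul_sum,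
      sum_boole, sum_boole]
    have h3 : (((SB G r).filter (fun S' => (S ∪ S').card = 3)).card : ℝ) ≤ 2 * n := by
      exact_mod_cast count_three hrn hS
    have h2 : (((SB G r).filter (fun S' => (S ∪ S').card = 2)).card : ℝ) ≤ 1 := by
      exact_mod_cast count_two hS
    have := mul_le_mul_of_nonneg_left h3 (hf 3)
    have := mul_le_mul_of_nonneg_left h2 (hf 2)
    linarith
  calc ∑ s ∈ range n, ∑ r ∈ range (s + 1), ∑ S ∈ SB G s, ∑ S' ∈ SB G r, f (S ∪ S').card
      ≤ ∑ s ∈ range n, ∑ r ∈ range (s + 1), ∑ S ∈ SB G s,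
          (f 4 * (SB G r).card + f 3 * (2 * n) + f 2) :=
        sum_le_sum fun s hs => sum_le_sum fun r hr => sum_le_sum fun S hS => hinner s hs r hr S hS
    _ ≤ ∑ s ∈ range n, ∑ r ∈ range n, ∑ S ∈ SB G s,
          (f 4 * (SB G r).card + f 3 * (2 * n) + f 2) := by
        refine sum_le_sum fun s hs => ?_
        have hs' := mem_range.1 hs
        refine sum_le_sum_of_subset_of_nonneg (range_subset_range.2 (by omega)) fun r _ _ => ?_
        refine sum_nonneg fun S _ => ?_
        have h2 := hf 2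
        have h3 := hf 3
        have h4 := hf 4
        have e1 : 0 ≤ f 4 * ((SB G r).card : ℝ) := mul_nonneg h4 (Nat.cast_nonneg _)
        have e2 : 0 ≤ f 3 * (2 * (n : ℝ)) := by positivity
        linarith
    _ = (∑ s ∈ range n, ((SB G s).card : ℝ)) * (f 4 * (∑ r ∈ range n, ((SB G r).card : ℝ)) +
          n * (f 3 * (2 * n) + f 2)) := by
        rw [sum_mul]
        refine Finset.sum_congr rfl fun s _ => ?_
        have : ∀ r ∈ range n, ∑ S ∈ SB G s, (f 4 * (SB G r).card + f 3 * (2 * n) + f 2) =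
            (SB G s).card * (f 4 * (SB G r).card + (f 3 * (2 * n) + f 2)) := by
          intro r _
          rw [sum_const, nsmul_eq_mul]
          ring
        rw [Finset.sum_congr rfl this, ← mul_sum, sum_add_distrib, ← mul_sum, sum_const,
          card_range, nsmul_eq_mul]
    _ ≤ (2 * n * k) * (f 4 * (2 * n * k) + n * (f 3 * (2 * n) + f 2)) := by
        have := hf 2
        have := hf 3
        have h4 := hf 4
        have h0 : (0 : ℝ) ≤ ∑ s ∈ range n, ((SB G s).card : ℝ) :=
          sum_nonneg fun s _ => Nat.cast_nonneg _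
        have hk0 : 0 ≤ k := Nat.cast_nonneg _
        refine mul_le_mul hadm ?_ ?_ (by positivity)
        rotate_left
        · have e1 := mul_nonneg h4 h0
          have e2 : (0 : ℝ) ≤ n * (f 3 * (2 * n) + f 2) := by positivity
          linarith
        have := mul_le_mul_of_nonneg_left hadm h4
        linarith
    _ = _ := by ring

/-- **Count A.** -/
theorem countA (G : SimpleGraph ℕ) (n D : ℕ) (f : ℕ → ℝ) (hf : ∀ p, 0 ≤ f p) :
    ∑ s ∈ range n, ∑ r ∈ range (s + 1), ∑ S ∈ SA G n D s, ∑ S' ∈ SA G n D r, f (S ∪ S').card ≤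
      f 2 * ((edg G n).card : ℝ) ^ 2 + f 1 * (2 * D * (edg G n).card) := by
  set k : ℝ := ((edg G n).card : ℝ) with hk
  set L : ℕ → Finset ℕ := fun s => (bn G s).filter (fun d => (nb G n d).card ≤ D) with hL
  have himg : ∀ (s : ℕ) (g : Finset ℕ → ℝ), ∑ S ∈ SA G n D s, g S = ∑ d ∈ L s, g {d} := by
    intro s g
    rw [SA, sum_image]
    intro a _ b _ hab
    exact singleton_injective hab
  have hsumL : ∑ s ∈ range n, ((L s).card : ℝ) ≤ k := by
    have h1 : ∑ s ∈ range n, (L s).card ≤ ∑ s ∈ range n, (bn G s).card :=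
      sum_le_sum fun s _ => card_filter_le _ _
    rw [sum_bn] at h1
    rw [hk]
    exact_mod_cast h1
  have hstep : ∀ s ∈ range n, ∑ r ∈ range (s + 1), ∑ S ∈ SA G n D s, ∑ S' ∈ SA G n D r,
      f (S ∪ S').card ≤ ∑ r ∈ range n, ∑ d ∈ L s, (f 2 * (L r).card + f 1 * (if d ∈ L r then 1 else 0)) := by
    intro s hs
    have hs' := mem_range.1 hs
    refine (sum_le_sum_of_subset_of_nonneg (range_subset_range.2 (by omega : s + 1 ≤ n))
      fun r _ _ => sum_nonneg fun S _ => sum_nonneg fun S' _ => hf _).trans ?_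
    refine sum_le_sum fun r _ => ?_
    rw [himg]
    refine sum_le_sum fun d _ => ?_
    rw [himg]
    have hpt : ∀ d' ∈ L r, f (({d} : Finset ℕ) ∪ {d'}).card ≤ f 2 + f 1 * (if d = d' then 1 else 0) := by
      intro d' _
      have := hf 1
      have := hf 2
      by_cases h : d = d'
      · subst h; simp; linarith
      · have : (({d} : Finset ℕ) ∪ {d'}).card = 2 := by
          have : ({d} : Finset ℕ) ∪ {d'} = {d, d'} := rfl
          rw [this]; exact card_pair h
        rw [this, if_neg h]; linarith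
    refine (sum_le_sum hpt).trans (le_of_eq ?_)
    rw [sum_add_distrib, sum_const, nsmul_eq_mul, ← mul_sum, sum_ite_eq]
    ring
  refine (sum_le_sum hstep).trans ?_
  have hsplit : ∑ s ∈ range n, ∑ r ∈ range n, ∑ d ∈ L s,
      (f 2 * (L r).card + f 1 * (if d ∈ L r then (1:ℝ) else 0)) =
      f 2 * ((∑ s ∈ range n, ((L s).card : ℝ)) * (∑ r ∈ range n, ((L r).card : ℝ))) +
      f 1 * ∑ s ∈ range n, ∑ r ∈ range n, ∑ d ∈ L s, (if d ∈ L r then (1:ℝ) else 0) := by
    rw [sum_mul_sum, mul_sum, mul_sum, ← sum_add_distrib]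
    refine Finset.sum_congr rfl fun s _ => ?_
    rw [mul_sum, mul_sum, ← sum_add_distrib]
    refine Finset.sum_congr rfl fun r _ => ?_
    rw [mul_sum, sum_add_distrib, sum_const, nsmul_eq_mul]
    ring
  rw [hsplit]
  have h0 : (0 : ℝ) ≤ ∑ s ∈ range n, ((L s).card : ℝ) := sum_nonneg fun s _ => Nat.cast_nonneg _
  have hfirst : (∑ s ∈ range n, ((L s).card : ℝ)) * (∑ r ∈ range n, ((L r).card : ℝ)) ≤ k ^ 2 := by
    rw [sq]
    exact mul_le_mul hsumL hsumL h0 (Nat.cast_nonneg _)
  have hsecond : ∑ s ∈ range n, ∑ r ∈ range n, ∑ d ∈ L s, (if d ∈ L r then (1:ℝ) else 0) ≤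
      2 * D * k := by
    have e1 : ∑ s ∈ range n, ∑ r ∈ range n, ∑ d ∈ L s, (if d ∈ L r then (1:ℝ) else 0) =
        ∑ s ∈ range n, ∑ r ∈ range n, ∑ d ∈ (range n).filter (fun v => (nb G n v).card ≤ D),
          (if d ∈ L s then (1:ℝ) else 0) * (if d ∈ L r then (1:ℝ) else 0) := by
      refine Finset.sum_congr rfl fun s hs => Finset.sum_congr rfl fun r hr => ?_
      rw [← Finset.sum_filter_add_sum_filter_not ((range n).filter (fun v => (nb G n v).card ≤ D))
        (fun d => d ∈ L s)]
      have z : ∑ d ∈ ((range n).filter (fun v => (nb G n v).card ≤ D)).filter (fun d => ¬ d ∈ L s),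
          (if d ∈ L s then (1:ℝ) else 0) * (if d ∈ L r then (1:ℝ) else 0) = 0 := by
        refine Finset.sum_eq_zero fun d hd => ?_
        rw [if_neg (mem_filter.1 hd).2, zero_mul]
      rw [z, add_zero]
      have e : ((range n).filter (fun v => (nb G n v).card ≤ D)).filter (fun d => d ∈ L s) = L s := by
        ext d
        have hs' := mem_range.1 hs
        simp only [hL, bn, mem_filter, mem_range]
        constructor
        · rintro ⟨_, h⟩; exact h
        · rintro ⟨⟨h1, h2⟩, h3⟩; exact ⟨⟨by omega, h3⟩, ⟨h1, h2⟩, h3⟩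
      rw [e]
      refine Finset.sum_congr rfl fun d hd => ?_
      rw [if_pos hd, one_mul]
    have e2 : ∑ s ∈ range n, ∑ r ∈ range n, ∑ d ∈ (range n).filter (fun v => (nb G n v).card ≤ D),
          (if d ∈ L s then (1:ℝ) else 0) * (if d ∈ L r then (1:ℝ) else 0) =
        ∑ d ∈ (range n).filter (fun v => (nb G n v).card ≤ D),
          (∑ s ∈ range n, (if d ∈ L s then (1:ℝ) else 0)) ^ 2 := by
      have : ∀ s ∈ range n, ∑ r ∈ range n,
          ∑ d ∈ (range n).filter (fun v => (nb G n v).card ≤ D),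
          (if d ∈ L s then (1:ℝ) else 0) * (if d ∈ L r then (1:ℝ) else 0) =
          ∑ d ∈ (range n).filter (fun v => (nb G n v).card ≤ D), ∑ r ∈ range n,
          (if d ∈ L s then (1:ℝ) else 0) * (if d ∈ L r then (1:ℝ) else 0) := fun s _ => sum_comm
      rw [Finset.sum_congr rfl this, sum_comm]
      refine Finset.sum_congr rfl fun d _ => ?_
      rw [sq, sum_mul_sum]
    rw [e1, e2]
    have h3 : ∑ d ∈ (range n).filter (fun v => (nb G n v).card ≤ D),
          (∑ s ∈ range n, (if d ∈ L s then (1:ℝ) else 0)) ^ 2 ≤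
        ∑ d ∈ (range n).filter (fun v => (nb G n v).card ≤ D), ((nb G n d).card : ℝ) ^ 2 := by
      refine sum_le_sum fun d _ => ?_
      refine pow_le_pow_left₀ (sum_nonneg fun s _ => by split_ifs <;> norm_num) ?_ 2
      rw [sum_boole]
      have : (range n).filter (fun s => d ∈ L s) ⊆ nb G n d := by
        intro s hs
        rw [mem_filter] at hs
        obtain ⟨hs1, hs2⟩ := hs
        simp only [hL, bn, mem_filter, mem_range] at hs2
        rw [nb, mem_filter]
        exact ⟨hs1, hs2.1.2.symm⟩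
      exact_mod_cast card_le_card this
    refine h3.trans ?_
    have := sum_sq_low G n D
    rw [hk]
    exact_mod_cast this
  have := mul_le_mul_of_nonneg_left hfirst (hf 2)
  have := mul_le_mul_of_nonneg_left hsecond (hf 1)
  linarith

end Pool.Agent.Grid3D.RuleA2
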