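import Pool.Agent.Grid3D.RuleA2Moment
import Pool.Agent.Grid3D.RuleA2Comb

set_option autoImplicit false

open Classical Finset

noncomputable section

namespace Pool.Agent.Grid3D.RuleA2

open A2

theorem mem_plane {N : ℕ} {m : Pt} {c : ℤ} {x : Pt} :
    x ∈ plane N m c ↔ x ∈ box N ∧ dot m x = c := by
  rw [plane, mem_filter]

theorem le_yy (P : Params) (m : Pt) (c : ℤ) (𝒮 : ℕ → Finset (Finset ℕ)) (r : ℕ) (ω : ℕ → Pt)
    (h : P.admP r ω m c → ∃ S ∈ 𝒮 r, ∀ v ∈ S, ω v ∈ plane P.N m c) :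
    P.phP r ω m c ≤ yy P (plane P.N m c) 𝒮 r ω := by
  rw [P.phP_eq]
  split_ifs with hadm
  · obtain ⟨S, hS, hv⟩ := h hadm
    have h1 : (1 : ℝ) ≤ ∑ S ∈ 𝒮 r, ind (plane P.N m c) S ω := by
      have e1 : ind (plane P.N m c) S ω = 1 := if_pos hv
      rw [← e1]
      exact single_le_sum (f := fun S => ind (plane P.N m c) S ω) (fun S _ => ind_nonneg _ _ _) hS
    have h2 : 0 ≤ 2 / P.V * ∑ u ∈ plane P.N m c, P.wa r ω u := by
      have := P.V_pos
      exact mul_nonneg (by positivity) (sum_nonneg fun u _ => P.wa_nonneg _ _ _)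
    unfold yy
    nlinarith
  · exact yy_nonneg _ _ _ _ _

theorem caseB {P : Params} {n : ℕ} {C : ℝ} {m : Pt} {c : ℤ} {x : Pt} {B : ℕ}
    (H : Hyp P n C (plane P.N m c) x B) (κ : ℝ) (hκ : 0 < κ) :
    ∑ s ∈ range n, P.ex s (fun ω => P.wab s ω x *
      (if κ < ∑ r ∈ range (s + 1), P.phP r ω m c then 1 else 0)) ≤
      2 / κ ^ 2 * ((2 / P.V) ^ 2 *
        (F P C (plane P.N m c) B 2 4 * (2 * n * (edg P.G n).card) ^ 2 +
         F P C (plane P.N m c) B 2 3 * (4 * n ^ 3 * (edg P.G n).card) +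
         F P C (plane P.N m c) B 2 2 * (2 * n ^ 2 * (edg P.G n).card))) := by
  have hV := P.V_pos
  have h1 : ∑ s ∈ range n, P.ex s (fun ω => P.wab s ω x *
      (if κ < ∑ r ∈ range (s + 1), P.phP r ω m c then 1 else 0)) ≤
      ∑ s ∈ range n, P.ex s (fun ω => P.wab s ω x *
      (if κ < ∑ r ∈ range (s + 1), yy P (plane P.N m c) (SB P.G) r ω then 1 else 0)) := by
    refine sum_le_sum fun s _ => P.ex_mono fun ω hω => ?_
    refine mul_le_mul_of_nonneg_left ?_ (P.wab_nonneg _ _ _)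
    have hle : ∑ r ∈ range (s + 1), P.phP r ω m c ≤
        ∑ r ∈ range (s + 1), yy P (plane P.N m c) (SB P.G) r ω := by
      refine sum_le_sum fun r hr => le_yy P m c _ r ω ?_
      rintro ⟨a, b, ⟨ha, hb, hab, hadm⟩, hda, hdb⟩
      have hr' := mem_range.1 hr
      have hpa : ω a ∈ plane P.N m c := mem_plane.2 ⟨P.mem_box_of_alive hω (by omega), hda⟩
      have hpb : ω b ∈ plane P.N m c := mem_plane.2 ⟨P.mem_box_of_alive hω (by omega), hdb⟩
      refine ⟨{a, b}, ?_, ?_⟩
      · rcases lt_or_gt_of_ne hab with h | h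
        · exact mem_image.2 ⟨(a, b), by simp [adm, ha, hb, h, hadm], rfl⟩
        · refine mem_image.2 ⟨(b, a), ?_, pair_comm b a⟩
          simp only [adm, mem_filter, mem_product, mem_range]
          refine ⟨⟨hb, ha⟩, h, ?_⟩
          rcases hadm with h | h | h
          · exact Or.inl h.symm
          · exact Or.inr (Or.inr h)
          · exact Or.inr (Or.inl h)
      · intro v hv
        simp only [mem_insert, mem_singleton] at hv
        rcases hv with rfl | rfl
        · exact hpa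
        · exact hpb
    split_ifs with h1 h2
    · exact le_rfl
    · exact absurd (h1.trans_le hle) h2
    · norm_num
    · exact le_rfl
  refine h1.trans ((second_moment H (SB P.G) (fun s S hS => (SB_spec hS).2)
    (fun s S hS => (SB_spec hS).1.le) κ hκ).trans ?_)
  refine mul_le_mul_of_nonneg_left (mul_le_mul_of_nonneg_left ?_ (by positivity)) (by positivity)
  exact countB P.G n (fun p => F P C (plane P.N m c) B 2 p) (fun p => F_nonneg P C H.hC _ _ _ _)

/-- first moments: `Y_s = Σ_{S ∈ 𝒮 d, d < s} 1(S ⊆ π)` -/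
theorem first_moment {P : Params} {n : ℕ} {C : ℝ} {π : Finset Pt} {x : Pt} {B : ℕ}
    (H : Hyp P n C π x B) (𝒮 : ℕ → Finset (Finset ℕ)) (p : ℕ) (hp : p ≤ 6)
    (h𝒮 : ∀ d, ∀ S ∈ 𝒮 d, ∀ v ∈ S, v < d + 1) (hcard : ∀ d, ∀ S ∈ 𝒮 d, S.card = p) :
    ∑ s ∈ range n, P.ex s (fun ω => P.wab s ω x * ∑ d ∈ range s, ∑ S ∈ 𝒮 d, ind π S ω) ≤
      (∑ d ∈ range n, ((𝒮 d).card : ℝ)) * F P C π B 0 p := by
  set y : ℕ → (ℕ → Pt) → ℝ := fun s ω => match s with
    | 0 => 0
    | d + 1 => ∑ S ∈ 𝒮 d, ind π S ω with hy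
  have hsum : ∀ s ω, ∑ d ∈ range s, ∑ S ∈ 𝒮 d, ind π S ω = ∑ r ∈ range (s + 1), y r ω := by
    intro s ω
    rw [sum_range_succ' (fun r => y r ω) s]
    simp [hy]
  simp_rw [hsum]
  have hpred : ∀ s, Pred s (y s) := by
    intro s
    rcases s with _ | d
    · intro ω ω' _; rfl
    · intro ω ω' h
      show ∑ S ∈ 𝒮 d, ind π S ω = ∑ S ∈ 𝒮 d, ind π S ω'
      exact Finset.sum_congr rfl fun S hS => ind_pred π S (d + 1) (h𝒮 d S hS) ω ω' h
  have hnn : ∀ s ω, P.Alive s ω → 0 ≤ y s ω := by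
    intro s ω _
    rcases s with _ | d
    · exact le_rfl
    · exact sum_nonneg fun S _ => ind_nonneg _ _ _
  refine (P.aband_le n x y hpred hnn).trans ?_
  have hF := F_nonneg P C H.hC π B 0 p
  rcases n with _ | n
  · simp
  rw [sum_range_succ']
  have h0 : P.ex 0 (fun ω => P.wa 0 ω x * y 0 ω) ≤ 0 := by
    have : (fun ω => P.wa 0 ω x * y 0 ω) = fun _ => 0 := by
      funext ω; simp [hy]
    rw [this, P.ex_zero_fun]
  have h1 : ∑ k ∈ range n, P.ex (k + 1) (fun ω => P.wa (k + 1) ω x * y (k + 1) ω) ≤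
      ∑ k ∈ range n, ((𝒮 k).card : ℝ) * F P C π B 0 p := by
    refine sum_le_sum fun d hd => ?_
    have hd' := mem_range.1 hd
    have e1 : (fun ω => P.wa (d + 1) ω x * y (d + 1) ω) =
        fun ω => ∑ S ∈ 𝒮 d, P.wa (d + 1) ω x * ind π S ω := by
      funext ω
      rw [← mul_sum]
    rw [e1, P.ex_sum, ← nsmul_eq_mul]
    refine sum_le_card_nsmul _ _ _ fun S hS => ?_
    have := single_term H (d + 1) (by omega) S (h𝒮 d S hS) (by rw [hcard d S hS]; exact hp)
    rw [hcard d S hS] at this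
    exact this
  rw [sum_range_succ, add_mul, sum_mul]
  have h2 : 0 ≤ ((𝒮 n).card : ℝ) * F P C π B 0 p := mul_nonneg (Nat.cast_nonneg _) hF
  linarith

theorem caseA {P : Params} {n : ℕ} {C : ℝ} {m : Pt} {c : ℤ} {x : Pt} {B : ℕ}
    (H : Hyp P n C (plane P.N m c) x B) (κ : ℝ) (hκ : 0 < κ) (D : ℕ) :
    ∑ s ∈ range n, P.ex s (fun ω => P.wab s ω x *
      (if κ < ∑ r ∈ range (s + 1), P.phP r ω m c then 1 else 0)) ≤
      ((edg P.G n).card : ℝ) * F P C (plane P.N m c) B 0 2 +
      (((range n).filter (fun v => D < (nb P.G n v).card)).card : ℝ) *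
        F P C (plane P.N m c) B 0 1 +
      2 / κ ^ 2 * ((2 / P.V) ^ 2 *
        (F P C (plane P.N m c) B 2 2 * ((edg P.G n).card : ℝ) ^ 2 +
         F P C (plane P.N m c) B 2 1 * (2 * D * (edg P.G n).card))) := by
  have hV := P.V_pos
  set π := plane P.N m c with hπ
  set 𝒮1 : ℕ → Finset (Finset ℕ) := fun d => (bn P.G d).image (fun c => {c, d}) with h𝒮1
  set 𝒮2 : ℕ → Finset (Finset ℕ) := fun d => if D < (nb P.G n d).card then {{d}} else ∅ with h𝒮2
  have h1 : ∑ s ∈ range n, P.ex s (fun ω => P.wab s ω x *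
      (if κ < ∑ r ∈ range (s + 1), P.phP r ω m c then 1 else 0)) ≤
      ∑ s ∈ range n, (P.ex s (fun ω => P.wab s ω x * ∑ d ∈ range s, ∑ S ∈ 𝒮1 d, ind π S ω) +
        P.ex s (fun ω => P.wab s ω x * ∑ d ∈ range s, ∑ S ∈ 𝒮2 d, ind π S ω) +
        P.ex s (fun ω => P.wab s ω x *
          (if κ < ∑ r ∈ range (s + 1), yy P π (SA P.G n D) r ω then 1 else 0))) := by
    refine sum_le_sum fun s hs => ?_
    have hsn := mem_range.1 hs
    rw [← P.ex_add, ← P.ex_add]
    refine P.ex_mono fun ω hω => ?_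
    rw [← mul_add, ← mul_add]
    refine mul_le_mul_of_nonneg_left ?_ (P.wab_nonneg _ _ _)
    have g1 : 0 ≤ ∑ d ∈ range s, ∑ S ∈ 𝒮1 d, ind π S ω :=
      sum_nonneg fun d _ => sum_nonneg fun S _ => ind_nonneg _ _ _
    have g2 : 0 ≤ ∑ d ∈ range s, ∑ S ∈ 𝒮2 d, ind π S ω :=
      sum_nonneg fun d _ => sum_nonneg fun S _ => ind_nonneg _ _ _
    have g3 : (0 : ℝ) ≤ (if κ < ∑ r ∈ range (s + 1), yy P π (SA P.G n D) r ω then 1 else 0) := by
      split_ifs <;> norm_num
    by_cases hE1 : ∃ d < s, ∃ c' ∈ bn P.G d, ω c' ∈ π ∧ ω d ∈ π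
    · obtain ⟨d, hd, c', hc', hcπ, hdπ⟩ := hE1
      have e1 : (1 : ℝ) ≤ ∑ d ∈ range s, ∑ S ∈ 𝒮1 d, ind π S ω := by
        have e2 : ind π {c', d} ω = 1 := by
          refine if_pos ?_
          intro v hv
          simp only [mem_insert, mem_singleton] at hv
          rcases hv with rfl | rfl
          · exact hcπ
          · exact hdπ
        have e3 : ind π {c', d} ω ≤ ∑ S ∈ 𝒮1 d, ind π S ω :=
          single_le_sum (f := fun S => ind π S ω) (fun S _ => ind_nonneg _ _ _)
            (mem_image.2 ⟨c', hc', rfl⟩)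
        have e4 : ∑ S ∈ 𝒮1 d, ind π S ω ≤ ∑ d ∈ range s, ∑ S ∈ 𝒮1 d, ind π S ω :=
          single_le_sum (f := fun d => ∑ S ∈ 𝒮1 d, ind π S ω)
            (fun d _ => sum_nonneg fun S _ => ind_nonneg _ _ _) (mem_range.2 hd)
        rw [e2] at e3
        exact e3.trans e4
      split_ifs <;> linarith
    · by_cases hE2 : ∃ d < s, D < (nb P.G n d).card ∧ ω d ∈ π
      · obtain ⟨d, hd, hD, hdπ⟩ := hE2
        have e1 : (1 : ℝ) ≤ ∑ d ∈ range s, ∑ S ∈ 𝒮2 d, ind π S ω := by
          have e2 : ∑ S ∈ 𝒮2 d, ind π S ω = 1 := by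
            simp only [h𝒮2]
            rw [if_pos hD, sum_singleton]
            refine if_pos ?_
            intro v hv
            rw [mem_singleton.1 hv]
            exact hdπ
          have e4 : ∑ S ∈ 𝒮2 d, ind π S ω ≤ ∑ d ∈ range s, ∑ S ∈ 𝒮2 d, ind π S ω :=
            single_le_sum (f := fun d => ∑ S ∈ 𝒮2 d, ind π S ω)
              (fun d _ => sum_nonneg fun S _ => ind_nonneg _ _ _) (mem_range.2 hd)
          rw [e2] at e4
          exact e4
        split_ifs <;> linarith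
      · have hle : ∑ r ∈ range (s + 1), P.phP r ω m c ≤
            ∑ r ∈ range (s + 1), yy P π (SA P.G n D) r ω := by
          refine sum_le_sum fun r hr => le_yy P m c _ r ω ?_
          rintro ⟨a, b, ⟨ha, hb, hab, hadm⟩, hda, hdb⟩
          have hr' := mem_range.1 hr
          have hpa : ω a ∈ π := mem_plane.2 ⟨P.mem_box_of_alive hω (by omega), hda⟩
          have hpb : ω b ∈ π := mem_plane.2 ⟨P.mem_box_of_alive hω (by omega), hdb⟩
          have hnE : ¬ P.G.Adj a b := by
            intro hadj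
            apply hE1
            rcases lt_or_gt_of_ne hab with h | h
            · exact ⟨b, by omega, a, mem_filter.2 ⟨mem_range.2 h, hadj⟩, hpa, hpb⟩
            · exact ⟨a, by omega, b, mem_filter.2 ⟨mem_range.2 h, hadj.symm⟩, hpb, hpa⟩
          have key : ∀ v, v < r → ω v ∈ π → P.G.Adj r v →
              ∃ S ∈ SA P.G n D r, ∀ v ∈ S, ω v ∈ plane P.N m c := by
            intro v hv hvπ hadj
            refine ⟨{v}, mem_image.2 ⟨v, mem_filter.2 ⟨mem_filter.2 ⟨mem_range.2 hv, hadj.symm⟩, ?_⟩,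
              rfl⟩, ?_⟩
            · by_contra hcon
              exact hE2 ⟨v, by omega, not_le.1 hcon, hvπ⟩
            · intro w hw
              rw [mem_singleton.1 hw]
              exact hvπ
          rcases hadm with h | h | h
          · exact absurd h hnE
          · exact key a ha hpa h
          · exact key b hb hpb h
        have g4 : (if κ < ∑ r ∈ range (s + 1), P.phP r ω m c then (1 : ℝ) else 0) ≤
            (if κ < ∑ r ∈ range (s + 1), yy P π (SA P.G n D) r ω then 1 else 0) := by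
          split_ifs with h1 h2
          · exact le_rfl
          · exact absurd (h1.trans_le hle) h2
          · norm_num
          · exact le_rfl
        linarith
  refine h1.trans ?_
  rw [sum_add_distrib, sum_add_distrib]
  refine add_le_add (add_le_add ?_ ?_) ?_
  · refine (first_moment H 𝒮1 2 (by norm_num) ?_ ?_).trans ?_
    · intro d S hS v hv
      obtain ⟨c', hc', rfl⟩ := mem_image.1 hS
      have := mem_range.1 (mem_filter.1 hc').1
      simp only [mem_insert, mem_singleton] at hv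
      rcases hv with rfl | rfl <;> omega
    · intro d S hS
      obtain ⟨c', hc', rfl⟩ := mem_image.1 hS
      have := mem_range.1 (mem_filter.1 hc').1
      exact card_pair (by omega)
    · refine mul_le_mul_of_nonneg_right ?_ (F_nonneg P C H.hC _ _ _ _)
      have e1 : ∑ d ∈ range n, ((𝒮1 d).card : ℝ) ≤ ∑ d ∈ range n, ((bn P.G d).card : ℝ) :=
        sum_le_sum fun d _ => by exact_mod_cast (card_image_le : (𝒮1 d).card ≤ _)
      refine e1.trans (le_of_eq ?_)
      rw [← sum_bn]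
      push_cast
      rfl
  · refine (first_moment H 𝒮2 1 (by norm_num) ?_ ?_).trans ?_
    · intro d S hS v hv
      simp only [h𝒮2] at hS
      split_ifs at hS
      · rw [mem_singleton.1 hS] at hv
        rw [mem_singleton.1 hv]; omega
      · simp at hS
    · intro d S hS
      simp only [h𝒮2] at hS
      split_ifs at hS
      · rw [mem_singleton.1 hS]; rfl
      · simp at hS
    · refine mul_le_mul_of_nonneg_right ?_ (F_nonneg P C H.hC _ _ _ _)
      refine le_of_eq ?_
      rw [card_filter]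
      push_cast
      refine Finset.sum_congr rfl fun d _ => ?_
      simp only [h𝒮2]
      split_ifs <;> simp
  · refine (second_moment H (SA P.G n D) (fun s S hS => (SA_spec hS).2)
      (fun s S hS => by rw [(SA_spec hS).1]; norm_num) κ hκ).trans ?_
    refine mul_le_mul_of_nonneg_left (mul_le_mul_of_nonneg_left ?_ (by positivity)) (by positivity)
    exact countA P.G n D (fun p => F P C π B 2 p) (fun p => F_nonneg P C H.hC _ _ _ _)

end Pool.Agent.Grid3D.RuleA2
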