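import Pool.Agent.Grid3D.RuleA2Tuple

set_option autoImplicit false

open Classical Finset

noncomputable section

namespace Pool.Agent.Grid3D.RuleA2

/-- all vertices of `S` are in `π` -/
def ind (π : Finset Pt) (S : Finset ℕ) (ω : ℕ → Pt) : ℝ := if ∀ v ∈ S, ω v ∈ π then 1 else 0

theorem ind_nonneg (π : Finset Pt) (S : Finset ℕ) (ω : ℕ → Pt) : 0 ≤ ind π S ω := by
  unfold ind; split_ifs <;> norm_num

theorem ind_union (π : Finset Pt) (S S' : Finset ℕ) (ω : ℕ → Pt) :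
    ind π (S ∪ S') ω = ind π S ω * ind π S' ω := by
  unfold ind
  by_cases h : ∀ v ∈ S, ω v ∈ π
  · by_cases h' : ∀ v ∈ S', ω v ∈ π
    · rw [if_pos h, if_pos h', if_pos, one_mul]
      intro v hv
      rcases mem_union.1 hv with hv | hv
      · exact h v hv
      · exact h' v hv
    · rw [if_neg h', mul_zero, if_neg]
      exact fun h2 => h' (fun v hv => h2 v (mem_union_right _ hv))
  · rw [if_neg h, zero_mul, if_neg]
    exact fun h2 => h (fun v hv => h2 v (mem_union_left _ hv))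

theorem ind_pred (π : Finset Pt) (S : Finset ℕ) (s : ℕ) (hS : ∀ v ∈ S, v < s) :
    Pred s (fun ω => ind π S ω) := by
  intro ω ω' h
  have : (∀ v ∈ S, ω v ∈ π) ↔ (∀ v ∈ S, ω' v ∈ π) := by
    constructor
    · intro h1 v hv; rw [← h v (hS v hv)]; exact h1 v hv
    · intro h1 v hv; rw [h v (hS v hv)]; exact h1 v hv
  simp only [ind, this]

theorem ind_eq_prod (P : Params) (π : Finset Pt) (S : Finset ℕ) (ω : ℕ → Pt) :
    ind π S ω = ∏ v : {v // v ∈ S}, ∑ z ∈ π, P.mv z v true ω := by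
  have h1 : ∀ v : {v // v ∈ S}, ∑ z ∈ π, P.mv z v true ω = if ω v ∈ π then 1 else 0 := by
    intro v
    simp [Params.mv]
  simp_rw [h1]
  unfold ind
  by_cases h : ∀ v ∈ S, ω v ∈ π
  · rw [if_pos h]
    symm
    apply Finset.prod_eq_one
    rintro ⟨v, hv⟩ _
    rw [if_pos (h v hv)]
  · rw [if_neg h]
    push Not at h
    obtain ⟨v, hv, hv'⟩ := h
    symm
    apply Finset.prod_eq_zero (mem_univ (⟨v, hv⟩ : {v // v ∈ S}))
    rw [if_neg hv']

/-- the bound given by the tuple lemma with `e` further eval marks and `p` placed marks. -/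
def F (P : Params) (C : ℝ) (π : Finset Pt) (B : ℕ) (e p : ℕ) : ℝ :=
  C * (1 / P.V) ^ p * (π.card : ℝ) ^ (p + e) +
    P.om ^ (e + 1) * (2 * P.om / P.V) ^ p * (36 * (B * (π.card : ℝ) ^ (p + e - 1)))

theorem F_nonneg (P : Params) (C : ℝ) (hC : 0 ≤ C) (π : Finset Pt) (B : ℕ) (e p : ℕ) :
    0 ≤ F P C π B e p := by
  have := P.V_pos
  have := P.one_le_om
  unfold F
  positivity

/-- The standing hypotheses about a plane. -/
structure Hyp (P : Params) (n : ℕ) (C : ℝ) (π : Finset Pt) (x : Pt) (B : ℕ) : Prop where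
  hC : 0 ≤ C
  hMP : MPn P n C
  hπ : π ⊆ box P.N
  hx : x ∈ π
  hB : ∀ a ∈ π, (π.filter (fun b => ¬ Spread P.N a b)).card ≤ B

theorem single_term {P : Params} {n : ℕ} {C : ℝ} {π : Finset Pt} {x : Pt} {B : ℕ}
    (H : Hyp P n C π x B) (s : ℕ) (hs : s ≤ n) (S : Finset ℕ) (hS : ∀ v ∈ S, v < s)
    (hS6 : S.card ≤ 6) :
    P.ex s (fun ω => P.wa s ω x * ind π S ω) ≤ F P C π B 0 S.card := by
  simp_rw [ind_eq_prod P]
  have := tuple_sum P n C H.hC H.hMP (ι := {v // v ∈ S}) (by rw [Fintype.card_coe]; exact hS6)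
    (fun v => (v : ℕ)) (fun _ => true) s hs (fun v => (hS v v.2).le) (fun v _ => hS v v.2)
    (fun i j _ _ h => Subtype.ext h) π H.hπ x H.hx B H.hB 0 S.card (by simp) (by simp)
  refine this.trans (le_of_eq ?_)
  rw [Fintype.card_coe, F, add_zero]

theorem pair_term {P : Params} {n : ℕ} {C : ℝ} {π : Finset Pt} {x : Pt} {B : ℕ}
    (H : Hyp P n C π x B) (s r : ℕ) (hs : s ≤ n) (hr : r ≤ s) (S : Finset ℕ)
    (hS : ∀ v ∈ S, v < s) (hS4 : S.card ≤ 4) :
    P.ex s (fun ω => P.wa s ω x * ((∑ u ∈ π, P.wa s ω u) * (∑ u ∈ π, P.wa r ω u) * ind π S ω)) ≤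
      F P C π B 2 S.card := by
  have := tuple_sum P n C H.hC H.hMP (ι := Bool ⊕ {v // v ∈ S})
    (by rw [Fintype.card_sum, Fintype.card_coe, Fintype.card_bool]; omega)
    (Sum.elim (fun b => if b then s else r) Subtype.val)
    (Sum.elim (fun _ => false) (fun _ => true)) s hs
    (by
      rintro (b | v)
      · cases b <;> simp [hr]
      · exact (hS v v.2).le)
    (by
      rintro (b | v) h
      · simp at h
      · exact hS v v.2)
    (by
      rintro (b | v) (b' | v') h1 h2 h3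
      · simp at h1
      · simp at h1
      · simp at h2
      · exact congrArg Sum.inr (Subtype.ext h3))
    π H.hπ x H.hx B H.hB 2 S.card
    (by
      have : (univ.filter (fun i : Bool ⊕ {v // v ∈ S} =>
          Sum.elim (fun _ => false) (fun _ => true) i = false)) =
          (univ : Finset Bool).map ⟨Sum.inl, Sum.inl_injective⟩ := by
        ext i
        rcases i with i | i <;> simp
      rw [this, card_map]; rfl)
    (by
      have : (univ.filter (fun i : Bool ⊕ {v // v ∈ S} =>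
          Sum.elim (fun _ => false) (fun _ => true) i = true)) =
          (univ : Finset {v // v ∈ S}).map ⟨Sum.inr, Sum.inr_injective⟩ := by
        ext i
        rcases i with i | i <;> simp
      rw [this, card_map, card_univ, Fintype.card_coe])
  have h2 : (fun ω => P.wa s ω x * ((∑ u ∈ π, P.wa s ω u) * (∑ u ∈ π, P.wa r ω u) * ind π S ω)) =
      (fun ω => P.wa s ω x * ∏ i : Bool ⊕ {v // v ∈ S}, ∑ a ∈ π,
        P.mv a (Sum.elim (fun b => if b then s else r) Subtype.val i)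
          (Sum.elim (fun _ => false) (fun _ => true) i) ω) := by
    funext ω
    rw [Fintype.prod_sum_type, ind_eq_prod P, Fintype.prod_bool]
    have mvf : ∀ a t, P.mv a t false ω = P.wa t ω a := fun a t => by simp [Params.mv]
    simp only [Sum.elim_inl, Sum.elim_inr, mvf, if_true, Bool.false_eq_true, if_false]
  rw [h2]
  refine this.trans (le_of_eq ?_)
  rw [Fintype.card_sum, Fintype.card_coe, Fintype.card_bool, F, add_comm 2 S.card]

/-- **Second moment lemma.**  `y_s = (2/V) w_s(π) Σ_{S ∈ 𝒮 s} 1(S ⊆ π)`. -/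
def yy (P : Params) (π : Finset Pt) (𝒮 : ℕ → Finset (Finset ℕ)) (s : ℕ) (ω : ℕ → Pt) : ℝ :=
  2 / P.V * (∑ u ∈ π, P.wa s ω u) * ∑ S ∈ 𝒮 s, ind π S ω

theorem yy_nonneg (P : Params) (π : Finset Pt) (𝒮 : ℕ → Finset (Finset ℕ)) (s : ℕ) (ω : ℕ → Pt) :
    0 ≤ yy P π 𝒮 s ω := by
  have := P.V_pos
  unfold yy
  refine mul_nonneg (mul_nonneg (by positivity) (sum_nonneg (fun u _ => P.wa_nonneg _ _ _)))
    (sum_nonneg (fun S _ => ind_nonneg _ _ _))

theorem yy_pred (P : Params) (π : Finset Pt) (𝒮 : ℕ → Finset (Finset ℕ)) (s : ℕ)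
    (h𝒮 : ∀ S ∈ 𝒮 s, ∀ v ∈ S, v < s) : Pred s (yy P π 𝒮 s) := by
  intro ω ω' h
  unfold yy
  congr 1
  · congr 1
    refine sum_congr rfl (fun u _ => P.pred_wa s u ω ω' h)
  · refine sum_congr rfl (fun S hS => ind_pred π S s (h𝒮 S hS) ω ω' h)

theorem sq_eq_sum (y : ℕ → ℝ) (s : ℕ) :
    (∑ r ∈ range (s + 1), y r) ^ 2 =
      ∑ r ∈ range (s + 1), y r * (2 * (∑ q ∈ range r, y q) + y r) := by
  induction s with
  | zero => simp; ring
  | succ s ih =>
    rw [sum_range_succ (fun r => y r * (2 * (∑ q ∈ range r, y q) + y r)) (s + 1), ← ih,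
      sum_range_succ y (s + 1)]
    ring

theorem second_moment {P : Params} {n : ℕ} {C : ℝ} {π : Finset Pt} {x : Pt} {B : ℕ}
    (H : Hyp P n C π x B) (𝒮 : ℕ → Finset (Finset ℕ))
    (h𝒮 : ∀ s, ∀ S ∈ 𝒮 s, ∀ v ∈ S, v < s) (h2 : ∀ s, ∀ S ∈ 𝒮 s, S.card ≤ 2) (κ : ℝ) (hκ : 0 < κ) :
    ∑ s ∈ range n, P.ex s (fun ω => P.wab s ω x *
      (if κ < ∑ r ∈ range (s + 1), yy P π 𝒮 r ω then 1 else 0)) ≤
      2 / κ ^ 2 * ((2 / P.V) ^ 2 * ∑ s ∈ range n, ∑ r ∈ range (s + 1),
        ∑ S ∈ 𝒮 s, ∑ S' ∈ 𝒮 r, F P C π B 2 (S ∪ S').card) := by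
  have hV := P.V_pos
  -- the increments of the square
  set z : ℕ → (ℕ → Pt) → ℝ := fun r ω =>
    yy P π 𝒮 r ω * (2 * (∑ q ∈ range r, yy P π 𝒮 q ω) + yy P π 𝒮 r ω) with hz
  have hzpred : ∀ s, Pred s (z s) := by
    intro s ω ω' h
    have e1 := yy_pred P π 𝒮 s (h𝒮 s) ω ω' h
    have e2 : ∑ q ∈ range s, yy P π 𝒮 q ω = ∑ q ∈ range s, yy P π 𝒮 q ω' := by
      refine sum_congr rfl (fun q hq => yy_pred P π 𝒮 q (h𝒮 q) ω ω' (fun i hi => h i ?_))
      exact hi.trans (mem_range.1 hq)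
    simp only [hz, e1, e2]
  have hznn : ∀ s ω, P.Alive s ω → 0 ≤ z s ω := by
    intro s ω _
    have := yy_nonneg P π 𝒮 s ω
    have h3 : 0 ≤ ∑ q ∈ range s, yy P π 𝒮 q ω := sum_nonneg (fun q _ => yy_nonneg _ _ _ _ _)
    simp only [hz]
    positivity
  have h3 : ∑ s ∈ range n, P.ex s (fun ω => P.wab s ω x *
      (if κ < ∑ r ∈ range (s + 1), yy P π 𝒮 r ω then 1 else 0)) ≤
      ∑ s ∈ range n, 1 / κ ^ 2 * P.ex s (fun ω => P.wab s ω x * ∑ r ∈ range (s + 1), z r ω) := by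
    refine sum_le_sum (fun s _ => ?_)
    rw [← P.ex_const_mul]
    refine P.ex_mono (fun ω _ => ?_)
    have e0 := P.wab_nonneg s ω x
    have e1 := sq_eq_sum (fun r => yy P π 𝒮 r ω) s
    simp only [hz]
    rw [← e1]
    rw [mul_left_comm]
    refine mul_le_mul_of_nonneg_left ?_ e0
    split_ifs with hlt
    · rw [div_mul_eq_mul_div, one_mul, one_le_div (by positivity)]
      exact pow_le_pow_left₀ hκ.le hlt.le 2
    · positivity
  refine h3.trans ?_
  rw [← mul_sum]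
  have h4 := P.aband_le n x z hzpred hznn
  have h5 : ∑ s ∈ range n, P.ex s (fun ω => P.wa s ω x * z s ω) ≤
      2 * ((2 / P.V) ^ 2 * ∑ s ∈ range n, ∑ r ∈ range (s + 1),
        ∑ S ∈ 𝒮 s, ∑ S' ∈ 𝒮 r, F P C π B 2 (S ∪ S').card) := by
    rw [mul_sum, mul_sum]
    refine sum_le_sum (fun s hs => ?_)
    have hsn : s ≤ n := (mem_range.1 hs).le
    calc P.ex s (fun ω => P.wa s ω x * z s ω)
        ≤ P.ex s (fun ω => 2 * ((2 / P.V) ^ 2 * ∑ r ∈ range (s + 1), ∑ S ∈ 𝒮 s, ∑ S' ∈ 𝒮 r,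
            P.wa s ω x * ((∑ u ∈ π, P.wa s ω u) * (∑ u ∈ π, P.wa r ω u) * ind π (S ∪ S') ω))) := by
          refine P.ex_mono (fun ω _ => ?_)
          have e0 := P.wa_nonneg s ω x
          have e1 : z s ω ≤ 2 * (yy P π 𝒮 s ω * ∑ q ∈ range (s + 1), yy P π 𝒮 q ω) := by
            simp only [hz]
            rw [sum_range_succ]
            have := yy_nonneg P π 𝒮 s ω
            nlinarith [mul_nonneg this this]
          have e2 : yy P π 𝒮 s ω * ∑ q ∈ range (s + 1), yy P π 𝒮 q ω =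
              (2 / P.V) ^ 2 * ∑ r ∈ range (s + 1), ∑ S ∈ 𝒮 s, ∑ S' ∈ 𝒮 r,
              ((∑ u ∈ π, P.wa s ω u) * (∑ u ∈ π, P.wa r ω u) * ind π (S ∪ S') ω) := by
            rw [mul_sum, mul_sum]
            refine sum_congr rfl (fun r _ => ?_)
            have e3 : ∑ S ∈ 𝒮 s, ∑ S' ∈ 𝒮 r,
                ((∑ u ∈ π, P.wa s ω u) * (∑ u ∈ π, P.wa r ω u) * ind π (S ∪ S') ω) =
                (∑ u ∈ π, P.wa s ω u) * (∑ u ∈ π, P.wa r ω u) *
                  ((∑ S ∈ 𝒮 s, ind π S ω) * (∑ S' ∈ 𝒮 r, ind π S' ω)) := by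
              generalize (∑ u ∈ π, P.wa s ω u) * (∑ u ∈ π, P.wa r ω u) = α
              rw [sum_mul_sum, mul_sum]
              refine sum_congr rfl (fun S _ => ?_)
              rw [mul_sum]
              exact sum_congr rfl (fun S' _ => by rw [ind_union])
            rw [e3]
            unfold yy
            ring
          calc P.wa s ω x * z s ω
              ≤ P.wa s ω x * (2 * ((2 / P.V) ^ 2 * ∑ r ∈ range (s + 1), ∑ S ∈ 𝒮 s, ∑ S' ∈ 𝒮 r,
              ((∑ u ∈ π, P.wa s ω u) * (∑ u ∈ π, P.wa r ω u) * ind π (S ∪ S') ω))) := by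
                rw [← e2]
                exact mul_le_mul_of_nonneg_left e1 e0
            _ = _ := by
                simp only [mul_sum]
                refine Finset.sum_congr rfl (fun r _ => ?_)
                refine Finset.sum_congr rfl (fun S _ => ?_)
                refine Finset.sum_congr rfl (fun S' _ => ?_)
                ring
      _ = 2 * ((2 / P.V) ^ 2 * ∑ r ∈ range (s + 1), ∑ S ∈ 𝒮 s, ∑ S' ∈ 𝒮 r,
            P.ex s (fun ω => P.wa s ω x *
              ((∑ u ∈ π, P.wa s ω u) * (∑ u ∈ π, P.wa r ω u) * ind π (S ∪ S') ω))) := by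
          rw [P.ex_const_mul, P.ex_const_mul]
          simp only [P.ex_sum]
      _ ≤ _ := by
          refine mul_le_mul_of_nonneg_left ?_ (by norm_num)
          refine mul_le_mul_of_nonneg_left ?_ (by positivity)
          refine sum_le_sum (fun r hr => sum_le_sum (fun S hS => sum_le_sum (fun S' hS' => ?_)))
          have hrs : r ≤ s := Nat.lt_succ_iff.1 (mem_range.1 hr)
          refine pair_term H s r hsn hrs (S ∪ S') ?_ ?_
          · intro v hv
            rcases mem_union.1 hv with hv | hv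
            · exact h𝒮 s S hS v hv
            · exact (h𝒮 r S' hS' v hv).trans_le hrs
          · refine (card_union_le _ _).trans ?_
            have := h2 s S hS
            have := h2 r S' hS'
            omega
  calc 1 / κ ^ 2 * ∑ s ∈ range n, P.ex s (fun ω => P.wab s ω x * ∑ r ∈ range (s + 1), z r ω)
      ≤ 1 / κ ^ 2 * (2 * ((2 / P.V) ^ 2 * ∑ s ∈ range n, ∑ r ∈ range (s + 1),
        ∑ S ∈ 𝒮 s, ∑ S' ∈ 𝒮 r, F P C π B 2 (S ∪ S').card)) :=
        mul_le_mul_of_nonneg_left (h4.trans h5) (by positivity)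
    _ = _ := by ring

end Pool.Agent.Grid3D.RuleA2
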