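import Pool.Agent.Grid3D.Regime1Spec
import Pool.Agent.Grid3D.Geo2

set_option autoImplicit false

open Classical Finset

noncomputable section

namespace Pool.Agent.Grid3D.RuleA2

theorem content_neg (v : Pt) : content (-v) = content v := by
  simp [content]

theorem dirN_comm (a b : Pt) : dirN a b = dirN b a := by
  have h : a - b = -(b - a) := by abel
  rw [dirN, dirN, h, Geo2.nrm_neg, content_neg]

theorem Spread.symm' {N : ℕ} {a b : Pt} (h : Spread N a b) : Spread N b a := by
  rw [Spread, dirN_comm]; exact h

/-- a coordinate restricted to a small set depending on the other coordinates -/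
theorem card_bad {ι : Type} [Fintype ι] (π : Finset Pt) (B : ℕ) (j : ι)
    (Bad : (ι → Pt) → Pt → Prop)
    (hdep : ∀ a a', (∀ i, i ≠ j → a i = a' i) → Bad a = Bad a')
    (hB : ∀ a ∈ Fintype.piFinset (fun _ : ι => π), (π.filter (Bad a)).card ≤ B) :
    ((Fintype.piFinset (fun _ : ι => π)).filter (fun a => Bad a (a j))).card ≤
      B * π.card ^ (Fintype.card ι - 1) := by
  set S := (Fintype.piFinset (fun _ : ι => π)).filter (fun a => Bad a (a j)) with hS
  have h1 : S.card ≤ B * (S.image (fun a => Function.update a j 0)).card := by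
    apply Finset.card_le_mul_card_image
    intro b hb
    obtain ⟨a0, ha0, rfl⟩ := mem_image.1 hb
    have ha0' : a0 ∈ Fintype.piFinset (fun _ : ι => π) := (mem_filter.1 ha0).1
    refine le_trans ?_ (hB a0 ha0')
    refine Finset.card_le_card_of_injOn (fun a => a j) ?_ ?_
    · intro a ha
      simp only [coe_filter, Set.mem_ofPred_eq] at ha
      obtain ⟨haS, hau⟩ := ha
      have hBad : Bad a = Bad a0 := hdep a a0 (fun i hi => by
        have := congrFun hau i
        simpa [Function.update_of_ne hi] using this)
      rw [hS, mem_filter] at haS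
      simp only [coe_filter, Set.mem_ofPred_eq]
      exact ⟨Fintype.mem_piFinset.1 haS.1 j, hBad ▸ haS.2⟩
    · intro a ha a' ha' haa
      simp only [coe_filter, Set.mem_ofPred_eq] at ha ha'
      funext i
      by_cases hi : i = j
      · subst hi; exact haa
      · have := congrFun (ha.2.trans ha'.2.symm) i
        simpa [Function.update_of_ne hi] using this
  refine h1.trans (Nat.mul_le_mul_left _ ?_)
  have h2 : S.image (fun a => Function.update a j 0) ⊆
      Fintype.piFinset (fun i => if i = j then ({0} : Finset Pt) else π) := by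
    intro b hb
    obtain ⟨a, ha, rfl⟩ := mem_image.1 hb
    rw [Fintype.mem_piFinset]
    intro i
    by_cases hi : i = j
    · subst hi; simp
    · rw [Function.update_of_ne hi, if_neg hi]
      exact Fintype.mem_piFinset.1 (mem_filter.1 ha).1 i
  refine (card_le_card h2).trans ?_
  rw [Fintype.card_piFinset]
  rw [← Finset.mul_prod_erase univ _ (mem_univ j)]
  rw [if_pos rfl, card_singleton, one_mul]
  rw [Finset.prod_congr rfl (g := fun _ => π.card) (fun i hi => by rw [if_neg (ne_of_mem_erase hi)])]
  rw [prod_const, card_erase_of_mem (mem_univ j), card_univ]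

/-- The number of tuples in `π` which (together with `x`) are not spread. -/
theorem card_nonspread {ι : Type} [Fintype ι] (N : ℕ) (π : Finset Pt) (B : ℕ) (x : Pt) (hx : x ∈ π)
    (hB : ∀ a ∈ π, (π.filter (fun b => ¬ Spread N a b)).card ≤ B) (hι : Fintype.card ι ≤ 6) :
    ((Fintype.piFinset (fun _ : ι => π)).filter
      (fun a => ¬ ((∀ i, Spread N x (a i)) ∧ ∀ i j, i ≠ j → Spread N (a i) (a j)))).card ≤
      36 * (B * π.card ^ (Fintype.card ι - 1)) := by
  have hsub : (Fintype.piFinset (fun _ : ι => π)).filter
      (fun a => ¬ ((∀ i, Spread N x (a i)) ∧ ∀ i j, i ≠ j → Spread N (a i) (a j))) ⊆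
      (univ : Finset (ι × ι)).biUnion (fun q =>
        (Fintype.piFinset (fun _ : ι => π)).filter (fun a =>
          if q.1 = q.2 then ¬ Spread N x (a q.2) else ¬ Spread N (a q.1) (a q.2))) := by
    intro a ha
    rw [mem_filter] at ha
    obtain ⟨ha, h⟩ := ha
    rw [mem_biUnion]
    by_cases h1 : ∀ i, Spread N x (a i)
    · have h2 : ¬ ∀ i j, i ≠ j → Spread N (a i) (a j) := fun h2 => h ⟨h1, h2⟩
      push Not at h2
      obtain ⟨i, j, hij, h3⟩ := h2
      exact ⟨(i, j), mem_univ _, mem_filter.2 ⟨ha, by simp only [if_neg hij]; exact h3⟩⟩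
    · push Not at h1
      obtain ⟨i, h1⟩ := h1
      exact ⟨(i, i), mem_univ _, mem_filter.2 ⟨ha, by simpa using h1⟩⟩
  refine (card_le_card hsub).trans (card_biUnion_le.trans ?_)
  have hterm : ∀ q ∈ (univ : Finset (ι × ι)),
      ((Fintype.piFinset (fun _ : ι => π)).filter (fun a =>
          if q.1 = q.2 then ¬ Spread N x (a q.2) else ¬ Spread N (a q.1) (a q.2))).card ≤
      B * π.card ^ (Fintype.card ι - 1) := by
    rintro ⟨i, j⟩ _
    by_cases hij : i = j
    · simp only [if_pos hij]
      have := card_bad π B j (fun _ b => ¬ Spread N x b) (fun _ _ _ => rfl)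
        (fun _ _ => by convert hB x hx)
      convert this
    · simp only [if_neg hij]
      have := card_bad π B j (fun a b => ¬ Spread N (a i) b)
        (fun a a' h => by simp only [h i hij])
        (fun a ha => by convert hB _ (Fintype.mem_piFinset.1 ha i))
      convert this
  refine (sum_le_card_nsmul _ _ _ hterm).trans ?_
  rw [smul_eq_mul, card_univ, Fintype.card_prod]
  exact Nat.mul_le_mul_right _ (by nlinarith)

/-- The inequality MP' for the parameters `P`, times up to `n`, constant `C`. -/
def MPn (P : Params) (n : ℕ) (C : ℝ) : Prop :=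
  ∀ {ι : Type} [Fintype ι] (a : ι → Pt) (t : ι → ℕ) (pl : ι → Bool) (T : ℕ),
      Fintype.card ι ≤ 7 → (∀ i, a i ∈ box P.N) → (∀ i j, i ≠ j → Spread P.N (a i) (a j)) →
      T ≤ n → (∀ i, t i ≤ T) → (∀ i, pl i = true → t i < T) →
      P.ex T (fun ω => ∏ i, P.mv (a i) (t i) (pl i) ω) ≤
        C * (1 / P.V) ^ (univ.filter (fun i => pl i = true)).card

theorem mv_nonneg (P : Params) (a : Pt) (t : ℕ) (pl : Bool) (ω : ℕ → Pt) :
    0 ≤ P.mv a t pl ω := by
  unfold Params.mv
  split_ifs
  · norm_num
  · norm_num
  · exact P.wa_nonneg _ _ _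

/-- **The tuple lemma.** -/
theorem tuple_sum (P : Params) (n : ℕ) (C : ℝ) (hC : 0 ≤ C) (hMP : MPn P n C)
    {ι : Type} [Fintype ι] (hι : Fintype.card ι ≤ 6) (t : ι → ℕ) (pl : ι → Bool) (T : ℕ)
    (hT : T ≤ n) (ht : ∀ i, t i ≤ T) (htp : ∀ i, pl i = true → t i < T)
    (hinj : ∀ i j, pl i = true → pl j = true → t i = t j → i = j)
    (π : Finset Pt) (hπ : π ⊆ box P.N) (x : Pt) (hx : x ∈ π) (B : ℕ)
    (hB : ∀ a ∈ π, (π.filter (fun b => ¬ Spread P.N a b)).card ≤ B) (ne np : ℕ)
    (hne : (univ.filter (fun i => pl i = false)).card = ne)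
    (hnp : (univ.filter (fun i => pl i = true)).card = np) :
    P.ex T (fun ω => P.wa T ω x * ∏ i, ∑ a ∈ π, P.mv a (t i) (pl i) ω) ≤
      C * (1 / P.V) ^ np * (π.card : ℝ) ^ (Fintype.card ι) +
      P.om ^ (ne + 1) * (2 * P.om / P.V) ^ np *
        (36 * (B * (π.card : ℝ) ^ (Fintype.card ι - 1))) := by
  have hV := P.V_pos
  have hom : 1 ≤ P.om := P.one_le_om
  have h1 : P.ex T (fun ω => P.wa T ω x * ∏ i, ∑ a ∈ π, P.mv a (t i) (pl i) ω) =
      ∑ a ∈ Fintype.piFinset (fun _ : ι => π),
        P.ex T (fun ω => P.wa T ω x * ∏ i, P.mv (a i) (t i) (pl i) ω) := by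
    rw [← P.ex_sum]
    congr 1
    funext ω
    rw [Finset.prod_univ_sum, mul_sum]
  rw [h1]
  -- each term as a product over `Option ι`
  have hopt : ∀ a : ι → Pt, ∀ ω : ℕ → Pt,
      P.wa T ω x * ∏ i, P.mv (a i) (t i) (pl i) ω =
      ∏ i : Option ι, P.mv (i.elim x a) (i.elim T t) (i.elim false pl) ω := by
    intro a ω
    rw [Fintype.prod_option]
    show _ = P.mv x T false ω * _
    rw [show P.mv x T false ω = P.wa T ω x from by simp [Params.mv]]
    rfl
  have hcardT : (univ.filter (fun i : Option ι => i.elim false pl = true)).card = np := by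
    rw [← hnp]
    have : (univ.filter (fun i : Option ι => i.elim false pl = true)) =
        (univ.filter (fun i : ι => pl i = true)).map ⟨some, Option.some_injective _⟩ := by
      ext i
      rcases i with _ | i <;> simp
    rw [this, card_map]
  have hcardF : (univ.filter (fun i : Option ι => i.elim false pl = false)).card = ne + 1 := by
    rw [← hne]
    have : (univ.filter (fun i : Option ι => i.elim false pl = false)) =
        insert none ((univ.filter (fun i : ι => pl i = false)).map ⟨some, Option.some_injective _⟩) := by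
      ext i
      rcases i with _ | i <;> simp
    rw [this, card_insert_of_notMem (by simp), card_map]
  have hgood : ∀ a ∈ Fintype.piFinset (fun _ : ι => π),
      ((∀ i, Spread P.N x (a i)) ∧ ∀ i j, i ≠ j → Spread P.N (a i) (a j)) →
      P.ex T (fun ω => P.wa T ω x * ∏ i, P.mv (a i) (t i) (pl i) ω) ≤ C * (1 / P.V) ^ np := by
    intro a ha hs
    simp_rw [hopt a]
    have := hMP (ι := Option ι) (fun i => i.elim x a) (fun i => i.elim T t) (fun i => i.elim false pl) T
      (by rw [Fintype.card_option]; omega)
      (by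
        rintro (_ | i)
        · exact hπ hx
        · exact hπ (Fintype.mem_piFinset.1 ha i))
      (by
        rintro (_ | i) (_ | j) hij
        · exact absurd rfl hij
        · exact hs.1 j
        · exact Spread.symm' (hs.1 i)
        · exact hs.2 i j (fun h => hij (by rw [h])))
      hT
      (by rintro (_ | i)
          · exact le_rfl
          · exact ht i)
      (by rintro (_ | i) h
          · exact absurd h (by simp)
          · exact htp i h)
    rw [hcardT] at this
    exact this
  have hbad : ∀ a ∈ Fintype.piFinset (fun _ : ι => π),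
      P.ex T (fun ω => P.wa T ω x * ∏ i, P.mv (a i) (t i) (pl i) ω) ≤
        P.om ^ (ne + 1) * (2 * P.om / P.V) ^ np := by
    intro a _
    simp_rw [hopt a]
    have := P.crude_marks (ι := Option ι) (fun i => i.elim x a) (fun i => i.elim T t)
      (fun i => i.elim false pl) T
      (by
        rintro (_ | i) (_ | j) h1 h2 h3
        · rfl
        · exact absurd h1 (by simp)
        · exact absurd h2 (by simp)
        · exact congrArg some (hinj i j h1 h2 h3))
      (by rintro (_ | i) h
          · exact absurd h (by simp)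
          · exact htp i h)
    rw [hcardT, hcardF] at this
    exact this
  rw [← Finset.sum_filter_add_sum_filter_not _
    (fun a => (∀ i, Spread P.N x (a i)) ∧ ∀ i j, i ≠ j → Spread P.N (a i) (a j))]
  refine add_le_add ?_ ?_
  · refine (sum_le_card_nsmul _ _ (C * (1 / P.V) ^ np) (fun a ha => ?_)).trans ?_
    · rw [mem_filter] at ha
      exact hgood a ha.1 ha.2
    · rw [nsmul_eq_mul, mul_comm]
      refine mul_le_mul_of_nonneg_left ?_ (by positivity)
      have := card_filter_le (Fintype.piFinset (fun _ : ι => π))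
        (fun a => (∀ i, Spread P.N x (a i)) ∧ ∀ i j, i ≠ j → Spread P.N (a i) (a j))
      have h2 : (Fintype.piFinset (fun _ : ι => π)).card = π.card ^ Fintype.card ι := by
        rw [Fintype.card_piFinset, prod_const, card_univ]
      rw [h2] at this
      exact_mod_cast this
  · refine (sum_le_card_nsmul _ _ (P.om ^ (ne + 1) * (2 * P.om / P.V) ^ np) (fun a ha => ?_)).trans ?_
    · rw [mem_filter] at ha
      exact hbad a ha.1
    · rw [nsmul_eq_mul, mul_comm]
      refine mul_le_mul_of_nonneg_left ?_ (by positivity)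
      have := card_nonspread (ι := ι) P.N π B x hx hB hι
      exact_mod_cast this

end Pool.Agent.Grid3D.RuleA2
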