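import Pool.Agent.Grid3D.RuleA5
import Pool.Agent.Grid3D.Geo3

/-!
# Regime 1, rule (A4) (helper35)
-/

set_option autoImplicit false

open Classical Finset

noncomputable section

namespace Pool.Agent.Grid3D

theorem copSwap34 (a b c d : Pt) : Cop a b c d ↔ Cop a b d c := by
  have h : dot (b - a) (cross (c - a) (d - a)) = - dot (b - a) (cross (d - a) (c - a)) := by
    simp [dot, cross]; ring
  unfold Cop
  rw [h, neg_eq_zero]

theorem copSwap23 (a b c d : Pt) : Cop a b c d ↔ Cop a c b d := by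
  have h : dot (b - a) (cross (c - a) (d - a)) = - dot (c - a) (cross (b - a) (d - a)) := by
    simp [dot, cross]; ring
  unfold Cop
  rw [h, neg_eq_zero]

theorem copRot234 (a b c d : Pt) : Cop a b c d ↔ Cop a c d b := by
  rw [copSwap23, copSwap34]

/-- number of points coplanar with `x, z₁, z₂` (`0` if these are collinear) -/
def gg (N : ℕ) (x z₁ z₂ : Pt) : ℝ :=
  if Col z₁ z₂ x then 0 else (((box N).filter (fun u => Cop x u z₁ z₂)).card : ℝ)

theorem gg_nonneg (N : ℕ) (x z₁ z₂ : Pt) : 0 ≤ gg N x z₁ z₂ := by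
  unfold gg; split_ifs <;> positivity

theorem gg_symm (N : ℕ) (x z₁ z₂ : Pt) : gg N x z₁ z₂ = gg N x z₂ z₁ := by
  unfold gg
  simp only [colSwap z₁ z₂ x, copSwap34 x _ z₁ z₂]

theorem sum_gg_le {N : ℕ} {x : Pt} (hx : x ∈ box N) :
    ∑ z₁ ∈ box N, ∑ z₂ ∈ box N, gg N x z₁ z₂ ≤ 34580989 * (N : ℝ) ^ 6 * (1 + Real.log N) := by
  refine le_trans ?_ (Geo2.G4 hx)
  rw [Finset.card_filter, Finset.sum_product]
  push_cast
  apply Finset.sum_le_sum
  intro z₁ _
  rw [Finset.sum_product]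
  apply Finset.sum_le_sum
  intro z₂ _
  unfold gg
  split_ifs
  · exact Finset.sum_nonneg (fun _ _ => by split_ifs <;> norm_num)
  · rw [Finset.card_filter]
    push_cast
    apply Finset.sum_le_sum
    intro u _
    exact le_of_eq (by simp only [copRot234 x u z₁ z₂])

theorem sum_gg_sq_le {N : ℕ} {x : Pt} (hx : x ∈ box N) :
    ∑ z₁ ∈ box N, (∑ z₂ ∈ box N, gg N x z₁ z₂) ^ 2 ≤
      1924 * 35001 ^ 2 * (N : ℝ) ^ 10 * (1 + Real.log N) ^ 2 := by
  refine le_trans ?_ (Geo2.G10a' hx)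
  rw [Finset.sum_filter]
  apply Finset.sum_le_sum
  intro z₁ _
  split_ifs with h
  · apply pow_le_pow_left₀ (Finset.sum_nonneg (fun _ _ => gg_nonneg _ _ _ _))
    rw [Finset.card_filter, Finset.sum_product, Finset.sum_comm]
    push_cast
    apply Finset.sum_le_sum
    intro z₂ _
    unfold gg
    split_ifs
    · exact Finset.sum_nonneg (fun _ _ => by split_ifs <;> norm_num)
    · rw [Finset.card_filter]
      push_cast
      apply Finset.sum_le_sum
      intro u _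
      exact le_of_eq (by simp only [copSwap23 x u z₁ z₂])
  · push Not at h
    subst h
    have : ∀ z₂ ∈ box N, gg N z₁ z₁ z₂ = 0 := by
      intro z₂ _
      unfold gg
      rw [if_pos]
      unfold Col
      funext i
      fin_cases i <;> simp [cross]
    rw [Finset.sum_eq_zero this]
    norm_num

theorem sum_sq_gg_le {N : ℕ} {x : Pt} (hx : x ∈ box N) :
    ∑ z₁ ∈ box N, ∑ z₂ ∈ box N, gg N x z₁ z₂ ^ 2 ≤ 52 * 18 ^ 4 * (N : ℝ) ^ 8 := by
  refine le_trans (le_of_eq ?_) (Geo2.G10b' hx)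
  rw [Finset.card_filter, Finset.sum_product]
  push_cast
  apply Finset.sum_congr rfl
  intro z₁ _
  rw [Finset.sum_product]
  apply Finset.sum_congr rfl
  intro z₂ _
  rw [Finset.sum_product]
  unfold gg
  by_cases h : Col z₁ z₂ x
  · rw [if_pos h]
    symm
    rw [zero_pow (by norm_num)]
    apply Finset.sum_eq_zero
    intro u _
    apply Finset.sum_eq_zero
    intro u' _
    rw [if_neg]
    intro h'
    exact h'.1 ((colRot z₁ z₂ x).mp h)
  · rw [if_neg h, Finset.card_filter]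
    push_cast
    rw [sq, Finset.sum_mul_sum]
    apply Finset.sum_congr rfl
    intro u _
    apply Finset.sum_congr rfl
    intro u' _
    have hA := copRot234 x u z₁ z₂
    have hB := copRot234 x u' z₁ z₂
    have hC : ¬ Col x z₁ z₂ := fun h3 => h ((colRot z₁ z₂ x).mpr h3)
    by_cases h1 : Cop x z₁ z₂ u
    · by_cases h2 : Cop x z₁ z₂ u'
      · rw [if_pos (hA.mpr h1), if_pos (hB.mpr h2), if_pos ⟨hC, h1, h2⟩, mul_one]
      · rw [if_neg (fun h => h2 (hB.mp h)), mul_zero]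
        exact (if_neg (fun h => h2 h.2.2)).symm
    · rw [if_neg (fun h => h1 (hA.mp h)), zero_mul]
      exact (if_neg (fun h => h1 h.2.1)).symm

theorem sum_one_ite {s i : ℕ} (hi : i ∈ range s) (B : ℝ) :
    ∑ j ∈ range s, (if i = j then B else 0) = B := by
  rw [Finset.sum_ite_eq, if_pos hi]

theorem sum4 (s : ℕ) (X B C : ℝ) :
    ∑ c ∈ range s, ∑ d ∈ range s, ∑ c' ∈ range s, ∑ d' ∈ range s,
      (X +
      ((if c = c' then B else 0) + (if c = d' then B else 0) +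
       (if d = c' then B else 0) + (if d = d' then B else 0)) +
      ((if c = c' then (if d = d' then C else 0) else 0) +
       (if c = d' then (if d = c' then C else 0) else 0))) =
      (s : ℝ) ^ 4 * X + 4 * (s : ℝ) ^ 3 * B + 2 * (s : ℝ) ^ 2 * C := by
  have e : ∀ c ∈ range s, ∀ d ∈ range s, ∑ c' ∈ range s, ∑ d' ∈ range s,
      (X +
      ((if c = c' then B else 0) + (if c = d' then B else 0) +
       (if d = c' then B else 0) + (if d = d' then B else 0)) +
      ((if c = c' then (if d = d' then C else 0) else 0) +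
       (if c = d' then (if d = c' then C else 0) else 0))) =
      (s : ℝ) ^ 2 * X + 4 * (s : ℝ) * B + 2 * C := by
    intro c hc d hd
    have e1 : ∀ c' ∈ range s, ∑ d' ∈ range s,
      (X +
      ((if c = c' then B else 0) + (if c = d' then B else 0) +
       (if d = c' then B else 0) + (if d = d' then B else 0)) +
      ((if c = c' then (if d = d' then C else 0) else 0) +
       (if c = d' then (if d = c' then C else 0) else 0))) =
       s * X + s * (if c = c' then B else 0) + B + s * (if d = c' then B else 0) + B +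
        (if c = c' then C else 0) + (if d = c' then C else 0) := by
      intro c' _
      simp only [Finset.sum_add_distrib, sum_one_ite hc, sum_one_ite hd, Finset.sum_const, card_range,
        nsmul_eq_mul]
      have v1 : ∑ d' ∈ range s, (if c = c' then (if d = d' then C else 0) else 0) =
        (if c = c' then C else 0) := by
        split_ifs
        · exact sum_one_ite hd C
        · simp
      rw [v1]
      ring
    rw [Finset.sum_congr rfl e1]
    simp only [Finset.sum_add_distrib, ← Finset.mul_sum, sum_one_ite hc, sum_one_ite hd,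
      Finset.sum_const, card_range, nsmul_eq_mul]
    ring
  have e2 : ∀ c ∈ range s, ∑ d ∈ range s, ∑ c' ∈ range s, ∑ d' ∈ range s,
      (X +
      ((if c = c' then B else 0) + (if c = d' then B else 0) +
       (if d = c' then B else 0) + (if d = d' then B else 0)) +
      ((if c = c' then (if d = d' then C else 0) else 0) +
       (if c = d' then (if d = c' then C else 0) else 0))) =
      s * ((s : ℝ) ^ 2 * X + 4 * (s : ℝ) * B + 2 * C) := by
    intro c hc
    rw [Finset.sum_congr rfl (e c hc), Finset.sum_const, card_range, nsmul_eq_mul]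
  rw [Finset.sum_congr rfl e2, Finset.sum_const, card_range, nsmul_eq_mul]
  ring

namespace Params

variable (P : Params)

/-- sum of the `gg` over ordered pairs of placed vertices -/
def SS (x : Pt) (s : ℕ) (ω : ℕ → Pt) : ℝ :=
  ∑ c ∈ range s, ∑ d ∈ range s, if c = d then 0 else gg P.N x (ω c) (ω d)

theorem SS_nonneg (x : Pt) (s : ℕ) (ω : ℕ → Pt) : 0 ≤ P.SS x s ω :=
  Finset.sum_nonneg (fun _ _ => Finset.sum_nonneg (fun _ _ => by
    split_ifs
    · exact le_refl _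
    · exact gg_nonneg _ _ _ _))

theorem card_K_le {s : ℕ} {ω : ℕ → Pt} {x : Pt} (h : ¬ P.A5 s ω x) :
    ((P.K s ω x).card : ℝ) ≤ 1 + P.SS x s ω := by
  have hsub : P.K s ω x ⊆ {x} ∪ (range s).biUnion (fun c => (range s).biUnion (fun d =>
      if c = d then ∅ else (box P.N).filter (fun u => Cop x u (ω c) (ω d)))) := by
    intro u hu
    rw [P.mem_K] at hu
    rw [mem_union]
    rcases hu with ⟨hb, hu | ⟨c, d, hadm, hcop⟩⟩
    · left
      rw [mem_singleton]; exact hu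
    · right
      rw [mem_biUnion]
      refine ⟨c, mem_range.mpr hadm.1, ?_⟩
      rw [mem_biUnion]
      refine ⟨d, mem_range.mpr hadm.2.1, ?_⟩
      rw [if_neg hadm.2.2.1, mem_filter]
      exact ⟨hb, hcop⟩
  have h1 := le_trans (Finset.card_le_card hsub) (Finset.card_union_le _ _)
  have h2 : ((range s).biUnion (fun c => (range s).biUnion (fun d =>
      if c = d then ∅ else (box P.N).filter (fun u => Cop x u (ω c) (ω d))))).card ≤
      ∑ c ∈ range s, ∑ d ∈ range s,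
      (if c = d then ∅ else (box P.N).filter (fun u => Cop x u (ω c) (ω d))).card := by
    refine le_trans Finset.card_biUnion_le (Finset.sum_le_sum (fun c _ => Finset.card_biUnion_le))
  rw [card_singleton] at h1
  have h3 : ((P.K s ω x).card : ℝ) ≤ 1 + ((∑ c ∈ range s, ∑ d ∈ range s,
      (if c = d then ∅ else (box P.N).filter (fun u => Cop x u (ω c) (ω d))).card : ℕ) : ℝ) := by
    exact_mod_cast le_trans h1 (Nat.add_le_add_left h2 1)
  refine le_trans h3 ?_
  apply add_le_add_right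
  unfold SS
  push_cast
  apply Finset.sum_le_sum
  intro c hc
  apply Finset.sum_le_sum
  intro d hd
  by_cases hcd : c = d
  · rw [if_pos hcd, if_pos hcd]
    simp
  · rw [if_neg hcd, if_neg hcd]
    unfold gg
    rw [if_neg]
    intro hcol
    exact h ⟨c, mem_range.mp hc, d, mem_range.mp hd, hcd, hcol⟩

theorem ph_le_card (s : ℕ) (ω : ℕ → Pt) (x : Pt) : P.ph s ω x ≤ P.q * ((P.K s ω x).card : ℝ) := by
  rw [P.ph_eq]
  have hV := P.V_pos
  calc 2 / P.V * ∑ u ∈ P.K s ω x, P.wa s ω u ≤ 2 / P.V * ∑ u ∈ P.K s ω x, P.om := by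
        apply mul_le_mul_of_nonneg_left _ (by positivity)
        exact Finset.sum_le_sum (fun u _ => P.wa_le_om _ _ _)
    _ = P.q * ((P.K s ω x).card : ℝ) := by
        rw [Finset.sum_const, nsmul_eq_mul, q]; ring

theorem A4_step (s : ℕ) (ω : ℕ → Pt) (x : Pt) :
    P.wab s ω x * (if P.A4 s ω x ∧ ¬ P.A5 s ω x then 1 else 0) ≤
      8192 * P.om * P.q ^ 2 * (1 + P.SS x s ω ^ 2) := by
  have hom := P.om_pos
  have hq := P.q_pos
  by_cases h : P.A4 s ω x ∧ ¬ P.A5 s ω x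
  · rw [if_pos h, mul_one]
    have h1 : 1 / 64 < P.ph s ω x := h.1
    have h2 := P.ph_le_card s ω x
    have h3 := P.card_K_le h.2
    have h4 : P.ph s ω x ≤ P.q * (1 + P.SS x s ω) :=
      le_trans h2 (mul_le_mul_of_nonneg_left h3 hq.le)
    have h5 : 1 ≤ 64 * (P.q * (1 + P.SS x s ω)) := by linarith
    have h6 : (1 : ℝ) ≤ (64 * (P.q * (1 + P.SS x s ω))) ^ 2 := by
      have := pow_le_pow_left₀ (by norm_num : (0 : ℝ) ≤ 1) h5 2
      simpa using this
    have h7 : (1 + P.SS x s ω) ^ 2 ≤ 2 * (1 + P.SS x s ω ^ 2) := by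
      nlinarith [sq_nonneg (1 - P.SS x s ω)]
    calc P.wab s ω x ≤ P.wa s ω x := P.wab_le_wa _ _ _
      _ ≤ P.om := P.wa_le_om _ _ _
      _ = P.om * 1 := (mul_one _).symm
      _ ≤ P.om * (64 * (P.q * (1 + P.SS x s ω))) ^ 2 := mul_le_mul_of_nonneg_left h6 hom.le
      _ = 4096 * P.om * P.q ^ 2 * (1 + P.SS x s ω) ^ 2 := by ring
      _ ≤ 4096 * P.om * P.q ^ 2 * (2 * (1 + P.SS x s ω ^ 2)) :=
          mul_le_mul_of_nonneg_left h7 (by positivity)
      _ = _ := by ring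
  · rw [if_neg h, mul_zero]
    positivity

/-- one term of the second moment -/
theorem E4 {x : Pt} {s c d c' d' : ℕ} (hc : c < s) (hd : d < s) (hc' : c' < s) (hd' : d' < s)
    (hcd : c ≠ d) (hcd' : c' ≠ d') {A4 A3 A2 : ℝ}
    (h4 : ∑ z₁ ∈ box P.N, ∑ z₂ ∈ box P.N, gg P.N x z₁ z₂ ≤ A4)
    (h3 : ∑ z₁ ∈ box P.N, (∑ z₂ ∈ box P.N, gg P.N x z₁ z₂) ^ 2 ≤ A3)
    (h2 : ∑ z₁ ∈ box P.N, ∑ z₂ ∈ box P.N, gg P.N x z₁ z₂ ^ 2 ≤ A2) :
    P.ex s (fun ω => gg P.N x (ω c) (ω d) * gg P.N x (ω c') (ω d')) ≤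
      P.q ^ 4 * A4 ^ 2 +
      ((if c = c' then P.q ^ 3 * A3 else 0) + (if c = d' then P.q ^ 3 * A3 else 0) +
       (if d = c' then P.q ^ 3 * A3 else 0) + (if d = d' then P.q ^ 3 * A3 else 0)) +
      ((if c = c' then (if d = d' then P.q ^ 2 * A2 else 0) else 0) +
       (if c = d' then (if d = c' then P.q ^ 2 * A2 else 0) else 0)) := by
  have hq := P.q_pos
  have g0 := gg_nonneg P.N x
  have a4 : 0 ≤ A4 := le_trans (Finset.sum_nonneg (fun _ _ => Finset.sum_nonneg (fun _ _ => g0 _ _))) h4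
  have a3 : 0 ≤ A3 := le_trans (Finset.sum_nonneg (fun _ _ => sq_nonneg _)) h3
  have a2 : 0 ≤ A2 := le_trans (Finset.sum_nonneg (fun _ _ => Finset.sum_nonneg (fun _ _ => sq_nonneg _))) h2
  have b4 : 0 ≤ P.q ^ 4 * A4 ^ 2 := by positivity
  have b3 : 0 ≤ P.q ^ 3 * A3 := by positivity
  have b2 : 0 ≤ P.q ^ 2 * A2 := by positivity
  -- three basic estimates
  have key2 : ∀ i j : ℕ, i < s → j < s → i ≠ j →
      P.ex s (fun ω => gg P.N x (ω i) (ω j) * gg P.N x (ω i) (ω j)) ≤ P.q ^ 2 * A2 := by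
    intro i j hi hj hij
    refine le_trans (P.ex_le2 (f := fun a b => gg P.N x a b * gg P.N x a b) hij hi hj
      (fun a b => mul_nonneg (g0 _ _) (g0 _ _))) ?_
    apply mul_le_mul_of_nonneg_left _ (by positivity)
    refine le_trans (le_of_eq ?_) h2
    simp only [sq]
  have key3 : ∀ i j l : ℕ, i < s → j < s → l < s → i ≠ j → i ≠ l → j ≠ l →
      P.ex s (fun ω => gg P.N x (ω i) (ω j) * gg P.N x (ω i) (ω l)) ≤ P.q ^ 3 * A3 := by
    intro i j l hi hj hl hij hil hjl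
    refine le_trans (P.ex_le3 (f := fun a b e => gg P.N x a b * gg P.N x a e) hij hil hjl hi hj hl
      (fun a b e => mul_nonneg (g0 _ _) (g0 _ _))) ?_
    apply mul_le_mul_of_nonneg_left _ (by positivity)
    refine le_trans (le_of_eq ?_) h3
    apply Finset.sum_congr rfl
    intro z _
    rw [sq, Finset.sum_mul_sum]
  have key4 : ∀ i j l m : ℕ, i < s → j < s → l < s → m < s → i ≠ j → i ≠ l → i ≠ m → j ≠ l →
      j ≠ m → l ≠ m →
      P.ex s (fun ω => gg P.N x (ω i) (ω j) * gg P.N x (ω l) (ω m)) ≤ P.q ^ 4 * A4 ^ 2 := by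
    intro i j l m hi hj hl hm hij hil him hjl hjm hlm
    refine le_trans (P.ex_le4 (f := fun a b e f => gg P.N x a b * gg P.N x e f) hij hil him hjl hjm
      hlm hi hj hl hm (fun a b e f => mul_nonneg (g0 _ _) (g0 _ _))) ?_
    apply mul_le_mul_of_nonneg_left _ (by positivity)
    have e : ∑ z₁ ∈ box P.N, ∑ z₂ ∈ box P.N, ∑ z₃ ∈ box P.N, ∑ z₄ ∈ box P.N,
        gg P.N x z₁ z₂ * gg P.N x z₃ z₄ =
        (∑ z₁ ∈ box P.N, ∑ z₂ ∈ box P.N, gg P.N x z₁ z₂) ^ 2 := by
      rw [sq, Finset.sum_mul]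
      apply Finset.sum_congr rfl
      intro z₁ _
      rw [Finset.sum_mul]
      apply Finset.sum_congr rfl
      intro z₂ _
      rw [Finset.mul_sum]
      apply Finset.sum_congr rfl
      intro z₃ _
      rw [Finset.mul_sum]
    rw [e]
    exact pow_le_pow_left₀ (Finset.sum_nonneg (fun _ _ => Finset.sum_nonneg (fun _ _ => g0 _ _))) h4 2
  have i3 : ∀ i j : ℕ, 0 ≤ (if i = j then P.q ^ 3 * A3 else 0) := by
    intro i j
    split_ifs <;> linarith
  have i2 : ∀ i j k l : ℕ, 0 ≤ (if i = j then (if k = l then P.q ^ 2 * A2 else 0) else 0) := by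
    intro i j k l
    split_ifs <;> linarith
  have n1 := i3 c c'
  have n2 := i3 c d'
  have n3 := i3 d c'
  have n4 := i3 d d'
  have n5 := i2 c c' d d'
  have n6 := i2 c d' d c'
  by_cases e1 : c = c'
  · by_cases e2 : d = d'
    · have hk := key2 c d hc hd hcd
      have v5 : (if c = c' then (if d = d' then P.q ^ 2 * A2 else 0) else 0) = P.q ^ 2 * A2 := by
        rw [if_pos e1, if_pos e2]
      have hX : P.ex s (fun ω => gg P.N x (ω c) (ω d) * gg P.N x (ω c') (ω d')) =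
        P.ex s (fun ω => gg P.N x (ω c) (ω d) * gg P.N x (ω c) (ω d)) := by rw [e1, e2]
      rw [hX]
      linarith
    · have hk := key3 c d d' hc hd hd' hcd (e1 ▸ hcd') e2
      have v1 : (if c = c' then P.q ^ 3 * A3 else 0) = P.q ^ 3 * A3 := if_pos e1
      have hX : P.ex s (fun ω => gg P.N x (ω c) (ω d) * gg P.N x (ω c') (ω d')) =
        P.ex s (fun ω => gg P.N x (ω c) (ω d) * gg P.N x (ω c) (ω d')) := by rw [e1]
      rw [hX]
      linarith
  · by_cases e2 : c = d'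
    · by_cases e3 : d = c'
      · have hk := key2 c d hc hd hcd
        have v6 : (if c = d' then (if d = c' then P.q ^ 2 * A2 else 0) else 0) = P.q ^ 2 * A2 := by
          rw [if_pos e2, if_pos e3]
        have hX : P.ex s (fun ω => gg P.N x (ω c) (ω d) * gg P.N x (ω c') (ω d')) =
          P.ex s (fun ω => gg P.N x (ω c) (ω d) * gg P.N x (ω c) (ω d)) := by
          rw [← e2, ← e3]
          apply P.ex_congr
          intro ω _
          rw [gg_symm P.N x (ω d) (ω c)]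
        rw [hX]
        linarith
      · have hk := key3 c d c' hc hd hc' hcd e1 e3
        have v2 : (if c = d' then P.q ^ 3 * A3 else 0) = P.q ^ 3 * A3 := if_pos e2
        have hX : P.ex s (fun ω => gg P.N x (ω c) (ω d) * gg P.N x (ω c') (ω d')) =
          P.ex s (fun ω => gg P.N x (ω c) (ω d) * gg P.N x (ω c) (ω c')) := by
          rw [← e2]
          apply P.ex_congr
          intro ω _
          rw [gg_symm P.N x (ω c') (ω c)]
        rw [hX]
        linarith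
    · by_cases e3 : d = c'
      · have hk := key3 d c d' hd hc hd' hcd.symm (e3 ▸ hcd') e2
        have v3 : (if d = c' then P.q ^ 3 * A3 else 0) = P.q ^ 3 * A3 := if_pos e3
        have hX : P.ex s (fun ω => gg P.N x (ω c) (ω d) * gg P.N x (ω c') (ω d')) =
          P.ex s (fun ω => gg P.N x (ω d) (ω c) * gg P.N x (ω d) (ω d')) := by
          rw [← e3]
          apply P.ex_congr
          intro ω _
          rw [gg_symm P.N x (ω c) (ω d)]
        rw [hX]
        linarith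
      · by_cases e4 : d = d'
        · have hk := key3 d c c' hd hc hc' hcd.symm e3 e1
          have v4 : (if d = d' then P.q ^ 3 * A3 else 0) = P.q ^ 3 * A3 := if_pos e4
          have hX : P.ex s (fun ω => gg P.N x (ω c) (ω d) * gg P.N x (ω c') (ω d')) =
            P.ex s (fun ω => gg P.N x (ω d) (ω c) * gg P.N x (ω d) (ω c')) := by
            rw [← e4]
            apply P.ex_congr
            intro ω _
            rw [gg_symm P.N x (ω c) (ω d), gg_symm P.N x (ω c') (ω d)]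
          rw [hX]
          linarith
        · have hk := key4 c d c' d' hc hd hc' hd' hcd e1 e2 e3 e4 hcd'
          linarith

/-- the second moment of `SS` -/
theorem ex_SS_sq {x : Pt} {s : ℕ} {A4 A3 A2 : ℝ}
    (h4 : ∑ z₁ ∈ box P.N, ∑ z₂ ∈ box P.N, gg P.N x z₁ z₂ ≤ A4)
    (h3 : ∑ z₁ ∈ box P.N, (∑ z₂ ∈ box P.N, gg P.N x z₁ z₂) ^ 2 ≤ A3)
    (h2 : ∑ z₁ ∈ box P.N, ∑ z₂ ∈ box P.N, gg P.N x z₁ z₂ ^ 2 ≤ A2) :
    P.ex s (fun ω => P.SS x s ω ^ 2) ≤
      (s : ℝ) ^ 4 * (P.q ^ 4 * A4 ^ 2) + 4 * (s : ℝ) ^ 3 * (P.q ^ 3 * A3) +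
        2 * (s : ℝ) ^ 2 * (P.q ^ 2 * A2) := by
  have hq := P.q_pos
  have g0 := gg_nonneg P.N x
  have a3 : 0 ≤ A3 := le_trans (Finset.sum_nonneg (fun _ _ => sq_nonneg _)) h3
  have a2 : 0 ≤ A2 := le_trans (Finset.sum_nonneg (fun _ _ => Finset.sum_nonneg (fun _ _ => sq_nonneg _))) h2
  have b3 : 0 ≤ P.q ^ 3 * A3 := by positivity
  have b2 : 0 ≤ P.q ^ 2 * A2 := by positivity
  have b4 : 0 ≤ P.q ^ 4 * A4 ^ 2 := by positivity
  rw [← sum4]
  have e : ∀ ω, P.SS x s ω ^ 2 = ∑ c ∈ range s, ∑ d ∈ range s, ∑ c' ∈ range s, ∑ d' ∈ range s,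
      (if c = d then 0 else gg P.N x (ω c) (ω d)) * (if c' = d' then 0 else gg P.N x (ω c') (ω d')) := by
    intro ω
    rw [SS, sq, Finset.sum_mul]
    apply Finset.sum_congr rfl
    intro c _
    rw [Finset.sum_mul]
    apply Finset.sum_congr rfl
    intro d _
    rw [Finset.mul_sum]
    apply Finset.sum_congr rfl
    intro c' _
    rw [Finset.mul_sum]
  rw [P.ex_congr (fun ω _ => e ω), P.ex_sum]
  apply Finset.sum_le_sum
  intro c hc
  rw [P.ex_sum]
  apply Finset.sum_le_sum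
  intro d hd
  rw [P.ex_sum]
  apply Finset.sum_le_sum
  intro c' hc'
  rw [P.ex_sum]
  apply Finset.sum_le_sum
  intro d' hd'
  rw [mem_range] at hc hd hc' hd'
  have i3 : ∀ i j : ℕ, 0 ≤ (if i = j then P.q ^ 3 * A3 else 0) := by
    intro i j
    split_ifs <;> linarith
  have i2 : ∀ i j k l : ℕ, 0 ≤ (if i = j then (if k = l then P.q ^ 2 * A2 else 0) else 0) := by
    intro i j k l
    split_ifs <;> linarith
  have n1 := i3 c c'
  have n2 := i3 c d'
  have n3 := i3 d c'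
  have n4 := i3 d d'
  have n5 := i2 c c' d d'
  have n6 := i2 c d' d c'
  by_cases k1 : c = d
  · have z : P.ex s (fun ω => (if c = d then 0 else gg P.N x (ω c) (ω d)) *
        (if c' = d' then 0 else gg P.N x (ω c') (ω d'))) = 0 := by
      rw [P.ex_congr (F' := fun _ => 0), P.ex_zero_fun]
      intro ω _
      rw [if_pos k1, zero_mul]
    rw [z]
    linarith
  · by_cases k2 : c' = d'
    · have z : P.ex s (fun ω => (if c = d then 0 else gg P.N x (ω c) (ω d)) *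
          (if c' = d' then 0 else gg P.N x (ω c') (ω d'))) = 0 := by
        rw [P.ex_congr (F' := fun _ => 0), P.ex_zero_fun]
        intro ω _
        rw [if_pos k2, mul_zero]
      rw [z]
      linarith
    · have z : P.ex s (fun ω => (if c = d then 0 else gg P.N x (ω c) (ω d)) *
          (if c' = d' then 0 else gg P.N x (ω c') (ω d'))) =
          P.ex s (fun ω => gg P.N x (ω c) (ω d) * gg P.N x (ω c') (ω d')) := by
        apply P.ex_congr
        intro ω _
        rw [if_neg k1, if_neg k2]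
      rw [z]
      exact P.E4 hc hd hc' hd' k1 k2 h4 h3 h2

theorem A4_total (n : ℕ) {x : Pt} {A4 A3 A2 : ℝ}
    (h4 : ∑ z₁ ∈ box P.N, ∑ z₂ ∈ box P.N, gg P.N x z₁ z₂ ≤ A4)
    (h3 : ∑ z₁ ∈ box P.N, (∑ z₂ ∈ box P.N, gg P.N x z₁ z₂) ^ 2 ≤ A3)
    (h2 : ∑ z₁ ∈ box P.N, ∑ z₂ ∈ box P.N, gg P.N x z₁ z₂ ^ 2 ≤ A2) :
    ∑ s ∈ range n, P.ex s (fun ω => P.wab s ω x *
      (if P.A4 s ω x ∧ ¬ P.A5 s ω x then 1 else 0)) ≤
      8192 * P.om * P.q ^ 2 * (n * (1 + ((n : ℝ) ^ 4 * (P.q ^ 4 * A4 ^ 2) +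
        4 * (n : ℝ) ^ 3 * (P.q ^ 3 * A3) + 2 * (n : ℝ) ^ 2 * (P.q ^ 2 * A2)))) := by
  have hq := P.q_pos
  have hom := P.om_pos
  have a3 : 0 ≤ A3 := le_trans (Finset.sum_nonneg (fun _ _ => sq_nonneg _)) h3
  have a2 : 0 ≤ A2 := le_trans (Finset.sum_nonneg (fun _ _ => Finset.sum_nonneg (fun _ _ => sq_nonneg _))) h2
  have hB : ∀ s ∈ range n, P.ex s (fun ω => P.wab s ω x *
      (if P.A4 s ω x ∧ ¬ P.A5 s ω x then 1 else 0)) ≤
      8192 * P.om * P.q ^ 2 * (1 + ((n : ℝ) ^ 4 * (P.q ^ 4 * A4 ^ 2) +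
        4 * (n : ℝ) ^ 3 * (P.q ^ 3 * A3) + 2 * (n : ℝ) ^ 2 * (P.q ^ 2 * A2))) := by
    intro s hs
    rw [mem_range] at hs
    have hsn : (s : ℝ) ≤ n := by exact_mod_cast hs.le
    refine le_trans (P.ex_mono (fun ω _ => P.A4_step s ω x)) ?_
    rw [P.ex_const_mul]
    apply mul_le_mul_of_nonneg_left _ (by positivity)
    rw [P.ex_add]
    apply add_le_add (P.ex_one_le s)
    refine le_trans (P.ex_SS_sq h4 h3 h2) ?_
    gcongr
  refine le_trans (Finset.sum_le_sum hB) (le_of_eq ?_)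
  rw [Finset.sum_const, card_range, nsmul_eq_mul]
  ring

end Params

theorem one_add_log_le {N : ℕ} (hN : 0 < N) :
    1 + Real.log N ≤ 11 * (N : ℝ) ^ (1 / 10 : ℝ) := by
  have hX : (1 : ℝ) ≤ N := by exact_mod_cast hN
  have h1 := Real.log_le_rpow_div (x := (N : ℝ)) (by positivity) (show (0 : ℝ) < 1 / 10 by norm_num)
  have h2 : (1 : ℝ) ≤ (N : ℝ) ^ (1 / 10 : ℝ) := Real.one_le_rpow hX (by norm_num)
  have h3 : (N : ℝ) ^ (1 / 10 : ℝ) / (1 / 10) = 10 * (N : ℝ) ^ (1 / 10 : ℝ) := by ring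
  rw [h3] at h1
  linarith

/-- a monomial in `om`, `n`, `1 + log N` against a power of `N` -/
theorem mono_bound (N : ℕ) (hN : 0 < N) (G : SimpleGraph ℕ) (n : ℕ) (hn : NBound N n)
    (i j m k : ℕ) (e : ℝ)
    (he : (i : ℝ) * (2 / 10 ^ 5) + (j : ℝ) * (1 + 1 / 10 ^ 5) + m / 10 - k ≤ e) :
    (par N hN G).om ^ i * (n : ℝ) ^ j * (1 + Real.log N) ^ m / (N : ℝ) ^ k ≤
      11 ^ m * (N : ℝ) ^ e := by
  have hX : (1 : ℝ) ≤ N := by exact_mod_cast hN
  have hX0 : (0 : ℝ) < N := by exact_mod_cast hN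
  have hL : 0 ≤ 1 + Real.log N := by
    have := Real.log_natCast_nonneg N
    linarith
  rw [div_le_iff₀ (by positivity)]
  have h1 := pow_bound hX (Nat.cast_nonneg n) hn (par_om N hN G) i j
  have h2 : (1 + Real.log N) ^ m ≤ 11 ^ m * (N : ℝ) ^ ((m : ℝ) / 10) := by
    refine le_trans (pow_le_pow_left₀ hL (one_add_log_le hN) m) (le_of_eq ?_)
    rw [mul_pow, ← Real.rpow_natCast ((N : ℝ) ^ (1 / 10 : ℝ)) m, ← Real.rpow_mul hX0.le]
    congr 2
    ring
  calc (par N hN G).om ^ i * (n : ℝ) ^ j * (1 + Real.log N) ^ m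
      ≤ (N : ℝ) ^ ((i : ℝ) * (2 / 10 ^ 5) + (j : ℝ) * (1 + 1 / 10 ^ 5) : ℝ) *
        (11 ^ m * (N : ℝ) ^ ((m : ℝ) / 10)) := by
        apply mul_le_mul h1 h2 (by positivity) (by positivity)
    _ = 11 ^ m * (N : ℝ) ^ ((i : ℝ) * (2 / 10 ^ 5) + (j : ℝ) * (1 + 1 / 10 ^ 5) + (m : ℝ) / 10 : ℝ) := by
        rw [Real.rpow_add hX0 ((i : ℝ) * (2 / 10 ^ 5) + (j : ℝ) * (1 + 1 / 10 ^ 5))]
        ring
    _ ≤ 11 ^ m * (N : ℝ) ^ (e + k) := by
        apply mul_le_mul_of_nonneg_left _ (by positivity)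
        apply Real.rpow_le_rpow_of_exponent_le hX
        linarith
    _ = 11 ^ m * (N : ℝ) ^ e * (N : ℝ) ^ k := by
        rw [Real.rpow_add hX0, Real.rpow_natCast]
        ring

theorem a4_half (N : ℕ) (hN : 0 < N) (G : SimpleGraph ℕ) (n : ℕ) (hn : NBound N n) (x : Pt)
    (hx : x ∈ box N) :
    ∑ s ∈ range n, (par N hN G).ex s (fun ω => (par N hN G).wab s ω x *
      (if (par N hN G).A4 s ω x ∧ ¬ (par N hN G).A5 s ω x then 1 else 0)) ≤
      (8192 * 4 + 8192 * 64 * 34580989 ^ 2 * 11 ^ 2 + 8192 * 4 * 32 * (1924 * 35001 ^ 2) * 11 ^ 2 +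
        8192 * 2 * 16 * (52 * 18 ^ 4)) * (N : ℝ) ^ (-(1 / 2) : ℝ) := by
  have hX0 : (0 : ℝ) < N := by exact_mod_cast hN
  refine le_trans ((par N hN G).A4_total n (sum_gg_le hx) (sum_gg_sq_le hx) (sum_sq_gg_le hx)) ?_
  have hNN : ((par N hN G).N : ℝ) = N := rfl
  have hV : (par N hN G).V = (N : ℝ) ^ 3 := rfl
  have b0 := mono_bound N hN G n hn 3 1 0 6 (-(1 / 2)) (by norm_num)
  have b4 := mono_bound N hN G n hn 7 5 2 6 (-(1 / 2)) (by norm_num)
  have b3 := mono_bound N hN G n hn 6 4 2 5 (-(1 / 2)) (by norm_num)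
  have b2 := mono_bound N hN G n hn 5 3 0 4 (-(1 / 2)) (by norm_num)
  rw [hNN]
  have e : 8192 * (par N hN G).om * (par N hN G).q ^ 2 * (n * (1 + ((n : ℝ) ^ 4 *
        ((par N hN G).q ^ 4 * (34580989 * (N : ℝ) ^ 6 * (1 + Real.log N)) ^ 2) +
        4 * (n : ℝ) ^ 3 * ((par N hN G).q ^ 3 * (1924 * 35001 ^ 2 * (N : ℝ) ^ 10 * (1 + Real.log N) ^ 2)) +
        2 * (n : ℝ) ^ 2 * ((par N hN G).q ^ 2 * (52 * 18 ^ 4 * (N : ℝ) ^ 8))))) =
      (8192 * 4) * ((par N hN G).om ^ 3 * (n : ℝ) ^ 1 * (1 + Real.log N) ^ 0 / (N : ℝ) ^ 6) +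
      (8192 * 64 * 34580989 ^ 2) *
        ((par N hN G).om ^ 7 * (n : ℝ) ^ 5 * (1 + Real.log N) ^ 2 / (N : ℝ) ^ 6) +
      (8192 * 4 * 32 * (1924 * 35001 ^ 2)) *
        ((par N hN G).om ^ 6 * (n : ℝ) ^ 4 * (1 + Real.log N) ^ 2 / (N : ℝ) ^ 5) +
      (8192 * 2 * 16 * (52 * 18 ^ 4)) *
        ((par N hN G).om ^ 5 * (n : ℝ) ^ 3 * (1 + Real.log N) ^ 0 / (N : ℝ) ^ 4) := by
    rw [Params.q, hV]
    field_simp
    ring
  rw [e]
  calc _ ≤ (8192 * 4) * (11 ^ 0 * (N : ℝ) ^ (-(1 / 2) : ℝ)) +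
      (8192 * 64 * 34580989 ^ 2) * (11 ^ 2 * (N : ℝ) ^ (-(1 / 2) : ℝ)) +
      (8192 * 4 * 32 * (1924 * 35001 ^ 2)) * (11 ^ 2 * (N : ℝ) ^ (-(1 / 2) : ℝ)) +
      (8192 * 2 * 16 * (52 * 18 ^ 4)) * (11 ^ 0 * (N : ℝ) ^ (-(1 / 2) : ℝ)) := by
        gcongr
    _ = _ := by ring

theorem a4Bound : A4Bound := by
  obtain ⟨N0, h1, hN0⟩ := exists_small (8192 * 4 + 8192 * 64 * 34580989 ^ 2 * 11 ^ 2 +
    8192 * 4 * 32 * (1924 * 35001 ^ 2) * 11 ^ 2 + 8192 * 2 * 16 * (52 * 18 ^ 4)) (1 / 16)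
    (by norm_num)
  refine ⟨N0, fun N hN hN' G n hn x hx => ?_⟩
  exact le_trans (a4_half N hN' G n hn x hx) (hN0 N hN)

end Pool.Agent.Grid3D
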