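import Pool.Agent.Grid3D.RuleCommon

/-!
# Regime 1, rule (A5) (helper35)
-/

set_option autoImplicit false

open Classical Finset

noncomputable section

namespace Pool.Agent.Grid3D

theorem colRot (a b x : Pt) : Col a b x ↔ Col x a b := by
  have h : cross (b - a) (x - a) = cross (a - x) (b - x) := by
    funext i
    fin_cases i <;> simp [cross] <;> ring
  unfold Col
  rw [h]

theorem colSwap (a b x : Pt) : Col a b x ↔ Col b a x := by
  have h : cross (b - a) (x - a) = - cross (a - b) (x - b) := by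
    funext i
    fin_cases i <;> simp [cross] <;> ring
  unfold Col
  rw [h, neg_eq_zero]

/-- powers of `om` and `n` against powers of `N` -/
theorem pow_bound {X n om : ℝ} (hX : 1 ≤ X) (hn0 : 0 ≤ n) (hn : n ≤ X ^ (1 + 1 / 10 ^ 5 : ℝ))
    (hom : om = X ^ (2 / 10 ^ 5 : ℝ)) (i j : ℕ) :
    om ^ i * n ^ j ≤ X ^ ((i : ℝ) * (2 / 10 ^ 5) + (j : ℝ) * (1 + 1 / 10 ^ 5) : ℝ) := by
  have hX0 : 0 < X := lt_of_lt_of_le one_pos hX
  rw [Real.rpow_add hX0, hom]
  apply mul_le_mul
  · rw [mul_comm (i : ℝ), Real.rpow_mul hX0.le, Real.rpow_natCast]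
  · rw [mul_comm (j : ℝ), Real.rpow_mul hX0.le, Real.rpow_natCast]
    exact pow_le_pow_left₀ hn0 hn j
  · positivity
  · positivity

theorem exists_small (C ε : ℝ) (hε : 0 < ε) : ∃ N0 : ℕ, 1 ≤ N0 ∧ ∀ N ≥ N0,
    C * (N : ℝ) ^ (-(1 / 2) : ℝ) ≤ ε := by
  obtain ⟨N0, hN0⟩ := exists_nat_ge ((|C| / ε) ^ 2)
  refine ⟨N0 + 1, by omega, fun N hN => ?_⟩
  have hN1 : (0 : ℝ) < N := by
    have : 1 ≤ N := by omega
    exact_mod_cast this
  have h1 : (|C| / ε) ^ 2 ≤ (N : ℝ) := by
    refine le_trans hN0 ?_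
    have : N0 ≤ N := by omega
    exact_mod_cast this
  have h2 : |C| / ε ≤ Real.sqrt N := by
    rw [← Real.sqrt_sq (show 0 ≤ |C| / ε by positivity)]
    exact Real.sqrt_le_sqrt h1
  have h3 : (N : ℝ) ^ (-(1 / 2) : ℝ) = (Real.sqrt N)⁻¹ := by
    rw [Real.rpow_neg hN1.le, Real.sqrt_eq_rpow]
  have hs : 0 < Real.sqrt N := Real.sqrt_pos.mpr hN1
  rw [h3, ← div_eq_mul_inv, div_le_iff₀ hs]
  rw [div_le_iff₀ hε] at h2
  calc C ≤ |C| := le_abs_self C
    _ ≤ Real.sqrt N * ε := h2
    _ = ε * Real.sqrt N := mul_comm _ _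

namespace Params

variable (P : Params)

theorem A5_step (t : ℕ) (ω : ℕ → Pt) (x : Pt) :
    P.wab (t + 1) ω x * (if P.A5 (t + 1) ω x then 1 else 0) ≤
      P.om * ∑ c ∈ range t, ((if Col (ω c) (ω t) x then (1 : ℝ) else 0) +
        (if Col (ω t) (ω c) x then (1 : ℝ) else 0)) := by
  have hom := P.om_pos
  have hs : 0 ≤ ∑ c ∈ range t, ((if Col (ω c) (ω t) x then (1 : ℝ) else 0) +
        (if Col (ω t) (ω c) x then (1 : ℝ) else 0)) := by
    apply Finset.sum_nonneg
    intro c _
    split_ifs <;> norm_num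
  by_cases h : P.A5 (t + 1) ω x
  · rw [if_pos h, mul_one]
    by_cases hx : x ∈ P.act (t + 1) ω
    · have hx' : x ∈ P.act' t ω := (P.mem_act_succ.mp hx).1
      obtain ⟨c, hc, d, hd, hcd, hcol⟩ := h
      have h1 : 1 ≤ ∑ c ∈ range t, ((if Col (ω c) (ω t) x then (1 : ℝ) else 0) +
        (if Col (ω t) (ω c) x then (1 : ℝ) else 0)) := by
        rcases Nat.lt_succ_iff_lt_or_eq.mp hc with hc1 | hc1
        · rcases Nat.lt_succ_iff_lt_or_eq.mp hd with hd1 | hd1
          · exact absurd hcol (P.not_col_of_mem_act' hx' hc1 hd1 hcd)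
          · subst hd1
            refine le_trans ?_ (Finset.single_le_sum (f := fun c =>
              ((if Col (ω c) (ω d) x then (1 : ℝ) else 0) +
              (if Col (ω d) (ω c) x then (1 : ℝ) else 0))) ?_ (mem_range.mpr hc1))
            · rw [if_pos hcol]
              split_ifs <;> norm_num
            · intro i _
              split_ifs <;> norm_num
        · subst hc1
          have hd1 : d < c := by omega
          refine le_trans ?_ (Finset.single_le_sum (f := fun d =>
              ((if Col (ω d) (ω c) x then (1 : ℝ) else 0) +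
              (if Col (ω c) (ω d) x then (1 : ℝ) else 0))) ?_ (mem_range.mpr hd1))
          · rw [if_pos hcol]
            split_ifs <;> norm_num
          · intro i _
            split_ifs <;> norm_num
      calc P.wab (t + 1) ω x ≤ P.wa (t + 1) ω x := P.wab_le_wa _ _ _
        _ ≤ P.om := P.wa_le_om _ _ _
        _ = P.om * 1 := (mul_one _).symm
        _ ≤ _ := mul_le_mul_of_nonneg_left h1 hom.le
    · have : P.wab (t + 1) ω x = 0 := by
        unfold wab
        rw [if_neg (fun h => hx h.1)]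
      rw [this]
      positivity
  · rw [if_neg h, mul_zero]
    positivity

theorem A5_ex (t : ℕ) {x : Pt} (hx : x ∈ box P.N) :
    P.ex (t + 1) (fun ω => P.wab (t + 1) ω x * (if P.A5 (t + 1) ω x then 1 else 0)) ≤
      P.om * (t * (2 * (P.q ^ 2 * (79 * (P.N : ℝ) ^ 3)))) := by
  refine le_trans (P.ex_mono (fun ω _ => P.A5_step t ω x)) ?_
  rw [P.ex_const_mul]
  apply mul_le_mul_of_nonneg_left _ P.om_pos.le
  rw [P.ex_sum]
  calc _ ≤ ∑ c ∈ range t, (2 * (P.q ^ 2 * (79 * (P.N : ℝ) ^ 3))) := by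
        apply Finset.sum_le_sum
        intro c hc
        rw [mem_range] at hc
        rw [P.ex_add, two_mul]
        have hG := Geo2.G9 hx
        have hcount : ∑ z₁ ∈ box P.N, ∑ z₂ ∈ box P.N, (if Col z₁ z₂ x then (1 : ℝ) else 0) ≤
            79 * (P.N : ℝ) ^ 3 := by
          refine le_trans (le_of_eq ?_) hG
          rw [Finset.card_filter, Finset.sum_product]
          push_cast
          apply Finset.sum_congr rfl
          intro z₁ _
          apply Finset.sum_congr rfl
          intro z₂ _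
          simp only [colRot z₁ z₂ x]
        apply add_le_add
        · refine le_trans (P.ex_le2 (T := t + 1) (c₁ := c) (c₂ := t) (f := fun a b => if Col a b x then 1 else 0)
            (by omega) (by omega) (by omega) (fun a b => by split_ifs <;> norm_num)) ?_
          exact mul_le_mul_of_nonneg_left hcount (by positivity)
        · refine le_trans (P.ex_le2 (T := t + 1) (c₁ := t) (c₂ := c) (f := fun a b => if Col a b x then 1 else 0)
            (by omega) (by omega) (by omega) (fun a b => by split_ifs <;> norm_num)) ?_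
          exact mul_le_mul_of_nonneg_left hcount (by positivity)
    _ = _ := by
        rw [Finset.sum_const, card_range, nsmul_eq_mul]

theorem A5_total (n : ℕ) {x : Pt} (hx : x ∈ box P.N) :
    ∑ s ∈ range n, P.ex s (fun ω => P.wab s ω x * (if P.A5 s ω x then 1 else 0)) ≤
      632 * (P.om ^ 3 * (n : ℝ) ^ 2) / (P.N : ℝ) ^ 3 := by
  have hV : P.V = (P.N : ℝ) ^ 3 := rfl
  have hN : (0 : ℝ) < P.N := by exact_mod_cast P.hN
  have hom := P.om_pos
  have hB : ∀ s ∈ range n, P.ex s (fun ω => P.wab s ω x * (if P.A5 s ω x then 1 else 0)) ≤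
      P.om * (n * (2 * (P.q ^ 2 * (79 * (P.N : ℝ) ^ 3)))) := by
    intro s hs
    rw [mem_range] at hs
    rcases s with _ | t
    · have : P.ex 0 (fun ω => P.wab 0 ω x * (if P.A5 0 ω x then 1 else 0)) = 0 := by
        rw [P.ex_congr (F' := fun _ => 0), P.ex_zero_fun]
        intro ω _
        rw [if_neg, mul_zero]
        rintro ⟨c, hc, _⟩
        omega
      rw [this]
      have := P.q_pos
      positivity
    · refine le_trans (P.A5_ex t hx) ?_
      apply mul_le_mul_of_nonneg_left _ hom.le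
      apply mul_le_mul_of_nonneg_right
      · have : t ≤ n := by omega
        exact_mod_cast this
      · have := P.q_pos
        positivity
  refine le_trans (Finset.sum_le_sum hB) (le_of_eq ?_)
  rw [Finset.sum_const, card_range, nsmul_eq_mul, q, hV]
  field_simp
  ring

end Params

theorem a5_half (N : ℕ) (hN : 0 < N) (G : SimpleGraph ℕ) (n : ℕ) (hn : NBound N n) (x : Pt)
    (hx : x ∈ box N) :
    ∑ s ∈ range n, (par N hN G).ex s (fun ω => (par N hN G).wab s ω x *
      (if (par N hN G).A5 s ω x then 1 else 0)) ≤ 632 * (N : ℝ) ^ (-(1 / 2) : ℝ) := by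
  have hX : (1 : ℝ) ≤ N := by exact_mod_cast hN
  have hX0 : (0 : ℝ) < N := by exact_mod_cast hN
  refine le_trans ((par N hN G).A5_total n hx) ?_
  have hNN : ((par N hN G).N : ℝ) = N := rfl
  rw [hNN, mul_div_assoc]
  apply mul_le_mul_of_nonneg_left _ (by norm_num)
  rw [div_le_iff₀ (by positivity)]
  refine le_trans (pow_bound hX (Nat.cast_nonneg n) hn (par_om N hN G) 3 2) ?_
  rw [← Real.rpow_natCast (N : ℝ) 3, ← Real.rpow_add hX0]
  apply Real.rpow_le_rpow_of_exponent_le hX
  norm_num

theorem a5Bound : A5Bound := by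
  obtain ⟨N0, h1, hN0⟩ := exists_small 632 (1 / 16) (by norm_num)
  refine ⟨N0, fun N hN hN' G n hn x hx => ?_⟩
  exact le_trans (a5_half N hN' G n hn x hx) (hN0 N hN)

end Pool.Agent.Grid3D
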