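import Pool.Agent.Grid3D.Regime1Spec
import Pool.Agent.Grid3D.Geo2

/-!
# Regime 1, rules (A5), (A4), (A1): common lemmas (helper35)
-/

set_option autoImplicit false

open Classical Finset

noncomputable section

namespace Pool.Agent.Grid3D

namespace Params

variable (P : Params)

/-- `2 om / V`, the crude bound for one placed mark -/
def q : ℝ := 2 * P.om / P.V

theorem om_pos : 0 < P.om := lt_of_lt_of_le one_pos P.one_le_om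

theorem q_pos : 0 < P.q := by
  have := P.V_pos
  have := P.om_pos
  unfold q
  positivity

theorem ex_le2 {T c₁ c₂ : ℕ} (h12 : c₁ ≠ c₂)
    (h1 : c₁ < T) (h2 : c₂ < T) {f : Pt → Pt → ℝ}
    (hf : ∀ z₁ z₂, 0 ≤ f z₁ z₂) :
    P.ex T (fun ω => f (ω c₁) (ω c₂)) ≤
      P.q ^ 2 * ∑ z₁ ∈ box P.N, ∑ z₂ ∈ box P.N, f z₁ z₂ := by
  have h0 : ∀ ω z₁ z₂, 0 ≤ f z₁ z₂ * ∏ i : Fin 2, P.mv (![z₁, z₂] i) (![c₁, c₂] i) (![true, true] i) ω := fun ω z₁ z₂ =>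
    mul_nonneg (hf _ _) (Finset.prod_nonneg (fun i _ => P.mv_nonneg _ _ _ _))
  have e : P.ex T (fun ω => f (ω c₁) (ω c₂)) ≤
      P.ex T (fun ω => ∑ z₁ ∈ box P.N, ∑ z₂ ∈ box P.N,
        f z₁ z₂ * ∏ i : Fin 2, P.mv (![z₁, z₂] i) (![c₁, c₂] i) (![true, true] i) ω) := by
    apply P.ex_mono
    intro ω hω
    have m1 := P.mem_box_of_alive hω h1
    have m2 := P.mem_box_of_alive hω h2
    have e0 : f (ω c₁) (ω c₂) = f (ω c₁) (ω c₂) *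
        ∏ i : Fin 2, P.mv (![ω c₁, ω c₂] i) (![c₁, c₂] i) (![true, true] i) ω := by
      simp [mv, Fin.prod_univ_succ]
    rw [e0]
    have s2 := Finset.single_le_sum (f := fun z₂ =>  f (ω c₁) z₂ * ∏ i : Fin 2, P.mv (![ω c₁, z₂] i) (![c₁, c₂] i) (![true, true] i) ω)
        (fun _ _ => h0 _ _ _) m2
    have s1 := Finset.single_le_sum (f := fun z₁ => ∑ z₂ ∈ box P.N, f z₁ z₂ * ∏ i : Fin 2, P.mv (![z₁, z₂] i) (![c₁, c₂] i) (![true, true] i) ω)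
        (fun _ _ => Finset.sum_nonneg (fun _ _ => h0 _ _ _)) m1
    exact le_trans (s2) s1
  refine le_trans e ?_
  rw [P.ex_sum, Finset.mul_sum]
  apply Finset.sum_le_sum
  intro z₁ _
  rw [P.ex_sum, Finset.mul_sum]
  apply Finset.sum_le_sum
  intro z₂ _
  rw [P.ex_const_mul, mul_comm (P.q ^ 2)]
  apply mul_le_mul_of_nonneg_left _ (hf _ _)
  have := P.crude_marks ![z₁, z₂] ![c₁, c₂] ![true, true] T
    (by intro i j; fin_cases i <;> fin_cases j <;> simp [h12, h12.symm])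
    (by intro i; fin_cases i <;> simp [h1, h2])
  refine le_trans this (le_of_eq ?_)
  have e1 : (univ.filter (fun i : Fin 2 => ![true, true] i = false)).card = 0 := by decide
  have e2 : (univ.filter (fun i : Fin 2 => ![true, true] i = true)).card = 2 := by decide
  rw [e1, e2]
  simp [q]

theorem ex_le3 {T c₁ c₂ c₃ : ℕ} (h12 : c₁ ≠ c₂) (h13 : c₁ ≠ c₃) (h23 : c₂ ≠ c₃)
    (h1 : c₁ < T) (h2 : c₂ < T) (h3 : c₃ < T) {f : Pt → Pt → Pt → ℝ}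
    (hf : ∀ z₁ z₂ z₃, 0 ≤ f z₁ z₂ z₃) :
    P.ex T (fun ω => f (ω c₁) (ω c₂) (ω c₃)) ≤
      P.q ^ 3 * ∑ z₁ ∈ box P.N, ∑ z₂ ∈ box P.N, ∑ z₃ ∈ box P.N, f z₁ z₂ z₃ := by
  have h0 : ∀ ω z₁ z₂ z₃, 0 ≤ f z₁ z₂ z₃ * ∏ i : Fin 3, P.mv (![z₁, z₂, z₃] i) (![c₁, c₂, c₃] i) (![true, true, true] i) ω := fun ω z₁ z₂ z₃ =>
    mul_nonneg (hf _ _ _) (Finset.prod_nonneg (fun i _ => P.mv_nonneg _ _ _ _))
  have e : P.ex T (fun ω => f (ω c₁) (ω c₂) (ω c₃)) ≤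
      P.ex T (fun ω => ∑ z₁ ∈ box P.N, ∑ z₂ ∈ box P.N, ∑ z₃ ∈ box P.N,
        f z₁ z₂ z₃ * ∏ i : Fin 3, P.mv (![z₁, z₂, z₃] i) (![c₁, c₂, c₃] i) (![true, true, true] i) ω) := by
    apply P.ex_mono
    intro ω hω
    have m1 := P.mem_box_of_alive hω h1
    have m2 := P.mem_box_of_alive hω h2
    have m3 := P.mem_box_of_alive hω h3
    have e0 : f (ω c₁) (ω c₂) (ω c₃) = f (ω c₁) (ω c₂) (ω c₃) *
        ∏ i : Fin 3, P.mv (![ω c₁, ω c₂, ω c₃] i) (![c₁, c₂, c₃] i) (![true, true, true] i) ω := by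
      simp [mv, Fin.prod_univ_succ]
    rw [e0]
    have s3 := Finset.single_le_sum (f := fun z₃ =>  f (ω c₁) (ω c₂) z₃ * ∏ i : Fin 3, P.mv (![ω c₁, ω c₂, z₃] i) (![c₁, c₂, c₃] i) (![true, true, true] i) ω)
        (fun _ _ => h0 _ _ _ _) m3
    have s2 := Finset.single_le_sum (f := fun z₂ => ∑ z₃ ∈ box P.N, f (ω c₁) z₂ z₃ * ∏ i : Fin 3, P.mv (![ω c₁, z₂, z₃] i) (![c₁, c₂, c₃] i) (![true, true, true] i) ω)
        (fun _ _ => Finset.sum_nonneg (fun _ _ => h0 _ _ _ _)) m2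
    have s1 := Finset.single_le_sum (f := fun z₁ => ∑ z₂ ∈ box P.N, ∑ z₃ ∈ box P.N, f z₁ z₂ z₃ * ∏ i : Fin 3, P.mv (![z₁, z₂, z₃] i) (![c₁, c₂, c₃] i) (![true, true, true] i) ω)
        (fun _ _ => Finset.sum_nonneg (fun _ _ => Finset.sum_nonneg (fun _ _ => h0 _ _ _ _))) m1
    exact le_trans (le_trans (s3) s2) s1
  refine le_trans e ?_
  rw [P.ex_sum, Finset.mul_sum]
  apply Finset.sum_le_sum
  intro z₁ _
  rw [P.ex_sum, Finset.mul_sum]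
  apply Finset.sum_le_sum
  intro z₂ _
  rw [P.ex_sum, Finset.mul_sum]
  apply Finset.sum_le_sum
  intro z₃ _
  rw [P.ex_const_mul, mul_comm (P.q ^ 3)]
  apply mul_le_mul_of_nonneg_left _ (hf _ _ _)
  have := P.crude_marks ![z₁, z₂, z₃] ![c₁, c₂, c₃] ![true, true, true] T
    (by intro i j; fin_cases i <;> fin_cases j <;> simp [h12, h12.symm, h13, h13.symm, h23, h23.symm])
    (by intro i; fin_cases i <;> simp [h1, h2, h3])
  refine le_trans this (le_of_eq ?_)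
  have e1 : (univ.filter (fun i : Fin 3 => ![true, true, true] i = false)).card = 0 := by decide
  have e2 : (univ.filter (fun i : Fin 3 => ![true, true, true] i = true)).card = 3 := by decide
  rw [e1, e2]
  simp [q]

theorem ex_le4 {T c₁ c₂ c₃ c₄ : ℕ} (h12 : c₁ ≠ c₂) (h13 : c₁ ≠ c₃) (h14 : c₁ ≠ c₄) (h23 : c₂ ≠ c₃) (h24 : c₂ ≠ c₄) (h34 : c₃ ≠ c₄)
    (h1 : c₁ < T) (h2 : c₂ < T) (h3 : c₃ < T) (h4 : c₄ < T) {f : Pt → Pt → Pt → Pt → ℝ}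
    (hf : ∀ z₁ z₂ z₃ z₄, 0 ≤ f z₁ z₂ z₃ z₄) :
    P.ex T (fun ω => f (ω c₁) (ω c₂) (ω c₃) (ω c₄)) ≤
      P.q ^ 4 * ∑ z₁ ∈ box P.N, ∑ z₂ ∈ box P.N, ∑ z₃ ∈ box P.N, ∑ z₄ ∈ box P.N, f z₁ z₂ z₃ z₄ := by
  have h0 : ∀ ω z₁ z₂ z₃ z₄, 0 ≤ f z₁ z₂ z₃ z₄ * ∏ i : Fin 4, P.mv (![z₁, z₂, z₃, z₄] i) (![c₁, c₂, c₃, c₄] i) (![true, true, true, true] i) ω := fun ω z₁ z₂ z₃ z₄ =>
    mul_nonneg (hf _ _ _ _) (Finset.prod_nonneg (fun i _ => P.mv_nonneg _ _ _ _))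
  have e : P.ex T (fun ω => f (ω c₁) (ω c₂) (ω c₃) (ω c₄)) ≤
      P.ex T (fun ω => ∑ z₁ ∈ box P.N, ∑ z₂ ∈ box P.N, ∑ z₃ ∈ box P.N, ∑ z₄ ∈ box P.N,
        f z₁ z₂ z₃ z₄ * ∏ i : Fin 4, P.mv (![z₁, z₂, z₃, z₄] i) (![c₁, c₂, c₃, c₄] i) (![true, true, true, true] i) ω) := by
    apply P.ex_mono
    intro ω hω
    have m1 := P.mem_box_of_alive hω h1
    have m2 := P.mem_box_of_alive hω h2
    have m3 := P.mem_box_of_alive hω h3
    have m4 := P.mem_box_of_alive hω h4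
    have e0 : f (ω c₁) (ω c₂) (ω c₃) (ω c₄) = f (ω c₁) (ω c₂) (ω c₃) (ω c₄) *
        ∏ i : Fin 4, P.mv (![ω c₁, ω c₂, ω c₃, ω c₄] i) (![c₁, c₂, c₃, c₄] i) (![true, true, true, true] i) ω := by
      simp [mv, Fin.prod_univ_succ]
    rw [e0]
    have s4 := Finset.single_le_sum (f := fun z₄ =>  f (ω c₁) (ω c₂) (ω c₃) z₄ * ∏ i : Fin 4, P.mv (![ω c₁, ω c₂, ω c₃, z₄] i) (![c₁, c₂, c₃, c₄] i) (![true, true, true, true] i) ω)
        (fun _ _ => h0 _ _ _ _ _) m4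
    have s3 := Finset.single_le_sum (f := fun z₃ => ∑ z₄ ∈ box P.N, f (ω c₁) (ω c₂) z₃ z₄ * ∏ i : Fin 4, P.mv (![ω c₁, ω c₂, z₃, z₄] i) (![c₁, c₂, c₃, c₄] i) (![true, true, true, true] i) ω)
        (fun _ _ => Finset.sum_nonneg (fun _ _ => h0 _ _ _ _ _)) m3
    have s2 := Finset.single_le_sum (f := fun z₂ => ∑ z₃ ∈ box P.N, ∑ z₄ ∈ box P.N, f (ω c₁) z₂ z₃ z₄ * ∏ i : Fin 4, P.mv (![ω c₁, z₂, z₃, z₄] i) (![c₁, c₂, c₃, c₄] i) (![true, true, true, true] i) ω)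
        (fun _ _ => Finset.sum_nonneg (fun _ _ => Finset.sum_nonneg (fun _ _ => h0 _ _ _ _ _))) m2
    have s1 := Finset.single_le_sum (f := fun z₁ => ∑ z₂ ∈ box P.N, ∑ z₃ ∈ box P.N, ∑ z₄ ∈ box P.N, f z₁ z₂ z₃ z₄ * ∏ i : Fin 4, P.mv (![z₁, z₂, z₃, z₄] i) (![c₁, c₂, c₃, c₄] i) (![true, true, true, true] i) ω)
        (fun _ _ => Finset.sum_nonneg (fun _ _ => Finset.sum_nonneg (fun _ _ => Finset.sum_nonneg (fun _ _ => h0 _ _ _ _ _)))) m1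
    exact le_trans (le_trans (le_trans (s4) s3) s2) s1
  refine le_trans e ?_
  rw [P.ex_sum, Finset.mul_sum]
  apply Finset.sum_le_sum
  intro z₁ _
  rw [P.ex_sum, Finset.mul_sum]
  apply Finset.sum_le_sum
  intro z₂ _
  rw [P.ex_sum, Finset.mul_sum]
  apply Finset.sum_le_sum
  intro z₃ _
  rw [P.ex_sum, Finset.mul_sum]
  apply Finset.sum_le_sum
  intro z₄ _
  rw [P.ex_const_mul, mul_comm (P.q ^ 4)]
  apply mul_le_mul_of_nonneg_left _ (hf _ _ _ _)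
  have := P.crude_marks ![z₁, z₂, z₃, z₄] ![c₁, c₂, c₃, c₄] ![true, true, true, true] T
    (by intro i j; fin_cases i <;> fin_cases j <;> simp [h12, h12.symm, h13, h13.symm, h14, h14.symm, h23, h23.symm, h24, h24.symm, h34, h34.symm])
    (by intro i; fin_cases i <;> simp [h1, h2, h3, h4])
  refine le_trans this (le_of_eq ?_)
  have e1 : (univ.filter (fun i : Fin 4 => ![true, true, true, true] i = false)).card = 0 := by decide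
  have e2 : (univ.filter (fun i : Fin 4 => ![true, true, true, true] i = true)).card = 4 := by decide
  rw [e1, e2]
  simp [q]

end Params

end Pool.Agent.Grid3D
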