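import Mathlib

set_option autoImplicit false

/-! Sampling with first moments: pure part. -/

namespace Pool.Agent.Grid3D.Samp

open Finset Classical

variable {α : Type*}

/-- injective index tuples `i` such that `p ∘ i` satisfies `S` -/
noncomputable def tup {R r : ℕ} (p : Fin R → α) (S : (Fin r → α) → Prop) :
    Finset (Fin r → Fin R) :=
  univ.filter (fun i => Function.Injective i ∧ S (fun a => p (i a)))

lemma mem_tup {R r : ℕ} {p : Fin R → α} {S : (Fin r → α) → Prop} {i : Fin r → Fin R} :
    i ∈ tup p S ↔ Function.Injective i ∧ S (fun a => p (i a)) := by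
  simp [tup]

lemma card_fix {R r : ℕ} (V : Finset α) {i : Fin r → Fin R} (hi : Function.Injective i)
    (S : (Fin r → α) → Prop) :
    ((Fintype.piFinset (fun _ : Fin R => V)).filter (fun p => S (fun a => p (i a)))).card *
      V.card ^ r ≤ ((Fintype.piFinset (fun _ : Fin r => V)).filter S).card * V.card ^ R := by
  have h1 : V.card ^ r = (Fintype.piFinset (fun _ : Fin r => V)).card := by simp
  have h2 : V.card ^ R = (Fintype.piFinset (fun _ : Fin R => V)).card := by simp
  rw [h1, h2, ← Finset.card_product, ← Finset.card_product]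
  apply Finset.card_le_card_of_injOn
    (fun pq : (Fin R → α) × (Fin r → α) => ((fun a => pq.1 (i a)), Function.extend i pq.2 pq.1))
  · rintro ⟨p, q⟩ hpq
    simp only [Finset.coe_product, Set.mem_prod, Finset.mem_coe, Finset.mem_filter,
      Fintype.mem_piFinset] at hpq ⊢
    obtain ⟨⟨hp, hS⟩, hq⟩ := hpq
    refine ⟨⟨fun a => hp _, hS⟩, ?_⟩
    intro j
    by_cases hj : ∃ a, i a = j
    · obtain ⟨a, rfl⟩ := hj
      rw [hi.extend_apply]
      exact hq a
    · rw [Function.extend_apply' _ _ _ hj]
      exact hp j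
  · rintro ⟨p, q⟩ _ ⟨p', q'⟩ _ h
    simp only [Prod.mk.injEq] at h ⊢
    obtain ⟨h3, h4⟩ := h
    refine ⟨?_, ?_⟩
    · funext j
      by_cases hj : ∃ a, i a = j
      · obtain ⟨a, rfl⟩ := hj
        exact congrFun h3 a
      · have := congrFun h4 j
        rwa [Function.extend_apply' _ _ _ hj, Function.extend_apply' _ _ _ hj] at this
    · funext a
      have := congrFun h4 (i a)
      rwa [hi.extend_apply, hi.extend_apply] at this

lemma sum_tup {R r : ℕ} (V : Finset α) (S : (Fin r → α) → Prop) :
    (∑ p ∈ Fintype.piFinset (fun _ : Fin R => V), (tup p S).card) * V.card ^ r ≤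
      R ^ r * ((Fintype.piFinset (fun _ : Fin r => V)).filter S).card * V.card ^ R := by
  have h1 : ∑ p ∈ Fintype.piFinset (fun _ : Fin R => V), (tup p S).card =
      ∑ i ∈ (univ : Finset (Fin r → Fin R)).filter Function.Injective,
        ((Fintype.piFinset (fun _ : Fin R => V)).filter (fun p => S (fun a => p (i a)))).card := by
    have h2 : ∀ p : Fin R → α, (tup p S).card =
        ∑ i ∈ (univ : Finset (Fin r → Fin R)).filter Function.Injective,
          if S (fun a => p (i a)) then 1 else 0 := by
      intro p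
      rw [← Finset.card_filter]
      congr 1
      ext i
      simp [tup]
    simp_rw [h2]
    rw [Finset.sum_comm]
    apply Finset.sum_congr rfl
    intro i _
    rw [Finset.card_filter]
  rw [h1, Finset.sum_mul]
  have h3 : ∀ i ∈ (univ : Finset (Fin r → Fin R)).filter Function.Injective,
      ((Fintype.piFinset (fun _ : Fin R => V)).filter (fun p => S (fun a => p (i a)))).card *
        V.card ^ r ≤ ((Fintype.piFinset (fun _ : Fin r => V)).filter S).card * V.card ^ R := by
    intro i hi
    rw [Finset.mem_filter] at hi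
    exact card_fix V hi.2 S
  refine (Finset.sum_le_sum h3).trans ?_
  rw [Finset.sum_const, smul_eq_mul]
  have h4 : ((univ : Finset (Fin r → Fin R)).filter Function.Injective).card ≤ R ^ r := by
    refine (Finset.card_filter_le _ _).trans ?_
    simp
  calc _ ≤ R ^ r * (((Fintype.piFinset (fun _ : Fin r => V)).filter S).card * V.card ^ R) :=
        Nat.mul_le_mul_right _ h4
    _ = _ := by ring

/-- Derandomisation by averaging: one sample that is good for all functionals. -/
theorem exists_sample {ι : Type*} [Fintype ι] {R : ℕ} (V : Finset α) (hV : V.Nonempty)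
    (r : ι → ℕ) (S : ∀ j, (Fin (r j) → α) → Prop) (B : ι → ℝ) (hB : ∀ j, 0 < B j)
    (h : ∀ j, (R : ℝ) ^ (r j) * ((Fintype.piFinset (fun _ : Fin (r j) => V)).filter (S j)).card ≤
      B j * (V.card : ℝ) ^ (r j)) :
    ∃ p : Fin R → α, (∀ i, p i ∈ V) ∧ ∀ j, ((tup p (S j)).card : ℝ) ≤ Fintype.card ι * B j := by
  have hV0 : (0 : ℝ) < V.card := by exact_mod_cast hV.card_pos
  set Ω := Fintype.piFinset (fun _ : Fin R => V) with hΩ
  have hΩc : (Ω.card : ℝ) = (V.card : ℝ) ^ R := by simp [hΩ]
  have hΩn : Ω.Nonempty := by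
    rw [← Finset.card_pos]
    have : (0 : ℝ) < Ω.card := by rw [hΩc]; positivity
    exact_mod_cast this
  have h1 : ∀ j, ∑ p ∈ Ω, ((tup p (S j)).card : ℝ) / B j ≤ (V.card : ℝ) ^ R := by
    intro j
    rw [← Finset.sum_div, div_le_iff₀ (hB j)]
    have h2 := sum_tup (R := R) V (S j)
    have h3 : (∑ p ∈ Ω, ((tup p (S j)).card : ℝ)) * (V.card : ℝ) ^ (r j) ≤
        (R : ℝ) ^ (r j) * ((Fintype.piFinset (fun _ : Fin (r j) => V)).filter (S j)).card *
          (V.card : ℝ) ^ R := by
      exact_mod_cast h2
    have h4 := mul_le_mul_of_nonneg_right (h j) (by positivity : (0 : ℝ) ≤ (V.card : ℝ) ^ R)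
    have h5 : (0 : ℝ) < (V.card : ℝ) ^ (r j) := by positivity
    apply le_of_mul_le_mul_right _ h5
    calc _ ≤ _ := h3
      _ ≤ _ := h4
      _ = _ := by ring
  have h2 : ∑ p ∈ Ω, ∑ j, ((tup p (S j)).card : ℝ) / B j ≤ ∑ p ∈ Ω, (Fintype.card ι : ℝ) := by
    rw [Finset.sum_comm, Finset.sum_const, nsmul_eq_mul, hΩc]
    refine (Finset.sum_le_sum (fun j _ => h1 j)).trans ?_
    rw [Finset.sum_const, nsmul_eq_mul, Finset.card_univ]
    apply le_of_eq
    ring
  obtain ⟨p, hp, hp2⟩ := Finset.exists_le_of_sum_le hΩn h2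
  refine ⟨p, ?_, ?_⟩
  · intro i
    rw [hΩ, Fintype.mem_piFinset] at hp
    exact hp i
  · intro j
    have h3 : ((tup p (S j)).card : ℝ) / B j ≤ ∑ j, ((tup p (S j)).card : ℝ) / B j := by
      apply Finset.single_le_sum (f := fun j => ((tup p (S j)).card : ℝ) / B j)
      · intro j _
        have := hB j
        positivity
      · exact Finset.mem_univ j
    have h4 := h3.trans hp2
    rwa [div_le_iff₀ (hB j)] at h4

/-- number of starting indices of the tuples -/
lemma card_first {R r : ℕ} (p : Fin R → α) (S : (Fin (r + 1) → α) → Prop) :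
    ((tup p S).image (fun i => i 0)).card ≤ (tup p S).card := Finset.card_image_le

end Pool.Agent.Grid3D.Samp
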