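import Pool.Agent.Grid3D.Geo4
import Pool.Agent.Grid3D.Samp1

set_option autoImplicit false

/-! The seven functionals of the sampling step, and the counts of the corresponding tuples. -/

namespace Pool.Agent.Grid3D.Samp

open Finset Classical Geo2

/-- equal points or small direction -/
def SE (G : ℕ) (v : Fin 2 → Pt) : Prop := dirN (v 0) (v 1) ≤ G
/-- collinear triples -/
def SC (v : Fin 3 → Pt) : Prop := Col (v 0) (v 1) (v 2)
/-- two different planes through a common pair -/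
def ST1 (G : ℕ) (v : Fin 6 → Pt) : Prop :=
  G < dirN (v 0) (v 1) ∧ Cop (v 0) (v 1) (v 2) (v 3) ∧ Cop (v 0) (v 1) (v 4) (v 5) ∧
    ¬ Cop (v 0) (v 1) (v 2) (v 4)
/-- triangles of planes -/
def ST2 (G : ℕ) (v : Fin 9 → Pt) : Prop :=
  T2c G (v 0) (v 1) (v 2) (v 3) (v 4) (v 5) (v 6) (v 7) (v 8)
/-- coplanar 4-tuples -/
def S4 (v : Fin 4 → Pt) : Prop := Cop (v 0) (v 1) (v 2) (v 3)
/-- triples in planes with small normal -/
def S3 (h : ℕ) (v : Fin 3 → Pt) : Prop :=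
  ∃ m ∈ normals h, dot m (v 1) = dot m (v 0) ∧ dot m (v 2) = dot m (v 0)
/-- 5-tuples in planes with large normal -/
def S5 (h : ℕ) (v : Fin 5 → Pt) : Prop :=
  ¬ Col (v 0) (v 1) (v 2) ∧ Cop (v 0) (v 1) (v 2) (v 3) ∧ Cop (v 0) (v 1) (v 2) (v 4) ∧
    h < nrm (prim (cross (v 1 - v 0) (v 2 - v 0)))

/-- tuples with entries in the box -/
noncomputable def bx (N r : ℕ) : Finset (Fin r → Pt) := Fintype.piFinset (fun _ => box N)

lemma mem_bx {N r : ℕ} {v : Fin r → Pt} : v ∈ bx N r ↔ ∀ i, v i ∈ box N := Fintype.mem_piFinset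

lemma card_le_of_sum {N : ℕ} {β : Type*} (T : Finset β) (P : Pt → β → Prop) (B : ℝ)
    (h : ∀ x ∈ box N, ((T.filter (P x)).card : ℝ) ≤ B) :
    (((box N ×ˢ T).filter (fun p => P p.1 p.2)).card : ℝ) ≤ (N : ℝ) ^ 3 * B := by
  rw [card_prod_filter]
  push_cast
  refine (Finset.sum_le_sum (g := fun _ => B) (fun x hx => h x hx)).trans ?_
  rw [Finset.sum_const, card_box, nsmul_eq_mul]
  push_cast
  exact le_rfl

theorem cntE {N : ℕ} (G : ℕ) : (((bx N 2).filter (SE G)).card : ℝ) ≤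
    (N : ℝ) ^ 3 * (26 * N * (G : ℝ) ^ 2 + 1) := by
  have h1 := card_le_of_sum (N := N) (box N) (fun x y => dirN x y ≤ G) (26 * N * (G : ℝ) ^ 2 + 1) ?_
  · refine le_trans ?_ h1
    norm_cast
    apply Finset.card_le_card_of_injOn (fun v => (v 0, v 1))
    · intro v hv
      simp only [Finset.coe_filter, Set.mem_ofPred_eq, mem_bx, SE, Finset.mem_product] at hv ⊢
      exact ⟨⟨hv.1 0, hv.1 1⟩, hv.2⟩
    · intro v _ v' _ h
      simp only [Prod.mk.injEq] at h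
      funext i
      fin_cases i
      · exact h.1
      · exact h.2
  · intro x hx
    have h2 : (box N).filter (fun y => dirN x y ≤ G) ⊆
        insert x ((box N).filter (fun y => y ≠ x ∧ dirN x y ≤ G)) := by
      intro y hy
      rw [Finset.mem_filter] at hy
      rw [Finset.mem_insert, Finset.mem_filter]
      by_cases h : y = x
      · left; exact h
      · right; exact ⟨hy.1, h, hy.2⟩
    have h3 := (Finset.card_le_card h2).trans (Finset.card_insert_le _ _)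
    have h4 := card_dir_le (G := G) hx
    have h5 : (((box N).filter (fun y => dirN x y ≤ G)).card : ℝ) ≤
      (((box N).filter (fun y => y ≠ x ∧ dirN x y ≤ G)).card : ℝ) + 1 := by exact_mod_cast h3
    refine le_trans (le_of_eq ?_) (h5.trans ?_)
    · congr
    have h6 : (((box N).filter (fun y => y ≠ x ∧ dirN x y ≤ G)).card : ℝ) ≤
        26 * N * (G : ℝ) ^ 2 := by
      refine le_trans (le_of_eq ?_) h4
      congr
    linarith

theorem cntC {N : ℕ} : (((bx N 3).filter SC).card : ℝ) ≤ (N : ℝ) ^ 3 * (79 * (N : ℝ) ^ 3) := by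
  have h1 := card_le_of_sum (N := N) (box N ×ˢ box N) (fun x p => Col x p.1 p.2)
    (79 * (N : ℝ) ^ 3) (fun x hx => by
      refine le_trans (le_of_eq ?_) (G9 hx)
      congr)
  refine le_trans ?_ h1
  norm_cast
  apply Finset.card_le_card_of_injOn (fun v => (v 0, (v 1, v 2)))
  · intro v hv
    simp only [Finset.coe_filter, Set.mem_ofPred_eq, mem_bx, SC, Finset.mem_product] at hv ⊢
    exact ⟨⟨hv.1 0, hv.1 1, hv.1 2⟩, hv.2⟩
  · intro v _ v' _ h
    simp only [Prod.mk.injEq] at h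
    funext i
    fin_cases i
    · exact h.1
    · exact h.2.1
    · exact h.2.2

theorem cnt4 {N : ℕ} : (((bx N 4).filter S4).card : ℝ) ≤ (N : ℝ) ^ 3 * TT N := by
  have h1 := card_le_of_sum (N := N) (box N ×ˢ (box N ×ˢ box N)) (fun x p => Cop x p.1 p.2.1 p.2.2)
    (TT N) (fun x hx => by
      refine le_trans (le_of_eq ?_) (G4 hx)
      congr)
  refine le_trans ?_ h1
  norm_cast
  apply Finset.card_le_card_of_injOn (fun v => (v 0, (v 1, (v 2, v 3))))
  · intro v hv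
    simp only [Finset.coe_filter, Set.mem_ofPred_eq, mem_bx, S4, Finset.mem_product] at hv ⊢
    exact ⟨⟨hv.1 0, hv.1 1, hv.1 2, hv.1 3⟩, hv.2⟩
  · intro v _ v' _ h
    simp only [Prod.mk.injEq] at h
    funext i
    fin_cases i
    · exact h.1
    · exact h.2.1
    · exact h.2.2.1
    · exact h.2.2.2

theorem cnt3 {N h : ℕ} (hhN : h ≤ N) : (((bx N 3).filter (S3 h)).card : ℝ) ≤
    (N : ℝ) ^ 3 * (2106 * (N : ℝ) ^ 4 * h) := by
  have h1 := card_le_of_sum (N := N) (box N ×ˢ box N) (fun x p => ∃ m ∈ normals h,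
    dot m p.1 = dot m x ∧ dot m p.2 = dot m x)
    (2106 * (N : ℝ) ^ 4 * h) (fun x _ => by
      refine le_trans (le_of_eq ?_) (S1 (x := x) hhN)
      congr)
  refine le_trans ?_ h1
  norm_cast
  apply Finset.card_le_card_of_injOn (fun v => (v 0, (v 1, v 2)))
  · intro v hv
    simp only [Finset.coe_filter, Set.mem_ofPred_eq, mem_bx, S3, Finset.mem_product] at hv ⊢
    exact ⟨⟨hv.1 0, hv.1 1, hv.1 2⟩, hv.2⟩
  · intro v _ v' _ h
    simp only [Prod.mk.injEq] at h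
    funext i
    fin_cases i
    · exact h.1
    · exact h.2.1
    · exact h.2.2

theorem cnt5 {N h : ℕ} (hh : 1 ≤ h) : (((bx N 5).filter (S5 h)).card : ℝ) ≤
    (N : ℝ) ^ 3 * (26 * 18 ^ 4 * (N : ℝ) ^ 8 / h) := by
  have h1 := card_le_of_sum (N := N) (box N ×ˢ box N ×ˢ box N ×ˢ box N)
    (fun x p => ¬ Col x p.1 p.2.1 ∧ Cop x p.1 p.2.1 p.2.2.1 ∧ Cop x p.1 p.2.1 p.2.2.2 ∧
        h < nrm (prim (cross (p.1 - x) (p.2.1 - x))))
    (26 * 18 ^ 4 * (N : ℝ) ^ 8 / h) (fun x hx => by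
      refine le_trans (le_of_eq ?_) (S2 hx hh)
      congr)
  refine le_trans ?_ h1
  norm_cast
  apply Finset.card_le_card_of_injOn (fun v => (v 0, (v 1, (v 2, (v 3, v 4)))))
  · intro v hv
    simp only [Finset.coe_filter, Set.mem_ofPred_eq, mem_bx, S5, Finset.mem_product] at hv ⊢
    exact ⟨⟨hv.1 0, hv.1 1, hv.1 2, hv.1 3, hv.1 4⟩, hv.2⟩
  · intro v _ v' _ h
    simp only [Prod.mk.injEq] at h
    funext i
    fin_cases i
    · exact h.1
    · exact h.2.1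
    · exact h.2.2.1
    · exact h.2.2.2.1
    · exact h.2.2.2.2

theorem cntT1 {N G H : ℕ} (hN : 1 ≤ N) (hG : 1 ≤ G) (hGH : 2 * H ^ 2 ≤ G) :
    (((bx N 6).filter (ST1 G)).card : ℝ) ≤ 2 * MM N G H * ((N : ℝ) ^ 3 * TT N) := by
  refine le_trans ?_ (T1 hN hG hGH)
  norm_cast
  apply Finset.card_le_card_of_injOn (fun v => ((v 0, v 1), ((v 2, v 3), (v 4, v 5))))
  · intro v hv
    simp only [Finset.coe_filter, Set.mem_ofPred_eq, mem_bx, ST1, Finset.mem_product] at hv ⊢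
    exact ⟨⟨⟨hv.1 0, hv.1 1⟩, ⟨hv.1 2, hv.1 3⟩, hv.1 4, hv.1 5⟩, hv.2⟩
  · intro v _ v' _ h
    simp only [Prod.mk.injEq] at h
    obtain ⟨⟨h0, h1⟩, ⟨h2, h3⟩, h4, h5⟩ := h
    funext i
    fin_cases i
    · exact h0
    · exact h1
    · exact h2
    · exact h3
    · exact h4
    · exact h5

theorem cntT2 {N G H : ℕ} (hN : 1 ≤ N) (hG : 1 ≤ G) (hH : H ≤ N) :
    (((bx N 9).filter (ST2 G)).card : ℝ) ≤
      3 * MM N G H * ((N : ℝ) ^ 3 * TT N ^ 2) + 27 * 9 ^ 6 * (2 * (H : ℝ) + 1) ^ 9 * (N : ℝ) ^ 18 := by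
  refine le_trans ?_ (T2 hN hG hH)
  norm_cast
  apply Finset.card_le_card_of_injOn (fun v => ((v 0, (v 1, v 2)), ((v 3, v 4), ((v 5, v 6), (v 7, v 8)))))
  · intro v hv
    simp only [Finset.coe_filter, Set.mem_ofPred_eq, mem_bx, ST2, Finset.mem_product] at hv ⊢
    exact ⟨⟨⟨hv.1 0, hv.1 1, hv.1 2⟩, ⟨hv.1 3, hv.1 4⟩, ⟨hv.1 5, hv.1 6⟩, hv.1 7, hv.1 8⟩, hv.2⟩
  · intro v _ v' _ h
    simp only [Prod.mk.injEq] at h
    obtain ⟨⟨h0, h1, h2⟩, ⟨h3, h4⟩, ⟨h5, h6⟩, h7, h8⟩ := h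
    funext i
    fin_cases i
    · exact h0
    · exact h1
    · exact h2
    · exact h3
    · exact h4
    · exact h5
    · exact h6
    · exact h7
    · exact h8

end Pool.Agent.Grid3D.Samp
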