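import Pool.Agent.Grid3D.Samp2

set_option autoImplicit false

/-! The deletion step. -/

namespace Pool.Agent.Grid3D.Samp

open Finset Classical Geo2

/-- injective `r`-tuples of points of `C` with property `S` -/
noncomputable def ct {r : ℕ} (C : Finset Pt) (S : (Fin r → Pt) → Prop) : Finset (Fin r → Pt) :=
  (Fintype.piFinset (fun _ : Fin r => C)).filter (fun v => Function.Injective v ∧ S v)

lemma mem_ct {r : ℕ} {C : Finset Pt} {S : (Fin r → Pt) → Prop} {v : Fin r → Pt} :
    v ∈ ct C S ↔ (∀ a, v a ∈ C) ∧ Function.Injective v ∧ S v := by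
  rw [ct, Finset.mem_filter, Fintype.mem_piFinset]

/-- The properties of the set of candidates. -/
structure Cand (N G h : ℕ) (Del B4 B3 B5 : ℝ) (C : Finset Pt) : Prop where
  sub : C ⊆ box N
  noE : ct C (SE G) = ∅
  noC : ct C SC = ∅
  noT1 : ct C (ST1 G) = ∅
  noT2 : ct C (ST2 G) = ∅
  deg : ∀ x ∈ C, (((ct C S4).filter (fun v => v 0 = x)).card : ℝ) ≤ Del
  c4 : ((ct C S4).card : ℝ) ≤ B4
  c3 : ((ct C (S3 h)).card : ℝ) ≤ B3
  c5 : ((ct C (S5 h)).card : ℝ) ≤ B5

lemma dirN_self (x : Pt) : dirN x x = 0 := by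
  rw [dirN_eq, sub_self]
  have : prim (0 : Pt) = 0 := by
    funext i
    simp [prim]
  rw [this]
  simp [nrm]

theorem deletion {N G h R : ℕ} (hR : 0 < R) {Del B4 B3 B5 : ℝ} (hDel : 0 < Del) (p : Fin R → Pt)
    (hp : ∀ i, p i ∈ box N)
    (hE : ((tup p (SE G)).card : ℝ) ≤ R / 100) (hC : ((tup p SC).card : ℝ) ≤ R / 100)
    (hT1 : ((tup p (ST1 G)).card : ℝ) ≤ R / 100) (hT2 : ((tup p (ST2 G)).card : ℝ) ≤ R / 100)
    (h4 : ((tup p S4).card : ℝ) ≤ B4) (hB4 : B4 ≤ Del * (R / 100))
    (h3 : ((tup p (S3 h)).card : ℝ) ≤ B3) (h5 : ((tup p (S5 h)).card : ℝ) ≤ B5) :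
    ∃ C : Finset Pt, Cand N G h Del B4 B3 B5 C ∧ (R : ℝ) / 2 ≤ C.card ∧ C.card ≤ R := by
  set b1 := (tup p (SE G)).image (fun i => i 0) with hb1
  set b2 := (tup p SC).image (fun i => i 0) with hb2
  set b3 := (tup p (ST1 G)).image (fun i => i 0) with hb3
  set b4 := (tup p (ST2 G)).image (fun i => i 0) with hb4
  set b5 := (univ : Finset (Fin R)).filter
    (fun i => Del < (((tup p S4).filter (fun t => t 0 = i)).card : ℝ)) with hb5
  have c1 : (b1.card : ℝ) ≤ R / 100 := le_trans (by exact_mod_cast Finset.card_image_le) hE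
  have c2 : (b2.card : ℝ) ≤ R / 100 := le_trans (by exact_mod_cast Finset.card_image_le) hC
  have c3 : (b3.card : ℝ) ≤ R / 100 := le_trans (by exact_mod_cast Finset.card_image_le) hT1
  have c4 : (b4.card : ℝ) ≤ R / 100 := le_trans (by exact_mod_cast Finset.card_image_le) hT2
  have c5 : (b5.card : ℝ) ≤ R / 100 := by
    have e1 : ∑ i ∈ b5, (((tup p S4).filter (fun t => t 0 = i)).card : ℝ) ≤ (tup p S4).card := by
      have e2 : (tup p S4).card = ∑ i : Fin R, ((tup p S4).filter (fun t => t 0 = i)).card :=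
        Finset.card_eq_sum_card_fiberwise (fun _ _ => Finset.mem_univ _)
      rw [e2]
      push_cast
      exact Finset.sum_le_sum_of_subset_of_nonneg (Finset.subset_univ _)
        (fun _ _ _ => by positivity)
    have e3 : (b5.card : ℝ) * Del ≤ ∑ i ∈ b5, (((tup p S4).filter (fun t => t 0 = i)).card : ℝ) := by
      rw [← nsmul_eq_mul, ← Finset.sum_const]
      apply Finset.sum_le_sum
      intro i hi
      rw [hb5, Finset.mem_filter] at hi
      exact hi.2.le
    have e4 : (b5.card : ℝ) * Del ≤ (R / 100) * Del := by linarith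
    exact le_of_mul_le_mul_right e4 hDel
  set I := (univ : Finset (Fin R)) \ (b1 ∪ (b2 ∪ (b3 ∪ (b4 ∪ b5)))) with hI
  have hIc : (R : ℝ) - 5 * (R / 100) ≤ I.card := by
    have e1 : (b1 ∪ (b2 ∪ (b3 ∪ (b4 ∪ b5)))).card ≤
        b1.card + (b2.card + (b3.card + (b4.card + b5.card))) := by
      refine (Finset.card_union_le _ _).trans (Nat.add_le_add_left ?_ _)
      refine (Finset.card_union_le _ _).trans (Nat.add_le_add_left ?_ _)
      refine (Finset.card_union_le _ _).trans (Nat.add_le_add_left ?_ _)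
      exact Finset.card_union_le _ _
    have e2 : ((b1 ∪ (b2 ∪ (b3 ∪ (b4 ∪ b5)))).card : ℝ) ≤
        b1.card + (b2.card + (b3.card + (b4.card + b5.card))) := by exact_mod_cast e1
    have e3 := Finset.card_sdiff_add_card_eq_card (Finset.subset_univ
      (b1 ∪ (b2 ∪ (b3 ∪ (b4 ∪ b5)))))
    rw [Finset.card_univ, Fintype.card_fin] at e3
    have e4 : (I.card : ℝ) + ((b1 ∪ (b2 ∪ (b3 ∪ (b4 ∪ b5)))).card : ℝ) = R := by exact_mod_cast e3
    linarith
  have hIn : ∀ i ∈ I, i ∉ b1 ∧ i ∉ b2 ∧ i ∉ b3 ∧ i ∉ b4 ∧ i ∉ b5 := by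
    intro i hi
    rw [hI, Finset.mem_sdiff] at hi
    simp only [Finset.mem_union, not_or] at hi
    exact hi.2
  have hinj : Set.InjOn p I := by
    intro i hi j hj hij
    by_contra hne
    apply (hIn i hi).1
    rw [hb1, Finset.mem_image]
    refine ⟨![i, j], ?_, rfl⟩
    rw [mem_tup]
    refine ⟨?_, ?_⟩
    · intro a c hac
      fin_cases a <;> fin_cases c <;> simp_all
    · show dirN (p i) (p j) ≤ G
      rw [hij, dirN_self]
      exact Nat.zero_le _
  set C := I.image p with hCdef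
  have hCcard : C.card = I.card := Finset.card_image_of_injOn hinj
  -- the index of a point
  have hidx : ∀ x : Pt, ∃ i : Fin R, x ∈ C → (i ∈ I ∧ p i = x) := by
    intro x
    by_cases hx : x ∈ C
    · rw [hCdef, Finset.mem_image] at hx
      obtain ⟨i, hi, rfl⟩ := hx
      exact ⟨i, fun _ => ⟨hi, rfl⟩⟩
    · exact ⟨⟨0, hR⟩, fun h => absurd h hx⟩
  choose idx hidx using hidx
  have hlift : ∀ {r : ℕ} (S : (Fin r → Pt) → Prop) (v : Fin r → Pt), v ∈ ct C S →
      (fun a => idx (v a)) ∈ tup p S ∧ ∀ a, idx (v a) ∈ I := by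
    intro r S v hv
    rw [mem_ct] at hv
    obtain ⟨hv1, hv2, hv3⟩ := hv
    have e1 : ∀ a, p (idx (v a)) = v a := fun a => (hidx (v a) (hv1 a)).2
    rw [mem_tup]
    refine ⟨⟨?_, ?_⟩, fun a => (hidx (v a) (hv1 a)).1⟩
    · intro a c hac
      apply hv2
      have hac' : idx (v a) = idx (v c) := hac
      rw [← e1 a, ← e1 c, hac']
    · have e2 : (fun a => p (idx (v a))) = v := funext e1
      show S (fun a => p (idx (v a)))
      rw [e2]
      exact hv3
  have hliftinj : ∀ {r : ℕ} (S : (Fin r → Pt) → Prop),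
      Set.InjOn (fun v : Fin r → Pt => fun a => idx (v a)) (ct C S : Set (Fin r → Pt)) := by
    intro r S v hv v' hv' h
    rw [Finset.mem_coe, mem_ct] at hv hv'
    funext a
    have h1 := congrFun h a
    simp only at h1
    rw [← (hidx (v a) (hv.1 a)).2, ← (hidx (v' a) (hv'.1 a)).2, h1]
  have hcard : ∀ {r : ℕ} (S : (Fin r → Pt) → Prop), (ct C S).card ≤ (tup p S).card := by
    intro r S
    exact Finset.card_le_card_of_injOn _ (fun v hv => (hlift S v hv).1) (hliftinj S)
  have hno : ∀ {r : ℕ} (S : (Fin (r + 1) → Pt) → Prop),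
      (∀ i ∈ I, i ∉ (tup p S).image (fun i => i 0)) → ct C S = ∅ := by
    intro r S hS
    apply Finset.eq_empty_of_forall_notMem
    intro v hv
    obtain ⟨e1, e2⟩ := hlift S v hv
    apply hS _ (e2 0)
    rw [Finset.mem_image]
    exact ⟨_, e1, rfl⟩
  refine ⟨C, ?_, ?_, ?_⟩
  · constructor
    · intro x hx
      rw [hCdef, Finset.mem_image] at hx
      obtain ⟨i, _, rfl⟩ := hx
      exact hp i
    · exact hno _ (fun i hi => (hIn i hi).1)
    · exact hno _ (fun i hi => (hIn i hi).2.1)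
    · exact hno _ (fun i hi => (hIn i hi).2.2.1)
    · exact hno _ (fun i hi => (hIn i hi).2.2.2.1)
    · intro x hx
      obtain ⟨hxI, hpx⟩ := hidx x hx
      have h1 := (hIn _ hxI).2.2.2.2
      rw [hb5, Finset.mem_filter, not_and] at h1
      have h2 := not_lt.1 (h1 (Finset.mem_univ _))
      refine le_trans ?_ h2
      norm_cast
      apply Finset.card_le_card_of_injOn (fun v : Fin 4 → Pt => fun a => idx (v a))
      · intro v hv
        rw [Finset.mem_coe, Finset.mem_filter] at hv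
        rw [Finset.mem_coe, Finset.mem_filter]
        refine ⟨(hlift S4 v hv.1).1, ?_⟩
        show idx (v 0) = idx x
        rw [hv.2]
      · exact (hliftinj S4).mono (by
          intro v hv
          rw [Finset.mem_coe, Finset.mem_filter] at hv
          exact hv.1)
    · exact le_trans (by exact_mod_cast hcard S4) h4
    · exact le_trans (by exact_mod_cast hcard (S3 h)) h3
    · exact le_trans (by exact_mod_cast hcard (S5 h)) h5
  · rw [hCcard]
    have : (0 : ℝ) ≤ R := by positivity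
    linarith
  · rw [hCcard]
    refine (Finset.card_le_univ _).trans ?_
    simp

end Pool.Agent.Grid3D.Samp
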