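import Pool.Agent.Grid3D.Samp3

set_option autoImplicit false

/-! The sampling step with the concrete parameters. -/

namespace Pool.Agent.Grid3D.Samp

open Finset Classical Geo2

/-- number of sampled points -/
def R0 (b n : ℕ) : ℕ := 4 * n * b ^ 20

noncomputable def B4 (b n N : ℕ) : ℝ :=
  7 * ((R0 b n : ℝ) ^ 4 * (34580989 * (1 + Real.log N)) / (N : ℝ) ^ 3)
noncomputable def B3 (b n N h : ℕ) : ℝ := 7 * ((R0 b n : ℝ) ^ 3 * 2106 * h / (N : ℝ) ^ 2)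
noncomputable def B5 (b n N h : ℕ) : ℝ :=
  7 * ((R0 b n : ℝ) ^ 5 * (26 * 18 ^ 4) / (h * (N : ℝ) ^ 4))

lemma pow_absorb {x : ℝ} (hx : 10 ^ 6 ≤ x) {c : ℝ} (hc : c ≤ 10 ^ 24) (a d : ℕ) (had : a + 4 ≤ d) :
    c * x ^ a ≤ x ^ d := by
  have hx1 : 1 ≤ x := by linarith [show (1 : ℝ) ≤ 10 ^ 6 by norm_num]
  have hx0 : 0 ≤ x := by linarith
  calc c * x ^ a ≤ 10 ^ 24 * x ^ a := mul_le_mul_of_nonneg_right hc (by positivity)
    _ = (10 ^ 6) ^ 4 * x ^ a := by norm_num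
    _ ≤ x ^ 4 * x ^ a := by gcongr
    _ = x ^ (a + 4) := by ring
    _ ≤ x ^ d := pow_le_pow_right₀ hx1 had

section params

variable {x N u L : ℝ}

/-- (E) -/
lemma ineqE (hx : 10 ^ 6 ≤ x) (hN : x ^ 2000 ≤ N) (hu : 0 < u) (huN : u ≤ 4 * x ^ 21 * N) :
    u ^ 2 * (N ^ 3 * (26 * N * (2 * x ^ 190) ^ 2 + 1)) ≤ u / 700 * (N ^ 3) ^ 2 := by
  have hx1 : 1 ≤ x := by linarith [show (1 : ℝ) ≤ 10 ^ 6 by norm_num]
  have hx0 : 0 < x := by linarith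
  have hN1 : 1 ≤ N := le_trans (one_le_pow₀ hx1) hN
  have hN0 : 0 < N := by linarith
  have h1 : 26 * N * (2 * x ^ 190) ^ 2 + 1 ≤ 105 * (N * x ^ 380) := by
    have h2 : 1 ≤ N * x ^ 380 := by
      have := one_le_pow₀ (n := 380) hx1
      nlinarith
    calc 26 * N * (2 * x ^ 190) ^ 2 + 1 = 104 * (N * x ^ 380) + 1 := by ring
      _ ≤ _ := by linarith
  have h3 : 294000 * x ^ 401 ≤ N :=
    (pow_absorb hx (by norm_num) 401 2000 (by norm_num)).trans hN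
  calc u ^ 2 * (N ^ 3 * (26 * N * (2 * x ^ 190) ^ 2 + 1))
      ≤ u * (4 * x ^ 21 * N) * (N ^ 3 * (105 * (N * x ^ 380))) := by
        rw [sq]
        gcongr
    _ = u / 700 * N ^ 5 * (294000 * x ^ 401) := by ring
    _ ≤ u / 700 * N ^ 5 * N := by gcongr
    _ = _ := by ring

/-- (C) -/
lemma ineqC (hx : 10 ^ 6 ≤ x) (hN : x ^ 2000 ≤ N) (hu : 0 < u) (huN : u ≤ 4 * x ^ 21 * N) :
    u ^ 3 * (N ^ 3 * (79 * N ^ 3)) ≤ u / 700 * (N ^ 3) ^ 3 := by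
  have hx1 : 1 ≤ x := by linarith [show (1 : ℝ) ≤ 10 ^ 6 by norm_num]
  have hx0 : 0 < x := by linarith
  have hN1 : 1 ≤ N := le_trans (one_le_pow₀ hx1) hN
  have hN0 : 0 < N := by linarith
  have h3 : 884800 * x ^ 42 ≤ N :=
    (pow_absorb hx (by norm_num) 42 2000 (by norm_num)).trans hN
  calc u ^ 3 * (N ^ 3 * (79 * N ^ 3)) = u * u ^ 2 * (79 * N ^ 6) := by ring
    _ ≤ u * (4 * x ^ 21 * N) ^ 2 * (79 * N ^ 6) := by gcongr
    _ = u / 700 * N ^ 8 * (884800 * x ^ 42) := by ring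
    _ ≤ u / 700 * N ^ 8 * N := by gcongr
    _ = _ := by ring

lemma ineqM (hx : 10 ^ 6 ≤ x) (_hN0 : 0 ≤ N) (hL : L ≤ x) :
    35001 * N ^ 4 * (L / (2 * x ^ 190) + 1 / (x ^ 90 + 1) ^ 2) ≤ 70002 * N ^ 4 / x ^ 180 := by
  have hx1 : 1 ≤ x := by linarith [show (1 : ℝ) ≤ 10 ^ 6 by norm_num]
  have hx0 : 0 < x := by linarith
  have h1 : L / (2 * x ^ 190) ≤ 1 / x ^ 180 := by
    rw [div_le_div_iff₀ (by positivity) (by positivity)]
    calc L * x ^ 180 ≤ x * x ^ 180 := by gcongr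
      _ = x ^ 181 := by ring
      _ ≤ x ^ 190 := pow_le_pow_right₀ hx1 (by norm_num)
      _ ≤ 1 * (2 * x ^ 190) := by
        have : 0 < x ^ 190 := by positivity
        linarith
  have h2 : 1 / (x ^ 90 + 1) ^ 2 ≤ 1 / x ^ 180 := by
    apply one_div_le_one_div_of_le (by positivity)
    calc x ^ 180 = (x ^ 90) ^ 2 := by ring
      _ ≤ (x ^ 90 + 1) ^ 2 := by
        gcongr
        linarith
  calc 35001 * N ^ 4 * (L / (2 * x ^ 190) + 1 / (x ^ 90 + 1) ^ 2)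
      ≤ 35001 * N ^ 4 * (1 / x ^ 180 + 1 / x ^ 180) := by gcongr
    _ = _ := by ring

/-- (T1) -/
lemma ineqT1 (hx : 10 ^ 6 ≤ x) (hN : x ^ 2000 ≤ N) (hu : 0 < u) (huN : u ≤ 4 * x ^ 21 * N)
    (hL0 : 0 ≤ L) (hL : L ≤ x) :
    u ^ 6 * (2 * (35001 * N ^ 4 * (L / (2 * x ^ 190) + 1 / (x ^ 90 + 1) ^ 2)) *
      (N ^ 3 * (34580989 * N ^ 6 * L))) ≤ u / 700 * (N ^ 3) ^ 6 := by
  have hx1 : 1 ≤ x := by linarith [show (1 : ℝ) ≤ 10 ^ 6 by norm_num]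
  have hx0 : 0 < x := by linarith
  have hN1 : 1 ≤ N := le_trans (one_le_pow₀ hx1) hN
  have hN0 : 0 < N := by linarith
  have hM := ineqM hx hN0.le hL
  have h3 : (1024 * 2 * 70002 * 34580989 * 700) * x ^ 106 ≤ x ^ 180 :=
    pow_absorb hx (by norm_num) 106 180 (by norm_num)
  calc u ^ 6 * (2 * (35001 * N ^ 4 * (L / (2 * x ^ 190) + 1 / (x ^ 90 + 1) ^ 2)) *
      (N ^ 3 * (34580989 * N ^ 6 * L)))
      = u * u ^ 5 * (2 * (35001 * N ^ 4 * (L / (2 * x ^ 190) + 1 / (x ^ 90 + 1) ^ 2)) *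
      (N ^ 3 * (34580989 * N ^ 6 * L))) := by ring
    _ ≤ u * (4 * x ^ 21 * N) ^ 5 * (2 * (70002 * N ^ 4 / x ^ 180) *
      (N ^ 3 * (34580989 * N ^ 6 * x))) := by gcongr
    _ = u / 700 * N ^ 18 * (((1024 * 2 * 70002 * 34580989 * 700) * x ^ 106) / x ^ 180) := by
        field_simp
        ring
    _ ≤ u / 700 * N ^ 18 * 1 := by
        gcongr
        rw [div_le_one (by positivity)]
        exact h3
    _ = _ := by ring

/-- (T2) -/
lemma ineqT2 (hx : 10 ^ 6 ≤ x) (hN : x ^ 2000 ≤ N) (hu : 0 < u) (huN : u ≤ 4 * x ^ 21 * N)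
    (hL0 : 0 ≤ L) (hL : L ≤ x) :
    u ^ 9 * (3 * (35001 * N ^ 4 * (L / (2 * x ^ 190) + 1 / (x ^ 90 + 1) ^ 2)) *
      (N ^ 3 * (34580989 * N ^ 6 * L) ^ 2) + 27 * 9 ^ 6 * (2 * x ^ 90 + 1) ^ 9 * N ^ 18) ≤
      u / 700 * (N ^ 3) ^ 9 := by
  have hx1 : 1 ≤ x := by linarith [show (1 : ℝ) ≤ 10 ^ 6 by norm_num]
  have hx0 : 0 < x := by linarith
  have hN1 : 1 ≤ N := le_trans (one_le_pow₀ hx1) hN
  have hN0 : 0 < N := by linarith
  have hM := ineqM hx hN0.le hL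
  have h3 : (65536 * 3 * 70002 * 34580989 ^ 2 * 1400) * x ^ 170 ≤ x ^ 180 := by
    have e1 : (65536 * 3 * 70002 * 34580989 ^ 2 * 1400 : ℝ) ≤ (10 ^ 6) ^ 10 := by norm_num
    calc (65536 * 3 * 70002 * 34580989 ^ 2 * 1400) * x ^ 170 ≤ (10 ^ 6) ^ 10 * x ^ 170 := by gcongr
      _ ≤ x ^ 10 * x ^ 170 := by gcongr
      _ = _ := by ring
  have h4 : (65536 * 27 * 9 ^ 6 * 3 ^ 9 * 1400) * x ^ 978 ≤ N :=
    (pow_absorb hx (by norm_num) 978 2000 (by norm_num)).trans hN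
  have h5 : 2 * x ^ 90 + 1 ≤ 3 * x ^ 90 := by
    have := one_le_pow₀ (n := 90) hx1
    linarith
  have g1 : u ^ 9 * (3 * (35001 * N ^ 4 * (L / (2 * x ^ 190) + 1 / (x ^ 90 + 1) ^ 2)) *
      (N ^ 3 * (34580989 * N ^ 6 * L) ^ 2)) ≤ u / 1400 * N ^ 27 := by
    calc u ^ 9 * (3 * (35001 * N ^ 4 * (L / (2 * x ^ 190) + 1 / (x ^ 90 + 1) ^ 2)) *
      (N ^ 3 * (34580989 * N ^ 6 * L) ^ 2))
        = u * u ^ 8 * (3 * (35001 * N ^ 4 * (L / (2 * x ^ 190) + 1 / (x ^ 90 + 1) ^ 2)) *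
      (N ^ 3 * (34580989 * N ^ 6 * L) ^ 2)) := by ring
      _ ≤ u * (4 * x ^ 21 * N) ^ 8 * (3 * (70002 * N ^ 4 / x ^ 180) *
      (N ^ 3 * (34580989 * N ^ 6 * x) ^ 2)) := by gcongr
      _ = u / 1400 * N ^ 27 * (((65536 * 3 * 70002 * 34580989 ^ 2 * 1400) * x ^ 170) / x ^ 180) := by
          field_simp
          ring
      _ ≤ u / 1400 * N ^ 27 * 1 := by
          gcongr
          rw [div_le_one (by positivity)]
          exact h3
      _ = _ := by ring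
  have g2 : u ^ 9 * (27 * 9 ^ 6 * (2 * x ^ 90 + 1) ^ 9 * N ^ 18) ≤ u / 1400 * N ^ 27 := by
    calc u ^ 9 * (27 * 9 ^ 6 * (2 * x ^ 90 + 1) ^ 9 * N ^ 18)
        = u * u ^ 8 * (27 * 9 ^ 6 * (2 * x ^ 90 + 1) ^ 9 * N ^ 18) := by ring
      _ ≤ u * (4 * x ^ 21 * N) ^ 8 * (27 * 9 ^ 6 * (3 * x ^ 90) ^ 9 * N ^ 18) := by gcongr
      _ = u / 1400 * N ^ 26 * ((65536 * 27 * 9 ^ 6 * 3 ^ 9 * 1400) * x ^ 978) := by ring
      _ ≤ u / 1400 * N ^ 26 * N := by gcongr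
      _ = _ := by ring
  calc _ = u ^ 9 * (3 * (35001 * N ^ 4 * (L / (2 * x ^ 190) + 1 / (x ^ 90 + 1) ^ 2)) *
      (N ^ 3 * (34580989 * N ^ 6 * L) ^ 2)) + u ^ 9 * (27 * 9 ^ 6 * (2 * x ^ 90 + 1) ^ 9 * N ^ 18) := by
        ring
    _ ≤ u / 1400 * N ^ 27 + u / 1400 * N ^ 27 := add_le_add g1 g2
    _ = _ := by ring

/-- (4) against the degree threshold -/
lemma ineq4 (hx : 10 ^ 6 ≤ x) (hN0 : 0 < N) (hu : 0 < u) (huN : u ≤ 4 * x ^ 21 * N)
    (hL0 : 0 ≤ L) (hL : L ≤ x) :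
    7 * (u ^ 4 * (34580989 * L) / N ^ 3) ≤ x ^ 100 * (u / 100) := by
  have hx1 : 1 ≤ x := by linarith [show (1 : ℝ) ≤ 10 ^ 6 by norm_num]
  have hx0 : 0 < x := by linarith
  have h3 : (7 * 64 * 34580989 * 100) * x ^ 64 ≤ x ^ 100 :=
    pow_absorb hx (by norm_num) 64 100 (by norm_num)
  have h4 : u ^ 4 ≤ u * (4 * x ^ 21 * N) ^ 3 := by
    calc u ^ 4 = u * u ^ 3 := by ring
      _ ≤ _ := by gcongr
  calc 7 * (u ^ 4 * (34580989 * L) / N ^ 3)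
      ≤ 7 * ((u * (4 * x ^ 21 * N) ^ 3) * (34580989 * x) / N ^ 3) := by gcongr
    _ = ((7 * 64 * 34580989 * 100) * x ^ 64) * (u / 100) := by
        field_simp
        ring
    _ ≤ _ := by gcongr

end params

/-- names of the functionals -/
inductive Fn | E | C | T1 | T2 | F4 | F3 | F5
  deriving DecidableEq

instance : Fintype Fn := ⟨{.E, .C, .T1, .T2, .F4, .F3, .F5}, by intro x; cases x <;> decide⟩

/-- arity -/
def Fn.r : Fn → ℕ
  | .E => 2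
  | .C => 3
  | .T1 => 6
  | .T2 => 9
  | .F4 => 4
  | .F3 => 3
  | .F5 => 5

/-- the condition -/
def Fn.S (G h : ℕ) : (j : Fn) → (Fin j.r → Pt) → Prop
  | .E => SE G
  | .C => SC
  | .T1 => ST1 G
  | .T2 => ST2 G
  | .F4 => S4
  | .F3 => S3 h
  | .F5 => S5 h

/-- the bounds for the means -/
noncomputable def Fn.B (b n N h : ℕ) : Fn → ℝ
  | .E => (R0 b n : ℝ) / 700
  | .C => (R0 b n : ℝ) / 700
  | .T1 => (R0 b n : ℝ) / 700
  | .T2 => (R0 b n : ℝ) / 700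
  | .F4 => (R0 b n : ℝ) ^ 4 * (34580989 * (1 + Real.log N)) / (N : ℝ) ^ 3
  | .F3 => (R0 b n : ℝ) ^ 3 * 2106 * h / (N : ℝ) ^ 2
  | .F5 => (R0 b n : ℝ) ^ 5 * (26 * 18 ^ 4) / (h * (N : ℝ) ^ 4)

theorem exists_cand {b n N h : ℕ} (hb : 10 ^ 6 ≤ b) (hbN : b ^ 2000 ≤ N)
    (hL : 1 + Real.log N ≤ b) (hn : 1 ≤ n) (hnN : n ≤ b * N) (hh : 1 ≤ h) (hhN : h ≤ N) :
    ∃ C : Finset Pt, Cand N (2 * b ^ 190) h ((b : ℝ) ^ 100) (B4 b n N) (B3 b n N h) (B5 b n N h) C ∧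
      (R0 b n : ℝ) / 2 ≤ C.card ∧ C.card ≤ R0 b n := by
  have hx : (10 : ℝ) ^ 6 ≤ b := by exact_mod_cast hb
  have hx1 : (1 : ℝ) ≤ b := by linarith [show (1 : ℝ) ≤ 10 ^ 6 by norm_num]
  have hx0 : (0 : ℝ) < b := by linarith
  have hb0 : 0 < b := by exact_mod_cast hx0
  have hNR : (b : ℝ) ^ 2000 ≤ N := by exact_mod_cast hbN
  have hN1R : (1 : ℝ) ≤ N := le_trans (one_le_pow₀ hx1) hNR
  have hN1 : 1 ≤ N := by exact_mod_cast hN1R
  have hN0R : (0 : ℝ) < N := by linarith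
  have hlog : 0 ≤ Real.log N := Real.log_nonneg hN1R
  have hn0 : (0 : ℝ) < n := by exact_mod_cast hn
  have hh0 : (0 : ℝ) < h := by exact_mod_cast hh
  have hu : (0 : ℝ) < (R0 b n : ℝ) := by
    unfold R0
    push_cast
    positivity
  have huN : (R0 b n : ℝ) ≤ 4 * (b : ℝ) ^ 21 * N := by
    unfold R0
    push_cast
    have : (n : ℝ) ≤ b * N := by exact_mod_cast hnN
    calc 4 * (n : ℝ) * (b : ℝ) ^ 20 ≤ 4 * (b * N) * (b : ℝ) ^ 20 := by gcongr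
      _ = _ := by ring
  have hbox : (box N).Nonempty := by
    rw [← Finset.card_pos, card_box]
    positivity
  have hboxc : ((box N).card : ℝ) = (N : ℝ) ^ 3 := by rw [card_box]; push_cast; rfl
  have hH : b ^ 90 ≤ N := le_trans (Nat.pow_le_pow_right hb0 (by norm_num)) hbN
  have hG1 : 1 ≤ 2 * b ^ 190 := by
    have := Nat.one_le_pow 190 b hb0
    omega
  have hGH : 2 * (b ^ 90) ^ 2 ≤ 2 * b ^ 190 := by
    rw [← pow_mul]
    exact Nat.mul_le_mul_left _ (Nat.pow_le_pow_right hb0 (by norm_num))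
  have hMM : MM N (2 * b ^ 190) (b ^ 90) = 35001 * (N : ℝ) ^ 4 *
      ((1 + Real.log N) / (2 * (b : ℝ) ^ 190) + 1 / ((b : ℝ) ^ 90 + 1) ^ 2) := by
    unfold MM
    push_cast
    rfl
  have hTT : TT N = 34580989 * (N : ℝ) ^ 6 * (1 + Real.log N) := rfl
  obtain ⟨p, hp, hX⟩ := exists_sample (R := R0 b n) (box N) hbox Fn.r (Fn.S (2 * b ^ 190) h)
    (Fn.B b n N h) (by
      intro j
      cases j <;> simp only [Fn.B] <;> positivity) (by
      intro j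
      rw [hboxc]
      cases j
      · refine le_trans (mul_le_mul_of_nonneg_left (cntE (N := N) (2 * b ^ 190)) (by positivity)) ?_
        push_cast
        exact ineqE hx hNR hu huN
      · refine le_trans (mul_le_mul_of_nonneg_left (cntC (N := N)) (by positivity)) ?_
        exact ineqC hx hNR hu huN
      · refine le_trans (mul_le_mul_of_nonneg_left (cntT1 (N := N) hN1 hG1 hGH) (by positivity)) ?_
        rw [hMM, hTT]
        exact ineqT1 hx hNR hu huN (by positivity) hL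
      · refine le_trans (mul_le_mul_of_nonneg_left (cntT2 (N := N) hN1 hG1 hH) (by positivity)) ?_
        rw [hMM, hTT]
        push_cast
        exact ineqT2 hx hNR hu huN (by positivity) hL
      · refine le_trans (mul_le_mul_of_nonneg_left (cnt4 (N := N)) (by positivity)) ?_
        rw [hTT]
        simp only [Fn.B, Fn.r]
        apply le_of_eq
        field_simp
      · refine le_trans (mul_le_mul_of_nonneg_left (cnt3 (N := N) hhN) (by positivity)) ?_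
        simp only [Fn.B, Fn.r]
        apply le_of_eq
        field_simp
      · refine le_trans (mul_le_mul_of_nonneg_left (cnt5 (N := N) hh) (by positivity)) ?_
        simp only [Fn.B, Fn.r]
        apply le_of_eq
        field_simp)
  have h7 : (Fintype.card Fn : ℝ) = 7 := by
    have : Fintype.card Fn = 7 := rfl
    rw [this]
    norm_num
  rw [h7] at hX
  have hR : 0 < R0 b n := by exact_mod_cast hu
  obtain ⟨C, hC1, hC2, hC3⟩ := deletion (N := N) (G := 2 * b ^ 190) (h := h) hR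
    (Del := (b : ℝ) ^ 100) (B4 := B4 b n N) (B3 := B3 b n N h) (B5 := B5 b n N h)
    (by positivity) p hp
    ((hX .E).trans (by simp only [Fn.B]; linarith))
    ((hX .C).trans (by simp only [Fn.B]; linarith))
    ((hX .T1).trans (by simp only [Fn.B]; linarith))
    ((hX .T2).trans (by simp only [Fn.B]; linarith))
    (hX .F4) (by
      unfold B4
      exact ineq4 hx hN0R hu huN (by positivity) hL)
    (hX .F3) (hX .F5)
  exact ⟨C, hC1, hC2, hC3⟩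

end Pool.Agent.Grid3D.Samp
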